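import Pool.Agent.VGS.Basic

/-! Algebraic independence over subfields of `ℂ`. -/

set_option autoImplicit false

open scoped LinearAlgebra.Projectivization
open MvPolynomial

namespace Pool.Agent.VGS

theorem ai_iff' {R : Type} [CommRing R] [Algebra R ℂ] (hR : Function.Injective (algebraMap R ℂ))
    {ι : Type} {x : ι → ℂ} :
    AlgebraicIndependent R x ↔ ∀ P : MvPolynomial ι ℂ,
      (∀ m, coeff m P ∈ Set.range (algebraMap R ℂ)) → aeval x P = 0 → P = 0 := by
  rw [algebraicIndependent_iff]
  constructor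
  · intro h P hP hx
    have : P ∈ Set.range (MvPolynomial.map (σ := ι) (algebraMap R ℂ)) := by
      rw [MvPolynomial.mem_range_map_iff_coeffs_subset]
      intro c hc
      obtain ⟨m, -, rfl⟩ := MvPolynomial.mem_coeffs_iff.1 hc
      exact hP m
    obtain ⟨Q, rfl⟩ := this
    rw [aeval_map_algebraMap] at hx
    rw [h Q hx, map_zero]
  · intro h Q hQ
    have := h (MvPolynomial.map (algebraMap R ℂ) Q)
      (fun m => by rw [MvPolynomial.coeff_map]; exact ⟨_, rfl⟩)
      (by rw [aeval_map_algebraMap]; exact hQ)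
    exact (map_eq_zero_iff _ (MvPolynomial.map_injective _ hR)).1 this

theorem ai_iff {L : Fl} {ι : Type} {x : ι → ℂ} :
    AlgebraicIndependent L x ↔ ∀ P : MvPolynomial ι ℂ, Coef L P → aeval x P = 0 → P = 0 := by
  rw [ai_iff' (algebraMap L ℂ).injective]
  have h : ∀ c : ℂ, c ∈ Set.range (algebraMap L ℂ) ↔ c ∈ L := fun c =>
    ⟨by rintro ⟨y, rfl⟩; exact y.2, fun h => ⟨⟨c, h⟩, rfl⟩⟩
  constructor
  · intro H P hP; exact H P fun m => (h _).2 (hP m)
  · intro H P hP; exact H P fun m => (h _).1 (hP m)

theorem ai_mono {L L' : Fl} (h : L ≤ L') {ι : Type} {x : ι → ℂ} (hx : AlgebraicIndependent L' x) :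
    AlgebraicIndependent L x :=
  ai_iff.2 fun P hP h0 => ai_iff.1 hx P (hP.mono h) h0

theorem ai_clo {L : Fl} {ι : Type} {x : ι → ℂ} :
    AlgebraicIndependent (clo L) x ↔ AlgebraicIndependent L x := by
  constructor
  · exact ai_mono (le_clo L)
  · intro hx
    have h := (ai_iff' (algebraMap (algebraicClosure L ℂ) ℂ).injective).1 hx.algebraicClosure
    rw [ai_iff]
    intro P hP h0
    exact h P (fun m => ⟨⟨_, hP m⟩, rfl⟩) h0

theorem ai_mono_clo {L L' : Fl} (h : L' ≤ clo L) {ι : Type} {x : ι → ℂ}
    (hx : AlgebraicIndependent L x) : AlgebraicIndependent L' x :=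
  ai_mono h (ai_clo.2 hx)

theorem mem_adj_iff {L : Fl} {S : Set ℂ} {x : ℂ} :
    x ∈ adj L S ↔ x ∈ IntermediateField.adjoin L S := by
  have h1 : adj L S ≤ (IntermediateField.adjoin L S).restrictScalars ℚ := by
    apply sup_le
    · intro y hy
      exact (IntermediateField.adjoin L S).algebraMap_mem ⟨y, hy⟩
    · rw [IntermediateField.adjoin_le_iff]
      intro y hy
      exact IntermediateField.subset_adjoin L S hy
  constructor
  · intro hx; exact h1 hx
  · intro hx
    let A : IntermediateField L ℂ :=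
      { (adj L S).toSubfield with
        algebraMap_mem' := fun r => le_adj L S r.2 }
    have h2 : IntermediateField.adjoin L S ≤ A := by
      rw [IntermediateField.adjoin_le_iff]
      intro y hy
      exact subset_adj L S hy
    exact h2 hx

theorem ai_adj {L : Fl} {S : Set ℂ} {ι : Type} {x : ι → ℂ} :
    AlgebraicIndependent (adj L S) x ↔ AlgebraicIndependent (Algebra.adjoin L S) x := by
  rw [← IntermediateField.algebraicIndependent_adjoin_iff (F := L) (E := ℂ) (s := S),
    ai_iff' (algebraMap (adj L S) ℂ).injective,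
    ai_iff' (algebraMap (IntermediateField.adjoin L S) ℂ).injective]
  have h : Set.range (algebraMap (adj L S) ℂ) =
      Set.range (algebraMap (IntermediateField.adjoin L S) ℂ) := by
    ext c
    constructor
    · rintro ⟨y, rfl⟩; exact ⟨⟨y.1, mem_adj_iff.1 y.2⟩, rfl⟩
    · rintro ⟨y, rfl⟩; exact ⟨⟨y.1, mem_adj_iff.2 y.2⟩, rfl⟩
  rw [h]

theorem ai_sum {L : Fl} {ι κ : Type} {x : ι → ℂ} {y : κ → ℂ} :
    AlgebraicIndependent L (Sum.elim x y) ↔
      AlgebraicIndependent L x ∧ AlgebraicIndependent (adj L (Set.range x)) y := by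
  rw [ai_adj, ← AlgebraicIndependent.sumElim_iff]
  rw [← algebraicIndependent_equiv' (Equiv.sumComm ι κ) (f := Sum.elim y x) (g := Sum.elim x y)]
  ext (i | i) <;> rfl

theorem mem_clo_adj {L : Fl} {S : Set ℂ} {a : ℂ} :
    a ∈ clo (adj L S) ↔ IsAlgebraic (Algebra.adjoin L S) a := by
  rw [mem_clo, ← IntermediateField.isAlgebraic_adjoin_iff (F := L) (E := ℂ) (s := S)]
  let e : adj L S ≃+* IntermediateField.adjoin L S :=
    { toFun := fun x => ⟨x.1, mem_adj_iff.1 x.2⟩
      invFun := fun x => ⟨x.1, mem_adj_iff.2 x.2⟩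
      left_inv := fun _ => rfl
      right_inv := fun _ => rfl
      map_mul' := fun _ _ => rfl
      map_add' := fun _ _ => rfl }
  constructor
  · rintro ⟨p, hp, h0⟩
    refine ⟨p.map e.toRingHom, ?_, ?_⟩
    · exact (Polynomial.map_ne_zero_iff e.injective).2 hp
    · rw [← h0, Polynomial.aeval_def, Polynomial.aeval_def, Polynomial.eval₂_map]
      rfl
  · rintro ⟨p, hp, h0⟩
    refine ⟨p.map e.symm.toRingHom, ?_, ?_⟩
    · exact (Polynomial.map_ne_zero_iff e.symm.injective).2 hp
    · rw [← h0, Polynomial.aeval_def, Polynomial.aeval_def, Polynomial.eval₂_map]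
      rfl

/-- a spanning family which is not larger than an independent family is independent -/
theorem ai_card {L : Fl} {ι κ : Type} [Finite ι] [Finite κ] {x : ι → ℂ}
    (hx : AlgebraicIndependent L x) {y : κ → ℂ} (hc : Nat.card κ ≤ Nat.card ι)
    (h : ∀ i, x i ∈ clo (adj L (Set.range y))) : AlgebraicIndependent L y := by
  classical
  let M := AlgebraicIndependent.matroid L ℂ
  have hI : M.Indep (Set.range x) := hx.to_subtype_range
  have hcl : Set.range x ⊆ M.closure (Set.range y) := by
    rintro _ ⟨i, rfl⟩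
    rw [AlgebraicIndependent.matroid_closure_eq]
    exact mem_clo_adj.1 (h i)
  have h1 : (Set.range x).encard = (Nat.card ι : ℕ∞) := by
    rw [← Set.image_univ, Set.InjOn.encard_image hx.injective.injOn, Set.encard_univ,
      ENat.card_eq_coe_natCard]
  have h2 : (Set.range y).encard ≤ (Nat.card κ : ℕ∞) := by
    rw [← Set.image_univ, ← ENat.card_eq_coe_natCard, ← Set.encard_univ]
    exact Set.encard_image_le y Set.univ
  have h3 : (Nat.card ι : ℕ∞) ≤ M.eRk (Set.range y) := by
    rw [← h1, ← hI.eRk_eq_encard, ← M.eRk_closure_eq (Set.range y)]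
    exact M.eRk_mono hcl
  have h4 : M.eRk (Set.range y) ≤ (Set.range y).encard := M.eRk_le_encard _
  have h5 : (Nat.card κ : ℕ∞) ≤ Nat.card ι := by exact_mod_cast hc
  have h6 : (Set.range y).encard = (Nat.card κ : ℕ∞) := le_antisymm h2 (h5.trans (h3.trans h4))
  have hfin : (Set.range y).Finite := Set.finite_range y
  have h7 : M.Indep (Set.range y) := by
    rw [Matroid.indep_iff_eRk_eq_encard_of_finite hfin]
    exact le_antisymm h4 (h2.trans (h5.trans h3))
  have h8 : Function.Injective y := by
    have : Set.InjOn y Set.univ := by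
      apply Set.Finite.injOn_of_encard_image_eq Set.finite_univ
      rw [Set.image_univ, h6, Set.encard_univ, ENat.card_eq_coe_natCard]
    exact Set.injOn_univ.1 this
  exact (algebraicIndependent_subtype_range h8).1 h7

end Pool.Agent.VGS
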