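import Mathlib

/-! Module NH: the theorem of Nagata and Higman, modulo an ideal. -/

set_option autoImplicit false

namespace Pool.Agent.VGS

section NH

set_option linter.unusedSectionVars false

variable {B : Type} [Ring B] [Algebra ℚ B]

/-- the coefficients of `(x + q y) ^ m` -/
def nhc (x y : B) : ℕ → ℕ → B
  | 0, 0 => 1
  | 0, _ + 1 => 0
  | m + 1, 0 => nhc x y m 0 * x
  | m + 1, k + 1 => nhc x y m (k + 1) * x + nhc x y m k * y

theorem nhc_zero (x y : B) (m : ℕ) : nhc x y m 0 = x ^ m := by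
  induction m with
  | zero => simp [nhc]
  | succ m ih => simp [nhc, ih, pow_succ]

theorem nhc_lt (x y : B) (m : ℕ) : ∀ k, m < k → nhc x y m k = 0 := by
  induction m with
  | zero =>
    intro k hk
    obtain ⟨k, rfl⟩ : ∃ j, k = j + 1 := ⟨k - 1, by omega⟩
    simp [nhc]
  | succ m ih =>
    intro k hk
    obtain ⟨k, rfl⟩ : ∃ j, k = j + 1 := ⟨k - 1, by omega⟩
    simp [nhc, ih (k + 1) (by omega), ih k (by omega)]

theorem nhc_one (x y : B) (m : ℕ) :
    nhc x y (m + 1) 1 = ∑ i ∈ Finset.range (m + 1), x ^ i * y * x ^ (m - i) := by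
  induction m with
  | zero => simp [nhc]
  | succ m ih =>
    have h1 : nhc x y (m + 2) 1 = nhc x y (m + 1) 1 * x + nhc x y (m + 1) 0 * y := rfl
    rw [h1, ih, nhc_zero, Finset.sum_range_succ _ (m + 1), Finset.sum_mul]
    congr 1
    · refine Finset.sum_congr rfl (fun i hi => ?_)
      rw [Finset.mem_range] at hi
      have h2 : m + 1 - i = (m - i) + 1 := by omega
      rw [h2, pow_succ, mul_assoc, mul_assoc]
    · simp

theorem nhc_pow (x y : B) (q : ℚ) (m : ℕ) :
    (x + q • y) ^ m = ∑ k ∈ Finset.range (m + 1), q ^ k • nhc x y m k := by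
  induction m with
  | zero => simp [nhc]
  | succ m ih =>
    have h1 : ∑ k ∈ Finset.range (m + 2), q ^ k • nhc x y m k =
        ∑ k ∈ Finset.range (m + 1), q ^ k • nhc x y m k := by
      rw [Finset.sum_range_succ _ (m + 1), nhc_lt x y m (m + 1) (by omega), smul_zero, add_zero]
    have h2 : ∑ k ∈ Finset.range (m + 1 + 1), q ^ k • nhc x y (m + 1) k =
        (∑ k ∈ Finset.range (m + 2), q ^ k • nhc x y m k) * x +
        q • ((∑ k ∈ Finset.range (m + 1), q ^ k • nhc x y m k) * y) := by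
      rw [Finset.sum_range_succ' _ (m + 1), Finset.sum_range_succ' _ (m + 1), add_mul,
        Finset.sum_mul, Finset.sum_mul, Finset.smul_sum]
      have h3 : ∀ k, q ^ (k + 1) • nhc x y (m + 1) (k + 1) =
          q ^ (k + 1) • nhc x y m (k + 1) * x + q • (q ^ k • nhc x y m k * y) := by
        intro k
        have h4 : nhc x y (m + 1) (k + 1) = nhc x y m (k + 1) * x + nhc x y m k * y := rfl
        rw [h4, smul_add, smul_mul_assoc, smul_mul_assoc, smul_smul, pow_succ' q k]
      rw [Finset.sum_congr rfl (fun k _ => h3 k), Finset.sum_add_distrib]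
      have h5 : nhc x y (m + 1) 0 = nhc x y m 0 * x := rfl
      rw [h5]
      simp only [pow_zero, one_smul]
      abel
    rw [h2, h1, ← ih, pow_succ, mul_add, mul_smul_comm]

/-- extraction of the linear term -/
theorem nh_lin (J : Submodule ℚ B) (x y : B) (m : ℕ)
    (h : ∀ q : ℚ, (x + q • y) ^ (m + 1) ∈ J) :
    ∑ i ∈ Finset.range (m + 1), x ^ i * y * x ^ (m - i) ∈ J := by
  rw [← nhc_one]
  by_contra hc
  obtain ⟨φ, hφ, hφJ⟩ := Submodule.exists_le_ker_of_notMem hc
  have hP : (∑ k ∈ Finset.range (m + 2), Polynomial.C (φ (nhc x y (m + 1) k)) *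
      Polynomial.X ^ k : Polynomial ℚ) = 0 := by
    refine Polynomial.funext (fun q => ?_)
    have h1 : φ ((x + q • y) ^ (m + 1)) = 0 := hφJ (h q)
    rw [nhc_pow, map_sum] at h1
    rw [Polynomial.eval_finsetSum, Polynomial.eval_zero, ← h1]
    refine Finset.sum_congr rfl (fun k _ => ?_)
    rw [Polynomial.eval_mul, Polynomial.eval_C, Polynomial.eval_pow, Polynomial.eval_X, map_smul,
      smul_eq_mul, mul_comm]
  have h2 := congrArg (fun P : Polynomial ℚ => P.coeff 1) hP
  simp only [Polynomial.finsetSum_coeff, Polynomial.coeff_C_mul, Polynomial.coeff_X_pow,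
    Polynomial.coeff_zero] at h2
  rw [Finset.sum_eq_single 1] at h2
  · apply hφ
    rw [if_pos rfl, mul_one] at h2
    exact h2
  · intro b _ hb
    rw [if_neg (by omega), mul_zero]
  · intro hb
    exact absurd (Finset.mem_range.mpr (by omega)) hb

variable {R J : Submodule ℚ B}

theorem nh_pow_mem (hR : ∀ x ∈ R, ∀ y ∈ R, x * y ∈ R) {x : B} (hx : x ∈ R) (n : ℕ) :
    x ^ (n + 1) ∈ R := by
  induction n with
  | zero => simpa using hx
  | succ n ih =>
    rw [pow_succ]
    exact hR _ ih _ hx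

/-- multiplication by elements of `R` or `1` -/
theorem nh_mul_pow (hR : ∀ x ∈ R, ∀ y ∈ R, x * y ∈ R) {N : Submodule ℚ B}
    (hN : ∀ x ∈ N, ∀ y ∈ R, x * y ∈ N) {z x : B} (hz : z ∈ N) (hx : x ∈ R) (n : ℕ) :
    z * x ^ n ∈ N := by
  cases n with
  | zero => simpa using hz
  | succ n => exact hN _ hz _ (nh_pow_mem hR hx n)

theorem nh_pow_mul (hR : ∀ x ∈ R, ∀ y ∈ R, x * y ∈ R) {N : Submodule ℚ B}
    (hN : ∀ x ∈ R, ∀ y ∈ N, x * y ∈ N) {z x : B} (hz : z ∈ N) (hx : x ∈ R) (n : ℕ) :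
    x ^ n * z ∈ N := by
  cases n with
  | zero => simpa using hz
  | succ n => exact hN _ (nh_pow_mem hR hx n) _ hz

/-- the identity of Nagata and Higman -/
theorem nh_key (hR : ∀ x ∈ R, ∀ y ∈ R, x * y ∈ R)
    (hJl : ∀ x ∈ R, ∀ y ∈ J, x * y ∈ J) (hJr : ∀ x ∈ J, ∀ y ∈ R, x * y ∈ J) (m : ℕ)
    (h : ∀ x ∈ R, x ^ (m + 1) ∈ J) {x y z : B} (hx : x ∈ R) (hy : y ∈ R) (hz : z ∈ R) :
    x ^ m * z * y ^ m ∈ J := by
  have hL : ∀ a ∈ R, ∀ b ∈ R, ∑ i ∈ Finset.range (m + 1), a ^ i * b * a ^ (m - i) ∈ J :=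
    fun a ha b hb => nh_lin J a b m (fun q => h _ (R.add_mem ha (R.smul_mem q hb)))
  have hT1 : ∑ i ∈ Finset.range (m + 1), ∑ j ∈ Finset.range (m + 1),
      x ^ i * (z * y ^ j) * x ^ (m - i) * y ^ (m - j) ∈ J := by
    rw [Finset.sum_comm]
    refine J.sum_mem (fun j _ => ?_)
    rw [← Finset.sum_mul]
    exact nh_mul_pow hR hJr (hL x hx _ (nh_mul_pow hR hR hz hy j)) hy _
  rw [Finset.sum_range_succ] at hT1
  have hT2 : ∑ i ∈ Finset.range m, ∑ j ∈ Finset.range (m + 1),
      x ^ i * (z * y ^ j) * x ^ (m - i) * y ^ (m - j) ∈ J := by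
    refine J.sum_mem (fun i hi => ?_)
    rw [Finset.mem_range] at hi
    have h1 : ∑ j ∈ Finset.range (m + 1), x ^ i * (z * y ^ j) * x ^ (m - i) * y ^ (m - j) =
        x ^ i * (z * ∑ j ∈ Finset.range (m + 1), y ^ j * x ^ (m - i) * y ^ (m - j)) := by
      rw [Finset.mul_sum, Finset.mul_sum]
      refine Finset.sum_congr rfl (fun j _ => ?_)
      simp only [mul_assoc]
    rw [h1]
    refine nh_pow_mul hR hJl (hJl _ hz _ (hL y hy _ ?_)) hx i
    obtain ⟨k, hk⟩ : ∃ k, m - i = k + 1 := ⟨m - i - 1, by omega⟩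
    rw [hk]
    exact nh_pow_mem hR hx k
  have hT3 := J.sub_mem hT1 hT2
  rw [add_sub_cancel_left] at hT3
  have h4 : ∑ j ∈ Finset.range (m + 1), x ^ m * (z * y ^ j) * x ^ (m - m) * y ^ (m - j) =
      ((m + 1 : ℕ) : ℚ) • (x ^ m * z * y ^ m) := by
    have h5 : ∀ j ∈ Finset.range (m + 1),
        x ^ m * (z * y ^ j) * x ^ (m - m) * y ^ (m - j) = x ^ m * z * y ^ m := by
      intro j hj
      rw [Finset.mem_range] at hj
      have h6 : y ^ m = y ^ j * y ^ (m - j) := by
        rw [← pow_add]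
        congr 1
        omega
      rw [Nat.sub_self, pow_zero, mul_one, h6]
      simp only [mul_assoc]
    rw [Finset.sum_congr rfl h5, Finset.sum_const, Finset.card_range, Nat.cast_smul_eq_nsmul]
  rw [h4] at hT3
  have h7 := J.smul_mem (((m + 1 : ℕ) : ℚ)⁻¹) hT3
  rwa [smul_smul, inv_mul_cancel₀ (by positivity), one_smul] at h7

theorem nh_list_mem (hR : ∀ x ∈ R, ∀ y ∈ R, x * y ∈ R) (l : List B) (hl : ∀ x ∈ l, x ∈ R)
    (h0 : l ≠ []) : l.prod ∈ R := by
  induction l with
  | nil => exact absurd rfl h0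
  | cons a l ih =>
    rw [List.prod_cons]
    by_cases h1 : l = []
    · subst h1
      simpa using hl a (by simp)
    · exact hR _ (hl a (by simp)) _ (ih (fun x hx => hl x (by simp [hx])) h1)

/-- **The theorem of Nagata and Higman**, modulo an ideal. -/
theorem nagata_higman (hR : ∀ x ∈ R, ∀ y ∈ R, x * y ∈ R) (n : ℕ) :
    ∀ J : Submodule ℚ B, J ≤ R → (∀ x ∈ R, ∀ y ∈ J, x * y ∈ J) → (∀ x ∈ J, ∀ y ∈ R, x * y ∈ J) →
      (∀ x ∈ R, x ^ (n + 1) ∈ J) → ∀ l : List B, (∀ x ∈ l, x ∈ R) → 2 ^ (n + 1) - 1 ≤ l.length →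
      l.prod ∈ J := by
  induction n with
  | zero =>
    intro J hJR hJl hJr h l hl hlen
    have h1 : l ≠ [] := by
      rintro rfl
      simp at hlen
    have h2 := h _ (nh_list_mem hR l hl h1)
    simpa using h2
  | succ n ih =>
    intro J hJR hJl hJr h l hl hlen
    set W : Set B := {w | ∃ x ∈ R, ∃ s t : B, (s = 1 ∨ s ∈ R) ∧ (t = 1 ∨ t ∈ R) ∧
      w = s * x ^ (n + 1) * t} with hW
    set J' : Submodule ℚ B := Submodule.span ℚ W ⊔ J with hJ'
    -- multiplication by elements of `R` or `1`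
    have h1R : ∀ s : B, (s = 1 ∨ s ∈ R) → ∀ x ∈ R, s * x ∈ R := by
      rintro s (rfl | hs) x hx
      · simpa using hx
      · exact hR _ hs _ hx
    have hR1 : ∀ s : B, (s = 1 ∨ s ∈ R) → ∀ x ∈ R, x * s ∈ R := by
      rintro s (rfl | hs) x hx
      · simpa using hx
      · exact hR _ hx _ hs
    have hJ1l : ∀ s : B, (s = 1 ∨ s ∈ R) → ∀ x ∈ J, s * x ∈ J := by
      rintro s (rfl | hs) x hx
      · simpa using hx
      · exact hJl _ hs _ hx
    have hJ1r : ∀ s : B, (s = 1 ∨ s ∈ R) → ∀ x ∈ J, x * s ∈ J := by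
      rintro s (rfl | hs) x hx
      · simpa using hx
      · exact hJr _ hx _ hs
    have hWR : Submodule.span ℚ W ≤ R := by
      rw [Submodule.span_le]
      rintro w ⟨x, hx, s, t, hs, ht, rfl⟩
      exact hR1 t ht _ (h1R s hs _ (nh_pow_mem hR hx n))
    have hJ'R : J' ≤ R := sup_le hWR hJR
    have hWl : ∀ x ∈ R, ∀ y ∈ Submodule.span ℚ W, x * y ∈ Submodule.span ℚ W := by
      intro x hx y hy
      induction hy using Submodule.span_induction with
      | mem w hw =>
        obtain ⟨a, ha, s, t, hs, ht, rfl⟩ := hw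
        refine Submodule.subset_span ⟨a, ha, x * s, t, Or.inr (hR1 s hs x hx), ht, ?_⟩
        simp only [mul_assoc]
      | zero => simp
      | add a b _ _ ha hb =>
        rw [mul_add]
        exact add_mem ha hb
      | smul q a _ ha =>
        rw [mul_smul_comm]
        exact Submodule.smul_mem _ q ha
    have hWr : ∀ y ∈ Submodule.span ℚ W, ∀ x ∈ R, y * x ∈ Submodule.span ℚ W := by
      intro y hy x hx
      induction hy using Submodule.span_induction with
      | mem w hw =>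
        obtain ⟨a, ha, s, t, hs, ht, rfl⟩ := hw
        refine Submodule.subset_span ⟨a, ha, s, t * x, hs, Or.inr (h1R t ht x hx), ?_⟩
        simp only [mul_assoc]
      | zero => simp
      | add a b _ _ ha hb =>
        rw [add_mul]
        exact add_mem ha hb
      | smul q a _ ha =>
        rw [smul_mul_assoc]
        exact Submodule.smul_mem _ q ha
    have hJ'l : ∀ x ∈ R, ∀ y ∈ J', x * y ∈ J' := by
      intro x hx y hy
      rw [hJ', Submodule.mem_sup] at hy
      obtain ⟨a, ha, b, hb, rfl⟩ := hy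
      rw [mul_add]
      exact add_mem (Submodule.mem_sup_left (hWl x hx a ha)) (Submodule.mem_sup_right (hJl x hx b hb))
    have hJ'r : ∀ y ∈ J', ∀ x ∈ R, y * x ∈ J' := by
      intro y hy x hx
      rw [hJ', Submodule.mem_sup] at hy
      obtain ⟨a, ha, b, hb, rfl⟩ := hy
      rw [add_mul]
      exact add_mem (Submodule.mem_sup_left (hWr a ha x hx)) (Submodule.mem_sup_right (hJr b hb x hx))
    have hpow : ∀ x ∈ R, x ^ (n + 1) ∈ J' := by
      intro x hx
      refine Submodule.mem_sup_left (Submodule.subset_span ⟨x, hx, 1, 1, Or.inl rfl, Or.inl rfl, ?_⟩)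
      simp
    -- the square of `J'`
    have hsq0 : ∀ z ∈ R, ∀ u ∈ Submodule.span ℚ W, ∀ v ∈ Submodule.span ℚ W, u * z * v ∈ J := by
      intro z hz u hu
      induction hu using Submodule.span_induction with
      | mem w hw =>
        obtain ⟨a, ha, s, t, hs, ht, rfl⟩ := hw
        intro v hv
        induction hv using Submodule.span_induction with
        | mem w' hw' =>
          obtain ⟨a', ha', s', t', hs', ht', rfl⟩ := hw'
          have h2 : s * a ^ (n + 1) * t * z * (s' * a' ^ (n + 1) * t') =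
              s * (a ^ (n + 1) * (t * z * s') * a' ^ (n + 1)) * t' := by
            simp only [mul_assoc]
          rw [h2]
          exact hJ1r t' ht' _ (hJ1l s hs _ (nh_key hR hJl hJr (n + 1) h ha ha'
            (hR1 s' hs' _ (h1R t ht z hz))))
        | zero => simp
        | add c d _ _ hc hd =>
          rw [mul_add]
          exact add_mem hc hd
        | smul q c _ hc =>
          rw [mul_smul_comm]
          exact Submodule.smul_mem _ q hc
      | zero => intro v _; simp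
      | add c d _ _ hc hd =>
        intro v hv
        rw [add_mul, add_mul]
        exact add_mem (hc v hv) (hd v hv)
      | smul q c _ hc =>
        intro v hv
        rw [smul_mul_assoc, smul_mul_assoc]
        exact Submodule.smul_mem _ q (hc v hv)
    have hsq : ∀ z ∈ R, ∀ u ∈ J', ∀ v ∈ J', u * z * v ∈ J := by
      intro z hz u hu v hv
      have huR := hJ'R hu
      have hvR := hJ'R hv
      rw [hJ', Submodule.mem_sup] at hu hv
      obtain ⟨a, ha, b, hb, rfl⟩ := hu
      obtain ⟨c, hc, e, he, rfl⟩ := hv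
      have h2 : (a + b) * z * (c + e) = a * z * c + a * z * e + b * z * (c + e) := by
        rw [add_mul, add_mul, mul_add]
      rw [h2]
      refine add_mem (add_mem (hsq0 z hz a ha c hc) ?_) ?_
      · exact hJl _ (hR _ (hWR ha) _ hz) _ he
      · exact hJr _ (hJr _ hb _ hz) _ hvR
    -- split the list
    have hN : 2 ^ (n + 2) - 1 = (2 ^ (n + 1) - 1) + 1 + (2 ^ (n + 1) - 1) := by
      have h3 : 1 ≤ 2 ^ (n + 1) := Nat.one_le_two_pow
      rw [pow_succ 2 (n + 1)]
      omega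
    set N := 2 ^ (n + 1) - 1 with hNdef
    have hlen' : N + 1 + N ≤ l.length := by
      rw [← hN]
      exact hlen
    have hNl : N < l.length := by omega
    have hsplit : l = l.take N ++ (l[N] :: l.drop (N + 1)) := by
      rw [← List.drop_eq_getElem_cons hNl, List.take_append_drop]
    have hu : (l.take N).prod ∈ J' := by
      refine ih J' hJ'R hJ'l hJ'r hpow _ (fun x hx => hl x (List.mem_of_mem_take hx)) ?_
      rw [List.length_take]
      omega
    have hv : (l.drop (N + 1)).prod ∈ J' := by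
      refine ih J' hJ'R hJ'l hJ'r hpow _ (fun x hx => hl x (List.mem_of_mem_drop hx)) ?_
      rw [List.length_drop]
      omega
    have hz : l[N] ∈ R := hl _ (List.getElem_mem hNl)
    have h4 := hsq _ hz _ hu _ hv
    have h5 : l.prod = (l.take N).prod * l[N] * (l.drop (N + 1)).prod := by
      conv_lhs => rw [hsplit]
      rw [List.prod_append, List.prod_cons, mul_assoc]
    rw [h5]
    exact h4

/-- the version for functions on `Fin N` -/
theorem nagata_higman_fin (R J : Submodule ℚ B)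
    (hR : ∀ x ∈ R, ∀ y ∈ R, x * y ∈ R) (hJR : J ≤ R)
    (hJl : ∀ x ∈ R, ∀ y ∈ J, x * y ∈ J) (hJr : ∀ x ∈ J, ∀ y ∈ R, x * y ∈ J)
    (n : ℕ) (h : ∀ x ∈ R, x ^ (n + 1) ∈ J) :
    ∃ N, 0 < N ∧ ∀ x : Fin N → B, (∀ i, x i ∈ R) → (List.ofFn x).prod ∈ J := by
  refine ⟨2 ^ (n + 1) - 1, ?_, fun x hx => ?_⟩
  · have h3 : 2 ≤ 2 ^ (n + 1) := by
      rw [pow_succ]
      have := Nat.one_le_two_pow (n := n)
      omega
    omega
  · refine nagata_higman hR n J hJR hJl hJr h _ (fun y hy => ?_) ?_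
    · rw [List.mem_ofFn] at hy
      obtain ⟨i, rfl⟩ := hy
      exact hx i
    · rw [List.length_ofFn]

theorem nh (R J : Submodule ℚ B) (hR : ∀ x ∈ R, ∀ y ∈ R, x * y ∈ R) (hJR : J ≤ R)
    (hJl : ∀ x ∈ R, ∀ y ∈ J, x * y ∈ J) (hJr : ∀ x ∈ J, ∀ y ∈ R, x * y ∈ J) (n : ℕ)
    (hn : 0 < n) (h : ∀ a ∈ R, a ^ n ∈ J) :
    ∃ N, ∀ x : Fin N → B, (∀ i, x i ∈ R) → (List.ofFn x).prod ∈ J := by
  obtain ⟨n, rfl⟩ : ∃ k, n = k + 1 := ⟨n - 1, by omega⟩
  obtain ⟨N, -, hN⟩ := nagata_higman_fin R J hR hJR hJl hJr n h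
  exact ⟨N, hN⟩

end NH

end Pool.Agent.VGS
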