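import Pool.Agent.VGS.BI
import Pool.Agent.VGS.NH

/-! Module BI2: the nilpotency index in `nil_of_trace` is bounded. -/

set_option autoImplicit false

namespace Pool.Agent.VGS

/-- Sequences with all members in a submodule. -/
def bi_seq {B : Type} [Ring B] [Algebra ℚ B] (R : Submodule ℚ B) : Submodule ℚ (ℕ → B) where
  carrier := {f | ∀ k, f k ∈ R}
  add_mem' := fun ha hb k => R.add_mem (ha k) (hb k)
  zero_mem' := fun _ => R.zero_mem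
  smul_mem' := fun c _ hx k => R.smul_mem c (hx k)

theorem bi_seq_mem {B : Type} [Ring B] [Algebra ℚ B] (R : Submodule ℚ B) (f : ℕ → B) :
    f ∈ bi_seq R ↔ ∀ k, f k ∈ R := Iff.rfl

theorem bounded_of_trace {B : Type} [Ring B] [Algebra ℚ B] (R J : Submodule ℚ B)
    (hR : ∀ x ∈ R, ∀ y ∈ R, x * y ∈ R) (hJR : J ≤ R)
    (hJl : ∀ x ∈ R, ∀ y ∈ J, x * y ∈ J) (hJr : ∀ x ∈ J, ∀ y ∈ R, x * y ∈ J)
    {ι : Type} [Fintype ι] [Nonempty ι] (φ : ι → B ≃ₐ[ℚ] B)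
    (hφ : ∀ i x, φ i x ∈ R ↔ x ∈ R) (htr : ∀ x ∈ R, ∑ i, φ i x ∈ J) :
    ∃ n : ℕ, 0 < n ∧ ∀ a ∈ R, a ^ n ∈ J := by
  by_contra hcon
  push Not at hcon
  choose! c hc using hcon
  let a : ℕ → B := fun k => c (k + 1)
  have ha : a ∈ bi_seq R := fun k => (hc (k + 1) (Nat.succ_pos k)).1
  obtain ⟨n, hn, h⟩ := nil_of_trace (B := ℕ → B) (bi_seq R) (bi_seq J)
    (fun x hx y hy k => hR _ (hx k) _ (hy k))
    (fun x hx k => hJR (hx k))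
    (fun x hx y hy k => hJl _ (hx k) _ (hy k))
    (fun x hx y hy k => hJr _ (hx k) _ (hy k))
    (fun i => AlgEquiv.piCongrRight (fun _ : ℕ => φ i))
    (by
      intro i x
      rw [bi_seq_mem, bi_seq_mem]
      constructor
      · intro h k; exact (hφ i _).1 (h k)
      · intro h k; exact (hφ i _).2 (h k))
    (by
      intro x hx k
      rw [Finset.sum_apply]
      exact htr _ (hx k))
    a ha
  obtain ⟨m, rfl⟩ : ∃ m, n = m + 1 := ⟨n - 1, by omega⟩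
  exact (hc (m + 1) hn).2 (by simpa [a] using h m)

theorem nilpotent_of_trace {B : Type} [Ring B] [Algebra ℚ B] (R J : Submodule ℚ B)
    (hR : ∀ x ∈ R, ∀ y ∈ R, x * y ∈ R) (hJR : J ≤ R)
    (hJl : ∀ x ∈ R, ∀ y ∈ J, x * y ∈ J) (hJr : ∀ x ∈ J, ∀ y ∈ R, x * y ∈ J)
    {ι : Type} [Fintype ι] [Nonempty ι] (φ : ι → B ≃ₐ[ℚ] B)
    (hφ : ∀ i x, φ i x ∈ R ↔ x ∈ R) (htr : ∀ x ∈ R, ∑ i, φ i x ∈ J) :
    ∃ N : ℕ, 0 < N ∧ ∀ x : Fin N → B, (∀ i, x i ∈ R) → (List.ofFn x).prod ∈ J := by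
  obtain ⟨n, hn, h⟩ := bounded_of_trace R J hR hJR hJl hJr φ hφ htr
  obtain ⟨m, rfl⟩ : ∃ m, n = m + 1 := ⟨n - 1, by omega⟩
  obtain ⟨N, hN, hx⟩ := nagata_higman_fin R J hR hJR hJl hJr m h
  exact ⟨N, hN, hx⟩

end Pool.Agent.VGS
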