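import Pool.Agent.VGS.Place

/-! Module PlaceP: specialisation of points. -/

set_option autoImplicit false

open scoped LinearAlgebra.Projectivization
open MvPolynomial

namespace Pool.Agent.VGS

open Pool.Agent.LowDeg (surf)

variable {V : ValuationSubring ℂ} {C : Fl}

/-! ### auxiliary -/

theorem pp_cross_of_eq {z w : Fin 4 → ℂ} {hz : z ≠ 0} {hw : w ≠ 0}
    (h : Projectivization.mk ℂ z hz = Projectivization.mk ℂ w hw) :
    ∃ a : ℂ, a ≠ 0 ∧ ∀ i, z i = a * w i := by
  rw [Projectivization.mk_eq_mk_iff'] at h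
  obtain ⟨a, ha⟩ := h
  refine ⟨a, ?_, fun i => ?_⟩
  · rintro rfl
    apply hz
    rw [← ha, zero_smul]
  · rw [← ha]
    rfl

theorem pp_eq_of_cross {z w : Fin 4 → ℂ} (hz : z ≠ 0) (hw : w ≠ 0)
    (h : ∀ i j, z i * w j = z j * w i) :
    (Projectivization.mk ℂ z hz : PP) = Projectivization.mk ℂ w hw := by
  obtain ⟨i, hi⟩ := Function.ne_iff.1 hw
  have hi' : w i ≠ 0 := hi
  rw [Projectivization.mk_eq_mk_iff']
  refine ⟨z i / w i, ?_⟩
  funext j
  change z i / w i * w j = z j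
  rw [div_mul_eq_mul_div, h i j, mul_div_assoc, div_self hi', mul_one]

theorem pp_aeval_scale {G : MvPolynomial (Fin 4) ℂ} {e : ℕ} (hG : G.IsHomogeneous e)
    {z w : Fin 4 → ℂ} {a : ℂ} (h : ∀ i, z i = a * w i) :
    MvPolynomial.aeval z G = a ^ e * MvPolynomial.aeval w G := by
  have h1 : z = fun i => a * w i := funext h
  rw [h1]
  rw [aeval_def, aeval_def, eval₂_eq', eval₂_eq', Finset.mul_sum]
  refine Finset.sum_congr rfl fun t ht => ?_
  have h3 : t.degree = e := by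
    by_contra h
    exact (mem_support_iff.mp ht) (hG.coeff_eq_zero h)
  have h2 : ∏ i, (a * w i) ^ t i = a ^ e * ∏ i, w i ^ t i := by
    simp only [mul_pow, Finset.prod_mul_distrib, Finset.prod_pow_eq_pow_sum]
    congr 2
    rw [← h3, Finsupp.degree_eq_sum]
  rw [h2]
  ring

theorem pp_lt_one_iff (V : ValuationSubring ℂ) (x : ℂ) :
    V.valuation x < 1 ↔ x = 0 ∨ x⁻¹ ∉ V := by
  by_cases hx : x = 0
  · simp [hx]
  · rw [← ValuationSubring.valuation_le_one_iff, map_inv₀, not_le]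
    have h0 : V.valuation x ≠ 0 := (Valuation.ne_zero_iff _).2 hx
    rw [one_lt_inv₀ (zero_lt_iff.2 h0)]
    simp [hx]

/-! ### points -/

theorem SpP.over {p q : PP} (h : SpP V C p q) : Over C q := by
  obtain ⟨z, w, hz, hw, -, hq, h1⟩ := h
  exact ⟨w, hw, fun i => (h1 i).1, hq⟩

theorem SpP.unique (hV : IsPl V C) {p q q' : PP} (h : SpP V C p q) (h' : SpP V C p q') :
    q = q' := by
  obtain ⟨z, w, hz, hw, hp, hq, h1⟩ := h
  obtain ⟨z', w', hz', hw', hp', hq', h1'⟩ := h'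
  rw [hq, hq']
  obtain ⟨a, -, ha⟩ := pp_cross_of_eq (hp.symm.trans hp')
  apply pp_eq_of_cross
  intro i j
  have h2 : z i * z' j = z j * z' i := by rw [ha i, ha j]; ring
  have h3 := Sp.mul hV (h1 i) (h1' j)
  rw [h2] at h3
  exact Sp.unique hV h3 (Sp.mul hV (h1 j) (h1' i))

theorem SpP.refl (hV : IsPl V C) {p : PP} (h : Over C p) : SpP V C p p := by
  obtain ⟨z, hz, h1, h2⟩ := h
  exact ⟨z, z, hz, hz, h2, h2, fun i => Sp.const hV (h1 i)⟩

/-- affine coordinates, finite limit -/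
theorem spP_mk (hV : IsPl V C) {z w : Fin 4 → ℂ} (hz : z ≠ 0) (hw : w ≠ 0) {i : Fin 4}
    (hzi : z i = 1) (hwi : w i = 1) :
    SpP V C (Projectivization.mk ℂ z hz) (Projectivization.mk ℂ w hw) ↔
      ∀ j, Sp V C (z j) (w j) := by
  constructor
  · rintro ⟨z', w', hz', hw', hp, hq, h1⟩ j
    obtain ⟨a, ha0, ha⟩ := pp_cross_of_eq hp.symm
    obtain ⟨b, hb0, hb⟩ := pp_cross_of_eq hq.symm
    have h2 : z j = z' j / z' i := by
      rw [ha i, ha j, hzi, mul_one, mul_div_cancel_left₀ _ ha0]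
    have h3 : w j = w' j / w' i := by
      rw [hb i, hb j, hwi, mul_one, mul_div_cancel_left₀ _ hb0]
    rw [h2, h3]
    refine Sp.div hV (h1 j) (h1 i) ?_
    rw [hb i, hwi, mul_one]
    exact hb0
  · intro h
    exact ⟨z, w, hz, hw, rfl, rfl, h⟩

/-- affine coordinates: if a coordinate of `z` is not in `V` (`z i = 1`), the limit is at
infinity -/
theorem spP_inf (hV : IsPl V C) {z w : Fin 4 → ℂ} (hz : z ≠ 0) (hw : w ≠ 0) {i : Fin 4}
    (hzi : z i = 1) (h : SpP V C (Projectivization.mk ℂ z hz) (Projectivization.mk ℂ w hw)) :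
    w i = 0 ↔ ∃ j, z j ∉ V := by
  obtain ⟨z', w', hz', hw', hp, hq, h1⟩ := h
  obtain ⟨a, ha0, ha⟩ := pp_cross_of_eq hp.symm
  obtain ⟨b, hb0, hb⟩ := pp_cross_of_eq hq.symm
  have hai : z' i = a := by rw [ha i, hzi, mul_one]
  have h2 : ∀ j, z j = z' j / z' i := by
    intro j
    rw [hai, ha j, mul_div_cancel_left₀ _ ha0]
  have hwz : w i = 0 ↔ w' i = 0 := by
    rw [hb i, mul_eq_zero]
    simp [hb0]
  rw [hwz]
  constructor
  · intro h0
    obtain ⟨j, hj⟩ := Function.ne_iff.1 hw'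
    have hj' : w' j ≠ 0 := hj
    refine ⟨j, ?_⟩
    rw [← ValuationSubring.valuation_le_one_iff, h2 j, map_div₀, Sp.val_eq hV (h1 j) hj', not_le,
      one_div]
    have h3 : V.valuation (z' i) < 1 := by
      have := (h1 i).2
      rwa [h0, sub_zero] at this
    have h4 : V.valuation (z' i) ≠ 0 := (Valuation.ne_zero_iff _).2 (by rw [hai]; exact ha0)
    exact (one_lt_inv₀ (zero_lt_iff.2 h4)).2 h3
  · rintro ⟨j, hj⟩
    by_contra h0
    apply hj
    rw [h2 j]
    exact Sp.mem hV (Sp.div hV (h1 j) (h1 i) h0)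

/-- a linear relation over `C` is preserved -/
theorem spP_zero (hV : IsPl V C) {z w : Fin 4 → ℂ} (hz : z ≠ 0) (hw : w ≠ 0) {e : ℕ}
    {G : MvPolynomial (Fin 4) ℂ} (hG : G.IsHomogeneous e) (hGC : Coef C G)
    (h : SpP V C (Projectivization.mk ℂ z hz) (Projectivization.mk ℂ w hw))
    (h0 : MvPolynomial.aeval z G = 0) : MvPolynomial.aeval w G = 0 := by
  obtain ⟨z', w', hz', hw', hp, hq, h1⟩ := h
  obtain ⟨a, ha0, ha⟩ := pp_cross_of_eq hp.symm
  obtain ⟨b, hb0, hb⟩ := pp_cross_of_eq hq.symm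
  have h2 := Sp.aeval hV hGC h1
  rw [pp_aeval_scale hG ha, h0, mul_zero] at h2
  have h3 := Sp.unique hV h2 (Sp.const hV C.zero_mem)
  rw [pp_aeval_scale hG hb] at h3
  rcases mul_eq_zero.1 h3 with h4 | h4
  · exact absurd h4 (pow_ne_zero _ hb0)
  · exact h4

theorem SpP.zero (hV : IsPl V C) {p q : PP} {e : ℕ}
    {G : MvPolynomial (Fin 4) ℂ} (hG : G.IsHomogeneous e) (hGC : Coef C G)
    (h : SpP V C p q) (h0 : MvPolynomial.aeval p.rep G = 0) :
    MvPolynomial.aeval q.rep G = 0 := by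
  refine spP_zero hV p.rep_nonzero q.rep_nonzero hG hGC ?_ h0
  rw [Projectivization.mk_rep, Projectivization.mk_rep]
  exact h

theorem SpP.mem_surf (hV : IsPl V C) {F : MvPolynomial (Fin 4) ℂ} {d : ℕ} (hF : F.IsHomogeneous d)
    (hFC : Coef C F) {p q : PP} (h : SpP V C p q) (hp : p ∈ surf F) : q ∈ surf F :=
  SpP.zero hV hF hFC h hp

/-- existence of the limit of a point -/
theorem exists_spP (hC : clo C = C) (hV : IsPl V C) {u c : ℂ} (hu : u ∉ C) (huc : Sp V C u c)
    {p : PP} (hp : Over (clo (adj C {u})) p) : ∃ q, SpP V C p q := by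
  obtain ⟨z, hz, h1, h2⟩ := hp
  obtain ⟨i, -, hi⟩ := Finset.exists_max_image (Finset.univ : Finset (Fin 4))
    (fun i => V.valuation (z i)) ⟨0, Finset.mem_univ 0⟩
  have hi0 : z i ≠ 0 := by
    intro h0
    apply hz
    funext j
    have h3 := hi j (Finset.mem_univ j)
    rw [h0, map_zero] at h3
    have h4 := le_antisymm h3 zero_le
    exact (Valuation.zero_iff _).1 h4
  have h3 : ∀ j, ∃ c', Sp V C (z j / z i) c' := by
    intro j
    refine exists_sp hC hV hu huc ((clo (adj C {u})).div_mem (h1 j) (h1 i)) ?_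
    rw [← ValuationSubring.valuation_le_one_iff, map_div₀]
    exact div_le_one_of_le₀ (hi j (Finset.mem_univ j)) zero_le
  choose w hw using h3
  have hwi : w i = 1 := by
    have h4 := hw i
    rw [div_self hi0] at h4
    exact Sp.unique hV h4 (Sp.const hV C.one_mem)
  have hw0 : w ≠ 0 := by
    intro h0
    rw [h0] at hwi
    exact zero_ne_one hwi
  have hz0 : (fun j => z j / z i) ≠ 0 := by
    intro h0
    have h4 := congrFun h0 i
    simp only [div_self hi0, Pi.zero_apply, one_ne_zero] at h4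
  refine ⟨Projectivization.mk ℂ w hw0, fun j => z j / z i, w, hz0, hw0, ?_, rfl, hw⟩
  rw [h2]
  apply pp_eq_of_cross
  intro a b
  ring

/-- transport of a place by an automorphism -/
theorem exists_transport (hV : IsPl V C) (τ : ℂ ≃+* ℂ) (hτ : ∀ x, τ x ∈ C ↔ x ∈ C) :
    ∃ V' : ValuationSubring ℂ, IsPl V' C ∧ (∀ x c, Sp V' C (τ x) (τ c) ↔ Sp V C x c) ∧
      (∀ p q, SpP V' C (act τ p) (act τ q) ↔ SpP V C p q) := by
  obtain ⟨V', hV'⟩ : ∃ V' : ValuationSubring ℂ, V' = V.comap (τ.symm : ℂ →+* ℂ) := ⟨_, rfl⟩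
  have hmem : ∀ x, x ∈ V' ↔ τ.symm x ∈ V := by
    intro x
    rw [hV']
    rfl
  have hlt : ∀ x, V'.valuation x < 1 ↔ V.valuation (τ.symm x) < 1 := by
    intro x
    rw [pp_lt_one_iff, pp_lt_one_iff, hmem, map_inv₀]
    simp
  have hSp : ∀ x c, Sp V' C (τ x) (τ c) ↔ Sp V C x c := by
    intro x c
    unfold Sp
    rw [hτ, hlt, map_sub, τ.symm_apply_apply, τ.symm_apply_apply]
  refine ⟨V', ?_, hSp, ?_⟩
  · intro c hc
    rw [hmem]
    apply hV
    rw [← hτ, τ.apply_symm_apply]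
    exact hc
  · intro p q
    constructor
    · rintro ⟨z, w, hz, hw, h1, h2, h3⟩
      have h4 : ∀ (r : PP) (x : Fin 4 → ℂ) (hx : x ≠ 0), act τ r = Projectivization.mk ℂ x hx →
          r = Projectivization.mk ℂ (fun i => τ.symm (x i)) (map_ne_zero' τ.symm hx) := by
        intro r x hx h
        apply act_injective τ
        have h5 : (fun i => τ (τ.symm (x i))) ≠ 0 := by
          intro h0
          apply hx
          funext i
          have := congrFun h0 i
          rwa [τ.apply_symm_apply] at this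
        rw [h, act_mk τ _ _ h5]
        congr 1
        funext i
        exact (τ.apply_symm_apply _).symm
      refine ⟨_, _, _, _, h4 p z hz h1, h4 q w hw h2, fun i => ?_⟩
      rw [← hSp, τ.apply_symm_apply, τ.apply_symm_apply]
      exact h3 i
    · rintro ⟨z, w, hz, hw, h1, h2, h3⟩
      refine ⟨fun i => τ (z i), fun i => τ (w i), map_ne_zero' τ hz, map_ne_zero' τ hw, ?_, ?_,
        fun i => (hSp _ _).2 (h3 i)⟩
      · rw [h1, act_mk]
      · rw [h2, act_mk]

/-- if `p` specialises to a generic point it is generic -/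
theorem SpP.gen (hV : IsPl V C) {L : Fl} (hL : L ≤ C) {F : MvPolynomial (Fin 4) ℂ} {p q : PP}
    (h : SpP V C p q) (hp : p ∈ surf F) (hq : q ∈ Gen L F) : p ∈ Gen L F := by
  refine ⟨hp, fun e G hG hGL h0 => hq.2 e G hG hGL ?_⟩
  exact SpP.zero hV hG (fun m => hL (hGL m)) h h0

end Pool.Agent.VGS
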