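import Pool.Agent.VGS.Basic

/-! Module Place: specialisation. -/

set_option autoImplicit false
set_option linter.unusedVariables false

open scoped LinearAlgebra.Projectivization
open MvPolynomial

namespace Pool.Agent.VGS

open Pool.Agent.LowDeg (surf)

variable {V : ValuationSubring ℂ} {C : Fl}

/-! ### elements -/

theorem pl_mul_lt {G : Type*} [LinearOrderedCommGroupWithZero G] {a b : G} (ha : a ≤ 1)
    (hb : b < 1) : a * b < 1 := by
  calc a * b ≤ 1 * b := by gcongr
    _ = b := one_mul b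
    _ < 1 := hb

theorem pl_const_le (hV : IsPl V C) {c : ℂ} (hc : c ∈ C) : V.valuation c ≤ 1 :=
  (V.valuation_le_one_iff c).2 (hV c hc)

theorem val_const (hV : IsPl V C) {c : ℂ} (hc : c ∈ C) (h0 : c ≠ 0) : V.valuation c = 1 := by
  have h2 : V.valuation c ≤ 1 := pl_const_le hV hc
  have h3 : V.valuation c⁻¹ ≤ 1 := pl_const_le hV (C.inv_mem hc)
  rw [map_inv₀] at h3
  have h4 : V.valuation c ≠ 0 := (Valuation.ne_zero_iff _).2 h0
  refine le_antisymm h2 ?_
  by_contra hlt
  rw [not_le] at hlt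
  exact absurd h3 (not_le.2 ((one_lt_inv₀ (zero_lt_iff.2 h4)).2 hlt))

theorem Sp.const (hV : IsPl V C) {c : ℂ} (hc : c ∈ C) : Sp V C c c := by
  refine ⟨hc, ?_⟩
  rw [sub_self, map_zero]
  exact zero_lt_one

theorem Sp.le_one (hV : IsPl V C) {x c : ℂ} (h : Sp V C x c) : V.valuation x ≤ 1 := by
  have e : x = (x - c) + c := by ring
  rw [e]
  exact Valuation.map_add_le _ h.2.le (pl_const_le hV h.1)

theorem Sp.mem (hV : IsPl V C) {x c : ℂ} (h : Sp V C x c) : x ∈ V :=
  (V.valuation_le_one_iff x).1 (h.le_one hV)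

theorem Sp.unique (hV : IsPl V C) {x c c' : ℂ} (h : Sp V C x c) (h' : Sp V C x c') : c = c' := by
  by_contra hne
  have h3 : V.valuation (c' - c) < 1 := by
    have e : c' - c = (x - c) - (x - c') := by ring
    rw [e]
    exact Valuation.map_sub_lt _ h.2 h'.2
  rw [val_const hV (C.sub_mem h'.1 h.1) (sub_ne_zero.2 (Ne.symm hne))] at h3
  exact lt_irrefl _ h3

theorem Sp.add (hV : IsPl V C) {x c y b : ℂ} (h : Sp V C x c) (h' : Sp V C y b) :
    Sp V C (x + y) (c + b) := by
  refine ⟨C.add_mem h.1 h'.1, ?_⟩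
  have e : x + y - (c + b) = (x - c) + (y - b) := by ring
  rw [e]
  exact Valuation.map_add_lt _ h.2 h'.2

theorem Sp.neg (hV : IsPl V C) {x c : ℂ} (h : Sp V C x c) : Sp V C (-x) (-c) := by
  refine ⟨C.neg_mem h.1, ?_⟩
  have e : -x - -c = -(x - c) := by ring
  rw [e, Valuation.map_neg]
  exact h.2

theorem Sp.sub (hV : IsPl V C) {x c y b : ℂ} (h : Sp V C x c) (h' : Sp V C y b) :
    Sp V C (x - y) (c - b) := by
  rw [sub_eq_add_neg, sub_eq_add_neg]
  exact h.add hV (h'.neg hV)

theorem Sp.mul (hV : IsPl V C) {x c y b : ℂ} (h : Sp V C x c) (h' : Sp V C y b) :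
    Sp V C (x * y) (c * b) := by
  refine ⟨C.mul_mem h.1 h'.1, ?_⟩
  have e : x * y - c * b = y * (x - c) + c * (y - b) := by ring
  rw [e]
  refine Valuation.map_add_lt _ ?_ ?_
  · rw [map_mul]
    exact pl_mul_lt (h'.le_one hV) h.2
  · rw [map_mul]
    exact pl_mul_lt (pl_const_le hV h.1) h'.2

theorem Sp.val_eq (hV : IsPl V C) {x c : ℂ} (h : Sp V C x c) (hc : c ≠ 0) :
    V.valuation x = 1 := by
  have h1 := val_const hV h.1 hc
  have e : x = (x - c) + c := by ring
  rw [e, Valuation.map_add_eq_of_lt_right _ (by rw [h1]; exact h.2), h1]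

theorem Sp.ne_zero (hV : IsPl V C) {x c : ℂ} (h : Sp V C x c) (hc : c ≠ 0) : x ≠ 0 := by
  rintro rfl
  have h1 := h.val_eq hV hc
  rw [map_zero] at h1
  exact zero_ne_one h1

theorem Sp.inv (hV : IsPl V C) {x c : ℂ} (h : Sp V C x c) (hc : c ≠ 0) : Sp V C x⁻¹ c⁻¹ := by
  refine ⟨C.inv_mem h.1, ?_⟩
  have hx := h.ne_zero hV hc
  have e : x⁻¹ - c⁻¹ = -(x - c) * (x⁻¹ * c⁻¹) := by
    field_simp
    ring
  rw [e, map_mul, Valuation.map_neg, map_mul, map_inv₀, map_inv₀, h.val_eq hV hc,
    val_const hV h.1 hc, inv_one, one_mul, mul_one]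
  exact h.2

theorem Sp.div (hV : IsPl V C) {x c y b : ℂ} (h : Sp V C x c) (h' : Sp V C y b) (hb : b ≠ 0) :
    Sp V C (x / y) (c / b) := by
  rw [div_eq_mul_inv, div_eq_mul_inv]
  exact h.mul hV (h'.inv hV hb)

theorem Sp.pow (hV : IsPl V C) {x c : ℂ} (h : Sp V C x c) (n : ℕ) :
    Sp V C (x ^ n) (c ^ n) := by
  induction n with
  | zero =>
    rw [pow_zero, pow_zero]
    exact Sp.const hV C.one_mem
  | succ n ih =>
    rw [pow_succ, pow_succ]
    exact ih.mul hV h

theorem Sp.sum (hV : IsPl V C) {ι : Type} (s : Finset ι) {x c : ι → ℂ}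
    (h : ∀ i ∈ s, Sp V C (x i) (c i)) : Sp V C (∑ i ∈ s, x i) (∑ i ∈ s, c i) := by
  classical
  induction s using Finset.induction_on with
  | empty =>
    rw [Finset.sum_empty, Finset.sum_empty]
    exact Sp.const hV C.zero_mem
  | insert a s ha ih =>
    rw [Finset.sum_insert ha, Finset.sum_insert ha]
    exact (h a (Finset.mem_insert_self a s)).add hV
      (ih fun i hi => h i (Finset.mem_insert_of_mem hi))

theorem Sp.prod (hV : IsPl V C) {ι : Type} (s : Finset ι) {x c : ι → ℂ}
    (h : ∀ i ∈ s, Sp V C (x i) (c i)) : Sp V C (∏ i ∈ s, x i) (∏ i ∈ s, c i) := by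
  classical
  induction s using Finset.induction_on with
  | empty =>
    rw [Finset.prod_empty, Finset.prod_empty]
    exact Sp.const hV C.one_mem
  | insert a s ha ih =>
    rw [Finset.prod_insert ha, Finset.prod_insert ha]
    exact (h a (Finset.mem_insert_self a s)).mul hV
      (ih fun i hi => h i (Finset.mem_insert_of_mem hi))

/-- substitution: `G` has coefficients in `C` -/
theorem Sp.aeval (hV : IsPl V C) {ι : Type} {G : MvPolynomial ι ℂ} (hG : Coef C G) {x c : ι → ℂ}
    (h : ∀ i, Sp V C (x i) (c i)) :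
    Sp V C (MvPolynomial.aeval x G) (MvPolynomial.aeval c G) := by
  rw [MvPolynomial.aeval_def, MvPolynomial.aeval_def, MvPolynomial.eval₂_eq,
    MvPolynomial.eval₂_eq]
  refine Sp.sum hV _ fun m _ => ?_
  refine (Sp.const hV (hG m)).mul hV ?_
  exact Sp.prod hV _ fun i _ => (h i).pow hV _

/-! ### places over `C(u)` -/

theorem pl_notalg (hC : clo C = C) {u : ℂ} (hu : u ∉ C) : ¬ IsAlgebraic C u := by
  intro h
  apply hu
  rw [← hC]
  exact mem_clo.2 h

/-- existence: `u` is transcendental over the algebraically closed field `C` -/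
theorem exists_place (hC : clo C = C) {u : ℂ} (hu : u ∉ C) {c : ℂ} (hc : c ∈ C) :
    ∃ V : ValuationSubring ℂ, IsPl V C ∧ Sp V C u c := by
  have htr := pl_notalg hC hu
  set R : Subalgebra C ℂ := (Polynomial.aeval u : Polynomial C →ₐ[C] ℂ).range with hR
  have huc : u - c ∈ R := by
    refine ⟨Polynomial.X - Polynomial.C ⟨c, hc⟩, ?_⟩
    change Polynomial.aeval u (Polynomial.X - Polynomial.C (⟨c, hc⟩ : C)) = u - c
    rw [map_sub, Polynomial.aeval_X, Polynomial.aeval_C]
    rfl
  set I : Ideal R.toSubring := Ideal.span {(⟨u - c, huc⟩ : R.toSubring)} with hI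
  have hI' : I ≠ ⊤ := by
    intro htop
    rw [Ideal.eq_top_iff_one, hI, Ideal.mem_span_singleton'] at htop
    obtain ⟨⟨a, ⟨p, hp⟩⟩, ha⟩ := htop
    have ha' : a * (u - c) = 1 := congrArg Subtype.val ha
    have hp' : Polynomial.aeval u p = a := hp
    have h0 : Polynomial.aeval u (p * (Polynomial.X - Polynomial.C (⟨c, hc⟩ : C)) - 1) = 0 := by
      rw [map_sub, map_mul, map_sub, Polynomial.aeval_X, Polynomial.aeval_C, hp', map_one]
      change a * (u - c) - 1 = 0
      rw [ha', sub_self]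
    have h1 : p * (Polynomial.X - Polynomial.C (⟨c, hc⟩ : C)) - 1 = 0 := by
      by_contra hne
      exact htr ⟨_, hne, h0⟩
    have h2 := congrArg (Polynomial.eval (⟨c, hc⟩ : C)) h1
    simp at h2
  obtain ⟨W, hW, hW'⟩ := Ideal.image_subset_nonunits_valuationSubring (A := R.toSubring) I hI'
  refine ⟨W, fun z hz => ?_, hc, ?_⟩
  · refine hW ?_
    refine ⟨Polynomial.C ⟨z, hz⟩, ?_⟩
    change Polynomial.aeval u (Polynomial.C (⟨z, hz⟩ : C)) = z
    rw [Polynomial.aeval_C]
    rfl
  · have h1 : u - c ∈ W.nonunits :=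
      hW' ⟨⟨u - c, huc⟩, Ideal.mem_span_singleton_self _, rfl⟩
    exact h1

/-- the value of a polynomial in two variables -/
noncomputable def pl_ev (C : Fl) (u x : ℂ) (P : Polynomial (Polynomial C)) : ℂ :=
  P.eval₂ (Polynomial.aeval u : Polynomial C →ₐ[C] ℂ).toRingHom x

theorem pl_clean {u c x : ℂ} (hc : c ∈ C) (huc : u ≠ c) (n : ℕ) :
    ∀ (P : Polynomial (Polynomial C)) (i : ℕ), P.coeff i ≠ 0 → (P.coeff i).natDegree ≤ n →
      pl_ev C u x P = 0 → ∃ P' : Polynomial (Polynomial C), pl_ev C u x P' = 0 ∧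
        ∃ j, (P'.coeff j).eval (⟨c, hc⟩ : C) ≠ 0 := by
  induction n with
  | zero =>
    intro P i hi hn hP
    refine ⟨P, hP, i, ?_⟩
    rw [Polynomial.eq_C_of_natDegree_le_zero hn, Polynomial.eval_C]
    intro h0
    apply hi
    rw [Polynomial.eq_C_of_natDegree_le_zero hn, h0, map_zero]
  | succ n ih =>
    intro P i hi hn hP
    by_cases hj : ∃ j, (P.coeff j).eval (⟨c, hc⟩ : C) ≠ 0
    · exact ⟨P, hP, hj⟩
    · push Not at hj
      have hdvd : Polynomial.C (Polynomial.X - Polynomial.C (⟨c, hc⟩ : C)) ∣ P := by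
        rw [Polynomial.C_dvd_iff_dvd_coeff]
        intro j
        rw [Polynomial.dvd_iff_isRoot]
        exact hj j
      obtain ⟨Q, rfl⟩ := hdvd
      have e1 : pl_ev C u x (Polynomial.C (Polynomial.X - Polynomial.C (⟨c, hc⟩ : C)) * Q) =
          (u - c) * pl_ev C u x Q := by
        unfold pl_ev
        rw [Polynomial.eval₂_mul, Polynomial.eval₂_C]
        congr 1
        change Polynomial.aeval u (Polynomial.X - Polynomial.C (⟨c, hc⟩ : C)) = u - c
        rw [map_sub, Polynomial.aeval_X, Polynomial.aeval_C]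
        rfl
      rw [e1] at hP
      have hQ := (mul_eq_zero.1 hP).resolve_left (sub_ne_zero.2 huc)
      rw [Polynomial.coeff_C_mul] at hi hn
      have hQi : Q.coeff i ≠ 0 := right_ne_zero_of_mul hi
      refine ih Q i hQi ?_ hQ
      rw [Polynomial.natDegree_mul (Polynomial.X_sub_C_ne_zero _) hQi,
        Polynomial.natDegree_X_sub_C] at hn
      omega

theorem pl_rel {u x : ℂ} (hx : x ∈ clo (adj C {u})) :
    ∃ P : Polynomial (Polynomial C), P ≠ 0 ∧ pl_ev C u x P = 0 := by
  open scoped IntermediateField.algebraAdjoinAdjoin in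
  have h1 : IsAlgebraic (adj C {u}) x := mem_clo.1 hx
  have hle : adj C {u} ≤ (IntermediateField.adjoin C {u}).restrictScalars ℚ := by
    unfold adj
    refine sup_le ?_ ?_
    · intro z hz
      exact (IntermediateField.adjoin C {u}).algebraMap_mem ⟨z, hz⟩
    · rw [IntermediateField.adjoin_le_iff]
      intro z hz
      exact IntermediateField.subset_adjoin C {u} hz
  have h2 : IsAlgebraic (IntermediateField.adjoin C {u}) x := by
    have h3 := h1.ringHom_of_comp_eq (IntermediateField.inclusion hle).toRingHom (RingHom.id ℂ)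
      (IntermediateField.inclusion hle).injective (RingHom.ext fun _ => rfl)
    exact h3
  have h4 : IsAlgebraic (Algebra.adjoin C {u}) x :=
    (IsFractionRing.isAlgebraic_iff (Algebra.adjoin C {u}) (IntermediateField.adjoin C {u}) ℂ).2 h2
  obtain ⟨p, hp, hpx⟩ := h4
  have hsur : Function.Surjective (Polynomial.aeval (⟨u, Algebra.self_mem_adjoin_singleton C u⟩ :
      Algebra.adjoin C {u}) : Polynomial C →ₐ[C] Algebra.adjoin C {u}) := by
    rintro ⟨z, hz⟩
    have hz' := hz
    rw [Algebra.adjoin_singleton_eq_range_aeval] at hz'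
    obtain ⟨q, hq⟩ := hz'
    refine ⟨q, Subtype.ext (Eq.trans ?_ hq)⟩
    change (Algebra.adjoin C {u}).val _ = Polynomial.aeval u q
    rw [← Polynomial.aeval_algHom_apply]
    rfl
  obtain ⟨P, hP⟩ := Polynomial.map_surjective _ hsur p
  refine ⟨P, ?_, ?_⟩
  · rintro rfl
    apply hp
    rw [← hP, Polynomial.map_zero]
  · rw [← hP] at hpx
    unfold pl_ev
    rw [Polynomial.aeval_def, Polynomial.eval₂_map] at hpx
    rw [← hpx]
    congr 1
    refine RingHom.ext fun q => ?_
    change Polynomial.aeval u q = (Algebra.adjoin C {u}).val (Polynomial.aeval _ q)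
    rw [← Polynomial.aeval_algHom_apply]
    rfl

theorem pl_eval_sp (hV : IsPl V C) {u c : ℂ} (huc : Sp V C u c) (p : Polynomial C) :
    Sp V C (Polynomial.aeval u p) ((p.eval (⟨c, huc.1⟩ : C) : C) : ℂ) := by
  induction p using Polynomial.induction_on' with
  | add p q hp hq =>
    rw [map_add, Polynomial.eval_add]
    exact hp.add hV hq
  | monomial n a =>
    rw [Polynomial.aeval_monomial, Polynomial.eval_monomial]
    exact (Sp.const hV a.2).mul hV (huc.pow hV n)

theorem pl_root_mem (hC : clo C = C) {q : Polynomial C} (hq : q ≠ 0) {r : ℂ}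
    (hr : Polynomial.aeval r q = 0) : r ∈ C := by
  rw [← hC]
  exact mem_clo.2 ⟨q, hq, hr⟩

/-- the product over the roots -/
theorem pl_eval_prod (p : Polynomial ℂ) (x : ℂ) :
    V.valuation (p.eval x) =
      V.valuation p.leadingCoeff * (p.roots.map fun r => V.valuation (x - r)).prod := by
  conv_lhs => rw [(IsAlgClosed.splits p).eq_prod_roots]
  rw [Polynomial.eval_mul, Polynomial.eval_C, map_mul, Polynomial.eval_multiset_prod,
    map_multiset_prod, Multiset.map_map, Multiset.map_map]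
  congr 3
  funext r
  simp

/-- the residue of an element algebraic over `C(u)` -/
theorem exists_sp (hC : clo C = C) (hV : IsPl V C) {u c : ℂ} (hu : u ∉ C) (huc : Sp V C u c)
    {x : ℂ} (hx : x ∈ clo (adj C {u})) (hxV : x ∈ V) : ∃ c', Sp V C x c' := by
  have hne : u ≠ c := by
    rintro rfl
    exact hu huc.1
  obtain ⟨P₀, hP₀, hP₀'⟩ := pl_rel hx
  obtain ⟨i, hi⟩ : ∃ i, P₀.coeff i ≠ 0 := by
    by_contra hcon
    push Not at hcon
    exact hP₀ (Polynomial.ext fun i => by rw [hcon i, Polynomial.coeff_zero])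
  obtain ⟨P, hP, j, hj⟩ := pl_clean huc.1 hne _ P₀ i hi le_rfl hP₀'
  set q : Polynomial C := P.map (Polynomial.evalRingHom (⟨c, huc.1⟩ : C)) with hq
  have hq0 : q ≠ 0 := by
    intro h0
    apply hj
    have h1 := congrArg (fun p => Polynomial.coeff p j) h0
    simp only [hq, Polynomial.coeff_map, Polynomial.coeff_zero] at h1
    exact h1
  have hxV' : V.valuation x ≤ 1 := (V.valuation_le_one_iff x).2 hxV
  have hsmall : V.valuation (Polynomial.aeval x q) < 1 := by
    have e : Polynomial.aeval x q = -(pl_ev C u x P - Polynomial.aeval x q) := by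
      rw [hP, zero_sub, neg_neg]
    rw [e, Valuation.map_neg]
    have e1 : pl_ev C u x P = ∑ k ∈ Finset.range (P.natDegree + 1),
        Polynomial.aeval u (P.coeff k) * x ^ k := by
      unfold pl_ev
      rw [Polynomial.eval₂_eq_sum_range]
      rfl
    have e2 : Polynomial.aeval x q = ∑ k ∈ Finset.range (P.natDegree + 1),
        (((P.coeff k).eval (⟨c, huc.1⟩ : C) : C) : ℂ) * x ^ k := by
      rw [Polynomial.aeval_def, hq, Polynomial.eval₂_map, Polynomial.eval₂_eq_sum_range]
      rfl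
    rw [e1, e2, ← Finset.sum_sub_distrib]
    refine Valuation.map_sum_lt _ one_ne_zero fun k _ => ?_
    rw [← sub_mul, map_mul, map_pow, mul_comm]
    exact pl_mul_lt (pow_le_one' hxV' k) (pl_eval_sp hV huc (P.coeff k)).2
  have hinj : Function.Injective (algebraMap C ℂ) := (algebraMap C ℂ).injective
  set Q : Polynomial ℂ := q.map (algebraMap C ℂ) with hQ
  have hQx : Q.eval x = Polynomial.aeval x q := by
    rw [hQ, Polynomial.eval_map_algebraMap]
  have hlead : V.valuation Q.leadingCoeff = 1 := by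
    rw [hQ, Polynomial.leadingCoeff_map]
    refine val_const hV (SetLike.coe_mem _) ?_
    exact (map_ne_zero _).2 (Polynomial.leadingCoeff_ne_zero.2 hq0)
  rw [← hQx, pl_eval_prod, hlead, one_mul] at hsmall
  by_contra hcon
  push Not at hcon
  refine absurd hsmall (not_lt.2 ?_)
  refine Multiset.one_le_prod_of_one_le fun y hy => ?_
  obtain ⟨r, hr, rfl⟩ := Multiset.mem_map.1 hy
  by_contra hlt
  rw [not_le] at hlt
  refine hcon r ⟨?_, hlt⟩
  have h5 : Q.eval r = 0 := Polynomial.isRoot_of_mem_roots hr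
  refine pl_root_mem hC hq0 ?_
  rw [← Polynomial.eval_map_algebraMap]
  exact h5

/-- roots: a monic or not polynomial with coefficients algebraic over `C(u)` which specialises to a
nonzero polynomial with root `r` has a root which specialises to `r` -/
theorem exists_root_sp (hC : clo C = C) (hV : IsPl V C) {n : ℕ} (A a : Fin (n + 1) → ℂ)
    (hA : ∀ i, Sp V C (A i) (a i)) (hne : ∃ i, a i ≠ 0) {r : ℂ} (hr : r ∈ C)
    (hroot : ∑ i, a i * r ^ (i : ℕ) = 0) :
    ∃ x : ℂ, ∑ i, A i * x ^ (i : ℕ) = 0 ∧ Sp V C x r := by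
  obtain ⟨i₀, hi₀⟩ := hne
  have hcoeff : ∀ (B : Fin (n + 1) → ℂ) (k : Fin (n + 1)),
      (∑ i, Polynomial.C (B i) * Polynomial.X ^ (i : ℕ)).coeff (k : ℕ) = B k := by
    intro B k
    rw [Polynomial.finsetSum_coeff, Finset.sum_eq_single k]
    · rw [Polynomial.coeff_C_mul, Polynomial.coeff_X_pow_self, mul_one]
    · intro i _ hik
      rw [Polynomial.coeff_C_mul, Polynomial.coeff_X_pow, if_neg, mul_zero]
      intro h
      exact hik (Fin.ext h.symm)
    · intro h
      exact absurd (Finset.mem_univ k) h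
  have heval : ∀ (B : Fin (n + 1) → ℂ) (x : ℂ),
      (∑ i, Polynomial.C (B i) * Polynomial.X ^ (i : ℕ)).eval x = ∑ i, B i * x ^ (i : ℕ) := by
    intro B x
    rw [Polynomial.eval_finsetSum]
    refine Finset.sum_congr rfl fun i _ => ?_
    simp
  set Q : Polynomial ℂ := ∑ i, Polynomial.C (A i) * Polynomial.X ^ (i : ℕ) with hQ
  set q : Polynomial ℂ := ∑ i, Polynomial.C (a i) * Polynomial.X ^ (i : ℕ) with hq
  have hq0 : q ≠ 0 := by
    intro h0
    apply hi₀
    rw [← hcoeff a i₀, ← hq, h0, Polynomial.coeff_zero]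
  -- a point where `q` does not vanish
  obtain ⟨s, hs⟩ : ∃ s : ℕ, q.eval (s : ℂ) ≠ 0 := by
    by_contra hcon
    push Not at hcon
    apply hq0
    refine Polynomial.eq_zero_of_infinite_isRoot q ?_
    refine Set.infinite_of_injective_forall_mem (f := fun k : ℕ => (k : ℂ)) Nat.cast_injective ?_
    intro k
    exact hcon k
  have hsC : (s : ℂ) ∈ C := natCast_mem C s
  have hspec : ∀ x ∈ C, Sp V C (Q.eval x) (q.eval x) := by
    intro x hx
    rw [hQ, hq, heval, heval]
    refine Sp.sum hV _ fun i _ => ?_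
    exact (hA i).mul hV ((Sp.const hV hx).pow hV _)
  have hr0 : V.valuation (Q.eval r) < 1 := by
    have h1 := hspec r hr
    have h2 : q.eval r = 0 := by
      rw [hq, heval]
      exact hroot
    rw [h2] at h1
    have h3 := h1.2
    rwa [sub_zero] at h3
  have hs1 : V.valuation (Q.eval (s : ℂ)) = 1 := (hspec s hsC).val_eq hV hs
  by_contra hcon
  push Not at hcon
  have hbig : ∀ x ∈ Q.roots, 1 ≤ V.valuation (r - x) := by
    intro x hx
    by_contra hlt
    rw [not_le] at hlt
    refine hcon x ?_ ⟨hr, ?_⟩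
    · have h1 : Q.eval x = 0 := Polynomial.isRoot_of_mem_roots hx
      rw [hQ, heval] at h1
      exact h1
    · rw [← Valuation.map_neg]
      rw [neg_sub]
      exact hlt
  have hle : V.valuation (Q.eval (s : ℂ)) ≤ V.valuation (Q.eval r) := by
    rw [pl_eval_prod, pl_eval_prod]
    refine mul_le_mul_right ?_ _
    refine Multiset.prod_map_le_prod_map _ _ fun x hx => ?_
    have e : (s : ℂ) - x = ((s : ℂ) - r) + (r - x) := by ring
    rw [e]
    refine (Valuation.map_add _ _ _).trans ?_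
    refine max_le ?_ le_rfl
    refine le_trans ?_ (hbig x hx)
    exact pl_const_le hV (C.sub_mem hsC hr)
  rw [hs1] at hle
  exact absurd hr0 (not_lt.2 hle)

end Pool.Agent.VGS
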