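import Pool.Agent.VGS.Basic

/-! Module Aut: automorphisms of `ℂ`. -/

set_option autoImplicit false

open scoped LinearAlgebra.Projectivization
open MvPolynomial

namespace Pool.Agent.VGS

/-! ### extension of isomorphisms -/

theorem ext_basis {R K L : Type} [CommRing R] [Field K] [Field L] [Algebra R K] [Algebra R L]
    [IsAlgClosed K] [IsAlgClosed L] {ι κ : Type} {v : ι → K} {w : κ → L} (e : ι ≃ κ)
    (hv : IsTranscendenceBasis R v) (hw : IsTranscendenceBasis R w) :
    ∃ σ : K ≃+* L, ∀ r : R, σ (algebraMap R K r) = algebraMap R L r := by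
  let := IsAlgClosed.isAlgClosure_of_transcendence_basis v hv
  let := IsAlgClosed.isAlgClosure_of_transcendence_basis w hw
  let e' : Algebra.adjoin R (Set.range v) ≃ₐ[R] Algebra.adjoin R (Set.range w) :=
    hv.1.aevalEquiv.symm.trans ((MvPolynomial.renameEquiv R e).trans hw.1.aevalEquiv)
  refine ⟨IsAlgClosure.equivOfEquiv K L e'.toRingEquiv, fun r => ?_⟩
  have h1 : algebraMap R K r = algebraMap (Algebra.adjoin R (Set.range v)) K
      (algebraMap R (Algebra.adjoin R (Set.range v)) r) := rfl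
  rw [h1, IsAlgClosure.equivOfEquiv_algebraMap]
  have h2 : e'.toRingEquiv (algebraMap R (Algebra.adjoin R (Set.range v)) r) =
      algebraMap R (Algebra.adjoin R (Set.range w)) r := e'.commutes r
  rw [h2]
  rfl

theorem ext_gen {R K L : Type} [CommRing R] [Field K] [Field L] [Algebra R K] [Algebra R L]
    [IsAlgClosed K] [IsAlgClosed L] [Countable R] (h1 : Function.Injective (algebraMap R K))
    (h2 : Function.Injective (algebraMap R L)) (hK : Cardinal.aleph0 < Cardinal.mk K)
    (hKL : Cardinal.mk K = Cardinal.mk L) :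
    ∃ σ : K ≃+* L, ∀ r : R, σ (algebraMap R K r) = algebraMap R L r := by
  have : Nontrivial R := RingHom.domain_nontrivial (algebraMap R K)
  have : FaithfulSMul R K := (faithfulSMul_iff_algebraMap_injective R K).mpr h1
  have : FaithfulSMul R L := (faithfulSMul_iff_algebraMap_injective R L).mpr h2
  obtain ⟨s, hs⟩ := exists_isTranscendenceBasis R K
  obtain ⟨t, ht⟩ := exists_isTranscendenceBasis R L
  have hR : Cardinal.mk R ≤ Cardinal.aleph0 := Cardinal.mk_le_aleph0
  have hL : Cardinal.aleph0 < Cardinal.mk L := hKL ▸ hK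
  have h3 := IsAlgClosed.cardinal_eq_cardinal_transcendence_basis_of_aleph0_lt' _ hs hR hK
  have h4 := IsAlgClosed.cardinal_eq_cardinal_transcendence_basis_of_aleph0_lt' _ ht hR hL
  have h5 : Cardinal.mk s = Cardinal.mk t := by rw [← h3, ← h4, hKL]
  obtain ⟨e⟩ := Cardinal.eq.mp h5
  exact ext_basis e hs ht

theorem aleph0_lt_complex : Cardinal.aleph0 < Cardinal.mk ℂ := by
  rw [Cardinal.mk_complex]
  exact Cardinal.aleph0_lt_continuum

/-- two homomorphisms from a countable ring to `ℂ` with the same kernel are conjugate -/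
theorem ext_hom {A : Type} [CommRing A] [Countable A] (f g : A →+* ℂ)
    (h : RingHom.ker f = RingHom.ker g) : ∃ σ : ℂ ≃+* ℂ, ∀ a, σ (f a) = g a := by
  have h1 : Function.Injective (Ideal.Quotient.lift (RingHom.ker f) f (fun a ha => ha)) :=
    RingHom.lift_injective_of_ker_le_ideal _ _ le_rfl
  have h2 : Function.Injective (Ideal.Quotient.lift (RingHom.ker f) g (fun a ha => by
      rw [h] at ha
      exact ha)) :=
    RingHom.lift_injective_of_ker_le_ideal _ _ (by rw [h])
  have : Countable (A ⧸ RingHom.ker f) := Ideal.Quotient.mk_surjective.countable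
  obtain ⟨σ, hσ⟩ := @ext_gen (A ⧸ RingHom.ker f) ℂ ℂ _ _ _
    (Ideal.Quotient.lift (RingHom.ker f) f (fun a ha => ha)).toAlgebra
    (Ideal.Quotient.lift (RingHom.ker f) g (fun a ha => by
      rw [h] at ha
      exact ha)).toAlgebra _ _ _ h1 h2 aleph0_lt_complex rfl
  exact ⟨σ, fun a => hσ (Ideal.Quotient.mk _ a)⟩


/-- two tuples with the same polynomial relations over a countable field are conjugate -/
theorem exists_fix (L : Fl) [Countable L] {n : ℕ} (x y : Fin n → ℂ)
    (h : ∀ P : MvPolynomial (Fin n) ℂ, Coef L P → (aeval x P = 0 ↔ aeval y P = 0)) :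
    ∃ σ ∈ Fix L, ∀ i, σ (x i) = y i := by
  have key : ∀ (z : Fin n → ℂ) (P : MvPolynomial (Fin n) L),
      (aeval z P : ℂ) = aeval z (MvPolynomial.map (algebraMap L ℂ) P) := by
    intro z P
    rw [MvPolynomial.aeval_map_algebraMap]
  have hc : ∀ P : MvPolynomial (Fin n) L, Coef L (MvPolynomial.map (algebraMap L ℂ) P) := by
    intro P m
    rw [MvPolynomial.coeff_map]
    exact (coeff m P).2
  have hcount : Countable (MvPolynomial (Fin n) L) := by
    have h1 : Cardinal.mk (MvPolynomial (Fin n) L) ≤ Cardinal.aleph0 := by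
      refine (MvPolynomial.cardinalMk_le_max).trans ?_
      exact max_le (max_le Cardinal.mk_le_aleph0 Cardinal.mk_le_aleph0) le_rfl
    exact Cardinal.mk_le_aleph0_iff.mp h1
  obtain ⟨σ, hσ⟩ := ext_hom ((aeval x : MvPolynomial (Fin n) L →ₐ[L] ℂ) :
      MvPolynomial (Fin n) L →+* ℂ) ((aeval y : MvPolynomial (Fin n) L →ₐ[L] ℂ) :
      MvPolynomial (Fin n) L →+* ℂ) (by
    ext P
    rw [RingHom.mem_ker, RingHom.mem_ker]
    change (aeval x P : ℂ) = 0 ↔ (aeval y P : ℂ) = 0
    rw [key, key]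
    exact h _ (hc P))
  refine ⟨σ, fun l hl => ?_, fun i => ?_⟩
  · have h1 := hσ (C (⟨l, hl⟩ : L))
    simpa using h1
  · have h1 := hσ (X i)
    simpa using h1

/-- the polynomial version -/
theorem exists_fix_poly (L : Fl) [Countable L] (x y : ℂ)
    (h : ∀ P : Polynomial L, Polynomial.aeval x P = 0 ↔ Polynomial.aeval y P = 0) :
    ∃ σ ∈ Fix L, σ x = y := by
  have : Countable (Polynomial L) := by
    have h1 : Cardinal.mk (Polynomial L) ≤ Cardinal.aleph0 := by
      refine (Polynomial.cardinalMk_le_max).trans ?_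
      exact max_le (Cardinal.mk_le_aleph0) le_rfl
    exact Cardinal.mk_le_aleph0_iff.mp h1
  obtain ⟨σ, hσ⟩ := ext_hom ((Polynomial.aeval x : Polynomial L →ₐ[L] ℂ) :
      Polynomial L →+* ℂ) ((Polynomial.aeval y : Polynomial L →ₐ[L] ℂ) : Polynomial L →+* ℂ) (by
    ext P
    rw [RingHom.mem_ker, RingHom.mem_ker]
    exact h P)
  refine ⟨σ, fun l hl => ?_, ?_⟩
  · have h1 := hσ (Polynomial.C (⟨l, hl⟩ : L))
    simpa using h1
  · have h1 := hσ Polynomial.X
    simpa using h1

theorem exists_fix_tr (L : Fl) [Countable L] {x y : ℂ} (hx : x ∉ clo L) (hy : y ∉ clo L) :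
    ∃ σ ∈ Fix L, σ x = y := by
  rw [mem_clo] at hx hy
  refine exists_fix_poly L x y (fun P => ?_)
  have h1 : ∀ z : ℂ, ¬ IsAlgebraic L z → (Polynomial.aeval z P = 0 ↔ P = 0) := by
    intro z hz
    constructor
    · intro h
      by_contra hP
      exact hz ⟨P, hP, h⟩
    · rintro rfl
      simp
  rw [h1 x hx, h1 y hy]

theorem add_notMem_clo (L : Fl) {x : ℂ} (hx : x ∉ clo L) (n : ℕ) : x + n ∉ clo L := by
  intro h
  apply hx
  have h1 : (n : ℂ) ∈ clo L := by
    exact natCast_mem (clo L) n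
  have h2 := (clo L).sub_mem h h1
  simpa using h2

/-- the fixed field of `Fix L` is `L` -/
theorem mem_of_fixed (L : Fl) [Countable L] (x : ℂ) (h : ∀ σ ∈ Fix L, σ x = x) : x ∈ L := by
  by_contra hx
  by_cases hal : IsAlgebraic L x
  · -- another root of the minimal polynomial
    have hint : IsIntegral L x := hal.isIntegral
    have hdeg : 2 ≤ (minpoly L x).natDegree := by
      by_contra hd
      have h1 : (minpoly L x).natDegree = 1 := by
        have := minpoly.natDegree_pos hint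
        omega
      rw [minpoly.natDegree_eq_one_iff] at h1
      obtain ⟨y, hy⟩ := h1
      apply hx
      rw [← hy]
      exact y.2
    have hsep : (minpoly L x).Separable := (minpoly.irreducible hint).separable
    have hcard : Fintype.card ((minpoly L x).rootSet ℂ) = (minpoly L x).natDegree :=
      Polynomial.card_rootSet_eq_natDegree hsep (IsAlgClosed.splits _)
    have h2 : ∃ y : (minpoly L x).rootSet ℂ, (y : ℂ) ≠ x := by
      by_contra hcon
      push Not at hcon
      have : Fintype.card ((minpoly L x).rootSet ℂ) ≤ 1 := by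
        rw [Fintype.card_le_one_iff]
        intro a b
        apply Subtype.ext
        rw [hcon a, hcon b]
      omega
    obtain ⟨⟨y, hy⟩, hyx⟩ := h2
    have hy0 : Polynomial.aeval y (minpoly L x) = 0 := by
      rw [Polynomial.mem_rootSet] at hy
      exact hy.2
    have hmin : minpoly L y = minpoly L x :=
      (minpoly.eq_of_irreducible_of_monic (minpoly.irreducible hint) hy0
        (minpoly.monic hint)).symm
    obtain ⟨σ, hσ, hσx⟩ := exists_fix_poly L x y (fun P => by
      rw [← minpoly.dvd_iff, ← minpoly.dvd_iff, hmin])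
    exact hyx (hσx.symm.trans (h σ hσ))
  · have hx' : x ∉ clo L := by rwa [mem_clo]
    obtain ⟨σ, hσ, hσx⟩ := exists_fix_tr L hx' (add_notMem_clo L hx' 1)
    rw [h σ hσ] at hσx
    simp at hσx

/-- the conjugates of an algebraic element -/
theorem finite_orbit (L : Fl) {x : ℂ} (hx : x ∈ clo L) : {y | ∃ σ ∈ Fix L, σ x = y}.Finite := by
  rw [mem_clo] at hx
  refine Set.Finite.subset ((minpoly L x).rootSet_finite ℂ) ?_
  rintro y ⟨σ, hσ, rfl⟩
  rw [Polynomial.mem_rootSet]
  refine ⟨minpoly.ne_zero hx.isIntegral, ?_⟩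
  let τ : ℂ →ₐ[L] ℂ := { σ.toRingHom with commutes' := fun l => hσ l l.2 }
  have h1 : τ x = σ x := rfl
  rw [← h1, Polynomial.aeval_algHom_apply, minpoly.aeval, map_zero]

/-- the conjugates of a point defined over `clo L` -/
theorem finite_orbit_pt (L : Fl) {p : PP} (hp : Over (clo L) p) :
    {q | ∃ σ ∈ Fix L, act σ p = q}.Finite := by
  classical
  obtain ⟨z, hz, hzL, rfl⟩ := hp
  have h1 : (Set.univ.pi fun i => {y | ∃ σ ∈ Fix L, σ (z i) = y}).Finite :=
    Set.Finite.pi' (fun i => finite_orbit L (hzL i)) |>.subset (fun w hw i => hw i (Set.mem_univ i))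
  refine Set.Finite.subset (h1.image (fun w : Fin 4 → ℂ => if hw : w ≠ 0 then
    (Projectivization.mk ℂ w hw : PP) else Projectivization.mk ℂ z hz)) ?_
  rintro q ⟨σ, hσ, rfl⟩
  refine ⟨fun i => σ (z i), fun i _ => ⟨σ, hσ, rfl⟩, ?_⟩
  have h2 := map_ne_zero' σ hz
  beta_reduce
  rw [dif_pos h2, act_mk σ z hz h2]

/-- an element with finitely many conjugates is algebraic -/
theorem mem_clo_of_finite (L : Fl) [Countable L] {x : ℂ}
    (h : {y | ∃ σ ∈ Fix L, σ x = y}.Finite) : x ∈ clo L := by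
  by_contra hx
  refine Set.infinite_of_injective_forall_mem (f := fun n : ℕ => x + n) ?_ ?_ h
  · intro a b hab
    simpa using hab
  · intro n
    obtain ⟨σ, hσ, hσx⟩ := exists_fix_tr L hx (add_notMem_clo L hx n)
    exact ⟨σ, hσ, hσx⟩

/-- a point with finitely many conjugates is defined over `clo L` -/
theorem over_clo_of_finite (L : Fl) [Countable L] {p : PP}
    (h : {q | ∃ σ ∈ Fix L, act σ p = q}.Finite) : Over (clo L) p := by
  obtain ⟨z, hz, i, h1, rfl⟩ := exists_nrm p
  rw [over_mk hz h1]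
  intro j
  refine mem_clo_of_finite L ?_
  refine Set.Finite.subset (h.image (fun q : PP => q.rep j / q.rep i)) ?_
  rintro y ⟨σ, hσ, rfl⟩
  have h2 := map_ne_zero' σ hz
  refine ⟨Projectivization.mk ℂ (fun i => σ (z i)) h2, ⟨σ, hσ, act_mk σ z hz h2⟩, ?_⟩
  obtain ⟨c, hc⟩ := Projectivization.exists_smul_eq_mk_rep ℂ (fun i => σ (z i)) h2
  beta_reduce
  rw [← hc]
  simp [h1, Units.smul_def]

/-- an automorphism which preserves a countable algebraically closed field `C` can be changed
outside `C` so that it maps a given transcendental element to another one -/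
theorem exists_extend (C : Fl) [Countable C] (hC : clo C = C) (σ : ℂ ≃+* ℂ)
    (hσ : ∀ x, σ x ∈ C ↔ x ∈ C) {u v : ℂ} (hu : u ∉ C) (hv : v ∉ C) :
    ∃ τ : ℂ ≃+* ℂ, (∀ x ∈ C, τ x = σ x) ∧ τ u = v := by
  have : Countable (Polynomial C) := by
    have h1 : Cardinal.mk (Polynomial C) ≤ Cardinal.aleph0 := by
      refine (Polynomial.cardinalMk_le_max).trans ?_
      exact max_le (Cardinal.mk_le_aleph0) le_rfl
    exact Cardinal.mk_le_aleph0_iff.mp h1
  have htr : ∀ w : ℂ, w ∉ C → ∀ P : Polynomial C, Polynomial.aeval w P = 0 → P = 0 := by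
    intro w hw P hP
    by_contra hP0
    apply hw
    rw [← hC, mem_clo]
    exact ⟨P, hP0, hP⟩
  -- the second homomorphism
  have hv' : σ.symm v ∉ C := by
    rw [← hσ, RingEquiv.apply_symm_apply]
    exact hv
  obtain ⟨τ, hτ⟩ := ext_hom ((Polynomial.aeval u : Polynomial C →ₐ[C] ℂ) : Polynomial C →+* ℂ)
    ((σ : ℂ →+* ℂ).comp ((Polynomial.aeval (σ.symm v) : Polynomial C →ₐ[C] ℂ) :
      Polynomial C →+* ℂ)) (by
    ext P
    rw [RingHom.mem_ker, RingHom.mem_ker]
    constructor
    · intro h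
      have h1 := htr u hu P h
      rw [h1, map_zero]
    · intro h
      rw [RingHom.comp_apply] at h
      have h1 : Polynomial.aeval (σ.symm v) P = 0 := by
        apply σ.injective
        rw [map_zero]
        exact h
      rw [htr _ hv' P h1, map_zero])
  refine ⟨τ, fun x hx => ?_, ?_⟩
  · have h1 := hτ (Polynomial.C (⟨x, hx⟩ : C))
    simpa using h1
  · have h1 := hτ Polynomial.X
    simpa using h1

/-- there are `n` elements which are algebraically independent over a countable field -/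
theorem exists_algInd (L : Fl) [Countable L] (n : ℕ) :
    ∃ x : Fin n → ℂ, AlgebraicIndependent L x := by
  obtain ⟨s, hs⟩ := exists_isTranscendenceBasis L ℂ
  have h3 := IsAlgClosed.cardinal_eq_cardinal_transcendence_basis_of_aleph0_lt' _ hs
    (Cardinal.mk_le_aleph0) aleph0_lt_complex
  have : Infinite s := by
    rw [← Cardinal.aleph0_le_mk_iff, ← h3]
    exact aleph0_lt_complex.le
  let f : Fin n ↪ s := (Fin.valEmbedding).trans (Infinite.natEmbedding s)
  exact ⟨_, hs.1.comp f f.injective⟩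

theorem exists_notMem (L : Fl) [Countable L] : ∃ u : ℂ, u ∉ L := by
  by_contra hcon
  push Not at hcon
  have h1 : Countable ℂ := by
    refine Function.Injective.countable (f := fun u : ℂ => (⟨u, hcon u⟩ : L)) ?_
    intro a b hab
    exact congrArg Subtype.val hab
  exact absurd (Cardinal.mk_le_aleph0_iff.mpr h1) (not_le.mpr aleph0_lt_complex)

/-- the normal closure of a finitely generated algebraic extension: finite index -/
theorem exists_normal (K : Fl) [Countable K] (S : Finset ℂ) (hS : ∀ x ∈ S, x ∈ clo K) :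
    ∃ K' : Fl, K ≤ K' ∧ K' ≤ clo K ∧ (∀ x ∈ S, x ∈ K') ∧
      (∀ σ ∈ Fix K, ∀ x, σ x ∈ K' ↔ x ∈ K') ∧
      ∃ (n : ℕ) (g : Fin (n + 1) → ℂ ≃+* ℂ), (∀ i, g i ∈ Fix K) ∧
        ∀ σ ∈ Fix K, ∃! i, (g i)⁻¹ * σ ∈ Fix K' := by
  classical
  set T : Set ℂ := ⋃ x ∈ S, {y | ∃ σ ∈ Fix K, σ x = y} with hT
  have hTf : T.Finite := Set.Finite.biUnion S.finite_toSet (fun x hx => finite_orbit K (hS x hx))
  have hTmem : ∀ y, y ∈ T ↔ ∃ x ∈ S, ∃ σ ∈ Fix K, σ x = y := by
    intro y
    simp [hT]
  have hTσ : ∀ σ ∈ Fix K, ∀ y ∈ T, σ y ∈ T := by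
    intro σ hσ y hy
    rw [hTmem] at hy ⊢
    obtain ⟨x, hx, τ, hτ, rfl⟩ := hy
    exact ⟨x, hx, σ * τ, mul_mem hσ hτ, rfl⟩
  have hmap : ∀ σ ∈ Fix K, ∀ x ∈ adj K T, σ x ∈ adj K T := by
    intro σ hσ x hx
    have h1 : adj K T ≤ (adj K T).comap (AlgHom.mk (σ : ℂ →+* ℂ) (by
        intro r
        exact map_ratCast _ r) : ℂ →ₐ[ℚ] ℂ) := by
      refine adj_le ?_ ?_
      · intro y hy
        change σ y ∈ adj K T
        rw [hσ y hy]
        exact le_adj K T hy
      · intro y hy
        change σ y ∈ adj K T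
        exact subset_adj K T (hTσ σ hσ y hy)
    exact h1 hx
  have hK'le : adj K T ≤ clo K := by
    refine adj_le (le_clo K) ?_
    intro y hy
    rw [hTmem] at hy
    obtain ⟨x, hx, σ, hσ, rfl⟩ := hy
    exact (fix_mem_clo hσ).mpr (hS x hx)
  -- the finite set of restrictions
  have hfin : Finite T := hTf
  let res : ↥(Fix K) → (T → ℂ) := fun σ t => σ.1 t
  have hrange : (Set.range res).Finite := by
    refine Set.Finite.subset (Set.Finite.pi' (fun _ : T => hTf)) ?_
    rintro _ ⟨σ, rfl⟩ t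
    exact hTσ σ.1 σ.2 t t.2
  have hfr : Finite (Set.range res) := hrange
  obtain ⟨m, ⟨e⟩⟩ := Finite.exists_equiv_fin (Set.range res)
  have hm : m ≠ 0 := by
    rintro rfl
    exact (e ⟨res 1, 1, rfl⟩).elim0
  obtain ⟨n, rfl⟩ : ∃ n, m = n + 1 := ⟨m - 1, by omega⟩
  have hg : ∀ i : Fin (n + 1), ∃ σ : ↥(Fix K), res σ = (e.symm i : T → ℂ) := by
    intro i
    obtain ⟨σ, hσ⟩ := (e.symm i).2
    exact ⟨σ, hσ⟩
  choose g hg using hg
  have hiff : ∀ (i : Fin (n + 1)) (σ : ↥(Fix K)), ((g i).1)⁻¹ * σ.1 ∈ Fix (adj K T) ↔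
      (e.symm i : T → ℂ) = res σ := by
    intro i σ
    rw [mem_Fix_adj, ← hg i]
    constructor
    · rintro ⟨-, h⟩
      funext t
      have h1 := h t t.2
      change (g i).1.symm (σ.1 t) = t at h1
      rw [RingEquiv.symm_apply_eq] at h1
      exact h1.symm
    · intro h
      refine ⟨mul_mem (inv_mem (g i).2) σ.2, fun x hx => ?_⟩
      have h1 : (g i).1 x = σ.1 x := congrFun h ⟨x, hx⟩
      change (g i).1.symm (σ.1 x) = x
      rw [RingEquiv.symm_apply_eq]
      exact h1.symm
  refine ⟨adj K T, le_adj K T, hK'le, fun x hx => subset_adj K T ?_, ?_, n, fun i => (g i).1,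
    fun i => (g i).2, ?_⟩
  · rw [hTmem]
    exact ⟨x, hx, 1, one_mem _, rfl⟩
  · intro σ hσ x
    refine ⟨fun h => ?_, hmap σ hσ x⟩
    have h1 := hmap σ⁻¹ (inv_mem hσ) _ h
    change σ.symm (σ x) ∈ adj K T at h1
    rwa [RingEquiv.symm_apply_apply] at h1
  · intro σ hσ
    refine ⟨e ⟨res ⟨σ, hσ⟩, ⟨σ, hσ⟩, rfl⟩, ?_, ?_⟩
    · refine (hiff _ ⟨σ, hσ⟩).mpr ?_
      rw [Equiv.symm_apply_apply]
    · intro j hj
      have h1 := (hiff j ⟨σ, hσ⟩).mp hj
      have h2 : e.symm j = ⟨res ⟨σ, hσ⟩, ⟨σ, hσ⟩, rfl⟩ := Subtype.ext h1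
      have h3 := congrArg e h2
      rw [Equiv.apply_symm_apply] at h3
      exact h3

end Pool.Agent.VGS
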