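import Pool.Agent.VGS.Aut
import Pool.Agent.VGS.Place

/-! Module Chow: Chow forms of families of cycles. -/

set_option autoImplicit false

open scoped LinearAlgebra.Projectivization
open MvPolynomial

namespace Pool.Agent.VGS

open Pool.Agent.Chow0 (IsLink IsChowForm chowForm linForm)
open Pool.Agent.LowDeg (surf)

/-- `G` is a Chow form of the multiset `s` of points -/
def IsCh (G : MvPolynomial (Fin 4) ℂ) (s : Multiset PP) : Prop :=
  ∃ c : ℂ, c ≠ 0 ∧ G = C c * chowForm s

/-! ### linear forms -/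

theorem ch_coeff_linForm (v : Fin 4 → ℂ) (m : Fin 4 →₀ ℕ) :
    coeff m (linForm v) = ∑ i, v i * coeff m (X i : MvPolynomial (Fin 4) ℂ) := by
  rw [linForm, coeff_sum]
  exact Finset.sum_congr rfl fun i _ => coeff_C_mul _ _ _

theorem ch_coeff_single (v : Fin 4 → ℂ) (i : Fin 4) :
    coeff (Finsupp.single i 1) (linForm v) = v i := by
  classical
  rw [ch_coeff_linForm, Finset.sum_eq_single i]
  · rw [coeff_X, if_pos rfl, mul_one]
  · intro j _ hj
    rw [coeff_X, if_neg, mul_zero]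
    intro h
    exact hj ((Finsupp.single_left_inj one_ne_zero).1 h)
  · intro h
    exact absurd (Finset.mem_univ i) h

theorem ch_linForm_ne_zero {v : Fin 4 → ℂ} (hv : v ≠ 0) : linForm v ≠ 0 := by
  intro h
  apply hv
  funext i
  rw [← ch_coeff_single v i, h]
  rfl

theorem ch_linForm_smul (r : ℂ) (v : Fin 4 → ℂ) : linForm (r • v) = C r * linForm v := by
  rw [linForm, linForm, Finset.mul_sum]
  refine Finset.sum_congr rfl fun i _ => ?_
  rw [Pi.smul_apply, smul_eq_mul, C_mul, mul_assoc]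

theorem ch_linForm_hom (v : Fin 4 → ℂ) : (linForm v).IsHomogeneous 1 :=
  MvPolynomial.IsHomogeneous.sum _ _ _ fun _ _ => MvPolynomial.isHomogeneous_C_mul_X _ _

theorem ch_map_linForm (σ : ℂ →+* ℂ) (v : Fin 4 → ℂ) :
    map σ (linForm v) = linForm fun i => σ (v i) := by
  rw [linForm, linForm, map_sum]
  refine Finset.sum_congr rfl fun i _ => ?_
  rw [map_mul, map_C, map_X]

theorem ch_irreducible {v : Fin 4 → ℂ} (hv : v ≠ 0) : Irreducible (linForm v) := by
  have h1 : (linForm v).totalDegree = 1 :=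
    (ch_linForm_hom v).totalDegree (ch_linForm_ne_zero hv)
  refine irreducible_of_totalDegree_eq_one h1 fun x hx => ?_
  have h2 : ∃ m, coeff m (linForm v) ≠ 0 := by
    by_contra hc
    push Not at hc
    exact ch_linForm_ne_zero hv (MvPolynomial.ext _ _ fun m => by rw [hc m, coeff_zero])
  obtain ⟨m, hm⟩ := h2
  refine isUnit_iff_ne_zero.2 fun h0 => hm ?_
  have := hx m
  rw [h0, zero_dvd_iff] at this
  exact this

theorem ch_eq_of_associated {p q : PP} (h : Associated (linForm p.rep) (linForm q.rep)) :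
    p = q := by
  obtain ⟨u, hu⟩ := h
  obtain ⟨r, hr, hr'⟩ := MvPolynomial.isUnit_iff_eq_C_of_isReduced.1 u.isUnit
  rw [hr'] at hu
  have h1 : ∀ i, r * p.rep i = q.rep i := by
    intro i
    have := congrArg (coeff (Finsupp.single i 1)) hu
    rwa [mul_comm, coeff_C_mul, ch_coeff_single, ch_coeff_single] at this
  rw [← p.mk_rep, ← q.mk_rep, Projectivization.mk_eq_mk_iff']
  refine ⟨r⁻¹, ?_⟩
  funext i
  have hr0 : r ≠ 0 := hr.ne_zero
  rw [Pi.smul_apply, smul_eq_mul, ← h1 i, inv_mul_cancel_left₀ hr0]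

theorem ch_linForm_mk {z : Fin 4 → ℂ} (hz : z ≠ 0) :
    ∃ r : ℂ, r ≠ 0 ∧ linForm z = C r * linForm (Projectivization.mk ℂ z hz : PP).rep := by
  obtain ⟨a, ha⟩ := Projectivization.exists_smul_eq_mk_rep ℂ z hz
  refine ⟨(a : ℂ)⁻¹, inv_ne_zero a.ne_zero, ?_⟩
  rw [← ha, ← ch_linForm_smul]
  congr 1
  rw [Units.smul_def, smul_smul, inv_mul_cancel₀ a.ne_zero, one_smul]

/-! ### Chow forms -/

theorem chowForm_cons' (p : PP) (s : Multiset PP) :
    chowForm (p ::ₘ s) = linForm p.rep * chowForm s := by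
  rw [chowForm, chowForm, Multiset.map_cons, Multiset.prod_cons]

theorem chowForm_ne_zero' (s : Multiset PP) : chowForm s ≠ 0 := by
  rw [chowForm, Ne, Multiset.prod_eq_zero_iff, Multiset.mem_map]
  rintro ⟨p, -, hp⟩
  exact ch_linForm_ne_zero p.rep_nonzero hp

theorem IsCh.ne_zero {G : MvPolynomial (Fin 4) ℂ} {s : Multiset PP} (h : IsCh G s) : G ≠ 0 := by
  obtain ⟨c, hc, rfl⟩ := h
  refine mul_ne_zero ?_ (chowForm_ne_zero' s)
  rw [Ne, MvPolynomial.C_eq_zero]
  exact hc

theorem IsCh.C_mul {G : MvPolynomial (Fin 4) ℂ} {s : Multiset PP} (h : IsCh G s) {a : ℂ}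
    (ha : a ≠ 0) : IsCh (C a * G) s := by
  obtain ⟨c, hc, rfl⟩ := h
  exact ⟨a * c, mul_ne_zero ha hc, by rw [MvPolynomial.C_mul, mul_assoc]⟩

theorem IsCh.ratio {G H : MvPolynomial (Fin 4) ℂ} {s : Multiset PP} (h : IsCh G s)
    (h' : IsCh H s) : ∃ a : ℂ, a ≠ 0 ∧ G = C a * H := by
  obtain ⟨c, hc, rfl⟩ := h
  obtain ⟨c', hc', rfl⟩ := h'
  refine ⟨c / c', div_ne_zero hc hc', ?_⟩
  rw [← mul_assoc, ← MvPolynomial.C_mul, div_mul_cancel₀ _ hc']

theorem IsCh.unique {G : MvPolynomial (Fin 4) ℂ} {s s' : Multiset PP} (h : IsCh G s)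
    (h' : IsCh G s') : s = s' := by
  obtain ⟨c, hc, h⟩ := h
  obtain ⟨c', hc', h'⟩ := h'
  have hirr : ∀ s : Multiset PP, ∀ x ∈ s.map fun p => linForm p.rep, Irreducible x := by
    intro s x hx
    obtain ⟨p, _, rfl⟩ := Multiset.mem_map.1 hx
    exact ch_irreducible p.rep_nonzero
  have hass : Associated (s.map fun p => linForm p.rep).prod
      (s'.map fun p => linForm p.rep).prod := by
    have hu : IsUnit (C c : MvPolynomial (Fin 4) ℂ) := (isUnit_iff_ne_zero.2 hc).map C
    have hu' : IsUnit (C c' : MvPolynomial (Fin 4) ℂ) := (isUnit_iff_ne_zero.2 hc').map C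
    have e1 : Associated (chowForm s) G := by
      rw [h]; exact associated_unit_mul_right _ _ hu
    have e2 : Associated (chowForm s') G := by
      rw [h']; exact associated_unit_mul_right _ _ hu'
    exact e1.trans e2.symm
  have hrel := UniqueFactorizationMonoid.factors_unique (hirr s) (hirr s') hass
  rw [Multiset.rel_map] at hrel
  rw [← Multiset.rel_eq]
  exact hrel.mono fun a _ b _ hab => ch_eq_of_associated hab

/-- a product of linear forms is a Chow form -/
theorem isCh_prod (s : Multiset PP) (z : PP → Fin 4 → ℂ) (g : PP → PP)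
    (h : ∀ p ∈ s, ∃ hz : z p ≠ 0, g p = Projectivization.mk ℂ (z p) hz) :
    IsCh (s.map fun p => linForm (z p)).prod (s.map g) := by
  induction s using Multiset.induction_on with
  | empty => exact ⟨1, one_ne_zero, by simp [chowForm]⟩
  | cons p s ih =>
    obtain ⟨c, hc, hc'⟩ := ih fun q hq => h q (Multiset.mem_cons_of_mem hq)
    obtain ⟨hz, hp⟩ := h p (Multiset.mem_cons_self p s)
    obtain ⟨r, hr, hr'⟩ := ch_linForm_mk hz
    refine ⟨r * c, mul_ne_zero hr hc, ?_⟩
    rw [Multiset.map_cons, Multiset.prod_cons, Multiset.map_cons, chowForm_cons', hc', hr', hp,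
      MvPolynomial.C_mul]
    ring

theorem isCh_map (σ : ℂ ≃+* ℂ) (s : Multiset PP) :
    IsCh (map (σ : ℂ →+* ℂ) (chowForm s)) (s.map (act σ)) := by
  have h1 : map (σ : ℂ →+* ℂ) (chowForm s) =
      (s.map fun p => linForm fun i => σ (p.rep i)).prod := by
    rw [chowForm, map_multiset_prod, Multiset.map_map]
    congr 1
    refine Multiset.map_congr rfl fun p _ => ?_
    exact ch_map_linForm _ _
  rw [h1]
  exact isCh_prod s (fun p i => σ (p.rep i)) (act σ) fun p _ =>
    ⟨map_ne_zero' σ p.rep_nonzero, rfl⟩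

theorem IsCh.map {G : MvPolynomial (Fin 4) ℂ} {s : Multiset PP} (h : IsCh G s) (σ : ℂ ≃+* ℂ) :
    IsCh (MvPolynomial.map (σ : ℂ →+* ℂ) G) (s.map (act σ)) := by
  obtain ⟨c, hc, rfl⟩ := h
  rw [map_mul, map_C]
  exact (isCh_map σ s).C_mul (by simpa using hc)

/-! ### specialisation of polynomials -/

/-- all coefficients of `G` specialise to the coefficients of `H` -/
def SpM (V : ValuationSubring ℂ) (K : Fl) (G H : MvPolynomial (Fin 4) ℂ) : Prop :=
  ∀ m, Sp V K (coeff m G) (coeff m H)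

theorem SpM.mul {V : ValuationSubring ℂ} {K : Fl} (hV : IsPl V K)
    {G H G' H' : MvPolynomial (Fin 4) ℂ} (h : SpM V K G H) (h' : SpM V K G' H') :
    SpM V K (G * G') (H * H') := by
  classical
  intro m
  rw [coeff_mul, coeff_mul]
  exact Sp.sum hV _ fun i _ => Sp.mul hV (h _) (h' _)

theorem SpM.linForm {V : ValuationSubring ℂ} {K : Fl} (hV : IsPl V K) {z w : Fin 4 → ℂ}
    (h : ∀ i, Sp V K (z i) (w i)) : SpM V K (Chow0.linForm z) (Chow0.linForm w) := by
  classical
  intro m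
  rw [ch_coeff_linForm, ch_coeff_linForm]
  refine Sp.sum hV _ fun i _ => Sp.mul hV (h i) (Sp.const hV ?_)
  rw [coeff_X]
  split_ifs
  · exact K.one_mem
  · exact K.zero_mem

theorem SpM.prod {V : ValuationSubring ℂ} {K : Fl} (hV : IsPl V K) (s : Multiset PP)
    (z w : PP → Fin 4 → ℂ) (h : ∀ p ∈ s, ∀ i, Sp V K (z p i) (w p i)) :
    SpM V K (s.map fun p => Chow0.linForm (z p)).prod
      (s.map fun p => Chow0.linForm (w p)).prod := by
  classical
  induction s using Multiset.induction_on with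
  | empty =>
    intro m
    rw [Multiset.map_zero, Multiset.map_zero, Multiset.prod_zero]
    refine Sp.const hV ?_
    rw [coeff_one]
    split_ifs
    · exact K.one_mem
    · exact K.zero_mem
  | cons p s ih =>
    rw [Multiset.map_cons, Multiset.map_cons, Multiset.prod_cons, Multiset.prod_cons]
    exact (SpM.linForm hV (h p (Multiset.mem_cons_self p s))).mul hV
      (ih fun q hq => h q (Multiset.mem_cons_of_mem hq))

/-- if `G = k H` and `G`, `H` specialise to nonzero polynomials, these are proportional -/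
theorem SpM.ratio {V : ValuationSubring ℂ} {K : Fl} (hV : IsPl V K)
    {G H G' H' : MvPolynomial (Fin 4) ℂ} (h : SpM V K G H) (h' : SpM V K G' H')
    {k : ℂ} (hk : G = C k * G') (hH : H ≠ 0) (hH' : H' ≠ 0) : ∃ a : ℂ, a ≠ 0 ∧ H = C a * H' := by
  obtain ⟨m, hm⟩ : ∃ m, coeff m H' ≠ 0 := by
    by_contra hc
    push Not at hc
    exact hH' (MvPolynomial.ext _ _ fun m => by rw [hc m, coeff_zero])
  have h1 : Sp V K k (coeff m H / coeff m H') := by
    have h2 : k = coeff m G / coeff m G' := by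
      rw [hk, coeff_C_mul, mul_div_cancel_right₀]
      exact Sp.ne_zero hV (h' m) hm
    rw [h2]
    exact Sp.div hV (h m) (h' m) hm
  have h3 : H = C (coeff m H / coeff m H') * H' := by
    refine MvPolynomial.ext _ _ fun n => ?_
    rw [coeff_C_mul]
    refine Sp.unique hV (h n) ?_
    rw [hk, coeff_C_mul]
    exact Sp.mul hV h1 (h' n)
  refine ⟨_, ?_, h3⟩
  intro h0
  rw [h0, C_0, zero_mul] at h3
  exact hH h3

/-! ### the field `E(u)` -/

theorem mem_adjoin_of_mem_adj {E : Fl} {u x : ℂ} (hx : x ∈ adj E {u}) :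
    x ∈ IntermediateField.adjoin E ({u} : Set ℂ) := by
  have h : adj E {u} ≤ (IntermediateField.adjoin E ({u} : Set ℂ)).restrictScalars ℚ := by
    refine adj_le ?_ ?_
    · intro y hy
      exact (IntermediateField.adjoin E ({u} : Set ℂ)).algebraMap_mem ⟨y, hy⟩
    · exact IntermediateField.subset_adjoin E ({u} : Set ℂ)
  exact h hx

theorem exists_frac {E : Fl} {u x : ℂ} (hx : x ∈ adj E {u}) :
    ∃ A B : Polynomial E, B ≠ 0 ∧ x * Polynomial.aeval u B = Polynomial.aeval u A := by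
  obtain ⟨r, s, h⟩ := (IntermediateField.mem_adjoin_simple_iff E x).1 (mem_adjoin_of_mem_adj hx)
  by_cases h0 : Polynomial.aeval u s = 0
  · refine ⟨0, 1, one_ne_zero, ?_⟩
    rw [h, h0, div_zero, zero_mul, map_zero]
  · refine ⟨r, s, ?_, ?_⟩
    · rintro rfl
      exact h0 (map_zero _)
    · rw [h, div_mul_cancel₀ _ h0]

theorem exists_fracs {E : Fl} {u : ℂ} {ι : Type} (s : Finset ι) (x : ι → ℂ)
    (hx : ∀ i ∈ s, x i ∈ adj E {u}) :
    ∃ (B : Polynomial E) (A : ι → Polynomial E), B ≠ 0 ∧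
      ∀ i ∈ s, x i * Polynomial.aeval u B = Polynomial.aeval u (A i) := by
  classical
  induction s using Finset.induction_on with
  | empty => exact ⟨1, fun _ => 0, one_ne_zero, fun i hi => absurd hi (Finset.notMem_empty i)⟩
  | insert a s ha ih =>
    obtain ⟨B, A, hB, hA⟩ := ih fun i hi => hx i (Finset.mem_insert_of_mem hi)
    obtain ⟨A₁, B₁, hB₁, hA₁⟩ := exists_frac (hx a (Finset.mem_insert_self a s))
    refine ⟨B * B₁, fun i => if i = a then A₁ * B else A i * B₁, mul_ne_zero hB hB₁, ?_⟩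
    intro i hi
    beta_reduce
    by_cases hia : i = a
    · subst hia
      rw [if_pos rfl, map_mul, map_mul, ← hA₁]
      ring
    · rw [if_neg hia, map_mul, map_mul, ← hA i (Finset.mem_of_mem_insert_of_ne hi hia)]
      ring

/-- division by the greatest common divisor -/
theorem exists_coprime {R : Type} [CommRing R] [IsDomain R] [IsPrincipalIdealRing R] {ι : Type}
    (s : Finset ι) (A : ι → R) (h : ∃ i ∈ s, A i ≠ 0) :
    ∃ (D : R) (A' r : ι → R), D ≠ 0 ∧ (∀ i ∈ s, A i = D * A' i) ∧ ∑ i ∈ s, r i * A' i = 1 := by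
  classical
  obtain ⟨I, hI⟩ : ∃ I : Ideal R, I = Ideal.span (A '' (s : Set ι)) := ⟨_, rfl⟩
  obtain ⟨D, hD⟩ : ∃ D : R, D = Submodule.IsPrincipal.generator I := ⟨_, rfl⟩
  have h1 : ∀ i ∈ s, D ∣ A i := by
    intro i hi
    rw [hD]
    refine (Submodule.IsPrincipal.mem_iff_generator_dvd I).1 ?_
    rw [hI]
    exact Ideal.subset_span ⟨i, hi, rfl⟩
  have h2 : ∀ i, ∃ a, i ∈ s → A i = D * a := by
    intro i
    by_cases hi : i ∈ s
    · obtain ⟨a, ha⟩ := h1 i hi
      exact ⟨a, fun _ => ha⟩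
    · exact ⟨0, fun h => absurd h hi⟩
  choose A' hA' using h2
  have hD0 : D ≠ 0 := by
    obtain ⟨i, hi, hi'⟩ := h
    rintro rfl
    exact hi' (by rw [hA' i hi, zero_mul])
  have h3 : D ∈ Ideal.span (A '' (s : Set ι)) := by
    rw [← hI, hD]
    exact Submodule.IsPrincipal.generator_mem I
  obtain ⟨r, hr⟩ := (Submodule.mem_span_image_finset_iff_exists_fun R).1 h3
  refine ⟨D, A', fun i => if h : i ∈ s then r ⟨i, h⟩ else 0, hD0, fun i hi => hA' i hi, ?_⟩
  apply mul_left_cancel₀ hD0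
  rw [mul_one, Finset.mul_sum]
  conv_rhs => rw [← hr]
  rw [← Finset.sum_coe_sort s]
  refine Finset.sum_congr rfl fun i _ => ?_
  beta_reduce
  rw [smul_eq_mul, hA' i i.2, dif_pos i.2]
  ring

theorem aeval_conj {E : Fl} {σ : ℂ ≃+* ℂ} (hσ : σ ∈ Fix E) (u : ℂ) (A : Polynomial E) :
    Polynomial.aeval (σ u) A = σ (Polynomial.aeval u A) := by
  have h1 : (σ : ℂ →+* ℂ).comp (algebraMap E ℂ) = algebraMap E ℂ :=
    RingHom.ext fun a => hσ a a.2
  have h2 := Polynomial.hom_eval₂ A (algebraMap E ℂ) (σ : ℂ →+* ℂ) u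
  rw [h1] at h2
  rw [Polynomial.aeval_def, Polynomial.aeval_def]
  exact h2.symm

theorem Sp.aeval₁ {V : ValuationSubring ℂ} {E K : Fl} (hEK : E ≤ K) (hV : IsPl V K) {u c : ℂ}
    (h : Sp V K u c) (A : Polynomial E) :
    Sp V K (Polynomial.aeval u A) (Polynomial.aeval c A) := by
  rw [Polynomial.aeval_eq_sum_range, Polynomial.aeval_eq_sum_range]
  refine Sp.sum hV _ fun i _ => ?_
  have h1 : ∀ (a : E) (x : ℂ), a • x = (a : ℂ) * x := fun a x => rfl
  rw [h1, h1]
  exact Sp.mul hV (Sp.const hV (hEK (A.coeff i).2)) (Sp.pow hV h i)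

/-! ### the family -/

/-- A finite family of points over the algebraic closure of `E(u)`, stable under the
automorphisms over `E(u)`. -/
structure IsFam (E : Fl) (u : ℂ) (S : Multiset PP) : Prop where
  isOver : ∀ p ∈ S, Over (clo (adj E {u})) p
  stable : ∀ σ ∈ Fix (adj E {u}), S.map (act σ) = S

/-- the polynomial in `t` with coefficients `∑ A_m λ^m` -/
noncomputable def fam {E : Fl} (s : Finset (Fin 4 →₀ ℕ)) (A : (Fin 4 →₀ ℕ) → Polynomial E) :
    Polynomial (MvPolynomial (Fin 4) ℂ) :=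
  ∑ m ∈ s, (A m).map ((C : ℂ →+* MvPolynomial (Fin 4) ℂ).comp (algebraMap E ℂ)) *
    Polynomial.C (monomial m 1)

theorem fam_eval {E : Fl} (s : Finset (Fin 4 →₀ ℕ)) (A : (Fin 4 →₀ ℕ) → Polynomial E) (x : ℂ) :
    (fam s A).eval (C x) = ∑ m ∈ s, monomial m (Polynomial.aeval x (A m)) := by
  rw [fam, Polynomial.eval_finsetSum]
  refine Finset.sum_congr rfl fun m _ => ?_
  rw [Polynomial.eval_mul, Polynomial.eval_C, Polynomial.eval_map, ← Polynomial.hom_eval₂,
    C_mul_monomial, mul_one, Polynomial.aeval_def]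

theorem coeff_fam_eval {E : Fl} (s : Finset (Fin 4 →₀ ℕ)) (A : (Fin 4 →₀ ℕ) → Polynomial E)
    (x : ℂ) (m : Fin 4 →₀ ℕ) :
    coeff m ((fam s A).eval (C x)) = if m ∈ s then Polynomial.aeval x (A m) else 0 := by
  classical
  rw [fam_eval, coeff_sum]
  simp only [coeff_monomial]
  rw [Finset.sum_ite_eq' s m fun m => Polynomial.aeval x (A m)]

theorem fam_coef {E : Fl} (s : Finset (Fin 4 →₀ ℕ)) (A : (Fin 4 →₀ ℕ) → Polynomial E) (i : ℕ) :
    Coef E ((fam s A).coeff i) := by
  classical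
  intro m
  rw [fam, Polynomial.finsetSum_coeff, coeff_sum]
  refine sum_mem fun n _ => ?_
  rw [Polynomial.coeff_mul_C, Polynomial.coeff_map, RingHom.comp_apply, C_mul_monomial, mul_one,
    coeff_monomial]
  split_ifs
  · exact ((A n).coeff i).2
  · exact E.zero_mem

/-- the Chow form of a family -/
theorem exists_chow (E : Fl) [Countable E] {u : ℂ} (hu : u ∉ clo E) {S : Multiset PP}
    (hS : IsFam E u S) :
    ∃ Φ : Polynomial (MvPolynomial (Fin 4) ℂ), (∀ i, Coef E (Φ.coeff i)) ∧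
      (∀ V : ValuationSubring ℂ, IsPl V (clo E) → ∀ c ∈ clo E, Sp V (clo E) u c →
        ∀ g : PP → PP, (∀ p ∈ S, SpP V (clo E) p (g p)) → IsCh (Φ.eval (C c)) (S.map g)) ∧
      ∀ σ ∈ Fix E, IsCh (Φ.eval (C (σ u))) (S.map (act σ)) := by
  classical
  -- transcendence
  have htr : ∀ A : Polynomial E, A ≠ 0 → Polynomial.aeval u A ≠ 0 := by
    intro A hA h0
    exact hu (mem_clo.2 ⟨A, hA, h0⟩)
  obtain ⟨P, hP⟩ : ∃ P, P = chowForm S := ⟨_, rfl⟩
  have hP0 : P ≠ 0 := by rw [hP]; exact chowForm_ne_zero' S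
  obtain ⟨m₀, hm₀⟩ : ∃ m, coeff m P ≠ 0 := by
    by_contra hc
    push Not at hc
    exact hP0 (MvPolynomial.ext _ _ fun m => by rw [hc m, coeff_zero])
  -- the normalised coefficients are in `E(u)`
  have hmem : ∀ m, coeff m P / coeff m₀ P ∈ adj E {u} := by
    intro m
    refine mem_of_fixed _ _ fun σ hσ => ?_
    obtain ⟨k, hk, hk'⟩ : ∃ k : ℂ, k ≠ 0 ∧ map (σ : ℂ →+* ℂ) P = C k * P := by
      have h1 := isCh_map σ S
      rw [hS.stable σ hσ, ← hP] at h1
      obtain ⟨k, hk, hk'⟩ := h1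
      exact ⟨k, hk, by rw [hk', hP]⟩
    have h2 : ∀ n, σ (coeff n P) = k * coeff n P := by
      intro n
      have h3 := congrArg (coeff n) hk'
      rw [coeff_map, coeff_C_mul] at h3
      exact h3
    rw [map_div₀, h2, h2, mul_div_mul_left _ _ hk]
  obtain ⟨B, A, hB, hA⟩ := exists_fracs (u := u) (E := E) P.support
    (fun m => coeff m P / coeff m₀ P) fun m _ => hmem m
  have hm₀s : m₀ ∈ P.support := mem_support_iff.2 hm₀
  have hAm₀ : A m₀ ≠ 0 := by
    intro h0
    have h1 := hA m₀ hm₀s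
    rw [h0, map_zero, div_self hm₀, one_mul] at h1
    exact htr B hB h1
  obtain ⟨D, A', r, hD, hA', hr⟩ := exists_coprime P.support A ⟨m₀, hm₀s, hAm₀⟩
  -- the value at `u`
  have hev : IsCh ((fam P.support A').eval (C u)) S := by
    refine ⟨Polynomial.aeval u B / (Polynomial.aeval u D * coeff m₀ P),
      div_ne_zero (htr B hB) (mul_ne_zero (htr D hD) hm₀), ?_⟩
    rw [← hP]
    refine MvPolynomial.ext _ _ fun m => ?_
    rw [coeff_fam_eval, coeff_C_mul]
    split_ifs with hm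
    · have h1 := hA m hm
      rw [hA' m hm, map_mul] at h1
      have h2 := htr D hD
      field_simp
      field_simp at h1
      linear_combination (-1 : ℂ) * h1
    · rw [notMem_support_iff.1 hm, mul_zero]
  have hneq : ∀ x : ℂ, (fam P.support A').eval (C x) ≠ 0 := by
    intro x h0
    have h1 : ∀ m ∈ P.support, Polynomial.aeval x (A' m) = 0 := by
      intro m hm
      have h2 := coeff_fam_eval P.support A' x m
      rw [h0, coeff_zero, if_pos hm] at h2
      exact h2.symm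
    have h3 := congrArg (Polynomial.aeval x) hr
    rw [map_sum, map_one, Finset.sum_eq_zero] at h3
    · exact zero_ne_one h3
    · intro m hm
      rw [map_mul, h1 m hm, mul_zero]
  refine ⟨fam P.support A', fam_coef _ _, ?_, ?_⟩
  · intro V hV c hc huc g hg
    have h1 : ∀ p ∈ S, ∃ z w : Fin 4 → ℂ, (∃ hz : z ≠ 0, p = Projectivization.mk ℂ z hz) ∧
        (∃ hw : w ≠ 0, g p = Projectivization.mk ℂ w hw) ∧ ∀ i, Sp V (clo E) (z i) (w i) := by
      intro p hp
      obtain ⟨z, w, hz, hw, h2, h3, h4⟩ := hg p hp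
      exact ⟨z, w, ⟨hz, h2⟩, ⟨hw, h3⟩, h4⟩
    choose! z w hz hw hzw using h1
    have hZ : IsCh (S.map fun p => linForm (z p)).prod S := by
      have h2 := isCh_prod S z id hz
      rwa [Multiset.map_id] at h2
    have hW : IsCh (S.map fun p => linForm (w p)).prod (S.map g) := isCh_prod S w g hw
    obtain ⟨k, -, hk⟩ := hev.ratio hZ
    have h3 : SpM V (clo E) ((fam P.support A').eval (C u)) ((fam P.support A').eval (C c)) := by
      intro m
      rw [coeff_fam_eval, coeff_fam_eval]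
      split_ifs
      · exact Sp.aeval₁ (le_clo E) hV huc _
      · exact Sp.const hV (clo E).zero_mem
    obtain ⟨a, ha, ha'⟩ := h3.ratio hV (SpM.prod hV S z w hzw) hk (hneq c) hW.ne_zero
    rw [ha']
    exact hW.C_mul ha
  · intro σ hσ
    have h1 : (fam P.support A').eval (C (σ u)) =
        map (σ : ℂ →+* ℂ) ((fam P.support A').eval (C u)) := by
      refine MvPolynomial.ext _ _ fun m => ?_
      rw [coeff_map, coeff_fam_eval, coeff_fam_eval]
      split_ifs
      · exact aeval_conj hσ u _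
      · exact (map_zero _).symm
    rw [h1]
    exact hev.map σ

end Pool.Agent.VGS
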