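import Pool.Agent.VGS.Trd

/-! Algebraic dependence over subfields of `ℂ`: the matroid. -/

set_option autoImplicit false

open MvPolynomial

namespace Pool.Agent.VGS

theorem adj_eq (L : Fl) (S : Set ℂ) :
    adj L S = (IntermediateField.adjoin L S).restrictScalars ℚ :=
  (IntermediateField.restrictScalars_adjoin_eq_sup ℚ L S).symm

theorem mem_clo_adj_mat {L : Fl} {S : Set ℂ} {x : ℂ} :
    x ∈ clo (adj L S) ↔ x ∈ (AlgebraicIndependent.matroid L ℂ).closure S := by
  rw [mem_clo_adj, AlgebraicIndependent.matroid_closure_eq]; rfl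


/-- exchange -/
theorem clo_exch {L : Fl} {x y : ℂ} (hx : x ∈ clo (adj L {y})) (hx' : x ∉ clo L) :
    y ∈ clo (adj L {x}) := by
  have h0 : (∅ : Set ℂ) ⊆ Set.univ := Set.empty_subset _
  have hL : adj L ∅ = L := by
    refine le_antisymm (adj_le le_rfl (Set.empty_subset _)) (le_adj _ _)
  rw [mem_clo_adj_mat] at hx ⊢
  rw [← hL, mem_clo_adj_mat] at hx'
  have := (AlgebraicIndependent.matroid L ℂ).mem_closure_insert (X := ∅) (e := x) (f := y) hx'
    (by simpa using hx)
  simpa using this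

theorem clo_exch' {L : Fl} {S : Set ℂ} {x y : ℂ} (hx : x ∈ clo (adj (adj L S) {y}))
    (hx' : x ∉ clo (adj L S)) : y ∈ clo (adj (adj L S) {x}) := clo_exch hx hx'

/-- a field generated by elements of `clo L'` -/
theorem clo_adj_le {L L' : Fl} {S : Set ℂ} (h : L ≤ clo L') (hS : S ⊆ clo L') :
    clo (adj L S) ≤ clo L' := by
  rw [← clo_clo L']
  exact clo_mono (adj_le h hS)

theorem coef_iff {L : Fl} {ι : Type} {f : MvPolynomial ι ℂ} :
    Coef L f ↔ ∃ f' : MvPolynomial ι L, map (algebraMap L ℂ) f' = f := by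
  constructor
  · intro h
    refine (MvPolynomial.mem_range_map_iff_coeffs_subset).2 ?_
    intro x hx
    obtain ⟨n, -, rfl⟩ := MvPolynomial.mem_coeffs_iff.1 (Finset.mem_coe.1 hx)
    exact ⟨⟨_, h n⟩, rfl⟩
  · rintro ⟨f', rfl⟩ m
    rw [coeff_map]
    exact (coeff m f').2

theorem algInd_pair_iff {L : Fl} {x y : ℂ} :
    AlgebraicIndependent L ![x, y] ↔ y ∉ clo L ∧ x ∉ clo (adj L {y}) := by
  have h5 : Set.range (fun _ : Fin 1 => y) = {y} := by
    ext z; simp [eq_comm]
  have h3 : AlgebraicIndependent L (Sum.elim (fun _ : Fin 1 => x) (fun _ : Fin 1 => y)) ↔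
      y ∉ clo L ∧ x ∉ clo (adj L {y}) := by
    rw [AlgebraicIndependent.sumElim_iff, algebraicIndependent_unique_type_iff,
      algebraicIndependent_unique_type_iff, h5, mem_clo, mem_clo_adj]
    rfl
  rw [← h3]
  constructor
  · intro h
    have h4 := h.comp (finSumFinEquiv : Fin 1 ⊕ Fin 1 ≃ Fin 2) (Equiv.injective _)
    convert h4 using 1
    funext i
    rcases i with i | i
    · fin_cases i; rfl
    · fin_cases i; rfl
  · intro h
    have h4 := h.comp finSumFinEquiv.symm finSumFinEquiv.symm.injective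
    convert h4 using 1
    funext i
    fin_cases i
    · rfl
    · rfl

/-- two elements algebraic over `L(a)` are algebraically dependent over `L` -/
theorem not_algInd_pair {L : Fl} {x y a : ℂ} (hx : x ∈ clo (adj L {a}))
    (hy : y ∈ clo (adj L {a})) : ¬ AlgebraicIndependent L ![x, y] := by
  rw [algInd_pair_iff]
  rintro ⟨h1, h2⟩
  apply h2
  have h3 : a ∈ clo (adj L {y}) := clo_exch hy h1
  refine clo_adj_le ?_ ?_ hx
  · exact (le_adj L {y}).trans (le_clo _)
  · simpa using h3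

theorem algInd_pair' {L : Fl} {x y : ℂ} (h : AlgebraicIndependent L ![x, y]) :
    ∀ f : MvPolynomial (Fin 2) ℂ, Coef L f → aeval ![x, y] f = 0 → f = 0 := by
  intro f hf h0
  obtain ⟨f', rfl⟩ := coef_iff.1 hf
  have h1 : aeval ![x, y] f' = 0 := by
    rw [← h0]
    simp [aeval_def, eval₂_map]
  have h2 := (algebraicIndependent_iff.1 h) f' h1
  rw [h2, map_zero]

theorem exists_dep {L : Fl} {x y a : ℂ} (hx : x ∈ clo (adj L {a}))
    (hy : y ∈ clo (adj L {a})) :
    ∃ f : MvPolynomial (Fin 2) ℂ, Coef L f ∧ f ≠ 0 ∧ aeval ![x, y] f = 0 := by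
  by_contra hcon
  push Not at hcon
  refine not_algInd_pair hx hy ?_
  rw [algebraicIndependent_iff]
  intro f' h0
  by_contra hf
  refine hcon (map (algebraMap L ℂ) f') (coef_iff.2 ⟨f', rfl⟩) ?_ ?_
  · intro h
    exact hf (map_injective _ (algebraMap L ℂ).injective (by rw [h, map_zero]))
  · rw [← h0]
    simp [aeval_def, eval₂_map]

theorem aeval_mem {L : Fl} {ι : Type} {G : MvPolynomial ι ℂ} (hG : Coef L G) {z : ι → ℂ}
    (hz : ∀ i, z i ∈ L) : aeval z G ∈ L := by
  rw [aeval_def, eval₂_eq]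
  refine sum_mem fun m _ => mul_mem (hG m) (prod_mem fun i _ => pow_mem (hz i) _)

end Pool.Agent.VGS
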