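import Mathlib

/-! Module RingN: numbers with rational power sums are algebraic. -/

set_option autoImplicit false

namespace Pool.Agent.VGS

theorem esymm_mem_bot {n : ℕ} (v : Fin n → ℂ)
    (h : ∀ j : ℕ, 0 < j → ∑ i, v i ^ j ∈ (⊥ : IntermediateField ℚ ℂ)) (k : ℕ) :
    MvPolynomial.aeval v (MvPolynomial.esymm (Fin n) ℚ k) ∈ (⊥ : IntermediateField ℚ ℂ) := by
  induction k using Nat.strong_induction_on with
  | _ k ih =>
    rcases Nat.eq_zero_or_pos k with rfl | hk
    · rw [MvPolynomial.esymm_zero, map_one]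
      exact (⊥ : IntermediateField ℚ ℂ).one_mem
    · have h1 := congrArg (MvPolynomial.aeval v)
        (MvPolynomial.mul_esymm_eq_sum (σ := Fin n) (R := ℚ) k)
      rw [map_mul, map_natCast, map_mul, map_pow, map_neg, map_one, map_sum] at h1
      have h2 : (k : ℂ) * MvPolynomial.aeval v (MvPolynomial.esymm (Fin n) ℚ k) ∈
          (⊥ : IntermediateField ℚ ℂ) := by
        rw [h1]
        refine (⊥ : IntermediateField ℚ ℂ).mul_mem ?_ (sum_mem fun a ha => ?_)
        · exact pow_mem (neg_mem (one_mem _)) _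
        · rw [Finset.mem_filter, Finset.HasAntidiagonal.mem_antidiagonal] at ha
          rw [map_mul, map_mul, map_pow, map_neg, map_one]
          refine mul_mem (mul_mem (pow_mem (neg_mem (one_mem _)) _) (ih _ ha.2)) ?_
          rw [MvPolynomial.psum, map_sum]
          have h3 : ∀ i ∈ (Finset.univ : Finset (Fin n)),
              MvPolynomial.aeval v ((MvPolynomial.X i : MvPolynomial (Fin n) ℚ) ^ a.2) =
                v i ^ a.2 := by
            intro i _
            rw [map_pow, MvPolynomial.aeval_X]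
          rw [Finset.sum_congr rfl h3]
          refine h _ ?_
          have := ha.1
          have := ha.2
          omega
      have hk' : (k : ℂ) ≠ 0 := by exact_mod_cast hk.ne'
      have h4 : MvPolynomial.aeval v (MvPolynomial.esymm (Fin n) ℚ k) =
          (k : ℂ)⁻¹ * ((k : ℂ) * MvPolynomial.aeval v (MvPolynomial.esymm (Fin n) ℚ k)) := by
        rw [inv_mul_cancel_left₀ hk']
      rw [h4]
      exact mul_mem (inv_mem (natCast_mem _ k)) h2

/-- numbers with rational power sums are algebraic -/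
theorem algebraic_of_psum {n : ℕ} (v : Fin n → ℂ)
    (h : ∀ j : ℕ, 0 < j → ∃ q : ℚ, ∑ i, v i ^ j = q) (i : Fin n) : IsAlgebraic ℚ (v i) := by
  have h' : ∀ j : ℕ, 0 < j → ∑ i, v i ^ j ∈ (⊥ : IntermediateField ℚ ℂ) := by
    intro j hj
    obtain ⟨q, hq⟩ := h j hj
    rw [hq, IntermediateField.mem_bot]
    exact ⟨q, rfl⟩
  obtain ⟨s, hs⟩ : ∃ s : Multiset ℂ, s = Finset.univ.val.map v := ⟨_, rfl⟩
  obtain ⟨P, hP⟩ : ∃ P : Polynomial ℂ, P = (s.map fun t => Polynomial.X - Polynomial.C t).prod :=
    ⟨_, rfl⟩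
  have hcard : Multiset.card s = n := by
    rw [hs, Multiset.card_map]
    exact Finset.card_fin n
  have hcoef : ∀ j, P.coeff j ∈ (⊥ : IntermediateField ℚ ℂ) := by
    intro j
    by_cases hj : j ≤ Multiset.card s
    · rw [hP, Multiset.prod_X_sub_C_coeff s hj, hs,
        ← MvPolynomial.aeval_esymm_eq_multiset_esymm (Fin n) ℚ]
      exact mul_mem (pow_mem (neg_mem (one_mem _)) _) (esymm_mem_bot v h' _)
    · have h1 : P.coeff j = 0 := by
        refine Polynomial.coeff_eq_zero_of_natDegree_lt ?_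
        rw [hP, Polynomial.natDegree_multiset_prod_X_sub_C_eq_card]
        omega
      rw [h1]
      exact zero_mem _
  have hl : P ∈ Polynomial.lifts (algebraMap ℚ ℂ) := by
    rw [Polynomial.lifts_iff_coeff_lifts]
    intro j
    exact IntermediateField.mem_bot.1 (hcoef j)
  obtain ⟨Q, hQ⟩ := (Polynomial.mem_lifts P).1 hl
  have hP0 : P ≠ 0 := by
    rw [hP]
    exact (Polynomial.monic_multiset_prod_of_monic _ _ fun a _ =>
      Polynomial.monic_X_sub_C a).ne_zero
  refine ⟨Q, ?_, ?_⟩
  · rintro rfl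
    apply hP0
    rw [← hQ, Polynomial.map_zero]
  · rw [Polynomial.aeval_def, ← Polynomial.eval_map, hQ, hP, Polynomial.eval_multiset_prod,
      Multiset.prod_eq_zero_iff, Multiset.map_map, Multiset.mem_map]
    refine ⟨v i, ?_, ?_⟩
    · rw [hs]
      exact Multiset.mem_map_of_mem v (Finset.mem_univ i)
    · simp

end Pool.Agent.VGS
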