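import Mathlib
import Pool.Agent.LowDeg.LocalDer
import Pool.Agent.LowDeg.TraceVal

/-! Module MumA: places of function fields of one variable. -/

set_option autoImplicit false

open IntermediateField

namespace Pool.Agent.VGS

open Pool.Agent.LowDeg (Place)

variable {K E : Type} [Field K] [IsAlgClosed K] [CharZero K] [Field E] [Algebra K E]

theorem mum_exists_sm (a : E) (ha : Transcendental K a) [FiniteDimensional K⟮a⟯ E] :
    ∃ P : Place K E, P.Sm a := by
  by_contra hno
  push Not at hno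
  have ha0 : a ≠ 0 := by
    rintro rfl
    exact ha isAlgebraic_zero
  obtain ⟨p, hp, hp0⟩ := Pool.Agent.LowDeg.isIntegral_of_places a ha a⁻¹
    fun P hP => hP.inv_of_not_sm (hno P)
  obtain ⟨φ, hφ⟩ : ∃ φ : Polynomial K →+* E, φ = (Polynomial.aeval a : Polynomial K →ₐ[K] E).toRingHom :=
    ⟨_, rfl⟩
  have hφ' : ∀ r, φ r = Polynomial.aeval a r := fun r => by rw [hφ]; rfl
  rw [← hφ] at hp0
  let i1 : Invertible a⁻¹ := invertibleOfNonzero (inv_ne_zero ha0)
  have h1 : Polynomial.eval₂ φ (⅟(a⁻¹)) (Polynomial.reverse p) = 0 :=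
    (Polynomial.eval₂_reverse_eq_zero_iff φ a⁻¹ p).2 hp0
  have h2 : ⅟(a⁻¹) = a := by rw [invOf_eq_inv, inv_inv]
  rw [h2] at h1
  have h3 : φ ((Polynomial.reverse p).eval Polynomial.X) = 0 := by
    rw [← Polynomial.eval₂_id, Polynomial.hom_eval₂, RingHom.comp_id, hφ', Polynomial.aeval_X]
    exact h1
  rw [hφ'] at h3
  have h4 : (Polynomial.reverse p).eval Polynomial.X = 0 := by
    by_contra h5
    exact ha ⟨_, h5, h3⟩
  have h5 := congrArg (Polynomial.eval (0 : K)) h4
  have h6 : Polynomial.eval (0 : K) ((Polynomial.reverse p).eval Polynomial.X) =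
      Polynomial.eval (0 : K) ((Polynomial.reverse p).coeff 0) := by
    rw [← Polynomial.coe_evalRingHom, ← Polynomial.eval₂_id, Polynomial.hom_eval₂,
      RingHom.comp_id, Polynomial.coe_evalRingHom, Polynomial.eval_X, Polynomial.eval₂_at_zero]
    rfl
  rw [h6, Polynomial.coeff_zero_reverse, hp.leadingCoeff, Polynomial.eval_one,
    Polynomial.eval_zero] at h5
  exact one_ne_zero h5

theorem mum_const (a : E) (ha : Transcendental K a) [FiniteDimensional K⟮a⟯ E] (x : E)
    (hx : ∀ P : Place K E, P.Int x) : ∃ c : K, x = algebraMap K E c := by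
  by_cases h : Transcendental K x
  · exfalso
    have h1 : Transcendental K x⁻¹ := fun h2 => h (by simpa using h2.inv)
    have h2 := (Pool.Agent.LowDeg.algebraic_of_transcendental a ha x⁻¹ h1).2
    obtain ⟨P, hP⟩ := mum_exists_sm x⁻¹ h1
    have hx0 : x ≠ 0 := by
      rintro rfl
      exact h isAlgebraic_zero
    have h3 := hP.resolve_left (inv_ne_zero hx0)
    have h4 := (hx P).resolve_left hx0
    rw [P.ord_inv] at h3
    omega
  · rw [Transcendental, not_not] at h
    obtain ⟨c, hc⟩ := Pool.Agent.LowDeg.TraceValAux.mem_range_of_isIntegral x h.isIntegral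
    exact ⟨c, hc.symm⟩

omit [IsAlgClosed K] [CharZero K] in
/-- the order of a polynomial in `a` -/
theorem mum_ord_poly (a : E) (ha : Transcendental K a) (P : Place K E) (a₀ : K)
    (hP : P.Sm (a - algebraMap K E a₀)) (p : Polynomial K) (hp : p ≠ 0) :
    ∃ n : ℕ, P.ord (Polynomial.aeval a p) = n * P.ord (a - algebraMap K E a₀) := by
  obtain ⟨q, hq, hdvd⟩ := Polynomial.exists_eq_pow_rootMultiplicity_mul_and_not_dvd p hp a₀
  refine ⟨p.rootMultiplicity a₀, ?_⟩
  have hb0 : a - algebraMap K E a₀ ≠ 0 := by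
    intro h
    apply ha
    rw [sub_eq_zero.1 h]
    exact isAlgebraic_algebraMap a₀
  have hval : P.IsVal a a₀ := hP
  have h1 : q.eval a₀ ≠ 0 := fun h => hdvd (Polynomial.dvd_iff_isRoot.2 h)
  have h2 := hval.polyAeval q
  have h3 := h2.ord_eq_zero h1
  have h4 := h2.ne_zero h1
  have h5 : Polynomial.aeval a p = (a - algebraMap K E a₀) ^ p.rootMultiplicity a₀ *
      Polynomial.aeval a q := by
    conv_lhs => rw [hq]
    rw [map_mul, map_pow, map_sub, Polynomial.aeval_X, Polynomial.aeval_C]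
  rw [h5, P.ord_mul _ _ (pow_ne_zero _ hb0) h4, P.ord_pow hb0, h3, add_zero]

/-- the order of an element of `K(a)` is a multiple of the order of `a - a₀` -/
theorem mum_int_of_ge (a : E) (ha : Transcendental K a) [FiniteDimensional K⟮a⟯ E]
    (P : Place K E) (a₀ : K) (hP : P.Sm (a - algebraMap K E a₀)) (x : E) (hx : x ∈ K⟮a⟯)
    (h : x = 0 ∨ 1 - P.ord (a - algebraMap K E a₀) ≤ P.ord x) : P.Int x := by
  by_cases hx0 : x = 0
  · exact Or.inl hx0
  have h1 := h.resolve_left hx0
  have hb0 : a - algebraMap K E a₀ ≠ 0 := by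
    intro h
    apply ha
    rw [sub_eq_zero.1 h]
    exact isAlgebraic_algebraMap a₀
  have he := hP.resolve_left hb0
  obtain ⟨r, s, hrs⟩ := IntermediateField.mem_adjoin_simple_iff K x |>.1 hx
  have hr : Polynomial.aeval a r ≠ 0 := by
    intro h0
    rw [h0, zero_div] at hrs
    exact hx0 hrs
  have hs : Polynomial.aeval a s ≠ 0 := by
    intro h0
    rw [h0, div_zero] at hrs
    exact hx0 hrs
  have hr0 : r ≠ 0 := by rintro rfl; exact hr (map_zero _)
  have hs0 : s ≠ 0 := by rintro rfl; exact hs (map_zero _)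
  obtain ⟨n, hn⟩ := mum_ord_poly a ha P a₀ hP r hr0
  obtain ⟨m, hm⟩ := mum_ord_poly a ha P a₀ hP s hs0
  right
  rw [hrs, P.ord_div hr hs, hn, hm] at h1 ⊢
  generalize P.ord (a - algebraMap K E a₀) = e at *
  by_contra hneg
  push Not at hneg
  have h2 : (n : ℤ) < m := by
    by_contra h3
    push Not at h3
    nlinarith
  nlinarith

/-- a derivation with `D a` integral loses at most `e - 1`, `e` the order of `a - a₀` -/
theorem mum_ge_der (a : E) (ha : Transcendental K a) [FiniteDimensional K⟮a⟯ E]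
    (P : Place K E) (a₀ : K) (hP : P.Sm (a - algebraMap K E a₀)) (D : Derivation ℤ E E)
    (hD : ∀ c : K, ∃ c' : K, D (algebraMap K E c) = algebraMap K E c') (hDa : P.Int (D a))
    (x : E) (hx : P.Int x) :
    D x = 0 ∨ 1 - P.ord (a - algebraMap K E a₀) ≤ P.ord (D x) := by
  have halg : ∀ x : E, Transcendental K x → Algebra.IsAlgebraic K⟮x⟯ E :=
    fun x hx => (Pool.Agent.LowDeg.algebraic_of_transcendental a ha x hx).1
  have hb0 : a - algebraMap K E a₀ ≠ 0 := by
    intro h
    apply ha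
    rw [sub_eq_zero.1 h]
    exact isAlgebraic_algebraMap a₀
  have he := hP.resolve_left hb0
  obtain ⟨b, hb⟩ : ∃ b, b = a - algebraMap K E a₀ := ⟨_, rfl⟩
  have hDb : P.Int (D b) := by
    obtain ⟨c', hc'⟩ := hD a₀
    rw [hb, map_sub, hc']
    exact hDa.sub (P.int_const c')
  rw [← hb] at he hb0 ⊢
  obtain ⟨τ, hτ0, hτ⟩ := P.exists_unif
  obtain ⟨e, hee⟩ : ∃ e : ℕ, (e : ℤ) = P.ord b := ⟨(P.ord b).toNat, Int.toNat_of_nonneg he.le⟩
  have he1 : 1 ≤ e := by omega
  have hρ' : D τ = 0 ∨ 1 - P.ord b ≤ P.ord (D τ) := by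
    by_contra hcon
    push Not at hcon
    obtain ⟨hDτ, hlt⟩ := hcon
    obtain ⟨r, hr⟩ : ∃ r, r = P.ord (D τ) := ⟨_, rfl⟩
    rw [← hr] at hlt
    have hp : τ ^ e ≠ 0 := pow_ne_zero _ hτ0
    obtain ⟨u, hu⟩ : ∃ u, u = b / τ ^ e := ⟨_, rfl⟩
    have hu0 : u ≠ 0 := by rw [hu]; exact div_ne_zero hb0 hp
    have hordu : P.ord u = 0 := by
      rw [hu, P.ord_div hb0 hp, P.ord_pow hτ0, hτ, ← hee]
      ring
    have hbu : b = u * τ ^ e := by
      rw [hu]
      field_simp
    have h1 := Pool.Agent.LowDeg.ord_der_ge P halg D hD τ hτ hτ0 r (by omega)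
      (Or.inr hr.le) u (Or.inr hordu.ge)
    have h2 : D b = τ ^ e * D u + (e : E) * u * τ ^ (e - 1) * D τ := by
      rw [hbu, Derivation.leibniz, Derivation.leibniz_pow]
      simp only [smul_eq_mul, nsmul_eq_mul]
      ring
    have hcz : CharZero E := charZero_of_injective_algebraMap (algebraMap K E).injective
    have heE : (e : E) ≠ 0 := by
      rw [Nat.cast_ne_zero]
      omega
    have horde : P.ord (e : E) = 0 := by
      have h3 : (e : K) ≠ 0 := by
        rw [Nat.cast_ne_zero]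
        omega
      have h4 := P.ord_const (e : K) h3
      rwa [map_natCast] at h4
    have h5 : (e : E) * u * τ ^ (e - 1) * D τ ≠ 0 :=
      mul_ne_zero (mul_ne_zero (mul_ne_zero heE hu0) (pow_ne_zero _ hτ0)) hDτ
    have h6 : P.ord ((e : E) * u * τ ^ (e - 1) * D τ) = (e : ℤ) - 1 + r := by
      rw [P.ord_mul _ _ (mul_ne_zero (mul_ne_zero heE hu0) (pow_ne_zero _ hτ0)) hDτ,
        P.ord_mul _ _ (mul_ne_zero heE hu0) (pow_ne_zero _ hτ0), P.ord_mul _ _ heE hu0, horde,
        hordu, P.ord_pow hτ0, hτ, ← hr]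
      push_cast [Nat.cast_sub he1]
      ring
    by_cases h7 : D u = 0
    · rw [h7, mul_zero, zero_add] at h2
      rw [h2] at hDb
      have h8 := hDb.resolve_left h5
      rw [h6] at h8
      omega
    · have h8 := h1.resolve_left h7
      have h9 : τ ^ e * D u ≠ 0 := mul_ne_zero hp h7
      have h10 : P.ord (τ ^ e * D u) = e + P.ord (D u) := by
        rw [P.ord_mul _ _ hp h7, P.ord_pow hτ0, hτ, mul_one]
      have h11 : (e : E) * u * τ ^ (e - 1) * D τ = D b + -(τ ^ e * D u) := by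
        rw [h2]
        ring
      by_cases h12 : D b = 0
      · rw [h12, zero_add] at h11
        have h13 := congrArg P.ord h11
        rw [h6, P.ord_neg, h10] at h13
        omega
      · have h13 := P.ord_add (D b) (-(τ ^ e * D u)) h12 (neg_ne_zero.2 h9) (h11 ▸ h5)
        rw [← h11, h6, P.ord_neg, h10] at h13
        have h14 := hDb.resolve_left h12
        rcases min_le_iff.1 h13 with h15 | h15
        · omega
        · omega
  exact Pool.Agent.LowDeg.ord_der_ge P halg D hD τ hτ hτ0 _ (by omega) hρ' x hx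

end Pool.Agent.VGS
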