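import Pool.Agent.VGS.MumDefs
import Pool.Agent.VGS.MumA
import Pool.Agent.LowDeg.DerK

/-! Module MumB: the field `E`, derivations. -/

set_option autoImplicit false

open scoped LinearAlgebra.Projectivization
open MvPolynomial

namespace Pool.Agent.VGS

open Pool.Agent.LowDeg (surf IsSmoothForm Place)

open IntermediateField in
theorem mum_mem_adj (C₀ : Fl) (t : ℂ) (x : ℂ) :
    x ∈ adj C₀ {t} ↔ x ∈ (IntermediateField.adjoin C₀ {t} : IntermediateField C₀ ℂ) := by
  constructor
  · have hle : adj C₀ {t} ≤ (IntermediateField.adjoin C₀ {t}).restrictScalars ℚ := by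
      unfold adj
      refine sup_le ?_ ?_
      · intro z hz
        exact (IntermediateField.adjoin C₀ {t}).algebraMap_mem ⟨z, hz⟩
      · rw [IntermediateField.adjoin_le_iff]
        exact IntermediateField.subset_adjoin C₀ {t}
    intro hx
    exact hle hx
  · have hle : (IntermediateField.adjoin C₀ {t} : IntermediateField C₀ ℂ) ≤
        IntermediateField.extendScalars (le_adj C₀ {t}) := by
      rw [IntermediateField.adjoin_le_iff]
      exact subset_adj C₀ {t}
    intro hx
    exact hle hx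

open IntermediateField in
theorem mum_exists_E (C₀ : Fl) (hC : clo C₀ = C₀) {t : ℂ} (ht : t ∉ C₀)
    (T : Finset ℂ) (hT : ∀ x ∈ T, x ∈ clo (adj C₀ {t})) :
    ∃ (E : IntermediateField C₀ ℂ) (htE : t ∈ E), (∀ x ∈ T, x ∈ E) ∧
      (∀ x ∈ E, x ∈ clo (adj C₀ {t})) ∧ Transcendental C₀ (⟨t, htE⟩ : E) ∧
      FiniteDimensional C₀⟮(⟨t, htE⟩ : E)⟯ E ∧
      ∀ x : E, x ∈ C₀⟮(⟨t, htE⟩ : E)⟯ ↔ (x : ℂ) ∈ adj C₀ {t} := by
  classical
  obtain ⟨E, hE⟩ : ∃ E : IntermediateField C₀ ℂ,
      E = IntermediateField.adjoin C₀ (insert t (T : Set ℂ)) := ⟨_, rfl⟩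
  have htE : t ∈ E := by
    rw [hE]
    exact IntermediateField.subset_adjoin C₀ _ (Set.mem_insert _ _)
  have hTE : ∀ x ∈ T, x ∈ E := by
    intro x hx
    rw [hE]
    exact IntermediateField.subset_adjoin C₀ _ (Set.mem_insert_of_mem _ hx)
  have hle : C₀ ≤ clo (adj C₀ {t}) := (le_adj _ _).trans (le_clo _)
  have hEc : ∀ x ∈ E, x ∈ clo (adj C₀ {t}) := by
    have h1 : E ≤ IntermediateField.extendScalars hle := by
      rw [hE, IntermediateField.adjoin_le_iff]
      rintro x (rfl | hx)
      · exact le_clo _ (subset_adj _ _ rfl)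
      · exact hT x hx
    exact fun x hx => h1 hx
  have htr : Transcendental C₀ (⟨t, htE⟩ : E) := by
    intro h
    apply ht
    rw [← hC, mem_clo]
    have h1 := h.algebraMap (A := ℂ)
    exact h1
  have hmem : ∀ x : E, x ∈ C₀⟮(⟨t, htE⟩ : E)⟯ ↔ (x : ℂ) ∈ adj C₀ {t} := by
    intro x
    rw [mum_mem_adj, IntermediateField.mem_adjoin_simple_iff,
      IntermediateField.mem_adjoin_simple_iff]
    have h2 : ∀ r : Polynomial C₀, ((Polynomial.aeval (⟨t, htE⟩ : E) r : E) : ℂ) =
        Polynomial.aeval t r := by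
      intro r
      exact (Polynomial.aeval_algebraMap_apply ℂ (⟨t, htE⟩ : E) r).symm
    constructor
    · rintro ⟨r, s, h⟩
      refine ⟨r, s, ?_⟩
      rw [h, IntermediateField.coe_div, h2, h2]
    · rintro ⟨r, s, h⟩
      refine ⟨r, s, ?_⟩
      apply Subtype.ext
      rw [IntermediateField.coe_div, h2, h2, h]
  refine ⟨E, htE, hTE, hEc, htr, ?_, hmem⟩
  have halg : Algebra.IsAlgebraic C₀⟮(⟨t, htE⟩ : E)⟯ E := by
    refine ⟨fun x => ?_⟩
    have h3 := hEc x x.2
    rw [mem_clo_iff_exists] at h3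
    obtain ⟨p, hp0, hp, hpx⟩ := h3
    have h4 : ∀ n, ∃ y : C₀⟮(⟨t, htE⟩ : E)⟯, ((y : E) : ℂ) = p.coeff n := by
      intro n
      have h5 := (hmem ⟨p.coeff n, ?_⟩).2 (hp n)
      · exact ⟨⟨_, h5⟩, rfl⟩
      · have h6 := (mum_mem_adj C₀ t _).1 (hp n)
        have h7 : (IntermediateField.adjoin C₀ {t} : IntermediateField C₀ ℂ) ≤ E := by
          rw [IntermediateField.adjoin_le_iff]
          rintro y rfl
          exact htE
        exact h7 h6
    have hlift : p ∈ Polynomial.lifts (algebraMap C₀⟮(⟨t, htE⟩ : E)⟯ ℂ) := by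
      rw [Polynomial.lifts_iff_coeff_lifts]
      intro n
      obtain ⟨y, hy⟩ := h4 n
      exact ⟨y, hy⟩
    obtain ⟨q, hq⟩ := (Polynomial.mem_lifts p).1 hlift
    refine ⟨q, ?_, ?_⟩
    · rintro rfl
      rw [Polynomial.map_zero] at hq
      exact hp0 hq.symm
    · rw [← hq, Polynomial.eval_map] at hpx
      apply Subtype.ext
      have h8 := (Polynomial.aeval_algebraMap_apply ℂ x q)
      have h9 : ((Polynomial.aeval x q : E) : ℂ) = Polynomial.aeval (x : ℂ) q := h8.symm
      rw [h9]
      exact hpx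
  have h1 : Algebra.EssFiniteType C₀ E := by
    rw [IntermediateField.essFiniteType_iff, hE]
    exact IntermediateField.fg_adjoin_of_finite ((T.finite_toSet).insert t)
  have h3 : Algebra.EssFiniteType C₀⟮(⟨t, htE⟩ : E)⟯ E := .of_comp C₀ C₀⟮(⟨t, htE⟩ : E)⟯ E
  exact Algebra.finite_of_essFiniteType_of_isAlgebraic

/-- the derivative with respect to `t`, zero on `C₀` -/
theorem mum_exists_dt (C₀ : Fl) (hC : clo C₀ = C₀) {t : ℂ} (ht : t ∉ C₀) :
    ∃ D : Derivation ℤ ℂ ℂ, (∀ c ∈ C₀, D c = 0) ∧ D t = 1 := by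
  have htr : Transcendental C₀ t := by
    intro h
    apply ht
    rw [← hC, mem_clo]
    exact h
  have h1 : AlgebraicIndepOn C₀ id ({t} : Set ℂ) := by
    have h2 : Transcendental C₀ ((fun i : ({t} : Set ℂ) => (i : ℂ)) default) := htr
    exact algebraicIndependent_unique_type_iff.2 h2
  obtain ⟨s, hs1, hs2⟩ := exists_isTranscendenceBasis_superset h1
  obtain ⟨D, hD⟩ := Pool.Agent.LowDeg.DerKAux.exists_der hs2 (fun _ => 1)
  refine ⟨D.restrictScalars ℤ, ?_, ?_⟩
  · intro c hc
    exact D.map_algebraMap (⟨c, hc⟩ : C₀)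
  · exact hD ⟨t, hs1 rfl⟩

/-- the elements of a field on which two derivations agree -/
theorem mum_der_eq {M N : Fl} {D D' : Derivation ℤ ℂ ℂ} (h : ∀ x ∈ M, D x = D' x)
    (hN : N ≤ clo M) : ∀ x ∈ N, D x = D' x := by
  intro x hx
  have h1 := hN hx
  rw [mem_clo] at h1
  have h2 := minpoly.aeval M x
  have hne : Polynomial.aeval x (minpoly M x).derivative ≠ 0 := by
    have hsep : (minpoly M x).Separable := (minpoly.irreducible h1.isIntegral).separable
    exact hsep.aeval_derivative_ne_zero h2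
  have key : ∀ (p : Polynomial M), (D - D') (Polynomial.aeval x p) =
      Polynomial.aeval x p.derivative * (D - D') x := by
    intro p
    induction p using Polynomial.induction_on' with
    | add p q hp hq => rw [map_add, map_add, hp, hq, Polynomial.derivative_add, map_add, add_mul]
    | monomial n a =>
      have h3 : (D - D') (algebraMap M ℂ a) = 0 := by
        rw [Derivation.sub_apply, sub_eq_zero]
        exact h a a.2
      rw [Polynomial.aeval_monomial, Derivation.leibniz, Derivation.leibniz_pow, h3,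
        Polynomial.derivative_monomial, Polynomial.aeval_monomial]
      simp only [smul_eq_mul, nsmul_eq_mul, map_mul, map_natCast]
      ring
  have h4 := key (minpoly M x)
  rw [h2, map_zero] at h4
  have h5 := (mul_eq_zero.1 h4.symm).resolve_left hne
  rwa [Derivation.sub_apply, sub_eq_zero] at h5

/-- the elements which a derivation maps to `E` -/
theorem mum_der_mem {C₀ : Fl} {E : IntermediateField C₀ ℂ} {t : ℂ} (htE : t ∈ E)
    (hE : ∀ x ∈ E, x ∈ clo (adj C₀ {t})) (D : Derivation ℤ ℂ ℂ) (hD : ∀ c ∈ C₀, D c ∈ E)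
    (hDt : D t ∈ E) : ∀ x ∈ E, D x ∈ E := by
  have h0 : ∀ x ∈ adj C₀ {t}, x ∈ E ∧ D x ∈ E := by
    let S : Fl :=
      { carrier := {x | x ∈ E ∧ D x ∈ E}
        mul_mem' := fun {a b} ha hb => by
          refine ⟨E.mul_mem ha.1 hb.1, ?_⟩
          rw [Derivation.leibniz, smul_eq_mul, smul_eq_mul]
          exact E.add_mem (E.mul_mem ha.1 hb.2) (E.mul_mem hb.1 ha.2)
        one_mem' := ⟨E.one_mem, by rw [Derivation.map_one_eq_zero]; exact E.zero_mem⟩
        add_mem' := fun {a b} ha hb => by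
          refine ⟨E.add_mem ha.1 hb.1, ?_⟩
          rw [map_add]
          exact E.add_mem ha.2 hb.2
        zero_mem' := ⟨E.zero_mem, by rw [map_zero]; exact E.zero_mem⟩
        algebraMap_mem' := fun r => by
          have h1 : algebraMap ℚ ℂ r ∈ C₀ := C₀.algebraMap_mem r
          exact ⟨E.algebraMap_mem ⟨_, h1⟩, hD _ h1⟩
        inv_mem' := fun a ha => by
          refine ⟨E.inv_mem ha.1, ?_⟩
          rw [Derivation.leibniz_inv, smul_eq_mul]
          exact E.mul_mem (E.neg_mem (E.pow_mem (E.inv_mem ha.1) 2)) ha.2 }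
    have h1 : adj C₀ {t} ≤ S := by
      refine adj_le (fun c hc => ⟨E.algebraMap_mem ⟨c, hc⟩, hD c hc⟩) ?_
      rintro x rfl
      exact ⟨htE, hDt⟩
    exact fun x hx => h1 hx
  intro x hx
  have h1 := hE x hx
  rw [mem_clo] at h1
  have h2 := minpoly.aeval (adj C₀ {t}) x
  have hne : Polynomial.aeval x (minpoly (adj C₀ {t}) x).derivative ≠ 0 := by
    have hsep : (minpoly (adj C₀ {t}) x).Separable :=
      (minpoly.irreducible h1.isIntegral).separable
    exact hsep.aeval_derivative_ne_zero h2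
  have hmem : ∀ p : Polynomial (adj C₀ {t}), Polynomial.aeval x p ∈ E := by
    intro p
    rw [Polynomial.aeval_eq_sum_range]
    refine E.sum_mem fun i _ => ?_
    rw [Algebra.smul_def]
    exact E.mul_mem (h0 _ (p.coeff i).2).1 (E.pow_mem hx i)
  have key : ∀ (p : Polynomial (adj C₀ {t})), D (Polynomial.aeval x p) -
      Polynomial.aeval x p.derivative * D x ∈ E := by
    intro p
    induction p using Polynomial.induction_on' with
    | add p q hp hq =>
      have h3 := E.add_mem hp hq
      rw [map_add, map_add, Polynomial.derivative_add, map_add]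
      convert h3 using 1
      ring
    | monomial n a =>
      rw [Polynomial.aeval_monomial, Derivation.leibniz, Derivation.leibniz_pow,
        Polynomial.derivative_monomial, Polynomial.aeval_monomial]
      simp only [smul_eq_mul, nsmul_eq_mul, map_mul, map_natCast]
      have h4 : x ^ n * D (algebraMap (adj C₀ {t}) ℂ a) ∈ E :=
        E.mul_mem (E.pow_mem hx n) (h0 _ a.2).2
      convert h4 using 1
      ring
  have h4 := key (minpoly (adj C₀ {t}) x)
  rw [h2, map_zero, zero_sub] at h4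
  have h5 := E.mul_mem (E.inv_mem (hmem (minpoly (adj C₀ {t}) x).derivative)) (E.neg_mem h4)
  rw [neg_neg, inv_mul_cancel_left₀ hne] at h5
  exact h5

/-- the restriction of a derivation -/
noncomputable def resD {C₀ : Fl} (E : IntermediateField C₀ ℂ) (D : Derivation ℤ ℂ ℂ)
    (h : ∀ x ∈ E, D x ∈ E) : Derivation ℤ E E :=
  Derivation.mk'
    { toFun := fun x => ⟨D x, h x x.2⟩
      map_add' := fun x y => Subtype.ext (by
        change D ((x : ℂ) + y) = D x + D y
        rw [map_add])
      map_smul' := fun n x => Subtype.ext (by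
        change D (((n • x : E)) : ℂ) = ((n • (⟨D x, h x x.2⟩ : E) : E) : ℂ)
        have h1 : (((n • x : E)) : ℂ) = n • (x : ℂ) := by simp
        rw [h1, map_zsmul]
        simp) }
    (fun x y => Subtype.ext (by
      change D ((x : ℂ) * y) = _
      rw [Derivation.leibniz]
      rfl))

@[simp] theorem resD_coe {C₀ : Fl} (E : IntermediateField C₀ ℂ) (D : Derivation ℤ ℂ ℂ)
    (h : ∀ x ∈ E, D x ∈ E) (x : E) : ((resD E D h x : E) : ℂ) = D x := rfl

end Pool.Agent.VGS
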