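import Pool.Agent.VGS.Basic

/-! Module Stab: a countable algebraically closed field stable under derivations. -/

set_option autoImplicit false

namespace Pool.Agent.VGS

/-- one step of the construction -/
noncomputable def stabStep (D₁ D₂ : Derivation ℤ ℂ ℂ) (M : Fl) : Fl :=
  clo (adj M (D₁ '' (M : Set ℂ) ∪ D₂ '' (M : Set ℂ)))

theorem le_stabStep (D₁ D₂ : Derivation ℤ ℂ ℂ) (M : Fl) : M ≤ stabStep D₁ D₂ M :=
  (le_adj _ _).trans (le_clo _)

theorem clo_stabStep (D₁ D₂ : Derivation ℤ ℂ ℂ) (M : Fl) :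
    clo (stabStep D₁ D₂ M) = stabStep D₁ D₂ M := clo_clo _

theorem stabStep_mem (D₁ D₂ : Derivation ℤ ℂ ℂ) (M : Fl) {x : ℂ} (hx : x ∈ M) :
    D₁ x ∈ stabStep D₁ D₂ M ∧ D₂ x ∈ stabStep D₁ D₂ M :=
  ⟨le_clo _ (subset_adj _ _ (Or.inl ⟨x, hx, rfl⟩)),
    le_clo _ (subset_adj _ _ (Or.inr ⟨x, hx, rfl⟩))⟩

theorem countable_stabStep (D₁ D₂ : Derivation ℤ ℂ ℂ) (M : Fl) (hM : Countable M) :
    Countable (stabStep D₁ D₂ M) := by
  have h1 : (M : Set ℂ).Countable := hM
  have h2 : (D₁ '' (M : Set ℂ) ∪ D₂ '' (M : Set ℂ)).Countable := (h1.image _).union (h1.image _)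
  have h3 : Countable ↑(D₁ '' (M : Set ℂ) ∪ D₂ '' (M : Set ℂ)) := h2
  unfold stabStep
  infer_instance

/-- a countable algebraically closed field stable under two derivations -/
theorem exists_stable_field' (L : Fl) [Countable L] (D₁ D₂ : Derivation ℤ ℂ ℂ) :
    ∃ C : Fl, Countable C ∧ L ≤ C ∧ clo C = C ∧ ∀ x ∈ C, D₁ x ∈ C ∧ D₂ x ∈ C := by
  obtain ⟨M, hM⟩ : ∃ M : ℕ → Fl, M = fun n => (stabStep D₁ D₂)^[n] L := ⟨_, rfl⟩
  have h0 : M 0 = L := by rw [hM]; rfl
  have hs : ∀ n, M (n + 1) = stabStep D₁ D₂ (M n) := by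
    intro n
    rw [hM]
    exact Function.iterate_succ_apply' _ _ _
  have hmono : Monotone M := monotone_nat_of_le_succ fun n => by
    rw [hs]
    exact le_stabStep _ _ _
  have hct : ∀ n, Countable (M n) := by
    intro n
    induction n with
    | zero => rw [h0]; infer_instance
    | succ n ih => rw [hs]; exact countable_stabStep _ _ _ ih
  have hmem : ∀ x : ℂ, x ∈ (⨆ n, M n : Fl) ↔ ∃ n, x ∈ M n := by
    intro x
    have h1 : ((⨆ n, M n : Fl) : Set ℂ) = ⋃ n, (M n : Set ℂ) :=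
      IntermediateField.coe_iSup_of_directed hmono.directed_le
    rw [← SetLike.mem_coe, h1, Set.mem_iUnion]
    rfl
  refine ⟨⨆ n, M n, ?_, ?_, ?_, ?_⟩
  · have h1 : ((⨆ n, M n : Fl) : Set ℂ) = ⋃ n, (M n : Set ℂ) :=
      IntermediateField.coe_iSup_of_directed hmono.directed_le
    have h2 : ((⨆ n, M n : Fl) : Set ℂ).Countable := by
      rw [h1]
      exact Set.countable_iUnion fun n => hct n
    exact h2
  · rw [← h0]
    exact le_iSup M 0
  · refine le_antisymm (fun x hx => ?_) (le_clo _)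
    obtain ⟨p, hp0, hp, hpx⟩ := mem_clo_iff_exists.1 hx
    have h1 : ∀ i, ∃ n, p.coeff i ∈ M n := fun i => (hmem _).1 (hp i)
    choose k hk using h1
    have h2 : x ∈ clo (M ((Finset.range (p.natDegree + 1)).sup k)) := by
      refine mem_clo_iff_exists.2 ⟨p, hp0, fun i => ?_, hpx⟩
      by_cases hi : i < p.natDegree + 1
      · exact hmono (Finset.le_sup (f := k) (Finset.mem_range.2 hi)) (hk i)
      · rw [Polynomial.coeff_eq_zero_of_natDegree_lt (by omega)]
        exact zero_mem _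
    refine (hmem _).2 ⟨(Finset.range (p.natDegree + 1)).sup k + 1, ?_⟩
    rw [hs, ← clo_stabStep]
    exact clo_mono (le_stabStep _ _ _) h2
  · intro x hx
    obtain ⟨n, hn⟩ := (hmem _).1 hx
    have h1 := stabStep_mem D₁ D₂ (M n) hn
    rw [← hs] at h1
    exact ⟨(hmem _).2 ⟨_, h1.1⟩, (hmem _).2 ⟨_, h1.2⟩⟩

end Pool.Agent.VGS
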