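import Pool.Agent.VGS.GenP
import Pool.Agent.VGS.Trd
import Pool.Agent.LowDeg.SmoothExt
import Pool.Agent.LowDeg.DerExt

/-! Module Tau: two-forms evaluated on derivations of `ℂ`. -/

set_option autoImplicit false

open scoped LinearAlgebra.Projectivization
open MvPolynomial

namespace Pool.Agent.VGS

open Pool.Agent.LowDeg (surf IsSmoothForm det4)
open Pool.Agent.LowDeg.SmoothExtAux

variable {F : MvPolynomial (Fin 4) ℂ} {d : ℕ}

/-! ### derivations with given values -/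

section

open scoped IntermediateField.algebraAdjoinAdjoin

/-- derivations with given values on a transcendence basis -/
theorem tau_exists_der {k K ι : Type} [Field k] [CharZero k] [Field K] [Algebra k K] {x : ι → K}
    (hb : IsTranscendenceBasis k x) (f : ι → K) :
    ∃ D : Derivation k K K, ∀ i, D (x i) = f i := by
  have hinj : Function.Injective (aeval x : MvPolynomial ι k →ₐ[k] K) := hb.1
  let : Algebra (MvPolynomial ι k) K := (aeval x : MvPolynomial ι k →ₐ[k] K).toRingHom.toAlgebra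
  have : IsScalarTower k (MvPolynomial ι k) K := IsScalarTower.of_algebraMap_eq (fun c => by
    change _ = aeval x (algebraMap k (MvPolynomial ι k) c)
    simp)
  have hAlg : ∀ p : MvPolynomial ι k, algebraMap (MvPolynomial ι k) K p = aeval x p :=
    fun _ => rfl
  set S : Set K := Set.range x with hS
  have hA0 : ∀ y : K, y ∈ (Algebra.adjoin k S) ↔ ∃ p : MvPolynomial ι k, aeval x p = y :=
    fun y => by
    rw [hS, Algebra.adjoin_range_eq_range_aeval]
    rfl
  let e : MvPolynomial ι k →ₐ[k] (Algebra.adjoin k S) :=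
    (aeval x : MvPolynomial ι k →ₐ[k] K).codRestrict (Algebra.adjoin k S) (fun p =>
    (hA0 _).2 ⟨p, rfl⟩)
  have he : Function.Bijective e := by
    constructor
    · intro p q h
      apply hinj
      exact congrArg Subtype.val h
    · rintro ⟨y, hy⟩
      obtain ⟨p, hp⟩ := (hA0 y).1 hy
      exact ⟨p, Subtype.ext hp⟩
  let : Algebra (MvPolynomial ι k) (Algebra.adjoin k S) := e.toRingHom.toAlgebra
  have : IsScalarTower (MvPolynomial ι k) (Algebra.adjoin k S) K :=
    IsScalarTower.of_algebraMap_eq (fun _ => rfl)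
  have : CharZero (IntermediateField.adjoin k S) :=
    charZero_of_injective_algebraMap (algebraMap k (IntermediateField.adjoin k S)).injective
  have : Algebra.IsAlgebraic (IntermediateField.adjoin k S) K := hb.isAlgebraic_field
  have h1 : Algebra.FormallyEtale (MvPolynomial ι k) (Algebra.adjoin k S) :=
    Algebra.FormallyEtale.of_equiv
      (AlgEquiv.ofBijective (Algebra.ofId (MvPolynomial ι k) (Algebra.adjoin k S)) he)
  have h2 : Algebra.FormallyEtale (Algebra.adjoin k S) (IntermediateField.adjoin k S) :=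
    Algebra.FormallyEtale.of_isLocalization (nonZeroDivisors (Algebra.adjoin k S))
  have h3 : Algebra.FormallyEtale (IntermediateField.adjoin k S) K :=
    Algebra.FormallyEtale.of_isSeparable _ _
  have h4 : Algebra.FormallyEtale (Algebra.adjoin k S) K :=
    Algebra.FormallyEtale.comp (Algebra.adjoin k S) (IntermediateField.adjoin k S) K
  have h5 : Algebra.FormallyEtale (MvPolynomial ι k) K :=
    Algebra.FormallyEtale.comp (MvPolynomial ι k) (Algebra.adjoin k S) K
  obtain ⟨D, hD⟩ := LowDeg.DerExtAux.exists_of_formallyEtale (k := k)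
    (A := MvPolynomial ι k) (E := K) (mkDerivation k f)
  refine ⟨D, fun i => ?_⟩
  have := hD (X i)
  rw [hAlg, mkDerivation_X] at this
  simpa using this

end

/-- Derivations of `ℂ` over a subfield with given values on an algebraically independent pair. -/
theorem exists_kills (L : Fl) {x y : ℂ} (h : AlgebraicIndependent L ![x, y]) (a b : ℂ) :
    ∃ D : Derivation ℤ ℂ ℂ, Kills L D ∧ D x = a ∧ D y = b := by
  classical
  have hxy : x ≠ y := by
    intro hxy
    have h1 := h.injective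
    have h2 : (0 : Fin 2) = 1 := h1 (by simpa using hxy)
    exact absurd h2 (by decide)
  have hs : AlgebraicIndepOn L id (Set.range ![x, y]) := h.to_subtype_range
  obtain ⟨t, hst, ht⟩ := exists_isTranscendenceBasis_superset hs
  have hx : x ∈ t := hst ⟨0, rfl⟩
  have hy : y ∈ t := hst ⟨1, rfl⟩
  obtain ⟨D, hD⟩ := tau_exists_der ht (fun w => if (w : ℂ) = x then a else b)
  refine ⟨D.restrictScalars ℤ, fun c hc => ?_, ?_, ?_⟩
  · exact D.map_algebraMap ⟨c, hc⟩
  · have h1 := hD ⟨x, hx⟩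
    rw [if_pos rfl] at h1
    exact h1
  · have h1 := hD ⟨y, hy⟩
    rw [if_neg (Ne.symm hxy)] at h1
    exact h1

/-! ### the chain rule -/

theorem dFc_eq (F : MvPolynomial (Fin 4) ℂ) (z v : Fin 4 → ℂ) : dFc F z v = LowDeg.dF F z v := rfl

theorem exists_map_eq {L : Fl} {ι : Type} {G : MvPolynomial ι ℂ} (hG : Coef L G) :
    ∃ G₀ : MvPolynomial ι L, map (algebraMap L ℂ) G₀ = G := by
  have : G ∈ Set.range (MvPolynomial.map (σ := ι) (algebraMap L ℂ)) := by
    rw [MvPolynomial.mem_range_map_iff_coeffs_subset]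
    intro c hc
    obtain ⟨m, -, rfl⟩ := MvPolynomial.mem_coeffs_iff.1 hc
    exact ⟨⟨_, hG m⟩, rfl⟩
  exact this

/-- Chain rule for a polynomial with coefficients killed by the derivation. -/
theorem der_aeval {L : Fl} {G : MvPolynomial (Fin 4) ℂ} (hG : Coef L G) {D : Derivation ℤ ℂ ℂ}
    (hD : Kills L D) (z : Fin 4 → ℂ) : D (aeval z G) = dFc G z (fun i => D (z i)) := by
  obtain ⟨G₀, rfl⟩ := exists_map_eq hG
  clear hG
  induction G₀ using MvPolynomial.induction_on with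
  | C a =>
    have h1 : D (a : ℂ) = 0 := hD _ a.2
    simp only [map_C, aeval_C, dFc, pderiv_C, map_zero, mul_zero, Finset.sum_const_zero]
    exact h1
  | add p q hp hq =>
    rw [map_add, map_add, map_add, hp, hq]
    simp only [dFc, map_add, mul_add, Finset.sum_add_distrib]
  | mul_X p i hp =>
    rw [map_mul, map_X, map_mul, aeval_X, Derivation.leibniz, hp]
    simp only [dFc, Derivation.leibniz, pderiv_X, smul_eq_mul, map_add, map_mul, aeval_X]
    simp only [mul_add, Finset.sum_add_distrib]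
    congr 1
    · rw [Finset.sum_eq_single i]
      · simp [mul_comm]
      · intro j _ hj
        simp [hj.symm]
      · intro h; exact absurd (Finset.mem_univ i) h
    · rw [Finset.mul_sum]
      refine Finset.sum_congr rfl fun j _ => by ring

theorem dFc_self (hF : IsSmoothForm F d) {z : Fin 4 → ℂ} (hzF : aeval z F = 0) :
    dFc F z z = 0 := by
  rw [dFc_eq, LowDeg.dF_self hF.hom, hzF, mul_zero]

theorem dFc_der {L : Fl} (hFL : Coef L F) {D : Derivation ℤ ℂ ℂ} (hD : Kills L D)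
    {z : Fin 4 → ℂ} (hzF : aeval z F = 0) : dFc F z (fun i => D (z i)) = 0 := by
  rw [← der_aeval hFL hD, hzF, map_zero]

/-- existence of the value of the two-form -/
theorem exists_isResC (hd : 4 ≤ d) (hF : IsSmoothForm F d) {L : Fl} (hFL : Coef L F)
    {D₁ D₂ : Derivation ℤ ℂ ℂ} (h₁ : Kills L D₁) (h₂ : Kills L D₂) {z : Fin 4 → ℂ} (hz : z ≠ 0)
    (hzF : aeval z F = 0) : ∃ J, IsResC F D₁ D₂ z J := by
  have hne := hF.smooth z hz hzF
  obtain ⟨e, he⟩ := exists_dF_ne F z hne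
  have kz := dFc_self hF hzF
  have kD := fun D (hD : Kills L D) => dFc_der hFL hD hzF
  refine ⟨det4 e z (fun i => D₁ (z i)) (fun i => D₂ (z i)) / LowDeg.dF F z e, ?_⟩
  intro v
  rw [dFc_eq]
  set t := LowDeg.dF F z v / LowDeg.dF F z e with ht
  have hv : v = t • e + (v - t • e) := by abel
  have hk : LowDeg.dF F z (v - t • e) = 0 := by
    rw [dF_sub, dF_smul, ht, div_mul_cancel₀ _ he, sub_self]
  have h0 := det4_eq_zero F z hne (v - t • e) z (fun i => D₁ (z i)) (fun i => D₂ (z i))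
    hk kz (kD D₁ h₁) (kD D₂ h₂)
  calc det4 v z (fun i => D₁ (z i)) (fun i => D₂ (z i))
      = det4 (t • e + (v - t • e)) z (fun i => D₁ (z i)) (fun i => D₂ (z i)) := by rw [← hv]
    _ = t * det4 e z (fun i => D₁ (z i)) (fun i => D₂ (z i)) := by
        rw [det4_add_left, det4_smul_left, h0, add_zero]
    _ = _ := by
        rw [ht]; field_simp

theorem IsResC.unique (hF : IsSmoothForm F d) {D₁ D₂ : Derivation ℤ ℂ ℂ} {z : Fin 4 → ℂ}
    (hz : z ≠ 0) (hzF : aeval z F = 0) {J J' : ℂ} (h : IsResC F D₁ D₂ z J)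
    (h' : IsResC F D₁ D₂ z J') : J = J' := by
  obtain ⟨e, he⟩ := exists_dF_ne F z (hF.smooth z hz hzF)
  have h1 := (h e).symm.trans (h' e)
  exact mul_right_cancel₀ he h1

/-- Scaling. -/
theorem IsResC.smul (hF : IsSmoothForm F d) (hd : 4 ≤ d)
    {D₁ D₂ : Derivation ℤ ℂ ℂ} {z : Fin 4 → ℂ} {J : ℂ} (h : IsResC F D₁ D₂ z J) (c : ℂ)
    (hc : c ≠ 0) : IsResC F D₁ D₂ (c • z) (J * (c ^ (d - 4))⁻¹) := by
  intro v
  have h1 : ∀ D : Derivation ℤ ℂ ℂ, (fun i => D ((c • z) i)) =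
      c • (fun i => D (z i)) + D c • z := by
    intro D
    funext i
    simp only [Pi.smul_apply, smul_eq_mul, Pi.add_apply, Derivation.leibniz]
    ring
  have h2 : dFc F (c • z) v = c ^ (d - 1) * dFc F z v := by
    simp only [dFc, Finset.mul_sum]
    refine Finset.sum_congr rfl fun i _ => ?_
    rw [aeval_smul_hom hF.hom.pderiv]
    ring
  rw [h1, h1, det4_scale, h v, h2]
  have hd' : c ^ (d - 1) = c ^ 3 * c ^ (d - 4) := by
    rw [← pow_add]; congr 1; omega
  rw [hd']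
  have : c ^ (d - 4) ≠ 0 := pow_ne_zero _ hc
  field_simp

/-- computation of `tau` with any representative -/
theorem tau_eq (hd : 4 ≤ d) (hF : IsSmoothForm F d) {L : Fl} (hFL : Coef L F)
    {D₁ D₂ : Derivation ℤ ℂ ℂ} (h₁ : Kills L D₁) (h₂ : Kills L D₂) {z : Fin 4 → ℂ} (hz : z ≠ 0)
    (hzF : aeval z F = 0) {f : MvPolynomial (Fin 4) ℂ} (hf : f.IsHomogeneous (d - 4)) {J : ℂ}
    (hJ : IsResC F D₁ D₂ z J) :
    tau F D₁ D₂ f (Projectivization.mk ℂ z hz) = aeval z f * J := by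
  obtain ⟨a, ha⟩ := Projectivization.exists_smul_eq_mk_rep ℂ z hz
  have hrep : (Projectivization.mk ℂ z hz : PP).rep = (a : ℂ) • z := ha.symm
  have ha0 : (a : ℂ) ≠ 0 := a.ne_zero
  have hJ' : IsResC F D₁ D₂ (Projectivization.mk ℂ z hz : PP).rep (J * ((a : ℂ) ^ (d - 4))⁻¹) := by
    rw [hrep]
    exact hJ.smul hF hd _ ha0
  have hrF : aeval (Projectivization.mk ℂ z hz : PP).rep F = 0 := (mem_surf_mk hF.hom hz).mpr hzF
  have heps := Classical.epsilon_spec (p := fun J => IsResC F D₁ D₂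
    (Projectivization.mk ℂ z hz : PP).rep J) ⟨_, hJ'⟩
  rw [tau, IsResC.unique hF (Projectivization.rep_nonzero _) hrF heps hJ', hrep,
    aeval_smul_hom hf]
  have : (a : ℂ) ^ (d - 4) ≠ 0 := pow_ne_zero _ ha0
  field_simp

/-- linearity in `f` -/
theorem tau_sum (F : MvPolynomial (Fin 4) ℂ) (D₁ D₂ : Derivation ℤ ℂ ℂ) {ι : Type} (s : Finset ι)
    (c : ι → ℂ) (f : ι → MvPolynomial (Fin 4) ℂ) (p : PP) :
    tau F D₁ D₂ (∑ i ∈ s, C (c i) * f i) p = ∑ i ∈ s, c i * tau F D₁ D₂ (f i) p := by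
  simp only [tau]
  rw [map_sum, Finset.sum_mul]
  refine Finset.sum_congr rfl fun i _ => ?_
  rw [map_mul, aeval_C, mul_assoc]
  rfl

/-- points over a field killed by the derivations -/
theorem tau_over (hd : 4 ≤ d) (hF : IsSmoothForm F d) {L : Fl} (hFL : Coef L F)
    {D₁ D₂ : Derivation ℤ ℂ ℂ} (h₁ : Kills L D₁) (h₂ : Kills L D₂) {p : PP} (hp : p ∈ surf F)
    (hpL : Over L p) {f : MvPolynomial (Fin 4) ℂ} (hf : f.IsHomogeneous (d - 4)) :
    tau F D₁ D₂ f p = 0 := by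
  obtain ⟨z, hz, hzL, rfl⟩ := hpL
  have hzF : aeval z F = 0 := (mem_surf_mk hF.hom hz).mp hp
  have hJ : IsResC F D₁ D₂ z 0 := by
    intro v
    have h1 : (fun i => D₁ (z i)) = 0 := funext fun i => h₁ _ (hzL i)
    rw [h1, zero_mul]
    simp only [det4_expand, Pi.zero_apply]
    ring
  rw [tau_eq hd hF hFL h₁ h₂ hz hzF hf hJ, mul_zero]

/-- the conjugate of a derivation -/
noncomputable def conjD (σ : ℂ ≃+* ℂ) (D : Derivation ℤ ℂ ℂ) : Derivation ℤ ℂ ℂ :=
  Derivation.mk' ((σ : ℂ →+* ℂ).toAddMonoidHom.toIntLinearMap.comp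
    ((D : ℂ →ₗ[ℤ] ℂ).comp (σ.symm : ℂ →+* ℂ).toAddMonoidHom.toIntLinearMap)) (by
    intro a b
    simp [mul_comm])

theorem conjD_apply (σ : ℂ ≃+* ℂ) (D : Derivation ℤ ℂ ℂ) (x : ℂ) :
    conjD σ D x = σ (D (σ.symm x)) := rfl

theorem conjD_kills {L : Fl} {σ : ℂ ≃+* ℂ} (hσ : σ ∈ Fix L) {D : Derivation ℤ ℂ ℂ}
    (hD : Kills L D) : Kills L (conjD σ D) := by
  intro x hx
  have h1 : σ.symm x = x := by
    rw [RingEquiv.symm_apply_eq, hσ x hx]
  rw [conjD_apply, h1, hD x hx, map_zero]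

theorem Coef.pderiv {L : Fl} {G : MvPolynomial (Fin 4) ℂ} (hG : Coef L G) (i : Fin 4) :
    Coef L (MvPolynomial.pderiv i G) := by
  intro m
  rw [coeff_pderiv]
  exact mul_mem (hG _) (add_mem (natCast_mem L _) (one_mem L))

theorem aeval_map_fix (σ : ℂ ≃+* ℂ) (z : Fin 4 → ℂ) (f : MvPolynomial (Fin 4) ℂ) :
    aeval (fun i => σ (z i)) (map (σ : ℂ →+* ℂ) f) = σ (aeval z f) := by
  rw [aeval_def, aeval_def, eval₂_map]
  exact (eval₂_comp_left (σ : ℂ →+* ℂ) (algebraMap ℂ ℂ) z f).symm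

/-- transport by an automorphism over the field of definition of `F` -/
theorem tau_act (hd : 4 ≤ d) (hF : IsSmoothForm F d) {L : Fl} (hFL : Coef L F)
    {D₁ D₂ : Derivation ℤ ℂ ℂ} (h₁ : Kills L D₁) (h₂ : Kills L D₂) {σ : ℂ ≃+* ℂ} (hσ : σ ∈ Fix L)
    {p : PP} (hp : p ∈ surf F) {f : MvPolynomial (Fin 4) ℂ} (hf : f.IsHomogeneous (d - 4)) :
    tau F (conjD σ D₁) (conjD σ D₂) (map (σ : ℂ →+* ℂ) f) (act σ p) = σ (tau F D₁ D₂ f p) := by
  obtain ⟨z, hz, i, -, rfl⟩ := exists_nrm p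
  have hzF : aeval z F = 0 := (mem_surf_mk hF.hom hz).mp hp
  obtain ⟨J, hJ⟩ := exists_isResC hd hF hFL h₁ h₂ hz hzF
  have hσz : (fun i => σ (z i)) ≠ 0 := map_ne_zero' σ hz
  have hσzF : aeval (fun i => σ (z i)) F = 0 := by
    rw [aeval_fix hFL hσ, hzF, map_zero]
  have hJ' : IsResC F (conjD σ D₁) (conjD σ D₂) (fun i => σ (z i)) (σ J) := by
    intro v
    have hv : v = fun i => σ (σ.symm (v i)) := by
      funext i
      rw [RingEquiv.apply_symm_apply]
    have h1 := congrArg σ (hJ (fun i => σ.symm (v i)))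
    rw [map_mul] at h1
    have h2 : σ (dFc F z fun i => σ.symm (v i)) = dFc F (fun i => σ (z i)) v := by
      simp only [dFc, map_sum, map_mul, RingEquiv.apply_symm_apply]
      refine Finset.sum_congr rfl fun i _ => ?_
      rw [aeval_fix (hFL.pderiv i) hσ]
    rw [h2] at h1
    rw [← h1]
    have h3 : ∀ D : Derivation ℤ ℂ ℂ, (fun i => conjD σ D (σ (z i))) = fun i => σ (D (z i)) := by
      intro D
      funext i
      rw [conjD_apply, RingEquiv.symm_apply_apply]
    rw [h3, h3]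
    simp only [det4_expand, map_add, map_sub, map_mul, RingEquiv.apply_symm_apply]
  rw [act_mk σ z hz hσz, tau_eq hd hF hFL (conjD_kills hσ h₁) (conjD_kills hσ h₂) hσz hσzF
    (hf.map _) hJ', tau_eq hd hF hFL h₁ h₂ hz hzF hf hJ, map_mul]
  congr 1
  exact aeval_map_fix σ z f

/-- a generic point has derivations on which a two-form is not zero -/
theorem exists_tau_ne (hd : 4 ≤ d) (hF : IsSmoothForm F d) (L : Fl) [Countable L]
    (hFL : Coef L F) {p : PP} (hp : p ∈ Gen L F) :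
    ∃ D₁ D₂ : Derivation ℤ ℂ ℂ, Kills L D₁ ∧ Kills L D₂ ∧ Kills (clo L) D₁ ∧ Kills (clo L) D₂ ∧
      tau F D₁ D₂ (X 0 ^ (d - 4)) p ≠ 0 := by
  obtain ⟨z, hz, hz0, -, rfl⟩ := gen_nrm hd hF hp 0
  obtain ⟨j, k, hj, hk, hjk, hind, -⟩ := gen_algInd hd hF L hFL hz hz0 hp
  obtain ⟨D₁, hD₁, h1j, h1k⟩ := exists_kills (clo L) (ai_clo.2 hind) 1 0
  obtain ⟨D₂, hD₂, h2j, h2k⟩ := exists_kills (clo L) (ai_clo.2 hind) 0 1
  have h₁ : Kills L D₁ := fun x hx => hD₁ x (le_clo L hx)
  have h₂ : Kills L D₂ := fun x hx => hD₂ x (le_clo L hx)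
  have hzF : aeval z F = 0 := (mem_surf_mk hF.hom hz).mp hp.1
  obtain ⟨J, hJ⟩ := exists_isResC hd hF hFL h₁ h₂ hz hzF
  refine ⟨D₁, D₂, h₁, h₂, hD₁, hD₂, ?_⟩
  have hhom : (X 0 ^ (d - 4) : MvPolynomial (Fin 4) ℂ).IsHomogeneous (d - 4) := by
    have := (isHomogeneous_X ℂ (0 : Fin 4)).pow (d - 4)
    rwa [one_mul] at this
  rw [tau_eq hd hF hFL h₁ h₂ hz hzF hhom hJ, map_pow, aeval_X, hz0, one_pow, one_mul]
  rintro rfl
  have h10 : D₁ (z 0) = 0 := by rw [hz0, D₁.map_one_eq_zero]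
  have h20 : D₂ (z 0) = 0 := by rw [hz0, D₂.map_one_eq_zero]
  have hv : ∀ v : Fin 4 → ℂ, det4 v z (fun i => D₁ (z i)) (fun i => D₂ (z i)) = 0 := by
    intro v
    rw [hJ v, zero_mul]
  have e1 := hv (Pi.single 1 1)
  have e2 := hv (Pi.single 2 1)
  have e3 := hv (Pi.single 3 1)
  simp only [det4_expand, hz0] at e1 e2 e3
  fin_cases j <;> fin_cases k <;> simp_all

end Pool.Agent.VGS
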