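import Pool.Agent.VGS.Aut
import Pool.Agent.LowDeg.SmoothExt

/-! Module Rho: the algebraic closure of the function field of the surface is isomorphic to `ℂ`,
over a countable field and with a given generic point. -/

set_option autoImplicit false

open scoped LinearAlgebra.Projectivization
open MvPolynomial

namespace Pool.Agent.VGS

open Pool.Agent.LowDeg (surf IsSmoothForm IsGenericPoint)

section

/-- homogenisation with respect to `X 0` -/
noncomputable def hmg (P : MvPolynomial (Fin 4) ℂ) : MvPolynomial (Fin 4) ℂ :=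
  ∑ i ∈ Finset.range (P.totalDegree + 1),
    homogeneousComponent i P * X 0 ^ (P.totalDegree - i)

theorem hmg_hom (P : MvPolynomial (Fin 4) ℂ) : (hmg P).IsHomogeneous P.totalDegree := by
  unfold hmg
  refine IsHomogeneous.sum _ _ _ fun i hi => ?_
  have h1 : i + (P.totalDegree - i) = P.totalDegree := by
    have := Finset.mem_range.1 hi
    omega
  have h2 := (homogeneousComponent_isHomogeneous i P).mul
    ((isHomogeneous_X ℂ (0 : Fin 4)).pow (P.totalDegree - i))
  simpa [h1] using h2

theorem coef_hmg {L : Fl} {P : MvPolynomial (Fin 4) ℂ} (hP : Coef L P) : Coef L (hmg P) := by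
  intro m
  unfold hmg
  rw [coeff_sum]
  refine L.sum_mem fun i _ => ?_
  rw [X_pow_eq_monomial, coeff_mul_monomial', coeff_homogeneousComponent]
  split_ifs
  · simpa using hP _
  · simp
  · simp

theorem aeval_hmg {A : Type} [CommRing A] [Algebra ℂ A] (P : MvPolynomial (Fin 4) ℂ)
    {z : Fin 4 → A} (hz : z 0 = 1) : aeval z (hmg P) = aeval z P := by
  unfold hmg
  rw [map_sum]
  conv_rhs => rw [← sum_homogeneousComponent P, map_sum]
  refine Finset.sum_congr rfl fun i _ => ?_
  rw [map_mul, map_pow, aeval_X, hz, one_pow, mul_one]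

variable {K : Type} [Field K] [Algebra ℂ K]

theorem card_generic [IsAlgClosed K] {F : MvPolynomial (Fin 4) ℂ} {ξ : Fin 4 → K}
    (hξ : IsGenericPoint F ξ) : Cardinal.mk K = Cardinal.mk ℂ := by
  have h0 : Cardinal.aleph0 ≤ Cardinal.mk ℂ := aleph0_lt_complex.le
  apply le_antisymm
  · have := hξ.alg
    have h1 := Algebra.IsAlgebraic.cardinalMk_le_max
      (IntermediateField.adjoin ℂ (Set.range ξ)) K
    have h2 := IntermediateField.cardinalMk_adjoin_le ℂ (Set.range ξ)
    have h3 : Cardinal.mk (Set.range ξ) ≤ Cardinal.aleph0 := Cardinal.mk_le_aleph0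
    refine h1.trans (max_le (h2.trans (max_le (max_le le_rfl (h3.trans h0)) h0)) h0)
  · exact Cardinal.mk_le_of_injective (algebraMap ℂ K).injective

/-- `K` is isomorphic to `ℂ` over the countable field `L`, the generic point corresponding to a
given point of the surface generic over `L`. -/
theorem exists_rho [IsAlgClosed K] {F : MvPolynomial (Fin 4) ℂ} {d : ℕ} (hF : F.IsHomogeneous d)
    {ξ : Fin 4 → K} (hξ : IsGenericPoint F ξ) (L : Fl) [Countable L]
    {z : Fin 4 → ℂ} (hz : z ≠ 0) (hz0 : z 0 = 1) (hg : Projectivization.mk ℂ z hz ∈ Gen L F) :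
    ∃ ρ : ℂ ≃+* K, (∀ c ∈ L, ρ c = algebraMap ℂ K c) ∧ ∀ i, ρ (z i) = ξ i := by
  have hzF : aeval z F = 0 := (mem_surf_mk hF hz).1 hg.1
  -- the two evaluations
  let f : MvPolynomial (Fin 4) L →+* ℂ := (aeval z : MvPolynomial (Fin 4) L →ₐ[L] ℂ).toRingHom
  let g : MvPolynomial (Fin 4) L →+* K :=
    ((aeval ξ : MvPolynomial (Fin 4) ℂ →ₐ[ℂ] K) : MvPolynomial (Fin 4) ℂ →+* K).comp
      (MvPolynomial.map (algebraMap L ℂ))
  have hf : ∀ P, f P = aeval z (MvPolynomial.map (algebraMap L ℂ) P) := fun P => by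
    rw [MvPolynomial.aeval_map_algebraMap]
    rfl
  have hgP : ∀ P, g P = aeval ξ (MvPolynomial.map (algebraMap L ℂ) P) := fun P => rfl
  have hker : RingHom.ker f = RingHom.ker g := by
    ext P
    rw [RingHom.mem_ker, RingHom.mem_ker, hf, hgP]
    have hc : Coef L (MvPolynomial.map (algebraMap L ℂ) P) := by
      intro m
      rw [MvPolynomial.coeff_map]
      exact (coeff m P).2
    rw [← aeval_hmg _ hz0, ← aeval_hmg _ hξ.one]
    have h1 := hmg_hom (MvPolynomial.map (algebraMap L ℂ) P)
    have h2 := coef_hmg hc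
    constructor
    · intro h
      have h3 := hg.2 _ _ h1 h2 ((mem_zero_mk h1 hz).2 h)
      obtain ⟨Q, hQ⟩ := h3
      rw [hQ, map_mul, hξ.zero, zero_mul]
    · intro h
      obtain ⟨Q, hQ⟩ := hξ.gen _ _ h1 h
      rw [hQ, map_mul, hzF, zero_mul]
  have hcount : Countable (MvPolynomial (Fin 4) L) := by
    have h1 : Cardinal.mk (MvPolynomial (Fin 4) L) ≤ Cardinal.aleph0 := by
      refine (MvPolynomial.cardinalMk_le_max).trans ?_
      exact max_le (max_le Cardinal.mk_le_aleph0 Cardinal.mk_le_aleph0) le_rfl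
    exact Cardinal.mk_le_aleph0_iff.mp h1
  have h1 : Function.Injective (Ideal.Quotient.lift (RingHom.ker f) f (fun a ha => ha)) :=
    RingHom.lift_injective_of_ker_le_ideal _ _ le_rfl
  have h2 : Function.Injective (Ideal.Quotient.lift (RingHom.ker f) g (fun a ha => by
      rw [hker] at ha
      exact ha)) :=
    RingHom.lift_injective_of_ker_le_ideal _ _ (by rw [hker])
  have : Countable (MvPolynomial (Fin 4) L ⧸ RingHom.ker f) :=
    Ideal.Quotient.mk_surjective.countable
  obtain ⟨σ, hσ⟩ := @ext_gen (MvPolynomial (Fin 4) L ⧸ RingHom.ker f) ℂ K _ _ _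
    (Ideal.Quotient.lift (RingHom.ker f) f (fun a ha => ha)).toAlgebra
    (Ideal.Quotient.lift (RingHom.ker f) g (fun a ha => by
      rw [hker] at ha
      exact ha)).toAlgebra _ _ _ h1 h2 aleph0_lt_complex (card_generic hξ).symm
  have hσ' : ∀ P, σ (f P) = g P := fun P => hσ (Ideal.Quotient.mk _ P)
  refine ⟨σ, fun c hc => ?_, fun i => ?_⟩
  · have h3 := hσ' (C (⟨c, hc⟩ : L))
    rw [hf, hgP, map_C] at h3
    simpa using h3
  · have h3 := hσ' (X i)
    rw [hf, hgP, map_X] at h3
    simpa using h3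

end

end Pool.Agent.VGS
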