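import Pool.Agent.VGS.Eff
import Pool.Agent.VGS.Rho
import Pool.Agent.VGS.Tau
import Pool.Agent.LowDeg.DerK

/-! Module EffTau: the action of correspondences on two-forms (section 5). -/

set_option autoImplicit false

open scoped LinearAlgebra.Projectivization
open MvPolynomial

namespace Pool.Agent.VGS

open Pool.Agent.Chow0 (IsChowForm cyc Z0)
open Pool.Agent.LowDeg (surf IsSmoothForm EffCorr IsGenericPoint ActsByScalar IsRes dF det4)

namespace EffTauAux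

section der

variable {Ω : Type} [Field Ω] [CharZero Ω]

/-- a derivation which is zero on a subfield is zero on its algebraic closure -/
theorem der_zero_alg (D : Derivation ℤ Ω Ω) (S : Subfield Ω) (hS : ∀ x ∈ S, D x = 0) {x : Ω}
    (hx : IsAlgebraic S x) : D x = 0 := by
  let D' : Derivation S Ω Ω := Derivation.mk'
    { toFun := D
      map_add' := map_add D
      map_smul' := fun a x => by
        rw [Algebra.smul_def, D.leibniz]
        have ha : D (algebraMap S Ω a) = 0 := hS a a.2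
        rw [ha, smul_zero, add_zero]
        rfl } (fun a b => D.leibniz a b)
  have hS0 : CharZero S := charZero_of_injective_algebraMap
    (R := ℚ) (A := S) (algebraMap ℚ S).injective
  have hint : IsIntegral S x := hx.isIntegral
  have h1 : D' (Polynomial.aeval x (minpoly S x)) =
      Polynomial.aeval x (Polynomial.derivative (minpoly S x)) • D' x := D'.map_aeval _ _
  rw [minpoly.aeval, map_zero] at h1
  have h2 : Polynomial.aeval x (Polynomial.derivative (minpoly S x)) ≠ 0 :=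
    (minpoly.irreducible hint).separable.aeval_derivative_ne_zero (minpoly.aeval _ _)
  rcases smul_eq_zero.mp h1.symm with h3 | h3
  · exact absurd h3 h2
  · exact h3

/-- a derivation which maps a subfield `S` of `B` to `B` maps the elements of `B` which are
algebraic over `S` to `B` -/
theorem der_mem_alg (D : Derivation ℤ Ω Ω) (S B : Subfield Ω) (hSB : S ≤ B)
    (hS : ∀ x ∈ S, D x ∈ B) {x : Ω} (hxB : x ∈ B) (hx : IsAlgebraic S x) : D x ∈ B := by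
  have hS0 : CharZero S := charZero_of_injective_algebraMap
    (R := ℚ) (A := S) (algebraMap ℚ S).injective
  have hint : IsIntegral S x := hx.isIntegral
  have key : ∀ p : Polynomial S, Polynomial.aeval x p ∈ B ∧
      ∃ b ∈ B, D (Polynomial.aeval x p) = b + Polynomial.aeval x (Polynomial.derivative p) * D x := by
    intro p
    induction p using Polynomial.induction_on' with
    | add p q hp hq =>
      obtain ⟨hp1, b, hb, hp2⟩ := hp
      obtain ⟨hq1, c, hc, hq2⟩ := hq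
      refine ⟨by rw [map_add]; exact add_mem hp1 hq1, b + c, add_mem hb hc, ?_⟩
      rw [map_add, map_add, hp2, hq2, Polynomial.derivative_add, map_add]
      ring
    | monomial n a =>
      refine ⟨?_, D (a : Ω) * x ^ n, mul_mem (hS a a.2) (pow_mem hxB n), ?_⟩
      · rw [Polynomial.aeval_monomial]
        exact mul_mem (hSB a.2) (pow_mem hxB n)
      · rw [Polynomial.aeval_monomial, Polynomial.derivative_monomial, Polynomial.aeval_monomial,
          D.leibniz, Derivation.leibniz_pow]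
        simp only [smul_eq_mul, nsmul_eq_mul, map_mul, map_natCast]
        change (a : Ω) * ((n : Ω) * (x ^ (n - 1) * D x)) + x ^ n * D (a : Ω) = _
        change _ = D (a : Ω) * x ^ n + (a : Ω) * (n : Ω) * x ^ (n - 1) * D x
        ring
  obtain ⟨-, b, hb, h1⟩ := key (minpoly S x)
  rw [minpoly.aeval, map_zero] at h1
  have h2 : Polynomial.aeval x (Polynomial.derivative (minpoly S x)) ≠ 0 :=
    (minpoly.irreducible hint).separable.aeval_derivative_ne_zero (minpoly.aeval _ _)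
  have h3 : D x = -b / Polynomial.aeval x (Polynomial.derivative (minpoly S x)) := by
    rw [eq_div_iff h2]
    linear_combination -h1
  rw [h3]
  exact div_mem (neg_mem hb) (key _).1

end der

variable {Ω : Type} [Field Ω] [Algebra ℂ Ω] {F : MvPolynomial (Fin 4) ℂ} {d : ℕ}

/-- The field generated by `κ` and `S` in `Ω`. -/
noncomputable def flS (κ : Fl) (S : Set Ω) : Subfield Ω :=
  Subfield.closure ((algebraMap ℂ Ω) '' (κ : Set ℂ) ∪ S)

theorem alg_mem_flS {κ : Fl} {S : Set Ω} {c : ℂ} (hc : c ∈ κ) : algebraMap ℂ Ω c ∈ flS κ S :=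
  Subfield.subset_closure (Or.inl ⟨c, hc, rfl⟩)

theorem mem_flS {κ : Fl} {S : Set Ω} {x : Ω} (hx : x ∈ S) : x ∈ flS κ S :=
  Subfield.subset_closure (Or.inr hx)

/-- the coordinates of a generic point are algebraic over two of them -/
theorem alg_xi (κ : Fl) (hFκ : Coef κ F) {ξ : Fin 4 → Ω} {i j k : Fin 4} (h1 : ξ 0 = 1)
    (h0 : aeval ξ F = 0) (hi : aeval ξ (pderiv i F) ≠ 0)
    (hall : ∀ m, m = 0 ∨ m = i ∨ m = j ∨ m = k) (m : Fin 4) :
    IsAlgebraic (flS κ {ξ j, ξ k}) (ξ m) := by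
  classical
  by_cases hm : m = i
  · subst hm
    set P : Polynomial Ω := aeval (fun l => if l = m then (Polynomial.X : Polynomial Ω)
      else Polynomial.C (ξ l)) F with hP
    have hev : ∀ Q : MvPolynomial (Fin 4) ℂ, Polynomial.eval (ξ m) (aeval (fun l => if l = m then
        (Polynomial.X : Polynomial Ω) else Polynomial.C (ξ l)) Q) = aeval ξ Q := by
      intro Q
      have h1 : ((Polynomial.aeval (R := Ω) (ξ m)).restrictScalars ℂ).comp (aeval (fun l =>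
          if l = m then (Polynomial.X : Polynomial Ω) else Polynomial.C (ξ l))) =
          (aeval ξ : MvPolynomial (Fin 4) ℂ →ₐ[ℂ] Ω) := by
        refine MvPolynomial.algHom_ext fun l => ?_
        rw [AlgHom.comp_apply, aeval_X, aeval_X]
        by_cases hl : l = m
        · simp [hl]
        · simp [hl]
      have h2 := DFunLike.congr_fun h1 Q
      rw [← h2]
      simp
    have hP0 : P ≠ 0 := by
      intro h
      apply hi
      rw [← hev, ← Pool.Agent.LowDeg.DerKAux.derivative_aeval, ← hP, h,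
        Polynomial.derivative_zero, Polynomial.eval_zero]
    have hlift : P ∈ Polynomial.lifts (algebraMap (flS κ {ξ j, ξ k}) Ω) := by
      rw [hP, aeval_def, eval₂_eq]
      have hC : ∀ x ∈ flS κ {ξ j, ξ k}, Polynomial.C x ∈
          Polynomial.lifts (algebraMap (flS κ {ξ j, ξ k}) Ω) := fun x hx =>
        Polynomial.C'_mem_lifts (⟨⟨x, hx⟩, rfl⟩ : x ∈ Set.range _)
      refine sum_mem fun e _ => mul_mem (hC _ (alg_mem_flS (hFκ e))) (prod_mem fun l _ =>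
        pow_mem ?_ _)
      split_ifs with hl
      · exact Polynomial.X_mem_lifts _
      · refine hC _ ?_
        rcases hall l with h | h | h | h
        · rw [h, h1]; exact one_mem _
        · exact absurd h hl
        · rw [h]; exact mem_flS (by simp)
        · rw [h]; exact mem_flS (by simp)
    obtain ⟨p, hp⟩ := (Polynomial.mem_lifts _).1 hlift
    refine ⟨p, ?_, ?_⟩
    · rintro rfl
      exact hP0 (by rw [← hp, Polynomial.map_zero])
    · rw [Polynomial.aeval_def, Polynomial.eval₂_eq_eval_map, hp, hP, hev, h0]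
  · have hmem : ξ m ∈ flS κ {ξ j, ξ k} := by
      rcases hall m with h | h | h | h
      · rw [h, h1]; exact one_mem _
      · exact absurd h hm
      · rw [h]; exact mem_flS (by simp)
      · rw [h]; exact mem_flS (by simp)
    exact isAlgebraic_algebraMap (⟨ξ m, hmem⟩ : flS κ {ξ j, ξ k})

section

omit [Algebra ℂ Ω] in
theorem isAlg_mono {S S' : Subfield Ω} (h : S ≤ S') {x : Ω} (hx : IsAlgebraic S x) :
    IsAlgebraic S' x := by
  obtain ⟨p, hp, hpx⟩ := hx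
  refine ⟨p.map (Subfield.inclusion h), (Polynomial.map_ne_zero_iff
    (Subfield.inclusion h).injective).2 hp, ?_⟩
  rw [Polynomial.aeval_def, Polynomial.eval₂_map] at *
  exact hpx

omit [Algebra ℂ Ω] in
theorem isAlg_clo {S S' : Subfield Ω} (h : ∀ x ∈ S, IsAlgebraic S' x) {x : Ω}
    (hx : IsAlgebraic S x) : IsAlgebraic S' x := by
  have h1 : S ≤ (algebraicClosure S' Ω).toSubfield := fun y hy =>
    mem_algebraicClosure_iff.2 (h y hy)
  have h2 : IsAlgebraic (algebraicClosure S' Ω).toSubfield x := isAlg_mono h1 hx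
  have h3 : IsAlgebraic (algebraicClosure S' Ω) x := h2
  exact h3.restrictScalars S'

end

/-- the elements of `cloΩ κ ξ` are algebraic over two coordinates -/
theorem alg_cloΩ (κ : Fl) (hFκ : Coef κ F) {ξ : Fin 4 → Ω} {i j k : Fin 4} (h1 : ξ 0 = 1)
    (h0 : aeval ξ F = 0) (hi : aeval ξ (pderiv i F) ≠ 0)
    (hall : ∀ m, m = 0 ∨ m = i ∨ m = j ∨ m = k) {x : Ω} (hx : x ∈ cloΩ κ ξ) :
    IsAlgebraic (flS κ {ξ j, ξ k}) x := by
  have hx' : IsAlgebraic (Subfield.closure ((algebraMap ℂ Ω) '' (κ : Set ℂ) ∪ Set.range ξ)) x :=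
    mem_algebraicClosure_iff.1 hx
  refine isAlg_clo (fun y hy => ?_) hx'
  have h2 : Subfield.closure ((algebraMap ℂ Ω) '' (κ : Set ℂ) ∪ Set.range ξ) ≤
      (algebraicClosure (flS κ {ξ j, ξ k}) Ω).toSubfield := by
    rw [Subfield.closure_le]
    rintro z (⟨c, hc, rfl⟩ | ⟨m, rfl⟩)
    · exact mem_algebraicClosure_iff.2
        (isAlgebraic_algebraMap (⟨_, alg_mem_flS hc⟩ : flS κ {ξ j, ξ k}))
    · exact mem_algebraicClosure_iff.2 (alg_xi κ hFκ h1 h0 hi hall m)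
  exact mem_algebraicClosure_iff.1 (h2 hy)

/-- an element of `ℂ` which is algebraic over `κ(ξ)` is in `κ` -/
theorem mem_of_alg {κ : Fl} (hκ : clo κ = κ) {x y : Ω} (hind : AlgebraicIndependent ℂ ![x, y])
    {m : ℂ} (hm : IsAlgebraic (flS κ {x, y}) (algebraMap ℂ Ω m)) : m ∈ κ := by
  by_contra hm'
  have h1 : Transcendental κ m := by
    intro h
    apply hm'
    rw [← hκ]
    exact mem_clo.2 h
  have h2 : AlgebraicIndependent κ (fun _ : Fin 1 => m) := by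
    rw [algebraicIndependent_unique_type_iff]
    exact h1
  have h3 := h2.sumElim_comp hind
  have h4 := h3.transcendental_adjoin (s := Set.range Sum.inl) (i := Sum.inr 0) (by simp)
  apply h4
  have h5 : (Sum.elim ![x, y] (algebraMap ℂ Ω ∘ fun _ : Fin 1 => m)) '' Set.range Sum.inl =
      {x, y} := by
    rw [← Set.range_comp]
    ext z
    simp only [Set.mem_range, Function.comp_apply, Sum.elim_inl, Fin.exists_fin_two,
      Matrix.cons_val_zero, Matrix.cons_val_one, Set.mem_insert_iff, Set.mem_singleton_iff]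
    constructor
    · rintro (h | h)
      · exact Or.inl h.symm
      · exact Or.inr h.symm
    · rintro (h | h)
      · exact Or.inl h.symm
      · exact Or.inr h.symm
  rw [h5]
  change IsAlgebraic (Algebra.adjoin κ {x, y}) (algebraMap ℂ Ω m)
  have h6 : IsAlgebraic (IntermediateField.adjoin κ {x, y}) (algebraMap ℂ Ω m) := by
    have h7 : flS κ {x, y} ≤ (IntermediateField.adjoin κ {x, y}).toSubfield := by
      unfold flS
      rw [Subfield.closure_le]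
      rintro z (⟨c, hc, rfl⟩ | hz)
      · exact (IntermediateField.adjoin κ {x, y}).algebraMap_mem ⟨c, hc⟩
      · exact IntermediateField.subset_adjoin κ _ hz
    exact isAlg_mono h7 hm
  open scoped IntermediateField.algebraAdjoinAdjoin in
  exact (IsFractionRing.isAlgebraic_iff (Algebra.adjoin κ {x, y})
    (IntermediateField.adjoin κ {x, y}) Ω).2 h6

theorem kills_clo {L : Fl} {D : Derivation ℤ ℂ ℂ} (h : Kills L D) : Kills (clo L) D := by
  intro x hx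
  have h1 : IsAlgebraic L.toSubfield x := mem_clo.1 hx
  exact der_zero_alg D L.toSubfield h h1

/-- the conjugate of a derivation of `ℂ` -/
noncomputable def cjD (ρ : ℂ ≃+* Ω) (D : Derivation ℤ ℂ ℂ) : Derivation ℤ Ω Ω :=
  Derivation.mk' ((ρ : ℂ →+* Ω).toAddMonoidHom.toIntLinearMap.comp
    ((D : ℂ →ₗ[ℤ] ℂ).comp (ρ.symm : Ω →+* ℂ).toAddMonoidHom.toIntLinearMap)) (by
    intro a b
    simp)

omit [Algebra ℂ Ω] in
theorem cjD_apply (ρ : ℂ ≃+* Ω) (D : Derivation ℤ ℂ ℂ) (x : Ω) :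
    cjD ρ D x = ρ (D (ρ.symm x)) := rfl

/-- a derivation which is zero on generators is zero -/
theorem der_zero_closure {Ω : Type} [Field Ω] (D : Derivation ℤ Ω Ω) (T : Set Ω)
    (h : ∀ x ∈ T, D x = 0) : ∀ x ∈ Subfield.closure T, D x = 0 := by
  intro x hx
  induction hx using Subfield.closure_induction with
  | mem x hx => exact h x hx
  | one => exact D.map_one_eq_zero
  | add x y _ _ hx hy => rw [map_add, hx, hy, add_zero]
  | neg x _ hx => rw [map_neg, hx, neg_zero]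
  | inv x _ hx => rw [Derivation.leibniz_inv, hx, smul_zero]
  | mul x y _ _ hx hy => rw [D.leibniz, hx, hy, smul_zero, smul_zero, add_zero]

theorem der_mem_closure {Ω : Type} [Field Ω] (D : Derivation ℤ Ω Ω) (T : Set Ω) (B : Subfield Ω)
    (hTB : T ⊆ B) (h : ∀ x ∈ T, D x ∈ B) : ∀ x ∈ Subfield.closure T, D x ∈ B := by
  have hcl : Subfield.closure T ≤ B := Subfield.closure_le.2 hTB
  intro x hx
  induction hx using Subfield.closure_induction with
  | mem x hx => exact h x hx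
  | one => rw [D.map_one_eq_zero]; exact zero_mem B
  | add x y _ _ hx hy => rw [map_add]; exact add_mem hx hy
  | neg x _ hx => rw [map_neg]; exact neg_mem hx
  | inv x hx' hx =>
    rw [Derivation.leibniz_inv, smul_eq_mul]
    exact mul_mem (neg_mem (pow_mem (inv_mem (hcl hx')) 2)) hx
  | mul x y hx' hy' hx hy =>
    rw [D.leibniz]
    exact add_mem (mul_mem (hcl hx') hy) (mul_mem (hcl hy') hx)

/-- on the elements algebraic over `κ(x, y)` a derivation over `κ` is a combination of the two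
dual derivations -/
theorem der_comb {κ : Fl} {x y : Ω} (D : Derivation ℤ Ω Ω)
    (hD : ∀ c ∈ κ, D (algebraMap ℂ Ω c) = 0) {δ₁ δ₂ : Derivation ℂ Ω Ω} (h11 : δ₁ x = 1)
    (h12 : δ₁ y = 0) (h21 : δ₂ x = 0) (h22 : δ₂ y = 1) {z : Ω}
    (hz : IsAlgebraic (flS κ {x, y}) z) : D z = (D x • δ₁ + D y • δ₂) z := by
  have hc : CharZero Ω := charZero_of_injective_algebraMap (algebraMap ℂ Ω).injective
  have h1 : (D - (D x • δ₁ + D y • δ₂).restrictScalars ℤ) z = 0 := by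
    refine der_zero_alg _ (flS κ {x, y}) (der_zero_closure _ _ ?_) hz
    rintro w (⟨c, hc, rfl⟩ | hw)
    · rw [Derivation.sub_apply, hD c hc, zero_sub, neg_eq_zero]
      exact (D x • δ₁ + D y • δ₂).map_algebraMap c
    · rcases hw with rfl | hw
      · rw [Derivation.sub_apply]
        change D w - (D w • δ₁ + D y • δ₂) w = 0
        simp [h11, h21]
      · rw [Set.mem_singleton_iff] at hw
        subst hw
        rw [Derivation.sub_apply]
        change D w - (D x • δ₁ + D w • δ₂) w = 0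
        simp [h12, h22]
  rw [Derivation.sub_apply, sub_eq_zero] at h1
  exact h1

/-! ### transport -/

theorem rho_aeval {κ : Fl} {ρ : ℂ ≃+* Ω} (hρ : ∀ c ∈ κ, ρ c = algebraMap ℂ Ω c)
    {G : MvPolynomial (Fin 4) ℂ} (hG : Coef κ G) (z : Fin 4 → ℂ) :
    ρ (aeval z G) = aeval (fun i => ρ (z i)) G := by
  rw [aeval_def, aeval_def, eval₂_eq, eval₂_eq, map_sum]
  refine Finset.sum_congr rfl fun m _ => ?_
  rw [map_mul, map_prod]
  congr 1
  · exact hρ _ (hG m)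
  · exact Finset.prod_congr rfl fun i _ => map_pow ρ _ _

theorem symm_aeval {κ : Fl} {ρ : ℂ ≃+* Ω} (hρ : ∀ c ∈ κ, ρ c = algebraMap ℂ Ω c)
    {G : MvPolynomial (Fin 4) ℂ} (hG : Coef κ G) (x : Fin 4 → Ω) :
    aeval (fun i => ρ.symm (x i)) G = ρ.symm (aeval x G) := by
  apply ρ.injective
  rw [rho_aeval hρ hG, ρ.apply_symm_apply]
  simp

theorem coef_pderiv {κ : Fl} (hF : Coef κ F) (i : Fin 4) : Coef κ (pderiv i F) := by
  have h1 : F ∈ Set.range (MvPolynomial.map (σ := Fin 4) (algebraMap κ ℂ)) := by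
    refine (MvPolynomial.mem_range_map_iff_coeffs_subset).2 ?_
    intro x hx
    obtain ⟨n, -, rfl⟩ := MvPolynomial.mem_coeffs_iff.1 (Finset.mem_coe.1 hx)
    exact ⟨⟨_, hF n⟩, rfl⟩
  obtain ⟨F', rfl⟩ := h1
  intro m
  rw [pderiv_map, coeff_map]
  exact (coeff m (pderiv i F')).2

theorem isResC_of {κ : Fl} (hFκ : Coef κ F) {ρ : ℂ ≃+* Ω}
    (hρ : ∀ c ∈ κ, ρ c = algebraMap ℂ Ω c) {D₁ D₂ : Derivation ℤ ℂ ℂ}
    {E₁ E₂ : Derivation ℂ Ω Ω} {x : Fin 4 → Ω} (h₁ : ∀ i, cjD ρ D₁ (x i) = E₁ (x i))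
    (h₂ : ∀ i, cjD ρ D₂ (x i) = E₂ (x i)) {J : Ω} (hJ : IsRes F E₁ E₂ x J) :
    IsResC F D₁ D₂ (fun i => ρ.symm (x i)) (ρ.symm J) := by
  intro v
  apply ρ.injective
  have h3 := hJ (fun i => ρ (v i))
  have h4 : ρ (det4 v (fun i => ρ.symm (x i)) (fun i => D₁ (ρ.symm (x i)))
      (fun i => D₂ (ρ.symm (x i)))) =
      det4 (fun i => ρ (v i)) x (fun i => E₁ (x i)) (fun i => E₂ (x i)) := by
    simp only [Pool.Agent.LowDeg.SmoothExtAux.det4_expand, map_add, map_sub, map_mul,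
      ρ.apply_symm_apply, ← h₁, ← h₂, cjD_apply]
  rw [h4, h3, map_mul, ρ.apply_symm_apply]
  congr 1
  unfold dF dFc
  rw [map_sum]
  refine Finset.sum_congr rfl fun i _ => ?_
  rw [map_mul, rho_aeval hρ (coef_pderiv hFκ i)]
  simp

/-- the scalar action with any representatives of the points -/
theorem acts_scaled (hd : 4 ≤ d) (hF : IsSmoothForm F d) {ξ : Fin 4 → Ω} {w w' : ℕ}
    (Γ : EffCorr F ξ w) (Γ' : EffCorr F ξ w') {m : ℂ} (hm : ActsByScalar F (d - 4) Γ Γ' m)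
    {t : Fin w → Ω} (ht : ∀ i, t i ≠ 0) {x : Fin w → Fin 4 → Ω}
    (hx : ∀ i, x i = t i • Γ.pts i) {t' : Fin w' → Ω} (ht' : ∀ i, t' i ≠ 0)
    {x' : Fin w' → Fin 4 → Ω} (hx' : ∀ i, x' i = t' i • Γ'.pts i)
    (D₁ D₂ : Derivation ℂ Ω Ω) {f : MvPolynomial (Fin 4) ℂ} (hf : f.IsHomogeneous (d - 4))
    {J : Fin w → Ω} {J' : Fin w' → Ω} {J₀ : Ω} (hJ : ∀ i, IsRes F D₁ D₂ (x i) (J i))
    (hJ' : ∀ i, IsRes F D₁ D₂ (x' i) (J' i)) (hJ₀ : IsRes F D₁ D₂ ξ J₀) :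
    ∑ i, aeval (x i) f * J i - ∑ i, aeval (x' i) f * J' i =
      algebraMap ℂ Ω m * (aeval ξ f * J₀) := by
  have key : ∀ (c : Ω) (hc : c ≠ 0) (p y : Fin 4 → Ω) (_ : y = c • p) (I : Ω)
      (_ : IsRes F D₁ D₂ y I), ∃ I' : Ω, IsRes F D₁ D₂ p I' ∧ aeval p f * I' = aeval y f * I := by
    intro c hc p y hy I hI
    have hp : p = c⁻¹ • y := by rw [hy, smul_smul, inv_mul_cancel₀ hc, one_smul]
    refine ⟨I * (c⁻¹ ^ (d - 4))⁻¹, ?_, ?_⟩
    · rw [hp]
      exact hI.smul hF hd c⁻¹ (inv_ne_zero hc)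
    · rw [hp, Pool.Agent.LowDeg.SmoothExtAux.aeval_smul_hom hf]
      have h0 : c⁻¹ ^ (d - 4) ≠ 0 := pow_ne_zero _ (inv_ne_zero hc)
      field_simp
  choose I hI hI2 using fun i => key (t i) (ht i) (Γ.pts i) (x i) (hx i) (J i) (hJ i)
  choose I' hI' hI2' using fun i => key (t' i) (ht' i) (Γ'.pts i) (x' i) (hx' i) (J' i) (hJ' i)
  have h := hm D₁ D₂ f hf I I' J₀ hI hI' hJ₀
  rw [← h]
  simp only [hI2, hI2']

omit [Algebra ℂ Ω] in
theorem det4_mem (B : Subfield Ω) {a b c e : Fin 4 → Ω} (ha : ∀ i, a i ∈ B) (hb : ∀ i, b i ∈ B)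
    (hc : ∀ i, c i ∈ B) (he : ∀ i, e i ∈ B) : det4 a b c e ∈ B := by
  have h : det4 a b c e = B.subtype (det4 (fun i => ⟨a i, ha i⟩) (fun i => ⟨b i, hb i⟩)
      (fun i => ⟨c i, hc i⟩) (fun i => ⟨e i, he i⟩)) := by
    simp only [Pool.Agent.LowDeg.SmoothExtAux.det4_expand, map_add, map_sub, map_mul]
    rfl
  rw [h]
  exact SetLike.coe_mem _

theorem aeval_memΩ {κ : Fl} {B : Subfield Ω} (hκB : ∀ c ∈ κ, algebraMap ℂ Ω c ∈ B)
    {G : MvPolynomial (Fin 4) ℂ} (hG : Coef κ G) {x : Fin 4 → Ω} (hx : ∀ i, x i ∈ B) :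
    aeval x G ∈ B := by
  rw [aeval_def, eval₂_eq]
  exact sum_mem fun m _ => mul_mem (hκB _ (hG m)) (prod_mem fun i _ => pow_mem (hx i) _)

theorem res_mem {κ : Fl} (hFκ : Coef κ F) (hF : IsSmoothForm F d) {B : Subfield Ω}
    (hκB : ∀ c ∈ κ, algebraMap ℂ Ω c ∈ B) {D₁ D₂ : Derivation ℂ Ω Ω} {x : Fin 4 → Ω}
    (hx : x ≠ 0) (hx0 : aeval x F = 0) (hxB : ∀ i, x i ∈ B) (h₁ : ∀ i, D₁ (x i) ∈ B)
    (h₂ : ∀ i, D₂ (x i) ∈ B) {J : Ω} (hJ : IsRes F D₁ D₂ x J) : J ∈ B := by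
  obtain ⟨l, hl⟩ := Pool.Agent.LowDeg.smooth_ext hF x hx hx0
  have h3 := hJ (Pi.single l 1)
  have h4 : dF F x (Pi.single l 1) = aeval x (pderiv l F) := by
    unfold dF
    rw [Finset.sum_eq_single l]
    · simp
    · intro b _ hb
      simp [hb]
    · intro h
      exact absurd (Finset.mem_univ l) h
  rw [h4] at h3
  have h5 : J = det4 (Pi.single l 1) x (fun i => D₁ (x i)) (fun i => D₂ (x i)) /
      aeval x (pderiv l F) := by
    rw [eq_div_iff hl]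
    exact h3.symm
  rw [h5]
  refine div_mem (det4_mem B (fun i => ?_) hxB h₁ h₂) (aeval_memΩ hκB (coef_pderiv hFκ l) hxB)
  by_cases h : i = l
  · subst h; rw [Pi.single_eq_same]; exact one_mem B
  · rw [Pi.single_eq_of_ne h]; exact zero_mem B

theorem alg_mem_cloΩ {κ : Fl} (ξ : Fin 4 → Ω) {c : ℂ} (hc : c ∈ κ) :
    algebraMap ℂ Ω c ∈ cloΩ κ ξ :=
  mem_algebraicClosure_iff.2 (isAlgebraic_algebraMap (⟨_, Subfield.subset_closure
    (Or.inl ⟨c, hc, rfl⟩)⟩ :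
    Subfield.closure ((algebraMap ℂ Ω) '' (κ : Set ℂ) ∪ Set.range ξ)))

theorem xi_mem_cloΩ (κ : Fl) (ξ : Fin 4 → Ω) (j : Fin 4) : ξ j ∈ cloΩ κ ξ :=
  mem_algebraicClosure_iff.2 (isAlgebraic_algebraMap (⟨_, Subfield.subset_closure
    (Or.inr ⟨j, rfl⟩)⟩ :
    Subfield.closure ((algebraMap ℂ Ω) '' (κ : Set ℂ) ∪ Set.range ξ)))

/-- the scalar is in `κ` -/
theorem scalar_mem (hd : 4 ≤ d) (hF : IsSmoothForm F d) {ξ : Fin 4 → Ω}
    (hξ : IsGenericPoint F ξ) (κ : Fl) (hκ : clo κ = κ) (hFκ : Coef κ F) {w w' : ℕ}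
    (Γ : EffCorr F ξ w) (Γ' : EffCorr F ξ w') {m : ℂ} (hm : ActsByScalar F (d - 4) Γ Γ' m)
    {t : Fin w → Ω} (ht : ∀ i, t i ≠ 0) {x : Fin w → Fin 4 → Ω}
    (hx : ∀ i, x i = t i • Γ.pts i) {t' : Fin w' → Ω} (ht' : ∀ i, t' i ≠ 0)
    {x' : Fin w' → Fin 4 → Ω} (hx' : ∀ i, x' i = t' i • Γ'.pts i)
    (hxB : ∀ i j, x i j ∈ cloΩ κ ξ) (hxB' : ∀ i j, x' i j ∈ cloΩ κ ξ)
    (hne : ∀ i, x i ≠ 0) (h0 : ∀ i, aeval (x i) F = 0)
    (hne' : ∀ i, x' i ≠ 0) (h0' : ∀ i, aeval (x' i) F = 0) : m ∈ κ := by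
  obtain ⟨i, hi0, hi⟩ := Pool.Agent.LowDeg.DerKAux.exists_pderiv hF hξ.one hξ.zero
  obtain ⟨j, k, hj0, hji, hk0, hki, hjk, hall⟩ := Pool.Agent.LowDeg.DerKAux.idx 0 i hi0
  have hind : AlgebraicIndependent ℂ ![ξ j, ξ k] :=
    Pool.Agent.LowDeg.DerKAux.algInd hξ.one hξ.gen hi hi0 hj0 hji hk0 hki hjk
  have halg := hξ.alg
  have halg2 : Algebra.IsAlgebraic (IntermediateField.adjoin ℂ (Set.range ![ξ j, ξ k])) Ω :=
    Pool.Agent.LowDeg.DerKAux.isAlg hξ.one hξ.zero hi hall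
  have hb : IsTranscendenceBasis ℂ ![ξ j, ξ k] :=
    hind.isTranscendenceBasis_iff_isAlgebraic.mpr
      (IntermediateField.isAlgebraic_adjoin_iff_top.mp halg2)
  obtain ⟨δ₁, h1⟩ := Pool.Agent.LowDeg.DerKAux.exists_der hb ![1, 0]
  obtain ⟨δ₂, h2⟩ := Pool.Agent.LowDeg.DerKAux.exists_der hb ![0, 1]
  have h11 : δ₁ (ξ j) = 1 := h1 0
  have h12 : δ₁ (ξ k) = 0 := h1 1
  have h21 : δ₂ (ξ j) = 0 := h2 0
  have h22 : δ₂ (ξ k) = 1 := h2 1
  have hc : CharZero Ω := charZero_of_injective_algebraMap (algebraMap ℂ Ω).injective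
  have hsub : ((algebraMap ℂ Ω) '' (κ : Set ℂ) ∪ {ξ j, ξ k} : Set Ω) ⊆ cloΩ κ ξ := by
    rintro z (⟨c, hc, rfl⟩ | rfl | rfl)
    · exact alg_mem_cloΩ ξ hc
    · exact xi_mem_cloΩ κ ξ j
    · exact xi_mem_cloΩ κ ξ k
  have hδ : ∀ δ : Derivation ℂ Ω Ω, δ (ξ j) ∈ cloΩ κ ξ → δ (ξ k) ∈ cloΩ κ ξ →
      ∀ u ∈ cloΩ κ ξ, δ u ∈ cloΩ κ ξ := by
    intro δ h3 h4 u hu
    refine der_mem_alg (δ.restrictScalars ℤ) (flS κ {ξ j, ξ k}) (cloΩ κ ξ)
      (Subfield.closure_le.2 hsub) (der_mem_closure _ _ _ hsub ?_) hu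
      (alg_cloΩ κ hFκ hξ.one hξ.zero hi hall hu)
    rintro z (⟨c, hc, rfl⟩ | rfl | rfl)
    · change δ (algebraMap ℂ Ω c) ∈ _
      rw [δ.map_algebraMap]
      exact zero_mem _
    · exact h3
    · exact h4
  have hδ₁ := hδ δ₁ (by rw [h11]; exact one_mem _) (by rw [h12]; exact zero_mem _)
  have hδ₂ := hδ δ₂ (by rw [h21]; exact zero_mem _) (by rw [h22]; exact one_mem _)
  have hξne : ξ ≠ 0 := fun h => by
    have := hξ.one
    rw [h] at this
    exact zero_ne_one this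
  choose J hJ using fun i => (Pool.Agent.LowDeg.exists_isRes hF δ₁ δ₂ (x i) (hne i) (h0 i)).exists
  choose J' hJ' using fun i =>
    (Pool.Agent.LowDeg.exists_isRes hF δ₁ δ₂ (x' i) (hne' i) (h0' i)).exists
  obtain ⟨J₀, hJ₀⟩ := (Pool.Agent.LowDeg.exists_isRes hF δ₁ δ₂ ξ hξne hξ.zero).exists
  have hJ₀ne : J₀ ≠ 0 := by
    rintro rfl
    refine (Pool.Agent.LowDeg.isRes_zero_iff hF δ₁ δ₂ ξ hξne hξ.zero).1 hJ₀ ?_
    rw [Fintype.linearIndependent_iff]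
    intro g hg
    rw [Fin.sum_univ_three] at hg
    have key : ∀ m, g 0 * ξ m + g 1 * δ₁ (ξ m) + g 2 * δ₂ (ξ m) = 0 := by
      intro m
      have := congrFun hg m
      simpa using this
    have k0 := key 0
    rw [hξ.one, δ₁.map_one_eq_zero, δ₂.map_one_eq_zero] at k0
    have h0 : g 0 = 0 := by simpa using k0
    have kj := key j
    have kk := key k
    rw [h11, h21, h0] at kj
    rw [h12, h22, h0] at kk
    intro i
    fin_cases i
    · exact h0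
    · simpa using kj
    · simpa using kk
  have hX : (X 0 ^ (d - 4) : MvPolynomial (Fin 4) ℂ).IsHomogeneous (d - 4) := by
    simpa using (isHomogeneous_X ℂ (0 : Fin 4)).pow (d - 4)
  have hXκ : Coef κ (X 0 ^ (d - 4) : MvPolynomial (Fin 4) ℂ) := by
    intro e
    rw [coeff_X_pow]
    split_ifs
    · exact one_mem κ
    · exact zero_mem κ
  have h := acts_scaled hd hF Γ Γ' hm ht hx ht' hx' δ₁ δ₂ hX hJ hJ' hJ₀
  have hκB : ∀ c ∈ κ, algebraMap ℂ Ω c ∈ cloΩ κ ξ := fun c hc => alg_mem_cloΩ ξ hc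
  have hS : (∑ i, aeval (x i) (X 0 ^ (d - 4) : MvPolynomial (Fin 4) ℂ) * J i -
      ∑ i, aeval (x' i) (X 0 ^ (d - 4) : MvPolynomial (Fin 4) ℂ) * J' i) ∈ cloΩ κ ξ := by
    refine sub_mem (sum_mem fun i _ => mul_mem (aeval_memΩ hκB hXκ (hxB i)) ?_)
      (sum_mem fun i _ => mul_mem (aeval_memΩ hκB hXκ (hxB' i)) ?_)
    · exact res_mem hFκ hF hκB (hne i) (h0 i) (hxB i) (fun l => hδ₁ _ (hxB i l))
        (fun l => hδ₂ _ (hxB i l)) (hJ i)
    · exact res_mem hFκ hF hκB (hne' i) (h0' i) (hxB' i) (fun l => hδ₁ _ (hxB' i l))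
        (fun l => hδ₂ _ (hxB' i l)) (hJ' i)
  have hJ₀B : J₀ ∈ cloΩ κ ξ :=
    res_mem hFκ hF hκB hξne hξ.zero (xi_mem_cloΩ κ ξ) (fun l => hδ₁ _ (xi_mem_cloΩ κ ξ l))
      (fun l => hδ₂ _ (xi_mem_cloΩ κ ξ l)) hJ₀
  rw [h] at hS
  have hξX : aeval ξ (X 0 ^ (d - 4) : MvPolynomial (Fin 4) ℂ) = 1 := by
    rw [map_pow, aeval_X, hξ.one, one_pow]
  rw [hξX, one_mul] at hS
  have hmB : algebraMap ℂ Ω m ∈ cloΩ κ ξ := by
    have h5 := div_mem hS hJ₀B
    rwa [mul_div_assoc, div_self hJ₀ne, mul_one] at h5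
  exact mem_of_alg hκ hind (alg_cloΩ κ hFκ hξ.one hξ.zero hi hall hmB)

/-! ### assembly -/

theorem cycQ_univ {w : ℕ} (q : Fin w → PP) (S : Set PP) (h : ∀ i, q i ∈ S) :
    cycQ ((Multiset.map (fun i => (⟨q i, h i⟩ : S)) Finset.univ.val).map Subtype.val) =
      ∑ i, Finsupp.single (q i) (1 : ℚ) := by
  rw [Multiset.map_map]
  unfold cycQ
  rw [Multiset.map_map]
  rfl

theorem tauC_cyc (hd : 4 ≤ d) (hF : IsSmoothForm F d) {κ : Fl} (hFκ : Coef κ F) {ρ : ℂ ≃+* Ω}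
    (hρ : ∀ c ∈ κ, ρ c = algebraMap ℂ Ω c) {D₁ D₂ : Derivation ℤ ℂ ℂ} (h₁ : Kills κ D₁)
    (h₂ : Kills κ D₂) {E₁ E₂ : Derivation ℂ Ω Ω} {f : MvPolynomial (Fin 4) ℂ}
    (hf : f.IsHomogeneous (d - 4)) (hfκ : Coef κ f) {w : ℕ} {x : Fin w → Fin 4 → Ω}
    (hne : ∀ i, x i ≠ 0) (h0 : ∀ i, aeval (x i) F = 0)
    (hE₁ : ∀ i j, cjD ρ D₁ (x i j) = E₁ (x i j)) (hE₂ : ∀ i j, cjD ρ D₂ (x i j) = E₂ (x i j))
    {J : Fin w → Ω} (hJ : ∀ i, IsRes F E₁ E₂ (x i) (J i)) :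
    tauC F D₁ D₂ f (∑ i, Finsupp.single (mkP (fun j => ρ.symm (x i j))) (1 : ℚ)) =
      ρ.symm (∑ i, aeval (x i) f * J i) := by
  rw [map_sum, map_sum]
  refine Finset.sum_congr rfl fun i _ => ?_
  have hz : (fun j => ρ.symm (x i j)) ≠ 0 := by
    intro h
    apply hne i
    funext j
    have := congrFun h j
    simpa using this
  have hzF : aeval (fun j => ρ.symm (x i j)) F = 0 := by
    rw [symm_aeval hρ hFκ, h0, map_zero]
  unfold tauC
  rw [Finsupp.linearCombination_single, one_smul, mkP_eq hz,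
    tau_eq hd hF hFκ h₁ h₂ hz hzF hf (isResC_of hFκ hρ (hE₁ i) (hE₂ i) (hJ i)),
    symm_aeval hρ hfκ, map_mul]

theorem effT_tau_aux [IsAlgClosed Ω] (hd : 4 ≤ d) (hF : IsSmoothForm F d) {ξ : Fin 4 → Ω}
    (hξ : IsGenericPoint F ξ) (κ : Fl) [Countable κ] (hκ : clo κ = κ) (hFκ : Coef κ F)
    {w w' : ℕ} (Γ : EffCorr F ξ w) (Γ' : EffCorr F ξ w') (hΓ : CoefE κ Γ) (hΓ' : CoefE κ Γ')
    {m : ℂ} (hm : ActsByScalar F (d - 4) Γ Γ' m) {y : PP} (hy : y ∈ Gen κ F)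
    (D₁ D₂ : Derivation ℤ ℂ ℂ) (h₁ : Kills κ D₁) (h₂ : Kills κ D₂)
    (f : MvPolynomial (Fin 4) ℂ) (hf : f.IsHomogeneous (d - 4)) (hfκ : Coef κ f) :
    tauC F D₁ D₂ f (effT Γ y - effT Γ' y) = m * tau F D₁ D₂ f y := by
  obtain ⟨z, hz, hz0, -, rfl⟩ := gen_nrm hd hF hy 0
  obtain ⟨ρ, hρ, hρξ⟩ := exists_rho hF.hom hξ κ hz hz0 hy
  let ι : cloΩ κ ξ →+* ℂ := (ρ.symm : Ω →+* ℂ).comp (cloΩ κ ξ).subtype
  have hι : ∀ c ∈ κ, ∀ h, ι ⟨algebraMap ℂ Ω c, h⟩ = c := fun c hc h => by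
    change ρ.symm (algebraMap ℂ Ω c) = c
    rw [← hρ c hc, ρ.symm_apply_apply]
  have hιξ : ∀ j h, ι ⟨ξ j, h⟩ = z j := fun j h => by
    change ρ.symm (ξ j) = z j
    rw [← hρξ j, ρ.symm_apply_apply]
  obtain ⟨t, x, ht, hx, hx1, hxF, hxs⟩ := eff_pts hd hF hξ κ hκ hFκ Γ hΓ hz hz0 hy ι hι hιξ
  obtain ⟨t', x', ht', hx', hx1', hxF', hxs'⟩ :=
    eff_pts hd hF hξ κ hκ hFκ Γ' hΓ' hz hz0 hy ι hι hιξ
  -- the points
  have hX : ∀ i, (fun j => ((x i j : cloΩ κ ξ) : Ω)) = t i • Γ.pts i := fun i =>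
    funext fun j => hx i j
  have hX' : ∀ i, (fun j => ((x' i j : cloΩ κ ξ) : Ω)) = t' i • Γ'.pts i := fun i =>
    funext fun j => hx' i j
  have hne : ∀ i, (fun j => ((x i j : cloΩ κ ξ) : Ω)) ≠ 0 := fun i => by
    rw [hX]; exact smul_ne_zero (ht i) (Γ.pts_ne i)
  have hne' : ∀ i, (fun j => ((x' i j : cloΩ κ ξ) : Ω)) ≠ 0 := fun i => by
    rw [hX']; exact smul_ne_zero (ht' i) (Γ'.pts_ne i)
  have h0 : ∀ i, aeval (fun j => ((x i j : cloΩ κ ξ) : Ω)) F = 0 := fun i => by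
    rw [hX, Pool.Agent.LowDeg.SmoothExtAux.aeval_smul_hom hF.hom, Γ.pts_mem, mul_zero]
  have h0' : ∀ i, aeval (fun j => ((x' i j : cloΩ κ ξ) : Ω)) F = 0 := fun i => by
    rw [hX', Pool.Agent.LowDeg.SmoothExtAux.aeval_smul_hom hF.hom, Γ'.pts_mem, mul_zero]
  have hmκ : m ∈ κ := scalar_mem hd hF hξ κ hκ hFκ Γ Γ' hm ht hX ht' hX'
    (fun i j => (x i j).2) (fun i j => (x' i j).2) hne h0 hne' h0'
  -- the derivations
  obtain ⟨i, hi0, hi⟩ := Pool.Agent.LowDeg.DerKAux.exists_pderiv hF hξ.one hξ.zero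
  obtain ⟨j, k, hj0, hji, hk0, hki, hjk, hall⟩ := Pool.Agent.LowDeg.DerKAux.idx 0 i hi0
  have hind : AlgebraicIndependent ℂ ![ξ j, ξ k] :=
    Pool.Agent.LowDeg.DerKAux.algInd hξ.one hξ.gen hi hi0 hj0 hji hk0 hki hjk
  have halg := hξ.alg
  have halg2 : Algebra.IsAlgebraic (IntermediateField.adjoin ℂ (Set.range ![ξ j, ξ k])) Ω :=
    Pool.Agent.LowDeg.DerKAux.isAlg hξ.one hξ.zero hi hall
  have hb : IsTranscendenceBasis ℂ ![ξ j, ξ k] :=
    hind.isTranscendenceBasis_iff_isAlgebraic.mpr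
      (IntermediateField.isAlgebraic_adjoin_iff_top.mp halg2)
  obtain ⟨δ₁, h1⟩ := Pool.Agent.LowDeg.DerKAux.exists_der hb ![1, 0]
  obtain ⟨δ₂, h2⟩ := Pool.Agent.LowDeg.DerKAux.exists_der hb ![0, 1]
  have h11 : δ₁ (ξ j) = 1 := h1 0
  have h12 : δ₁ (ξ k) = 0 := h1 1
  have h21 : δ₂ (ξ j) = 0 := h2 0
  have h22 : δ₂ (ξ k) = 1 := h2 1
  have hker : ∀ D : Derivation ℤ ℂ ℂ, Kills κ D → ∀ c ∈ κ,
      cjD ρ D (algebraMap ℂ Ω c) = 0 := by
    intro D hD c hc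
    rw [cjD_apply, ← hρ c hc, ρ.symm_apply_apply, hD c hc, map_zero]
  have hcomb : ∀ D : Derivation ℤ ℂ ℂ, Kills κ D → ∀ u ∈ cloΩ κ ξ,
      cjD ρ D u = (cjD ρ D (ξ j) • δ₁ + cjD ρ D (ξ k) • δ₂) u := fun D hD u hu =>
    der_comb (cjD ρ D) (hker D hD) h11 h12 h21 h22
      (alg_cloΩ κ hFκ hξ.one hξ.zero hi hall hu)
  obtain ⟨E₁, hE₁⟩ : ∃ E : Derivation ℂ Ω Ω, ∀ u ∈ cloΩ κ ξ, cjD ρ D₁ u = E u :=
    ⟨_, hcomb D₁ h₁⟩
  obtain ⟨E₂, hE₂⟩ : ∃ E : Derivation ℂ Ω Ω, ∀ u ∈ cloΩ κ ξ, cjD ρ D₂ u = E u :=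
    ⟨_, hcomb D₂ h₂⟩
  have hξne : ξ ≠ 0 := fun h => by
    have := hξ.one
    rw [h] at this
    exact zero_ne_one this
  choose J hJ using fun i => (Pool.Agent.LowDeg.exists_isRes hF E₁ E₂ _ (hne i) (h0 i)).exists
  choose J' hJ' using fun i =>
    (Pool.Agent.LowDeg.exists_isRes hF E₁ E₂ _ (hne' i) (h0' i)).exists
  obtain ⟨J₀, hJ₀⟩ := (Pool.Agent.LowDeg.exists_isRes hF E₁ E₂ ξ hξne hξ.zero).exists
  have hfin := acts_scaled hd hF Γ Γ' hm ht hX ht' hX' E₁ E₂ hf hJ hJ' hJ₀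
  have hT : effT Γ (Projectivization.mk ℂ z hz) =
      ∑ i, Finsupp.single (mkP (fun j => ρ.symm ((x i j : cloΩ κ ξ) : Ω))) (1 : ℚ) := by
    rw [effT_eq Γ hxs]
    exact cycQ_univ _ _ hxF
  have hT' : effT Γ' (Projectivization.mk ℂ z hz) =
      ∑ i, Finsupp.single (mkP (fun j => ρ.symm ((x' i j : cloΩ κ ξ) : Ω))) (1 : ℚ) := by
    rw [effT_eq Γ' hxs']
    exact cycQ_univ _ _ hxF'
  rw [map_sub, hT, hT', tauC_cyc hd hF hFκ hρ h₁ h₂ hf hfκ hne h0
    (fun i j => hE₁ _ (x i j).2) (fun i j => hE₂ _ (x i j).2) hJ,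
    tauC_cyc hd hF hFκ hρ h₁ h₂ hf hfκ hne' h0'
    (fun i j => hE₁ _ (x' i j).2) (fun i j => hE₂ _ (x' i j).2) hJ', ← map_sub, hfin]
  have hzξ : (fun i => ρ.symm (ξ i)) = z := funext fun i => by
    rw [← hρξ i, ρ.symm_apply_apply]
  have hR := isResC_of hFκ hρ (fun i => hE₁ _ (xi_mem_cloΩ κ ξ i))
    (fun i => hE₂ _ (xi_mem_cloΩ κ ξ i)) hJ₀
  rw [hzξ] at hR
  have hzF : aeval z F = 0 := by
    rw [← hzξ, symm_aeval hρ hFκ, hξ.zero, map_zero]
  rw [tau_eq hd hF hFκ h₁ h₂ hz hzF hf hR, map_mul, map_mul, ← hρ m hmκ, ρ.symm_apply_apply,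
    ← symm_aeval hρ hfκ, hzξ]

theorem tauC_sum (F : MvPolynomial (Fin 4) ℂ) (D₁ D₂ : Derivation ℤ ℂ ℂ) {ι : Type}
    (s : Finset ι) (c : ι → ℂ) (f : ι → MvPolynomial (Fin 4) ℂ) (z : Cy) :
    tauC F D₁ D₂ (∑ i ∈ s, C (c i) * f i) z = ∑ i ∈ s, c i * tauC F D₁ D₂ (f i) z := by
  induction z using Finsupp.induction_linear with
  | zero => simp
  | add z z' h h' =>
    rw [map_add, h, h', ← Finset.sum_add_distrib]
    exact Finset.sum_congr rfl fun i _ => by rw [map_add, mul_add]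
  | single p q =>
    unfold tauC
    rw [Finsupp.linearCombination_single, tau_sum, Finset.smul_sum]
    refine Finset.sum_congr rfl fun i _ => ?_
    rw [Finsupp.linearCombination_single, mul_smul_comm]

end EffTauAux

open EffTauAux

variable {Ω : Type} [Field Ω] [Algebra ℂ Ω] [IsAlgClosed Ω] {F : MvPolynomial (Fin 4) ℂ} {d : ℕ}

/-- the action of a correspondence on two-forms, at a generic point -/
theorem effT_tau (hd : 4 ≤ d) (hF : IsSmoothForm F d) {ξ : Fin 4 → Ω}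
    (hξ : IsGenericPoint F ξ) (K : Fl) [Countable K] (hFK : Coef K F) {w w' : ℕ}
    (Γ : EffCorr F ξ w) (Γ' : EffCorr F ξ w') (hΓ : CoefE (clo K) Γ) (hΓ' : CoefE (clo K) Γ')
    {m : ℂ} (hm : ActsByScalar F (d - 4) Γ Γ' m) :
    ∀ y ∈ Gen K F, ∀ D₁ D₂ : Derivation ℤ ℂ ℂ, Kills K D₁ → Kills K D₂ →
      ∀ f : MvPolynomial (Fin 4) ℂ, f.IsHomogeneous (d - 4) →
        tauC F D₁ D₂ f (effT Γ y - effT Γ' y) = m * tau F D₁ D₂ f y := by
  intro y hy D₁ D₂ h₁ h₂ f hf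
  rw [← gen_clo hd hF K hFK] at hy
  have hmon : f = ∑ e ∈ f.support, C (coeff e f) * monomial e (1 : ℂ) := by
    conv_lhs => rw [f.as_sum]
    exact Finset.sum_congr rfl fun e _ => by rw [C_mul_monomial, mul_one]
  rw [hmon, tauC_sum, tau_sum, Finset.mul_sum]
  refine Finset.sum_congr rfl fun e he => ?_
  rw [effT_tau_aux hd hF hξ (clo K) (clo_clo K) (hFK.mono (le_clo K)) Γ Γ' hΓ hΓ' hm hy D₁ D₂
    (kills_clo h₁) (kills_clo h₂) (monomial e 1) ?_ ?_]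
  · ring
  · refine isHomogeneous_monomial _ ?_
    by_contra h
    exact (mem_support_iff.1 he) (hf.coeff_eq_zero h)
  · intro e'
    rw [coeff_monomial]
    split_ifs
    · exact one_mem _
    · exact zero_mem _

end Pool.Agent.VGS
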