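import Pool.Agent.VGS.Aut
import Pool.Agent.VGS.Trd
import Pool.Agent.LowDeg.Exists

/-! Module GenP: generic points. -/

set_option autoImplicit false

open scoped LinearAlgebra.Projectivization
open MvPolynomial

namespace Pool.Agent.VGS

open Pool.Agent.LowDeg (surf IsSmoothForm)

/-! ### elimination -/

/-- elimination of the variable of `S[X]` modulo a prime polynomial of positive degree -/
theorem gp_elim_poly {S : Type} [CommRing S] [IsDomain S] {f g : Polynomial S} (hf : Prime f)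
    (hfg : ¬ f ∣ g) :
    ∃ (h : Polynomial S) (r : S), r ≠ 0 ∧ f ∣ g * h - Polynomial.C r := by
  have : IsDomain (AdjoinRoot f) := AdjoinRoot.isDomain_of_prime hf
  have hg0 : AdjoinRoot.mk f g ≠ 0 := by rwa [Ne, AdjoinRoot.mk_eq_zero]
  have halg : IsAlgebraic S (AdjoinRoot.mk f g) := by
    have h1 : AdjoinRoot.root f ∈ Subalgebra.algebraicClosure S (AdjoinRoot f) :=
      AdjoinRoot.isAlgebraic_root hf.ne_zero
    have h2 : Algebra.adjoin S {AdjoinRoot.root f} ≤
        Subalgebra.algebraicClosure S (AdjoinRoot f) :=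
      Algebra.adjoin_le (by simpa using h1)
    rw [AdjoinRoot.adjoinRoot_eq_top] at h2
    exact h2 trivial
  obtain ⟨r, hr, q, hq⟩ := halg.exists_nonzero_dvd (mem_nonZeroDivisors_of_ne_zero hg0)
  obtain ⟨h, rfl⟩ := AdjoinRoot.mk_surjective q
  refine ⟨h, r, hr, ?_⟩
  rw [← AdjoinRoot.mk_eq_mk, map_mul, ← hq, AdjoinRoot.mk_C]
  rfl

/-- elimination of the variable `X l` -/
theorem gp_elim_var {R : Type} [Field R] (l : Fin 4) {F G : MvPolynomial (Fin 4) R}
    (hF : Irreducible F) (hFG : ¬ F ∣ G) :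
    ∃ (h : MvPolynomial (Fin 4) R) (r : MvPolynomial {m // m ≠ l} R), r ≠ 0 ∧
      F ∣ G * h - rename Subtype.val r := by
  let e : MvPolynomial (Fin 4) R ≃ₐ[R] Polynomial (MvPolynomial {m // m ≠ l} R) :=
    (renameEquiv R (Equiv.optionSubtypeNe l).symm).trans (optionEquivLeft R _)
  have he : ∀ r : MvPolynomial {m // m ≠ l} R, e (rename Subtype.val r) = Polynomial.C r := by
    intro r
    have h1 : (e.toAlgHom.comp (rename (R := R) (Subtype.val : {m // m ≠ l} → Fin 4))) =
        Polynomial.CAlgHom := by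
      apply MvPolynomial.algHom_ext
      intro m
      have h2 : (Equiv.optionSubtypeNe l).symm m.1 = some m := by
        rw [Equiv.optionSubtypeNe_symm_apply, dif_neg m.2]
      simp [e, h2]
    exact DFunLike.congr_fun h1 r
  have hpe : Prime (e F) := (MulEquiv.prime_iff e.toMulEquiv).2 hF.prime
  obtain ⟨h, r, hr, q, hq⟩ := gp_elim_poly (f := e F) (g := e G) hpe
    (fun h => hFG ((map_dvd_iff e).1 h))
  refine ⟨e.symm h, r, hr, ?_⟩
  rw [← map_dvd_iff e, map_sub, map_mul, he, e.apply_symm_apply]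
  exact ⟨q, hq⟩

/-- polynomials with coefficients in `L` -/
theorem gp_coef_lift {L : Fl} {ι : Type} {G : MvPolynomial ι ℂ} (hG : Coef L G) :
    ∃ G' : MvPolynomial ι L, MvPolynomial.map (algebraMap L ℂ) G' = G := by
  have : G ∈ Set.range (MvPolynomial.map (σ := ι) (algebraMap L ℂ)) := by
    rw [MvPolynomial.mem_range_map_iff_coeffs_subset]
    intro c hc
    obtain ⟨m, -, rfl⟩ := MvPolynomial.mem_coeffs_iff.1 hc
    exact ⟨⟨_, hG m⟩, rfl⟩
  exact this

theorem gp_coef_map {L : Fl} {ι : Type} (G : MvPolynomial ι L) :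
    Coef L (MvPolynomial.map (algebraMap L ℂ) G) := fun m => by
  rw [MvPolynomial.coeff_map]; exact (coeff m G).2

theorem gp_irreducible_lift {L : Fl} {ι : Type} {G : MvPolynomial ι L}
    (hG : Irreducible (MvPolynomial.map (algebraMap L ℂ) G)) : Irreducible G := by
  have hu : ∀ a : MvPolynomial ι L, IsUnit (MvPolynomial.map (algebraMap L ℂ) a) → IsUnit a := by
    intro a ha
    rw [isUnit_iff_totalDegree_of_isReduced] at ha ⊢
    refine ⟨?_, ?_⟩
    · rw [isUnit_iff_ne_zero]
      intro h0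
      apply ha.1.ne_zero
      rw [coeff_map, h0, map_zero]
    · rw [totalDegree_eq_zero_iff_eq_C] at ha ⊢
      apply MvPolynomial.map_injective _ (algebraMap L ℂ).injective
      rw [ha.2, map_C, coeff_map]
  refine ⟨fun h => hG.not_isUnit (h.map _), fun a b hab => ?_⟩
  have h1 : MvPolynomial.map (algebraMap L ℂ) G =
      MvPolynomial.map (algebraMap L ℂ) a * MvPolynomial.map (algebraMap L ℂ) b := by
    rw [hab, map_mul]
  rcases hG.isUnit_or_isUnit h1 with h | h
  · exact Or.inl (hu a h)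
  · exact Or.inr (hu b h)

/-- three coordinates of a common zero of `F` and `G` are dependent -/
theorem gp_dep_of_zero {L : Fl} {F G : MvPolynomial (Fin 4) ℂ} (hF : Irreducible F)
    (hFL : Coef L F) (hGL : Coef L G) (hFG : ¬ F ∣ G) {z : Fin 4 → ℂ} (hz : aeval z F = 0)
    (hz' : aeval z G = 0) (l : Fin 4) :
    ¬ AlgebraicIndependent L (fun m : {m // m ≠ l} => z m) := by
  intro hai
  obtain ⟨F', rfl⟩ := gp_coef_lift hFL
  obtain ⟨G', rfl⟩ := gp_coef_lift hGL
  obtain ⟨h, r, hr, hd⟩ := gp_elim_var l (gp_irreducible_lift hF)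
    (fun h => hFG (map_dvd (MvPolynomial.map (algebraMap L ℂ)) h) : ¬ F' ∣ G')
  rw [aeval_map_algebraMap] at hz hz'
  have h1 := map_dvd (aeval (R := L) z) hd
  rw [hz, zero_dvd_iff, map_sub, map_mul, hz', zero_mul, zero_sub, neg_eq_zero,
    aeval_rename] at h1
  exact hr ((algebraicIndependent_iff.1 hai) r h1)


/-! ### the forms -/

theorem gp_aeval_e {e : ℕ} {P : MvPolynomial (Fin 4) ℂ} (hP : P.IsHomogeneous e) (l : Fin 4)
    (h0 : coeff (Finsupp.single l e) P = 0) :
    aeval (Pi.single l (1 : ℂ) : Fin 4 → ℂ) P = 0 := by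
  rw [aeval_def, eval₂_eq']
  refine Finset.sum_eq_zero fun m hm => ?_
  have h1 : m.degree = e := by
    by_contra h
    exact (mem_support_iff.mp hm) (hP.coeff_eq_zero h)
  have h2 : ∃ i, i ≠ l ∧ m i ≠ 0 := by
    by_contra hcon
    push Not at hcon
    have h3 : m = Finsupp.single l e := by
      have h4 : m = Finsupp.single l (m l) := by
        ext i
        by_cases hi : i = l
        · subst hi; simp
        · rw [hcon i hi, Finsupp.single_eq_of_ne hi]
      rw [h4, Finsupp.degree_single] at h1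
      rw [h4, h1]
    exact (mem_support_iff.mp hm) (h3 ▸ h0)
  obtain ⟨i, hi, hmi⟩ := h2
  rw [Finset.prod_eq_zero (Finset.mem_univ i), mul_zero]
  rw [Pi.single_eq_of_ne hi, zero_pow hmi]

/-- a smooth form contains all variables -/
theorem gp_mem_vars_of_smooth {F : MvPolynomial (Fin 4) ℂ} {d : ℕ} (hd : 2 ≤ d)
    (hF : IsSmoothForm F d) (l : Fin 4) : l ∈ F.vars := by
  by_contra hl
  have h1 : ∀ m, m l ≠ 0 → coeff m F = 0 := by
    intro m hm
    by_contra h
    exact hl ((mem_vars_iff_mem_support l).2 ⟨m, mem_support_iff.2 h, Finsupp.mem_support_iff.2 hm⟩)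
  have h2 : (Pi.single l (1 : ℂ) : Fin 4 → ℂ) ≠ 0 := by
    intro h
    have := congrFun h l
    simp at this
  obtain ⟨i, hi⟩ := hF.smooth _ h2 (gp_aeval_e hF.hom l (h1 _ (by simp; omega)))
  apply hi
  apply gp_aeval_e hF.hom.pderiv l
  rw [coeff_pderiv, h1, zero_mul]
  simp
  omega

variable {F : MvPolynomial (Fin 4) ℂ} {d : ℕ}

/-! ### scaling -/

theorem gp_card_ne (l : Fin 4) : Nat.card {m : Fin 4 // m ≠ l} = 3 := by
  rw [Nat.card_eq_fintype_card]
  fin_cases l <;> rfl

theorem ai_single {L : Fl} {t : ℂ} : AlgebraicIndependent L ![t] ↔ t ∉ clo L := by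
  rw [algebraicIndependent_unique_type_iff, mem_clo]
  rfl

theorem gp_ai_swap {L : Fl} {x y : ℂ} (h : AlgebraicIndependent L ![x, y]) :
    AlgebraicIndependent L ![y, x] := by
  rw [← algebraicIndependent_equiv' (Equiv.swap (0 : Fin 2) 1) (f := ![x, y]) (g := ![y, x])] at h
  · exact h
  · ext i
    fin_cases i <;> rfl

theorem ai_pair {L : Fl} {x y : ℂ} :
    AlgebraicIndependent L ![x, y] ↔ x ∉ clo L ∧ y ∉ clo (adj L {x}) := by
  have h : AlgebraicIndependent L ![x, y] ↔ AlgebraicIndependent L (Sum.elim ![x] ![y]) := by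
    rw [← algebraicIndependent_equiv' (finSumFinEquiv (m := 1) (n := 1)) (f := ![x, y])
      (g := Sum.elim ![x] ![y])]
    ext (i | i) <;> fin_cases i <;> rfl
  rw [h, ai_sum, ai_single, ai_single]
  have : Set.range ![x] = {x} := by
    ext a
    simp [eq_comm]
  rw [this]

theorem gp_ai_scale {L : Fl} {z : Fin 4 → ℂ} {i j k l : Fin 4} (hzi : z i = 1) (hil : i ≠ l)
    (hjl : j ≠ l) (hkl : k ≠ l) (hall : ∀ m, m ≠ l → m = i ∨ m = j ∨ m = k) {t : ℂ}
    (ht : t ∉ clo (adj L (Set.range z))) :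
    AlgebraicIndependent L (fun m : {m : Fin 4 // m ≠ l} => t * z m) ↔
      AlgebraicIndependent L ![z j, z k] := by
  have ht0 : t ≠ 0 := fun h => ht (h ▸ zero_mem _)
  constructor
  · intro h
    have h1 : AlgebraicIndependent L (Sum.elim ![z j, z k] ![t]) := by
      refine ai_card h (y := Sum.elim ![z j, z k] ![t]) ?_ ?_
      · rw [gp_card_ne]
        simp
      · intro m
        have ht' : t ∈ adj L (Set.range (Sum.elim ![z j, z k] ![t])) :=
          subset_adj _ _ ⟨Sum.inr 0, rfl⟩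
        have hj' : z j ∈ adj L (Set.range (Sum.elim ![z j, z k] ![t])) :=
          subset_adj _ _ ⟨Sum.inl 0, rfl⟩
        have hk' : z k ∈ adj L (Set.range (Sum.elim ![z j, z k] ![t])) :=
          subset_adj _ _ ⟨Sum.inl 1, rfl⟩
        apply le_clo
        rcases hall m.1 m.2 with h | h | h
        · rw [h, hzi, mul_one]; exact ht'
        · rw [h]; exact mul_mem ht' hj'
        · rw [h]; exact mul_mem ht' hk'
    exact (ai_sum.1 h1).1
  · intro h
    have h1 : AlgebraicIndependent L (Sum.elim ![z j, z k] ![t]) := by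
      refine ai_sum.2 ⟨h, ai_single.2 fun h2 => ht (clo_mono (adj_le (le_adj _ _) ?_) h2)⟩
      rintro _ ⟨a, rfl⟩
      apply subset_adj
      fin_cases a
      · exact ⟨j, rfl⟩
      · exact ⟨k, rfl⟩
    refine ai_card h1 (y := fun m : {m : Fin 4 // m ≠ l} => t * z m) ?_ ?_
    · rw [gp_card_ne]
      simp
    · have hm : ∀ m, m ≠ l → t * z m ∈
          adj L (Set.range fun m : {m : Fin 4 // m ≠ l} => t * z m) :=
        fun m hm => subset_adj _ _ ⟨⟨m, hm⟩, rfl⟩
      have ht' : t ∈ adj L (Set.range fun m : {m : Fin 4 // m ≠ l} => t * z m) := by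
        have := hm i hil
        rwa [hzi, mul_one] at this
      have hz : ∀ m, m ≠ l → z m ∈ adj L (Set.range fun m : {m : Fin 4 // m ≠ l} => t * z m) := by
        intro m h
        have h2 := div_mem (hm m h) ht'
        rwa [mul_div_cancel_left₀ _ ht0] at h2
      rintro (a | a)
      · fin_cases a
        · exact le_clo _ (hz j hjl)
        · exact le_clo _ (hz k hkl)
      · fin_cases a
        exact le_clo _ ht'

theorem gp_ai_full {L : Fl} {z : Fin 4 → ℂ} {i : Fin 4} (hzi : z i = 1) {t : ℂ}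
    (ht : t ∉ clo (adj L (Set.range z)))
    (h : AlgebraicIndependent L (fun m : {m : Fin 4 // m ≠ i} => z m)) :
    AlgebraicIndependent L (fun m : Fin 4 => t * z m) := by
  have ht0 : t ≠ 0 := fun h => ht (h ▸ zero_mem _)
  have h1 : AlgebraicIndependent L (Sum.elim (fun m : {m : Fin 4 // m ≠ i} => z m) ![t]) := by
    refine ai_sum.2 ⟨h, ai_single.2 fun h2 => ht (clo_mono (adj_le (le_adj _ _) ?_) h2)⟩
    rintro _ ⟨a, rfl⟩
    exact subset_adj _ _ ⟨a.1, rfl⟩
  refine ai_card h1 (y := fun m : Fin 4 => t * z m) ?_ ?_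
  · rw [Nat.card_sum, gp_card_ne]
    simp
  · have hm : ∀ m, t * z m ∈ adj L (Set.range fun m : Fin 4 => t * z m) :=
      fun m => subset_adj _ _ ⟨m, rfl⟩
    have ht' : t ∈ adj L (Set.range fun m : Fin 4 => t * z m) := by
      have := hm i
      rwa [hzi, mul_one] at this
    rintro (a | a)
    · have h2 := div_mem (hm a) ht'
      rw [mul_div_cancel_left₀ _ ht0] at h2
      exact le_clo _ h2
    · fin_cases a
      exact le_clo _ ht'

/-- the homogeneous components of a polynomial which vanishes at a scaled point -/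
theorem gp_comp_zero {L : Fl} {z : Fin 4 → ℂ} {t : ℂ} (ht : t ∉ clo (adj L (Set.range z)))
    {G : MvPolynomial (Fin 4) ℂ} (hG : Coef L G) (h : aeval (fun m => t * z m) G = 0) (e : ℕ) :
    aeval z (homogeneousComponent e G) = 0 := by
  have hmem : ∀ n, aeval z (homogeneousComponent n G) ∈ adj L (Set.range z) := by
    intro n
    rw [aeval_def, eval₂_eq']
    refine sum_mem fun m _ => mul_mem ?_
      (prod_mem fun i _ => pow_mem (subset_adj L (Set.range z) ⟨i, rfl⟩) _)
    apply le_adj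
    rw [Algebra.algebraMap_self_apply, coeff_homogeneousComponent]
    split_ifs
    · exact hG m
    · exact zero_mem _
  let q : Polynomial ℂ := ∑ n ∈ Finset.range (G.totalDegree + 1),
    Polynomial.C (aeval z (homogeneousComponent n G)) * Polynomial.X ^ n
  have hq : ∀ n, q.coeff n = if n ∈ Finset.range (G.totalDegree + 1) then
      aeval z (homogeneousComponent n G) else 0 := by
    intro n
    simp only [q, Polynomial.finsetSum_coeff, Polynomial.coeff_C_mul, Polynomial.coeff_X_pow]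
    simp only [mul_ite, mul_one, mul_zero]
    rw [Finset.sum_ite_eq]
  have hq0 : q = 0 := by
    by_contra hne
    apply ht
    rw [mem_clo_iff_exists]
    refine ⟨q, hne, fun n => ?_, ?_⟩
    · rw [hq]
      split_ifs
      · exact hmem n
      · exact zero_mem _
    · have h1 : aeval (fun m => t * z m) G = ∑ n ∈ Finset.range (G.totalDegree + 1),
          t ^ n * aeval z (homogeneousComponent n G) := by
        conv_lhs => rw [← sum_homogeneousComponent G]
        rw [map_sum]
        refine Finset.sum_congr rfl fun n _ => ?_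
        exact aeval_scale (homogeneousComponent_isHomogeneous n G) (fun i => rfl)
      rw [← h, h1]
      simp only [q, Polynomial.eval_finsetSum, Polynomial.eval_mul, Polynomial.eval_C,
        Polynomial.eval_pow, Polynomial.eval_X]
      exact Finset.sum_congr rfl fun n _ => mul_comm _ _
  by_cases he : e ∈ Finset.range (G.totalDegree + 1)
  · have := hq e
    rw [if_pos he, hq0, Polynomial.coeff_zero] at this
    exact this.symm
  · rw [Finset.mem_range, not_lt] at he
    rw [homogeneousComponent_eq_zero _ _ (by omega), map_zero]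

theorem gp_coef_comp {L : Fl} {G : MvPolynomial (Fin 4) ℂ} (hG : Coef L G) (e : ℕ) :
    Coef L (homogeneousComponent e G) := by
  intro m
  rw [coeff_homogeneousComponent]
  split_ifs
  · exact hG m
  · exact zero_mem _

theorem gp_gen_iff_cone (hF : IsSmoothForm F d) {L : Fl} {z : Fin 4 → ℂ} (hz : z ≠ 0)
    (hzF : aeval z F = 0) {t : ℂ} (ht : t ∉ clo (adj L (Set.range z))) :
    (Projectivization.mk ℂ z hz : PP) ∈ Gen L F ↔
      ∀ G : MvPolynomial (Fin 4) ℂ, Coef L G → aeval (fun m => t * z m) G = 0 → F ∣ G := by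
  constructor
  · rintro ⟨-, h2⟩ G hG h0
    rw [← sum_homogeneousComponent G]
    refine Finset.dvd_sum fun e _ => ?_
    refine h2 e _ (homogeneousComponent_isHomogeneous e G) (gp_coef_comp hG e) ?_
    rw [mem_zero_mk (homogeneousComponent_isHomogeneous e G)]
    exact gp_comp_zero ht hG h0 e
  · intro h
    refine ⟨(mem_surf_mk hF.hom hz).2 hzF, fun e G hG hGL h0 => h G hGL ?_⟩
    rw [mem_zero_mk hG] at h0
    rw [aeval_scale hG (w := z) (a := t) (fun i => rfl), h0, mul_zero]

theorem gp_exists_far (L : Fl) [Countable L] (z : Fin 4 → ℂ) :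
    ∃ t : ℂ, t ∉ clo (adj L (Set.range z)) := exists_notMem _

theorem gp_gen_iff_cone_ai (hd : 4 ≤ d) (hF : IsSmoothForm F d) {L : Fl} (hFL : Coef L F)
    {z : Fin 4 → ℂ} (hz : z ≠ 0) (hzF : aeval z F = 0) {t : ℂ}
    (ht : t ∉ clo (adj L (Set.range z))) (l : Fin 4) :
    (Projectivization.mk ℂ z hz : PP) ∈ Gen L F ↔
      AlgebraicIndependent L (fun m : {m : Fin 4 // m ≠ l} => t * z m) := by
  rw [gp_gen_iff_cone hF hz hzF ht]
  constructor
  · intro h
    rw [ai_iff]
    intro P hP h0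
    by_contra hne
    obtain ⟨P', rfl⟩ := gp_coef_lift hP
    have h1 : F ∣ rename Subtype.val (MvPolynomial.map (algebraMap L ℂ) P') := by
      apply h
      · rw [← MvPolynomial.map_rename]
        exact gp_coef_map _
      · rw [aeval_rename]
        exact h0
    obtain ⟨Q, hQ⟩ := h1
    have h2 : rename (Subtype.val : {m : Fin 4 // m ≠ l} → Fin 4)
        (MvPolynomial.map (algebraMap L ℂ) P') ≠ 0 := by
      rw [Ne, map_eq_zero_iff _ (rename_injective _ Subtype.val_injective)]
      exact hne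
    have hF0 : F ≠ 0 := by rintro rfl; rw [zero_mul] at hQ; exact h2 hQ
    have hQ0 : Q ≠ 0 := by rintro rfl; rw [mul_zero] at hQ; exact h2 hQ
    have h3 := degreeOf_mul_eq (n := l) hF0 hQ0
    rw [← hQ] at h3
    have h4 : degreeOf l (rename (Subtype.val : {m : Fin 4 // m ≠ l} → Fin 4)
        (MvPolynomial.map (algebraMap L ℂ) P')) = 0 := by
      by_contra h5
      rw [← Ne, ← mem_vars_iff_degreeOf_ne_zero] at h5
      obtain ⟨m, -, hm⟩ := mem_vars_rename _ _ h5
      exact m.2 hm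
    have h6 := mem_vars_iff_degreeOf_ne_zero.1 (gp_mem_vars_of_smooth (by omega) hF l)
    omega
  · intro h G hG h0
    by_contra hne
    have hF0 : aeval (fun m => t * z m) F = 0 := by
      rw [aeval_scale hF.hom (w := z) (a := t) (fun i => rfl), hzF, mul_zero]
    exact gp_dep_of_zero (LowDeg.ExistsAux.irreducible_of_smooth (by omega) hF) hFL hG hne hF0 h0 l h

/-- the fourth index -/
theorem gp_exists_fourth {i j k : Fin 4} (hij : j ≠ i) (hik : k ≠ i) (hjk : j ≠ k) :
    ∃ l, i ≠ l ∧ j ≠ l ∧ k ≠ l ∧ (∀ m, m ≠ l → m = i ∨ m = j ∨ m = k) := by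
  revert i j k
  decide

theorem gp_exists_two (i : Fin 4) : ∃ j k : Fin 4, j ≠ i ∧ k ≠ i ∧ j ≠ k := by
  revert i
  decide

theorem gen_iff (hd : 4 ≤ d) (hF : IsSmoothForm F d) (L : Fl) [Countable L] (hFL : Coef L F)
    {z : Fin 4 → ℂ} (hz : z ≠ 0) (hzF : aeval z F = 0) {i j k : Fin 4} (hzi : z i = 1)
    (hij : j ≠ i) (hik : k ≠ i) (hjk : j ≠ k) :
    (Projectivization.mk ℂ z hz : PP) ∈ Gen L F ↔ AlgebraicIndependent L ![z j, z k] := by
  obtain ⟨t, ht⟩ := gp_exists_far L z
  obtain ⟨l, h1, h2, h3, h4⟩ := gp_exists_fourth hij hik hjk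
  rw [gp_gen_iff_cone_ai hd hF hFL hz hzF ht l, gp_ai_scale hzi h1 h2 h3 h4 ht]

/-- the affine coordinates of a point of the surface are dependent -/
theorem gp_ai_three (hd : 4 ≤ d) (hF : IsSmoothForm F d) (L : Fl) [Countable L] (hFL : Coef L F)
    {z : Fin 4 → ℂ} (hzF : aeval z F = 0) {i : Fin 4} (hzi : z i = 1) :
    ¬ AlgebraicIndependent L (fun m : {m : Fin 4 // m ≠ i} => z m) := by
  intro h
  obtain ⟨t, ht⟩ := gp_exists_far L z
  have h1 := ai_iff.1 (gp_ai_full hzi ht h) F hFL (by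
    rw [aeval_scale hF.hom (w := z) (a := t) (fun i => rfl), hzF, mul_zero])
  exact (LowDeg.ExistsAux.irreducible_of_smooth (by omega) hF).ne_zero h1

/-- a coordinate of a generic point is not zero -/
theorem gen_rep_ne (hd : 4 ≤ d) (hF : IsSmoothForm F d) {L : Fl} {p : PP} (hp : p ∈ Gen L F)
    (i : Fin 4) : p.rep i ≠ 0 := by
  intro h
  have h1 : F ∣ X i := by
    apply hp.2 1 (X i) (isHomogeneous_X _ _)
    · intro m
      classical
      rw [coeff_X]
      split_ifs
      · exact one_mem _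
      · exact zero_mem _
    · rw [aeval_X]; exact h
  obtain ⟨Q, hQ⟩ := h1
  have hF0 : F ≠ 0 := by rintro rfl; rw [zero_mul] at hQ; exact X_ne_zero i hQ
  have hQ0 : Q ≠ 0 := by rintro rfl; rw [mul_zero] at hQ; exact X_ne_zero i hQ
  have h3 := totalDegree_mul_of_isDomain hF0 hQ0
  rw [← hQ, totalDegree_X, hF.hom.totalDegree hF0] at h3
  omega

theorem gen_nrm (hd : 4 ≤ d) (hF : IsSmoothForm F d) {L : Fl} {p : PP} (hp : p ∈ Gen L F)
    (i : Fin 4) : ∃ (z : Fin 4 → ℂ) (hz : z ≠ 0), z i = 1 ∧ (∀ j, z j ≠ 0) ∧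
      p = Projectivization.mk ℂ z hz := by
  have h := gen_rep_ne hd hF hp
  have h1 : (fun j => p.rep j / p.rep i) i = 1 := div_self (h i)
  have hz : (fun j => p.rep j / p.rep i) ≠ 0 := fun h0 => by
    have h2 := congrFun h0 i
    exact one_ne_zero (h1.symm.trans h2)
  refine ⟨fun j => p.rep j / p.rep i, hz, h1, fun j => div_ne_zero (h j) (h i), ?_⟩
  refine (Projectivization.mk_rep p).symm.trans (mk_eq_mk_of_mul p.rep_nonzero hz
    (a := p.rep i) fun j => ?_)
  exact (mul_div_cancel₀ _ (h i)).symm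

/-- generic points are conjugate -/
theorem gen_conj (hd : 4 ≤ d) (hF : IsSmoothForm F d) (L : Fl) [Countable L] (hFL : Coef L F)
    {p q : PP} (hp : p ∈ Gen L F) (hq : q ∈ Gen L F) : ∃ σ ∈ Fix L, act σ p = q := by
  have _ := hFL
  obtain ⟨z, hz, hz0, -, rfl⟩ := gen_nrm hd hF hp 0
  obtain ⟨w, hw, hw0, -, rfl⟩ := gen_nrm hd hF hq 0
  obtain ⟨t, ht⟩ := gp_exists_far L z
  obtain ⟨s, hs⟩ := gp_exists_far L w
  have hzF := (mem_surf_mk hF.hom hz).1 hp.1
  have hwF := (mem_surf_mk hF.hom hw).1 hq.1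
  -- homogenise
  have key : ∀ (x : Fin 4 → ℂ), x 0 = 1 → ∀ P : MvPolynomial (Fin 4) ℂ,
      aeval x P = aeval x (∑ e ∈ Finset.range (P.totalDegree + 1),
        X 0 ^ (P.totalDegree - e) * homogeneousComponent e P) := by
    intro x hx P
    rw [map_sum]
    conv_lhs => rw [← sum_homogeneousComponent P, map_sum]
    refine Finset.sum_congr rfl fun e _ => ?_
    rw [map_mul, map_pow, aeval_X, hx, one_pow, one_mul]
  have hhom : ∀ P : MvPolynomial (Fin 4) ℂ, (∑ e ∈ Finset.range (P.totalDegree + 1),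
        X 0 ^ (P.totalDegree - e) * homogeneousComponent e P).IsHomogeneous P.totalDegree := by
    intro P
    refine IsHomogeneous.sum _ _ _ fun e he => ?_
    have h1 := ((isHomogeneous_X ℂ (0 : Fin 4)).pow (P.totalDegree - e)).mul
      (homogeneousComponent_isHomogeneous e P)
    rw [Finset.mem_range] at he
    have h2 : 1 * (P.totalDegree - e) + e = P.totalDegree := by omega
    rwa [h2] at h1
  have hcoef : ∀ P : MvPolynomial (Fin 4) ℂ, Coef L P → Coef L
      (∑ e ∈ Finset.range (P.totalDegree + 1),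
        X 0 ^ (P.totalDegree - e) * homogeneousComponent e P) := by
    intro P hP
    obtain ⟨P', rfl⟩ := gp_coef_lift hP
    have h1 : ∀ e, homogeneousComponent e (MvPolynomial.map (algebraMap L ℂ) P') =
        MvPolynomial.map (algebraMap L ℂ) (homogeneousComponent e P') := by
      intro e
      ext m
      rw [coeff_homogeneousComponent, coeff_map, coeff_map, coeff_homogeneousComponent]
      split_ifs
      · rfl
      · exact (map_zero _).symm
    have h2 : (∑ e ∈ Finset.range ((MvPolynomial.map (algebraMap L ℂ) P').totalDegree + 1),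
        X 0 ^ ((MvPolynomial.map (algebraMap L ℂ) P').totalDegree - e) *
          homogeneousComponent e (MvPolynomial.map (algebraMap L ℂ) P')) =
        MvPolynomial.map (algebraMap L ℂ)
          (∑ e ∈ Finset.range ((MvPolynomial.map (algebraMap L ℂ) P').totalDegree + 1),
        X 0 ^ ((MvPolynomial.map (algebraMap L ℂ) P').totalDegree - e) *
          homogeneousComponent e P') := by
      rw [map_sum]
      refine Finset.sum_congr rfl fun e _ => ?_
      rw [h1, map_mul, map_pow, map_X]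
    rw [h2]
    exact gp_coef_map _
  have hone : ∀ (x y : Fin 4 → ℂ) (hx : x ≠ 0) (hy : y ≠ 0), x 0 = 1 → y 0 = 1 →
      (Projectivization.mk ℂ x hx : PP) ∈ Gen L F → aeval y F = 0 →
      ∀ P : MvPolynomial (Fin 4) ℂ, Coef L P → aeval x P = 0 → aeval y P = 0 := by
    intro x y hx hy hx0 hy0 hg hyF P hP h0
    rw [key x hx0] at h0
    have h1 := hg.2 _ _ (hhom P) (hcoef P hP) ((mem_zero_mk (hhom P) hx).2 h0)
    obtain ⟨Q, hQ⟩ := h1
    rw [key y hy0, hQ, map_mul, hyF, zero_mul]
  obtain ⟨σ, hσ, h⟩ := exists_fix L z w (fun P hP =>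
    ⟨hone z w hz hw hz0 hw0 hp hwF P hP, hone w z hw hz hw0 hz0 hq hzF P hP⟩)
  refine ⟨σ, hσ, ?_⟩
  rw [act_mk σ z hz (map_ne_zero' σ hz)]
  congr 1
  exact funext h

theorem gen_clo (hd : 4 ≤ d) (hF : IsSmoothForm F d) (L : Fl) [Countable L] (hFL : Coef L F) :
    Gen (clo L) F = Gen L F := by
  apply Set.Subset.antisymm (Gen_anti (le_clo L) F)
  intro p hp
  obtain ⟨z, hz, hz0, -, rfl⟩ := gen_nrm hd hF hp 0
  have hzF := (mem_surf_mk hF.hom hz).1 hp.1
  rw [gen_iff hd hF L hFL hz hzF hz0 (j := 1) (k := 2) (by decide) (by decide) (by decide)] at hp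
  rw [gen_iff hd hF (clo L) (hFL.mono (le_clo L)) hz hzF hz0 (j := 1) (k := 2) (by decide)
    (by decide) (by decide)]
  exact ai_clo.2 hp

/-- a field over which all coordinates of `z` are algebraic -/
theorem gp_clo_adj_le {L L' : Fl} (h : L ≤ clo L') {S : Set ℂ} (hS : ∀ x ∈ S, x ∈ clo L') :
    clo (adj L S) ≤ clo L' := by
  rw [← clo_clo L']
  exact clo_mono (adj_le h hS)

/-- two independent affine coordinates -/
theorem gen_of_algInd (hd : 4 ≤ d) (hF : IsSmoothForm F d) (L : Fl) [Countable L]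
    (hFL : Coef L F) {z : Fin 4 → ℂ} (hz : z ≠ 0) (hzF : aeval z F = 0) {i : Fin 4} (hzi : z i = 1)
    {x y : ℂ} (hx : x ∈ clo (adj L (Set.range z))) (hy : y ∈ clo (adj L (Set.range z)))
    (h : AlgebraicIndependent L ![x, y]) : Projectivization.mk ℂ z hz ∈ Gen L F := by
  by_contra hng
  have hpair : ∀ j k, j ≠ i → k ≠ i → j ≠ k → ¬ AlgebraicIndependent L ![z j, z k] :=
    fun j k hj hk hjk h => hng ((gen_iff hd hF L hFL hz hzF hzi hj hk hjk).2 h)
  have hw : ∃ w, ∀ m, z m ∈ clo (adj L {w}) := by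
    by_cases hall : ∀ m, z m ∈ clo L
    · exact ⟨0, fun m => clo_mono (le_adj _ _) (hall m)⟩
    · push Not at hall
      obtain ⟨j, hj⟩ := hall
      refine ⟨z j, fun m => ?_⟩
      by_cases hmj : m = j
      · subst hmj; exact le_clo _ (subset_adj _ _ rfl)
      by_cases hmi : m = i
      · subst hmi; rw [hzi]; exact one_mem _
      have hji : j ≠ i := by rintro rfl; exact hj (hzi ▸ one_mem _)
      by_contra hm
      exact hpair j m hji hmi (Ne.symm hmj) (ai_pair.2 ⟨hj, hm⟩)
  obtain ⟨w, hw⟩ := hw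
  have h1 : AlgebraicIndependent L ![w, 0] := by
    have h2 : clo (adj L (Set.range z)) ≤ clo (adj L (Set.range ![w, 0])) := by
      refine gp_clo_adj_le ((le_adj _ _).trans (le_clo _)) ?_
      rintro _ ⟨m, rfl⟩
      refine clo_mono (adj_le (le_adj _ _) ?_) (hw m)
      rintro _ rfl
      exact subset_adj _ _ ⟨0, rfl⟩
    refine ai_card h (y := ![w, 0]) (by simp) ?_
    intro a
    fin_cases a
    · exact h2 hx
    · exact h2 hy
  exact (ai_pair.1 h1).2 (zero_mem _)

theorem gen_algInd (hd : 4 ≤ d) (hF : IsSmoothForm F d) (L : Fl) [Countable L]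
    (hFL : Coef L F) {z : Fin 4 → ℂ} (hz : z ≠ 0) {i : Fin 4} (hzi : z i = 1)
    (h : Projectivization.mk ℂ z hz ∈ Gen L F) :
    ∃ j k, j ≠ i ∧ k ≠ i ∧ j ≠ k ∧ AlgebraicIndependent L ![z j, z k] ∧
      ∀ l, z l ∈ clo (adj L {z j, z k}) := by
  obtain ⟨j, k, hj, hk, hjk⟩ := gp_exists_two i
  have hzF := (mem_surf_mk hF.hom hz).1 h.1
  have hai := (gen_iff hd hF L hFL hz hzF hzi hj hk hjk).1 h
  refine ⟨j, k, hj, hk, hjk, hai, fun l => ?_⟩
  by_contra hl
  have hr : Set.range ![z j, z k] = {z j, z k} := by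
    ext a
    simp [or_comm]
  have h1 : AlgebraicIndependent L (Sum.elim ![z j, z k] ![z l]) :=
    ai_sum.2 ⟨hai, ai_single.2 (by rw [hr]; exact hl)⟩
  have hli : l ≠ i := by rintro rfl; exact hl (hzi ▸ one_mem _)
  have h2 : ∀ m, m ≠ i → z m ∈ clo (adj L (Set.range fun m : {m : Fin 4 // m ≠ i} => z m)) :=
    fun m hm => le_clo _ (subset_adj _ _ ⟨⟨m, hm⟩, rfl⟩)
  refine gp_ai_three hd hF L hFL hzF hzi (ai_card h1 (y := fun m : {m : Fin 4 // m ≠ i} => z m) ?_ ?_)
  · rw [gp_card_ne]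
    simp
  · rintro (a | a)
    · fin_cases a
      · exact h2 j hj
      · exact h2 k hk
    · fin_cases a
      exact h2 l hli

/-- a point of the surface which is not generic is algebraic over one element -/
theorem not_gen (hd : 4 ≤ d) (hF : IsSmoothForm F d) (L : Fl) [Countable L] (hFL : Coef L F)
    {p : PP} (hp : p ∈ surf F) (hp' : p ∉ Gen L F) {w : ℂ} (hw : w ∈ adjP L p) (hw' : w ∉ clo L) :
    Over (clo (adj L {w})) p := by
  obtain ⟨z, hz, i, hzi, rfl⟩ := exists_nrm p
  rw [over_mk hz hzi]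
  rw [adjP_mk hz hzi] at hw
  intro j
  by_contra hj
  exact hp' (gen_of_algInd hd hF L hFL hz ((mem_surf_mk hF.hom hz).1 hp) hzi (le_clo _ hw)
    (le_clo _ (subset_adj _ _ ⟨j, rfl⟩)) (ai_pair.2 ⟨hw', hj⟩))

theorem gen_not_over (hd : 4 ≤ d) (hF : IsSmoothForm F d) (L : Fl) [Countable L]
    (hFL : Coef L F) {p : PP} (hp : p ∈ Gen L F) : ¬ Over (clo L) p := by
  obtain ⟨z, hz, hz0, -, rfl⟩ := gen_nrm hd hF hp 0
  obtain ⟨j, k, -, -, -, h, -⟩ := gen_algInd hd hF L hFL hz hz0 hp
  rw [over_mk hz hz0]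
  exact fun h1 => (ai_pair.1 h).1 (h1 j)

theorem gen_symm (hd : 4 ≤ d) (hF : IsSmoothForm F d) (L : Fl) [Countable L] (hFL : Coef L F)
    {p r : PP} (hp : p ∈ Gen L F) (hr : r ∈ Gen (clo (adjP L p)) F) :
    p ∈ Gen (clo (adjP L r)) F := by
  have hLp : L ≤ clo (adjP L p) := (le_adjP L p).trans (le_clo _)
  have hLr : L ≤ clo (adjP L r) := (le_adjP L r).trans (le_clo _)
  have hr' : r ∈ Gen L F := Gen_anti hLp F hr
  rw [gen_clo hd hF (adjP L p) (hFL.mono (le_adjP L p))] at hr
  rw [gen_clo hd hF (adjP L r) (hFL.mono (le_adjP L r))]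
  obtain ⟨z, hz, hz0, -, rfl⟩ := gen_nrm hd hF hp 0
  obtain ⟨w, hw, hw0, -, rfl⟩ := gen_nrm hd hF hr' 0
  have hzF := (mem_surf_mk hF.hom hz).1 hp.1
  obtain ⟨j, k, hj, hk, hjk, hai, -⟩ := gen_algInd hd hF L hFL hz hz0 hp
  obtain ⟨j', k', hj', hk', hjk', hai', hall'⟩ := gen_algInd hd hF L hFL hw hw0 hr'
  rw [gen_iff hd hF _ (hFL.mono (le_adjP L _)) hz hzF hz0 hj hk hjk]
  rw [gen_iff hd hF _ (hFL.mono (le_adjP L _)) hw ((mem_surf_mk hF.hom hw).1 hr'.1) hw0 hj' hk'
    hjk', adjP_mk hz hz0] at hr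
  rw [adjP_mk hw hw0]
  have h1 : AlgebraicIndependent (adj L (Set.range ![z j, z k])) ![w j', w k'] := by
    refine ai_mono (adj_le (le_adj _ _) ?_) hr
    rintro _ ⟨a, rfl⟩
    apply subset_adj
    fin_cases a
    · exact ⟨j, rfl⟩
    · exact ⟨k, rfl⟩
  have h2 : AlgebraicIndependent L (Sum.elim ![z j, z k] ![w j', w k']) := ai_sum.2 ⟨hai, h1⟩
  have h3 : AlgebraicIndependent L (Sum.elim ![w j', w k'] ![z j, z k]) := by
    rw [← algebraicIndependent_equiv' (Equiv.sumComm (Fin 2) (Fin 2))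
      (f := Sum.elim ![w j', w k'] ![z j, z k]) (g := Sum.elim ![z j, z k] ![w j', w k'])] at *
    · exact h2
    · ext (i | i) <;> rfl
  refine ai_mono_clo ?_ (ai_sum.1 h3).2
  refine adj_le ((le_adj _ _).trans (le_clo _)) ?_
  rintro _ ⟨a, rfl⟩
  have hr2 : Set.range ![w j', w k'] = {w j', w k'} := by
    ext a
    simp [or_comm]
  rw [hr2]
  exact hall' a

/-- an automorphism over `L` maps the algebraic closure of `L(p)` to that of `L(σ p)` -/
theorem gp_inv_mem_clo_adjP {L : Fl} {σ : ℂ ≃+* ℂ} (hσ : σ ∈ Fix L) {p : PP} {x : ℂ}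
    (hx : x ∈ clo (adjP L (act σ p))) : σ.symm x ∈ clo (adjP L p) := by
  obtain ⟨z, hz, i, hzi, rfl⟩ := exists_nrm p
  rw [act_mk σ z hz (map_ne_zero' σ hz), adjP_mk (map_ne_zero' σ hz) (i := i)
    (by rw [hzi, map_one])] at hx
  rw [adjP_mk hz hzi]
  have h1 : ∀ y ∈ adj L (Set.range fun i => σ (z i)), σ.symm y ∈ adj L (Set.range z) := by
    let M : Fl :=
      { (adj L (Set.range z)).toSubfield.comap (σ.symm : ℂ →+* ℂ) with
        algebraMap_mem' := fun r => by
          change σ.symm (algebraMap ℚ ℂ r) ∈ adj L (Set.range z)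
          have : σ.symm (algebraMap ℚ ℂ r) = algebraMap ℚ ℂ r := by simp
          rw [this]
          exact algebraMap_mem _ r }
    have h2 : adj L (Set.range fun i => σ (z i)) ≤ M := by
      apply adj_le
      · intro y hy
        change σ.symm y ∈ adj L (Set.range z)
        have h3 : σ.symm y = y := by
          rw [RingEquiv.symm_apply_eq, hσ y hy]
        rw [h3]
        exact le_adj _ _ hy
      · rintro _ ⟨j, rfl⟩
        change σ.symm (σ (z j)) ∈ adj L (Set.range z)
        rw [RingEquiv.symm_apply_apply]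
        exact subset_adj _ _ ⟨j, rfl⟩
    exact fun y hy => h2 hy
  rw [mem_clo_iff_exists] at hx ⊢
  obtain ⟨q, hq0, hq1, hq2⟩ := hx
  refine ⟨q.map (σ.symm : ℂ →+* ℂ), ?_, fun n => ?_, ?_⟩
  · exact (Polynomial.map_ne_zero_iff σ.symm.injective).2 hq0
  · rw [Polynomial.coeff_map]
    exact h1 _ (hq1 n)
  · have h3 := Polynomial.eval_map_apply (p := q) (σ.symm : ℂ →+* ℂ) x
    change Polynomial.eval ((σ.symm : ℂ →+* ℂ) x) _ = 0
    rw [h3, hq2, map_zero]

theorem gp_map_fix {L : Fl} (hFL : Coef L F) {σ : ℂ ≃+* ℂ} (hσ : σ ∈ Fix L) :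
    MvPolynomial.map (σ : ℂ →+* ℂ) F = F := by
  ext m
  rw [coeff_map]
  exact hσ _ (hFL m)

theorem gen_transport (hF : IsSmoothForm F d) {L : Fl} (hFL : Coef L F) {σ : ℂ ≃+* ℂ}
    (hσ : σ ∈ Fix L) {p r : PP} (hr : r ∈ Gen (clo (adjP L p)) F) :
    act σ r ∈ Gen (clo (adjP L (act σ p))) F := by
  refine ⟨(act_mem_surf hF.hom hFL hσ).2 hr.1, fun e G hG hGL h0 => ?_⟩
  have h1 : act σ r = Projectivization.mk ℂ (fun i => σ (r.rep i)) (map_ne_zero' σ r.rep_nonzero) :=
    rfl
  rw [h1, mem_zero_mk hG] at h0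
  have h2 : aeval r.rep (MvPolynomial.map (σ.symm : ℂ →+* ℂ) G) = 0 := by
    have h3 : aeval r.rep (MvPolynomial.map (σ.symm : ℂ →+* ℂ) G) =
        σ.symm (aeval (fun i => σ (r.rep i)) G) := by
      have h3' := MvPolynomial.eval₂_comp_left (σ.symm : ℂ →+* ℂ) (algebraMap ℂ ℂ)
        (fun i => σ (r.rep i)) G
      have h3'' : (⇑(σ.symm : ℂ →+* ℂ) ∘ fun i => σ (r.rep i)) = r.rep := by
        funext i
        simp
      rw [h3''] at h3'
      rw [aeval_def, aeval_def, eval₂_map]
      exact h3'.symm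
    rw [h3, h0, map_zero]
  have h4 : F ∣ MvPolynomial.map (σ.symm : ℂ →+* ℂ) G := by
    refine hr.2 e _ (hG.map _) (fun m => ?_) h2
    rw [coeff_map]
    exact gp_inv_mem_clo_adjP hσ (hGL m)
  have h5 := map_dvd (MvPolynomial.map (σ : ℂ →+* ℂ)) h4
  rw [gp_map_fix hFL hσ, MvPolynomial.map_map] at h5
  have h6 : (σ : ℂ →+* ℂ).comp (σ.symm : ℂ →+* ℂ) = RingHom.id ℂ := by
    ext x
    simp
  rwa [h6, MvPolynomial.map_id] at h5

/-- two independent generic points can be exchanged -/
theorem gen_swap (hd : 4 ≤ d) (hF : IsSmoothForm F d) (L : Fl) [Countable L] (hFL : Coef L F)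
    {p r : PP} (hp : p ∈ Gen L F) (hr : r ∈ Gen (clo (adjP L p)) F) :
    ∃ σ ∈ Fix (clo L), act σ p = r ∧ act σ r = p := by
  have hLp : L ≤ clo (adjP L p) := (le_adjP L p).trans (le_clo _)
  have hLr : L ≤ clo (adjP L r) := (le_adjP L r).trans (le_clo _)
  have hr' : r ∈ Gen L F := Gen_anti hLp F hr
  obtain ⟨σ, hσ, h1⟩ := gen_conj hd hF (clo L) (hFL.mono (le_clo L))
    ((gen_clo hd hF L hFL).symm ▸ hp) ((gen_clo hd hF L hFL).symm ▸ hr')
  have h2 := gen_transport hF hFL (Fix_mono (le_clo L) hσ) hr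
  rw [h1] at h2
  have h3 := gen_symm hd hF L hFL hp hr
  obtain ⟨τ, hτ, h4⟩ := gen_conj hd hF (clo (adjP L r)) (hFL.mono hLr) h2 h3
  refine ⟨τ * σ, mul_mem ?_ hσ, ?_, ?_⟩
  · exact Fix_mono (clo_mono (le_adjP L r)) hτ
  · rw [act_mul, h1]
    exact (over_adjP L r).act_eq (Fix_mono (le_clo _) hτ)
  · rw [act_mul, h4]

theorem exists_gen (hd : 4 ≤ d) (hF : IsSmoothForm F d) (L : Fl) [Countable L]
    (hFL : Coef L F) : ∃ p, p ∈ Gen L F := by
  obtain ⟨x, hx⟩ := exists_algInd L 2
  let w : ℂ → Fin 4 → ℂ := fun t => ![1, x 0, x 1, t]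
  have hw0 : ∀ t, w t ≠ 0 := fun t h => by simpa [w] using congrFun h 0
  -- a root
  have hroot : ∃ r, aeval (w r) F = 0 := by
    let q : Polynomial ℂ := aeval (![1, Polynomial.C (x 0), Polynomial.C (x 1), Polynomial.X] :
      Fin 4 → Polynomial ℂ) F
    have hq : ∀ t, Polynomial.eval t q = aeval (w t) F := by
      intro t
      have h1 := MvPolynomial.comp_aeval_apply
        (![1, Polynomial.C (x 0), Polynomial.C (x 1), Polynomial.X] : Fin 4 → Polynomial ℂ)
        (Polynomial.aeval t) F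
      have h2 : (fun i => Polynomial.aeval t ((![1, Polynomial.C (x 0), Polynomial.C (x 1),
          Polynomial.X] : Fin 4 → Polynomial ℂ) i)) = w t := by
        funext m
        fin_cases m <;> simp [w]
      rw [h2, Polynomial.coe_aeval_eq_eval] at h1
      exact h1
    by_cases hdeg : q.degree = 0
    · exfalso
      obtain ⟨t, ht⟩ := exists_notMem (clo (adj L (Set.range x)))
      have hconst : aeval (w t) F = aeval (w 0) F := by
        rw [← hq, ← hq, Polynomial.eq_C_of_degree_eq_zero hdeg, Polynomial.eval_C,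
          Polynomial.eval_C]
      obtain ⟨s, hs⟩ := gp_exists_far L (w t)
      have h1 : AlgebraicIndependent L (Sum.elim x ![t]) := ai_sum.2 ⟨hx, ai_single.2 ht⟩
      have h2 : AlgebraicIndependent L (fun m : {m : Fin 4 // m ≠ 0} => w t m) := by
        refine ai_card h1 ?_ ?_
        · rw [gp_card_ne]
          simp
        · have hm : ∀ m, m ≠ 0 → w t m ∈
              clo (adj L (Set.range fun m : {m : Fin 4 // m ≠ 0} => w t m)) :=
            fun m hm => le_clo _ (subset_adj _ _ ⟨⟨m, hm⟩, rfl⟩)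
          rintro (a | a)
          · fin_cases a
            · exact hm 1 (by decide)
            · exact hm 2 (by decide)
          · fin_cases a
            exact hm 3 (by decide)
      have h3 : AlgebraicIndependent L (fun m : Fin 4 => s * w t m) := gp_ai_full rfl hs h2
      let f : Fin 4 → MvPolynomial (Fin 4) ℂ := ![X 0, X 1, X 2, 0]
      have h4 : F - bind₁ f F = 0 := by
        apply ai_iff.1 h3
        · obtain ⟨F', rfl⟩ := gp_coef_lift hFL
          let f' : Fin 4 → MvPolynomial (Fin 4) L := ![X 0, X 1, X 2, 0]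
          have h5 : bind₁ f (MvPolynomial.map (algebraMap L ℂ) F') =
              MvPolynomial.map (algebraMap L ℂ) (bind₁ f' F') := by
            rw [MvPolynomial.map_bind₁]
            congr 1
            congr 1
            funext m
            fin_cases m <;> simp [f, f']
          rw [h5, ← map_sub]
          exact gp_coef_map _
        · have h6 : aeval (fun m => s * w t m) (bind₁ f F) = aeval (fun m => s * w 0 m) F := by
            rw [aeval_bind₁]
            congr 1
            congr 1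
            funext m
            fin_cases m <;> simp [f, w]
          rw [map_sub, h6, aeval_scale hF.hom (w := w t) (a := s) (fun i => rfl),
            aeval_scale hF.hom (w := w 0) (a := s) (fun i => rfl), hconst, sub_self]
      have h7 := gp_mem_vars_of_smooth (by omega) hF 3
      rw [sub_eq_zero.1 h4] at h7
      classical
      have h8 := vars_bind₁ f F h7
      rw [Finset.mem_biUnion] at h8
      obtain ⟨m, -, hm⟩ := h8
      fin_cases m <;> simp [f, vars_X] at hm
    · obtain ⟨r, hr⟩ := IsAlgClosed.exists_root q hdeg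
      exact ⟨r, by rw [← hq]; exact hr⟩
  obtain ⟨r, hr⟩ := hroot
  refine ⟨Projectivization.mk ℂ (w r) (hw0 r), ?_⟩
  rw [gen_iff hd hF L hFL (hw0 r) hr (i := 0) (j := 1) (k := 2) rfl (by decide) (by decide)
    (by decide)]
  have h9 : ![w r 1, w r 2] = x := by
    funext m
    fin_cases m <;> rfl
  rw [h9]
  exact hx

end Pool.Agent.VGS
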