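import Pool.Agent.VGS.Trd

/-! Module Smooth: forms with algebraically independent coefficients are smooth. -/

set_option autoImplicit false

open MvPolynomial

namespace Pool.Agent.VGS

open Pool.Agent.LowDeg (surf IsSmoothForm)

/-- algebraically independent numbers specialise to given rational numbers -/
theorem exists_val_rat {ι : Type} {a : ι → ℂ} (ha : AlgebraicIndependent ℚ a) (c : ι → ℚ) :
    ∃ V : ValuationSubring ℂ, (∀ q : ℚ, (q : ℂ) ∈ V) ∧ (∀ i, a i ∈ V) ∧
      ∀ i, V.valuation (a i - (c i : ℂ)) < 1 := by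
  let φ : MvPolynomial ι ℚ →ₐ[ℚ] ℂ := aeval a
  have hφ : Function.Injective φ := ha
  let ε : φ.range →ₐ[ℚ] ℚ := (aeval c).comp (AlgEquiv.ofInjective φ hφ).symm.toAlgHom
  have hε : ∀ P : MvPolynomial ι ℚ, ε ⟨φ P, ⟨P, rfl⟩⟩ = aeval c P := by
    intro P
    have h1 : (AlgEquiv.ofInjective φ hφ).symm ⟨φ P, ⟨P, rfl⟩⟩ = P := by
      rw [AlgEquiv.symm_apply_eq]
      rfl
    change aeval c ((AlgEquiv.ofInjective φ hφ).symm ⟨φ P, ⟨P, rfl⟩⟩) = _
    rw [h1]
  have hI : RingHom.ker (ε.toRingHom : φ.range.toSubring →+* ℚ) ≠ ⊤ := RingHom.ker_ne_top _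
  obtain ⟨V, hV, hV'⟩ := Ideal.image_subset_nonunits_valuationSubring
    (A := φ.range.toSubring) (RingHom.ker (ε.toRingHom : φ.range.toSubring →+* ℚ)) hI
  refine ⟨V, fun q => ?_, fun i => ?_, fun i => ?_⟩
  · refine hV (⟨C q, ?_⟩ : (q : ℂ) ∈ φ.range)
    change aeval a (C q) = (q : ℂ)
    rw [aeval_C]
    rfl
  · refine hV (⟨X i, ?_⟩ : a i ∈ φ.range)
    exact aeval_X a i
  · have h1 : φ (X i - C (c i)) = a i - (c i : ℂ) := by
      change aeval a (X i - C (c i)) = _
      rw [map_sub, aeval_X, aeval_C]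
      rfl
    have h2 : (a i - (c i : ℂ)) ∈ V.nonunits := by
      refine hV' ⟨⟨φ (X i - C (c i)), ⟨_, rfl⟩⟩, ?_, h1⟩
      change ε _ = 0
      rw [hε, map_sub, aeval_X, aeval_C]
      simp
    exact h2

theorem val_nat_le (V : ValuationSubring ℂ) (n : ℕ) : V.valuation (n : ℂ) ≤ 1 := by
  rw [V.valuation_le_one_iff]
  exact natCast_mem V n

theorem val_pderiv_lt (V : ValuationSubring ℂ) {H : MvPolynomial (Fin 4) ℂ}
    (hH : ∀ m, V.valuation (coeff m H) < 1) {y : Fin 4 → ℂ} (hy : ∀ i, V.valuation (y i) ≤ 1)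
    (i₀ : Fin 4) : V.valuation (aeval y (pderiv i₀ H)) < 1 := by
  have h1 : aeval y (pderiv i₀ H) = ∑ m ∈ H.support, coeff m H * ((m i₀ : ℕ) : ℂ) *
      ∏ i, y i ^ ((m - Finsupp.single i₀ 1 : Fin 4 →₀ ℕ) i) := by
    conv_lhs => rw [H.as_sum]
    rw [map_sum, map_sum]
    refine Finset.sum_congr rfl (fun m _ => ?_)
    rw [pderiv_monomial, aeval_monomial, Finsupp.prod_fintype _ _ (fun i => pow_zero _)]
    rfl
  rw [h1]
  refine Valuation.map_sum_lt _ one_ne_zero (fun m _ => ?_)
  have h2 : V.valuation (∏ i, y i ^ ((m - Finsupp.single i₀ 1 : Fin 4 →₀ ℕ) i)) ≤ 1 := by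
    rw [V.valuation_le_one_iff]
    refine prod_mem (fun i _ => pow_mem ?_ _)
    rw [← V.valuation_le_one_iff]
    exact hy i
  rw [map_mul, map_mul]
  have h3 := val_nat_le V (m i₀)
  have h4 := hH m
  refine lt_of_le_of_lt (mul_le_of_le_one_right' h2) ?_
  exact lt_of_le_of_lt (mul_le_of_le_one_right' h3) h4

/-- (specialise the coefficients to those of the Fermat form at a valuation ring of `ℂ`) -/
theorem smooth_of_algInd {F : MvPolynomial (Fin 4) ℂ} {d : ℕ} (hd : 1 ≤ d)
    (hF : F.IsHomogeneous d)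
    (hind : AlgebraicIndependent ℚ
      (fun m : {m : Fin 4 →₀ ℕ // m.degree = d} => coeff m.1 F)) : IsSmoothForm F d := by
  classical
  refine ⟨hF, fun x hx _ => ?_⟩
  by_contra hcon
  push Not at hcon
  let c : {m : Fin 4 →₀ ℕ // m.degree = d} → ℚ :=
    fun m => if ∃ i, m.1 = Finsupp.single i d then 1 else 0
  obtain ⟨V, hVq, -, hVc⟩ := exists_val_rat hind c
  -- the coordinate of largest valuation
  obtain ⟨i₀, -, hi₀⟩ := Finset.exists_max_image Finset.univ (fun i => V.valuation (x i))
    ⟨0, Finset.mem_univ _⟩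
  have hxi : x i₀ ≠ 0 := by
    intro h
    apply hx
    funext i
    have h1 := hi₀ i (Finset.mem_univ i)
    rw [h, map_zero] at h1
    have h2 : V.valuation (x i) = 0 := le_antisymm h1 zero_le
    rw [map_eq_zero] at h2
    exact h2
  set y : Fin 4 → ℂ := fun i => (x i₀)⁻¹ * x i with hy
  have hyV : ∀ i, V.valuation (y i) ≤ 1 := by
    intro i
    have h1 := hi₀ i (Finset.mem_univ i)
    have h2 : V.valuation (x i₀) ≠ 0 := by rwa [Valuation.ne_zero_iff]
    rw [hy]
    beta_reduce
    rw [map_mul, map_inv₀]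
    calc (V.valuation (x i₀))⁻¹ * V.valuation (x i) ≤
        (V.valuation (x i₀))⁻¹ * V.valuation (x i₀) := by gcongr
      _ = 1 := inv_mul_cancel₀ h2
  have hy1 : y i₀ = 1 := inv_mul_cancel₀ hxi
  -- the partial derivative vanishes at `y`
  have hdy : aeval y (pderiv i₀ F) = 0 := by
    have h1 : (pderiv i₀ F).IsHomogeneous (d - 1) := hF.pderiv
    have h2 : aeval y (pderiv i₀ F) = (x i₀)⁻¹ ^ (d - 1) * aeval x (pderiv i₀ F) :=
      aeval_scale h1 (fun i => rfl)
    rw [h2, hcon i₀, mul_zero]
  -- the Fermat form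
  set G : MvPolynomial (Fin 4) ℂ := ∑ i, X i ^ d with hG
  have hdG : aeval y (pderiv i₀ G) = (d : ℂ) := by
    rw [hG, map_sum, map_sum, Finset.sum_eq_single i₀]
    · rw [Derivation.leibniz_pow, pderiv_X_self]
      simp [hy1]
    · intro i _ hi
      rw [Derivation.leibniz_pow, pderiv_X_of_ne hi]
      simp
    · intro h
      exact absurd (Finset.mem_univ _) h
  have hcoef : ∀ m, V.valuation (coeff m (F - G)) < 1 := by
    intro m
    by_cases hm : m.degree = d
    · have h1 : coeff m G = (c ⟨m, hm⟩ : ℂ) := by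
        rw [hG, coeff_sum]
        simp only [coeff_X_pow]
        by_cases h2 : ∃ i, m = Finsupp.single i d
        · obtain ⟨j, rfl⟩ := h2
          have h3 : c ⟨Finsupp.single j d, hm⟩ = 1 := if_pos ⟨j, rfl⟩
          rw [h3, Finset.sum_eq_single j]
          · simp
          · intro i _ hij
            rw [if_neg]
            intro h4
            exact hij ((Finsupp.single_left_inj (by omega)).mp h4)
          · intro h
            exact absurd (Finset.mem_univ _) h
        · have h3 : c ⟨m, hm⟩ = 0 := if_neg h2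
          rw [h3, Finset.sum_eq_zero]
          · simp
          · intro i _
            rw [if_neg]
            intro h4
            exact h2 ⟨i, h4.symm⟩
      rw [coeff_sub, h1]
      exact hVc ⟨m, hm⟩
    · have h1 : coeff m F = 0 := by
        by_contra h2
        apply hm
        have := hF h2
        rw [← this]
        simp [Finsupp.degree, Finsupp.weight_apply, Finsupp.sum]
      have h2 : coeff m G = 0 := by
        rw [hG, coeff_sum]
        refine Finset.sum_eq_zero (fun i _ => ?_)
        rw [coeff_X_pow, if_neg]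
        rintro rfl
        exact hm (Finsupp.degree_single _ _)
      rw [coeff_sub, h1, h2, sub_zero, map_zero]
      exact zero_lt_one
  have hnat := val_nat_le V
  have hlt : V.valuation (aeval y (pderiv i₀ (F - G))) < 1 := val_pderiv_lt V hcoef hyV i₀
  have hd1 : V.valuation (d : ℂ) = 1 := by
    refine le_antisymm (hnat d) ?_
    have h1 : ((d : ℚ)⁻¹ : ℚ) = ((d : ℚ)⁻¹ : ℚ) := rfl
    have h2 := hVq ((d : ℚ)⁻¹)
    rw [← V.valuation_le_one_iff] at h2
    have h3 : (((d : ℚ)⁻¹ : ℚ) : ℂ) = (d : ℂ)⁻¹ := by push_cast; rfl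
    rw [h3, map_inv₀] at h2
    have h4 : V.valuation (d : ℂ) ≠ 0 := by
      rw [Valuation.ne_zero_iff]
      exact_mod_cast (by omega : d ≠ 0)
    exact (inv_le_one₀ (zero_lt_iff.mpr h4)).mp h2
  have hfin : aeval y (pderiv i₀ (F - G)) = - (d : ℂ) := by
    rw [map_sub, map_sub, hdy, hdG, zero_sub]
  rw [hfin, Valuation.map_neg, hd1] at hlt
  exact lt_irrefl _ hlt

/-- algebraic independence over `ℚ` and over the prime field -/
theorem ai_bot {ι : Type} {x : ι → ℂ} :
    AlgebraicIndependent (⊥ : Fl) x ↔ AlgebraicIndependent ℚ x := by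
  rw [ai_iff, ai_iff' (algebraMap ℚ ℂ).injective]
  have h : ∀ P : MvPolynomial ι ℂ, Coef ⊥ P ↔ ∀ m, coeff m P ∈ Set.range (algebraMap ℚ ℂ) := by
    intro P
    refine forall_congr' (fun m => ?_)
    rw [IntermediateField.mem_bot]
  simp only [h]

/-- the ground field: countable, algebraically closed, the coefficients stay independent and
finitely many given numbers are algebraic over `k(F)` -/
theorem exists_ground {F : MvPolynomial (Fin 4) ℂ} {d : ℕ}
    (hind : AlgebraicIndependent ℚ
      (fun m : {m : Fin 4 →₀ ℕ // m.degree = d} => coeff m.1 F)) (S : Finset ℂ) :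
    ∃ k : Fl, Countable k ∧ clo k = k ∧
      AlgebraicIndependent k (fun m : {m : Fin 4 →₀ ℕ // m.degree = d} => coeff m.1 F) ∧
      ∀ x ∈ S, x ∈ clo (adj k (Set.range fun m => coeff m F)) := by
  classical
  induction S using Finset.induction_on with
  | empty =>
    have : Countable (⊥ : Fl) := by
      have h1 : Function.Surjective (algebraMap ℚ (⊥ : Fl)) := by
        rintro ⟨x, hx⟩
        rw [IntermediateField.mem_bot] at hx
        obtain ⟨q, rfl⟩ := hx
        exact ⟨q, rfl⟩
      exact h1.countable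
    refine ⟨clo ⊥, inferInstance, clo_clo _, ?_, fun x hx => absurd hx (Finset.notMem_empty x)⟩
    rw [ai_clo, ai_bot]
    exact hind
  | insert x S _ ih =>
    obtain ⟨k, hk, hkc, hki, hkS⟩ := ih
    set a : {m : Fin 4 →₀ ℕ // m.degree = d} → ℂ := fun m => coeff m.1 F with ha
    have hsub : Set.range a ⊆ Set.range fun m => coeff m F := by
      rintro _ ⟨m, rfl⟩
      exact ⟨m.1, rfl⟩
    by_cases hx : x ∈ clo (adj k (Set.range a))
    · refine ⟨k, hk, hkc, hki, fun z hz => ?_⟩
      rw [Finset.mem_insert] at hz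
      rcases hz with rfl | hz
      · exact clo_mono (adj_le (le_adj _ _) (hsub.trans (subset_adj _ _))) hx
      · exact hkS z hz
    · refine ⟨clo (adj k {x}), inferInstance, clo_clo _, ?_, fun z hz => ?_⟩
      · rw [ai_clo]
        have h1 : AlgebraicIndependent (adj k (Set.range a)) (fun _ : Unit => x) := by
          rw [algebraicIndependent_unique_type_iff]
          rw [mem_clo] at hx
          exact hx
        have h2 : AlgebraicIndependent k (Sum.elim a (fun _ : Unit => x)) := ai_sum.mpr ⟨hki, h1⟩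
        have h3 : AlgebraicIndependent k (Sum.elim (fun _ : Unit => x) a) := by
          have h4 := (algebraicIndependent_equiv' (Equiv.sumComm Unit
            {m : Fin 4 →₀ ℕ // m.degree = d})
            (f := Sum.elim a (fun _ : Unit => x)) (g := Sum.elim (fun _ : Unit => x) a) (by
              ext i
              cases i <;> rfl)).mpr h2
          exact h4
        have h5 := (ai_sum.mp h3).2
        rwa [Set.range_const] at h5
      · rw [Finset.mem_insert] at hz
        rcases hz with rfl | hz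
        · exact le_clo _ (le_adj _ _ (le_clo _ (subset_adj _ _ rfl)))
        · refine clo_mono (adj_le ?_ (subset_adj _ _)) (hkS z hz)
          exact ((le_adj k {x}).trans (le_clo _)).trans (le_adj _ _)

end Pool.Agent.VGS
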