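import Pool.Agent.VGS.MumDefs

/-! Module MumF: specialisation of a cycle at a place. -/

set_option autoImplicit false

open scoped LinearAlgebra.Projectivization
open MvPolynomial

namespace Pool.Agent.VGS

open Pool.Agent.LowDeg (surf IsSmoothForm Place)

variable {C₀ : Fl} {E : IntermediateField C₀ ℂ}

/-- `x` is an element of `E` with value `c` at the place `P` -/
def VE (P : Place C₀ E) (x c : ℂ) : Prop :=
  ∃ (x' : E) (c' : C₀), (x' : ℂ) = x ∧ (c' : ℂ) = c ∧ P.IsVal x' c'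

theorem VE.const (P : Place C₀ E) {c : ℂ} (hc : c ∈ C₀) : VE P c c :=
  ⟨algebraMap C₀ E ⟨c, hc⟩, ⟨c, hc⟩, rfl, rfl, Place.isVal_const _⟩

theorem VE.unique {P : Place C₀ E} {x c d : ℂ} (h : VE P x c) (h' : VE P x d) : c = d := by
  obtain ⟨x₁, c₁, hx₁, hc₁, h₁⟩ := h
  obtain ⟨x₂, c₂, hx₂, hc₂, h₂⟩ := h'
  have h3 : x₁ = x₂ := Subtype.ext (hx₁.trans hx₂.symm)
  subst h3
  rw [← hc₁, ← hc₂, h₁.unique h₂]

theorem VE.add {P : Place C₀ E} {x c y d : ℂ} (h : VE P x c) (h' : VE P y d) :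
    VE P (x + y) (c + d) := by
  obtain ⟨x₁, c₁, rfl, rfl, h₁⟩ := h
  obtain ⟨x₂, c₂, rfl, rfl, h₂⟩ := h'
  exact ⟨x₁ + x₂, c₁ + c₂, rfl, rfl, h₁.add h₂⟩

theorem VE.mul {P : Place C₀ E} {x c y d : ℂ} (h : VE P x c) (h' : VE P y d) :
    VE P (x * y) (c * d) := by
  obtain ⟨x₁, c₁, rfl, rfl, h₁⟩ := h
  obtain ⟨x₂, c₂, rfl, rfl, h₂⟩ := h'
  exact ⟨x₁ * x₂, c₁ * c₂, rfl, rfl, h₁.mul h₂⟩

theorem VE.ne_zero {P : Place C₀ E} {x c : ℂ} (h : VE P x c) (hc : c ≠ 0) : x ≠ 0 := by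
  obtain ⟨x₁, c₁, rfl, rfl, h₁⟩ := h
  have h2 : c₁ ≠ 0 := fun h0 => hc (by rw [h0]; rfl)
  have h3 := h₁.ne_zero h2
  exact fun h0 => h3 (Subtype.ext h0)

theorem VE.div {P : Place C₀ E} {x c y d : ℂ} (h : VE P x c) (h' : VE P y d) (hd : d ≠ 0) :
    VE P (x / y) (c / d) := by
  obtain ⟨x₁, c₁, rfl, rfl, h₁⟩ := h
  obtain ⟨x₂, c₂, rfl, rfl, h₂⟩ := h'
  have h2 : c₂ ≠ 0 := fun h0 => hd (by rw [h0]; rfl)
  exact ⟨x₁ / x₂, c₁ / c₂, rfl, rfl, h₁.div h₂ h2⟩

theorem VE.pow {P : Place C₀ E} {x c : ℂ} (h : VE P x c) (n : ℕ) : VE P (x ^ n) (c ^ n) := by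
  obtain ⟨x₁, c₁, rfl, rfl, h₁⟩ := h
  exact ⟨x₁ ^ n, c₁ ^ n, rfl, rfl, h₁.pow n⟩

theorem VE.sum {P : Place C₀ E} {ι : Type*} (s : Finset ι) {x c : ι → ℂ}
    (h : ∀ i ∈ s, VE P (x i) (c i)) : VE P (∑ i ∈ s, x i) (∑ i ∈ s, c i) := by
  classical
  induction s using Finset.induction_on with
  | empty => simpa using VE.const P C₀.zero_mem
  | insert a s ha ih =>
    rw [Finset.sum_insert ha, Finset.sum_insert ha]
    exact (h a (Finset.mem_insert_self a s)).add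
      (ih fun i hi => h i (Finset.mem_insert_of_mem hi))

theorem VE.prod {P : Place C₀ E} {ι : Type*} (s : Finset ι) {x c : ι → ℂ}
    (h : ∀ i ∈ s, VE P (x i) (c i)) : VE P (∏ i ∈ s, x i) (∏ i ∈ s, c i) := by
  classical
  induction s using Finset.induction_on with
  | empty => simpa using VE.const P C₀.one_mem
  | insert a s ha ih =>
    rw [Finset.prod_insert ha, Finset.prod_insert ha]
    exact (h a (Finset.mem_insert_self a s)).mul
      (ih fun i hi => h i (Finset.mem_insert_of_mem hi))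

/-- substitution in a polynomial with coefficients in `C₀` -/
theorem VE.aeval {P : Place C₀ E} {ι : Type} {G : MvPolynomial ι ℂ} (hG : Coef C₀ G)
    {x c : ι → ℂ} (h : ∀ i, VE P (x i) (c i)) :
    VE P (MvPolynomial.aeval x G) (MvPolynomial.aeval c G) := by
  rw [MvPolynomial.aeval_def, MvPolynomial.aeval_def, MvPolynomial.eval₂_eq,
    MvPolynomial.eval₂_eq]
  refine VE.sum _ fun m _ => ?_
  refine (VE.const P (hG m)).mul ?_
  exact VE.prod _ fun i _ => (h i).pow _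

theorem exists_spE (P : Place C₀ E) {p : PP} (hp : OvE E p) : ∃ q, SpE P p q := by
  classical
  obtain ⟨z, hz, rfl⟩ := hp
  have hne : (Finset.univ.filter fun i => z i ≠ 0).Nonempty := by
    obtain ⟨i, hi⟩ := Function.ne_iff.1 hz
    exact ⟨i, by
      rw [Finset.mem_filter]
      exact ⟨Finset.mem_univ _, fun h0 => hi (by simp [h0])⟩⟩
  obtain ⟨i, hi, hmin⟩ := Finset.exists_min_image _ (fun i => P.ord (z i)) hne
  have hi0 : z i ≠ 0 := (Finset.mem_filter.1 hi).2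
  have hint : ∀ j, P.Int (z j / z i) := by
    intro j
    by_cases hj : z j = 0
    · rw [hj, zero_div]
      exact Place.int_zero P
    · right
      rw [P.ord_div hj hi0]
      have := hmin j (Finset.mem_filter.2 ⟨Finset.mem_univ _, hj⟩)
      omega
  choose w hw using fun j => (hint j).exists_isVal
  have hwi : w i = 1 := by
    refine (hw i).unique ?_
    rw [div_self hi0]
    exact Place.isVal_one
  have hw0 : (fun j => (w j : ℂ)) ≠ 0 := by
    intro h0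
    have := congrFun h0 i
    rw [hwi] at this
    simp at this
  have hz0 : (fun j => ((z j / z i : E) : ℂ)) ≠ 0 := by
    intro h0
    have := congrFun h0 i
    rw [div_self hi0] at this
    simp at this
  refine ⟨Projectivization.mk ℂ _ hw0, fun j => z j / z i, w, hz0, hw0, ?_, rfl, hw⟩
  rw [Projectivization.mk_eq_mk_iff']
  refine ⟨(z i : ℂ), ?_⟩
  funext j
  have h1 : (z i : ℂ) ≠ 0 := fun h0 => hi0 (Subtype.ext h0)
  change (z i : ℂ) * ((z j / z i : E) : ℂ) = z j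
  have h2 : ((z j / z i : E) : ℂ) = (z j : ℂ) / (z i : ℂ) := rfl
  rw [h2]
  field_simp

theorem SpE.mem_surf {P : Place C₀ E} {p q : PP} (h : SpE P p q) {F : MvPolynomial (Fin 4) ℂ}
    {d : ℕ} (hF : F.IsHomogeneous d) (hFC : Coef C₀ F) (hp : p ∈ surf F) : q ∈ surf F := by
  obtain ⟨z, w, hz, hw, rfl, rfl, h⟩ := h
  rw [mem_surf_mk hF] at hp ⊢
  have h1 : VE P (MvPolynomial.aeval (fun i => (z i : ℂ)) F)
      (MvPolynomial.aeval (fun i => (w i : ℂ)) F) :=
    VE.aeval hFC fun i => ⟨z i, w i, rfl, rfl, h i⟩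
  rw [hp] at h1
  exact h1.unique (VE.const P C₀.zero_mem)

/-- all coefficients of `G` have the coefficients of `H` as values -/
def VM (P : Place C₀ E) (G H : MvPolynomial (Fin 4) ℂ) : Prop :=
  ∀ m, VE P (coeff m G) (coeff m H)

theorem VM.mul {P : Place C₀ E} {G H G' H' : MvPolynomial (Fin 4) ℂ} (h : VM P G H)
    (h' : VM P G' H') : VM P (G * G') (H * H') := by
  classical
  intro m
  rw [coeff_mul, coeff_mul]
  exact VE.sum _ fun i _ => (h _).mul (h' _)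

theorem VM.const {P : Place C₀ E} {G : MvPolynomial (Fin 4) ℂ} (hG : Coef C₀ G) : VM P G G :=
  fun m => VE.const P (hG m)

theorem VM.linForm {P : Place C₀ E} {z w : Fin 4 → ℂ} (h : ∀ i, VE P (z i) (w i)) :
    VM P (Chow0.linForm z) (Chow0.linForm w) := by
  classical
  intro m
  rw [ch_coeff_linForm, ch_coeff_linForm]
  refine VE.sum _ fun i _ => (h i).mul (VE.const P ?_)
  rw [coeff_X]
  split_ifs
  · exact C₀.one_mem
  · exact C₀.zero_mem

theorem VM.prod {P : Place C₀ E} (s : Multiset PP) (z w : PP → Fin 4 → ℂ)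
    (h : ∀ p ∈ s, ∀ i, VE P (z p i) (w p i)) :
    VM P (s.map fun p => Chow0.linForm (z p)).prod (s.map fun p => Chow0.linForm (w p)).prod := by
  classical
  induction s using Multiset.induction_on with
  | empty =>
    intro m
    rw [Multiset.map_zero, Multiset.map_zero, Multiset.prod_zero]
    refine VE.const P ?_
    rw [coeff_one]
    split_ifs
    · exact C₀.one_mem
    · exact C₀.zero_mem
  | cons p s ih =>
    rw [Multiset.map_cons, Multiset.map_cons, Multiset.prod_cons, Multiset.prod_cons]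
    exact (VM.linForm (h p (Multiset.mem_cons_self p s))).mul
      (ih fun q hq => h q (Multiset.mem_cons_of_mem hq))

theorem VM.eval {P : Place C₀ E} {t t₀ : ℂ} (ht : VE P t t₀)
    (Φ : Polynomial (MvPolynomial (Fin 4) ℂ)) (hΦ : ∀ i, Coef C₀ (Φ.coeff i)) :
    VM P (Φ.eval (C t)) (Φ.eval (C t₀)) := by
  intro m
  rw [Polynomial.eval_eq_sum_range, Polynomial.eval_eq_sum_range, coeff_sum, coeff_sum]
  refine VE.sum _ fun i _ => ?_
  rw [← C_pow, ← C_pow, mul_comm, mul_comm (Φ.coeff i), coeff_C_mul, coeff_C_mul]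
  exact (ht.pow i).mul (VE.const P (hΦ i m))

/-- the limit of a cycle in a family -/
theorem mum_limit (P : Place C₀ E) {t : ℂ} (ht : t ∈ E) {t₀ : ℂ} (ht₀ : t₀ ∈ C₀)
    (hP : P.Sm ((⟨t, ht⟩ : E) - algebraMap C₀ E ⟨t₀, ht₀⟩))
    (Φ : Polynomial (MvPolynomial (Fin 4) ℂ)) (hΦ : ∀ i, Coef C₀ (Φ.coeff i))
    (s : Multiset PP) (hs : ∀ p ∈ s, OvE E p) (h : IsCh (Φ.eval (C t)) s)
    (h0 : Φ.eval (C t₀) ≠ 0) (g : PP → PP) (hg : ∀ p ∈ s, SpE P p (g p)) :
    IsCh (Φ.eval (C t₀)) (s.map g) := by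
  classical
  have hex : ∀ p : PP, ∃ z w : Fin 4 → ℂ, p ∈ s →
      (∃ hz : z ≠ 0, p = Projectivization.mk ℂ z hz) ∧
      (∃ hw : w ≠ 0, g p = Projectivization.mk ℂ w hw) ∧ ∀ i, VE P (z i) (w i) := by
    intro p
    by_cases hp : p ∈ s
    · obtain ⟨z, w, hz, hw, h1, h2, h3⟩ := hg p hp
      exact ⟨fun i => z i, fun i => w i, fun _ =>
        ⟨⟨hz, h1⟩, ⟨hw, h2⟩, fun i => ⟨z i, w i, rfl, rfl, h3 i⟩⟩⟩
    · exact ⟨0, 0, fun h => absurd h hp⟩
  choose z w hzw using hex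
  have hA : IsCh (s.map fun p => Chow0.linForm (z p)).prod (s.map fun p => p) :=
    isCh_prod s z (fun p => p) fun p hp => (hzw p hp).1
  have hB : IsCh (s.map fun p => Chow0.linForm (w p)).prod (s.map g) :=
    isCh_prod s w g fun p hp => (hzw p hp).2.1
  rw [Multiset.map_id'] at hA
  obtain ⟨A, hAA⟩ : ∃ A, A = (s.map fun p => Chow0.linForm (z p)).prod := ⟨_, rfl⟩
  obtain ⟨B, hBB⟩ : ∃ B, B = (s.map fun p => Chow0.linForm (w p)).prod := ⟨_, rfl⟩
  have hAB : VM P A B := by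
    rw [hAA, hBB]
    exact VM.prod s z w fun p hp => (hzw p hp).2.2
  rw [← hAA] at hA
  rw [← hBB] at hB
  obtain ⟨a, ha, hΦA⟩ := h.ratio hA
  have htt : VE P t t₀ := ⟨⟨t, ht⟩, ⟨t₀, ht₀⟩, rfl, rfl, hP⟩
  have hev := VM.eval htt Φ hΦ
  obtain ⟨m, hm⟩ : ∃ m, coeff m B ≠ 0 := by
    by_contra hc
    push Not at hc
    exact hB.ne_zero (MvPolynomial.ext _ _ fun m => by rw [hc m, coeff_zero])
  have h1 : VE P a (coeff m (Φ.eval (C t₀)) / coeff m B) := by
    have h2 : a = coeff m (Φ.eval (C t)) / coeff m A := by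
      rw [hΦA, coeff_C_mul, mul_div_cancel_right₀]
      exact (hAB m).ne_zero hm
    rw [h2]
    exact (hev m).div (hAB m) hm
  have h3 : Φ.eval (C t₀) = C (coeff m (Φ.eval (C t₀)) / coeff m B) * B := by
    refine MvPolynomial.ext _ _ fun n => ?_
    rw [coeff_C_mul]
    refine (hev n).unique ?_
    rw [hΦA, coeff_C_mul]
    exact h1.mul (hAB n)
  rw [h3]
  refine hB.C_mul fun h4 => ?_
  rw [h4, C_0, zero_mul] at h3
  exact h0 h3

end Pool.Agent.VGS
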