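import Pool.Agent.VGS.GenP
import Pool.Agent.Chow0.Functor

/-! Module Move0: degrees; cycles of degree zero. -/

set_option autoImplicit false

open scoped LinearAlgebra.Projectivization
open MvPolynomial

namespace Pool.Agent.VGS

open Pool.Agent.Chow0 (IsChowForm IsLink cyc Z0 ratTriv deg)
open Pool.Agent.LowDeg (surf IsSmoothForm)

variable {F : MvPolynomial (Fin 4) ℂ} {d : ℕ}

/-- the members of a link have the same degree -/
theorem card_link {V : Set PP} {s₀ s₁ : Multiset V} (h : IsLink V s₀ s₁) :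
    Multiset.card s₀ = Multiset.card s₁ := by
  classical
  obtain ⟨G, hG, hG0, hG1⟩ := h
  obtain ⟨s, hs0, hs1, hs⟩ : ∃ s : ℂ → Multiset V, s 0 = s₀ ∧ s 1 = s₁ ∧
      ∀ t, (∃ s', IsChowForm V (G.eval (C t)) s') → IsChowForm V (G.eval (C t)) (s t) := by
    refine ⟨fun t => if t = 0 then s₀ else if t = 1 then s₁ else
      if h : ∃ s', IsChowForm V (G.eval (C t)) s' then h.choose else 0,
      if_pos rfl, ?_, ?_⟩
    · beta_reduce
      rw [if_neg one_ne_zero, if_pos rfl]
    · intro t ht
      beta_reduce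
      by_cases h0 : t = 0
      · rw [if_pos h0, h0]
        exact hG0
      · rw [if_neg h0]
        by_cases h1 : t = 1
        · rw [if_pos h1, h1]
          exact hG1
        · rw [if_neg h1, dif_pos ht]
          exact ht.choose_spec
  have hsF : ∀ᶠ t : ℂ in Filter.cofinite, IsChowForm V (G.eval (C t)) (s t) := by
    filter_upwards [hG] with t ht
    exact hs t ht
  have hc0 := Chow0.eventually_card (s := s) (t₀ := 0) (by rw [hs0]; exact hG0) hsF
  have hc1 := Chow0.eventually_card (s := s) (t₀ := 1) (by rw [hs1]; exact hG1) hsF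
  obtain ⟨t, h2, h3⟩ := (hc0.and hc1).exists
  rw [← hs0, ← hs1, ← h2, h3]

theorem deg_of (p : surf F) : deg (FreeAbelianGroup.of p) = 1 := by
  simp [deg]

theorem deg_cyc (s : Multiset (surf F)) : deg (cyc s) = Multiset.card s := by
  induction s using Multiset.induction_on with
  | empty => simp [cyc]
  | cons a s ih =>
    have h : cyc (a ::ₘ s) = FreeAbelianGroup.of a + cyc s := by
      simp [cyc]
    rw [h, map_add, ih, deg_of, Multiset.card_cons]
    push_cast
    ring

/-- cycles which are rationally equivalent to zero have degree zero -/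
theorem deg_ratTriv {z : Z0 (surf F)} (hz : z ∈ ratTriv (surf F)) : deg z = 0 := by
  have h : ratTriv (surf F) ≤ (deg (S := surf F)).ker := by
    refine (AddSubgroup.closure_le _).2 ?_
    rintro _ ⟨s₀, s₁, h, rfl⟩
    change deg (cyc s₀ - cyc s₁) = 0
    rw [map_sub, deg_cyc, deg_cyc, card_link h, sub_self]
  exact h hz

theorem move_deg {V : Set (surf F)} (hV : ∀ x : surf F, ∃ s t : Multiset (surf F),
      (∀ p ∈ s, p ∈ V) ∧ (∀ p ∈ t, p ∈ V) ∧
        FreeAbelianGroup.of x + cyc s - cyc t ∈ ratTriv (surf F))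
    {z : Z0 (surf F)} (hz : deg z = 0) :
    ∃ y ∈ AddSubgroup.closure {y : Z0 (surf F) | ∃ p ∈ V, ∃ q ∈ V,
        y = FreeAbelianGroup.of p - FreeAbelianGroup.of q}, z - y ∈ ratTriv (surf F) := by
  set H : AddSubgroup (Z0 (surf F)) := AddSubgroup.closure (FreeAbelianGroup.of '' V) with hH
  have hcyc : ∀ s : Multiset (surf F), (∀ p ∈ s, p ∈ V) → cyc s ∈ H := by
    intro s hs
    refine AddSubgroup.multiset_sum_mem _ _ fun y hy => ?_
    obtain ⟨p, hp, rfl⟩ := Multiset.mem_map.1 hy
    exact AddSubgroup.subset_closure ⟨p, hs p hp, rfl⟩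
  -- every cycle is equivalent to a cycle in `H`
  have h1 : ∀ z : Z0 (surf F), ∃ y ∈ H, z - y ∈ ratTriv (surf F) := by
    intro z
    induction z using FreeAbelianGroup.induction_on with
    | zero => exact ⟨0, zero_mem _, by rw [sub_zero]; exact zero_mem _⟩
    | of x =>
      obtain ⟨s, t, hs, ht, h⟩ := hV x
      refine ⟨cyc t - cyc s, sub_mem (hcyc t ht) (hcyc s hs), ?_⟩
      have h2 : FreeAbelianGroup.of x - (cyc t - cyc s) =
          FreeAbelianGroup.of x + cyc s - cyc t := by abel
      rw [h2]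
      exact h
    | neg x hx =>
      obtain ⟨y, hy, h⟩ := hx
      refine ⟨-y, neg_mem hy, ?_⟩
      have h2 : -FreeAbelianGroup.of x - -y = -(FreeAbelianGroup.of x - y) := by abel
      rw [h2]
      exact neg_mem h
    | add a b ha hb =>
      obtain ⟨y, hy, h⟩ := ha
      obtain ⟨y', hy', h'⟩ := hb
      refine ⟨y + y', add_mem hy hy', ?_⟩
      have h2 : a + b - (y + y') = (a - y) + (b - y') := by abel
      rw [h2]
      exact add_mem h h'
  obtain ⟨y, hy, h⟩ := h1 z
  refine ⟨y, ?_, h⟩
  have hdeg : deg y = 0 := by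
    have h2 := deg_ratTriv h
    rw [map_sub, hz, zero_sub, neg_eq_zero] at h2
    exact h2
  rcases Set.eq_empty_or_nonempty V with hVe | ⟨p₀, hp₀⟩
  · have h3 : H = ⊥ := by
      rw [hH, hVe, Set.image_empty, AddSubgroup.closure_empty]
    rw [h3, AddSubgroup.mem_bot] at hy
    rw [hy]
    exact zero_mem _
  · have h4 : ∀ y ∈ H, y - deg y • FreeAbelianGroup.of p₀ ∈
        AddSubgroup.closure {y : Z0 (surf F) | ∃ p ∈ V, ∃ q ∈ V,
          y = FreeAbelianGroup.of p - FreeAbelianGroup.of q} := by
      intro y hy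
      refine AddSubgroup.closure_induction (p := fun y _ => y - deg y • FreeAbelianGroup.of p₀ ∈
        AddSubgroup.closure {y : Z0 (surf F) | ∃ p ∈ V, ∃ q ∈ V,
          y = FreeAbelianGroup.of p - FreeAbelianGroup.of q}) ?_ ?_ ?_ ?_ hy
      · rintro _ ⟨p, hp, rfl⟩
        rw [deg_of, one_smul]
        exact AddSubgroup.subset_closure ⟨p, hp, p₀, hp₀, rfl⟩
      · simp
      · intro a b _ _ ha hb
        have h5 : a + b - deg (a + b) • FreeAbelianGroup.of p₀ =
            (a - deg a • FreeAbelianGroup.of p₀) + (b - deg b • FreeAbelianGroup.of p₀) := by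
          rw [map_add, add_smul]
          abel
        rw [h5]
        exact add_mem ha hb
      · intro a _ ha
        have h5 : -a - deg (-a) • FreeAbelianGroup.of p₀ =
            -(a - deg a • FreeAbelianGroup.of p₀) := by
          rw [map_neg, neg_smul]
          abel
        rw [h5]
        exact neg_mem ha
    have h6 := h4 y hy
    rw [hdeg, zero_smul, sub_zero] at h6
    exact h6

end Pool.Agent.VGS
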