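import Pool.Agent.VGS.Basic

/-! Frames: definitions. -/

set_option autoImplicit false

open scoped LinearAlgebra.Projectivization
open MvPolynomial

namespace Pool.Agent.VGS

open Pool.Agent.LowDeg (surf)

open Classical in
/-- The point with homogeneous coordinates `z` (a fixed point if `z = 0`). -/
noncomputable def mkP (z : Fin 4 → ℂ) : PP :=
  Projectivization.mk ℂ (if z = 0 then fun _ => 1 else z) (by
    split_ifs with h
    · intro h1
      have := congrFun h1 0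
      simp at this
    · exact h)

theorem mkP_eq {z : Fin 4 → ℂ} (hz : z ≠ 0) : mkP z = Projectivization.mk ℂ z hz := by
  unfold mkP
  congr 1
  simp [hz]

/-- The polynomial `F` in the coordinates `z`, `x = M z`. -/
noncomputable def frG (F : MvPolynomial (Fin 4) ℂ) (M : Matrix (Fin 4) (Fin 4) ℂ) :
    MvPolynomial (Fin 4) ℂ :=
  aeval (fun i => ∑ j, C (M i j) * X j) F

/-- The field generated by the entries of `M`. -/
noncomputable def frk (k : Fl) (M : Matrix (Fin 4) (Fin 4) ℂ) : Fl :=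
  adj k (Set.range fun ij : Fin 4 × Fin 4 => M ij.1 ij.2)

/-- The monomials of degree `d` other than `X₃ ^ d`. -/
def Mon (d : ℕ) : Type := {m : Fin 4 →₀ ℕ // m.degree = d ∧ m ≠ Finsupp.single 3 d}

/-- The field generated by the entries of `M` and the coefficients of `F (M z)`. -/
noncomputable def frE (k : Fl) (F : MvPolynomial (Fin 4) ℂ) (M : Matrix (Fin 4) (Fin 4) ℂ) : Fl :=
  adj (frk k M) (Set.range fun m => coeff m (frG F M))

/-- The field generated by the coefficients of `F`. -/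
noncomputable def cof (k : Fl) (F : MvPolynomial (Fin 4) ℂ) : Fl :=
  adj k (Set.range fun m => coeff m F)

/-- A frame at the generic point `p`: coordinates `z`, `x = M z`, with `p = (0,0,0,1)`, otherwise
general. -/
structure IsFrame (k : Fl) (F : MvPolynomial (Fin 4) ℂ) (d : ℕ) (p : PP)
    (M : Matrix (Fin 4) (Fin 4) ℂ) : Prop where
  det : M.det ≠ 0
  pt : p = mkP (M.mulVec (Pi.single 3 1))
  ind : AlgebraicIndependent (frk k M) (fun m : Mon d => coeff m.1 (frG F M))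
  top : coeff (Finsupp.single 3 d) (frG F M) = 0
  le : cof k F ≤ frE k F M
  ptE : adjP (cof k F) p ≤ frE k F M
  avoid : ∀ z : Fin 4 → ℂ, z ≠ 0 → Over (clo (cof k F)) (mkP (M.mulVec z)) → z 0 ≠ 0
  gen : ∀ z : Fin 4 → ℂ, z ≠ 0 → z 0 = 0 → mkP (M.mulVec z) ∈ surf F →
    ¬ Over (clo (frE k F M)) (mkP (M.mulVec z)) → mkP (M.mulVec z) ∈ Gen (cof k F) F
  line : ∀ z : Fin 4 → ℂ, z 0 = 0 → z 1 = 0 → z 2 ≠ 0 → mkP (M.mulVec z) ∈ surf F →
    mkP (M.mulVec z) ∈ Gen (clo (adjP (cof k F) p)) F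

/-- The points of the surface `F = 0` on the line `z₀ = z₁ = 0`. -/
def lineSet (F : MvPolynomial (Fin 4) ℂ) (M : Matrix (Fin 4) (Fin 4) ℂ) : Set PP :=
  {q | q ∈ surf F ∧ ∃ z : Fin 4 → ℂ, z ≠ 0 ∧ z 0 = 0 ∧ z 1 = 0 ∧ q = mkP (M.mulVec z)}

/-- The sum of the points of a finite set. -/
noncomputable def sumSet (s : Set PP) : Cy := ∑ᶠ q ∈ s, Finsupp.single q (1 : ℚ)

/-- The span of the differences of the limits (at `0` and `1`) of families of generic points over
`C(u)` whose limits are not defined over `clo K`. -/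
noncomputable def Nice (K C : Fl) (F : MvPolynomial (Fin 4) ℂ) : Submodule ℚ Cy :=
  Submodule.span ℚ {z | ∃ (u : ℂ) (S : Multiset PP) (V₀ V₁ : ValuationSubring ℂ) (f g : PP → PP),
    u ∉ C ∧ (∀ p ∈ S, Over (clo (adj C {u})) p) ∧ (∀ σ ∈ Fix (adj C {u}), S.map (act σ) = S) ∧
    (∀ p ∈ S, p ∈ Gen K F) ∧ IsPl V₀ C ∧ IsPl V₁ C ∧ Sp V₀ C u 0 ∧ Sp V₁ C u 1 ∧
    (∀ p ∈ S, SpP V₀ C p (f p) ∧ ¬ Over (clo K) (f p)) ∧
    (∀ p ∈ S, SpP V₁ C p (g p) ∧ ¬ Over (clo K) (g p)) ∧
    z = cycQ (S.map f) - cycQ (S.map g)}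

end Pool.Agent.VGS
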