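import Pool.Agent.VGS.RingA
import Pool.Agent.VGS.BI2

/-! Module RingC: scalars on two-forms, the ring `R` and the ideal `J` (section 3). -/

set_option autoImplicit false

open scoped LinearAlgebra.Projectivization
open MvPolynomial

namespace Pool.Agent.VGS

open Pool.Agent.LowDeg (surf IsSmoothForm)

variable {F : MvPolynomial (Fin 4) ℂ} {d : ℕ}

/-! ### scalars -/

theorem Sc.mul {K K' : Fl} {α β : En} {m m' : ℂ} (hα : Sc K F d m α) (hβ : Sc K F d m' β)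
    (hE : InE K K' F β) : Sc K F d (m * m') (α * β) := by
  intro z hz D₁ D₂ h₁ h₂ f hf
  change tauC F D₁ D₂ f (α (β z)) = _
  rw [hα _ (hE.gen z hz) D₁ D₂ h₁ h₂ f hf, hβ z hz D₁ D₂ h₁ h₂ f hf, mul_assoc]

theorem sc_one {K : Fl} : Sc K F d 1 (1 : En) := by
  intro z hz D₁ D₂ h₁ h₂ f hf
  rw [one_mul]
  rfl

theorem Sc.pow {K K' : Fl} {α : En} {m : ℂ} (hα : Sc K F d m α) (hE : InE K K' F α) (n : ℕ) :
    Sc K F d (m ^ n) (α ^ n) := by
  induction n with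
  | zero => rw [pow_zero, pow_zero]; exact sc_one
  | succ n ih => rw [pow_succ, pow_succ]; exact ih.mul hα hE

theorem Sc.add {K : Fl} {α β : En} {m m' : ℂ} (hα : Sc K F d m α) (hβ : Sc K F d m' β) :
    Sc K F d (m + m') (α + β) := by
  intro z hz D₁ D₂ h₁ h₂ f hf
  change tauC F D₁ D₂ f (α z + β z) = _
  rw [map_add, hα z hz D₁ D₂ h₁ h₂ f hf, hβ z hz D₁ D₂ h₁ h₂ f hf, add_mul]

theorem Sc.smul {K : Fl} {α : En} {m : ℂ} (hα : Sc K F d m α) (c : ℚ) :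
    Sc K F d (c * m) (c • α) := by
  intro z hz D₁ D₂ h₁ h₂ f hf
  change tauC F D₁ D₂ f (c • α z) = _
  rw [map_smul, hα z hz D₁ D₂ h₁ h₂ f hf, Rat.smul_def, mul_assoc]

theorem Sc.sum {K : Fl} {ι : Type} (s : Finset ι) {α : ι → En} {m : ι → ℂ}
    (h : ∀ i ∈ s, Sc K F d (m i) (α i)) : Sc K F d (∑ i ∈ s, m i) (∑ i ∈ s, α i) := by
  classical
  induction s using Finset.induction_on with
  | empty =>
    intro z hz D₁ D₂ h₁ h₂ f hf
    rw [Finset.sum_empty, Finset.sum_empty, zero_mul]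
    exact map_zero _
  | insert a s ha ih =>
    rw [Finset.sum_insert ha, Finset.sum_insert ha]
    exact (h a (Finset.mem_insert_self a s)).add (ih fun i hi => h i (Finset.mem_insert_of_mem hi))

theorem conjD_conjD (σ : ℂ ≃+* ℂ) (D : Derivation ℤ ℂ ℂ) : conjD σ (conjD σ⁻¹ D) = D := by
  apply Derivation.ext
  intro x
  rw [conjD_apply, conjD_apply]
  change σ (σ.symm (D (σ (σ.symm x)))) = D x
  rw [σ.apply_symm_apply, σ.apply_symm_apply]

theorem mem_GenC_surf {K : Fl} {p : PP} (hp : p ∈ Gen K F) : p ∈ surf F := hp.1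

theorem tauC_actC (hd : 4 ≤ d) (hF : IsSmoothForm F d) {K : Fl} (hFK : Coef K F)
    {D₁ D₂ : Derivation ℤ ℂ ℂ} (h₁ : Kills K D₁) (h₂ : Kills K D₂) {σ : ℂ ≃+* ℂ} (hσ : σ ∈ Fix K)
    {f : MvPolynomial (Fin 4) ℂ} (hf : f.IsHomogeneous (d - 4)) {z : Cy} (hz : z ∈ GenC K F) :
    tauC F (conjD σ D₁) (conjD σ D₂) (map (σ : ℂ →+* ℂ) f) (actC σ z) =
      σ (tauC F D₁ D₂ f z) := by
  refine GenC_eqOn (φ := (tauC F (conjD σ D₁) (conjD σ D₂) (map (σ : ℂ →+* ℂ) f)).comp (actC σ))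
    (ψ := ((σ : ℂ →+* ℂ).toAddMonoidHom.toRatLinearMap).comp (tauC F D₁ D₂ f))
    (fun p hp => ?_) hz
  rw [LinearMap.comp_apply, LinearMap.comp_apply, actC_single, tauC_single, tauC_single, one_smul,
    one_smul, tau_act hd hF hFK h₁ h₂ hσ hp.1 hf]
  rfl

theorem map_symm_hom {σ : ℂ ≃+* ℂ} (f : MvPolynomial (Fin 4) ℂ) :
    map (σ : ℂ →+* ℂ) (map ((σ⁻¹ : ℂ ≃+* ℂ) : ℂ →+* ℂ) f) = f := by
  rw [map_map]
  have : (σ : ℂ →+* ℂ).comp ((σ⁻¹ : ℂ ≃+* ℂ) : ℂ →+* ℂ) = RingHom.id ℂ := by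
    ext x
    exact σ.apply_symm_apply x
  rw [this, map_id]

theorem Sc.cj (hd : 4 ≤ d) (hF : IsSmoothForm F d) (hFh : F.IsHomogeneous d) {K K' : Fl}
    (hFK : Coef K F) {σ : ℂ ≃+* ℂ} (hσ : σ ∈ Fix K) {α : En} {m : ℂ} (hα : Sc K F d m α)
    (hE : InE K K' F α) : Sc K F d (σ m) (VGS.cj σ α) := by
  intro z hz D₁ D₂ h₁ h₂ f hf
  have hσ' : σ⁻¹ ∈ Fix K := inv_mem hσ
  have hz' := actC_mem_GenC hFh hFK hσ' hz
  have k₁ := conjD_kills hσ' h₁
  have k₂ := conjD_kills hσ' h₂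
  have hf' : (map ((σ⁻¹ : ℂ ≃+* ℂ) : ℂ →+* ℂ) f).IsHomogeneous (d - 4) := hf.map _
  have h1 := tauC_actC hd hF hFK k₁ k₂ hσ hf' (hE.gen _ hz')
  have h2 := tauC_actC hd hF hFK k₁ k₂ hσ hf' hz'
  rw [conjD_conjD, conjD_conjD, map_symm_hom] at h1 h2
  rw [cj_apply, h1, hα _ hz' _ _ k₁ k₂ _ hf', map_mul, ← h2, ← actC_mul, mul_inv_cancel, actC_one]

theorem Sc.trc (hd : 4 ≤ d) (hF : IsSmoothForm F d) (hFh : F.IsHomogeneous d) {K K' : Fl}
    (hFK : Coef K F) {n : ℕ} (g : Fin (n + 1) → ℂ ≃+* ℂ) (hg : ∀ i, g i ∈ Fix K) {α : En} {m : ℂ}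
    (hα : Sc K F d m α) (hE : InE K K' F α) : Sc K F d (∑ i, g i m) (VGS.trc g α) :=
  Sc.sum Finset.univ fun i _ => hα.cj hd hF hFh hFK (hg i) hE

theorem sc_ext {K : Fl} {T : PP → Cy} {m : ℂ}
    (h : ∀ y ∈ Gen K F, ∀ D₁ D₂ : Derivation ℤ ℂ ℂ, Kills K D₁ →
      Kills K D₂ → ∀ f : MvPolynomial (Fin 4) ℂ, f.IsHomogeneous (d - 4) →
        tauC F D₁ D₂ f (T y) = m * tau F D₁ D₂ f y) : Sc K F d m (ext T) := by
  intro z hz D₁ D₂ h₁ h₂ f hf
  refine GenC_eqOn (φ := (tauC F D₁ D₂ f).comp (ext T))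
    (ψ := (LinearMap.mulLeft ℚ m).comp (tauC F D₁ D₂ f)) (fun p hp => ?_) hz
  rw [LinearMap.comp_apply, LinearMap.comp_apply, ext_single, one_smul, tauC_single, one_smul,
    LinearMap.mulLeft_apply]
  exact h p hp D₁ D₂ h₁ h₂ f hf

/-! ### the ring and the ideal -/

/-- The correspondences over `K'` which are zero on two-forms. -/
noncomputable def Rs (K K' : Fl) (F : MvPolynomial (Fin 4) ℂ) (d : ℕ) : Submodule ℚ En where
  carrier := {γ | InE K K' F γ ∧ Sc K F d 0 γ}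
  add_mem' := fun {α β} hα hβ => ⟨hα.1.add hβ.1, by
    have := hα.2.add hβ.2
    rwa [add_zero] at this⟩
  zero_mem' := by
    refine ⟨⟨fun _ _ => Submodule.zero_mem _, fun σ _ _ _ => ?_⟩, ?_⟩
    · change (0 : Cy) = actC σ 0
      rw [map_zero]
    · intro z hz D₁ D₂ h₁ h₂ f hf
      rw [zero_mul]
      exact map_zero _
  smul_mem' := fun c α hα => ⟨hα.1.smul c, by
    have := hα.2.smul c
    rwa [mul_zero] at this⟩

theorem mem_Rs {K K' : Fl} {γ : En} : γ ∈ Rs K K' F d ↔ InE K K' F γ ∧ Sc K F d 0 γ := Iff.rfl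

/-- `γ` maps cycles of degree zero to cycles rationally equivalent to zero. -/
def InI (K : Fl) (F : MvPolynomial (Fin 4) ℂ) (γ : En) : Prop :=
  ∀ z ∈ GenC K F, deg z = 0 → γ z ∈ ratQ F

/-- The largest ideal of `Rs` of correspondences with `InI`. -/
noncomputable def Js (K K' : Fl) (F : MvPolynomial (Fin 4) ℂ) (d : ℕ) : Submodule ℚ En where
  carrier := {γ | γ ∈ Rs K K' F d ∧ InI K F γ ∧ ∀ β ∈ Rs K K' F d, InI K F (β * γ)}
  add_mem' := fun {α β} hα hβ => ⟨Submodule.add_mem _ hα.1 hβ.1,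
    fun z hz h0 => Submodule.add_mem _ (hα.2.1 z hz h0) (hβ.2.1 z hz h0),
    fun γ hγ z hz h0 => by
      rw [mul_add]
      exact Submodule.add_mem _ (hα.2.2 γ hγ z hz h0) (hβ.2.2 γ hγ z hz h0)⟩
  zero_mem' := ⟨Submodule.zero_mem _, fun _ _ _ => Submodule.zero_mem _, fun γ _ z _ _ => by
    rw [mul_zero]
    exact Submodule.zero_mem _⟩
  smul_mem' := fun c α hα => ⟨Submodule.smul_mem _ c hα.1,
    fun z hz h0 => Submodule.smul_mem _ c (hα.2.1 z hz h0),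
    fun γ hγ z hz h0 => by
      rw [mul_smul_comm]
      exact Submodule.smul_mem _ c (hα.2.2 γ hγ z hz h0)⟩

theorem mem_Js {K K' : Fl} {γ : En} : γ ∈ Js K K' F d ↔
    γ ∈ Rs K K' F d ∧ InI K F γ ∧ ∀ β ∈ Rs K K' F d, InI K F (β * γ) := Iff.rfl

/-- a correspondence over `K'` preserves the cycles of degree zero -/
theorem deg_of_inE (hd : 4 ≤ d) (hF : IsSmoothForm F d) {K K' : Fl} [Countable K]
    (hFK : Coef K F) (hK' : K' ≤ clo K) {β : En} (hβ : InE K K' F β) {z : Cy}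
    (hz : z ∈ GenC K F) (h0 : deg z = 0) : deg (β z) = 0 := by
  obtain ⟨p₀, hp₀⟩ := exists_gen hd hF K hFK
  have key : ∀ w ∈ GenC K F, deg (β w) = deg (β (Finsupp.single p₀ 1)) * deg w := by
    intro w hw
    refine GenC_eqOn (φ := deg.comp β)
      (ψ := (LinearMap.mulLeft ℚ (deg (β (Finsupp.single p₀ 1)))).comp deg) (fun p hp => ?_) hw
    have hFc : Coef (clo K) F := hFK.mono (le_clo K)
    obtain ⟨σ, hσ, hσp⟩ := gen_conj hd hF (clo K) hFc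
      (p := p₀) (q := p) (by rw [gen_clo hd hF K hFK]; exact hp₀)
      (by rw [gen_clo hd hF K hFK]; exact hp)
    rw [LinearMap.comp_apply, LinearMap.comp_apply, LinearMap.mulLeft_apply, deg_single, mul_one,
      ← hσp, ← actC_single, hβ.equi σ (Fix_mono hK' hσ) _ (single_mem_GenC hp₀ 1), deg_actC]
  rw [key z hz, h0, mul_zero]

theorem Rs_mul {K K' : Fl} : ∀ x ∈ Rs K K' F d, ∀ y ∈ Rs K K' F d, x * y ∈ Rs K K' F d := by
  intro x hx y hy
  refine ⟨hx.1.mul hy.1, ?_⟩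
  have := hx.2.mul hy.2 hy.1
  rwa [mul_zero] at this

theorem Js_le {K K' : Fl} : Js K K' F d ≤ Rs K K' F d := fun _ h => h.1

theorem Js_left {K K' : Fl} : ∀ x ∈ Rs K K' F d, ∀ y ∈ Js K K' F d, x * y ∈ Js K K' F d := by
  intro x hx y hy
  refine ⟨Rs_mul x hx y hy.1, hy.2.2 x hx, fun β hβ => ?_⟩
  rw [← mul_assoc]
  exact hy.2.2 _ (Rs_mul β hβ x hx)

theorem Js_right (hd : 4 ≤ d) (hF : IsSmoothForm F d) {K K' : Fl} [Countable K]
    (hFK : Coef K F) (hK' : K' ≤ clo K) :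
    ∀ x ∈ Js K K' F d, ∀ y ∈ Rs K K' F d, x * y ∈ Js K K' F d := by
  intro x hx y hy
  refine ⟨Rs_mul x hx.1 y hy, fun z hz h0 => ?_, fun β hβ z hz h0 => ?_⟩
  · exact hx.2.1 _ (hy.1.gen z hz) (deg_of_inE hd hF hFK hK' hy.1 hz h0)
  · exact hx.2.2 β hβ _ (hy.1.gen z hz) (deg_of_inE hd hF hFK hK' hy.1 hz h0)

/-- conjugation preserves the ring -/
theorem cj_mem_Rs (hd : 4 ≤ d) (hF : IsSmoothForm F d) (hFh : F.IsHomogeneous d) {K K' : Fl}
    (hFK : Coef K F) (hn : ∀ σ ∈ Fix K, ∀ x, σ x ∈ K' ↔ x ∈ K') {σ : ℂ ≃+* ℂ} (hσ : σ ∈ Fix K)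
    (x : En) : cj σ x ∈ Rs K K' F d ↔ x ∈ Rs K K' F d := by
  have key : ∀ τ ∈ Fix K, ∀ y ∈ Rs K K' F d, cj τ y ∈ Rs K K' F d := by
    intro τ hτ y hy
    refine ⟨hy.1.cj hFh hFK hn hτ, ?_⟩
    have := hy.2.cj hd hF hFh hFK hτ hy.1
    rwa [map_zero] at this
  refine ⟨fun h => ?_, key σ hσ x⟩
  have h1 := key σ⁻¹ (inv_mem hσ) _ h
  rw [← cj_mul, inv_mul_cancel] at h1
  convert h1 using 1
  apply LinearMap.ext
  intro z
  rw [cj_apply, inv_one, actC_one, actC_one]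

/-- `InI` may be checked on differences of points -/
theorem inI_of_points (hd : 4 ≤ d) (hF : IsSmoothForm F d) {K : Fl} [Countable K]
    (hFK : Coef K F) {φ : En} (h : ∀ p ∈ Gen K F, ∀ q ∈ Gen K F,
      φ (Finsupp.single p 1) - φ (Finsupp.single q 1) ∈ ratQ F) : InI K F φ := by
  intro z hz h0
  obtain ⟨p₀, hp₀⟩ := exists_gen hd hF K hFK
  have h1 := GenC_le (N := (ratQ F).comap
    (φ - deg.smulRight (φ (Finsupp.single p₀ 1)))) (fun p hp => by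
      rw [Submodule.mem_comap]
      change φ (Finsupp.single p 1) - deg (Finsupp.single p 1) • φ (Finsupp.single p₀ 1) ∈ ratQ F
      rw [deg_single, one_smul]
      exact h p hp p₀ hp₀) hz
  rw [Submodule.mem_comap] at h1
  change φ z - deg z • φ (Finsupp.single p₀ 1) ∈ ratQ F at h1
  rwa [h0, zero_smul, sub_zero] at h1

theorem foldr_apply (l : List (Cy →ₗ[ℚ] Cy)) (z : Cy) :
    l.foldr (fun (φ : Cy →ₗ[ℚ] Cy) w => φ w) z = (l.prod : En) z := by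
  induction l with
  | nil => rfl
  | cons a l ih =>
    rw [List.foldr_cons, List.prod_cons, ih]
    rfl

end Pool.Agent.VGS
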