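import Pool.Agent.VGS.DilDefs
import Pool.Agent.VGS.Trd

/-! Module Dil13: the dilation, existence (section 1.3 (i) and (iii)). -/

set_option autoImplicit false

open MvPolynomial

namespace Pool.Agent.VGS

/-! ### the direction -/

theorem dil_c (k₁ : Fl) [Countable k₁] (j : Fin 4) (hj : (j : ℕ) ≤ 1) {d : ℕ} (_hd : 1 ≤ d)
    (G : MvPolynomial (Fin 4) ℂ) (_hG : G.IsHomogeneous d) (a : ℂ) (_ha : Transcendental k₁ a)
    (_hG₀ : Coef k₁ (G - C a * X j ^ d)) (q : Fin 4 → ℂ) (_hq0 : ∀ i < j, q i = 0) (_hqj : q j = 1)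
    (_hqG : aeval q G = 0) (hqC : ∀ i, q i ∈ clo (adj k₁ {a})) :
    ∃ c : Fin 4 → ℂ, (∀ i, ∃ n : ℤ, c i = n) ∧ c j = 1 ∧ (∀ i < j, c i = 0) ∧ ¬ InD k₁ q c := by
  classical
  have h1 : ¬ AlgebraicIndependent k₁ ![q 2, q 3] := by
    intro h
    have h3 := h.injective
    have hI : (AlgebraicIndependent.matroid k₁ ℂ).Indep (Set.range ![q 2, q 3]) :=
      h.to_subtype_range
    have h4 : Set.range ![q 2, q 3] ⊆ (AlgebraicIndependent.matroid k₁ ℂ).closure {a} := by
      rw [AlgebraicIndependent.matroid_closure_eq]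
      rintro _ ⟨i, rfl⟩
      fin_cases i
      · exact mem_clo_adj.1 (hqC 2)
      · exact mem_clo_adj.1 (hqC 3)
    have h5 := hI.encard_le_eRk_of_subset h4
    rw [Matroid.eRk_closure_eq] at h5
    have h6 := h5.trans (Matroid.eRk_le_encard _ _)
    rw [Set.encard_singleton, ← Set.image_univ, h3.encard_image, Set.encard_univ,
      ENat.card_eq_coe_fintype_card, Fintype.card_fin] at h6
    exact absurd h6 (by norm_num)
  rw [ai_iff] at h1
  push Not at h1
  obtain ⟨P, hP, hP0, hPne⟩ := h1
  have h2 : ∃ n : Fin 2 → ℤ, eval (fun i => (n i : ℂ)) P ≠ 0 := by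
    by_contra hcon
    push Not at hcon
    apply hPne
    apply funext_set (fun _ => Set.range ((↑) : ℤ → ℂ))
    · intro i
      exact Set.infinite_range_of_injective Int.cast_injective
    · intro x hx
      choose n hn using fun i => hx i (Set.mem_univ i)
      have h3 : x = fun i => ((n i : ℤ) : ℂ) := funext fun i => (hn i).symm
      rw [h3, hcon n, map_zero]
  obtain ⟨n, hn⟩ := h2
  have hj2 : j ≠ 2 := by rintro rfl; revert hj; decide
  have hj3 : j ≠ 3 := by rintro rfl; revert hj; decide
  let N : Fin 4 → ℤ := fun i => if i = 2 then n 0 else if i = 3 then n 1 else if i = j then 1 else 0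
  refine ⟨fun i => (N i : ℂ), fun i => ⟨N i, rfl⟩, ?_, ?_, ?_⟩
  · simp [N, hj2, hj3]
  · intro i hi
    have h2 : i ≠ 2 := by
      rintro rfl
      have := Fin.lt_def.1 hi
      have h22 : ((2 : Fin 4) : ℕ) = 2 := rfl
      omega
    have h3 : i ≠ 3 := by
      rintro rfl
      have := Fin.lt_def.1 hi
      have h22 : ((3 : Fin 4) : ℕ) = 3 := rfl
      omega
    simp [N, h2, h3, hi.ne]
  · intro hIn
    have h3 : aeval (fun i => (N i : ℂ)) (rename ![2, 3] P) = 0 := by
      apply hIn
      · intro m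
        by_cases hm : coeff m (rename ![(2 : Fin 4), 3] P) = 0
        · rw [hm]; exact zero_mem _
        · obtain ⟨m', rfl, hm'⟩ := coeff_rename_ne_zero _ _ _ hm
          rw [coeff_rename_mapDomain _ (by decide)]
          exact hP m'
      · rw [aeval_rename, ← hP0]
        congr 1
        congr 1
        funext i
        fin_cases i <;> rfl
    apply hn
    rw [aeval_rename] at h3
    rw [← h3, ← coe_aeval_eq_eval]
    change aeval _ P = aeval _ P
    congr 1
    congr 1
    funext i
    fin_cases i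
    · simp [N]
    · simp [N]

/-! ### polynomials whose coefficients specialise -/

/-- all coefficients specialise -/
def SpPoly (V : ValuationSubring ℂ) (K : Fl) (p p' : Polynomial ℂ) : Prop :=
  ∀ n, Sp V K (p.coeff n) (p'.coeff n)

section
variable {V : ValuationSubring ℂ} {K : Fl}

theorem SpPoly.C (hV : IsPl V K) {x c : ℂ} (h : Sp V K x c) :
    SpPoly V K (Polynomial.C x) (Polynomial.C c) := by
  intro n
  rw [Polynomial.coeff_C, Polynomial.coeff_C]
  by_cases hn : n = 0
  · rw [if_pos hn, if_pos hn]; exact h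
  · rw [if_neg hn, if_neg hn]; exact Sp.const hV K.zero_mem

theorem SpPoly.X (hV : IsPl V K) : SpPoly V K Polynomial.X Polynomial.X := by
  intro n
  rw [Polynomial.coeff_X]
  by_cases hn : 1 = n
  · rw [if_pos hn]; exact Sp.const hV K.one_mem
  · rw [if_neg hn]; exact Sp.const hV K.zero_mem

theorem SpPoly.add (hV : IsPl V K) {p p' r r' : Polynomial ℂ} (h : SpPoly V K p p')
    (h' : SpPoly V K r r') : SpPoly V K (p + r) (p' + r') := by
  intro n
  rw [Polynomial.coeff_add, Polynomial.coeff_add]
  exact (h n).add hV (h' n)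

theorem SpPoly.sub (hV : IsPl V K) {p p' r r' : Polynomial ℂ} (h : SpPoly V K p p')
    (h' : SpPoly V K r r') : SpPoly V K (p - r) (p' - r') := by
  intro n
  rw [Polynomial.coeff_sub, Polynomial.coeff_sub]
  exact (h n).sub hV (h' n)

theorem SpPoly.mul (hV : IsPl V K) {p p' r r' : Polynomial ℂ} (h : SpPoly V K p p')
    (h' : SpPoly V K r r') : SpPoly V K (p * r) (p' * r') := by
  intro n
  rw [Polynomial.coeff_mul, Polynomial.coeff_mul]
  exact Sp.sum hV _ fun x _ => (h x.1).mul hV (h' x.2)

theorem SpPoly.pow (hV : IsPl V K) {p p' : Polynomial ℂ} (h : SpPoly V K p p') (n : ℕ) :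
    SpPoly V K (p ^ n) (p' ^ n) := by
  induction n with
  | zero =>
    rw [pow_zero, pow_zero, ← Polynomial.C_1]
    exact SpPoly.C hV (Sp.const hV K.one_mem)
  | succ n ih =>
    rw [pow_succ, pow_succ]
    exact ih.mul hV h

theorem SpPoly.prod (hV : IsPl V K) {ι : Type} (s : Finset ι) {p p' : ι → Polynomial ℂ}
    (h : ∀ i ∈ s, SpPoly V K (p i) (p' i)) : SpPoly V K (∏ i ∈ s, p i) (∏ i ∈ s, p' i) := by
  classical
  induction s using Finset.induction_on with
  | empty =>
    rw [Finset.prod_empty, Finset.prod_empty, ← Polynomial.C_1]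
    exact SpPoly.C hV (Sp.const hV K.one_mem)
  | insert i s his ih =>
    rw [Finset.prod_insert his, Finset.prod_insert his]
    exact (h i (Finset.mem_insert_self _ _)).mul hV
      (ih fun k hk => h k (Finset.mem_insert_of_mem hk))

theorem SpPoly.sum (hV : IsPl V K) {ι : Type} (s : Finset ι) {p p' : ι → Polynomial ℂ}
    (h : ∀ i ∈ s, SpPoly V K (p i) (p' i)) : SpPoly V K (∑ i ∈ s, p i) (∑ i ∈ s, p' i) := by
  classical
  induction s using Finset.induction_on with
  | empty =>
    rw [Finset.sum_empty, Finset.sum_empty, ← Polynomial.C_0]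
    exact SpPoly.C hV (Sp.const hV K.zero_mem)
  | insert i s his ih =>
    rw [Finset.sum_insert his, Finset.sum_insert his]
    exact (h i (Finset.mem_insert_self _ _)).add hV
      (ih fun k hk => h k (Finset.mem_insert_of_mem hk))

theorem SpPoly.aeval (hV : IsPl V K) {ι : Type} {G : MvPolynomial ι ℂ} (hG : Coef K G)
    {x x' : ι → Polynomial ℂ} (h : ∀ i, SpPoly V K (x i) (x' i)) :
    SpPoly V K (MvPolynomial.aeval x G) (MvPolynomial.aeval x' G) := by
  rw [aeval_def, aeval_def, eval₂_eq, eval₂_eq]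
  refine SpPoly.sum hV _ fun m _ => ?_
  refine SpPoly.mul hV (SpPoly.C hV (Sp.const hV (hG m))) ?_
  exact SpPoly.prod hV _ fun i _ => (h i).pow hV _

end

/-- evaluation of a polynomial in the parameter -/
theorem eval_aeval_line {ι : Type} (G : MvPolynomial ι ℂ) (x : ι → Polynomial ℂ) (t : ℂ) :
    (MvPolynomial.aeval x G).eval t = MvPolynomial.aeval (fun i => (x i).eval t) G := by
  rw [aeval_def, aeval_def, eval₂_eq, eval₂_eq, Polynomial.eval_finsetSum]
  refine Finset.sum_congr rfl fun m _ => ?_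
  rw [Polynomial.eval_mul, Polynomial.eval_prod]
  congr 1
  · exact Polynomial.eval_C
  · exact Finset.prod_congr rfl fun i _ => Polynomial.eval_pow _

theorem natDegree_aeval_line {ι : Type} {G : MvPolynomial ι ℂ} {d : ℕ}
    (hG : G.totalDegree ≤ d) (x : ι → Polynomial ℂ) (hx : ∀ i, (x i).natDegree ≤ 1) :
    (MvPolynomial.aeval x G).natDegree ≤ d := by
  rw [aeval_def, eval₂_eq]
  refine Polynomial.natDegree_sum_le_of_forall_le _ _ fun m hm => ?_
  refine (Polynomial.natDegree_C_mul_le _ _).trans ?_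
  refine (Polynomial.natDegree_prod_le _ _).trans ?_
  refine le_trans ?_ ((le_totalDegree hm).trans hG)
  refine Finset.sum_le_sum fun i _ => ?_
  refine (Polynomial.natDegree_pow_le).trans ?_
  calc m i * (x i).natDegree ≤ m i * 1 := Nat.mul_le_mul_left _ (hx i)
    _ = m i := mul_one _

/-! ### the moved point -/

/-- moving `a` to a nearby point `b` moves the algebraic functions of `a` -/
theorem move_pt (k₁ : Fl) [Countable k₁] (a : ℂ) (ha : Transcendental k₁ a) {n : ℕ}
    (q : Fin n → ℂ) (hqC : ∀ i, q i ∈ clo (adj k₁ {a})) :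
    ∃ (V : ValuationSubring ℂ) (b : ℂ) (y : Fin n → ℂ), IsPl V (clo (adj k₁ {a})) ∧
      b ∉ clo (adj k₁ {a}) ∧ Sp V (clo (adj k₁ {a})) b a ∧
      (∀ i, Sp V (clo (adj k₁ {a})) (y i) (q i)) ∧
      (∀ f : MvPolynomial (Fin n) ℂ, Coef k₁ f → aeval q f = 0 → aeval y f = 0) ∧
      (∀ f : MvPolynomial (Fin n) ℂ, Coef k₁ f → aeval q f = a → aeval y f = b) := by
  set K := clo (adj k₁ {a}) with hKdef
  have hK : clo K = K := clo_clo _
  have hk₁K : k₁ ≤ K := (le_adj _ _).trans (le_clo _)
  have haK : a ∈ K := le_clo _ (subset_adj _ _ rfl)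
  obtain ⟨b, hb⟩ := exists_notMem K
  obtain ⟨V, hV, hba⟩ := exists_place hK hb haK
  have hak : a ∉ clo k₁ := fun h => ha (mem_clo.1 h)
  have hbk : b ∉ clo k₁ := fun h => hb (clo_mono (le_adj _ _) h)
  obtain ⟨σ, hσ, hσa⟩ := exists_fix_tr k₁ hak hbk
  -- the field on which `σ` specialises to the identity
  let M : Fl :=
    { carrier := {z | Sp V K (σ z) z ∧ σ z ∈ adj K {b}}
      mul_mem' := fun {x y} hx hy => by
        refine ⟨?_, ?_⟩
        · rw [map_mul]; exact hx.1.mul hV hy.1
        · rw [map_mul]; exact mul_mem hx.2 hy.2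
      one_mem' := by
        refine ⟨?_, ?_⟩
        · rw [map_one]; exact Sp.const hV K.one_mem
        · rw [map_one]; exact one_mem _
      add_mem' := fun {x y} hx hy => by
        refine ⟨?_, ?_⟩
        · rw [map_add]; exact hx.1.add hV hy.1
        · rw [map_add]; exact add_mem hx.2 hy.2
      zero_mem' := by
        refine ⟨?_, ?_⟩
        · rw [map_zero]; exact Sp.const hV K.zero_mem
        · rw [map_zero]; exact zero_mem _
      algebraMap_mem' := fun r => by
        have h1 : σ (algebraMap ℚ ℂ r) = algebraMap ℚ ℂ r := by simp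
        refine ⟨?_, ?_⟩
        · rw [h1]; exact Sp.const hV (K.algebraMap_mem r)
        · rw [h1]; exact (adj K {b}).algebraMap_mem r
      inv_mem' := fun x hx => by
        refine ⟨?_, ?_⟩
        · rw [map_inv₀]
          by_cases h0 : x = 0
          · rw [h0, map_zero, inv_zero]; exact Sp.const hV K.zero_mem
          · exact hx.1.inv hV h0
        · rw [map_inv₀]; exact inv_mem hx.2 }
  have hM : adj k₁ {a} ≤ M := by
    refine adj_le ?_ ?_
    · intro x hx
      have h1 : σ x = x := hσ x hx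
      refine ⟨?_, ?_⟩
      · rw [h1]; exact Sp.const hV (hk₁K hx)
      · rw [h1]; exact le_adj _ _ (hk₁K hx)
    · rintro x rfl
      refine ⟨?_, ?_⟩
      · rw [hσa]; exact hba
      · rw [hσa]; exact subset_adj _ _ rfl
  -- integrality
  have hint : ∀ x ∈ K, σ x ∈ V := by
    intro x hx
    have h1 : IsIntegral (adj k₁ {a}) x := (mem_clo.1 hx).isIntegral
    obtain ⟨p, hpm, hpx⟩ := h1
    let φ : adj k₁ {a} →+* V :=
      { toFun := fun z => ⟨σ z, (hM z.2).1.mem hV⟩
        map_one' := by ext; simp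
        map_zero' := by ext; simp
        map_mul' := fun z w => by ext; simp
        map_add' := fun z w => by ext; simp }
    have h2 : IsIntegral V (σ x) := by
      refine ⟨p.map φ, hpm.map φ, ?_⟩
      rw [Polynomial.eval₂_map]
      have h3 : (algebraMap V ℂ).comp φ = (σ : ℂ →+* ℂ).comp (algebraMap (adj k₁ {a}) ℂ) := rfl
      rw [h3]
      have h4 := Polynomial.hom_eval₂ p (algebraMap (adj k₁ {a}) ℂ) (σ : ℂ →+* ℂ) x
      rw [hpx, map_zero] at h4
      exact h4.symm
    obtain ⟨z, hz⟩ := (IsIntegrallyClosed.isIntegral_iff (R := V) (K := ℂ)).1 h2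
    rw [← hz]
    exact z.2
  have hres : ∀ x ∈ K, ∃ c, Sp V K (σ x) c := by
    intro x hx
    refine exists_sp hK hV hb hba ?_ (hint x hx)
    rw [hKdef, mem_clo_iff_exists] at hx
    obtain ⟨p, hp0, hpc, hpx⟩ := hx
    rw [mem_clo_iff_exists]
    refine ⟨p.map (σ : ℂ →+* ℂ), ?_, ?_, ?_⟩
    · exact (Polynomial.map_ne_zero_iff σ.injective).2 hp0
    · intro n
      rw [Polynomial.coeff_map]
      exact (hM (hpc n)).2
    · have h2 := Polynomial.eval_map_apply (p := p) (f := (σ : ℂ →+* ℂ)) x
      rw [hpx, map_zero] at h2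
      exact h2
  choose! th hth using hres
  have huniq : ∀ x ∈ K, ∀ c, Sp V K (σ x) c → th x = c := fun x hx c hc => (hth x hx).unique hV hc
  -- the residue map is an automorphism of `K` over `k₁(a)`
  let A := algebraicClosure (adj k₁ {a}) ℂ
  have hAK : ∀ x : A, (x : ℂ) ∈ K := fun x => x.2
  let θ : A →ₐ[adj k₁ {a}] A :=
    { toFun := fun x => ⟨th x, (hth x x.2).1⟩
      map_one' := by
        apply Subtype.ext
        refine huniq _ K.one_mem _ ?_
        change Sp V K (σ (1 : ℂ)) 1
        rw [map_one]; exact Sp.const hV K.one_mem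
      map_zero' := by
        apply Subtype.ext
        refine huniq _ K.zero_mem _ ?_
        change Sp V K (σ (0 : ℂ)) 0
        rw [map_zero]; exact Sp.const hV K.zero_mem
      map_mul' := fun x y => by
        apply Subtype.ext
        refine huniq _ (K.mul_mem x.2 y.2) _ ?_
        change Sp V K (σ ((x : ℂ) * y)) (th x * th y)
        rw [map_mul]; exact (hth x x.2).mul hV (hth y y.2)
      map_add' := fun x y => by
        apply Subtype.ext
        refine huniq _ (K.add_mem x.2 y.2) _ ?_
        change Sp V K (σ ((x : ℂ) + y)) (th x + th y)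
        rw [map_add]; exact (hth x x.2).add hV (hth y y.2)
      commutes' := fun r => by
        apply Subtype.ext
        exact huniq _ (le_clo _ r.2) _ (hM r.2).1 }
  have hθ : Function.Bijective θ := Algebra.IsAlgebraic.algHom_bijective θ
  have hθv : ∀ x : A, ((θ x : A) : ℂ) = th x := fun _ => rfl
  choose q' hq' using fun i => hθ.2 ⟨q i, hqC i⟩
  have hq'v : ∀ i, th (q' i) = q i := fun i => by rw [← hθv, hq' i]
  have hy : ∀ i, Sp V K (σ (q' i)) (q i) := fun i => by
    rw [← hq'v i]; exact hth _ (q' i).2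
  have hKmem : ∀ f : MvPolynomial (Fin n) ℂ, Coef k₁ f → aeval (fun i => (q' i : ℂ)) f ∈ K := by
    intro f hf
    rw [aeval_def, eval₂_eq]
    exact sum_mem fun m _ => mul_mem (hk₁K (hf m)) (prod_mem fun i _ => pow_mem (q' i).2 _)
  have hkey : ∀ f : MvPolynomial (Fin n) ℂ, Coef k₁ f → ∀ z ∈ K, th z = aeval q f →
      aeval (fun i => σ (q' i)) f = σ z := by
    intro f hf z hz hzf
    rw [aeval_fix hf hσ]
    congr 1
    have h1 : Sp V K (σ (aeval (fun i => (q' i : ℂ)) f)) (aeval q f) := by
      rw [← aeval_fix hf hσ]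
      exact Sp.aeval hV (hf.mono hk₁K) hy
    have h2 := huniq _ (hKmem f hf) _ h1
    have h3 : θ ⟨_, hKmem f hf⟩ = θ ⟨z, hz⟩ := by
      apply Subtype.ext
      rw [hθv, hθv, h2, hzf]
    exact congrArg Subtype.val (hθ.1 h3)
  refine ⟨V, b, fun i => σ (q' i), hV, hb, hba, hy, ?_, ?_⟩
  · intro f hf h0
    rw [hkey f hf 0 K.zero_mem, map_zero]
    rw [h0]
    refine huniq _ K.zero_mem _ ?_
    rw [map_zero]; exact Sp.const hV K.zero_mem
  · intro f hf h0
    rw [hkey f hf a haK, hσa]
    rw [h0]
    refine huniq _ haK _ ?_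
    rw [hσa]; exact hba

/-! ### the parameter and the point -/

theorem dil_us (k₁ : Fl) [Countable k₁] (j : Fin 4) (_hj : (j : ℕ) ≤ 1) {d : ℕ} (_hd : 1 ≤ d)
    (G : MvPolynomial (Fin 4) ℂ) (hG : G.IsHomogeneous d) (a : ℂ) (ha : Transcendental k₁ a)
    (hG₀ : Coef k₁ (G - C a * X j ^ d)) (q : Fin 4 → ℂ) (hq0 : ∀ i < j, q i = 0) (hqj : q j = 1)
    (hqG : aeval q G = 0) (hqC : ∀ i, q i ∈ clo (adj k₁ {a})) (c : Fin 4 → ℂ)
    (hcZ : ∀ i, ∃ n : ℤ, c i = n) (hcj : c j = 1) (hc0 : ∀ i < j, c i = 0)
    (hc : ¬ InD k₁ q c) :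
    ∃ (u : ℂ) (s : Fin 4 → ℂ) (V : ValuationSubring ℂ), u ∉ clo (adj k₁ {a}) ∧
      (∀ i < j, s i = 0) ∧ s j = 1 ∧ aeval s G = 0 ∧
      InD k₁ q (fun i => (1 - u) * s i + u * c i) ∧ (∃ i, s i ∉ clo (adj k₁ {a})) ∧
      IsPl V (clo (adj k₁ {a})) ∧ Sp V (clo (adj k₁ {a})) u 0 ∧
      ∀ i, Sp V (clo (adj k₁ {a})) (s i) (q i) := by
  obtain ⟨V, b, y, hV, hb, hba, hy, hyD, hyb⟩ := move_pt k₁ a ha q hqC
  have hK : clo (clo (adj k₁ {a})) = clo (adj k₁ {a}) := clo_clo _
  have hk₁K : k₁ ≤ clo (adj k₁ {a}) := (le_adj _ _).trans (le_clo _)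
  have haK : a ∈ clo (adj k₁ {a}) := le_clo _ (subset_adj _ _ rfl)
  generalize hKdef : clo (adj k₁ {a}) = K at *
  have hck : ∀ i, c i ∈ k₁ := fun i => by
    obtain ⟨n, hn⟩ := hcZ i
    rw [hn]; exact intCast_mem k₁ n
  have hcK : ∀ i, c i ∈ K := fun i => hk₁K (hck i)
  have hGK : Coef K G := by
    intro m
    have h1 : G = (G - C a * X j ^ d) + C a * X j ^ d := by ring
    rw [h1, coeff_add]
    refine add_mem (hk₁K (hG₀ m)) ?_
    rw [coeff_C_mul]
    refine mul_mem haK ?_
    rw [X_pow_eq_monomial, coeff_monomial]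
    split_ifs
    · exact one_mem _
    · exact zero_mem _
  have hval : ∀ z : Fin 4 → ℂ, z j = 1 → aeval z G = aeval z (G - C a * X j ^ d) + a := by
    intro z hz
    rw [map_sub, map_mul, map_pow, aeval_X, hz, one_pow, mul_one, aeval_C]
    change _ = _ - a + a
    ring
  have hab : a ≠ b := by rintro rfl; exact hb haK
  -- the coordinates of `y`
  have hy0 : ∀ i < j, y i = 0 := by
    intro i hi
    have h1 := hyD (X i) (fun m => by
      rw [coeff_X]
      split_ifs
      · exact one_mem _
      · exact zero_mem _) (by rw [aeval_X]; exact hq0 i hi)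
    rwa [aeval_X] at h1
  have hyj : y j = 1 := by
    have h1 := hyD (X j - 1) (fun m => by
      rw [coeff_sub]
      refine sub_mem ?_ ?_
      · rw [coeff_X]
        split_ifs
        · exact one_mem _
        · exact zero_mem _
      · rw [coeff_one]
        split_ifs
        · exact one_mem _
        · exact zero_mem _) (by rw [map_sub, aeval_X, map_one, hqj, sub_self])
    rw [map_sub, aeval_X, map_one] at h1
    exact sub_eq_zero.1 h1
  have hyG : aeval y G = a - b := by
    have h1 := hyb (-(G - C a * X j ^ d)) (fun m => by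
      rw [coeff_neg]; exact neg_mem (hG₀ m)) (by
      rw [map_neg]
      have h2 := hval q hqj
      rw [hqG] at h2
      linear_combination h2)
    rw [map_neg] at h1
    rw [hval y hyj]
    linear_combination -h1
  -- the polynomial in the parameter
  let P : Polynomial ℂ :=
    aeval (fun i => Polynomial.C (y i) - Polynomial.X * Polynomial.C (c i)) G
  let P' : Polynomial ℂ :=
    aeval (fun i => Polynomial.C (q i) - Polynomial.X * Polynomial.C (c i)) G
  have hPP : SpPoly V K P P' := by
    refine SpPoly.aeval hV hGK fun i => ?_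
    exact (SpPoly.C hV (hy i)).sub hV ((SpPoly.X hV).mul hV (SpPoly.C hV (Sp.const hV (hcK i))))
  have hdeg : ∀ z : Fin 4 → ℂ,
      (aeval (fun i => Polynomial.C (z i) - Polynomial.X * Polynomial.C (c i)) G :
        Polynomial ℂ).natDegree ≤ d := by
    intro z
    refine natDegree_aeval_line hG.totalDegree_le _ fun i => ?_
    refine (Polynomial.natDegree_sub_le _ _).trans ?_
    refine max_le ?_ ?_
    · rw [Polynomial.natDegree_C]; exact Nat.zero_le _
    · refine (Polynomial.natDegree_mul_C_le _ _).trans ?_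
      rw [Polynomial.natDegree_X]
  have hev : ∀ (z : Fin 4 → ℂ) (t : ℂ),
      (aeval (fun i => Polynomial.C (z i) - Polynomial.X * Polynomial.C (c i)) G :
        Polynomial ℂ).eval t = aeval (fun i => z i - t * c i) G := by
    intro z t
    rw [eval_aeval_line]
    congr 1
    congr 1
    funext i
    rw [Polynomial.eval_sub, Polynomial.eval_mul, Polynomial.eval_X, Polynomial.eval_C,
      Polynomial.eval_C]
  have hsum : ∀ (R : Polynomial ℂ), R.natDegree ≤ d → ∀ t : ℂ,
      ∑ i : Fin (d + 1), R.coeff i * t ^ (i : ℕ) = R.eval t := by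
    intro R hR t
    rw [Polynomial.eval_eq_sum_range' (Nat.lt_succ_of_le hR)]
    exact Fin.sum_univ_eq_sum_range (fun n => R.coeff n * t ^ n) (d + 1)
  have hP'0 : P' ≠ 0 := by
    intro h0
    -- the reversed polynomial
    let R : Polynomial ℂ :=
      aeval (fun i => Polynomial.X * Polynomial.C (q i) - Polynomial.C (c i)) G
    have hR : ∀ t : ℂ, t ≠ 0 → R.eval t = 0 := by
      intro t ht
      have h1 := hev q t⁻¹
      change P'.eval t⁻¹ = _ at h1
      rw [h0, Polynomial.eval_zero] at h1
      change Polynomial.eval t (aeval _ G) = 0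
      rw [eval_aeval_line, aeval_scale hG (w := fun i => q i - t⁻¹ * c i) (a := t), ← h1, mul_zero]
      intro i
      simp only [Polynomial.eval_sub, Polynomial.eval_mul, Polynomial.eval_X, Polynomial.eval_C]
      rw [mul_sub, mul_inv_cancel_left₀ ht]
    have hR0 : R = 0 := by
      refine Polynomial.eq_zero_of_infinite_isRoot _ ?_
      refine Set.Infinite.mono (s := {0}ᶜ) (fun t ht => hR t ht) ?_
      exact (Set.finite_singleton (0 : ℂ)).infinite_compl
    have h1 : R.eval 0 = 0 := by rw [hR0, Polynomial.eval_zero]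
    change Polynomial.eval 0 (aeval _ G) = 0 at h1
    rw [eval_aeval_line, aeval_scale hG (w := c) (a := -1)] at h1
    · have h2 : aeval c G = 0 := by
        rcases mul_eq_zero.1 h1 with h | h
        · exact absurd h (pow_ne_zero _ (neg_ne_zero.2 one_ne_zero))
        · exact h
      rw [hval c hcj] at h2
      have h3 : a = -aeval c (G - C a * X j ^ d) := by linear_combination h2
      apply ha
      have h4 : aeval c (G - C a * X j ^ d) ∈ k₁ := by
        rw [aeval_def, eval₂_eq]
        exact sum_mem fun m _ => mul_mem (hG₀ m) (prod_mem fun i _ => pow_mem (hck i) _)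
      rw [h3]
      exact isAlgebraic_algebraMap (⟨_, neg_mem h4⟩ : k₁)
    · intro i
      simp
  obtain ⟨u, hu, hu0⟩ := exists_root_sp hK hV (n := d) (fun i => P.coeff i) (fun i => P'.coeff i)
    (fun i => hPP i) (by
      by_contra hcon
      push Not at hcon
      apply hP'0
      ext n
      rw [Polynomial.coeff_zero]
      by_cases hn : n < d + 1
      · exact hcon ⟨n, hn⟩
      · exact Polynomial.coeff_eq_zero_of_natDegree_lt (lt_of_le_of_lt (hdeg q) (by omega)))
    (r := 0) K.zero_mem (by
      rw [hsum P' (hdeg q)]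
      have h1 := hev q 0
      change P'.eval 0 = _ at h1
      have h2 : (fun i => q i - 0 * c i) = q := by funext i; ring
      rw [h1, h2, hqG])
  rw [hsum P (hdeg y)] at hu
  have huG : aeval (fun i => y i - u * c i) G = 0 := by
    rw [← hev y u]; exact hu
  have hune : u ≠ 0 := by
    rintro rfl
    have h1 : (fun i => y i - 0 * c i) = y := by funext i; ring
    rw [h1, hyG] at huG
    exact hab (sub_eq_zero.1 huG)
  have huK : u ∉ K := by
    intro h
    have h1 := val_const hV h hune
    have h2 := hu0.2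
    rw [sub_zero, h1] at h2
    exact lt_irrefl _ h2
  have hu1 : (1 - u) ≠ 0 := by
    intro h
    apply huK
    rw [← sub_eq_zero.1 h]
    exact K.one_mem
  have hys : ∀ i, y i = (1 - u) * ((y i - u * c i) / (1 - u)) + u * c i := by
    intro i
    rw [mul_div_cancel₀ _ hu1]
    ring
  have hys' : (fun i => (1 - u) * ((y i - u * c i) / (1 - u)) + u * c i) = y :=
    funext fun i => (hys i).symm
  have hsp : ∀ i, Sp V K ((y i - u * c i) / (1 - u)) (q i) := by
    intro i
    have h1 := ((hy i).sub hV (hu0.mul hV (Sp.const hV (hcK i)))).div hV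
      ((Sp.const hV K.one_mem).sub hV hu0) (by rw [sub_zero]; exact one_ne_zero)
    rwa [zero_mul, sub_zero, sub_zero, div_one] at h1
  refine ⟨u, fun i => (y i - u * c i) / (1 - u), V, huK, ?_, ?_, ?_, ?_, ?_, hV, hu0, hsp⟩
  · intro i hi
    change (y i - u * c i) / (1 - u) = 0
    rw [hy0 i hi, hc0 i hi, mul_zero, sub_zero, zero_div]
  · change (y j - u * c j) / (1 - u) = 1
    rw [hyj, hcj, mul_one]
    exact div_self hu1
  · rw [aeval_scale hG (w := fun i => y i - u * c i) (a := (1 - u)⁻¹), huG, mul_zero]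
    intro i
    rw [div_eq_inv_mul]
  · rw [hys']
    exact hyD
  · by_contra hcon
    push Not at hcon
    have h1 : ∀ i, (y i - u * c i) / (1 - u) = q i := fun i =>
      (Sp.const hV (hcon i)).unique hV (hsp i)
    apply hc
    intro f hf hqf
    -- the polynomial in the parameter
    let T : Polynomial ℂ := aeval (fun i => (Polynomial.C 1 - Polynomial.X) * Polynomial.C (q i) +
      Polynomial.X * Polynomial.C (c i)) f
    have hTT : SpPoly V K T T := by
      refine SpPoly.aeval hV (hf.mono hk₁K) fun i => ?_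
      refine SpPoly.add hV (SpPoly.mul hV (SpPoly.sub hV ?_ (SpPoly.X hV)) ?_)
        (SpPoly.mul hV (SpPoly.X hV) ?_)
      · exact SpPoly.C hV (Sp.const hV K.one_mem)
      · exact SpPoly.C hV (Sp.const hV (hqC i))
      · exact SpPoly.C hV (Sp.const hV (hcK i))
    have hTu : T.eval u = 0 := by
      change Polynomial.eval u (aeval _ f) = 0
      rw [eval_aeval_line, ← hyD f hf hqf]
      congr 1
      congr 1
      funext i
      rw [hys i, h1 i, Polynomial.eval_add, Polynomial.eval_mul, Polynomial.eval_mul,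
        Polynomial.eval_sub, Polynomial.eval_X, Polynomial.eval_C, Polynomial.eval_C,
        Polynomial.eval_C]
    have hT0 : T = 0 := by
      by_contra hT
      apply huK
      rw [← hK, mem_clo_iff_exists]
      exact ⟨T, hT, fun n => (hTT n).1, hTu⟩
    have hT1 : T.eval 1 = 0 := by rw [hT0, Polynomial.eval_zero]
    change Polynomial.eval 1 (aeval _ f) = 0 at hT1
    rw [eval_aeval_line] at hT1
    rw [← hT1]
    congr 1
    congr 1
    funext i
    simp

end Pool.Agent.VGS
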