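import Pool.Agent.VGS.Dil7
import Pool.Agent.VGS.Dil13

/-! Module Dil: the dilation (section 1.3). -/

set_option autoImplicit false

open MvPolynomial

namespace Pool.Agent.VGS

/-- Section 1.3. `E = k₁(a)`, `G = G₀ + a X_j ^ d`, `q` a zero of `G` over `clo E` with
`q_i = 0` for `i < j` and `q_j = 1`. -/
theorem dil (k₁ : Fl) [Countable k₁] (j : Fin 4) (hj : (j : ℕ) ≤ 1) {d : ℕ} (hd : 1 ≤ d)
    (G : MvPolynomial (Fin 4) ℂ) (hG : G.IsHomogeneous d) (a : ℂ) (ha : Transcendental k₁ a)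
    (hG₀ : Coef k₁ (G - C a * X j ^ d)) (q : Fin 4 → ℂ) (hq0 : ∀ i < j, q i = 0) (hqj : q j = 1)
    (hqG : aeval q G = 0) (hqC : ∀ i, q i ∈ clo (adj k₁ {a})) :
    ∃ u : ℂ, u ∉ clo (adj k₁ {a}) ∧ ∃ s : Fin 4 → ℂ, (∀ i < j, s i = 0) ∧ s j = 1 ∧
      aeval s G = 0 ∧ (∀ i, s i ∈ clo (adj (adj k₁ {a}) {u})) ∧
      (∃ i, s i ∉ clo (adj k₁ {a})) ∧
      (∃ V, IsPl V (clo (adj k₁ {a})) ∧ Sp V (clo (adj k₁ {a})) u 0 ∧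
        ∀ i, Sp V (clo (adj k₁ {a})) (s i) (q i)) ∧
      (∀ V, IsPl V (clo (adj k₁ {a})) → Sp V (clo (adj k₁ {a})) u 0 → ∀ w : Fin 4 → ℂ,
        (∀ i, Sp V (clo (adj k₁ {a})) (s i) (w i)) → ∃ σ ∈ Fix (adj k₁ {a}), ∀ i, σ (q i) = w i) ∧
      (∀ V, IsPl V (clo (adj k₁ {a})) → Sp V (clo (adj k₁ {a})) u 1 → ∃ i, s i ∉ V) := by
  obtain ⟨c, hcZ, hcj, hc0, hcD⟩ := dil_c k₁ j hj hd G hG a ha hG₀ q hq0 hqj hqG hqC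
  obtain ⟨u, s, V, hu, hs0, hsj, hsG, hsD, hsC, hV, hVu, hVs⟩ :=
    dil_us k₁ j hj hd G hG a ha hG₀ q hq0 hqj hqG hqC c hcZ hcj hc0 hcD
  exact ⟨u, hu, s, hs0, hsj, hsG, dil_ii k₁ j G a ha hG₀ q hqC hu hcZ hsj hsG hsD, hsC,
    ⟨V, hV, hVu, hVs⟩,
    fun V' hV' hu' w hw => dil_iv k₁ j G a hG₀ q hqj hqG hqC hcZ hsj hsG hsD hV' hu' hw,
    fun V' hV' hu' => dil_v k₁ a q hcZ hcD hsD hV' hu'⟩

end Pool.Agent.VGS
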