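import Pool.Agent.VGS.Frame
import Pool.Agent.VGS.Dil
import Pool.Agent.VGS.Link

/-! Module Asm: moving invariant cycles to `p` and to the line (sections 1.3 - 1.5). -/

set_option autoImplicit false

open scoped LinearAlgebra.Projectivization
open MvPolynomial

namespace Pool.Agent.VGS

open Pool.Agent.LowDeg (surf IsSmoothForm)

variable {F : MvPolynomial (Fin 4) ℂ} {d : ℕ}

/-- The sum of the conjugates of a point. -/
noncomputable def Orb (E : Fl) (q : PP) : Cy := sumSet {q' | ∃ σ ∈ Fix E, act σ q = q'}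

/-! ### sums of points -/

open Classical in
theorem asm_sumSet_apply {s : Set PP} (hs : s.Finite) (q : PP) :
    sumSet s q = if q ∈ s then 1 else 0 := by
  unfold sumSet
  rw [finsum_mem_eq_finite_toFinset_sum _ hs, Finsupp.finsetSum_apply]
  simp only [Finsupp.single_apply]
  rw [Finset.sum_ite_eq']
  simp only [Set.Finite.mem_toFinset]

theorem asm_orb_mem_iff {E : Fl} {q : PP} {σ : ℂ ≃+* ℂ} (hσ : σ ∈ Fix E) (q' : PP) :
    act σ q' ∈ {q' | ∃ τ ∈ Fix E, act τ q = q'} ↔ q' ∈ {q' | ∃ τ ∈ Fix E, act τ q = q'} := by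
  constructor
  · rintro ⟨τ, hτ, h⟩
    refine ⟨σ⁻¹ * τ, (Fix E).mul_mem ((Fix E).inv_mem hσ) hτ, ?_⟩
    rw [act_mul, h, act_inv_act]
  · rintro ⟨τ, hτ, h⟩
    exact ⟨σ * τ, (Fix E).mul_mem hσ hτ, by rw [act_mul, h]⟩

theorem Orb_apply_act {E : Fl} {q : PP} (hq : Over (clo E) q) {σ : ℂ ≃+* ℂ} (hσ : σ ∈ Fix E)
    (q' : PP) : Orb E q (act σ q') = Orb E q q' := by
  unfold Orb
  rw [asm_sumSet_apply (finite_orbit_pt E hq), asm_sumSet_apply (finite_orbit_pt E hq)]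
  by_cases h : q' ∈ {q' | ∃ τ ∈ Fix E, act τ q = q'}
  · rw [if_pos h, if_pos ((asm_orb_mem_iff hσ q').2 h)]
  · rw [if_neg h, if_neg (fun h' => h ((asm_orb_mem_iff hσ q').1 h'))]

theorem actC_Orb {E : Fl} {q : PP} (hq : Over (clo E) q) {σ : ℂ ≃+* ℂ} (hσ : σ ∈ Fix E) :
    actC σ (Orb E q) = Orb E q := by
  ext q'
  rw [actC_apply, Orb_apply_act hq ((Fix E).inv_mem hσ)]

/-! ### linear changes of coordinates -/

theorem asm_exists_inv_mat {L : Fl} {M : Matrix (Fin 4) (Fin 4) ℂ} (hdet : M.det ≠ 0)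
    (hL : ∀ i j, M i j ∈ L) : ∃ N : Matrix (Fin 4) (Fin 4) ℂ, (∀ i j, N i j ∈ L) ∧
      N * M = 1 ∧ M * N = 1 := by
  obtain ⟨M', rfl⟩ : ∃ M' : Matrix (Fin 4) (Fin 4) L, M'.map (algebraMap L ℂ) = M :=
    ⟨fun i j => ⟨M i j, hL i j⟩, rfl⟩
  have h1 : M'.det ≠ 0 := by
    intro h
    apply hdet
    have h2 := RingHom.map_det (algebraMap L ℂ) M'
    rw [h, map_zero] at h2
    exact h2.symm
  have h3 : IsUnit M'.det := isUnit_iff_ne_zero.2 h1
  refine ⟨(M'⁻¹).map (algebraMap L ℂ), fun i j => (M'⁻¹ i j).2, ?_, ?_⟩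
  · rw [← Matrix.map_mul, Matrix.nonsing_inv_mul _ h3, Matrix.map_one _ (map_zero _) (map_one _)]
  · rw [← Matrix.map_mul, Matrix.mul_nonsing_inv _ h3, Matrix.map_one _ (map_zero _) (map_one _)]

theorem asm_mulVec_ne_zero' {M : Matrix (Fin 4) (Fin 4) ℂ} (hdet : M.det ≠ 0) {z : Fin 4 → ℂ}
    (hz : z ≠ 0) : M.mulVec z ≠ 0 := by
  intro h
  apply hz
  have h3 : IsUnit M.det := isUnit_iff_ne_zero.2 hdet
  have h1 : (M⁻¹ * M).mulVec z = 0 := by
    rw [← Matrix.mulVec_mulVec, h, Matrix.mulVec_zero]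
  rwa [Matrix.nonsing_inv_mul _ h3, Matrix.one_mulVec] at h1

theorem asm_mulVec_mem {L : Fl} {M : Matrix (Fin 4) (Fin 4) ℂ} (hL : ∀ i j, M i j ∈ L)
    {z : Fin 4 → ℂ} (hz : ∀ i, z i ∈ L) (i : Fin 4) : M.mulVec z i ∈ L := by
  unfold Matrix.mulVec dotProduct
  exact sum_mem fun j _ => L.mul_mem (hL i j) (hz j)

theorem asm_aeval_frG (F : MvPolynomial (Fin 4) ℂ) (M : Matrix (Fin 4) (Fin 4) ℂ) (z : Fin 4 → ℂ) :
    aeval z (frG F M) = aeval (M.mulVec z) F := by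
  unfold frG
  rw [← AlgHom.comp_apply]
  congr 1
  ext i
  simp [Matrix.mulVec, dotProduct]

theorem asm_frG_hom {F : MvPolynomial (Fin 4) ℂ} (hF : F.IsHomogeneous d)
    (M : Matrix (Fin 4) (Fin 4) ℂ) : (frG F M).IsHomogeneous d := by
  have h := MvPolynomial.IsHomogeneous.aeval hF (fun i => ∑ j, C (M i j) * X j) (n := 1)
    (fun i => IsHomogeneous.sum _ _ _ fun j _ => isHomogeneous_C_mul_X _ _)
  rwa [one_mul] at h

theorem asm_mkP_mulVec {M : Matrix (Fin 4) (Fin 4) ℂ} (hdet : M.det ≠ 0) {z : Fin 4 → ℂ}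
    (hz : z ≠ 0) :
    mkP (M.mulVec z) = Projectivization.mk ℂ (M.mulVec z) (asm_mulVec_ne_zero' hdet hz) := mkP_eq _

theorem asm_exists_mkP {M : Matrix (Fin 4) (Fin 4) ℂ} (hdet : M.det ≠ 0) (q : PP) :
    ∃ w : Fin 4 → ℂ, w ≠ 0 ∧ q = mkP (M.mulVec w) := by
  have h3 : IsUnit M.det := isUnit_iff_ne_zero.2 hdet
  have h1 : M.mulVec (M⁻¹.mulVec q.rep) = q.rep := by
    rw [Matrix.mulVec_mulVec, Matrix.mul_nonsing_inv _ h3, Matrix.one_mulVec]
  have h2 : M⁻¹.mulVec q.rep ≠ 0 := by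
    intro h
    rw [h, Matrix.mulVec_zero] at h1
    exact q.rep_nonzero h1.symm
  refine ⟨_, h2, ?_⟩
  rw [asm_mkP_mulVec hdet h2]
  simp only [h1]
  exact q.mk_rep.symm

theorem asm_mkP_mulVec_smul {M : Matrix (Fin 4) (Fin 4) ℂ} (hdet : M.det ≠ 0) {w : Fin 4 → ℂ}
    (hw : w ≠ 0) {a : ℂ} (ha : a ≠ 0) : mkP (M.mulVec (a • w)) = mkP (M.mulVec w) := by
  rw [asm_mkP_mulVec hdet hw, asm_mkP_mulVec hdet (smul_ne_zero ha hw)]
  refine mk_eq_mk_of_mul (a := a) _ _ fun i => ?_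
  rw [Matrix.mulVec_smul]
  rfl

theorem asm_mkP_mem_surf {F : MvPolynomial (Fin 4) ℂ} (hF : F.IsHomogeneous d)
    {M : Matrix (Fin 4) (Fin 4) ℂ} (hdet : M.det ≠ 0) {z : Fin 4 → ℂ} (hz : z ≠ 0) :
    mkP (M.mulVec z) ∈ surf F ↔ aeval z (frG F M) = 0 := by
  rw [asm_mkP_mulVec hdet hz, mem_surf_mk hF, asm_aeval_frG]

theorem asm_over_mulVec {L : Fl} {M : Matrix (Fin 4) (Fin 4) ℂ} (hdet : M.det ≠ 0)
    (hL : ∀ i j, M i j ∈ L) {z : Fin 4 → ℂ} {j : Fin 4} (hzj : z j = 1) :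
    Over L (mkP (M.mulVec z)) ↔ ∀ i, z i ∈ L := by
  have hz : z ≠ 0 := by
    rintro rfl
    exact zero_ne_one hzj
  rw [asm_mkP_mulVec hdet hz]
  constructor
  · rintro ⟨w, hw, hwL, h⟩
    obtain ⟨a, ha, h1⟩ := (mk_eq_mk_iff_exists _ _).1 h
    obtain ⟨N, hN, hNM, -⟩ := asm_exists_inv_mat hdet hL
    have h2 : z = a • N.mulVec w := by
      rw [← Matrix.mulVec_smul]
      have h3 : M.mulVec z = a • w := funext h1
      rw [← h3, Matrix.mulVec_mulVec, hNM, Matrix.one_mulVec]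
    have h4 : a * N.mulVec w j = 1 := by
      rw [← hzj]
      conv_rhs => rw [h2]
      rfl
    have h5 : a = (N.mulVec w j)⁻¹ := eq_inv_of_mul_eq_one_left h4
    intro i
    have h6 : z i = a * N.mulVec w i := congrFun h2 i
    rw [h6, h5]
    exact L.mul_mem (L.inv_mem (asm_mulVec_mem hN hwL j)) (asm_mulVec_mem hN hwL i)
  · intro h
    exact ⟨_, _, asm_mulVec_mem hL h, rfl⟩

theorem asm_act_mkP {L : Fl} {M : Matrix (Fin 4) (Fin 4) ℂ} (hdet : M.det ≠ 0)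
    (hL : ∀ i j, M i j ∈ L) {σ : ℂ ≃+* ℂ} (hσ : σ ∈ Fix L) {z : Fin 4 → ℂ} (hz : z ≠ 0) :
    act σ (mkP (M.mulVec z)) = mkP (M.mulVec fun i => σ (z i)) := by
  have h : (fun i => σ (M.mulVec z i)) = M.mulVec fun i => σ (z i) := by
    funext i
    simp only [Matrix.mulVec, dotProduct, map_sum, map_mul]
    exact Finset.sum_congr rfl fun j _ => by rw [hσ _ (hL i j)]
  rw [asm_mkP_mulVec hdet hz, asm_mkP_mulVec hdet (map_ne_zero' σ hz),
    act_mk σ _ _ (map_ne_zero' σ (asm_mulVec_ne_zero' hdet hz))]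
  congr 1

theorem asm_sp_mulVec {V : ValuationSubring ℂ} {C : Fl} (hV : IsPl V C)
    {M : Matrix (Fin 4) (Fin 4) ℂ} (hL : ∀ i j, M i j ∈ C) {s w : Fin 4 → ℂ}
    (h : ∀ i, Sp V C (s i) (w i)) (i : Fin 4) : Sp V C (M.mulVec s i) (M.mulVec w i) := by
  unfold Matrix.mulVec dotProduct
  exact Sp.sum hV _ fun j _ => (Sp.const hV (hL i j)).mul hV (h j)

theorem asm_spP_mulVec {V : ValuationSubring ℂ} {C : Fl} (hV : IsPl V C)
    {M : Matrix (Fin 4) (Fin 4) ℂ} (hdet : M.det ≠ 0) (hL : ∀ i j, M i j ∈ C) {s w : Fin 4 → ℂ}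
    (hs : s ≠ 0) (hw : w ≠ 0) :
    SpP V C (mkP (M.mulVec s)) (mkP (M.mulVec w)) ↔
      SpP V C (Projectivization.mk ℂ s hs) (Projectivization.mk ℂ w hw) := by
  rw [asm_mkP_mulVec hdet hs, asm_mkP_mulVec hdet hw]
  constructor
  · rintro ⟨s', w', hs', hw', h1, h2, h3⟩
    obtain ⟨N, hN, hNM, hMN⟩ := asm_exists_inv_mat hdet hL
    obtain ⟨a, ha, h4⟩ := (mk_eq_mk_iff_exists _ _).1 h1
    obtain ⟨b, hb, h5⟩ := (mk_eq_mk_iff_exists _ _).1 h2
    have h4' : s = a • N.mulVec s' := by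
      rw [← Matrix.mulVec_smul]
      have h3 : M.mulVec s = a • s' := funext h4
      rw [← h3, Matrix.mulVec_mulVec, hNM, Matrix.one_mulVec]
    have h5' : w = b • N.mulVec w' := by
      rw [← Matrix.mulVec_smul]
      have h3 : M.mulVec w = b • w' := funext h5
      rw [← h3, Matrix.mulVec_mulVec, hNM, Matrix.one_mulVec]
    have h6 : N.mulVec s' ≠ 0 := by
      intro h0
      rw [h0, smul_zero] at h4'
      exact hs h4'
    have h7 : N.mulVec w' ≠ 0 := by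
      intro h0
      rw [h0, smul_zero] at h5'
      exact hw h5'
    refine ⟨_, _, h6, h7, ?_, ?_, asm_sp_mulVec hV hN h3⟩
    · exact mk_eq_mk_of_mul (a := a) _ _ fun i => congrFun h4' i
    · exact mk_eq_mk_of_mul (a := b) _ _ fun i => congrFun h5' i
  · rintro ⟨s', w', hs', hw', h1, h2, h3⟩
    obtain ⟨a, ha, h4⟩ := (mk_eq_mk_iff_exists _ _).1 h1
    obtain ⟨b, hb, h5⟩ := (mk_eq_mk_iff_exists _ _).1 h2
    refine ⟨_, _, asm_mulVec_ne_zero' hdet hs', asm_mulVec_ne_zero' hdet hw', ?_, ?_,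
      asm_sp_mulVec hV hL h3⟩
    · refine mk_eq_mk_of_mul (a := a) _ _ fun i => ?_
      have : s = a • s' := funext h4
      rw [this, Matrix.mulVec_smul]
      rfl
    · refine mk_eq_mk_of_mul (a := b) _ _ fun i => ?_
      have : w = b • w' := funext h5
      rw [this, Matrix.mulVec_smul]
      rfl

/-! ### the coefficients of `F (M z)` -/

theorem asm_adj_eq (L : Fl) (S : Set ℂ) :
    adj L S = (IntermediateField.adjoin L S).restrictScalars ℚ :=
  (IntermediateField.restrictScalars_adjoin_eq_sup ℚ L S).symm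

theorem asm_mem_clo_adj {L : Fl} {S : Set ℂ} {x : ℂ} :
    x ∈ clo (adj L S) ↔ IsAlgebraic (Algebra.adjoin L S) x := by
  have h1 : x ∈ clo (adj L S) ↔ IsAlgebraic (IntermediateField.adjoin L S) x := by
    rw [mem_clo, asm_adj_eq]; rfl
  rw [h1]
  open scoped IntermediateField.algebraAdjoinAdjoin in
  exact (IsFractionRing.isAlgebraic_iff (Algebra.adjoin L S) (IntermediateField.adjoin L S) ℂ).symm

theorem asm_mem_frk (k : Fl) (M : Matrix (Fin 4) (Fin 4) ℂ) (i j : Fin 4) : M i j ∈ frk k M :=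
  subset_adj _ _ ⟨(i, j), rfl⟩

theorem asm_mem_frE (k : Fl) (F : MvPolynomial (Fin 4) ℂ) (M : Matrix (Fin 4) (Fin 4) ℂ)
    (i j : Fin 4) : M i j ∈ frE k F M := le_adj _ _ (asm_mem_frk k M i j)

theorem asm_coef_frG (k : Fl) (F : MvPolynomial (Fin 4) ℂ) (M : Matrix (Fin 4) (Fin 4) ℂ) :
    Coef (frE k F M) (frG F M) := fun m => subset_adj _ _ ⟨m, rfl⟩

instance asm_countable_frk (k : Fl) [Countable k] (M : Matrix (Fin 4) (Fin 4) ℂ) :
    Countable (frk k M) := by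
  unfold frk
  have : Countable (Set.range fun ij : Fin 4 × Fin 4 => M ij.1 ij.2) :=
    (Set.countable_range _).to_subtype
  infer_instance

instance asm_countable_frE (k : Fl) [Countable k] (F : MvPolynomial (Fin 4) ℂ)
    (M : Matrix (Fin 4) (Fin 4) ℂ) : Countable (frE k F M) := by
  unfold frE
  have : Countable (Set.range fun m => coeff m (frG F M)) :=
    (Set.countable_range _).to_subtype
  infer_instance

/-- `E = k₁(a)`, where `a` is the coefficient of `X_j ^ d`. -/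
theorem asm_frE_split (hd : 4 ≤ d) (hF : IsSmoothForm F d) {k : Fl} [Countable k] {p : PP}
    {M : Matrix (Fin 4) (Fin 4) ℂ} (hM : IsFrame k F d p M) {j : Fin 4} (hj : j ≠ 3) :
    ∃ k₁ : Fl, Countable k₁ ∧
      Transcendental k₁ (coeff (Finsupp.single j d) (frG F M)) ∧
      Coef k₁ (frG F M - C (coeff (Finsupp.single j d) (frG F M)) * X j ^ d) ∧
      frE k F M = adj k₁ {coeff (Finsupp.single j d) (frG F M)} := by
  classical
  have hG := asm_frG_hom hF.hom M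
  have hjd : (Finsupp.single j d).degree = d := by
    rw [Finsupp.degree_single]
  have hj3 : (Finsupp.single j d : Fin 4 →₀ ℕ) ≠ Finsupp.single 3 d := by
    intro h
    have h1 := DFunLike.congr_fun h j
    rw [Finsupp.single_eq_same, Finsupp.single_eq_of_ne hj] at h1
    omega
  let x : Mon d → ℂ := fun m => coeff m.1 (frG F M)
  let mj : Mon d := ⟨Finsupp.single j d, hjd, hj3⟩
  let S : Set ℂ := x '' {m | m ≠ mj}
  have hmem : ∀ m, m ≠ Finsupp.single j d → coeff m (frG F M) ∈ adj (frk k M) S := by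
    intro m hm
    by_cases h1 : m.degree = d
    · by_cases h2 : m = Finsupp.single 3 d
      · rw [h2, hM.top]
        exact zero_mem _
      · refine subset_adj _ _ ⟨⟨m, h1, h2⟩, ?_, rfl⟩
        intro h3
        exact hm (congrArg Subtype.val h3)
    · rw [hG.coeff_eq_zero h1]
      exact zero_mem _
  have hMc : Countable (Mon d) := by
    unfold Mon
    infer_instance
  have hSc : Countable S := ((Set.to_countable _).image x).to_subtype
  refine ⟨adj (frk k M) S, inferInstance, ?_, ?_, ?_⟩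
  · have h1 := hM.ind.transcendental_adjoin (s := {m | m ≠ mj}) (i := mj) (by simp)
    intro h2
    apply h1
    rw [← asm_mem_clo_adj, mem_clo]
    exact h2
  · intro m
    rw [coeff_sub, coeff_C_mul, coeff_X_pow]
    by_cases h : Finsupp.single j d = m
    · rw [if_pos h, mul_one, h, sub_self]
      exact zero_mem _
    · rw [if_neg h, mul_zero, sub_zero]
      exact hmem m (Ne.symm h)
  · rw [adj_adj]
    unfold frE
    apply le_antisymm
    · refine adj_le (le_adj _ _) ?_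
      rintro _ ⟨m, rfl⟩
      by_cases h : m = Finsupp.single j d
      · exact subset_adj _ _ (Or.inr (by rw [h]; rfl))
      · have h1 : adj (frk k M) S ≤
            adj (frk k M) (S ∪ {coeff (Finsupp.single j d) (frG F M)}) :=
          adj_le (le_adj _ _) (fun y hy => subset_adj _ _ (Or.inl hy))
        exact h1 (hmem m h)
    · refine adj_le (le_adj _ _) ?_
      rintro y (⟨m, -, rfl⟩ | hy)
      · exact subset_adj _ _ ⟨m.1, rfl⟩
      · rw [Set.mem_singleton_iff.1 hy]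
        exact subset_adj _ _ ⟨_, rfl⟩

/-! ### limits -/

/-- the limit of a conjugate of the point with coordinates `s` -/
theorem asm_lim {E : Fl} {u c : ℂ} (hc : c ∈ E) {M : Matrix (Fin 4) (Fin 4) ℂ}
    (hdet : M.det ≠ 0) (hME : ∀ i j, M i j ∈ E) {j : Fin 4} {s : Fin 4 → ℂ}
    (hs0 : ∀ i < j, s i = 0) (hsj : s j = 1) {V : ValuationSubring ℂ} (hV : IsPl V (clo E))
    (hu : Sp V (clo E) u c) {σ : ℂ ≃+* ℂ} (hσ : σ ∈ Fix (adj E {u})) {q : PP}
    (h : SpP V (clo E) (act σ (mkP (M.mulVec s))) q) :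
    (∃ w : Fin 4 → ℂ, w ≠ 0 ∧ (∀ i ≤ j, w i = 0) ∧ q = mkP (M.mulVec w)) ∨
    (∃ V', IsPl V' (clo E) ∧ Sp V' (clo E) u c ∧ ∃ w : Fin 4 → ℂ,
      (∀ i, Sp V' (clo E) (s i) (w i)) ∧ q = mkP (M.mulVec fun i => σ (w i))) := by
  have hs : s ≠ 0 := by
    rintro rfl
    exact zero_ne_one hsj
  obtain ⟨w, hw, rfl⟩ := asm_exists_mkP hdet q
  have hσE : σ ∈ Fix E := Fix_mono (le_adj _ _) hσ
  have hMC : ∀ i j, M i j ∈ clo E := fun i j => le_clo _ (hME i j)
  rw [asm_act_mkP hdet hME hσE hs, asm_spP_mulVec hV hdet hMC (map_ne_zero' σ hs) hw] at h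
  have hw0 : ∀ i < j, w i = 0 := by
    intro i hi
    have h1 := spP_zero hV (map_ne_zero' σ hs) hw (isHomogeneous_X ℂ i)
      (fun m => by
        classical
        rw [coeff_X]
        split_ifs
        · exact one_mem _
        · exact zero_mem _) h (by rw [aeval_X, hs0 i hi, map_zero])
    rwa [aeval_X] at h1
  by_cases hwj : w j = 0
  · refine Or.inl ⟨w, hw, fun i hi => ?_, rfl⟩
    rcases hi.lt_or_eq with h1 | h1
    · exact hw0 i h1
    · rw [h1]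
      exact hwj
  · refine Or.inr ?_
    have hσj : (fun i => σ (s i)) j = 1 := by
      simp only [hsj, map_one]
    have hwj' : ((w j)⁻¹ • w) j = 1 := inv_mul_cancel₀ hwj
    have hw' : (w j)⁻¹ • w ≠ 0 := smul_ne_zero (inv_ne_zero hwj) hw
    have h1 : (Projectivization.mk ℂ w hw : PP) = Projectivization.mk ℂ ((w j)⁻¹ • w) hw' := by
      refine mk_eq_mk_of_mul (a := w j) _ _ fun i => ?_
      change w i = w j * ((w j)⁻¹ * w i)
      rw [mul_inv_cancel_left₀ hwj]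
    rw [h1, spP_mk hV (map_ne_zero' σ hs) hw' hσj hwj'] at h
    have hσ' := (Fix (adj E {u})).inv_mem hσ
    have hσ'E : σ⁻¹ ∈ Fix E := Fix_mono (le_adj _ _) hσ'
    obtain ⟨V', hV', hSp, -⟩ := exists_transport hV σ⁻¹ (fun x => fix_mem_clo hσ'E)
    refine ⟨V', hV', ?_, fun i => σ⁻¹ (((w j)⁻¹ • w) i), fun i => ?_, ?_⟩
    · have h2 := (hSp u c).2 hu
      rwa [hσ' u (subset_adj _ _ rfl), hσ'E c hc] at h2
    · have h2 := (hSp _ _).2 (h i)
      have h3 : σ⁻¹ (σ (s i)) = s i := σ.symm_apply_apply _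
      rwa [h3] at h2
    · rw [← asm_mkP_mulVec_smul hdet hw (inv_ne_zero hwj)]
      congr 2
      funext i
      exact (σ.apply_symm_apply _).symm

/-- One step (`j = 0` or `1`): formula (1.2). -/
theorem asm_step (hd : 4 ≤ d) (hF : IsSmoothForm F d) (k : Fl) [Countable k]
    {p : PP} (hp : p ∈ Gen (cof k F) F) {M : Matrix (Fin 4) (Fin 4) ℂ} (hM : IsFrame k F d p M)
    (j : Fin 4) (hj : (j : ℕ) ≤ 1) {z : Fin 4 → ℂ} (hz0 : ∀ i < j, z i = 0) (hzj : z j = 1)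
    (hzF : mkP (M.mulVec z) ∈ surf F) (hzE : Over (clo (frE k F M)) (mkP (M.mulVec z)))
    (hzK : ¬ Over (clo (cof k F)) (mkP (M.mulVec z)))
    (hgen : (j : ℕ) = 0 → mkP (M.mulVec z) ∈ Gen (cof k F) F) :
    ∃ (e : ℕ) (y : Cy), 0 < e ∧ (∀ σ ∈ Fix (frE k F M), actC σ y = y) ∧
      (∀ q ∈ y.support, q ∈ surf F ∧ Over (clo (frE k F M)) q ∧
        ∃ w : Fin 4 → ℂ, w ≠ 0 ∧ (∀ i ≤ j, w i = 0) ∧ q = mkP (M.mulVec w)) ∧
      (e : ℚ) • Orb (frE k F M) (mkP (M.mulVec z)) + y ∈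
        Nice (cof k F) (clo (frE k F M)) F := by
  classical
  have hdet := hM.det
  have hME : ∀ i j, M i j ∈ frE k F M := asm_mem_frE k F M
  have hMC : ∀ i j, M i j ∈ clo (frE k F M) := fun i j => le_clo _ (hME i j)
  have hj3 : j ≠ 3 := by
    rintro rfl
    exact absurd hj (by decide)
  have hz : z ≠ 0 := by
    rintro rfl
    exact zero_ne_one hzj
  have hKE : cof k F ≤ frE k F M := hM.le
  have hFK : Coef (cof k F) F := fun m => subset_adj _ _ ⟨m, rfl⟩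
  have hFE : Coef (frE k F M) F := hFK.mono hKE
  obtain ⟨k₁, hk₁, ha, hG₀, hEk⟩ := asm_frE_split hd hF hM hj3
  have hzG : aeval z (frG F M) = 0 := (asm_mkP_mem_surf hF.hom hdet hz).1 hzF
  have hzC : ∀ i, z i ∈ clo (frE k F M) := (asm_over_mulVec hdet hMC hzj).1 hzE
  have hdil := dil k₁ j hj (by omega) (frG F M) (asm_frG_hom hF.hom M) _ ha hG₀ z hz0 hzj hzG
    (by rw [← hEk]; exact hzC)
  rw [← hEk] at hdil
  obtain ⟨u, hu, s, hs0, hsj, hsG, hsC, hsn, ⟨V₀, hV₀, hu₀, hs₀⟩, hconj, hinf⟩ := hdil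
  clear hG₀ ha hEk hk₁
  have hEc : Countable (frE k F M) := asm_countable_frE k F M
  generalize hEdef : frE k F M = E at *
  have hs : s ≠ 0 := by
    rintro rfl
    exact zero_ne_one hsj
  -- the family
  have hsOver : Over (clo (adj E {u})) (mkP (M.mulVec s)) :=
    (asm_over_mulVec hdet (fun i j => le_clo _ (le_adj _ _ (hME i j))) hsj).2 hsC
  have hfin := finite_orbit_pt (adj E {u}) hsOver
  obtain ⟨S, hSnd, hSmem⟩ : ∃ S : Multiset PP, S.Nodup ∧
      ∀ q, q ∈ S ↔ ∃ σ ∈ Fix (adj E {u}), act σ (mkP (M.mulVec s)) = q := by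
    refine ⟨hfin.toFinset.val, hfin.toFinset.nodup, fun q => ?_⟩
    rw [Finset.mem_val, Set.Finite.mem_toFinset]
    rfl
  have hS : IsFam E u S := by
    refine ⟨fun q hq => ?_, fun σ hσ => ?_⟩
    · obtain ⟨σ, hσ, rfl⟩ := (hSmem q).1 hq
      exact (over_clo_act hσ).2 hsOver
    · refine (Multiset.Nodup.ext (hSnd.map (act_injective σ)) hSnd).2 fun q => ?_
      rw [Multiset.mem_map]
      constructor
      · rintro ⟨q', hq', rfl⟩
        obtain ⟨τ, hτ, rfl⟩ := (hSmem q').1 hq'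
        exact (hSmem _).2 ⟨σ * τ, (Fix _).mul_mem hσ hτ, by rw [act_mul]⟩
      · intro hq
        obtain ⟨τ, hτ, rfl⟩ := (hSmem q).1 hq
        refine ⟨act (σ⁻¹ * τ) (mkP (M.mulVec s)), (hSmem _).2
          ⟨_, (Fix _).mul_mem ((Fix _).inv_mem hσ) hτ, rfl⟩, ?_⟩
        rw [← act_mul, mul_inv_cancel_left]
  have hsS : mkP (M.mulVec s) ∈ S := (hSmem _).2 ⟨1, (Fix _).one_mem, act_one _⟩
  -- its members are generic
  have hsF : mkP (M.mulVec s) ∈ surf F := (asm_mkP_mem_surf hF.hom hdet hs).2 hsG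
  have hspP : SpP V₀ (clo E) (mkP (M.mulVec s)) (mkP (M.mulVec z)) :=
    (asm_spP_mulVec hV₀ hdet hMC hs hz).2 ((spP_mk hV₀ hs hz hsj hzj).2 hs₀)
  have hsGen : mkP (M.mulVec s) ∈ Gen (cof k F) F := by
    by_cases hj0 : (j : ℕ) = 0
    · exact SpP.gen hV₀ (hKE.trans (le_clo E)) hspP hsF (hgen hj0)
    · refine hM.gen s hs (hs0 0 (Fin.pos_iff_ne_zero.2 fun h => hj0 (by rw [h]; rfl))) hsF ?_
      rw [hEdef, asm_over_mulVec hdet hMC hsj]
      intro h
      obtain ⟨i, hi⟩ := hsn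
      exact hi (h i)
  have hFixK : ∀ σ ∈ Fix (adj E {u}), σ ∈ Fix (cof k F) := fun σ hσ =>
    Fix_mono (hKE.trans (le_adj _ _)) hσ
  have hSGen : ∀ q ∈ S, q ∈ Gen (cof k F) F := by
    intro q hq
    obtain ⟨σ, hσ, rfl⟩ := (hSmem q).1 hq
    exact (act_mem_Gen hF.hom hFK (hFixK σ hσ)).2 hsGen
  -- limits
  have hEu : adj E {u} ≤ adj (clo E) {u} :=
    adj_le ((le_clo E).trans (le_adj _ _)) (subset_adj _ _)
  have hSOver : ∀ q ∈ S, Over (clo (adj (clo E) {u})) q := fun q hq =>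
    (hS.isOver q hq).mono (clo_mono hEu)
  obtain ⟨V₁, hV₁, hu₁⟩ := exists_place (clo_clo E) hu (one_mem (clo E))
  have hex₀ : ∀ q ∈ S, ∃ q', SpP V₀ (clo E) q q' := fun q hq =>
    exists_spP (clo_clo E) hV₀ hu hu₀ (hSOver q hq)
  have hex₁ : ∀ q ∈ S, ∃ q', SpP V₁ (clo E) q q' := fun q hq =>
    exists_spP (clo_clo E) hV₁ hu hu₁ (hSOver q hq)
  choose! f hf using hex₀
  choose! g hg using hex₁
  have hlim₀ : ∀ q ∈ S, (∃ w : Fin 4 → ℂ, w ≠ 0 ∧ (∀ i ≤ j, w i = 0) ∧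
      f q = mkP (M.mulVec w)) ∨
      f q ∈ {q' | ∃ σ ∈ Fix E, act σ (mkP (M.mulVec z)) = q'} := by
    intro q hq
    have h1 := hf q hq
    obtain ⟨σ, hσ, rfl⟩ := (hSmem q).1 hq
    rcases asm_lim (zero_mem E) hdet hME hs0 hsj hV₀ hu₀ hσ h1 with h2 | ⟨V', hV', hu', w, hw, h2⟩
    · exact Or.inl h2
    · obtain ⟨τ, hτ, h3⟩ := hconj V' hV' hu' w hw
      refine Or.inr ⟨σ * τ, (Fix E).mul_mem (Fix_mono (le_adj _ _) hσ) hτ, ?_⟩
      rw [asm_act_mkP hdet hME ((Fix E).mul_mem (Fix_mono (le_adj _ _) hσ) hτ) hz, h2]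
      congr 2
      funext i
      rw [← h3 i]
      rfl
  have hlim₁ : ∀ q ∈ S, ∃ w : Fin 4 → ℂ, w ≠ 0 ∧ (∀ i ≤ j, w i = 0) ∧
      g q = mkP (M.mulVec w) := by
    intro q hq
    have h1 := hg q hq
    obtain ⟨σ, hσ, rfl⟩ := (hSmem q).1 hq
    rcases asm_lim (one_mem E) hdet hME hs0 hsj hV₁ hu₁ hσ h1 with h2 | ⟨V', hV', hu', w, hw, h2⟩
    · exact h2
    · obtain ⟨i, hi⟩ := hinf V' hV' hu'
      exact absurd ((hw i).mem hV') hi
  have hno : ∀ w : Fin 4 → ℂ, w ≠ 0 → (∀ i ≤ j, w i = 0) →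
      ¬ Over (clo (cof k F)) (mkP (M.mulVec w)) := fun w hw h0 h =>
    hM.avoid w hw h (h0 0 (Fin.zero_le j))
  have hno₀ : ∀ q ∈ S, ¬ Over (clo (cof k F)) (f q) := by
    intro q hq
    rcases hlim₀ q hq with ⟨w, hw, h0, h1⟩ | ⟨σ, hσ, h1⟩
    · rw [h1]
      exact hno w hw h0
    · rw [← h1, over_clo_act (Fix_mono hKE hσ)]
      exact hzK
  have hno₁ : ∀ q ∈ S, ¬ Over (clo (cof k F)) (g q) := by
    intro q hq
    obtain ⟨w, hw, h0, h1⟩ := hlim₁ q hq
    rw [h1]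
    exact hno w hw h0
  -- the cycles
  have hst₀ : ∀ σ ∈ Fix E, actC σ (cycQ (S.map f)) = cycQ (S.map f) := fun σ hσ => by
    rw [actC_cycQ, stable_ms hu hS (zero_mem E) hV₀ hu₀ hf hσ]
  have hst₁ : ∀ σ ∈ Fix E, actC σ (cycQ (S.map g)) = cycQ (S.map g) := fun σ hσ => by
    rw [actC_cycQ, stable_ms hu hS (one_mem E) hV₁ hu₁ hg hσ]
  refine ⟨(S.map f).count (mkP (M.mulVec z)), cycQ (S.map f) - cycQ (S.map g) -
    ((S.map f).count (mkP (M.mulVec z)) : ℚ) • Orb E (mkP (M.mulVec z)), ?_, ?_, ?_, ?_⟩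
  · rw [Multiset.count_pos, Multiset.mem_map]
    exact ⟨_, hsS, SpP.unique hV₀ (hf _ hsS) hspP⟩
  · intro σ hσ
    rw [map_sub, map_sub, map_smul, hst₀ σ hσ, hst₁ σ hσ, actC_Orb hzE hσ]
  · intro q hq
    have hq' := Finsupp.mem_support_iff.1 hq
    rw [Finsupp.sub_apply, Finsupp.sub_apply, Finsupp.smul_apply, smul_eq_mul] at hq'
    have key : q ∈ S.map g ∨ (q ∈ S.map f ∧
        q ∉ {q' | ∃ σ ∈ Fix E, act σ (mkP (M.mulVec z)) = q'}) := by
      by_cases hO : q ∈ {q' | ∃ σ ∈ Fix E, act σ (mkP (M.mulVec z)) = q'}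
      · left
        by_contra hcon
        apply hq'
        have h1 : Orb E (mkP (M.mulVec z)) q = 1 := by
          unfold Orb
          rw [asm_sumSet_apply (finite_orbit_pt E hzE), if_pos hO]
        have h2 : cycQ (S.map f) q = ((S.map f).count (mkP (M.mulVec z)) : ℚ) := by
          obtain ⟨σ, hσ, rfl⟩ := hO
          rw [← hst₀ σ hσ, actC_apply, act_inv_act, cycQ_apply]
        rw [h1, h2, cycQ_apply, Multiset.count_eq_zero_of_notMem hcon]
        simp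
      · by_cases hg' : q ∈ S.map g
        · exact Or.inl hg'
        · refine Or.inr ⟨?_, hO⟩
          by_contra hcon
          apply hq'
          have h1 : Orb E (mkP (M.mulVec z)) q = 0 := by
            unfold Orb
            rw [asm_sumSet_apply (finite_orbit_pt E hzE), if_neg hO]
          rw [h1, cycQ_apply, cycQ_apply, Multiset.count_eq_zero_of_notMem hcon,
            Multiset.count_eq_zero_of_notMem hg']
          simp
    have hFC : Coef (clo E) F := hFE.mono (le_clo E)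
    rcases key with h1 | ⟨h1, h2⟩
    · obtain ⟨p', hp', rfl⟩ := Multiset.mem_map.1 h1
      exact ⟨SpP.mem_surf hV₁ hF.hom hFC (hg p' hp') (hSGen p' hp').1, (hg p' hp').over,
        hlim₁ p' hp'⟩
    · obtain ⟨p', hp', rfl⟩ := Multiset.mem_map.1 h1
      refine ⟨SpP.mem_surf hV₀ hF.hom hFC (hf p' hp') (hSGen p' hp').1, (hf p' hp').over, ?_⟩
      rcases hlim₀ p' hp' with h3 | h3
      · exact h3
      · exact absurd h3 h2
  · refine Submodule.subset_span ⟨u, S, V₀, V₁, f, g, ?_, hSOver,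
      fun σ hσ => hS.stable σ (Fix_mono hEu hσ), hSGen, hV₀, hV₁, hu₀, hu₁,
      fun q hq => ⟨hf q hq, hno₀ q hq⟩, fun q hq => ⟨hg q hq, hno₁ q hq⟩, ?_⟩
    · exact hu
    · abel

end Pool.Agent.VGS
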