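import Pool.Agent.VGS.Asm
import Pool.Agent.VGS.CloM

/-! Module Asm2: moving invariant cycles to `p` and to the line, conclusion. -/

set_option autoImplicit false

open scoped LinearAlgebra.Projectivization
open MvPolynomial

namespace Pool.Agent.VGS

open Pool.Agent.LowDeg (surf IsSmoothForm)

variable {F : MvPolynomial (Fin 4) ℂ} {d : ℕ}

/-! ### auxiliary facts -/

theorem as2_sumSet {s : Set PP} (hs : s.Finite) :
    sumSet s = ∑ q ∈ hs.toFinset, Finsupp.single q (1 : ℚ) :=
  finsum_mem_eq_finite_toFinset_sum _ hs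

open Classical in
theorem as2_sumSet_apply {s : Set PP} (hs : s.Finite) (q : PP) :
    sumSet s q = if q ∈ s then 1 else 0 := by
  rw [as2_sumSet hs, Finsupp.finsetSum_apply]
  simp only [Finsupp.single_apply]
  rw [Finset.sum_ite_eq']
  simp only [Set.Finite.mem_toFinset]

open Classical in
theorem as2_Orb_apply {E : Fl} {q : PP} (hq : Over (clo E) q) (q' : PP) :
    Orb E q q' = if ∃ σ ∈ Fix E, act σ q = q' then 1 else 0 := by
  unfold Orb
  rw [as2_sumSet_apply (finite_orbit_pt E hq)]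
  rfl

/-- a stable cycle is a combination of sums of conjugates of the points of its support -/
theorem mem_span_orb (E : Fl) (y : Cy) (hst : ∀ σ ∈ Fix E, actC σ y = y)
    (hy : ∀ q ∈ y.support, Over (clo E) q) :
    y ∈ Submodule.span ℚ {w | ∃ q ∈ y.support, w = Orb E q} := by
  classical
  induction hn : y.support.card using Nat.strong_induction_on generalizing y with
  | _ n ih =>
    by_cases h0 : y = 0
    · rw [h0]
      exact Submodule.zero_mem _
    obtain ⟨q, hq⟩ : ∃ q, q ∈ y.support := by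
      by_contra hcon
      push Not at hcon
      exact h0 (Finsupp.support_eq_empty.1 (Finset.eq_empty_of_forall_notMem hcon))
    have hval : ∀ q', (∃ σ ∈ Fix E, act σ q = q') → y q' = y q := by
      rintro q' ⟨σ, hσ, rfl⟩
      have h1 := congrArg (fun z : Cy => z (act σ q)) (hst σ hσ)
      simp only [actC_apply, act_inv_act] at h1
      exact h1.symm
    set y' : Cy := y - y q • Orb E q with hy'
    have hy'a : ∀ q', y' q' = if ∃ σ ∈ Fix E, act σ q = q' then 0 else y q' := by
      intro q'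
      rw [hy', Finsupp.sub_apply, Finsupp.smul_apply, as2_Orb_apply (hy q hq)]
      by_cases h : ∃ σ ∈ Fix E, act σ q = q'
      · rw [if_pos h, if_pos h, hval q' h, smul_eq_mul, mul_one, sub_self]
      · rw [if_neg h, if_neg h, smul_zero, sub_zero]
    have hsub : ∀ q' ∈ y'.support, q' ∈ y.support := by
      intro q' h
      rw [Finsupp.mem_support_iff] at h ⊢
      intro h1
      apply h
      rw [hy'a, h1, ite_self]
    have hqn : q ∉ y'.support := by
      rw [Finsupp.notMem_support_iff, hy'a, if_pos ⟨1, one_mem _, act_one q⟩]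
    have hcard : y'.support.card < n := by
      rw [← hn]
      apply Finset.card_lt_card
      rw [Finset.ssubset_iff_of_subset hsub]
      exact ⟨q, hq, hqn⟩
    have hst' : ∀ σ ∈ Fix E, actC σ y' = y' := by
      intro σ hσ
      ext q'
      have h1 := congrArg (fun z : Cy => z q') (hst σ hσ)
      simp only [actC_apply] at h1
      rw [actC_apply, hy'a, hy'a, h1]
      have h2 : (∃ τ ∈ Fix E, act τ q = act σ⁻¹ q') ↔ ∃ τ ∈ Fix E, act τ q = q' := by
        constructor
        · rintro ⟨τ, hτ, h⟩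
          refine ⟨σ * τ, mul_mem hσ hτ, ?_⟩
          rw [act_mul, h, act_act_inv]
        · rintro ⟨τ, hτ, h⟩
          refine ⟨σ⁻¹ * τ, mul_mem (inv_mem hσ) hτ, ?_⟩
          rw [act_mul, h]
      simp only [h2]
    have h1 := ih _ hcard y' hst' (fun q' h => hy q' (hsub q' h)) rfl
    have h2 : y = y' + y q • Orb E q := by rw [hy', sub_add_cancel]
    have h3 : y' ∈ Submodule.span ℚ {w | ∃ q ∈ y.support, w = Orb E q} := by
      refine Submodule.span_mono ?_ h1
      rintro w ⟨q', hq', rfl⟩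
      exact ⟨q', hsub q' hq', rfl⟩
    have h4 : Orb E q ∈ Submodule.span ℚ {w | ∃ q ∈ y.support, w = Orb E q} :=
      Submodule.subset_span ⟨q, hq, rfl⟩
    have h5 := Submodule.add_mem _ h3 (Submodule.smul_mem _ (y q) h4)
    rwa [← h2] at h5

/-! ### the coordinates -/

theorem as2_mulVec_ne {M : Matrix (Fin 4) (Fin 4) ℂ} (hM : M.det ≠ 0) {z : Fin 4 → ℂ}
    (hz : z ≠ 0) : M.mulVec z ≠ 0 := by
  intro h
  exact hM (Matrix.exists_mulVec_eq_zero_iff.1 ⟨z, hz, h⟩)

theorem as2_exists {M : Matrix (Fin 4) (Fin 4) ℂ} (hM : M.det ≠ 0) (q : PP) :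
    ∃ z : Fin 4 → ℂ, z ≠ 0 ∧ q = mkP (M.mulVec z) := by
  have hu : IsUnit M.det := isUnit_iff_ne_zero.2 hM
  have h1 : M.mulVec (M⁻¹.mulVec q.rep) = q.rep := by
    rw [Matrix.mulVec_mulVec, Matrix.mul_nonsing_inv M hu, Matrix.one_mulVec]
  refine ⟨M⁻¹.mulVec q.rep, ?_, ?_⟩
  · intro h
    rw [h, Matrix.mulVec_zero] at h1
    exact q.rep_nonzero h1.symm
  · rw [h1, mkP_eq q.rep_nonzero, Projectivization.mk_rep]

theorem as2_mkP_smul {M : Matrix (Fin 4) (Fin 4) ℂ} (hM : M.det ≠ 0) {z : Fin 4 → ℂ} (hz : z ≠ 0)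
    {a : ℂ} (ha : a ≠ 0) : mkP (M.mulVec (a • z)) = mkP (M.mulVec z) := by
  rw [mkP_eq (as2_mulVec_ne hM hz), mkP_eq (as2_mulVec_ne hM (smul_ne_zero ha hz))]
  refine mk_eq_mk_of_mul _ _ (a := a) fun i => ?_
  rw [Matrix.mulVec_smul]
  rfl

theorem as2_aeval_frG (F : MvPolynomial (Fin 4) ℂ) (M : Matrix (Fin 4) (Fin 4) ℂ)
    (z : Fin 4 → ℂ) : aeval z (frG F M) = aeval (M.mulVec z) F := by
  unfold frG
  rw [← AlgHom.comp_apply, comp_aeval]
  congr 2
  funext i
  rw [map_sum]
  simp only [map_mul, aeval_C, aeval_X, Algebra.algebraMap_self, RingHom.id_apply]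
  rfl

theorem as2_mem_surf (hF : IsSmoothForm F d) {M : Matrix (Fin 4) (Fin 4) ℂ} (hM : M.det ≠ 0)
    {z : Fin 4 → ℂ} (hz : z ≠ 0) : mkP (M.mulVec z) ∈ surf F ↔ aeval z (frG F M) = 0 := by
  rw [mkP_eq (as2_mulVec_ne hM hz), mem_surf_mk hF.1, as2_aeval_frG]

theorem as2_frG_hom (hF : IsSmoothForm F d) (M : Matrix (Fin 4) (Fin 4) ℂ) :
    (frG F M).IsHomogeneous d := by
  unfold frG
  have h := hF.1.aeval (fun i => ∑ j, C (M i j) * X j) (n := 1) (fun i => by
    refine IsHomogeneous.sum _ _ _ fun j _ => ?_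
    have h1 := (isHomogeneous_C (Fin 4) (M i j)).mul (isHomogeneous_X ℂ j)
    rwa [zero_add] at h1)
  simpa using h

open Classical in
theorem as2_aeval_single {G : MvPolynomial (Fin 4) ℂ} (hG : G.IsHomogeneous d) (i : Fin 4) :
    aeval (Pi.single i (1 : ℂ) : Fin 4 → ℂ) G = coeff (Finsupp.single i d) G := by
  have key : ∀ m ∈ G.support, m ≠ Finsupp.single i d →
      coeff m G * ∏ j, (Pi.single i (1 : ℂ) : Fin 4 → ℂ) j ^ m j = 0 := by
    intro m hm hne
    have hdeg : m.degree = d := by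
      by_contra h
      exact (mem_support_iff.mp hm) (hG.coeff_eq_zero h)
    obtain ⟨j, hj, hmj⟩ : ∃ j, j ≠ i ∧ m j ≠ 0 := by
      by_contra hcon
      push Not at hcon
      apply hne
      have h1 : m = Finsupp.single i (m i) := by
        ext j
        by_cases hj : j = i
        · subst hj
          simp
        · rw [hcon j hj, Finsupp.single_eq_of_ne hj]
      rw [h1, Finsupp.degree_single] at hdeg
      rw [h1, hdeg]
    rw [Finset.prod_eq_zero (Finset.mem_univ j), mul_zero]
    rw [Pi.single_eq_of_ne hj, zero_pow hmj]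
  rw [aeval_def, eval₂_eq']
  simp only [Algebra.algebraMap_self, RingHom.id_apply]
  by_cases hm : Finsupp.single i d ∈ G.support
  · rw [Finset.sum_eq_single_of_mem _ hm (fun m hm' hne => key m hm' hne)]
    rw [Finset.prod_eq_one, mul_one]
    intro j _
    by_cases hj : j = i
    · subst hj
      simp
    · rw [Finsupp.single_eq_of_ne hj, pow_zero]
  · rw [Finset.sum_eq_zero]
    · rw [mem_support_iff, not_not] at hm
      exact hm.symm
    · intro m hm'
      exact key m hm' (fun h => hm (h ▸ hm'))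

theorem as2_coeff_mem (k : Fl) (F : MvPolynomial (Fin 4) ℂ) (M : Matrix (Fin 4) (Fin 4) ℂ)
    (m : Fin 4 →₀ ℕ) : coeff m (frG F M) ∈ frE k F M := subset_adj _ _ ⟨m, rfl⟩

theorem as2_M_mem (k : Fl) (F : MvPolynomial (Fin 4) ℂ) (M : Matrix (Fin 4) (Fin 4) ℂ)
    (i j : Fin 4) : M i j ∈ frE k F M := le_adj _ _ (subset_adj _ _ ⟨(i, j), rfl⟩)

theorem as2_act {k : Fl} {M : Matrix (Fin 4) (Fin 4) ℂ} (hM : M.det ≠ 0) {σ : ℂ ≃+* ℂ}
    (hσ : σ ∈ Fix (frE k F M)) {z : Fin 4 → ℂ} (hz : z ≠ 0) :
    act σ (mkP (M.mulVec z)) = mkP (M.mulVec (fun i => σ (z i))) := by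
  have h1 : (fun i => σ (M.mulVec z i)) = M.mulVec (fun i => σ (z i)) := by
    funext i
    simp only [Matrix.mulVec, dotProduct]
    rw [map_sum]
    refine Finset.sum_congr rfl fun j _ => ?_
    rw [map_mul, hσ _ (as2_M_mem k F M i j)]
  rw [mkP_eq (as2_mulVec_ne hM hz), act_mk σ _ _ (map_ne_zero' σ (as2_mulVec_ne hM hz))]
  rw [mkP_eq (as2_mulVec_ne hM (map_ne_zero' σ hz))]
  congr 1

theorem as2_coef (k : Fl) (F : MvPolynomial (Fin 4) ℂ) : Coef (cof k F) F :=
  fun m => subset_adj _ _ ⟨m, rfl⟩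

theorem as2_e3 : (Pi.single 3 1 : Fin 4 → ℂ) ≠ 0 := by
  intro h
  have := congrFun h 3
  simp at this

/-- the points of the line -/
theorem as2_line (hF : IsSmoothForm F d) {k : Fl} {p : PP}
    {M : Matrix (Fin 4) (Fin 4) ℂ} (hM : IsFrame k F d p M) {q : PP} :
    q ∈ lineSet F M ↔ q = p ∨ ∃ w : ℂ, aeval ![0, 0, 1, w] (frG F M) = 0 ∧
      q = mkP (M.mulVec ![0, 0, 1, w]) := by
  constructor
  · rintro ⟨hq, z, hz, h0, h1, rfl⟩
    rw [as2_mem_surf hF hM.det hz] at hq
    by_cases h2 : z 2 = 0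
    · left
      have h3 : z 3 ≠ 0 := by
        intro h3
        apply hz
        funext i
        fin_cases i
        · exact h0
        · exact h1
        · exact h2
        · exact h3
      have h4 : z = z 3 • (Pi.single 3 1 : Fin 4 → ℂ) := by
        funext i
        fin_cases i <;> simp [h0, h1, h2]
      rw [hM.pt, h4, as2_mkP_smul hM.det as2_e3 (by simpa using h3)]
    · right
      have h4 : z = z 2 • (![0, 0, 1, z 3 / z 2] : Fin 4 → ℂ) := by
        funext i
        fin_cases i
        · simp [h0]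
        · simp [h1]
        · simp
        · simp [mul_div_cancel₀ _ h2]
      have h5 : (![0, 0, 1, z 3 / z 2] : Fin 4 → ℂ) ≠ 0 := by
        intro h
        have := congrFun h 2
        simp at this
      refine ⟨z 3 / z 2, ?_, ?_⟩
      · have h6 := aeval_scale (as2_frG_hom hF M) (z := z) (w := ![0, 0, 1, z 3 / z 2])
          (a := z 2) (fun i => congrFun h4 i)
        rw [hq] at h6
        rcases mul_eq_zero.1 h6.symm with h7 | h7
        · exact absurd h7 (pow_ne_zero _ h2)
        · exact h7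
      · rw [← as2_mkP_smul hM.det h5 h2, ← h4]
  · rintro (rfl | ⟨w, hw, rfl⟩)
    · refine ⟨?_, Pi.single 3 1, as2_e3, by simp, by simp, hM.pt⟩
      rw [hM.pt, as2_mem_surf hF hM.det as2_e3, as2_aeval_single (as2_frG_hom hF M), hM.top]
    · have h5 : (![0, 0, 1, w] : Fin 4 → ℂ) ≠ 0 := by
        intro h
        have := congrFun h 2
        simp at this
      refine ⟨?_, ![0, 0, 1, w], h5, by simp, by simp, rfl⟩
      rw [as2_mem_surf hF hM.det h5, hw]

/-- the field generated by the other coefficients -/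
noncomputable def as2_k (k : Fl) (F : MvPolynomial (Fin 4) ℂ) (M : Matrix (Fin 4) (Fin 4) ℂ)
    (d : ℕ) : Fl :=
  adj (frk k M) (Set.range fun m : {m : Fin 4 →₀ ℕ // m ≠ Finsupp.single 2 d} =>
    coeff m.1 (frG F M))

theorem as2_adj (k : Fl) (F : MvPolynomial (Fin 4) ℂ) (M : Matrix (Fin 4) (Fin 4) ℂ)
    (d : ℕ) : adj (as2_k k F M d) {coeff (Finsupp.single 2 d) (frG F M)} = frE k F M := by
  unfold as2_k frE
  rw [adj_adj]
  congr 1
  ext x
  constructor
  · rintro (⟨m, rfl⟩ | h)
    · exact ⟨m.1, rfl⟩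
    · exact ⟨_, (Set.mem_singleton_iff.1 h).symm⟩
  · rintro ⟨m, rfl⟩
    by_cases h : m = Finsupp.single 2 d
    · right
      rw [Set.mem_singleton_iff, h]
    · left
      exact ⟨⟨m, h⟩, rfl⟩

theorem as2_tr (hd : 1 ≤ d) (hF : IsSmoothForm F d) {k : Fl} {p : PP}
    {M : Matrix (Fin 4) (Fin 4) ℂ} (hM : IsFrame k F d p M) :
    Transcendental (as2_k k F M d) (coeff (Finsupp.single 2 d) (frG F M)) := by
  have hne : (Finsupp.single 2 d : Fin 4 →₀ ℕ) ≠ Finsupp.single 3 d := by
    intro h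
    have := DFunLike.congr_fun h 2
    simp at this
    omega
  let i : Mon d := ⟨Finsupp.single 2 d, by rw [Finsupp.degree_single], hne⟩
  have h1 := hM.ind.transcendental_adjoin (s := {i}ᶜ) (i := i) (by simp)
  have h2 : coeff i.1 (frG F M) ∉ clo (adj (frk k M)
      ((fun m : Mon d => coeff m.1 (frG F M)) '' {i}ᶜ)) := by
    rw [mem_clo_adj]
    exact h1
  intro h3
  apply h2
  refine clo_mono ?_ (mem_clo.2 h3)
  refine adj_le (le_adj _ _) ?_
  rintro x ⟨⟨m, hm⟩, rfl⟩
  change coeff m (frG F M) ∈ _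
  by_cases hdeg : m.degree = d
  · by_cases hm3 : m = Finsupp.single 3 d
    · rw [hm3, hM.top]
      exact zero_mem _
    · apply subset_adj
      refine ⟨⟨m, hdeg, hm3⟩, ?_, rfl⟩
      intro h
      exact hm (congrArg Subtype.val h)
  · rw [(as2_frG_hom hF M).coeff_eq_zero hdeg]
    exact zero_mem _

theorem finite_lineSet (hd : 4 ≤ d) (hF : IsSmoothForm F d) (k : Fl) [Countable k] {p : PP}
    {M : Matrix (Fin 4) (Fin 4) ℂ} (hM : IsFrame k F d p M) : (lineSet F M).Finite := by
  let P : Polynomial ℂ := aeval ![(0 : Polynomial ℂ), 0, 1, Polynomial.X] (frG F M)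
  have hP : ∀ w : ℂ, P.eval w = aeval ![0, 0, 1, w] (frG F M) := by
    intro w
    have h1 : P.eval w = (Polynomial.aeval w) P := by
      rw [Polynomial.coe_aeval_eq_eval]
    rw [h1]
    change (Polynomial.aeval w) (aeval ![(0 : Polynomial ℂ), 0, 1, Polynomial.X] (frG F M)) = _
    rw [← AlgHom.comp_apply, comp_aeval]
    congr 2
    funext i
    fin_cases i <;> simp
  have hP0 : P ≠ 0 := by
    intro h
    have h1 := hP 0
    rw [h, Polynomial.eval_zero] at h1
    have h2 : (![0, 0, 1, 0] : Fin 4 → ℂ) = Pi.single 2 1 := by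
      funext i
      fin_cases i <;> simp
    rw [h2, as2_aeval_single (as2_frG_hom hF M)] at h1
    refine as2_tr (by omega) hF hM ?_
    rw [← h1]
    exact isAlgebraic_zero
  have hfin : ({w : ℂ | P.eval w = 0}).Finite := by
    refine Set.Finite.subset (P.roots.toFinset.finite_toSet) ?_
    intro w hw
    rw [Finset.mem_coe, Multiset.mem_toFinset, Polynomial.mem_roots hP0]
    exact hw
  refine Set.Finite.subset ((hfin.image (fun w => mkP (M.mulVec ![0, 0, 1, w]))).insert p) ?_
  intro q hq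
  rcases (as2_line hF hM).1 hq with rfl | ⟨w, hw, rfl⟩
  · exact Set.mem_insert _ _
  · refine Set.mem_insert_of_mem _ ⟨w, ?_, rfl⟩
    change P.eval w = 0
    rw [hP, hw]

/-- the points other than `p` of the line are conjugate -/
theorem line_orb (hd : 4 ≤ d) (hF : IsSmoothForm F d) (k : Fl) [Countable k] {p : PP}
    {M : Matrix (Fin 4) (Fin 4) ℂ} (hM : IsFrame k F d p M) {q : PP} (hq : q ∈ lineSet F M)
    (hqp : q ≠ p) :
    Orb (frE k F M) q + Finsupp.single p 1 = sumSet (lineSet F M) := by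
  classical
  have hact : ∀ σ ∈ Fix (frE k F M), act σ p = p := by
    intro σ hσ
    rw [hM.pt, as2_act hM.det hσ as2_e3]
    congr 2
    funext i
    by_cases hi : i = 3
    · subst hi
      simp
    · rw [Pi.single_eq_of_ne hi, map_zero]
  have h5 : ∀ w : ℂ, (![0, 0, 1, w] : Fin 4 → ℂ) ≠ 0 := by
    intro w h
    have := congrFun h 2
    simp at this
  have hset : {q' | ∃ σ ∈ Fix (frE k F M), act σ q = q'} = lineSet F M \ {p} := by
    ext q'
    constructor
    · rintro ⟨σ, hσ, rfl⟩
      refine ⟨?_, ?_⟩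
      · obtain ⟨hqF, z, hz, h0, h1, rfl⟩ := hq
        refine ⟨(act_mem_surf hF.1 (as2_coef k F) (Fix_mono hM.le hσ)).2 hqF,
          fun i => σ (z i), map_ne_zero' σ hz, by simp [h0], by simp [h1],
          as2_act hM.det hσ hz⟩
      · intro h
        rw [Set.mem_singleton_iff] at h
        exact hqp (act_injective σ (h.trans (hact σ hσ).symm))
    · rintro ⟨hq', hq'p⟩
      rw [Set.mem_singleton_iff] at hq'p
      obtain ⟨w, hw, rfl⟩ := ((as2_line hF hM).1 hq).resolve_left hqp
      obtain ⟨w', hw', rfl⟩ := ((as2_line hF hM).1 hq').resolve_left hq'p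
      have hk1 : Countable (Set.range fun ij : Fin 4 × Fin 4 => M ij.1 ij.2) :=
        (Set.countable_range _).to_subtype
      have hk2 : Countable (Set.range fun m : {m : Fin 4 →₀ ℕ // m ≠ Finsupp.single 2 d} =>
          coeff m.1 (frG F M)) := (Set.countable_range _).to_subtype
      have : Countable (as2_k k F M d) := by
        unfold as2_k frk
        infer_instance
      obtain ⟨σ, hσ, hσ'⟩ := line_conj (as2_k k F M d) (by omega) (frG F M) (as2_frG_hom hF M)
        (coeff (Finsupp.single 2 d) (frG F M)) (as2_tr (by omega) hF hM) (by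
          intro m
          rw [coeff_sub, coeff_C_mul, coeff_X_pow]
          by_cases hm : m = Finsupp.single 2 d
          · rw [if_pos hm.symm, hm, mul_one, sub_self]
            exact zero_mem _
          · rw [if_neg (Ne.symm hm), mul_zero, sub_zero]
            exact subset_adj _ _ ⟨⟨m, hm⟩, rfl⟩) ![0, 0, 1, w] ![0, 0, 1, w'] (by simp) (by simp)
        (by simp) (by simp) (by simp) (by simp) hw hw'
      rw [as2_adj] at hσ
      refine ⟨σ, hσ, ?_⟩
      rw [as2_act hM.det hσ (h5 w)]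
      congr 2
      funext i
      exact hσ' i
  have hp : p ∈ lineSet F M := (as2_line hF hM).2 (Or.inl rfl)
  have hfin := finite_lineSet hd hF k hM
  unfold Orb
  rw [hset]
  ext r
  rw [Finsupp.add_apply, as2_sumSet_apply (hfin.subset Set.sdiff_subset), as2_sumSet_apply hfin,
    Finsupp.single_apply]
  by_cases hr : p = r
  · subst hr
    simp [hp]
  · by_cases hr' : r ∈ lineSet F M
    · have : r ∈ lineSet F M \ {p} := ⟨hr', fun h => hr (Set.mem_singleton_iff.1 h).symm⟩
      simp [this, hr', hr]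
    · have : r ∉ lineSet F M \ {p} := fun h => hr' h.1
      simp [this, hr', hr]

/-- Section 1.5. -/
theorem asm (hd : 4 ≤ d) (hF : IsSmoothForm F d) (k : Fl) [Countable k]
    {p : PP} (hp : p ∈ Gen (cof k F) F) {M : Matrix (Fin 4) (Fin 4) ℂ} (hM : IsFrame k F d p M)
    {y : Cy} (hy : ∀ q ∈ y.support, q ∈ Gen (cof k F) F ∧ Over (clo (frE k F M)) q)
    (hst : ∀ σ ∈ Fix (frE k F M), actC σ y = y) :
    ∃ m a : ℚ, y - m • Finsupp.single p 1 - a • sumSet (lineSet F M) ∈
      Nice (cof k F) (clo (frE k F M)) F := by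
  classical
  have hcK : Countable (cof k F) := by
    have hk1 : Countable (Set.range fun m => coeff m F) := (Set.countable_range _).to_subtype
    unfold cof
    infer_instance
  have hact : ∀ σ ∈ Fix (frE k F M), act σ p = p := by
    intro σ hσ
    rw [hM.pt, as2_act hM.det hσ as2_e3]
    congr 2
    funext i
    by_cases hi : i = 3
    · subst hi
      simp
    · rw [Pi.single_eq_of_ne hi, map_zero]
  -- the submodule
  let W : Submodule ℚ Cy := Nice (cof k F) (clo (frE k F M)) F ⊔
    Submodule.span ℚ {Finsupp.single p 1, sumSet (lineSet F M)}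
  have hN : Nice (cof k F) (clo (frE k F M)) F ≤ W := le_sup_left
  have hpW : (Finsupp.single p 1 : Cy) ∈ W :=
    (le_sup_right : _ ≤ W) (Submodule.subset_span (Set.mem_insert _ _))
  have hLW : sumSet (lineSet F M) ∈ W :=
    (le_sup_right : _ ≤ W) (Submodule.subset_span (Set.mem_insert_of_mem _ rfl))
  -- the points of the line
  have hline : ∀ q ∈ lineSet F M, Orb (frE k F M) q ∈ W := by
    intro q hq
    by_cases hqp : q = p
    · subst hqp
      have h1 : Orb (frE k F M) q = Finsupp.single q 1 := by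
        unfold Orb
        have h2 : {q' | ∃ σ ∈ Fix (frE k F M), act σ q = q'} = {q} := by
          ext q'
          constructor
          · rintro ⟨σ, hσ, rfl⟩
            exact hact σ hσ
          · intro h
            exact ⟨1, one_mem _, by rw [act_one, Set.mem_singleton_iff.1 h]⟩
        rw [h2]
        ext r
        rw [as2_sumSet_apply (Set.finite_singleton q), Finsupp.single_apply]
        simp only [Set.mem_singleton_iff, eq_comm]
      rw [h1]
      exact hpW
    · have h1 := line_orb hd hF k hM hq hqp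
      rw [← eq_sub_iff_add_eq] at h1
      rw [h1]
      exact W.sub_mem hLW hpW
  -- from one step to the next
  have hstep : ∀ (q : PP) (e : ℕ) (y' : Cy), 0 < e →
      (e : ℚ) • Orb (frE k F M) q + y' ∈ Nice (cof k F) (clo (frE k F M)) F → y' ∈ W →
      Orb (frE k F M) q ∈ W := by
    intro q e y' he h1 h2
    have h3 : (e : ℚ) • Orb (frE k F M) q ∈ W := by
      have := W.sub_mem (hN h1) h2
      rwa [add_sub_cancel_right] at this
    have h4 := W.smul_mem ((e : ℚ)⁻¹) h3
    rwa [smul_smul, inv_mul_cancel₀ (by exact_mod_cast he.ne'), one_smul] at h4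
  have hspan : ∀ y' : Cy, (∀ σ ∈ Fix (frE k F M), actC σ y' = y') →
      (∀ q ∈ y'.support, Over (clo (frE k F M)) q) →
      (∀ q ∈ y'.support, Orb (frE k F M) q ∈ W) → y' ∈ W := by
    intro y' h1 h2 h3
    refine (Submodule.span_le.2 ?_) (mem_span_orb _ y' h1 h2)
    rintro w ⟨q, hq, rfl⟩
    exact h3 q hq
  have hnorm : ∀ (z : Fin 4 → ℂ) (j : Fin 4), z j ≠ 0 →
      ((z j)⁻¹ • z) j = 1 ∧ mkP (M.mulVec ((z j)⁻¹ • z)) = mkP (M.mulVec z) := by
    intro z j hj
    have hz : z ≠ 0 := by
      rintro rfl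
      exact hj rfl
    refine ⟨?_, as2_mkP_smul hM.det hz (inv_ne_zero hj)⟩
    rw [Pi.smul_apply, smul_eq_mul, inv_mul_cancel₀ hj]
  -- the points of the plane
  have hplane : ∀ z : Fin 4 → ℂ, z ≠ 0 → z 0 = 0 → mkP (M.mulVec z) ∈ surf F →
      Over (clo (frE k F M)) (mkP (M.mulVec z)) → Orb (frE k F M) (mkP (M.mulVec z)) ∈ W := by
    intro z hz h0 hzF hzE
    by_cases h1 : z 1 = 0
    · exact hline _ ⟨hzF, z, hz, h0, h1, rfl⟩
    · obtain ⟨h2, h3⟩ := hnorm z 1 h1
      have h4 : ¬ Over (clo (cof k F)) (mkP (M.mulVec z)) := fun h => hM.avoid z hz h h0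
      rw [← h3] at hzF hzE h4 ⊢
      obtain ⟨e, y', he, hy1, hy2, hy3⟩ := asm_step hd hF k hp hM 1 (by simp) (z := (z 1)⁻¹ • z)
        (by
          intro i hi
          have : i = 0 := by
            apply Fin.ext
            have : (i : ℕ) < 1 := hi
            simpa using this
          subst this
          rw [Pi.smul_apply, h0, smul_zero]) h2 hzF hzE h4 (by
          intro h
          simp at h)
      refine hstep _ e y' he hy3 (hspan y' hy1 (fun q hq => (hy2 q hq).2.1) ?_)
      intro q hq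
      obtain ⟨h6, -, w, hw, hw0, rfl⟩ := hy2 q hq
      exact hline _ ⟨h6, w, hw, hw0 0 (by decide), hw0 1 (by decide), rfl⟩
  -- the generic points
  have hgen : ∀ q ∈ y.support, Orb (frE k F M) q ∈ W := by
    intro q hq
    obtain ⟨hqG, hqE⟩ := hy q hq
    obtain ⟨z, hz, rfl⟩ := as2_exists hM.det q
    by_cases h0 : z 0 = 0
    · exact hplane z hz h0 hqG.1 hqE
    · obtain ⟨h2, h3⟩ := hnorm z 0 h0
      have h4 : ¬ Over (clo (cof k F)) (mkP (M.mulVec z)) :=
        gen_not_over hd hF (cof k F) (as2_coef k F) hqG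
      rw [← h3] at hqG hqE h4 ⊢
      obtain ⟨e, y', he, hy1, hy2, hy3⟩ := asm_step hd hF k hp hM 0 (by simp) (z := (z 0)⁻¹ • z)
        (by
          intro i hi
          exact absurd hi (Fin.not_lt_zero i)) h2 hqG.1 hqE h4 (fun _ => hqG)
      refine hstep _ e y' he hy3 (hspan y' hy1 (fun q hq => (hy2 q hq).2.1) ?_)
      intro q hq
      obtain ⟨h6, h7, w, hw, hw0, rfl⟩ := hy2 q hq
      exact hplane w hw (hw0 0 le_rfl) h6 h7
  have hyW : y ∈ W := hspan y hst (fun q hq => (hy q hq).2) hgen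
  obtain ⟨n, hn, v, hv, hnv⟩ := Submodule.mem_sup.1 hyW
  obtain ⟨m, a, hma⟩ := Submodule.mem_span_pair.1 hv
  refine ⟨m, a, ?_⟩
  have h1 : y - m • Finsupp.single p 1 - a • sumSet (lineSet F M) = n := by
    rw [← hnv, ← hma]
    abel
  rw [h1]
  exact hn

end Pool.Agent.VGS
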