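import Mathlib

/-! Module BI: a ring with a finite group of automorphisms whose trace is zero modulo an ideal is
nil modulo that ideal (an elementary form of the theorem of Bergman and Isaacs). -/

set_option autoImplicit false

open Polynomial

namespace Pool.Agent.VGS

section Step1

variable {S : Type} [Ring S]

/-- Key lemma: for a left ideal `m` which is maximal, a two-sided ideal `I` not inside `m`, and `w`
outside `m`, some `r` in `I` fixes `w` modulo `m`. -/
theorem bi_fix (I : AddSubgroup S) (hIl : ∀ s : S, ∀ x ∈ I, s * x ∈ I) (hIr : ∀ x ∈ I, ∀ s : S, x * s ∈ I)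
    (m : Ideal S) (hm : m.IsMaximal) (s : S) (hs : s ∈ I) (hsm : 1 - s ∈ m)
    (w : S) (hw : w ∉ m) : ∃ r ∈ I, w - r * w ∈ m := by
  -- Q = {w : I w ⊂ m}
  let Q : Ideal S :=
    { carrier := {w | ∀ r ∈ I, r * w ∈ m}
      add_mem' := by
        intro a b ha hb r hr
        rw [mul_add]; exact m.add_mem (ha r hr) (hb r hr)
      zero_mem' := by intro r _; rw [mul_zero]; exact m.zero_mem
      smul_mem' := by
        intro c x hx r hr
        simp only [smul_eq_mul]
        rw [← mul_assoc]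
        exact hx _ (hIr r hr c) }
  have hmQ : m ≤ Q := by
    intro x hx r _
    exact m.mul_mem_left r hx
  have hQ : Q ≠ ⊤ := by
    intro h
    have h1 : (1 : S) ∈ Q := by rw [h]; exact Submodule.mem_top
    have h2 : s ∈ m := by simpa using h1 s hs
    apply hm.ne_top
    rw [Ideal.eq_top_iff_one]
    have := m.add_mem hsm h2
    simpa using this
  have hQm : Q = m := by
    by_contra hne
    exact hQ ((hm.1.2 Q (lt_of_le_of_ne hmQ (Ne.symm hne))))
  have hwQ : w ∉ Q := by rw [hQm]; exact hw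
  have h3 : ∃ r0 ∈ I, r0 * w ∉ m := by
    by_contra h
    push Not at h
    exact hwQ h
  obtain ⟨r0, hr0, hr0w⟩ := h3
  -- left ideal m + I w
  let P : Ideal S :=
    { carrier := {x | ∃ r ∈ I, x - r * w ∈ m}
      add_mem' := by
        rintro a b ⟨r, hr, h⟩ ⟨r', hr', h'⟩
        refine ⟨r + r', I.add_mem hr hr', ?_⟩
        have := m.add_mem h h'
        have e : a - r * w + (b - r' * w) = a + b - (r + r') * w := by rw [add_mul]; abel
        rw [← e]; exact this
      zero_mem' := ⟨0, I.zero_mem, by simp⟩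
      smul_mem' := by
        rintro c x ⟨r, hr, h⟩
        refine ⟨c * r, hIl c r hr, ?_⟩
        have := m.mul_mem_left c h
        simp only [smul_eq_mul]
        rw [mul_sub, ← mul_assoc] at this
        exact this }
  have hmP : m ≤ P := by
    intro x hx
    exact ⟨0, I.zero_mem, by simpa using hx⟩
  have hP : P = ⊤ := by
    apply hm.1.2
    refine lt_of_le_of_ne hmP ?_
    intro h
    apply hr0w
    rw [h]
    exact ⟨r0, hr0, by simp⟩
  have hwP : w ∈ P := by rw [hP]; exact Submodule.mem_top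
  exact hwP

/-- The quasi-regularity statement. -/
theorem bi_quasi [Algebra ℚ S] (I K : AddSubgroup S)
    (hIl : ∀ s : S, ∀ x ∈ I, s * x ∈ I) (hIr : ∀ x ∈ I, ∀ s : S, x * s ∈ I)
    (hKl : ∀ s : S, ∀ x ∈ K, s * x ∈ K)
    {ι : Type} [Fintype ι] [Nonempty ι] (ψ : ι → S ≃+* S)
    (hψ : ∀ i x, ψ i x ∈ I ↔ x ∈ I) (htr : ∀ x ∈ I, ∑ i, ψ i x ∈ K)
    (s : S) (hs : s ∈ I) : ∃ b : S, ∃ j ∈ K, 1 = b * (1 - s) + j := by
  classical
  by_contra hcon
  let A : Ideal S :=
    { carrier := {x | ∃ b : S, ∃ j ∈ K, x = b * (1 - s) + j}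
      add_mem' := by
        rintro x y ⟨b, j, hj, rfl⟩ ⟨b', j', hj', rfl⟩
        exact ⟨b + b', j + j', K.add_mem hj hj', by rw [add_mul]; abel⟩
      zero_mem' := ⟨0, 0, K.zero_mem, by simp⟩
      smul_mem' := by
        rintro c x ⟨b, j, hj, rfl⟩
        exact ⟨c * b, c * j, hKl c j hj, by simp only [smul_eq_mul]; rw [mul_add, mul_assoc]⟩ }
  have hA : A ≠ ⊤ := by
    intro h
    apply hcon
    have : (1 : S) ∈ A := by rw [h]; exact Submodule.mem_top
    exact this
  obtain ⟨m, hm, hAm⟩ := Ideal.exists_le_maximal A hA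
  have hsm : 1 - s ∈ m := hAm ⟨1, 0, K.zero_mem, by simp⟩
  have hKm : ∀ x ∈ K, x ∈ m := fun x hx => hAm ⟨0, x, hx, by simp⟩
  have key : ∀ T : Finset ι, ∃ r ∈ I, ∃ b : S, 1 = r + b ∧ ∀ i ∈ T, ψ i b ∈ m := by
    intro T
    induction T using Finset.induction_on with
    | empty => exact ⟨0, I.zero_mem, 1, by simp, by simp⟩
    | insert i0 T hi0 ih =>
      obtain ⟨r, hr, b, hrb, hb⟩ := ih
      by_cases hw : ψ i0 b ∈ m
      · refine ⟨r, hr, b, hrb, ?_⟩
        intro i hi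
        rcases Finset.mem_insert.1 hi with rfl | hi
        · exact hw
        · exact hb i hi
      · obtain ⟨r'', hr'', hrw⟩ := bi_fix I hIl hIr m hm s hs hsm _ hw
        have hr' : (ψ i0).symm r'' ∈ I := by
          rw [← hψ i0]; simpa using hr''
        refine ⟨r + (ψ i0).symm r'' * b, I.add_mem hr (hIr _ hr' b), b - (ψ i0).symm r'' * b, ?_, ?_⟩
        · rw [hrb]; abel
        · intro i hi
          rcases Finset.mem_insert.1 hi with rfl | hi
          · rw [map_sub, map_mul, RingEquiv.apply_symm_apply]; exact hrw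
          · rw [map_sub, map_mul]
            exact m.sub_mem (hb i hi) (m.mul_mem_left _ (hb i hi))
  obtain ⟨r, hr, b, hrb, hb⟩ := key Finset.univ
  have h1 : ∀ i, 1 - ψ i r ∈ m := by
    intro i
    have h := hb i (Finset.mem_univ i)
    have e : ψ i b = 1 - ψ i r := by
      have : ψ i (1 : S) = ψ i r + ψ i b := by rw [← map_add, ← hrb]
      rw [map_one] at this
      rw [this]; abel
    rw [← e]; exact h
  have h2 : ∑ i, (1 - ψ i r) ∈ m := m.sum_mem (fun i _ => h1 i)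
  have h3 : ∑ i, ψ i r ∈ m := hKm _ (htr r hr)
  have h4 : (∑ _i : ι, (1 : S)) ∈ m := by
    have := m.add_mem h2 h3
    rw [← Finset.sum_add_distrib] at this
    simpa using this
  have h5 : ((Fintype.card ι : ℕ) : S) ∈ m := by simpa using h4
  have hc : (Fintype.card ι : ℚ) ≠ 0 := by
    have := Fintype.card_ne_zero (α := ι)
    exact_mod_cast this
  apply hm.ne_top
  rw [Ideal.eq_top_iff_one]
  have h6 := m.mul_mem_left (algebraMap ℚ S ((Fintype.card ι : ℚ)⁻¹)) h5
  have e : algebraMap ℚ S ((Fintype.card ι : ℚ)⁻¹) * ((Fintype.card ι : ℕ) : S) = 1 := by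
    have : ((Fintype.card ι : ℕ) : S) = algebraMap ℚ S (Fintype.card ι : ℚ) := by simp
    rw [this, ← map_mul, inv_mul_cancel₀ hc, map_one]
  rw [e] at h6
  exact h6

end Step1

section Step2

variable {A : Type} [Ring A]

/-- Polynomials with all coefficients in an additive subgroup. -/
def bi_poly (R : AddSubgroup A) : AddSubgroup A[X] where
  carrier := {p | ∀ n, p.coeff n ∈ R}
  add_mem' := by
    intro a b ha hb n
    rw [coeff_add]; exact R.add_mem (ha n) (hb n)
  zero_mem' := by intro n; rw [coeff_zero]; exact R.zero_mem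
  neg_mem' := by intro a ha n; rw [coeff_neg]; exact R.neg_mem (ha n)

theorem bi_mem_poly (R : AddSubgroup A) (p : A[X]) : p ∈ bi_poly R ↔ ∀ n, p.coeff n ∈ R := Iff.rfl

theorem bi_poly_left (R : AddSubgroup A) (h : ∀ s : A, ∀ x ∈ R, s * x ∈ R) :
    ∀ s : A[X], ∀ x ∈ bi_poly R, s * x ∈ bi_poly R := by
  intro s x hx n
  rw [coeff_mul]
  exact R.sum_mem (fun ij _ => h _ _ (hx _))

theorem bi_poly_right (R : AddSubgroup A) (h : ∀ x ∈ R, ∀ s : A, x * s ∈ R) :
    ∀ x ∈ bi_poly R, ∀ s : A[X], x * s ∈ bi_poly R := by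
  intro x hx s n
  rw [coeff_mul]
  exact R.sum_mem (fun ij _ => h _ (hx _) _)

theorem bi_main [Algebra ℚ A] (R J : AddSubgroup A)
    (hRl : ∀ s : A, ∀ x ∈ R, s * x ∈ R) (hRr : ∀ x ∈ R, ∀ s : A, x * s ∈ R)
    (hJl : ∀ s : A, ∀ x ∈ J, s * x ∈ J) (hJr : ∀ x ∈ J, ∀ s : A, x * s ∈ J)
    {ι : Type} [Fintype ι] [Nonempty ι] (φ : ι → A ≃+* A)
    (hφ : ∀ i x, φ i x ∈ R ↔ x ∈ R) (htr : ∀ x ∈ R, ∑ i, φ i x ∈ J)
    (a : A) (ha : a ∈ R) : ∃ n : ℕ, 0 < n ∧ a ^ n ∈ J := by
  have h := bi_quasi (S := A[X]) (bi_poly R) (bi_poly J) (bi_poly_left R hRl) (bi_poly_right R hRr)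
    (bi_poly_left J hJl) (fun i => Polynomial.mapEquiv (φ i))
    (by
      intro i p
      rw [bi_mem_poly, bi_mem_poly]
      simp only [Polynomial.mapEquiv_apply, coeff_map]
      constructor
      · intro h n; exact (hφ i _).1 (h n)
      · intro h n; exact (hφ i _).2 (h n))
    (by
      intro p hp
      rw [bi_mem_poly]
      intro n
      rw [finsetSum_coeff]
      simp only [Polynomial.mapEquiv_apply, coeff_map]
      exact htr _ (hp n))
    (C a * X) (by
      rw [bi_mem_poly]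
      intro n
      rw [coeff_C_mul]
      rcases eq_or_ne n 1 with rfl | hn
      · simpa using ha
      · rw [coeff_X_of_ne_one hn, mul_zero]; exact R.zero_mem)
  obtain ⟨b, j, hj, hb⟩ := h
  have hco : ∀ n, b.coeff n - a ^ n ∈ J := by
    intro n
    induction n with
    | zero =>
      have h0 := congrArg (fun p => p.coeff 0) hb
      simp only [coeff_add, mul_sub, mul_one, coeff_sub, coeff_one_zero] at h0
      rw [← mul_assoc, mul_coeff_zero, coeff_X_zero, mul_zero, sub_zero] at h0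
      have : b.coeff 0 - a ^ 0 = - j.coeff 0 := by rw [pow_zero, h0]; abel
      rw [this]; exact J.neg_mem (hj 0)
    | succ n ih =>
      have h0 := congrArg (fun p => p.coeff (n + 1)) hb
      simp only [coeff_add, mul_sub, mul_one, coeff_sub] at h0
      rw [← mul_assoc, coeff_mul_X, coeff_mul_C, coeff_one, if_neg (by omega)] at h0
      have : b.coeff (n + 1) - a ^ (n + 1) = (b.coeff n - a ^ n) * a - j.coeff (n + 1) := by
        rw [sub_mul, ← pow_succ]
        have h1 : b.coeff (n + 1) = b.coeff n * a - j.coeff (n + 1) := by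
          rw [eq_sub_iff_add_eq]
          have h2 : b.coeff (n + 1) - b.coeff n * a + j.coeff (n + 1) = 0 := h0.symm
          have h3 : b.coeff (n + 1) + j.coeff (n + 1) - b.coeff n * a = 0 := by rw [← h2]; abel
          exact sub_eq_zero.1 h3
        rw [h1]; abel
      rw [this]
      exact J.sub_mem (hJr _ ih a) (hj _)
  refine ⟨b.natDegree + 1, by omega, ?_⟩
  have h1 := hco (b.natDegree + 1)
  rw [coeff_eq_zero_of_natDegree_lt (by omega), zero_sub] at h1
  simpa using J.neg_mem h1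

end Step2

section Step3

variable {B : Type} [Ring B] [Algebra ℚ B]

/-- The subalgebra `ℚ + R`. -/
def bi_sub (R : Submodule ℚ B) (hR : ∀ x ∈ R, ∀ y ∈ R, x * y ∈ R) : Subalgebra ℚ B where
  carrier := {x | ∃ q : ℚ, ∃ r ∈ R, x = algebraMap ℚ B q + r}
  mul_mem' := by
    rintro x y ⟨q, r, hr, rfl⟩ ⟨q', r', hr', rfl⟩
    refine ⟨q * q', q • r' + q' • r + r * r',
      R.add_mem (R.add_mem (R.smul_mem _ hr') (R.smul_mem _ hr)) (hR _ hr _ hr'), ?_⟩
    rw [map_mul, add_mul, mul_add, mul_add, Algebra.smul_def, Algebra.smul_def,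
      ← Algebra.commutes q' r]
    abel
  add_mem' := by
    rintro x y ⟨q, r, hr, rfl⟩ ⟨q', r', hr', rfl⟩
    exact ⟨q + q', r + r', R.add_mem hr hr', by rw [map_add]; abel⟩
  algebraMap_mem' := by
    intro q
    exact ⟨q, 0, R.zero_mem, by simp⟩

theorem bi_sub_mem (R : Submodule ℚ B) (hR : ∀ x ∈ R, ∀ y ∈ R, x * y ∈ R) (x : B) :
    x ∈ bi_sub R hR ↔ ∃ q : ℚ, ∃ r ∈ R, x = algebraMap ℚ B q + r := Iff.rfl

theorem bi_sub_of_mem (R : Submodule ℚ B) (hR : ∀ x ∈ R, ∀ y ∈ R, x * y ∈ R) (x : B) (hx : x ∈ R) :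
    x ∈ bi_sub R hR := ⟨0, x, hx, by simp⟩

theorem bi_sub_map (R : Submodule ℚ B) (hR : ∀ x ∈ R, ∀ y ∈ R, x * y ∈ R) (e : B →ₐ[ℚ] B)
    (he : ∀ x ∈ R, e x ∈ R) (x : bi_sub R hR) : e x ∈ bi_sub R hR := by
  obtain ⟨x, q, r, hr, rfl⟩ := x
  exact ⟨q, e r, he r hr, by simp⟩

/-- The restriction of an automorphism to the subalgebra. -/
def bi_equiv (R : Submodule ℚ B) (hR : ∀ x ∈ R, ∀ y ∈ R, x * y ∈ R) (e : B ≃ₐ[ℚ] B)
    (he : ∀ x, e x ∈ R ↔ x ∈ R) : bi_sub R hR ≃+* bi_sub R hR where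
  toFun x := ⟨e x, bi_sub_map R hR e (fun x hx => (he x).2 hx) x⟩
  invFun x := ⟨e.symm x, bi_sub_map R hR e.symm (fun x hx => (he _).1 (by simpa using hx)) x⟩
  left_inv x := by ext; simp
  right_inv x := by ext; simp
  map_mul' x y := by ext; simp
  map_add' x y := by ext; simp

theorem nil_of_trace {B : Type} [Ring B] [Algebra ℚ B] (R J : Submodule ℚ B)
    (hR : ∀ x ∈ R, ∀ y ∈ R, x * y ∈ R) (hJR : J ≤ R)
    (hJl : ∀ x ∈ R, ∀ y ∈ J, x * y ∈ J) (hJr : ∀ x ∈ J, ∀ y ∈ R, x * y ∈ J)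
    {ι : Type} [Fintype ι] [Nonempty ι] (φ : ι → B ≃ₐ[ℚ] B)
    (hφ : ∀ i x, φ i x ∈ R ↔ x ∈ R) (htr : ∀ x ∈ R, ∑ i, φ i x ∈ J)
    (a : B) (ha : a ∈ R) : ∃ n : ℕ, 0 < n ∧ a ^ n ∈ J := by
  let A := bi_sub R hR
  let RA : AddSubgroup A := R.toAddSubgroup.comap A.val.toAddMonoidHom
  let JA : AddSubgroup A := J.toAddSubgroup.comap A.val.toAddMonoidHom
  have hRA : ∀ x : A, x ∈ RA ↔ (x : B) ∈ R := fun x => Iff.rfl
  have hJA : ∀ x : A, x ∈ JA ↔ (x : B) ∈ J := fun x => Iff.rfl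
  have hl : ∀ (N : Submodule ℚ B), (∀ x ∈ R, ∀ y ∈ N, x * y ∈ N) → ∀ s : A, ∀ x ∈ N, (s : B) * x ∈ N := by
    rintro N hN ⟨_, q, r, hr, rfl⟩ x hx
    simp only
    rw [add_mul, ← Algebra.smul_def]
    exact N.add_mem (N.smul_mem _ hx) (hN _ hr _ hx)
  have hr' : ∀ (N : Submodule ℚ B), (∀ x ∈ N, ∀ y ∈ R, x * y ∈ N) → ∀ x ∈ N, ∀ s : A, x * (s : B) ∈ N := by
    rintro N hN x hx ⟨_, q, r, hr, rfl⟩
    simp only
    rw [mul_add, ← Algebra.commutes, ← Algebra.smul_def]
    exact N.add_mem (N.smul_mem _ hx) (hN _ hx _ hr)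
  have h := bi_main (A := A) RA JA
    (by intro s x hx; rw [hRA] at hx ⊢; simpa using hl R hR s x hx)
    (by intro x hx s; rw [hRA] at hx ⊢; simpa using hr' R hR x hx s)
    (by intro s x hx; rw [hJA] at hx ⊢; simpa using hl J hJl s x hx)
    (by intro x hx s; rw [hJA] at hx ⊢; simpa using hr' J hJr x hx s)
    (fun i => bi_equiv R hR (φ i) (hφ i))
    (by intro i x; rw [hRA, hRA]; exact hφ i x)
    (by
      intro x hx
      rw [hRA] at hx
      rw [hJA]
      have := htr x hx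
      simpa [bi_equiv] using this)
    ⟨a, bi_sub_of_mem R hR a ha⟩ ha
  obtain ⟨n, hn, h⟩ := h
  refine ⟨n, hn, ?_⟩
  rw [hJA] at h
  simpa using h

end Step3

end Pool.Agent.VGS
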