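import Mathlib
import Pool.Agent.Chow0.Defs
import Pool.Agent.LowDeg.Defs

/-!
# Nilpotence for very general surfaces: definitions
-/

set_option autoImplicit false

open scoped LinearAlgebra.Projectivization
open MvPolynomial

namespace Pool.Agent.VGS

open Pool.Agent.Chow0 (IsLink)
open Pool.Agent.LowDeg (det4 surf)

/-- The points of `ℙ³(ℂ)`. -/
abbrev PP : Type := ℙ ℂ (Fin 4 → ℂ)

/-- The subfields of `ℂ`. -/
abbrev Fl : Type := IntermediateField ℚ ℂ

/-- The automorphisms of `ℂ` which are the identity on `L`. -/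
def Fix (L : Fl) : Subgroup (ℂ ≃+* ℂ) where
  carrier := {σ | ∀ x ∈ L, σ x = x}
  one_mem' := fun _ _ => rfl
  mul_mem' := fun {σ τ} hσ hτ x hx => by
    change σ (τ x) = x
    rw [hτ x hx, hσ x hx]
  inv_mem' := fun {σ} hσ x hx => by
    change σ.symm x = x
    rw [RingEquiv.symm_apply_eq, hσ x hx]

/-- The field `L(S)`. -/
noncomputable def adj (L : Fl) (S : Set ℂ) : Fl := L ⊔ IntermediateField.adjoin ℚ S

/-- The algebraic closure of `L` in `ℂ`. -/
noncomputable def clo (L : Fl) : Fl := (algebraicClosure L ℂ).restrictScalars ℚ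

/-- The action of an automorphism of `ℂ` on points. -/
noncomputable def act (σ : ℂ ≃+* ℂ) (p : PP) : PP :=
  Projectivization.mk ℂ (fun i => σ (p.rep i)) (by
    intro h
    apply p.rep_nonzero
    funext i
    have h1 := congrFun h i
    simpa using h1)

/-- The field `L(p)`. -/
noncomputable def adjP (L : Fl) (p : PP) : Fl :=
  adj L {x | ∃ i j, p.rep j ≠ 0 ∧ x = p.rep i / p.rep j}

/-- The point `p` is defined over `L`. -/
def Over (L : Fl) (p : PP) : Prop :=
  ∃ (z : Fin 4 → ℂ) (hz : z ≠ 0), (∀ i, z i ∈ L) ∧ p = Projectivization.mk ℂ z hz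

/-- The polynomial `G` has coefficients in `L`. -/
def Coef (L : Fl) {ι : Type} (G : MvPolynomial ι ℂ) : Prop := ∀ m, coeff m G ∈ L

/-- The points of the surface `F = 0` which are generic over `L`. -/
def Gen (L : Fl) (F : MvPolynomial (Fin 4) ℂ) : Set PP :=
  {p | p ∈ surf F ∧ ∀ (e : ℕ) (G : MvPolynomial (Fin 4) ℂ), G.IsHomogeneous e → Coef L G →
    aeval p.rep G = 0 → F ∣ G}

/-- Zero-cycles with rational coefficients. -/
abbrev Cy : Type := PP →₀ ℚ

/-- The cycle of a multiset. -/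
noncomputable def cycQ (s : Multiset PP) : Cy := (s.map fun p => Finsupp.single p (1 : ℚ)).sum

/-- The cycles on the surface `F = 0` which are rationally equivalent to zero. -/
noncomputable def ratQ (F : MvPolynomial (Fin 4) ℂ) : Submodule ℚ Cy :=
  Submodule.span ℚ {z | ∃ s₀ s₁ : Multiset (surf F), IsLink (surf F) s₀ s₁ ∧
    z = cycQ (s₀.map Subtype.val) - cycQ (s₁.map Subtype.val)}

/-- The action of an automorphism of `ℂ` on cycles. -/
noncomputable def actC (σ : ℂ ≃+* ℂ) : Cy →ₗ[ℚ] Cy := Finsupp.lmapDomain ℚ ℚ (act σ)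

/-- The linear extension of a map from points to cycles. -/
noncomputable def ext (T : PP → Cy) : Cy →ₗ[ℚ] Cy := Finsupp.linearCombination ℚ T

/-! ### Specialisation -/

/-- `V` contains the field `C`. -/
def IsPl (V : ValuationSubring ℂ) (C : Fl) : Prop := ∀ c ∈ C, c ∈ V

/-- The element `x` specialises to the element `c` of `C`. -/
def Sp (V : ValuationSubring ℂ) (C : Fl) (x c : ℂ) : Prop := c ∈ C ∧ V.valuation (x - c) < 1

/-- The point `p` specialises to the point `q`, defined over `C`. -/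
def SpP (V : ValuationSubring ℂ) (C : Fl) (p q : PP) : Prop :=
  ∃ (z w : Fin 4 → ℂ) (hz : z ≠ 0) (hw : w ≠ 0), p = Projectivization.mk ℂ z hz ∧
    q = Projectivization.mk ℂ w hw ∧ ∀ i, Sp V C (z i) (w i)

/-! ### Correspondences -/

/-- `T` maps generic points (over `K`) of the surface `F = 0` to cycles of generic points, and
commutes with the automorphisms of `ℂ` over `K'`. -/
structure IsT (K K' : Fl) (F : MvPolynomial (Fin 4) ℂ) (T : PP → Cy) : Prop where
  supp : ∀ p ∈ Gen K F, ∀ q ∈ (T p).support, q ∈ Gen K F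
  equi : ∀ σ ∈ Fix K', ∀ p ∈ Gen K F, T (act σ p) = actC σ (T p)

/-! ### Two-forms -/

/-- The differential of `F` at `z` in the direction `v`. -/
noncomputable def dFc (F : MvPolynomial (Fin 4) ℂ) (z v : Fin 4 → ℂ) : ℂ :=
  ∑ i, v i * aeval z (pderiv i F)

/-- `J` is the value at `z` of the two-form `Res (Ω / F)` on the pair of derivations. -/
def IsResC (F : MvPolynomial (Fin 4) ℂ) (D₁ D₂ : Derivation ℤ ℂ ℂ) (z : Fin 4 → ℂ) (J : ℂ) : Prop :=
  ∀ v : Fin 4 → ℂ, det4 v z (fun i => D₁ (z i)) (fun i => D₂ (z i)) = J * dFc F z v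

/-- The value at the point `p` of the two-form `Res (f Ω / F)` on the pair of derivations. -/
noncomputable def tau (F : MvPolynomial (Fin 4) ℂ) (D₁ D₂ : Derivation ℤ ℂ ℂ)
    (f : MvPolynomial (Fin 4) ℂ) (p : PP) : ℂ :=
  aeval p.rep f * Classical.epsilon fun J => IsResC F D₁ D₂ p.rep J

/-- Its linear extension to cycles. -/
noncomputable def tauC (F : MvPolynomial (Fin 4) ℂ) (D₁ D₂ : Derivation ℤ ℂ ℂ)
    (f : MvPolynomial (Fin 4) ℂ) : Cy →ₗ[ℚ] ℂ :=
  Finsupp.linearCombination ℚ (tau F D₁ D₂ f)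

/-- The derivation `D` is zero on `L`. -/
def Kills (L : Fl) (D : Derivation ℤ ℂ ℂ) : Prop := ∀ x ∈ L, D x = 0

end Pool.Agent.VGS
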