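import Pool.Agent.VGS.DilDefs
import Pool.Agent.VGS.CloM

/-! The dilation: parts (ii), (iv), (v) of section 1.3, and section 1.4. -/

set_option autoImplicit false

open MvPolynomial

namespace Pool.Agent.VGS

theorem inD_iff {k : Fl} {q y : Fin 4 → ℂ} :
    InD k q y ↔ ∀ f : MvPolynomial (Fin 4) k, aeval q f = 0 → aeval y f = 0 := by
  constructor
  · intro h f hf
    have := h (map (algebraMap k ℂ) f) (coef_iff.2 ⟨f, rfl⟩) (by simpa [aeval_def, eval₂_map] using hf)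
    simpa [aeval_def, eval₂_map] using this
  · intro h f hf h0
    obtain ⟨f', rfl⟩ := coef_iff.1 hf
    have := h f' (by simpa [aeval_def, eval₂_map] using h0)
    simpa [aeval_def, eval₂_map] using this

/-- the value of `G₀ = G - a X_j ^ d` at a zero of `G` with `z_j = 1` -/
theorem aeval_G0 {j : Fin 4} {d : ℕ} {G : MvPolynomial (Fin 4) ℂ} {a : ℂ} {z : Fin 4 → ℂ}
    (hzj : z j = 1) (hzG : aeval z G = 0) : aeval z (G - C a * X j ^ d) = -a := by
  rw [map_sub, hzG]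
  simp [hzj]

theorem coef_G {k₁ : Fl} {j : Fin 4} {d : ℕ} {G : MvPolynomial (Fin 4) ℂ} {a : ℂ}
    (hG₀ : Coef k₁ (G - C a * X j ^ d)) : Coef (adj k₁ {a}) G := by
  intro m
  have h1 : coeff m G = coeff m (G - C a * X j ^ d) + a * coeff m (X j ^ d : MvPolynomial (Fin 4) ℂ) := by
    rw [coeff_sub, coeff_C_mul]; ring
  rw [h1]
  refine add_mem (le_adj _ _ (hG₀ m)) (mul_mem (subset_adj _ _ rfl) ?_)
  rw [coeff_X_pow]
  split_ifs
  · exact one_mem _
  · exact zero_mem _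

/-- (ii) -/
theorem dil_ii (k₁ : Fl) (j : Fin 4) {d : ℕ}
    (G : MvPolynomial (Fin 4) ℂ) (a : ℂ) (ha : Transcendental k₁ a)
    (hG₀ : Coef k₁ (G - C a * X j ^ d)) (q : Fin 4 → ℂ)
    (hqC : ∀ i, q i ∈ clo (adj k₁ {a})) {u : ℂ} (hu : u ∉ clo (adj k₁ {a})) {c : Fin 4 → ℂ}
    (hc : ∀ i, ∃ n : ℤ, c i = n) {s : Fin 4 → ℂ} (hsj : s j = 1) (hsG : aeval s G = 0)
    (hs : InD k₁ q (fun i => (1 - u) * s i + u * c i)) :
    ∀ i, s i ∈ clo (adj (adj k₁ {a}) {u}) := by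
  set y : Fin 4 → ℂ := fun i => (1 - u) * s i + u * c i with hy
  have hu1 : 1 - u ≠ 0 := by
    intro h
    apply hu
    have : u = 1 := by linear_combination -h
    rw [this]; exact one_mem _
  have hcm : ∀ (L : Fl) i, c i ∈ L := by
    intro L i
    obtain ⟨n, hn⟩ := hc i
    rw [hn]; exact intCast_mem _ n
  have hsi : ∀ i, s i = (y i - u * c i) / (1 - u) := by
    intro i
    rw [eq_div_iff hu1, hy]; ring
  have hsm : ∀ L : Fl, u ∈ L → (∀ i, y i ∈ L) → ∀ i, s i ∈ L := by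
    intro L huL hyL i
    rw [hsi i]
    exact div_mem (sub_mem (hyL i) (mul_mem huL (hcm L i))) (sub_mem (one_mem _) huL)
  have ham : ∀ L : Fl, k₁ ≤ L → u ∈ L → (∀ i, y i ∈ L) → a ∈ L := by
    intro L hkL huL hyL
    have h1 := aeval_G0 (d := d) (a := a) hsj hsG
    have h2 : aeval s (G - C a * X j ^ d) ∈ L :=
      aeval_mem (hG₀.mono hkL) (hsm L huL hyL)
    rw [h1] at h2
    simpa using neg_mem h2
  have ha' : a ∉ clo k₁ := by rw [mem_clo]; exact ha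
  have hau : a ∉ clo (adj k₁ {u}) := fun h => hu (clo_exch h ha')
  have huu : ∀ (L : Fl) (S : Set ℂ), u ∈ S → u ∈ clo (adj L S) := fun L S h =>
    le_clo _ (subset_adj L S h)
  have hB : ∃ l, y l ∉ clo (adj k₁ {u}) := by
    by_contra hcon
    push Not at hcon
    exact hau (ham _ ((le_adj _ _).trans (le_clo _)) (huu _ _ rfl) hcon)
  obtain ⟨l, hl⟩ := hB
  have hl1 : y l ∉ clo k₁ := fun h => hl (clo_mono (le_adj _ _) h)
  have hyl : ∀ i, y i ∈ clo (adj k₁ {y l}) := by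
    intro i
    by_contra hi
    have h1 := algInd_pair_iff.2 ⟨hl1, hi⟩
    obtain ⟨f, hfk, hf0, hf⟩ := exists_dep (hqC i) (hqC l)
    apply hf0
    refine algInd_pair' h1 f hfk ?_
    have h2 := hs (rename ![i, l] f) ?_ ?_
    · rw [aeval_rename] at h2
      convert h2 using 3
      funext t
      fin_cases t
      · rfl
      · rfl
    · obtain ⟨f', rfl⟩ := coef_iff.1 hfk
      exact coef_iff.2 ⟨rename ![i, l] f', by rw [map_rename]⟩
    · rw [aeval_rename]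
      convert hf using 3
      funext t
      fin_cases t
      · rfl
      · rfl
  have hyl' : ∀ L : Fl, k₁ ≤ clo L → y l ∈ clo L → ∀ i, y i ∈ clo L := by
    intro L hkL hyL i
    exact clo_adj_le hkL (by simpa using hyL) (hyl i)
  have h3 : a ∈ clo (adj (adj k₁ {u}) {y l}) := by
    refine ham _ ?_ ?_ (hyl' _ ?_ ?_)
    · exact ((le_adj _ _).trans (le_adj _ _)).trans (le_clo _)
    · exact le_clo _ (le_adj _ _ (subset_adj _ _ rfl))
    · exact ((le_adj _ _).trans (le_adj _ _)).trans (le_clo _)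
    · exact le_clo _ (subset_adj _ _ rfl)
  have h4 : y l ∈ clo (adj (adj k₁ {u}) {a}) := clo_exch h3 hau
  have h5 : adj (adj k₁ {u}) {a} = adj (adj k₁ {a}) {u} := by
    rw [adj_adj, adj_adj, Set.union_comm]
  rw [h5] at h4
  have hk : k₁ ≤ clo (adj (adj k₁ {a}) {u}) := ((le_adj _ _).trans (le_adj _ _)).trans (le_clo _)
  exact hsm _ (le_clo _ (subset_adj _ _ rfl)) (hyl' _ hk h4)

/-- relations of `q` and of a point `w` of the curve on `G = 0` -/
theorem dil_rel (k₁ : Fl) (j : Fin 4) {d : ℕ}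
    (G : MvPolynomial (Fin 4) ℂ) (a : ℂ)
    (hG₀ : Coef k₁ (G - C a * X j ^ d)) (q : Fin 4 → ℂ) (hqj : q j = 1) (hqG : aeval q G = 0)
    (hqC : ∀ i, q i ∈ clo (adj k₁ {a})) {w : Fin 4 → ℂ} (hwj : w j = 1) (hwG : aeval w G = 0)
    (hw : InD k₁ q w) : InD k₁ w q := by
  rw [inD_iff]
  intro f hf
  by_contra hx
  set x : ℂ := aeval q f with hxd
  have hxC : x ∈ clo (adj k₁ {a}) := by
    have h1 : x = aeval q (map (algebraMap k₁ ℂ) f) := by
      simp [hxd, aeval_def, eval₂_map]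
    rw [h1]
    exact aeval_mem (fun m => le_clo _ (le_adj _ _ (coef_iff.2 ⟨f, rfl⟩ m))) hqC
  rw [mem_clo_adj] at hxC
  obtain ⟨R, hR0, hR⟩ := hxC.exists_nonzero_coeff_and_aeval_eq_zero
    (mem_nonZeroDivisors_of_ne_zero hx)
  obtain ⟨g₀, hg₀⟩ := coef_iff.1 hG₀
  have hq0 : aeval q g₀ = -a := by
    rw [← aeval_G0 (d := d) (a := a) hqj hqG, ← hg₀]
    simp [aeval_def, eval₂_map]
  have hw0 : aeval w g₀ = -a := by
    rw [← aeval_G0 (d := d) (a := a) hwj hwG, ← hg₀]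
    simp [aeval_def, eval₂_map]
  have hr : ∀ i, ∃ r : Polynomial k₁, Polynomial.aeval a r = (R.coeff i : ℂ) := by
    intro i
    obtain ⟨b, hb⟩ := R.coeff i
    rw [Algebra.adjoin_singleton_eq_range_aeval] at hb
    exact hb
  choose r hr using hr
  set Q : MvPolynomial (Fin 4) k₁ :=
    ∑ i ∈ Finset.range (R.natDegree + 1), Polynomial.aeval (-g₀) (r i) * f ^ i with hQ
  have key : ∀ z : Fin 4 → ℂ, aeval z g₀ = -a →
      aeval z Q = ∑ i ∈ Finset.range (R.natDegree + 1), (R.coeff i : ℂ) * (aeval z f) ^ i := by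
    intro z hz
    rw [hQ, map_sum]
    refine Finset.sum_congr rfl fun i _ => ?_
    rw [map_mul, map_pow, ← Polynomial.aeval_algHom_apply, map_neg, hz, neg_neg, hr]
  have h1 : aeval q Q = 0 := by
    rw [key q hq0]
    rw [Polynomial.aeval_eq_sum_range] at hR
    rw [← hR]
    refine Finset.sum_congr rfl fun i _ => ?_
    rfl
  have h2 := (inD_iff.1 hw) Q h1
  rw [key w hw0, Finset.sum_range_succ', hf] at h2
  simp at h2
  exact hR0 h2

/-- two points with the same relations, on `G = 0` -/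
theorem dil_conj (k₁ : Fl) [Countable k₁] (j : Fin 4) {d : ℕ}
    (G : MvPolynomial (Fin 4) ℂ) (a : ℂ)
    (hG₀ : Coef k₁ (G - C a * X j ^ d)) (q : Fin 4 → ℂ) (hqj : q j = 1) (hqG : aeval q G = 0)
    {w : Fin 4 → ℂ} (hwj : w j = 1) (hwG : aeval w G = 0)
    (hw : InD k₁ q w) (hw' : InD k₁ w q) : ∃ σ ∈ Fix (adj k₁ {a}), ∀ i, σ (q i) = w i := by
  obtain ⟨σ, hσ, h⟩ := exists_fix k₁ q w fun P hP => ⟨hw P hP, hw' P hP⟩
  refine ⟨σ, ?_, h⟩
  rw [mem_Fix_adj]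
  refine ⟨hσ, ?_⟩
  intro x hx
  rw [Set.mem_singleton_iff] at hx
  subst hx
  have h1 := aeval_G0 (d := d) (a := x) hqj hqG
  have h2 := aeval_G0 (d := d) (a := x) hwj hwG
  have h3 := aeval_fix hG₀ hσ q
  rw [h1] at h3
  have h4 : (fun i => σ (q i)) = w := funext h
  rw [h4, h2, map_neg] at h3
  simpa using h3.symm

/-- (iv) -/
theorem dil_iv (k₁ : Fl) [Countable k₁] (j : Fin 4) {d : ℕ}
    (G : MvPolynomial (Fin 4) ℂ) (a : ℂ)
    (hG₀ : Coef k₁ (G - C a * X j ^ d)) (q : Fin 4 → ℂ) (hqj : q j = 1) (hqG : aeval q G = 0)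
    (hqC : ∀ i, q i ∈ clo (adj k₁ {a})) {u : ℂ} {c : Fin 4 → ℂ}
    (hc : ∀ i, ∃ n : ℤ, c i = n) {s : Fin 4 → ℂ} (hsj : s j = 1) (hsG : aeval s G = 0)
    (hs : InD k₁ q (fun i => (1 - u) * s i + u * c i)) {V : ValuationSubring ℂ}
    (hV : IsPl V (clo (adj k₁ {a}))) (hu : Sp V (clo (adj k₁ {a})) u 0) {w : Fin 4 → ℂ}
    (hw : ∀ i, Sp V (clo (adj k₁ {a})) (s i) (w i)) :
    ∃ σ ∈ Fix (adj k₁ {a}), ∀ i, σ (q i) = w i := by
  have hone : Sp V (clo (adj k₁ {a})) 1 1 := Sp.const hV (one_mem _)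
  have hzero : Sp V (clo (adj k₁ {a})) 0 0 := Sp.const hV (zero_mem _)
  have hwj : w j = 1 := by
    have := hw j
    rw [hsj] at this
    exact Sp.unique hV this hone
  have hk : k₁ ≤ clo (adj k₁ {a}) := (le_adj _ _).trans (le_clo _)
  have hwG : aeval w G = 0 := by
    have h1 := Sp.aeval hV ((coef_G hG₀).mono (le_clo _)) hw
    rw [hsG] at h1
    exact Sp.unique hV h1 hzero
  have hwD : InD k₁ q w := by
    intro f hf h0
    have h1 := hs f hf h0
    have h2 : ∀ i, Sp V (clo (adj k₁ {a})) ((1 - u) * s i + u * c i) (w i) := by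
      intro i
      obtain ⟨n, hn⟩ := hc i
      have h3 := (((hone.sub hV hu).mul hV (hw i)).add hV (hu.mul hV
        (Sp.const hV (show c i ∈ clo (adj k₁ {a}) by rw [hn]; exact intCast_mem _ n))))
      simpa using h3
    have h4 := Sp.aeval hV (hf.mono hk) h2
    rw [h1] at h4
    exact Sp.unique hV h4 hzero
  exact dil_conj k₁ j G a hG₀ q hqj hqG hwj hwG hwD
    (dil_rel k₁ j G a hG₀ q hqj hqG hqC hwj hwG hwD)

/-- (v) -/
theorem dil_v (k₁ : Fl) (a : ℂ) (q : Fin 4 → ℂ) {u : ℂ} {c : Fin 4 → ℂ}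
    (hc : ∀ i, ∃ n : ℤ, c i = n) (hcD : ¬ InD k₁ q c) {s : Fin 4 → ℂ}
    (hs : InD k₁ q (fun i => (1 - u) * s i + u * c i)) {V : ValuationSubring ℂ}
    (hV : IsPl V (clo (adj k₁ {a}))) (hu : Sp V (clo (adj k₁ {a})) u 1) :
    ∃ i, s i ∉ V := by
  by_contra hcon
  push Not at hcon
  apply hcD
  intro f hf h0
  have hzero : Sp V (clo (adj k₁ {a})) 0 0 := Sp.const hV (zero_mem _)
  have hk : k₁ ≤ clo (adj k₁ {a}) := (le_adj _ _).trans (le_clo _)
  have h1 := hs f hf h0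
  have h2 : ∀ i, Sp V (clo (adj k₁ {a})) ((1 - u) * s i + u * c i) (c i) := by
    intro i
    obtain ⟨n, hn⟩ := hc i
    have hcC : c i ∈ clo (adj k₁ {a}) := by rw [hn]; exact intCast_mem _ n
    refine ⟨hcC, ?_⟩
    have h3 : (1 - u) * s i + u * c i - c i = (1 - u) * (s i - c i) := by ring
    rw [h3, map_mul]
    have h4 : V.valuation (1 - u) < 1 := by
      have := hu.2
      rwa [← Valuation.map_neg, neg_sub] at this
    have h5 : V.valuation (s i - c i) ≤ 1 := by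
      rw [ValuationSubring.valuation_le_one_iff]
      exact sub_mem (hcon i) (hV _ hcC)
    calc V.valuation (1 - u) * V.valuation (s i - c i) ≤ V.valuation (1 - u) * 1 :=
          mul_le_mul_right h5 _
      _ < 1 := by rw [mul_one]; exact h4
  have h4 := Sp.aeval hV (hf.mono hk) h2
  rw [h1] at h4
  exact Sp.unique hV h4 hzero

theorem line_trans (k₂ : Fl) {d : ℕ} (G : MvPolynomial (Fin 4) ℂ)
    (a : ℂ) (ha : Transcendental k₂ a)
    (hG₀ : Coef k₂ (G - C a * X 2 ^ d)) (q : Fin 4 → ℂ) (hq0 : q 0 = 0) (hq1 : q 1 = 0)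
    (hq2 : q 2 = 1) (hqG : aeval q G = 0) : Transcendental k₂ (q 3) := by
  intro h
  rw [← mem_clo] at h
  apply ha
  rw [← mem_clo]
  have h1 := aeval_G0 (d := d) (a := a) hq2 hqG
  have h2 : aeval q (G - C a * X 2 ^ d) ∈ clo k₂ := by
    refine aeval_mem (hG₀.mono (le_clo _)) fun i => ?_
    fin_cases i
    · change q 0 ∈ _; rw [hq0]; exact zero_mem _
    · change q 1 ∈ _; rw [hq1]; exact zero_mem _
    · change q 2 ∈ _; rw [hq2]; exact one_mem _
    · exact h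
  rw [h1] at h2
  simpa using neg_mem h2

theorem line_inD (k₂ : Fl) (q q' : Fin 4 → ℂ) (hq0 : q 0 = 0) (hq1 : q 1 = 0)
    (hq2 : q 2 = 1) (hq0' : q' 0 = 0) (hq1' : q' 1 = 0) (hq2' : q' 2 = 1)
    (ht : Transcendental k₂ (q 3)) : InD k₂ q q' := by
  rw [inD_iff]
  intro f hf
  set P : Polynomial k₂ := aeval ![0, 0, 1, Polynomial.X] f with hP
  have key : ∀ z : Fin 4 → ℂ, z 0 = 0 → z 1 = 0 → z 2 = 1 →
      aeval z f = Polynomial.aeval (z 3) P := by
    intro z h0 h1 h2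
    rw [hP, ← AlgHom.comp_apply]
    congr 1
    ext i
    fin_cases i
    · simp [h0]
    · simp [h1]
    · simp [h2]
    · simp
  rw [key q hq0 hq1 hq2] at hf
  rw [key q' hq0' hq1' hq2']
  have hP0 : P = 0 := by
    by_contra h
    exact ht ⟨P, h, hf⟩
  rw [hP0, map_zero]

/-- Section 1.4. -/
theorem line_conj (k₂ : Fl) [Countable k₂] {d : ℕ} (hd : 1 ≤ d) (G : MvPolynomial (Fin 4) ℂ)
    (hG : G.IsHomogeneous d) (a : ℂ) (ha : Transcendental k₂ a)
    (hG₀ : Coef k₂ (G - C a * X 2 ^ d)) (q q' : Fin 4 → ℂ) (hq0 : q 0 = 0) (hq1 : q 1 = 0)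
    (hq2 : q 2 = 1) (hq0' : q' 0 = 0) (hq1' : q' 1 = 0) (hq2' : q' 2 = 1)
    (hqG : aeval q G = 0) (hqG' : aeval q' G = 0) :
    ∃ σ ∈ Fix (adj k₂ {a}), ∀ i, σ (q i) = q' i :=
  dil_conj k₂ 2 G a hG₀ q hq2 hqG hq2' hqG'
    (line_inD k₂ q q' hq0 hq1 hq2 hq0' hq1' hq2' (line_trans k₂ G a ha hG₀ q hq0 hq1 hq2 hqG))
    (line_inD k₂ q' q hq0' hq1' hq2' hq0 hq1 hq2
      (line_trans k₂ G a ha hG₀ q' hq0' hq1' hq2' hqG'))

end Pool.Agent.VGS
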