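import Pool.Agent.VGS.Aut
import Pool.Agent.VGS.Place

/-! Definitions for the module Dil. -/

set_option autoImplicit false

open MvPolynomial

namespace Pool.Agent.VGS

/-- `y` satisfies all polynomial equations over `k` which `q` satisfies. -/
def InD (k : Fl) (q y : Fin 4 → ℂ) : Prop :=
  ∀ f : MvPolynomial (Fin 4) ℂ, Coef k f → aeval q f = 0 → aeval y f = 0

end Pool.Agent.VGS
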