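import Mathlib

/-! Module Dvr: the local ring of a smooth surface at a point of codimension at most one. -/

set_option autoImplicit false

namespace Pool.Agent.VGS

section
open Polynomial

/-- Elimination of the variable. -/
lemma dvr_elim {R : Type} [CommRing R] [IsDomain R] [UniqueFactorizationMonoid R] {F f : R[X]}
    (hF : Irreducible F) (hdeg : F.natDegree ≠ 0) (h : ¬ F ∣ f) :
    ∃ r : R, r ≠ 0 ∧ ∃ a b : R[X], C r = a * F + b * f := by
  classical
  let K := FractionRing R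
  have hprim : F.IsPrimitive := hF.isPrimitive hdeg
  have hirr : Irreducible (F.map (algebraMap R K)) :=
    (IsPrimitive.irreducible_iff_irreducible_map_fraction_map hprim).mp hF
  have hnd : ¬ F.map (algebraMap R K) ∣ f.map (algebraMap R K) := fun hd =>
    h (IsPrimitive.dvd_of_fraction_map_dvd_fraction_map hprim hd)
  obtain ⟨a, b, hab⟩ : IsCoprime (F.map (algebraMap R K)) (f.map (algebraMap R K)) :=
    (hirr.coprime_iff_not_dvd).mpr hnd
  obtain ⟨ra, hra0, hra⟩ := IsLocalization.integerNormalization_spec (nonZeroDivisors R) a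
  obtain ⟨rb, hrb0, hrb⟩ := IsLocalization.integerNormalization_spec (nonZeroDivisors R) b
  set a' := IsLocalization.integerNormalization (nonZeroDivisors R) a
  set b' := IsLocalization.integerNormalization (nonZeroDivisors R) b
  refine ⟨ra * rb, mul_ne_zero (nonZeroDivisors.ne_zero hra0) (nonZeroDivisors.ne_zero hrb0),
    C rb * a', C ra * b', ?_⟩
  apply Polynomial.map_injective (algebraMap R K) (IsFractionRing.injective R K)
  rw [Polynomial.map_add, Polynomial.map_mul, Polynomial.map_mul, Polynomial.map_mul,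
    Polynomial.map_mul, map_C, map_C, map_C, hra, hrb, map_mul, C_mul]
  rw [Algebra.smul_def, Algebra.smul_def]
  have e1 : ∀ r : R, algebraMap R K[X] r = C (algebraMap R K r) := fun r => rfl
  rw [e1, e1]
  linear_combination (-(C (algebraMap R K ra) * C (algebraMap R K rb))) * hab

/-- The local computation: the ideal of the point is generated by `F` and the ideal of its
projection. -/
lemma dvr_step {R Ω : Type} [CommRing R] [Field Ω] (φ : R →+* Ω) (x : Ω) (F f : R[X])
    (h0 : eval₂ φ x F = 0) (h1 : eval₂ φ x (derivative F) ≠ 0) (hf : eval₂ φ x f = 0) :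
    ∃ N F₁ : R[X], eval₂ φ x N ≠ 0 ∧ (N * f - F₁ * F).map (Ideal.Quotient.mk (RingHom.ker φ)) = 0 := by
  classical
  have hprime : (RingHom.ker φ).IsPrime := RingHom.ker_isPrime φ
  let R₁ := R ⧸ RingHom.ker φ
  let π : R →+* R₁ := Ideal.Quotient.mk (RingHom.ker φ)
  let φ₁ : R₁ →+* Ω := RingHom.kerLift φ
  have hφ₁ : Function.Injective φ₁ := RingHom.kerLift_injective φ
  have hφπ : ∀ r, φ₁ (π r) = φ r := fun r => RingHom.kerLift_mk φ r
  let K := FractionRing R₁
  let ψ : K →+* Ω := IsFractionRing.lift (A := R₁) hφ₁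
  have hψ : ∀ r : R₁, ψ (algebraMap R₁ K r) = φ₁ r := fun r => IsFractionRing.lift_algebraMap hφ₁ r
  let _ : Algebra K Ω := ψ.toAlgebra
  have hinj : Function.Injective (algebraMap R₁ K) := IsFractionRing.injective R₁ K
  have hev : ∀ g : R[X], aeval x (g.map ((algebraMap R₁ K).comp π)) = eval₂ φ x g := by
    intro g
    rw [aeval_def, eval₂_map]
    congr 1
    ext r
    show ψ (algebraMap R₁ K (π r)) = φ r
    rw [hψ, hφπ]
  have hF0 : F.map ((algebraMap R₁ K).comp π) ≠ 0 := by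
    intro h
    apply h1
    rw [← hev, ← derivative_map, h, derivative_zero, map_zero]
  have hint : IsIntegral K x := by
    rw [← isAlgebraic_iff_isIntegral]
    exact ⟨_, hF0, by rw [hev, h0]⟩
  obtain ⟨n, hn⟩ := minpoly.dvd K x (by rw [hev, h0] : aeval x (F.map ((algebraMap R₁ K).comp π)) = 0)
  obtain ⟨f₁, hf₁⟩ := minpoly.dvd K x (by rw [hev, hf] : aeval x (f.map ((algebraMap R₁ K).comp π)) = 0)
  have hnx : aeval x n ≠ 0 := by
    intro h
    apply h1
    rw [← hev, ← derivative_map, hn, derivative_mul, map_add, map_mul, map_mul, h, mul_zero,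
      minpoly.aeval, zero_mul, add_zero]
  have hkey : n * f.map ((algebraMap R₁ K).comp π) = f₁ * F.map ((algebraMap R₁ K).comp π) := by
    rw [hn, hf₁]
    ring
  obtain ⟨rn, hrn0, hrn⟩ := IsLocalization.integerNormalization_spec (nonZeroDivisors R₁) n
  obtain ⟨rf, hrf0, hrf⟩ := IsLocalization.integerNormalization_spec (nonZeroDivisors R₁) f₁
  set n' := IsLocalization.integerNormalization (nonZeroDivisors R₁) n
  set f' := IsLocalization.integerNormalization (nonZeroDivisors R₁) f₁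
  have e1 : ∀ r : R₁, algebraMap R₁ K[X] r = C (algebraMap R₁ K r) := fun r => rfl
  rw [Algebra.smul_def, e1] at hrn hrf
  have hπs : Function.Surjective π := Ideal.Quotient.mk_surjective
  obtain ⟨N, hN⟩ := Polynomial.map_surjective π hπs (C rf * n')
  obtain ⟨F₁, hF₁⟩ := Polynomial.map_surjective π hπs (C rn * f')
  have hNK : N.map ((algebraMap R₁ K).comp π) = C (algebraMap R₁ K rf) * (C (algebraMap R₁ K rn) * n) := by
    rw [← Polynomial.map_map, hN, Polynomial.map_mul, map_C, hrn]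
  have hFK : F₁.map ((algebraMap R₁ K).comp π) = C (algebraMap R₁ K rn) * (C (algebraMap R₁ K rf) * f₁) := by
    rw [← Polynomial.map_map, hF₁, Polynomial.map_mul, map_C, hrf]
  have hnz : ∀ r : R₁, r ∈ nonZeroDivisors R₁ → aeval x (C (algebraMap R₁ K r)) ≠ 0 := by
    intro r hr
    rw [aeval_C]
    show ψ (algebraMap R₁ K r) ≠ 0
    rw [hψ]
    intro h
    exact nonZeroDivisors.ne_zero hr (hφ₁ (by rw [h, map_zero]))
  refine ⟨N, F₁, ?_, ?_⟩
  · rw [← hev, hNK, map_mul, map_mul]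
    exact mul_ne_zero (hnz rf hrf0) (mul_ne_zero (hnz rn hrn0) hnx)
  · apply Polynomial.map_injective (algebraMap R₁ K) hinj
    rw [Polynomial.map_map, Polynomial.map_zero]
    show (N * f - F₁ * F).map ((algebraMap R₁ K).comp π) = 0
    rw [Polynomial.map_sub, Polynomial.map_mul, Polynomial.map_mul, hNK, hFK]
    linear_combination (C (algebraMap R₁ K rf) * C (algebraMap R₁ K rn)) * hkey

end

section
open Polynomial

/-- The divisibility form of `dvr_step`. -/
lemma dvr_step' {R Ω : Type} [CommRing R] [Field Ω] (φ : R →+* Ω) (x : Ω) (F f : R[X])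
    (h0 : eval₂ φ x F = 0) (h1 : eval₂ φ x (derivative F) ≠ 0) (hf : eval₂ φ x f = 0) (g : R)
    (hg : ∀ r, φ r = 0 → g ∣ r) :
    ∃ N F₁ h : R[X], eval₂ φ x N ≠ 0 ∧ N * f = C g * h + F₁ * F := by
  obtain ⟨N, F₁, hN, hk⟩ := dvr_step φ x F f h0 h1 hf
  have hd : C g ∣ N * f - F₁ * F := by
    rw [C_dvd_iff_dvd_coeff]
    intro i
    apply hg
    have h2 := congrArg (fun p => coeff p i) hk
    simp only [coeff_map, coeff_zero] at h2
    rwa [Ideal.Quotient.eq_zero_iff_mem, RingHom.mem_ker] at h2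
  obtain ⟨h, hh⟩ := hd
  exact ⟨N, F₁, h, hN, by rw [← hh]; ring⟩

lemma dvr_iter {R Ω : Type} [CommRing R] [IsDomain R] [UniqueFactorizationMonoid R] [Field Ω]
    (φ : R →+* Ω) (x : Ω) (F : R[X]) (hF : Irreducible F)
    (h0 : eval₂ φ x F = 0) (h1 : eval₂ φ x (derivative F) ≠ 0) (g : R) (hg0 : φ g = 0)
    (hg : ∀ r, φ r = 0 → g ∣ r) (f : R[X]) (hf : ¬ F ∣ f) :
    ∃ (n : ℕ) (A B : R[X]), eval₂ φ x A ≠ 0 ∧ eval₂ φ x B ≠ 0 ∧ (F ∣ B * f - A * (C g) ^ n) ∧
      (eval₂ φ x f ≠ 0 → n = 0) ∧ (eval₂ φ x f = 0 → 0 < n) := by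
  have hFp : Prime F := hF.prime
  have hdeg : F.natDegree ≠ 0 := by
    intro h
    apply h1
    rw [Polynomial.derivative_of_natDegree_zero h, eval₂_zero]
  have hunit : ∀ f : R[X], eval₂ φ x f ≠ 0 →
      ∃ (n : ℕ) (A B : R[X]), eval₂ φ x A ≠ 0 ∧ eval₂ φ x B ≠ 0 ∧ (F ∣ B * f - A * (C g) ^ n) ∧
      (eval₂ φ x f ≠ 0 → n = 0) ∧ (eval₂ φ x f = 0 → 0 < n) := by
    intro f hfx
    refine ⟨0, f, 1, hfx, by rw [eval₂_one]; exact one_ne_zero, ?_, fun _ => rfl,
      fun h => absurd h hfx⟩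
    rw [pow_zero, mul_one, one_mul, sub_self]
    exact dvd_zero _
  have hevF : ∀ p : R[X], F ∣ p → eval₂ φ x p = 0 := by
    rintro p ⟨c, rfl⟩
    rw [eval₂_mul, h0, zero_mul]
  by_cases hgz : g = 0
  · apply hunit
    intro hfx
    obtain ⟨N, F₁, h, hN, hk⟩ := dvr_step' φ x F f h0 h1 hfx g hg
    rw [hgz, C_0, zero_mul, zero_add] at hk
    rcases hFp.dvd_or_dvd (⟨F₁, by rw [hk, mul_comm]⟩ : F ∣ N * f) with h2 | h2
    · exact hN (hevF _ h2)
    · exact hf h2
  · have hCg : ¬ F ∣ C g := by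
      intro h2
      apply hdeg
      have h3 := natDegree_le_of_dvd h2 (by rwa [Ne, C_eq_zero])
      rw [natDegree_C] at h3
      omega
    have hind : ∀ (k : ℕ) (f : R[X]), ¬ F ∣ f →
        (∃ s b : R[X], eval₂ φ x s ≠ 0 ∧ F ∣ (C g) ^ k * s - b * f) →
        ∃ (n : ℕ) (A B : R[X]), eval₂ φ x A ≠ 0 ∧ eval₂ φ x B ≠ 0 ∧
          (F ∣ B * f - A * (C g) ^ n) ∧
          (eval₂ φ x f ≠ 0 → n = 0) ∧ (eval₂ φ x f = 0 → 0 < n) := by
      intro k
      induction k with
      | zero =>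
        intro f hf ⟨s, b, hs, hd⟩
        apply hunit
        intro hfx
        apply hs
        have h2 := hevF _ hd
        rw [pow_zero, one_mul, eval₂_sub, eval₂_mul, hfx, mul_zero, sub_zero] at h2
        exact h2
      | succ k ih =>
        intro f hf ⟨s, b, hs, hd⟩
        by_cases hfx : eval₂ φ x f = 0
        · obtain ⟨N, F₁, h, hN, hk⟩ := dvr_step' φ x F f h0 h1 hfx g hg
          have hh : ¬ F ∣ h := by
            intro h2
            have h3 : F ∣ N * f := by
              rw [hk]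
              exact dvd_add (h2.mul_left _) (dvd_mul_left _ _)
            rcases hFp.dvd_or_dvd h3 with h4 | h4
            · exact hN (hevF _ h4)
            · exact hf h4
          have h5 : F ∣ (C g) ^ k * (s * N) - b * h := by
            have h6 : F ∣ C g * ((C g) ^ k * (s * N) - b * h) := by
              have h7 : C g * ((C g) ^ k * (s * N) - b * h) =
                  N * ((C g) ^ (k + 1) * s - b * f) + (b * F₁) * F := by
                rw [pow_succ]
                linear_combination b * hk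
              rw [h7]
              exact dvd_add (hd.mul_left _) (dvd_mul_left _ _)
            exact (hFp.dvd_or_dvd h6).resolve_left hCg
          obtain ⟨n, A, B, hA, hB, hAB, -, -⟩ := ih h hh
            ⟨s * N, b, by rw [eval₂_mul]; exact mul_ne_zero hs hN, h5⟩
          refine ⟨n + 1, A, B * N, hA, by rw [eval₂_mul]; exact mul_ne_zero hB hN, ?_,
            fun h => absurd hfx h, fun _ => Nat.succ_pos _⟩
          have h8 : B * N * f - A * (C g) ^ (n + 1) =
              C g * (B * h - A * (C g) ^ n) + (B * F₁) * F := by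
            rw [pow_succ]
            linear_combination B * hk
          rw [h8]
          exact dvd_add (hAB.mul_left _) (dvd_mul_left _ _)
        · exact hunit f hfx
    obtain ⟨r, hr0, a, b, hab⟩ := dvr_elim hF hdeg hf
    have hgu : ¬ IsUnit g := by
      intro h2
      exact (h2.map φ).ne_zero hg0
    obtain ⟨k, r', hr', hrr⟩ := WfDvdMonoid.max_power_factor' hr0 hgu
    refine hind k f hf ⟨C r', b, ?_, ?_⟩
    · rw [eval₂_C]
      exact fun h2 => hr' (hg _ h2)
    · rw [← C_pow, ← C_mul, ← hrr, hab]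
      exact ⟨a, by ring⟩

end

section
open MvPolynomial

variable {κ Ω : Type} [Field κ] [Field Ω] [Algebra κ Ω]

lemma dvr_mem_range [IsAlgClosed κ] {x : Ω} (h : IsAlgebraic κ x) :
    x ∈ (algebraMap κ Ω).range := by
  have hi : IsIntegral κ x := isAlgebraic_iff_isIntegral.mp h
  exact minpoly.mem_range_of_degree_eq_one κ x
    (IsAlgClosed.degree_eq_one_of_irreducible κ (minpoly.irreducible hi))

lemma dvr_finSucc_C (n : ℕ) (a : κ) :
    finSuccEquiv κ n (C a) = Polynomial.C (C a) := by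
  rw [← algebraMap_eq, AlgEquiv.commutes]
  rfl

lemma dvr_eval {n : ℕ} (y : Fin (n + 1) → Ω) (p : MvPolynomial (Fin (n + 1)) κ) :
    Polynomial.eval₂ ((aeval fun i => y i.succ : MvPolynomial (Fin n) κ →ₐ[κ] Ω) :
      MvPolynomial (Fin n) κ →+* Ω) (y 0) (finSuccEquiv κ n p) = aeval y p := by
  induction p using MvPolynomial.induction_on with
  | C a => rw [dvr_finSucc_C, Polynomial.eval₂_C]; simp
  | add p q hp hq => rw [map_add, Polynomial.eval₂_add, hp, hq, map_add]
  | mul_X p i hp =>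
    rw [map_mul, Polynomial.eval₂_mul, hp, map_mul, aeval_X]
    congr 1
    refine Fin.cases ?_ (fun j => ?_) i
    · rw [finSuccEquiv_X_zero, Polynomial.eval₂_X]
    · rw [finSuccEquiv_X_succ, Polynomial.eval₂_C]
      simp

lemma dvr_deriv {n : ℕ} (p : MvPolynomial (Fin (n + 1)) κ) :
    Polynomial.derivative (finSuccEquiv κ n p) = finSuccEquiv κ n (pderiv 0 p) := by
  induction p using MvPolynomial.induction_on with
  | C a => rw [dvr_finSucc_C, Polynomial.derivative_C, pderiv_C, map_zero]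
  | add p q hp hq => simp [hp, hq]
  | mul_X p i hp =>
    rw [map_mul, Polynomial.derivative_mul, hp, Derivation.leibniz, smul_eq_mul, smul_eq_mul,
      map_add, map_mul, map_mul]
    refine Fin.cases ?_ (fun j => ?_) i
    · rw [finSuccEquiv_X_zero, Polynomial.derivative_X, pderiv_X_self, map_one]
      ring
    · rw [finSuccEquiv_X_succ, Polynomial.derivative_C,
        pderiv_X_of_ne (Fin.succ_ne_zero j), map_zero]
      ring

lemma dvr_alg (y : Fin 2 → Ω) {g r : MvPolynomial (Fin 2) κ} (hg : Prime g)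
    (hgr : ¬ g ∣ r) (h1 : aeval y g = 0) (h2 : aeval y r = 0) : IsAlgebraic κ (y 1) := by
  have hG : Prime (finSuccEquiv κ 1 g) := (MulEquiv.prime_iff (finSuccEquiv κ 1)).mpr hg
  have hGr : ¬ finSuccEquiv κ 1 g ∣ finSuccEquiv κ 1 r := by
    intro h
    exact hgr ((map_dvd_iff (finSuccEquiv κ 1)).mp h)
  obtain ⟨s, hs0, hs⟩ : ∃ s : MvPolynomial (Fin 1) κ, s ≠ 0 ∧
      aeval (fun i : Fin 1 => y i.succ) s = 0 := by
    by_cases hdeg : (finSuccEquiv κ 1 g).natDegree = 0
    · obtain ⟨s, hs⟩ := Polynomial.natDegree_eq_zero.mp hdeg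
      refine ⟨s, ?_, ?_⟩
      · rintro rfl
        rw [Polynomial.C_0] at hs
        exact hG.ne_zero hs.symm
      · have h3 := dvr_eval y g
        rw [← hs, Polynomial.eval₂_C, h1] at h3
        exact h3
    · obtain ⟨s, hs0, a, b, hab⟩ := dvr_elim hG.irreducible hdeg hGr
      refine ⟨s, hs0, ?_⟩
      have h3 := congrArg (Polynomial.eval₂ ((aeval fun i => y i.succ :
        MvPolynomial (Fin 1) κ →ₐ[κ] Ω) : MvPolynomial (Fin 1) κ →+* Ω) (y 0)) hab
      rw [Polynomial.eval₂_C, Polynomial.eval₂_add, Polynomial.eval₂_mul, Polynomial.eval₂_mul,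
        dvr_eval, dvr_eval, h1, h2, mul_zero, mul_zero, add_zero] at h3
      exact h3
  by_contra hna
  have hind : AlgebraicIndependent κ (fun i : Fin 1 => y i.succ) := by
    rw [algebraicIndependent_unique_type_iff]
    exact hna
  rw [algebraicIndependent_iff] at hind
  exact hs0 (hind s hs)

lemma dvr_alg' (y : Fin 2 → Ω) {g r : MvPolynomial (Fin 2) κ} (hg : Prime g)
    (hgr : ¬ g ∣ r) (h1 : aeval y g = 0) (h2 : aeval y r = 0) (i : Fin 2) :
    IsAlgebraic κ (y i) := by
  fin_cases i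
  · let e := renameEquiv κ (Equiv.swap (0 : Fin 2) 1)
    have hy : (y ∘ Equiv.swap (0 : Fin 2) 1) ∘ Equiv.swap (0 : Fin 2) 1 = y := by
      funext j
      simp
    have h3 := dvr_alg (y ∘ Equiv.swap (0 : Fin 2) 1) (g := e g) (r := e r)
      ((MulEquiv.prime_iff e).mpr hg) (fun h => hgr ((map_dvd_iff e).mp h))
      (by show aeval _ (rename _ g) = 0; rw [aeval_rename, hy, h1])
      (by show aeval _ (rename _ r) = 0; rw [aeval_rename, hy, h2])
    simpa using h3
  · exact dvr_alg y hg hgr h1 h2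

lemma dvr_prin [IsAlgClosed κ] (y : Fin 2 → Ω) (hy : ∃ i, y i ∉ (algebraMap κ Ω).range) :
    ∃ g : MvPolynomial (Fin 2) κ, aeval y g = 0 ∧ ∀ r : MvPolynomial (Fin 2) κ,
      aeval y r = 0 → g ∣ r := by
  by_cases hall : ∀ r : MvPolynomial (Fin 2) κ, aeval y r = 0 → r = 0
  · exact ⟨0, map_zero _, fun r hr => by rw [hall r hr]⟩
  · push Not at hall
    obtain ⟨r₀, hr₀, hr₀'⟩ := hall
    have hI : (RingHom.ker (aeval y : MvPolynomial (Fin 2) κ →ₐ[κ] Ω)).IsPrime :=
      RingHom.ker_isPrime _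
    have hne : RingHom.ker (aeval y : MvPolynomial (Fin 2) κ →ₐ[κ] Ω) ≠ ⊥ := by
      intro h
      apply hr₀'
      have h1 : r₀ ∈ RingHom.ker (aeval y : MvPolynomial (Fin 2) κ →ₐ[κ] Ω) := hr₀
      rw [h] at h1
      exact h1
    obtain ⟨g, hgI, hgp⟩ := hI.exists_mem_prime_of_ne_bot hne
    refine ⟨g, hgI, fun r hr => ?_⟩
    by_contra hnd
    obtain ⟨i, hi⟩ := hy
    apply hi
    exact dvr_mem_range (dvr_alg' y hgp hnd hgI hr i)

end

section
open MvPolynomial

lemma dvr_zero {κ Ω : Type} [Field κ] [IsAlgClosed κ] [Field Ω] [Algebra κ Ω]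
    (F : MvPolynomial (Fin 3) κ) (hF : Irreducible F) (q : Fin 3 → Ω) (hq : aeval q F = 0)
    (hq' : ∃ i, q i ∉ (algebraMap κ Ω).range) (hsm : aeval q (pderiv 0 F) ≠ 0) :
    ∃ g : MvPolynomial (Fin 3) κ, ∀ f : MvPolynomial (Fin 3) κ, ¬ F ∣ f →
      ∃ (n : ℕ) (A B : MvPolynomial (Fin 3) κ), aeval q A ≠ 0 ∧ aeval q B ≠ 0 ∧
        (F ∣ B * f - A * g ^ n) ∧ (aeval q f ≠ 0 → n = 0) ∧
        (aeval q f = 0 → 0 < n ∧ aeval q g = 0) := by
  let e := finSuccEquiv κ 2
  let φ : MvPolynomial (Fin 2) κ →+* Ω := ((aeval fun i : Fin 2 => q i.succ :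
    MvPolynomial (Fin 2) κ →ₐ[κ] Ω) : MvPolynomial (Fin 2) κ →+* Ω)
  have hev : ∀ p, Polynomial.eval₂ φ (q 0) (e p) = aeval q p := fun p => dvr_eval q p
  have h0 : Polynomial.eval₂ φ (q 0) (e F) = 0 := by rw [hev, hq]
  have h1 : Polynomial.eval₂ φ (q 0) (Polynomial.derivative (e F)) ≠ 0 := by
    rw [dvr_deriv, hev]
    exact hsm
  have hirr : Irreducible (e F) := (MulEquiv.irreducible_iff e).mpr hF
  have hy : ∃ i : Fin 2, q i.succ ∉ (algebraMap κ Ω).range := by
    by_contra hne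
    push Not at hne
    choose c hc using hne
    have hφ : φ = (algebraMap κ Ω).comp ((aeval c : MvPolynomial (Fin 2) κ →ₐ[κ] κ) :
        MvPolynomial (Fin 2) κ →+* κ) := by
      apply MvPolynomial.ringHom_ext
      · intro r
        simp [φ]
      · intro i
        simp [φ, hc]
    have h2 : ∀ p : Polynomial (MvPolynomial (Fin 2) κ), Polynomial.aeval (q 0)
        (p.map ((aeval c : MvPolynomial (Fin 2) κ →ₐ[κ] κ) : MvPolynomial (Fin 2) κ →+* κ)) =
        Polynomial.eval₂ φ (q 0) p := by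
      intro p
      rw [Polynomial.aeval_def, Polynomial.eval₂_map, hφ]
    have halg : IsAlgebraic κ (q 0) := by
      refine ⟨(e F).map ((aeval c : MvPolynomial (Fin 2) κ →ₐ[κ] κ) :
        MvPolynomial (Fin 2) κ →+* κ), ?_, by rw [h2, h0]⟩
      intro h3
      apply h1
      rw [← h2, ← Polynomial.derivative_map, h3, Polynomial.derivative_zero, map_zero]
    obtain ⟨i, hi⟩ := hq'
    apply hi
    refine Fin.cases ?_ (fun j => ?_) i
    · exact dvr_mem_range halg
    · exact ⟨c j, hc j⟩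
  obtain ⟨g, hg0, hg⟩ := dvr_prin (fun i : Fin 2 => q i.succ) hy
  refine ⟨e.symm (Polynomial.C g), fun f hf => ?_⟩
  have hf' : ¬ e F ∣ e f := fun h => hf ((map_dvd_iff e).mp h)
  obtain ⟨n, A, B, hA, hB, hd, hn, hn'⟩ := dvr_iter φ (q 0) (e F) hirr h0 h1 g hg0 hg (e f) hf'
  have hgq : aeval q (e.symm (Polynomial.C g)) = 0 := by
    rw [← hev, AlgEquiv.apply_symm_apply, Polynomial.eval₂_C]
    exact hg0
  refine ⟨n, e.symm A, e.symm B, ?_, ?_, ?_, ?_, ?_⟩
  · rw [← hev, AlgEquiv.apply_symm_apply]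
    exact hA
  · rw [← hev, AlgEquiv.apply_symm_apply]
    exact hB
  · rw [← map_dvd_iff e, map_sub, map_mul, map_mul, map_pow, AlgEquiv.apply_symm_apply,
      AlgEquiv.apply_symm_apply, AlgEquiv.apply_symm_apply]
    exact hd
  · intro h
    exact hn (by rw [hev]; exact h)
  · intro h
    exact ⟨hn' (by rw [hev]; exact h), hgq⟩

/-- Let `F` be an irreducible polynomial in three variables over an algebraically closed field `κ`
of characteristic zero and `q` a point of `F = 0` over an extension field, not rational over `κ`, at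
which a partial derivative of `F` is not zero. Then the local ring at `q` of the surface has
a uniformiser `g` (or it is a field: `g q ≠ 0`). -/
theorem dvr {κ Ω : Type} [Field κ] [IsAlgClosed κ] [CharZero κ] [Field Ω] [Algebra κ Ω]
    (F : MvPolynomial (Fin 3) κ) (hF : Irreducible F) (q : Fin 3 → Ω) (hq : aeval q F = 0)
    (hq' : ∃ i, q i ∉ (algebraMap κ Ω).range) (hsm : ∃ i, aeval q (pderiv i F) ≠ 0) :
    ∃ g : MvPolynomial (Fin 3) κ, ∀ f : MvPolynomial (Fin 3) κ, ¬ F ∣ f →
      ∃ (n : ℕ) (A B : MvPolynomial (Fin 3) κ), aeval q A ≠ 0 ∧ aeval q B ≠ 0 ∧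
        (F ∣ B * f - A * g ^ n) ∧ (aeval q f ≠ 0 → n = 0) ∧
        (aeval q f = 0 → 0 < n ∧ aeval q g = 0) := by
  obtain ⟨i, hi⟩ := hsm
  let σ : Fin 3 ≃ Fin 3 := Equiv.swap 0 i
  let e := renameEquiv κ σ
  have hσ : ∀ j, σ (σ j) = j := fun j => Equiv.swap_apply_self 0 i j
  have hqσ : (q ∘ σ) ∘ σ = q := by
    funext j
    show q (σ (σ j)) = q j
    rw [hσ]
  have hev : ∀ p, aeval (q ∘ σ) (e p) = aeval q p := by
    intro p
    show aeval (q ∘ σ) (rename σ p) = aeval q p
    rw [aeval_rename, hqσ]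
  have hσi : σ i = 0 := Equiv.swap_apply_right 0 i
  obtain ⟨g, hg⟩ := dvr_zero (e F) ((MulEquiv.irreducible_iff e).mpr hF) (q ∘ σ)
    (by rw [hev, hq]) (by
      obtain ⟨j, hj⟩ := hq'
      exact ⟨σ j, by rw [Function.comp_apply, hσ]; exact hj⟩) (by
      have h1 : pderiv 0 (e F) = e (pderiv i F) := by
        show pderiv 0 (rename σ F) = rename σ (pderiv i F)
        rw [← hσi, pderiv_rename σ.injective]
      rw [h1, hev]
      exact hi)
  refine ⟨e.symm g, fun f hf => ?_⟩
  obtain ⟨n, A, B, hA, hB, hd, hn, hn'⟩ := hg (e f) (fun h => hf ((map_dvd_iff e).mp h))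
  refine ⟨n, e.symm A, e.symm B, ?_, ?_, ?_, ?_, ?_⟩
  · rw [← hev, AlgEquiv.apply_symm_apply]
    exact hA
  · rw [← hev, AlgEquiv.apply_symm_apply]
    exact hB
  · rw [← map_dvd_iff e, map_sub, map_mul, map_mul, map_pow, AlgEquiv.apply_symm_apply,
      AlgEquiv.apply_symm_apply, AlgEquiv.apply_symm_apply]
    exact hd
  · intro h
    exact hn (by rw [hev]; exact h)
  · intro h
    obtain ⟨h1, h2⟩ := hn' (by rw [hev]; exact h)
    refine ⟨h1, ?_⟩
    rw [← hev, AlgEquiv.apply_symm_apply]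
    exact h2

end

end Pool.Agent.VGS
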