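import Pool.Agent.VGS.EffClo
import Pool.Agent.VGS.GenP

/-! Module EffB: the points of an effective correspondence over a generic point (section 5). -/

set_option autoImplicit false

open scoped LinearAlgebra.Projectivization
open MvPolynomial

namespace Pool.Agent.VGS

open Pool.Agent.Chow0 (IsChowForm cyc Z0 linForm chowForm)
open Pool.Agent.LowDeg (surf IsSmoothForm EffCorr IsGenericPoint linF)

/-! ### lifting of coefficients -/

theorem effb_lift_mv {A B σ : Type*} [CommSemiring A] [CommSemiring B] (f : A →+* B)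
    (Φ : MvPolynomial σ B) (h : ∀ m, ∃ a, f a = coeff m Φ) :
    ∃ Ψ : MvPolynomial σ A, map f Ψ = Φ := by
  choose a ha using h
  refine ⟨∑ m ∈ Φ.support, monomial m (a m), ?_⟩
  rw [map_sum]
  conv_rhs => rw [Φ.as_sum]
  refine Finset.sum_congr rfl fun m _ => ?_
  rw [map_monomial, ha]

theorem effb_interp {Ω : Type} [Field Ω] [CharZero Ω] (S : Subfield Ω) (R : Polynomial Ω)
    (s : Finset ℕ) (hs : R.degree < s.card) (h : ∀ T ∈ s, R.eval (T : Ω) ∈ S) (n : ℕ) :
    R.coeff n ∈ S := by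
  have h1 := Lagrange.eq_interpolate_of_eval_eq (s := s) (v := fun T : ℕ => (T : Ω))
    (fun T => R.eval (T : Ω)) (f := R) (fun a _ b _ hab => Nat.cast_injective hab) hs
    (fun i _ => rfl)
  have h2 : R ∈ Polynomial.lifts S.subtype := by
    rw [h1, Lagrange.interpolate_apply]
    refine Subsemiring.sum_mem _ fun i hi => Subsemiring.mul_mem _ ?_ ?_
    · exact Polynomial.C'_mem_lifts ⟨⟨_, h i hi⟩, rfl⟩
    · unfold Lagrange.basis
      refine Subsemiring.prod_mem _ fun j _ => ?_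
      unfold Lagrange.basisDivisor
      refine Subsemiring.mul_mem _ ?_ ?_
      · exact Polynomial.C'_mem_lifts ⟨⟨_, S.inv_mem (S.sub_mem (natCast_mem S i)
          (natCast_mem S j))⟩, rfl⟩
      · rw [Polynomial.lifts_iff_coeff_lifts]
        intro m
        have h3 : (Polynomial.X - Polynomial.C ((j : ℕ) : Ω)).coeff m ∈ S := by
          rw [Polynomial.coeff_sub, Polynomial.coeff_X, Polynomial.coeff_C]
          refine S.sub_mem ?_ ?_
          · split_ifs
            · exact S.one_mem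
            · exact S.zero_mem
          · split_ifs
            · exact natCast_mem S j
            · exact S.zero_mem
        exact ⟨⟨_, h3⟩, rfl⟩
  obtain ⟨c, hc⟩ := (Polynomial.lifts_iff_coeff_lifts R).1 h2 n
  rw [← hc]
  exact c.2

/-! ### restriction to a line -/

section

variable {Ω : Type} [Field Ω]

/-- substitution of `T ^ m` for the variables other than `j₀` -/
noncomputable def effbSub (j₀ : Fin 4) (T : ℕ) : MvPolynomial (Fin 4) Ω →ₐ[Ω] Polynomial Ω :=
  aeval fun m => if m = j₀ then Polynomial.X else Polynomial.C ((T : Ω) ^ (m : ℕ))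

/-- the value of a linear form as a polynomial in `T` -/
noncomputable def effbR (j₀ : Fin 4) (v : Fin 4 → Ω) : Polynomial Ω :=
  ∑ m, if m = j₀ then 0 else Polynomial.monomial (m : ℕ) (v m)

theorem effbR_coeff (j₀ : Fin 4) (v : Fin 4 → Ω) (m : Fin 4) (hm : m ≠ j₀) :
    (effbR j₀ v).coeff (m : ℕ) = v m := by
  unfold effbR
  rw [Polynomial.finsetSum_coeff, Finset.sum_eq_single m]
  · rw [if_neg hm, Polynomial.coeff_monomial_same]
  · intro b _ hb
    split_ifs
    · exact Polynomial.coeff_zero _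
    · rw [Polynomial.coeff_monomial, if_neg]
      exact fun h => hb (Fin.ext h)
  · intro h
    exact absurd (Finset.mem_univ m) h

theorem effbR_degree (j₀ : Fin 4) (v : Fin 4 → Ω) : (effbR j₀ v).degree < (4 : ℕ) := by
  rw [Polynomial.degree_lt_iff_coeff_zero]
  intro m hm
  unfold effbR
  rw [Polynomial.finsetSum_coeff]
  refine Finset.sum_eq_zero fun b _ => ?_
  split_ifs
  · exact Polynomial.coeff_zero _
  · rw [Polynomial.coeff_monomial, if_neg]
    have := b.2
    omega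

theorem effbSub_linF (j₀ : Fin 4) (T : ℕ) (v : Fin 4 → Ω) :
    effbSub j₀ T (linF v) =
      Polynomial.C (v j₀) * Polynomial.X + Polynomial.C ((effbR j₀ v).eval (T : Ω)) := by
  unfold linF effbSub effbR
  rw [map_sum, Polynomial.eval_finsetSum, map_sum, ← Finset.add_sum_erase _ _ (Finset.mem_univ j₀),
    ← Finset.add_sum_erase (s := Finset.univ) (f := fun m : Fin 4 => Polynomial.C
      (Polynomial.eval (T : Ω) (if m = j₀ then 0 else Polynomial.monomial (m : ℕ) (v m))))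
      (a := j₀) (Finset.mem_univ j₀), if_pos rfl, Polynomial.eval_zero, Polynomial.C_0, zero_add]
  congr 1
  · rw [map_mul, aeval_X, if_pos rfl]
    congr 1
    exact (aeval_C _ _)
  · refine Finset.sum_congr rfl fun m hm => ?_
    have hm' : m ≠ j₀ := Finset.ne_of_mem_erase hm
    rw [if_neg hm', map_mul, aeval_X, if_neg hm', Polynomial.eval_monomial, Polynomial.C_mul]
    congr 1
    exact (aeval_C _ _)

theorem effbSub_mem (k : Subfield Ω) (j₀ : Fin 4) (T : ℕ) (P : MvPolynomial (Fin 4) Ω)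
    (hP : ∀ m, coeff m P ∈ k) (n : ℕ) : (effbSub j₀ T P).coeff n ∈ k := by
  have h2 : effbSub j₀ T P ∈ Polynomial.lifts k.subtype := by
    unfold effbSub
    rw [aeval_def, eval₂_eq]
    refine Subsemiring.sum_mem _ fun i _ => Subsemiring.mul_mem _ ?_ ?_
    · exact Polynomial.C'_mem_lifts ⟨⟨_, hP i⟩, rfl⟩
    · refine Subsemiring.prod_mem _ fun j _ => Subsemiring.pow_mem _ ?_ _
      split_ifs
      · exact Polynomial.X_mem_lifts _
      · exact Polynomial.C'_mem_lifts ⟨⟨_, pow_mem (natCast_mem k T) (j : ℕ)⟩, rfl⟩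
  obtain ⟨c, hc⟩ := (Polynomial.lifts_iff_coeff_lifts _).1 h2 n
  rw [← hc]
  exact c.2

theorem effb_isAlgebraic (k : Subfield Ω) (Q : Polynomial Ω) (h0 : Q ≠ 0)
    (hQ : ∀ n, Q.coeff n ∈ k) {x : Ω} (hx : Q.eval x = 0) : IsAlgebraic k x := by
  have hmem : Q ∈ Polynomial.lifts (algebraMap k Ω) := by
    rw [Polynomial.lifts_iff_coeff_lifts]
    intro n
    exact ⟨⟨Q.coeff n, hQ n⟩, rfl⟩
  obtain ⟨q, hq⟩ := (Polynomial.mem_lifts Q).1 hmem
  refine ⟨q, ?_, ?_⟩
  · rintro rfl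
    rw [Polynomial.map_zero] at hq
    exact h0 hq.symm
  · rw [← hq, Polynomial.eval_map] at hx
    exact hx

/-- The ratios of the coefficients of the linear factors of a polynomial over `k` are algebraic
over `k`. -/
theorem effb_ratio [CharZero Ω] (k : Subfield Ω) (P : MvPolynomial (Fin 4) Ω) (hP : ∀ m, coeff m P ∈ k)
    {w : ℕ} (v : Fin w → Fin 4 → Ω) (c : Ω) (hc : c ≠ 0) (hPv : P = C c * ∏ i, linF (v i))
    (hv : ∀ i, v i ≠ 0) (i : Fin w) (j₀ : Fin 4) (hj₀ : v i j₀ ≠ 0) (j : Fin 4) :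
    v i j / v i j₀ ∈ (algebraicClosure k Ω).toSubfield := by
  classical
  by_cases hj : j = j₀
  · rw [hj, div_self hj₀]
    exact Subfield.one_mem _
  -- the bad values of `T`
  have hbad : (⋃ i' : Fin w, {T : ℕ | v i' j₀ = 0 ∧ (effbR j₀ (v i')).eval (T : Ω) = 0}).Finite := by
    refine Set.finite_iUnion fun i' => ?_
    by_cases h0 : v i' j₀ = 0
    · have hne : effbR j₀ (v i') ≠ 0 := by
        intro h
        apply hv i'
        funext m
        by_cases hm : m = j₀
        · rw [hm, h0]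
          rfl
        · rw [← effbR_coeff j₀ (v i') m hm, h]
          rfl
      have h1 : {x : Ω | (effbR j₀ (v i')).eval x = 0}.Finite := by
        refine ((effbR j₀ (v i')).roots.toFinset.finite_toSet).subset fun x hx => ?_
        rw [Finset.mem_coe, Multiset.mem_toFinset, Polynomial.mem_roots hne]
        exact hx
      refine (h1.preimage (f := fun T : ℕ => (T : Ω)) (Nat.cast_injective.injOn)).subset ?_
      exact fun T hT => hT.2
    · refine Set.Finite.subset Set.finite_empty fun T hT => ?_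
      exact h0 hT.1
  obtain ⟨s, hs1, hs2⟩ := hbad.infinite_compl.exists_subset_card_eq 4
  have key : ∀ T ∈ s, (effbR j₀ (v i)).eval (T : Ω) / v i j₀ ∈
      (algebraicClosure k Ω).toSubfield := by
    intro T hT
    have hT' : ∀ i', v i' j₀ = 0 → (effbR j₀ (v i')).eval (T : Ω) ≠ 0 := by
      intro i' h0 h1
      exact hs1 hT (Set.mem_iUnion.2 ⟨i', h0, h1⟩)
    have h1 : effbSub j₀ T P = Polynomial.C c * ∏ i', effbSub j₀ T (linF (v i')) := by
      rw [hPv, map_mul, map_prod]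
      congr 1
      exact (aeval_C _ _)
    have h2 : effbSub j₀ T P ≠ 0 := by
      rw [h1]
      refine mul_ne_zero (by rwa [Ne, Polynomial.C_eq_zero]) (Finset.prod_ne_zero_iff.2 ?_)
      intro i' _ h0
      rw [effbSub_linF] at h0
      have h3 := congrArg (fun q => Polynomial.coeff q 1) h0
      have h4 := congrArg (fun q => Polynomial.coeff q 0) h0
      simp only [Polynomial.coeff_add, Polynomial.coeff_C_mul, Polynomial.coeff_X_one,
        Polynomial.coeff_C, Polynomial.coeff_zero, Polynomial.coeff_X_zero] at h3 h4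
      simp at h3 h4
      exact hT' i' h3 h4
    have h3 : IsAlgebraic k (-((effbR j₀ (v i)).eval (T : Ω) / v i j₀)) := by
      refine effb_isAlgebraic k (effbSub j₀ T P) h2 (effbSub_mem k j₀ T P hP) ?_
      rw [h1, Polynomial.eval_mul, Polynomial.eval_prod]
      refine mul_eq_zero_of_right _ (Finset.prod_eq_zero (Finset.mem_univ i) ?_)
      rw [effbSub_linF, Polynomial.eval_add, Polynomial.eval_mul, Polynomial.eval_C,
        Polynomial.eval_X, Polynomial.eval_C]
      field_simp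
      ring
    have h4 : -((effbR j₀ (v i)).eval (T : Ω) / v i j₀) ∈ (algebraicClosure k Ω).toSubfield :=
      mem_algebraicClosure_iff.2 h3
    have h5 := Subfield.neg_mem _ h4
    rwa [neg_neg] at h5
  have h1 := effb_interp (algebraicClosure k Ω).toSubfield
    (Polynomial.C (v i j₀)⁻¹ * effbR j₀ (v i)) s ?_ ?_ (j : ℕ)
  · rw [Polynomial.coeff_C_mul, effbR_coeff j₀ (v i) j hj] at h1
    rwa [div_eq_mul_inv, mul_comm]
  · rw [hs2, Polynomial.degree_C_mul (inv_ne_zero hj₀)]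
    exact effbR_degree j₀ (v i)
  · intro T hT
    rw [Polynomial.eval_mul, Polynomial.eval_C]
    have := key T hT
    rwa [div_eq_mul_inv, mul_comm] at this

end

/-! ### transport by the embedding -/

section

variable {Ω : Type} [Field Ω] [Algebra ℂ Ω] {κ : Fl} {ξ : Fin 4 → Ω}

theorem const_mem_cloΩ {c : ℂ} (hc : c ∈ κ) : algebraMap ℂ Ω c ∈ cloΩ κ ξ := by
  refine mem_algebraicClosure_iff.2 ?_
  exact isAlgebraic_algebraMap (⟨_, Subfield.subset_closure (Or.inl ⟨c, hc, rfl⟩)⟩ :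
    Subfield.closure ((algebraMap ℂ Ω) '' (κ : Set ℂ) ∪ Set.range ξ))

theorem ξ_mem_cloΩ (j : Fin 4) : ξ j ∈ cloΩ κ ξ := by
  refine mem_algebraicClosure_iff.2 ?_
  exact isAlgebraic_algebraMap (⟨_, Subfield.subset_closure (Or.inr ⟨j, rfl⟩)⟩ :
    Subfield.closure ((algebraMap ℂ Ω) '' (κ : Set ℂ) ∪ Set.range ξ))

/-- the inclusion of the constants -/
noncomputable def effbIncl (κ : Fl) (ξ : Fin 4 → Ω) : κ →+* cloΩ κ ξ where
  toFun c := ⟨algebraMap ℂ Ω c.1, const_mem_cloΩ c.2⟩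
  map_one' := Subtype.ext (map_one (algebraMap ℂ Ω))
  map_mul' a b := Subtype.ext (map_mul (algebraMap ℂ Ω) a.1 b.1)
  map_zero' := Subtype.ext (map_zero (algebraMap ℂ Ω))
  map_add' a b := Subtype.ext (map_add (algebraMap ℂ Ω) a.1 b.1)

/-- the generic point in `cloΩ` -/
noncomputable def effbXi (κ : Fl) (ξ : Fin 4 → Ω) : Fin 4 → cloΩ κ ξ := fun j => ⟨ξ j, ξ_mem_cloΩ j⟩

theorem effb_lift_coef {L : Fl} {ι' : Type} {G : MvPolynomial ι' ℂ} (hG : Coef L G) :
    ∃ G' : MvPolynomial ι' L, map (algebraMap L ℂ) G' = G :=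
  effb_lift_mv _ _ fun m => ⟨⟨_, hG m⟩, rfl⟩

/-- the value of a polynomial over `κ` at a point over `cloΩ` -/
theorem effb_value {G : MvPolynomial (Fin 4) ℂ} (hG : Coef κ G) (y : Fin 4 → cloΩ κ ξ)
    (ι : cloΩ κ ξ →+* ℂ) (hι : ∀ c ∈ κ, ∀ h, ι ⟨algebraMap ℂ Ω c, h⟩ = c) :
    ∃ v : cloΩ κ ξ, (v : Ω) = aeval (fun j => (y j : Ω)) G ∧ ι v = aeval (fun j => ι (y j)) G := by
  obtain ⟨G', rfl⟩ := effb_lift_coef hG
  refine ⟨eval₂ (effbIncl κ ξ) y G', ?_, ?_⟩
  · have h1 : (cloΩ κ ξ).subtype (eval₂ (effbIncl κ ξ) y G') =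
        eval₂ ((cloΩ κ ξ).subtype.comp (effbIncl κ ξ)) (fun j => (y j : Ω)) G' :=
      eval₂_comp_left _ _ _ _
    refine (show _ = _ from h1).trans ?_
    rw [aeval_def, eval₂_map]
    rfl
  · have h1 : ι (eval₂ (effbIncl κ ξ) y G') =
        eval₂ (ι.comp (effbIncl κ ξ)) (fun j => ι (y j)) G' := eval₂_comp_left _ _ _ _
    rw [h1, aeval_def, eval₂_map]
    congr 1
    ext c
    exact hι c.1 c.2 _

end

/-- The normalised points of the correspondence are in this field, and the embedding maps them to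
the points of the cycle over `z`. -/
theorem eff_pts {Ω : Type} [Field Ω] [Algebra ℂ Ω] {F : MvPolynomial (Fin 4) ℂ} {d : ℕ}
    (hd : 4 ≤ d) (hF : IsSmoothForm F d) {ξ : Fin 4 → Ω}
    (hξ : IsGenericPoint F ξ) (κ : Fl) [Countable κ] (hκ : clo κ = κ) (hFκ : Coef κ F)
    {w : ℕ} (Γ : EffCorr F ξ w) (hΓ : CoefE κ Γ)
    {z : Fin 4 → ℂ} (hz : z ≠ 0) (hz0 : z 0 = 1) (hp : Projectivization.mk ℂ z hz ∈ Gen κ F)
    (ι : cloΩ κ ξ →+* ℂ) (hι : ∀ c ∈ κ, ∀ h, ι ⟨algebraMap ℂ Ω c, h⟩ = c)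
    (hιξ : ∀ j h, ι ⟨ξ j, h⟩ = z j) :
    ∃ (t : Fin w → Ω) (x : Fin w → Fin 4 → cloΩ κ ξ), (∀ i, t i ≠ 0) ∧
      (∀ i j, ((x i j : cloΩ κ ξ) : Ω) = t i * Γ.pts i j) ∧ (∀ i, ∃ j, x i j = 1) ∧
      ∃ h : ∀ i, mkP (fun j => ι (x i j)) ∈ surf F,
        IsChowForm (surf F) (Γ.at (Projectivization.mk ℂ z hz : PP).rep)
          (Multiset.map (fun i => (⟨mkP (fun j => ι (x i j)), h i⟩ : surf F)) Finset.univ.val) := by
  have hch : CharZero Ω := charZero_of_injective_algebraMap (algebraMap ℂ Ω).injective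
  -- the Chow form over `κ`
  obtain ⟨Φ, hΦ⟩ := effb_lift_mv (map (algebraMap κ ℂ) : MvPolynomial (Fin 4) κ →+* _) Γ.Φ
    (fun m => effb_lift_coef (hΓ m))
  -- its value over `cloΩ`
  let P : MvPolynomial (Fin 4) (cloΩ κ ξ) := map (eval₂Hom (effbIncl κ ξ) (effbXi κ ξ)) Φ
  have hP1 : map (cloΩ κ ξ).subtype P =
      map (aeval ξ : MvPolynomial (Fin 4) ℂ →ₐ[ℂ] Ω).toRingHom Γ.Φ := by
    have h1 : (cloΩ κ ξ).subtype.comp (eval₂Hom (effbIncl κ ξ) (effbXi κ ξ)) =
        ((aeval ξ : MvPolynomial (Fin 4) ℂ →ₐ[ℂ] Ω).toRingHom).comp (map (algebraMap κ ℂ)) := by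
      apply MvPolynomial.ringHom_ext
      · intro a
        simp
        rfl
      · intro i
        simp
        rfl
    rw [← hΦ, map_map, map_map, h1]
  have hP2 : map ι P = map (eval z) Γ.Φ := by
    have h1 : ι.comp (eval₂Hom (effbIncl κ ξ) (effbXi κ ξ)) =
        (eval z).comp (map (algebraMap κ ℂ)) := by
      apply MvPolynomial.ringHom_ext
      · intro a
        simp
        exact hι a.1 a.2 _
      · intro i
        simp
        exact hιξ i _
    rw [← hΦ, map_map, map_map, h1]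
  clear_value P
  have hΩ := Γ.fac
  rw [← hP1] at hΩ
  -- the coefficients of `map subtype P` are in `κ(ξ)`
  have hk : ∀ m, coeff m (map (cloΩ κ ξ).subtype P) ∈
      Subfield.closure ((algebraMap ℂ Ω) '' (κ : Set ℂ) ∪ Set.range ξ) := by
    intro m
    rw [hP1, coeff_map]
    change aeval ξ (coeff m Γ.Φ) ∈ _
    rw [aeval_def, eval₂_eq]
    refine Subfield.sum_mem _ fun n _ => Subfield.mul_mem _ ?_ (Subfield.prod_mem _ fun j _ =>
      Subfield.pow_mem _ ?_ _)
    · exact Subfield.subset_closure (Or.inl ⟨_, hΓ m n, rfl⟩)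
    · exact Subfield.subset_closure (Or.inr ⟨j, rfl⟩)
  -- normalisation
  have hj : ∀ i, ∃ j, Γ.pts i j ≠ 0 := fun i => Function.ne_iff.1 (Γ.pts_ne i)
  choose j₀ hj₀ using hj
  have hx : ∀ i j, Γ.pts i j / Γ.pts i (j₀ i) ∈ cloΩ κ ξ := fun i j =>
    effb_ratio _ _ hk Γ.pts Γ.c Γ.c_ne hΩ Γ.pts_ne i (j₀ i) (hj₀ i) j
  let x : Fin w → Fin 4 → cloΩ κ ξ := fun i j => ⟨_, hx i j⟩
  let t : Fin w → Ω := fun i => (Γ.pts i (j₀ i))⁻¹
  have ht : ∀ i, t i ≠ 0 := fun i => inv_ne_zero (hj₀ i)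
  have hxt : ∀ i j, ((x i j : cloΩ κ ξ) : Ω) = t i * Γ.pts i j := fun i j => by
    change Γ.pts i j / Γ.pts i (j₀ i) = (Γ.pts i (j₀ i))⁻¹ * Γ.pts i j
    rw [div_eq_mul_inv, mul_comm]
  have hx1 : ∀ i, x i (j₀ i) = 1 := fun i => Subtype.ext (div_self (hj₀ i))
  -- the points over `z`
  have hι1 : ∀ i, (fun j => ι (x i j)) ≠ 0 := by
    intro i h
    have := congrFun h (j₀ i)
    simp only [hx1, map_one, Pi.zero_apply] at this
    exact one_ne_zero this
  have hsurf : ∀ i, mkP (fun j => ι (x i j)) ∈ surf F := by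
    intro i
    rw [mkP_eq (hι1 i), mem_surf_mk hF.hom]
    obtain ⟨v, hv1, hv2⟩ := effb_value hFκ (x i) ι hι
    rw [← hv2]
    have h1 : (v : Ω) = 0 := by
      rw [hv1]
      have h2 : (fun j => (x i j : Ω)) = fun j => t i * Γ.pts i j := funext (hxt i)
      rw [h2, aeval_def, eval₂_eq']
      have h3 : aeval (Γ.pts i) F = 0 := Γ.pts_mem i
      rw [aeval_def, eval₂_eq'] at h3
      rw [← mul_zero ((t i) ^ d), ← h3, Finset.mul_sum]
      refine Finset.sum_congr rfl fun m hm => ?_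
      have h4 : m.degree = d := by
        by_contra h
        exact (mem_support_iff.mp hm) (hF.hom.coeff_eq_zero h)
      have h5 : ∏ j, (t i * Γ.pts i j) ^ m j = (t i) ^ d * ∏ j, Γ.pts i j ^ m j := by
        simp only [mul_pow, Finset.prod_mul_distrib, Finset.prod_pow_eq_pow_sum]
        congr 2
        rw [← h4, Finsupp.degree_eq_sum]
      rw [h5]
      ring
    have h2 : v = 0 := Subtype.ext h1
    rw [h2, map_zero]
  -- the factorisation over `cloΩ`
  have hlin : ∀ i, map (cloΩ κ ξ).subtype (linF (x i)) = C (t i) * linF (Γ.pts i) := by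
    intro i
    unfold linF
    rw [map_sum, Finset.mul_sum]
    refine Finset.sum_congr rfl fun j _ => ?_
    rw [map_mul, map_C, map_X, ← mul_assoc, ← C_mul]
    congr 2
    exact hxt i j
  have hlin0 : ∀ i, linF (x i) ≠ 0 := by
    intro i h
    have h1 : coeff (Finsupp.single (j₀ i) 1) (linF (x i)) = 1 := by
      unfold linF
      rw [coeff_sum, Finset.sum_eq_single (j₀ i)]
      · rw [coeff_C_mul, coeff_X, if_pos rfl, mul_one, hx1]
      · intro b _ hb
        rw [coeff_C_mul, coeff_X, if_neg, mul_zero]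
        intro h2
        exact hb ((Finsupp.single_left_inj one_ne_zero).1 h2)
      · intro h2
        exact absurd (Finset.mem_univ _) h2
    rw [h, coeff_zero] at h1
    exact zero_ne_one h1
  obtain ⟨m, hm⟩ := ne_zero_iff.1 (Finset.prod_ne_zero_iff.2 fun i (_ : i ∈ Finset.univ) => hlin0 i)
  have hP3 : map (cloΩ κ ξ).subtype P =
      C (Γ.c * (∏ i, t i)⁻¹) * map (cloΩ κ ξ).subtype (∏ i, linF (x i)) := by
    rw [map_prod, Finset.prod_congr rfl fun i _ => hlin i, Finset.prod_mul_distrib, ← map_prod,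
      hΩ, ← mul_assoc, ← C_mul, mul_assoc, inv_mul_cancel₀ (Finset.prod_ne_zero_iff.2
        fun i _ => ht i), mul_one]
  have hc' : Γ.c * (∏ i, t i)⁻¹ ≠ 0 :=
    mul_ne_zero Γ.c_ne (inv_ne_zero (Finset.prod_ne_zero_iff.2 fun i _ => ht i))
  have hcm : ((coeff m P / coeff m (∏ i, linF (x i)) : cloΩ κ ξ) : Ω) =
      Γ.c * (∏ i, t i)⁻¹ := by
    have h1 := congrArg (coeff m) hP3
    rw [coeff_C_mul, coeff_map, coeff_map] at h1
    have h2 : (cloΩ κ ξ).subtype (coeff m (∏ i, linF (x i))) ≠ 0 := by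
      rw [Ne, map_eq_zero]
      exact hm
    change (cloΩ κ ξ).subtype (coeff m P / coeff m (∏ i, linF (x i))) = _
    rw [map_div₀, h1, mul_div_assoc, div_self h2, mul_one]
  obtain ⟨c', hc1⟩ : ∃ c' : cloΩ κ ξ, (c' : Ω) = Γ.c * (∏ i, t i)⁻¹ := ⟨_, hcm⟩
  have hc2 : c' ≠ 0 := by
    intro h
    rw [h] at hc1
    exact hc' hc1.symm
  have hP4 : P = C c' * ∏ i, linF (x i) := by
    apply map_injective (cloΩ κ ξ).subtype (cloΩ κ ξ).subtype.injective
    rw [hP3, map_mul (map (cloΩ κ ξ).subtype) (C c') _, map_C]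
    congr 2
    exact hc1.symm
  have hlinι : ∀ i, map ι (linF (x i)) = linForm (fun j => ι (x i j)) := by
    intro i
    unfold linF linForm
    rw [map_sum]
    refine Finset.sum_congr rfl fun j _ => ?_
    rw [map_mul, map_C, map_X]
  have hP5 : map (eval z) Γ.Φ = C (ι c') * ∏ i, linForm (fun j => ι (x i j)) := by
    rw [← hP2, hP4, map_mul, map_C, map_prod, Finset.prod_congr rfl fun i _ => hlinι i]
  -- the Chow form at the representative
  obtain ⟨a, ha⟩ := Projectivization.exists_smul_eq_mk_rep ℂ z hz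
  have hat : Γ.at (Projectivization.mk ℂ z hz : PP).rep = C ((a : ℂ) ^ Γ.e) * map (eval z) Γ.Φ := by
    unfold EffCorr.at
    ext n
    rw [coeff_map, coeff_C_mul, coeff_map]
    have h1 : ∀ i, (Projectivization.mk ℂ z hz : PP).rep i = (a : ℂ) * z i := by
      intro i
      rw [← ha]
      rfl
    exact aeval_scale (Γ.hom n) h1
  have hb : ∀ i, ∃ b : ℂ, b ≠ 0 ∧ linForm (fun j => ι (x i j)) =
      C b * linForm (mkP (fun j => ι (x i j))).rep := by
    intro i
    obtain ⟨b, hb0, hb⟩ := linForm_mk (hι1 i)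
    refine ⟨b, hb0, ?_⟩
    rw [mkP_eq (hι1 i)]
    exact hb
  choose b hb0 hb using hb
  refine ⟨t, x, ht, hxt, fun i => ⟨j₀ i, hx1 i⟩, hsurf, (a : ℂ) ^ Γ.e * (ι c' * ∏ i, b i), ?_, ?_⟩
  · refine mul_ne_zero (pow_ne_zero _ a.ne_zero) (mul_ne_zero ?_
      (Finset.prod_ne_zero_iff.2 fun i _ => hb0 i))
    rw [Ne, map_eq_zero]
    exact hc2
  · rw [hat, hP5, Finset.prod_congr rfl fun i _ => hb i, Finset.prod_mul_distrib, ← map_prod,
      Multiset.map_map]
    unfold chowForm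
    rw [Multiset.map_map, C_mul, C_mul, mul_assoc, mul_assoc]
    rfl

end Pool.Agent.VGS
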