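import Pool.Agent.VGS.EffA
import Pool.Agent.VGS.EffB
import Pool.Agent.VGS.GenP
import Pool.Agent.VGS.Chow

/-! Module Eff: the points of an effective correspondence over a generic point (section 5). -/

set_option autoImplicit false

open scoped LinearAlgebra.Projectivization
open MvPolynomial

namespace Pool.Agent.VGS

open Pool.Agent.Chow0 (IsChowForm cyc Z0)
open Pool.Agent.LowDeg (surf IsSmoothForm EffCorr IsGenericPoint)

variable {Ω : Type} [Field Ω] [Algebra ℂ Ω] [IsAlgClosed Ω] {F : MvPolynomial (Fin 4) ℂ} {d : ℕ}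

section

omit [IsAlgClosed Ω]

/-- the cycle of the correspondence is determined by the Chow form -/
theorem effT_eq {ξ : Fin 4 → Ω} {w : ℕ} (Γ : EffCorr F ξ w) {p : PP}
    {s : Multiset (surf F)} (hs : IsChowForm (surf F) (Γ.at p.rep) s) :
    effT Γ p = cycQ (s.map Subtype.val) := by
  have h : ∃ s : Multiset (surf F), IsChowForm (surf F) (Γ.at p.rep) s := ⟨s, hs⟩
  unfold effT
  rw [dif_pos h]
  congr 1
  have h1 : IsCh (Γ.at p.rep) (h.choose.map Subtype.val) := h.choose_spec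
  have h2 : IsCh (Γ.at p.rep) (s.map Subtype.val) := hs
  exact h1.unique h2

theorem mem_support_cycQ {s : Multiset PP} {q : PP} (hq : q ∈ (cycQ s).support) : q ∈ s := by
  classical
  rw [Finsupp.mem_support_iff, cycQ_apply] at hq
  by_contra h
  apply hq
  rw [Multiset.count_eq_zero_of_notMem h, Nat.cast_zero]

/-- the Chow form over a multiple of a vector -/
theorem at_smul {ξ : Fin 4 → Ω} {w : ℕ} (Γ : EffCorr F ξ w) {a : ℂ} {x y : Fin 4 → ℂ}
    (h : ∀ i, y i = a * x i) : Γ.at y = C (a ^ Γ.e) * Γ.at x := by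
  apply MvPolynomial.ext
  intro m
  rw [coeff_C_mul]
  unfold EffCorr.at
  rw [coeff_map, coeff_map]
  have h1 := aeval_scale (Γ.hom m) h
  rw [aeval_eq_eval, aeval_eq_eval] at h1
  exact h1

/-- the Chow form over the conjugate vector -/
theorem at_fix {L : Fl} {ξ : Fin 4 → Ω} {w : ℕ} (Γ : EffCorr F ξ w) (hΓ : CoefE L Γ)
    {σ : ℂ ≃+* ℂ} (hσ : σ ∈ Fix L) (x : Fin 4 → ℂ) :
    Γ.at (fun i => σ (x i)) = map (σ : ℂ →+* ℂ) (Γ.at x) := by
  apply MvPolynomial.ext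
  intro m
  unfold EffCorr.at
  rw [coeff_map, coeff_map, coeff_map]
  have h1 := aeval_fix (hΓ m) hσ x
  rw [aeval_eq_eval, aeval_eq_eval] at h1
  exact h1

/-- the Chow form over the conjugate point -/
theorem at_act {L : Fl} {ξ : Fin 4 → Ω} {w : ℕ} (Γ : EffCorr F ξ w) (hΓ : CoefE L Γ)
    {σ : ℂ ≃+* ℂ} (hσ : σ ∈ Fix L) (p : PP) : ∃ a : ℂ, a ≠ 0 ∧
    Γ.at (act σ p).rep = C a * map (σ : ℂ →+* ℂ) (Γ.at p.rep) := by
  obtain ⟨a, ha⟩ := Projectivization.exists_smul_eq_mk_rep ℂ (fun i => σ (p.rep i))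
    (map_ne_zero' σ p.rep_nonzero)
  refine ⟨(a : ℂ) ^ Γ.e, pow_ne_zero _ a.ne_zero, ?_⟩
  rw [← at_fix Γ hΓ hσ]
  apply at_smul
  intro i
  change (Projectivization.mk ℂ (fun i => σ (p.rep i)) (map_ne_zero' σ p.rep_nonzero)).rep i = _
  rw [← ha]
  rfl

/-- a polynomial with coefficients in `κ` at points of `cloΩ κ ξ` -/
theorem aeval_ι {κ : Fl} {ξ : Fin 4 → Ω} (ι : cloΩ κ ξ →+* ℂ)
    (hι : ∀ c ∈ κ, ∀ h, ι ⟨algebraMap ℂ Ω c, h⟩ = c) {G : MvPolynomial (Fin 4) ℂ}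
    (hG : Coef κ G) (x : Fin 4 → cloΩ κ ξ) (h0 : aeval (fun j => ι (x j)) G = 0) :
    aeval (fun j => ((x j : cloΩ κ ξ) : Ω)) G = 0 := by
  have hmem : ∀ c ∈ κ, algebraMap ℂ Ω c ∈ cloΩ κ ξ := by
    intro c hc
    have h1 : algebraMap ℂ Ω c ∈ Subfield.closure
        ((algebraMap ℂ Ω) '' (κ : Set ℂ) ∪ Set.range ξ) :=
      Subfield.subset_closure (Or.inl ⟨c, hc, rfl⟩)
    change algebraMap ℂ Ω c ∈ algebraicClosure _ Ω
    exact IntermediateField.algebraMap_mem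
      (algebraicClosure (Subfield.closure ((algebraMap ℂ Ω) '' (κ : Set ℂ) ∪ Set.range ξ)) Ω)
      (⟨_, h1⟩ : Subfield.closure ((algebraMap ℂ Ω) '' (κ : Set ℂ) ∪ Set.range ξ))
  let y : cloΩ κ ξ := ∑ m ∈ G.support, ⟨algebraMap ℂ Ω (coeff m G), hmem _ (hG m)⟩ *
    ∏ i, x i ^ m i
  have h1 : (y : Ω) = aeval (fun j => ((x j : cloΩ κ ξ) : Ω)) G := by
    rw [aeval_def, eval₂_eq']
    simp only [y]
    push_cast
    rfl
  have h2 : ι y = aeval (fun j => ι (x j)) G := by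
    rw [aeval_def, eval₂_eq']
    simp only [y]
    rw [map_sum]
    refine Finset.sum_congr rfl fun m _ => ?_
    rw [map_mul, map_prod, hι _ (hG m)]
    congr 1
    exact Finset.prod_congr rfl fun i _ => map_pow _ _ _
  have h3 : y = 0 := by
    apply ι.injective
    rw [h2, h0, map_zero]
  rw [← h1, h3]
  rfl

/-- values at a multiple of a vector, over `Ω` -/
theorem aeval_scaleΩ {G : MvPolynomial (Fin 4) ℂ} {e : ℕ} (hG : G.IsHomogeneous e)
    {z w : Fin 4 → Ω} {a : Ω} (h : ∀ i, z i = a * w i) :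
    MvPolynomial.aeval z G = a ^ e * MvPolynomial.aeval w G := by
  have h1 : z = fun i => a * w i := funext h
  rw [h1]
  rw [aeval_def, aeval_def, eval₂_eq', eval₂_eq', Finset.mul_sum]
  refine Finset.sum_congr rfl fun t ht => ?_
  have h3 : t.degree = e := by
    by_contra h
    exact (mem_support_iff.mp ht) (hG.coeff_eq_zero h)
  have h2 : ∏ i, (a * w i) ^ t i = a ^ e * ∏ i, w i ^ t i := by
    simp only [mul_pow, Finset.prod_mul_distrib, Finset.prod_pow_eq_pow_sum]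
    congr 2
    rw [← h3, Finsupp.degree_eq_sum]
  rw [h2]
  ring

end

theorem effT_isT (hd : 4 ≤ d) (hF : IsSmoothForm F d) {ξ : Fin 4 → Ω}
    (hξ : IsGenericPoint F ξ) (K K' : Fl) [Countable K] (hFK : Coef K F) (hKK' : K ≤ K')
    (hK' : K' ≤ clo K) {w : ℕ} (Γ : EffCorr F ξ w) (hΓ : CoefE K' Γ) (hΓd : Dominant Γ) :
    (∀ p ∈ Gen K F, ∃ s : Multiset (surf F), IsChowForm (surf F) (Γ.at p.rep) s) ∧
      IsT K K' F (effT Γ) := by
  have hFκ : Coef (clo K) F := hFK.mono (le_clo K)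
  have hΓκ : CoefE (clo K) Γ := fun m => (hΓ m).mono hK'
  have key : ∀ p ∈ Gen K F, ∃ s : Multiset (surf F), IsChowForm (surf F) (Γ.at p.rep) s ∧
      ∀ q ∈ s, q.1 ∈ Gen K F := by
    intro p hp
    obtain ⟨z, hz, hz0, -, hpz⟩ := gen_nrm hd hF hp 0
    have hp' : Projectivization.mk ℂ z hz ∈ Gen (clo K) F := by
      rw [gen_clo hd hF K hFK, ← hpz]
      exact hp
    obtain ⟨ι, hι, hιξ⟩ := exists_emb hd hF hξ (clo K) (clo_clo K) hFκ hz hz0 hp'
    obtain ⟨t, x, ht, hx, hx1, hs, hch⟩ :=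
      eff_pts hd hF hξ (clo K) (clo_clo K) hFκ Γ hΓκ hz hz0 hp' ι hι hιξ
    rw [← hpz] at hch
    refine ⟨_, hch, ?_⟩
    intro q hq
    obtain ⟨i, -, rfl⟩ := Multiset.mem_map.1 hq
    refine ⟨hs i, ?_⟩
    intro e G hG hGK h0
    obtain ⟨j, hj⟩ := hx1 i
    have hne : (fun j => ι (x i j)) ≠ 0 := by
      intro h
      have := congrFun h j
      rw [hj, map_one] at this
      exact one_ne_zero this
    change aeval (mkP fun j => ι (x i j)).rep G = 0 at h0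
    rw [mkP_eq hne, mem_zero_mk hG hne] at h0
    have h1 := aeval_ι ι hι (hGK.mono (le_clo K)) (x i) h0
    rw [aeval_scaleΩ hG (hx i)] at h1
    exact hΓd i e G hG ((mul_eq_zero.1 h1).resolve_left (pow_ne_zero _ (ht i)))
  refine ⟨fun p hp => ?_, ?_, ?_⟩
  · obtain ⟨s, hs, -⟩ := key p hp
    exact ⟨s, hs⟩
  · intro p hp q hq
    obtain ⟨s, hs, hs'⟩ := key p hp
    rw [effT_eq Γ hs] at hq
    obtain ⟨q', hq', rfl⟩ := Multiset.mem_map.1 (mem_support_cycQ hq)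
    exact hs' q' hq'
  · intro σ hσ p hp
    obtain ⟨s, hs, -⟩ := key p hp
    obtain ⟨s', hs', -⟩ := key (act σ p)
      ((act_mem_Gen hF.hom hFK (Fix_mono hKK' hσ)).2 hp)
    rw [effT_eq Γ hs, effT_eq Γ hs', actC_cycQ]
    congr 1
    obtain ⟨a, ha, h1⟩ := at_act Γ hΓ hσ p
    have h2 : IsCh (Γ.at p.rep) (s.map Subtype.val) := hs
    have h3 : IsCh (Γ.at (act σ p).rep) (s'.map Subtype.val) := hs'
    have h4 := (h2.map σ).C_mul ha
    rw [← h1] at h4
    exact h3.unique h4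

end Pool.Agent.VGS
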