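import Pool.Agent.VGS.EffDefs

/-! The algebraic closure of `κ(ξ)` in `Ω`: definition. -/

set_option autoImplicit false

open scoped LinearAlgebra.Projectivization
open MvPolynomial

namespace Pool.Agent.VGS

variable {Ω : Type} [Field Ω] [Algebra ℂ Ω]

/-- The subfield of `Ω` of the elements which are algebraic over `κ(ξ)`. -/
noncomputable def cloΩ (κ : Fl) (ξ : Fin 4 → Ω) : Subfield Ω :=
  (algebraicClosure (Subfield.closure ((algebraMap ℂ Ω) '' (κ : Set ℂ) ∪ Set.range ξ)) Ω).toSubfield

end Pool.Agent.VGS
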