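import Pool.Agent.VGS.FrameDefs

/-! Effective correspondences: definitions. -/

set_option autoImplicit false

open scoped LinearAlgebra.Projectivization
open MvPolynomial

namespace Pool.Agent.VGS

open Pool.Agent.Chow0 (IsChowForm cyc Z0)
open Pool.Agent.LowDeg (surf IsSmoothForm EffCorr IsGenericPoint)

variable {Ω : Type} [Field Ω] [Algebra ℂ Ω]

/-- All components of the correspondence dominate the second factor. -/
def Dominant {F : MvPolynomial (Fin 4) ℂ} {ξ : Fin 4 → Ω} {w : ℕ} (Γ : EffCorr F ξ w) : Prop :=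
  ∀ (i : Fin w) (e : ℕ) (G : MvPolynomial (Fin 4) ℂ), G.IsHomogeneous e →
    aeval (Γ.pts i) G = 0 → F ∣ G

/-- The points of the surface which are on none of the surfaces `D j = 0`. -/
def veryGen (F : MvPolynomial (Fin 4) ℂ) (D : ℕ → MvPolynomial (Fin 4) ℂ) : Set (surf F) :=
  {p | ∀ j, aeval p.1.rep (D j) ≠ 0}

/-- On the points of `V`, `φ` is `b (Γ - Γ') - a`. -/
def ActsOn {F : MvPolynomial (Fin 4) ℂ} {ξ : Fin 4 → Ω} {w w' : ℕ} (Γ : EffCorr F ξ w)
    (Γ' : EffCorr F ξ w') (V : Set (surf F)) (a b : ℤ) (φ : AddMonoid.End (Z0 (surf F))) : Prop :=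
  ∀ p ∈ V, ∀ s s' : Multiset (surf F), IsChowForm (surf F) (Γ.at p.1.rep) s →
    IsChowForm (surf F) (Γ'.at p.1.rep) s' →
      φ (FreeAbelianGroup.of p) = b • (cyc s - cyc s') - a • FreeAbelianGroup.of p

open Classical in
/-- The cycle of the correspondence over the point `p`. -/
noncomputable def effT {F : MvPolynomial (Fin 4) ℂ} {ξ : Fin 4 → Ω} {w : ℕ} (Γ : EffCorr F ξ w)
    (p : PP) : Cy :=
  if h : ∃ s : Multiset (surf F), IsChowForm (surf F) (Γ.at p.rep) s then
    cycQ (h.choose.map Subtype.val) else 0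

/-- The correspondence has coefficients in `L`. -/
def CoefE (L : Fl) {F : MvPolynomial (Fin 4) ℂ} {ξ : Fin 4 → Ω} {w : ℕ} (Γ : EffCorr F ξ w) :
    Prop := ∀ m, Coef L (coeff m Γ.Φ)

end Pool.Agent.VGS
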