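import Pool.Agent.VGS.EffDefs
import Pool.Agent.Chow0.Functor

/-! Module Exact: a correspondence that satisfies a polynomial equation without multiple factors
acts on cycles of degree zero as a rational number. -/

set_option autoImplicit false

open scoped LinearAlgebra.Projectivization
open MvPolynomial

namespace Pool.Agent.VGS

open Pool.Agent.Chow0 (IsChowForm cyc Z0 ratTriv linForm chowForm)
open Pool.Agent.LowDeg (surf IsSmoothForm EffCorr IsGenericPoint ActsByScalar linF)

/-- The zero-cycles of degree zero supported on `V`. -/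
def degZero {F : MvPolynomial (Fin 4) ℂ} (V : Set (surf F)) : AddSubgroup (Z0 (surf F)) :=
  AddSubgroup.closure {y | ∃ p ∈ V, ∃ q ∈ V, y = FreeAbelianGroup.of p - FreeAbelianGroup.of q}

/-- clearing denominators -/
theorem clear_den (f : Polynomial ℚ) : ∃ c : ℤ, c ≠ 0 ∧ ∃ U : Polynomial ℤ,
    U.map (Int.castRingHom ℚ) = Polynomial.C (c : ℚ) * f := by
  obtain ⟨b, hb, h⟩ := IsLocalization.integerNormalization_spec (nonZeroDivisors ℤ) f
  refine ⟨b, nonZeroDivisors.ne_zero hb,
    IsLocalization.integerNormalization (nonZeroDivisors ℤ) f, ?_⟩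
  rw [show (Int.castRingHom ℚ) = algebraMap ℤ ℚ from rfl, h]
  rw [← Polynomial.smul_eq_C_mul]
  ext n
  simp

theorem bezout {P : Polynomial ℤ} (hP : Squarefree (P.map (Int.castRingHom ℚ))) (a b : ℤ)
    (N : ℕ) : ∃ c : ℤ, c ≠ 0 ∧ ∃ U W : Polynomial ℤ,
      Polynomial.C c * (Polynomial.C b * Polynomial.X - Polynomial.C a) =
        U * P + W * (Polynomial.C b * Polynomial.X - Polynomial.C a) ^ N := by
  classical
  set L : Polynomial ℤ := Polynomial.C b * Polynomial.X - Polynomial.C a with hL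
  set Lq := L.map (Int.castRingHom ℚ) with hLq
  set Pq := P.map (Int.castRingHom ℚ) with hPq
  obtain ⟨x, y, hxy⟩ : ∃ x y : Polynomial ℚ, Lq = x * Pq + y * Lq ^ N := by
    rcases Nat.eq_zero_or_pos N with rfl | hN
    · exact ⟨0, Lq, by simp⟩
    · set g := EuclideanDomain.gcd Pq (Lq ^ N) with hg
      have hg1 : g ∣ Pq := EuclideanDomain.gcd_dvd_left _ _
      have hg2 : g ∣ Lq ^ N := EuclideanDomain.gcd_dvd_right _ _
      have hgs : Squarefree g := hP.squarefree_of_dvd hg1
      obtain ⟨h, hh⟩ := (hgs.dvd_pow_iff_dvd hN.ne').1 hg2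
      have e := EuclideanDomain.gcd_eq_gcd_ab Pq (Lq ^ N)
      refine ⟨h * EuclideanDomain.gcdA Pq (Lq ^ N), h * EuclideanDomain.gcdB Pq (Lq ^ N), ?_⟩
      conv_lhs => rw [hh]
      rw [hg, e]
      ring
  obtain ⟨c₁, hc₁, U, hU⟩ := clear_den x
  obtain ⟨c₂, hc₂, W, hW⟩ := clear_den y
  refine ⟨c₁ * c₂, mul_ne_zero hc₁ hc₂, Polynomial.C c₂ * U, Polynomial.C c₁ * W, ?_⟩
  have hinj : Function.Injective (Polynomial.map (Int.castRingHom ℚ)) :=
    Polynomial.map_injective _ (RingHom.injective_int _)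
  apply hinj
  simp only [Polynomial.map_mul, Polynomial.map_add, Polynomial.map_pow, Polynomial.map_C, hU, hW,
    ← hLq, ← hPq]
  conv_lhs => rw [hxy]
  simp only [eq_intCast, Int.cast_mul, Polynomial.C_mul]
  ring

section

variable {Ω : Type} [Field Ω] [Algebra ℂ Ω] {F : MvPolynomial (Fin 4) ℂ}

/-- the degree of the cycles of a correspondence -/
theorem card_at {ξ : Fin 4 → Ω} (hξ : IsGenericPoint F ξ) {w : ℕ} (Γ : EffCorr F ξ w)
    (p : surf F) {s : Multiset (surf F)} (hs : IsChowForm (surf F) (Γ.at p.1.rep) s) :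
    Multiset.card s = w := by
  obtain ⟨c, hc, h⟩ := hs
  have hhom : (Γ.at p.1.rep).IsHomogeneous (Multiset.card s) := by
    rw [h]
    have h1 := Chow0.chowForm_isHomogeneous (s.map Subtype.val)
    rw [Multiset.card_map] at h1
    have h2 := (isHomogeneous_C (Fin 4) c).mul h1
    rwa [zero_add] at h2
  have hne : Γ.at p.1.rep ≠ 0 := by
    rw [h]
    exact mul_ne_zero (C_ne_zero.2 hc) (Chow0.chowForm_ne_zero _)
  obtain ⟨m, hm⟩ := ne_zero_iff.1 hne
  have hm1 : m.degree = Multiset.card s := by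
    have h1 := hhom hm
    rw [Finsupp.degree_eq_weight_one]
    exact h1
  by_contra hw
  have hmw : m.degree ≠ w := fun h1 => hw (hm1 ▸ h1)
  have h0 : aeval ξ (coeff m Γ.Φ) = 0 := by
    have h1 : coeff m (map (aeval ξ : MvPolynomial (Fin 4) ℂ →ₐ[ℂ] Ω).toRingHom Γ.Φ) = 0 := by
      rw [Γ.fac]
      have h2 : (C Γ.c * ∏ i, linF (Γ.pts i)).IsHomogeneous w := by
        have h3 : (∏ i, linF (Γ.pts i)).IsHomogeneous (∑ _i : Fin w, 1) :=
          IsHomogeneous.prod _ _ _ fun i _ => by
            unfold linF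
            refine IsHomogeneous.sum _ _ _ fun j _ => ?_
            have h5 := (isHomogeneous_C (Fin 4) (Γ.pts i j)).mul (isHomogeneous_X Ω j)
            rwa [zero_add] at h5
        have h4 := (isHomogeneous_C (Fin 4) Γ.c).mul h3
        simpa using h4
      exact h2.coeff_eq_zero hmw
    rw [coeff_map] at h1
    exact h1
  have h1 : F ∣ coeff m Γ.Φ := hξ.gen _ _ (Γ.hom m) h0
  obtain ⟨G, hG⟩ := h1
  apply hm
  rw [EffCorr.at, coeff_map, hG]
  have h2 : eval p.1.rep F = 0 := p.2
  rw [map_mul, h2, zero_mul]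

theorem sub_mem_degZero {V : Set (surf F)} {p₀ : surf F} (hp₀ : p₀ ∈ V)
    (s : Multiset (surf F)) (hs : ∀ x ∈ s, x ∈ V) :
    cyc s - Multiset.card s • FreeAbelianGroup.of p₀ ∈ degZero V := by
  induction s using Multiset.induction_on with
  | empty => simp [cyc]
  | cons a s ih =>
    have h : cyc (a ::ₘ s) = FreeAbelianGroup.of a + cyc s := by
      simp [cyc]
    have h1 := ih fun x hx => hs x (Multiset.mem_cons_of_mem hx)
    have h2 : FreeAbelianGroup.of a - FreeAbelianGroup.of p₀ ∈ degZero V :=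
      AddSubgroup.subset_closure ⟨a, hs a (Multiset.mem_cons_self a s), p₀, hp₀, rfl⟩
    have h3 := AddSubgroup.add_mem _ h2 h1
    rw [h, Multiset.card_cons, add_smul, one_smul]
    convert h3 using 1
    abel

/-- endomorphisms which map a subgroup to itself form a subring -/
theorem aeval_mem {A : Type} [AddCommGroup A] {B : AddSubgroup A} {ψ : AddMonoid.End A}
    (hψ : ∀ y ∈ B, ψ y ∈ B) (P : Polynomial ℤ) {y : A} (hy : y ∈ B) :
    (Polynomial.aeval ψ P) y ∈ B := by
  have hpow : ∀ (n : ℕ) (y : A), y ∈ B → (ψ ^ n) y ∈ B := by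
    intro n
    induction n with
    | zero => intro y hy; simpa using hy
    | succ n ih =>
      intro y hy
      rw [pow_succ]
      exact ih _ (hψ y hy)
  induction P using Polynomial.induction_on' with
  | add p q hp hq =>
    rw [map_add]
    exact AddSubgroup.add_mem _ hp hq
  | monomial n a =>
    rw [Polynomial.aeval_monomial]
    have h1 : ((algebraMap ℤ (AddMonoid.End A)) a * ψ ^ n) y = a • (ψ ^ n) y := by
      rw [← Algebra.smul_def]
      rfl
    rw [h1]
    exact AddSubgroup.zsmul_mem _ (hpow n y hy) a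

/-- A correspondence which acts on the cycles of degree zero modulo rational equivalence as a
rational number plus a nilpotent endomorphism, and which satisfies a polynomial equation without
multiple factors, acts as this rational number. -/
theorem exact_part {ξ : Fin 4 → Ω} (hξ : IsGenericPoint F ξ) {w w' : ℕ} (Γ : EffCorr F ξ w)
    (Γ' : EffCorr F ξ w') (V : Set (surf F)) (a b : ℤ) (N M : ℕ) (hM : 0 < M)
    (hV : ∀ p ∈ V, ∃ s s' : Multiset (surf F), IsChowForm (surf F) (Γ.at p.1.rep) s ∧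
      IsChowForm (surf F) (Γ'.at p.1.rep) s' ∧ (∀ x ∈ s, x ∈ V) ∧ ∀ x ∈ s', x ∈ V)
    (hN : ∀ φ : AddMonoid.End (Z0 (surf F)), ActsOn Γ Γ' V a b φ → ∀ y ∈ degZero V,
      M • (φ ^ N) y ∈ ratTriv (surf F))
    (ψ : AddMonoid.End (Z0 (surf F))) (hψ : ActsOn Γ Γ' V 0 1 ψ) (P : Polynomial ℤ)
    (hP : Squarefree (P.map (Int.castRingHom ℚ)))
    (hPψ : ∀ y ∈ degZero V, (Polynomial.aeval ψ P) y ∈ ratTriv (surf F)) :
    ∃ M' : ℕ, 0 < M' ∧ ∀ y ∈ degZero V, M' • (b • ψ y - a • y) ∈ ratTriv (surf F) := by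
  obtain ⟨c, hc, U, W, hUW⟩ := bezout hP a b N
  set L : Polynomial ℤ := Polynomial.C b * Polynomial.X - Polynomial.C a with hL
  set φ : AddMonoid.End (Z0 (surf F)) := Polynomial.aeval ψ L with hφ
  have hφ1 : ∀ z, φ z = b • ψ z - a • z := by
    intro z
    have h1 : φ = algebraMap ℤ (AddMonoid.End (Z0 (surf F))) b * ψ - algebraMap ℤ _ a := by
      rw [hφ, hL, map_sub, map_mul, Polynomial.aeval_C, Polynomial.aeval_C, Polynomial.aeval_X]
    have h2 : algebraMap ℤ (AddMonoid.End (Z0 (surf F))) b * ψ = b • ψ := by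
      rw [← Algebra.smul_def]
    have h3 : (algebraMap ℤ (AddMonoid.End (Z0 (surf F))) a) =
        a • (1 : AddMonoid.End (Z0 (surf F))) := by
      rw [Algebra.algebraMap_eq_smul_one]
    rw [h1, h2, h3]
    rfl
  have hact : ActsOn Γ Γ' V a b φ := by
    intro p hp s s' hs hs'
    rw [hφ1, hψ p hp s s' hs hs', one_smul, zero_smul, sub_zero]
  -- `ψ` preserves `degZero V`
  have hst : ∀ y ∈ degZero V, ψ y ∈ degZero V := by
    intro y hy
    refine AddSubgroup.closure_induction (p := fun y _ => ψ y ∈ degZero V) ?_ ?_ ?_ ?_ hy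
    · rintro y ⟨p, hp, q, hq, rfl⟩
      obtain ⟨s, s', hs, hs', hsV, hsV'⟩ := hV p hp
      obtain ⟨t, t', ht, ht', htV, htV'⟩ := hV q hq
      have h1 := sub_mem_degZero hp s hsV
      have h2 := sub_mem_degZero hp s' hsV'
      have h3 := sub_mem_degZero hp t htV
      have h4 := sub_mem_degZero hp t' htV'
      rw [card_at hξ Γ p hs] at h1
      rw [card_at hξ Γ' p hs'] at h2
      rw [card_at hξ Γ q ht] at h3
      rw [card_at hξ Γ' q ht'] at h4
      rw [map_sub, hψ p hp s s' hs hs', hψ q hq t t' ht ht']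
      have h5 := AddSubgroup.sub_mem _ (AddSubgroup.sub_mem _ h1 h2) (AddSubgroup.sub_mem _ h3 h4)
      convert h5 using 1
      simp only [one_smul, zero_smul, sub_zero]
      abel
    · rw [map_zero]; exact AddSubgroup.zero_mem _
    · intro x y _ _ hx hy
      rw [map_add]; exact AddSubgroup.add_mem _ hx hy
    · intro x _ hx
      rw [map_neg]; exact AddSubgroup.neg_mem _ hx
  refine ⟨M * c.natAbs, Nat.mul_pos hM (Int.natAbs_pos.2 hc), fun y hy => ?_⟩
  have e : Polynomial.C c * L = P * U + L ^ N * W := by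
    rw [hUW]
    ring
  have e1 : c • φ y = (Polynomial.aeval ψ P) ((Polynomial.aeval ψ U) y) +
      (φ ^ N) ((Polynomial.aeval ψ W) y) := by
    have h1 := congrArg (fun Q : Polynomial ℤ => (Polynomial.aeval ψ Q) y) e
    simp only [map_add, map_mul, map_pow, Polynomial.aeval_C] at h1
    have h2 : ((algebraMap ℤ (AddMonoid.End (Z0 (surf F))) c) * (Polynomial.aeval ψ L)) y =
        c • φ y := by
      rw [← Algebra.smul_def]
      rfl
    rw [h2] at h1
    rw [h1]
    rfl
  have h1 : c • φ y ∈ AddSubgroup.comap (nsmulAddMonoidHom M) (ratTriv (surf F)) := by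
    change M • (c • φ y) ∈ ratTriv (surf F)
    rw [e1, smul_add]
    refine AddSubgroup.add_mem _ (AddSubgroup.nsmul_mem _ (hPψ _ (aeval_mem hst U hy)) M) ?_
    exact hN φ hact _ (aeval_mem hst W hy)
  have h2 : M • (c • φ y) ∈ ratTriv (surf F) := h1
  rw [← hφ1]
  rcases Int.natAbs_eq c with hc1 | hc1
  · rw [mul_smul]
    rw [hc1, natCast_zsmul] at h2
    exact h2
  · rw [mul_smul]
    rw [hc1, neg_smul, natCast_zsmul, smul_neg] at h2
    exact (AddSubgroup.neg_mem_iff _).1 h2

end

end Pool.Agent.VGS
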