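import Pool.Agent.VGS.EffDefs

/-! Module FinA: integral cycles and the operators attached to correspondences. -/

set_option autoImplicit false

open scoped LinearAlgebra.Projectivization
open MvPolynomial

namespace Pool.Agent.VGS

open Pool.Agent.Chow0 (IsChowForm IsLink cyc Z0 ratTriv)
open Pool.Agent.LowDeg (surf EffCorr)

variable {F : MvPolynomial (Fin 4) ℂ}

/-! ### from integral to rational coefficients -/

/-- The cycle with rational coefficients of an integral cycle. -/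
noncomputable def jz (F : MvPolynomial (Fin 4) ℂ) : Z0 (surf F) →+ Cy :=
  FreeAbelianGroup.lift (fun p : surf F => (Finsupp.single p.1 1 : Cy))

theorem jz_of (p : surf F) : jz F (FreeAbelianGroup.of p) = Finsupp.single p.1 1 :=
  FreeAbelianGroup.lift_apply_of _ _

theorem jz_cyc (s : Multiset (surf F)) : jz F (cyc s) = cycQ (s.map Subtype.val) := by
  unfold cyc cycQ
  rw [map_multiset_sum, Multiset.map_map, Multiset.map_map]
  congr 1
  refine Multiset.map_congr rfl fun p _ => ?_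
  exact jz_of p

theorem jz_coeff (z : Z0 (surf F)) (p : surf F) :
    (jz F z) p.1 = ((FreeAbelianGroup.coeff p z : ℤ) : ℚ) := by
  classical
  have h : (Finsupp.applyAddHom p.1 : Cy →+ ℚ).comp (jz F) =
      (Int.castAddHom ℚ).comp (FreeAbelianGroup.coeff p) := by
    refine FreeAbelianGroup.lift_ext _ _ fun q => ?_
    rw [AddMonoidHom.comp_apply, AddMonoidHom.comp_apply, jz_of]
    change (Finsupp.single q.1 (1 : ℚ) : Cy) p.1 =
      ((FreeAbelianGroup.toFinsupp (FreeAbelianGroup.of q) p : ℤ) : ℚ)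
    rw [FreeAbelianGroup.toFinsupp_of, Finsupp.single_apply, Finsupp.single_apply]
    by_cases hqp : q = p
    · rw [if_pos (congrArg Subtype.val hqp), if_pos hqp, Int.cast_one]
    · rw [if_neg fun h => hqp (Subtype.ext h), if_neg hqp, Int.cast_zero]
  exact DFunLike.congr_fun h z

theorem jz_injective : Function.Injective (jz F) := by
  rw [injective_iff_map_eq_zero]
  intro z hz
  have h1 : FreeAbelianGroup.toFinsupp z = 0 := by
    ext p
    have h2 := jz_coeff z p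
    rw [hz, Finsupp.zero_apply] at h2
    have h3 : FreeAbelianGroup.coeff p z = 0 := by exact_mod_cast h2.symm
    exact h3
  have h4 := congrArg Finsupp.toFreeAbelianGroup h1
  rwa [Finsupp.toFreeAbelianGroup_toFinsupp, map_zero] at h4

/-! ### automorphisms -/

/-- The action of an automorphism on integral cycles. -/
noncomputable def actZ {L : Fl} {d : ℕ} (hF : F.IsHomogeneous d) (hL : Coef L F) {σ : ℂ ≃+* ℂ}
    (hσ : σ ∈ Fix L) : Z0 (surf F) →+ Z0 (surf F) :=
  FreeAbelianGroup.map (actS hF hL hσ)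

theorem actZ_of {L : Fl} {d : ℕ} (hF : F.IsHomogeneous d) (hL : Coef L F) {σ : ℂ ≃+* ℂ}
    (hσ : σ ∈ Fix L) (p : surf F) :
    actZ hF hL hσ (FreeAbelianGroup.of p) = FreeAbelianGroup.of (actS hF hL hσ p) :=
  FreeAbelianGroup.map_of_apply _

theorem actZ_cyc {L : Fl} {d : ℕ} (hF : F.IsHomogeneous d) (hL : Coef L F) {σ : ℂ ≃+* ℂ}
    (hσ : σ ∈ Fix L) (s : Multiset (surf F)) :
    actZ hF hL hσ (cyc s) = cyc (s.map (actS hF hL hσ)) := by
  unfold cyc
  rw [map_multiset_sum, Multiset.map_map, Multiset.map_map]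
  refine congrArg Multiset.sum (Multiset.map_congr rfl fun p _ => ?_)
  exact actZ_of hF hL hσ p

theorem jz_actZ {L : Fl} {d : ℕ} (hF : F.IsHomogeneous d) (hL : Coef L F) {σ : ℂ ≃+* ℂ}
    (hσ : σ ∈ Fix L) (z : Z0 (surf F)) : jz F (actZ hF hL hσ z) = actC σ (jz F z) := by
  have h : (jz F).comp (actZ hF hL hσ) = ((actC σ : Cy →ₗ[ℚ] Cy) : Cy →+ Cy).comp (jz F) := by
    refine FreeAbelianGroup.lift_ext _ _ fun q => ?_
    rw [AddMonoidHom.comp_apply, AddMonoidHom.comp_apply, actZ_of, jz_of, jz_of]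
    exact (actC_single σ q.1 1).symm
  exact DFunLike.congr_fun h z

theorem actZ_ratTriv {L : Fl} {d : ℕ} (hF : F.IsHomogeneous d) (hL : Coef L F) {σ : ℂ ≃+* ℂ}
    (hσ : σ ∈ Fix L) {z : Z0 (surf F)} (hz : z ∈ ratTriv (surf F)) :
    actZ hF hL hσ z ∈ ratTriv (surf F) := by
  unfold ratTriv at hz
  induction hz using AddSubgroup.closure_induction with
  | mem z hz =>
    obtain ⟨s₀, s₁, h, rfl⟩ := hz
    refine AddSubgroup.subset_closure ⟨_, _, IsLink.act hF hL hσ h, ?_⟩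
    rw [map_sub, actZ_cyc, actZ_cyc]
  | zero => rw [map_zero]; exact AddSubgroup.zero_mem _
  | add x y _ _ hx hy => rw [map_add]; exact AddSubgroup.add_mem _ hx hy
  | neg x _ hx => rw [map_neg]; exact AddSubgroup.neg_mem _ hx

/-! ### the operators -/

variable {Ω : Type} [Field Ω] [Algebra ℂ Ω] {ξ : Fin 4 → Ω}

open Classical in
/-- The chosen multiset of points over `p`. -/
noncomputable def chs {w : ℕ} (Γ : EffCorr F ξ w) (p : PP) : Multiset (surf F) :=
  if h : ∃ s : Multiset (surf F), IsChowForm (surf F) (Γ.at p.rep) s then h.choose else 0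

theorem chs_spec {w : ℕ} (Γ : EffCorr F ξ w) (p : PP)
    (h : ∃ s : Multiset (surf F), IsChowForm (surf F) (Γ.at p.rep) s) :
    IsChowForm (surf F) (Γ.at p.rep) (chs Γ p) := by
  unfold chs
  rw [dif_pos h]
  exact h.choose_spec

theorem effT_chs {w : ℕ} (Γ : EffCorr F ξ w) (p : PP) :
    effT Γ p = cycQ ((chs Γ p).map Subtype.val) := by
  unfold effT chs
  split_ifs with h
  · rfl
  · rw [Multiset.map_zero, cycQ_zero]

theorem mem_support_effT {w : ℕ} (Γ : EffCorr F ξ w) (p : PP) {x : surf F} (hx : x ∈ chs Γ p) :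
    x.1 ∈ (effT Γ p).support := by
  classical
  rw [Finsupp.mem_support_iff, effT_chs, cycQ_apply]
  have h1 : 0 < Multiset.count x.1 ((chs Γ p).map Subtype.val) :=
    Multiset.count_pos.2 (Multiset.mem_map_of_mem _ hx)
  exact_mod_cast h1.ne'

/-- The operator `b (Γ - Γ') - a` on integral cycles. -/
noncomputable def phH {w w' : ℕ} (Γ : EffCorr F ξ w) (Γ' : EffCorr F ξ w') (a b : ℤ) :
    Z0 (surf F) →+ Z0 (surf F) :=
  FreeAbelianGroup.lift fun p => b • (cyc (chs Γ p.1) - cyc (chs Γ' p.1)) -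
    a • FreeAbelianGroup.of p

/-- The operator `b (Γ - Γ') - a` on integral cycles. -/
noncomputable def ph {w w' : ℕ} (Γ : EffCorr F ξ w) (Γ' : EffCorr F ξ w') (a b : ℤ) :
    AddMonoid.End (Z0 (surf F)) := phH Γ Γ' a b

theorem phH_of {w w' : ℕ} (Γ : EffCorr F ξ w) (Γ' : EffCorr F ξ w') (a b : ℤ) (p : surf F) :
    phH Γ Γ' a b (FreeAbelianGroup.of p) = b • (cyc (chs Γ p.1) - cyc (chs Γ' p.1)) -
      a • FreeAbelianGroup.of p := FreeAbelianGroup.lift_apply_of _ _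

theorem ph_of {w w' : ℕ} (Γ : EffCorr F ξ w) (Γ' : EffCorr F ξ w') (a b : ℤ) (p : surf F) :
    ph Γ Γ' a b (FreeAbelianGroup.of p) = b • (cyc (chs Γ p.1) - cyc (chs Γ' p.1)) -
      a • FreeAbelianGroup.of p := FreeAbelianGroup.lift_apply_of _ _

theorem jz_phH_of {w w' : ℕ} (Γ : EffCorr F ξ w) (Γ' : EffCorr F ξ w') (a b : ℤ) (p : surf F) :
    jz F (phH Γ Γ' a b (FreeAbelianGroup.of p)) =
      b • (effT Γ p.1 - effT Γ' p.1) - a • (Finsupp.single p.1 (1 : ℚ) : Cy) := by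
  rw [phH_of, map_sub, map_zsmul, map_zsmul, map_sub, jz_cyc, jz_cyc, jz_of, ← effT_chs,
    ← effT_chs]

theorem jz_ph {w w' : ℕ} (Γ : EffCorr F ξ w) (Γ' : EffCorr F ξ w') (a b : ℤ) (r : ℚ)
    (hr : (b : ℚ) * r = a) (z : Z0 (surf F)) :
    jz F (ph Γ Γ' a b z) =
      b • (ext (fun p => effT Γ p - effT Γ' p) - r • (LinearMap.id : Cy →ₗ[ℚ] Cy)) (jz F z) := by
  have h : (jz F).comp (phH Γ Γ' a b) =
      ((b • (ext (fun p => effT Γ p - effT Γ' p) - r • (LinearMap.id : Cy →ₗ[ℚ] Cy)) :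
        Cy →ₗ[ℚ] Cy) : Cy →+ Cy).comp (jz F) := by
    refine FreeAbelianGroup.lift_ext _ _ fun q => ?_
    rw [AddMonoidHom.comp_apply, AddMonoidHom.comp_apply, phH_of, jz_of, map_sub, map_zsmul,
      map_zsmul, map_sub, jz_cyc, jz_cyc, jz_of, ← effT_chs, ← effT_chs]
    change _ = b • ((ext (fun p => effT Γ p - effT Γ' p)) (Finsupp.single q.1 1) -
      r • (Finsupp.single q.1 (1 : ℚ) : Cy))
    rw [ext_single, one_smul, smul_sub b (effT Γ q.1 - effT Γ' q.1), smul_sub b (effT Γ q.1),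
      ← Int.cast_smul_eq_zsmul ℚ b (r • _), smul_smul, hr, Int.cast_smul_eq_zsmul]
  exact DFunLike.congr_fun h z

/-- The integral cycles on the points of `W`. -/
def ZV (F : MvPolynomial (Fin 4) ℂ) (W : Set PP) : AddSubgroup (Z0 (surf F)) :=
  AddSubgroup.closure {z | ∃ p : surf F, p.1 ∈ W ∧ z = FreeAbelianGroup.of p}

theorem of_mem_ZV {W : Set PP} {p : surf F} (hp : p.1 ∈ W) : FreeAbelianGroup.of p ∈ ZV F W :=
  AddSubgroup.subset_closure ⟨p, hp, rfl⟩

theorem cyc_mem_ZV {W : Set PP} {s : Multiset (surf F)} (hs : ∀ x ∈ s, x.1 ∈ W) :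
    cyc s ∈ ZV F W := by
  unfold cyc
  refine AddSubgroup.multiset_sum_mem _ _ fun z hz => ?_
  obtain ⟨x, hx, rfl⟩ := Multiset.mem_map.1 hz
  exact of_mem_ZV (hs x hx)

theorem ZV_induction {W : Set PP} {A : Type} [AddCommGroup A] (f g : Z0 (surf F) →+ A)
    (h : ∀ p : surf F, p.1 ∈ W → f (FreeAbelianGroup.of p) = g (FreeAbelianGroup.of p))
    {z : Z0 (surf F)} (hz : z ∈ ZV F W) : f z = g z := by
  unfold ZV at hz
  induction hz using AddSubgroup.closure_induction with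
  | mem z hz =>
    obtain ⟨p, hp, rfl⟩ := hz
    exact h p hp
  | zero => rw [map_zero, map_zero]
  | add x y _ _ hx hy => rw [map_add, map_add, hx, hy]
  | neg x _ hx => rw [map_neg, map_neg, hx]

theorem ZV_map {W W' : Set PP} (f : Z0 (surf F) →+ Z0 (surf F))
    (h : ∀ p : surf F, p.1 ∈ W → f (FreeAbelianGroup.of p) ∈ ZV F W')
    {z : Z0 (surf F)} (hz : z ∈ ZV F W) : f z ∈ ZV F W' := by
  unfold ZV at hz
  induction hz using AddSubgroup.closure_induction with
  | mem z hz =>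
    obtain ⟨p, hp, rfl⟩ := hz
    exact h p hp
  | zero => rw [map_zero]; exact AddSubgroup.zero_mem _
  | add x y _ _ hx hy => rw [map_add]; exact AddSubgroup.add_mem _ hx hy
  | neg x _ hx => rw [map_neg]; exact AddSubgroup.neg_mem _ hx

/-- products of operators -/
theorem prod_congr {W : Set PP} {n : ℕ} (φ ψ : Fin n → AddMonoid.End (Z0 (surf F)))
    (h : ∀ i, ∀ z ∈ ZV F W, φ i z = ψ i z) (hψ : ∀ i, ∀ z ∈ ZV F W, ψ i z ∈ ZV F W)
    (l : List (Fin n)) {z : Z0 (surf F)} (hz : z ∈ ZV F W) :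
    (l.map φ).prod z = (l.map ψ).prod z ∧ (l.map ψ).prod z ∈ ZV F W := by
  induction l with
  | nil => exact ⟨rfl, hz⟩
  | cons i l ih =>
    rw [List.map_cons, List.map_cons, List.prod_cons, List.prod_cons]
    change φ i ((l.map φ).prod z) = ψ i ((l.map ψ).prod z) ∧ ψ i ((l.map ψ).prod z) ∈ ZV F W
    rw [ih.1]
    exact ⟨h i _ ih.2, hψ i _ ih.2⟩

theorem prod_comm {W : Set PP} {n : ℕ} (ψ : Fin n → AddMonoid.End (Z0 (surf F)))
    (hψ : ∀ i, ∀ z ∈ ZV F W, ψ i z ∈ ZV F W) (τ : Z0 (surf F) →+ Z0 (surf F))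
    (hτ : ∀ i, ∀ z ∈ ZV F W, ψ i (τ z) = τ (ψ i z))
    (l : List (Fin n)) {z : Z0 (surf F)} (hz : z ∈ ZV F W) :
    (l.map ψ).prod (τ z) = τ ((l.map ψ).prod z) := by
  have hmem : ∀ l : List (Fin n), (l.map ψ).prod z ∈ ZV F W := fun l =>
    (prod_congr ψ ψ (fun _ _ _ => rfl) hψ l hz).2
  induction l with
  | nil => rfl
  | cons i l ih =>
    rw [List.map_cons, List.prod_cons]
    change ψ i ((l.map ψ).prod (τ z)) = τ (ψ i ((l.map ψ).prod z))
    rw [ih, hτ i _ (hmem l)]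

theorem jz_prod {n : ℕ} (ψ : Fin n → AddMonoid.End (Z0 (surf F))) (b : Fin n → ℤ)
    (op : Fin n → Cy →ₗ[ℚ] Cy) (h : ∀ i z, jz F (ψ i z) = b i • op i (jz F z))
    (l : List (Fin n)) (z : Z0 (surf F)) :
    ∃ c : ℤ, jz F ((l.map ψ).prod z) =
      c • (l.map op).foldr (fun (φ : Cy →ₗ[ℚ] Cy) z => φ z) (jz F z) := by
  induction l with
  | nil => exact ⟨1, by rw [one_smul]; rfl⟩
  | cons i l ih =>
    obtain ⟨c, hc⟩ := ih
    refine ⟨b i * c, ?_⟩
    rw [List.map_cons, List.map_cons, List.prod_cons, List.foldr_cons]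
    change jz F (ψ i ((l.map ψ).prod z)) = _
    rw [h, hc, map_zsmul, smul_smul]

end Pool.Agent.VGS
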