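import Pool.Agent.VGS.RingB
import Pool.Agent.VGS.RingC

/-! Module Ring: trace zero and nilpotence (sections 3, 4). -/

set_option autoImplicit false

open scoped LinearAlgebra.Projectivization
open MvPolynomial

namespace Pool.Agent.VGS

open Pool.Agent.LowDeg (surf IsSmoothForm)

variable {F : MvPolynomial (Fin 4) ℂ} {d : ℕ}

/-- the sum of the conjugates of an element of the ring is in the ideal -/
theorem trc_mem_Js (hd : 4 ≤ d) (hF : IsSmoothForm F d) (hFh : F.IsHomogeneous d) (k : Fl)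
    [Countable k] (hind : AlgebraicIndependent k
      (fun m : {m : Fin 4 →₀ ℕ // m.degree = d} => coeff m.1 F))
    {K' : Fl} (h1 : cof k F ≤ K') (h2 : K' ≤ clo (cof k F))
    (hn : ∀ σ ∈ Fix (cof k F), ∀ x, σ x ∈ K' ↔ x ∈ K') {n : ℕ} (g : Fin (n + 1) → ℂ ≃+* ℂ)
    (hg : ∀ i, g i ∈ Fix (cof k F))
    (hg' : ∀ σ ∈ Fix (cof k F), ∃! i, (g i)⁻¹ * σ ∈ Fix K') {x : En}
    (hx : x ∈ Rs (cof k F) K' F d) : trc g x ∈ Js (cof k F) K' F d := by
  have := countable_cof k F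
  have hFK := coef_cof k F
  have hE : InE (cof k F) (cof k F) F (trc g x) := inE_trc hFh hFK hn g hg hg' hx.1
  have hS : Sc (cof k F) F d 0 (trc g x) := by
    have := hx.2.trc hd hF hFh hFK g hg hx.1
    simpa using this
  obtain ⟨m, hm0, hm⟩ := scalar_step hd hF k hind (isT_of_inE hE) (s := 0)
    (fun y hy D₁ D₂ h₁ h₂ f hf => by
      have := hS _ (single_mem_GenC hy 1) D₁ D₂ h₁ h₂ f hf
      rwa [tauC_single, one_smul] at this)
  have hm0' : m = 0 := by exact_mod_cast hm0.symm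
  rw [hm0'] at hm
  refine ⟨⟨hE.mono h1, hS⟩, ?_, fun β hβ => ?_⟩
  · refine inI_of_points hd hF hFK fun p hp q hq => ?_
    have := hm K' (fun p => (1 : En) (Finsupp.single p 1)) h1 h2 (isT_of_inE (inE_one _ _)) p hp
      q hq
    rw [ext_of_En, zero_smul, sub_zero] at this
    exact this
  · refine inI_of_points hd hF hFK fun p hp q hq => ?_
    have := hm K' (fun p => β (Finsupp.single p 1)) h1 h2 (isT_of_inE hβ.1) p hp q hq
    rw [ext_of_En, zero_smul, sub_zero] at this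
    exact this

/-- the number by which a correspondence acts on two-forms is rational -/
theorem rat_of_sc (hd : 4 ≤ d) (hF : IsSmoothForm F d) (hFh : F.IsHomogeneous d) (k : Fl)
    [Countable k] (hk : clo k = k) (hind : AlgebraicIndependent k
      (fun m : {m : Fin 4 →₀ ℕ // m.degree = d} => coeff m.1 F))
    {K' : Fl} (hn : ∀ σ ∈ Fix (cof k F), ∀ x, σ x ∈ K' ↔ x ∈ K') {n : ℕ}
    (g : Fin (n + 1) → ℂ ≃+* ℂ) (hg : ∀ i, g i ∈ Fix (cof k F))
    (hg' : ∀ σ ∈ Fix (cof k F), ∃! i, (g i)⁻¹ * σ ∈ Fix K') {x : En}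
    (hx : InE (cof k F) K' F x) {m : ℂ} (hm : Sc (cof k F) F d m x) : ∃ r : ℚ, m = r := by
  have := countable_cof k F
  have hFK := coef_cof k F
  have key : ∀ j : ℕ, ∃ q : ℚ, ∑ i, (g i m) ^ (j + 1) = q := by
    intro j
    have hE : InE (cof k F) (cof k F) F (trc g (x ^ (j + 1))) :=
      inE_trc hFh hFK hn g hg hg' (hx.pow _)
    have hS := (hm.pow hx (j + 1)).trc hd hF hFh hFK g hg (hx.pow _)
    obtain ⟨q, hq, -⟩ := scalar_step hd hF k hind (isT_of_inE hE) (s := ∑ i, g i (m ^ (j + 1)))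
      (fun y hy D₁ D₂ h₁ h₂ f hf => by
        have := hS _ (single_mem_GenC hy 1) D₁ D₂ h₁ h₂ f hf
        rwa [tauC_single, one_smul] at this)
    refine ⟨q, ?_⟩
    rw [← hq]
    exact Finset.sum_congr rfl fun i _ => (map_pow (g i) m (j + 1)).symm
  have h3 := alg_of_psum (fun i => g i m) key 0
  have h4 : m ∈ clo (⊥ : Fl) :=
    (fix_mem_clo (σ := g 0) (Fix_mono bot_le (hg 0))).1 h3
  have h5 : m ∈ cof k F := by
    apply le_adj
    rw [← hk]
    exact clo_mono bot_le h4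
  obtain ⟨q, hq⟩ := key 0
  have h6 : ∑ i : Fin (n + 1), (g i m) ^ (0 + 1) = (n + 1) * m := by
    rw [Finset.sum_congr rfl fun i _ => by rw [zero_add, pow_one, hg i m h5]]
    simp
  rw [h6] at hq
  refine ⟨q / (n + 1), ?_⟩
  have h7 : (n + 1 : ℂ) ≠ 0 := by exact_mod_cast Nat.succ_ne_zero n
  push_cast
  rw [← hq, mul_comm, mul_div_assoc, div_self h7, mul_one]

/-- Nilpotence, over the algebraically closed countable field `k`. -/
theorem ring_main (hd : 4 ≤ d) (hF : IsSmoothForm F d) (k : Fl) [Countable k] (hk : clo k = k)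
    (hind : AlgebraicIndependent k
      (fun m : {m : Fin 4 →₀ ℕ // m.degree = d} => coeff m.1 F)) (K' : Fl)
    (h1 : cof k F ≤ K') (h2 : K' ≤ clo (cof k F))
    (hn : ∀ σ ∈ Fix (cof k F), ∀ x, σ x ∈ K' ↔ x ∈ K') (n : ℕ)
    (g : Fin (n + 1) → ℂ ≃+* ℂ) (hg : ∀ i, g i ∈ Fix (cof k F))
    (hg' : ∀ σ ∈ Fix (cof k F), ∃! i, (g i)⁻¹ * σ ∈ Fix K') {ι : Type} (T : ι → PP → Cy)
    (hT : ∀ i, IsT (cof k F) K' F (T i)) (m : ι → ℂ)
    (hm : ∀ i, ∀ p ∈ Gen (cof k F) F, ∀ D₁ D₂ : Derivation ℤ ℂ ℂ, Kills (cof k F) D₁ →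
      Kills (cof k F) D₂ → ∀ f : MvPolynomial (Fin 4) ℂ, f.IsHomogeneous (d - 4) →
        tauC F D₁ D₂ f (T i p) = m i * tau F D₁ D₂ f p) :
    ∃ q : ι → ℚ, (∀ i, m i = q i) ∧ ∃ N : ℕ, ∀ w : Fin N → ι,
      ∀ p ∈ Gen (cof k F) F, ∀ p' ∈ Gen (cof k F) F,
        (List.ofFn fun j => (ext (T (w j)) - q (w j) • 1 : En)).prod
          (Finsupp.single p 1 - Finsupp.single p' 1) ∈ ratQ F := by
  have := countable_cof k F
  have hFK := coef_cof k F
  have hFh : F.IsHomogeneous d := hF.1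
  have hE : ∀ i, InE (cof k F) K' F (ext (T i)) := fun i => inE_ext (hT i)
  have hSc : ∀ i, Sc (cof k F) F d (m i) (ext (T i)) := fun i => sc_ext (hm i)
  choose r hr using fun i => rat_of_sc hd hF hFh k hk hind hn g hg hg' (hE i) (hSc i)
  refine ⟨r, hr, ?_⟩
  obtain ⟨N, -, hN⟩ := nilpotent_of_trace (Rs (cof k F) K' F d) (Js (cof k F) K' F d) Rs_mul
    Js_le Js_left (Js_right hd hF hFK h2) (fun i => cj (g i))
    (fun i x => cj_mem_Rs hd hF hFh hFK hn (hg i) x)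
    (fun x hx => trc_mem_Js hd hF hFh k hind h1 h2 hn g hg hg' hx)
  refine ⟨N, fun word p hp q hq => ?_⟩
  have hmem : ∀ j, (ext (T (word j)) - r (word j) • 1 : En) ∈ Rs (cof k F) K' F d := by
    intro j
    have e1 : (ext (T (word j)) - r (word j) • 1 : En) =
        ext (T (word j)) + (-r (word j)) • (1 : En) := by
      apply LinearMap.ext
      intro z
      change ext (T (word j)) z - r (word j) • z = ext (T (word j)) z + (-r (word j)) • z
      rw [neg_smul, sub_eq_add_neg]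
    rw [e1]
    refine ⟨(hE _).add ((inE_one _ _).smul _), ?_⟩
    have h3 := (hSc (word j)).add ((sc_one (K := cof k F) (F := F) (d := d)).smul (-r (word j)))
    rw [hr (word j)] at h3
    convert h3 using 1
    push_cast
    ring
  exact (hN _ hmem).2.1 (Finsupp.single p 1 - Finsupp.single q 1)
    (Submodule.sub_mem _ (single_mem_GenC hp 1) (single_mem_GenC hq 1))
    (by rw [map_sub, deg_single, deg_single, sub_self])

/-- The same for correspondences over a finitely generated algebraic extension. -/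
theorem nil_main (hd : 4 ≤ d) (hF : IsSmoothForm F d) (k : Fl) [Countable k] (hk : clo k = k)
    (hind : AlgebraicIndependent k
      (fun m : {m : Fin 4 →₀ ℕ // m.degree = d} => coeff m.1 F))
    (S : Finset ℂ) (hS : ∀ x ∈ S, x ∈ clo (cof k F)) {n : ℕ} (γ : Fin n → PP → Cy)
    (hγ : ∀ i, IsT (cof k F) (adj (cof k F) S) F (γ i)) (m : Fin n → ℂ)
    (hm : ∀ i, ∀ y ∈ Gen (cof k F) F, ∀ D₁ D₂ : Derivation ℤ ℂ ℂ, Kills (cof k F) D₁ →
      Kills (cof k F) D₂ → ∀ f : MvPolynomial (Fin 4) ℂ, f.IsHomogeneous (d - 4) →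
        tauC F D₁ D₂ f (γ i y) = m i * tau F D₁ D₂ f y) :
    ∃ r : Fin n → ℚ, (∀ i, m i = r i) ∧ ∃ N : ℕ, ∀ word : Fin N → Fin n,
      ∀ p ∈ Gen (cof k F) F, ∀ q ∈ Gen (cof k F) F,
        (List.ofFn fun j => ext (γ (word j)) - r (word j) • LinearMap.id).foldr
          (fun (φ : Cy →ₗ[ℚ] Cy) z => φ z) (Finsupp.single p 1 - Finsupp.single q 1) ∈ ratQ F := by
  have := countable_cof k F
  obtain ⟨K', h1, h2, hSK, hn, l, g, hg, hg'⟩ := exists_normal (cof k F) S hS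
  have hSK' : adj (cof k F) S ≤ K' := adj_le h1 hSK
  obtain ⟨r, hr, N, hN⟩ := ring_main hd hF k hk hind K' h1 h2 hn l g hg hg' γ
    (fun i => ⟨(hγ i).supp, fun σ hσ => (hγ i).equi σ (Fix_mono hSK' hσ)⟩) m hm
  refine ⟨r, hr, N, fun word p hp q hq => ?_⟩
  rw [foldr_apply]
  exact hN word p hp q hq

end Pool.Agent.VGS
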