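import Pool.Agent.VGS.EffTau
import Pool.Agent.VGS.Ring
import Pool.Agent.VGS.Smooth
import Pool.Agent.VGS.Fin0
import Pool.Agent.VGS.FinA

/-! Module Fin: the main theorem. -/

set_option autoImplicit false

open scoped LinearAlgebra.Projectivization
open MvPolynomial

namespace Pool.Agent.VGS

open Pool.Agent.Chow0 (IsChowForm cyc Z0 ratTriv)
open Pool.Agent.LowDeg (surf IsSmoothForm EffCorr IsGenericPoint ActsByScalar)

theorem adjP_mono {L L' : Fl} (h : L ≤ L') (p : PP) : adjP L p ≤ adjP L' p :=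
  adj_le (h.trans (le_adjP L' p)) (subset_adj _ _)

theorem coef_cof_fin (k : Fl) (F : MvPolynomial (Fin 4) ℂ) : Coef (cof k F) F := fun m =>
  subset_adj _ _ ⟨m, rfl⟩

theorem countable_cof_fin (k : Fl) [Countable k] (F : MvPolynomial (Fin 4) ℂ) :
    Countable (cof k F) := by
  unfold cof
  have : Countable (Set.range fun m => coeff m F) := (Set.countable_range _).to_subtype
  infer_instance

/-- an enumeration of the forms over `K` which are not divisible by `F` -/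
theorem exists_enum {F : MvPolynomial (Fin 4) ℂ} {d : ℕ} (hd : 4 ≤ d) (hF : F.IsHomogeneous d)
    (K : Fl) [Countable K] : ∃ D : ℕ → MvPolynomial (Fin 4) ℂ,
      (∀ j, (∃ e, (D j).IsHomogeneous e) ∧ ¬ F ∣ D j) ∧
      ∀ p : surf F, p ∈ veryGen F D ↔ p.1 ∈ Gen K F := by
  set S : Set (MvPolynomial (Fin 4) ℂ) :=
    {G | (∃ e, G.IsHomogeneous e) ∧ Coef K G ∧ ¬ F ∣ G} with hS
  have hcount : S.Countable := by
    have h0 : Countable (MvPolynomial (Fin 4) K) := by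
      have h1 : Cardinal.mk (MvPolynomial (Fin 4) K) ≤ Cardinal.aleph0 := by
        refine (MvPolynomial.cardinalMk_le_max).trans ?_
        exact max_le (max_le Cardinal.mk_le_aleph0 Cardinal.mk_le_aleph0) le_rfl
      exact Cardinal.mk_le_aleph0_iff.mp h1
    refine Set.Countable.mono ?_ (Set.countable_range (MvPolynomial.map (algebraMap K ℂ)))
    rintro G ⟨_, hG, _⟩
    rw [MvPolynomial.mem_range_map_iff_coeffs_subset]
    intro c hc
    obtain ⟨m, _, rfl⟩ := MvPolynomial.mem_coeffs_iff.1 hc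
    exact ⟨⟨_, hG m⟩, rfl⟩
  have hne : S.Nonempty := by
    refine ⟨1, ⟨0, isHomogeneous_one _ _⟩, fun m => ?_, ?_⟩
    · rw [coeff_one]
      split_ifs
      · exact K.one_mem
      · exact K.zero_mem
    · rintro ⟨u, hu⟩
      have h1 := congrArg (constantCoeff : MvPolynomial (Fin 4) ℂ →+* ℂ) hu
      rw [map_one, map_mul] at h1
      have h2 : constantCoeff F = 0 := by
        rw [constantCoeff_eq]
        refine hF.coeff_eq_zero ?_
        rw [map_zero]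
        omega
      rw [h2, zero_mul] at h1
      exact one_ne_zero h1
  obtain ⟨D, hD⟩ := hcount.exists_eq_range hne
  have hDS : ∀ j, D j ∈ S := fun j => hD ▸ Set.mem_range_self j
  refine ⟨D, fun j => ⟨(hDS j).1, (hDS j).2.2⟩, fun p => ⟨fun hp => ⟨p.2, ?_⟩, fun hp j h0 => ?_⟩⟩
  · intro e G hG hGK h0
    by_contra hFG
    have h1 : G ∈ S := ⟨⟨e, hG⟩, hGK, hFG⟩
    rw [hD] at h1
    obtain ⟨j, rfl⟩ := h1
    exact hp j h0
  · obtain ⟨⟨e, he⟩, hK, hn⟩ := hDS j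
    exact hn (hp.2 e (D j) he hK h0)

/-- uniformity of the multiple: independent pairs of generic points are conjugate -/
theorem exists_M {F : MvPolynomial (Fin 4) ℂ} {d : ℕ} (hd : 4 ≤ d) (hF : IsSmoothForm F d)
    (K : Fl) [Countable K] (hFK : Coef K F) {n : ℕ} (ψ : Fin n → AddMonoid.End (Z0 (surf F)))
    (hψ : ∀ i, ∀ z ∈ ZV F (Gen K F), ψ i z ∈ ZV F (Gen K F))
    (hFK' : Coef (clo K) F)
    (hτ : ∀ (σ : ℂ ≃+* ℂ) (hσ : σ ∈ Fix (clo K)) (i : Fin n), ∀ z ∈ ZV F (Gen K F),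
      ψ i (actZ hF.hom hFK' hσ z) = actZ hF.hom hFK' hσ (ψ i z))
    (l : List (Fin n))
    (hrat : ∀ p q : surf F, p.1 ∈ Gen K F → q.1 ∈ Gen K F →
      jz F ((l.map ψ).prod (FreeAbelianGroup.of p - FreeAbelianGroup.of q)) ∈ ratQ F) :
    ∃ M : ℕ, 0 < M ∧ ∀ p q : surf F, p.1 ∈ Gen K F → q.1 ∈ Gen K F →
      M • (l.map ψ).prod (FreeAbelianGroup.of p - FreeAbelianGroup.of q) ∈
        ratTriv (surf F) := by
  have hcoefP : ∀ p : PP, Coef (clo (adjP K p)) F := fun p =>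
    hFK.mono ((le_adjP K p).trans (le_clo _))
  obtain ⟨p0, hp0⟩ := exists_gen hd hF K hFK
  obtain ⟨r0, hr0⟩ := exists_gen hd hF (clo (adjP K p0)) (hcoefP p0)
  have hsub : ∀ p : PP, Gen (clo (adjP K p)) F ⊆ Gen K F := fun p =>
    Gen_anti ((le_adjP K p).trans (le_clo _)) F
  obtain ⟨M, hM, hM0⟩ := exists_mul_mem
    ((l.map ψ).prod (FreeAbelianGroup.of (⟨p0, hp0.1⟩ : surf F) -
      FreeAbelianGroup.of (⟨r0, hr0.1⟩ : surf F)))
    (hrat ⟨p0, hp0.1⟩ ⟨r0, hr0.1⟩ hp0 (hsub p0 hr0))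
  refine ⟨M, hM, ?_⟩
  -- the automorphisms
  have claim1 : ∀ σ : ℂ ≃+* ℂ, σ ∈ Fix (clo K) → ∀ p q p' q' : surf F, p.1 ∈ Gen K F →
      q.1 ∈ Gen K F → act σ p.1 = p'.1 → act σ q.1 = q'.1 →
      M • (l.map ψ).prod (FreeAbelianGroup.of p - FreeAbelianGroup.of q) ∈ ratTriv (surf F) →
      M • (l.map ψ).prod (FreeAbelianGroup.of p' - FreeAbelianGroup.of q') ∈
        ratTriv (surf F) := by
    intro σ hσ p q p' q' hp hq hpp hqq h
    have e1 : FreeAbelianGroup.of p' - FreeAbelianGroup.of q' =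
        actZ hF.hom hFK' hσ (FreeAbelianGroup.of p - FreeAbelianGroup.of q) := by
      rw [map_sub, actZ_of, actZ_of]
      congr 2
      · exact Subtype.ext hpp.symm
      · exact Subtype.ext hqq.symm
    have hz : FreeAbelianGroup.of p - FreeAbelianGroup.of q ∈ ZV F (Gen K F) :=
      AddSubgroup.sub_mem _ (of_mem_ZV hp) (of_mem_ZV hq)
    have e2 := prod_comm ψ hψ (actZ hF.hom hFK' hσ) (fun i z hz => hτ σ hσ i z hz) l hz
    rw [e1, e2, ← map_nsmul]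
    exact actZ_ratTriv hF.hom hFK' hσ h
  have hfixK : ∀ p : PP, Fix (clo (adjP K p)) ≤ Fix (clo K) := fun p =>
    Fix_mono (clo_mono (le_adjP K p))
  have hfixp : ∀ p : PP, ∀ σ ∈ Fix (clo (adjP K p)), act σ p = p := fun p σ hσ =>
    ((over_adjP K p).mono (le_clo _)).act_eq hσ
  have claim2 : ∀ p r : surf F, p.1 ∈ Gen K F → r.1 ∈ Gen (clo (adjP K p.1)) F →
      M • (l.map ψ).prod (FreeAbelianGroup.of p - FreeAbelianGroup.of r) ∈
        ratTriv (surf F) := by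
    intro p r hp hr
    obtain ⟨r1, hr1⟩ := exists_gen hd hF (clo (adjP (adjP K p0) p.1))
      (hFK.mono ((le_adjP K p0).trans ((le_adjP _ _).trans (le_clo _))))
    have h10 : r1 ∈ Gen (clo (adjP K p0)) F := Gen_anti (clo_mono (le_adjP _ _)) F hr1
    have h1p : r1 ∈ Gen (clo (adjP K p.1)) F :=
      Gen_anti (clo_mono (adjP_mono (le_adjP K p0) p.1)) F hr1
    -- step a
    obtain ⟨σ, hσ, hσr⟩ := gen_conj hd hF (clo (adjP K p0)) (hcoefP p0) hr0 h10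
    have ha := claim1 σ (hfixK p0 hσ) ⟨p0, hp0.1⟩ ⟨r0, hr0.1⟩ ⟨p0, hp0.1⟩ ⟨r1, hr1.1⟩ hp0
      (hsub p0 hr0) (hfixp p0 σ hσ) hσr hM0
    -- step b
    have hb0 := gen_symm hd hF K hFK hp0 h10
    have hbp := gen_symm hd hF K hFK hp h1p
    obtain ⟨σ, hσ, hσp⟩ := gen_conj hd hF (clo (adjP K r1)) (hcoefP r1) hb0 hbp
    have hb := claim1 σ (hfixK r1 hσ) ⟨p0, hp0.1⟩ ⟨r1, hr1.1⟩ p ⟨r1, hr1.1⟩ hp0
      (hsub p0 h10) hσp (hfixp r1 σ hσ) ha
    -- step c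
    obtain ⟨σ, hσ, hσr⟩ := gen_conj hd hF (clo (adjP K p.1)) (hcoefP p.1) h1p hr
    exact claim1 σ (hfixK p.1 hσ) p ⟨r1, hr1.1⟩ p r hp (hsub p0 h10) (hfixp p.1 σ hσ) hσr hb
  intro p q hp hq
  obtain ⟨r, hr⟩ := exists_gen hd hF (clo (adjP (adjP K p.1) q.1))
    (hFK.mono ((le_adjP K p.1).trans ((le_adjP _ _).trans (le_clo _))))
  have hrp : r ∈ Gen (clo (adjP K p.1)) F := Gen_anti (clo_mono (le_adjP _ _)) F hr
  have hrq : r ∈ Gen (clo (adjP K q.1)) F :=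
    Gen_anti (clo_mono (adjP_mono (le_adjP K p.1) q.1)) F hr
  have h1 := claim2 p ⟨r, hr.1⟩ hp hrp
  have h2 := claim2 q ⟨r, hr.1⟩ hq hrq
  have e : (FreeAbelianGroup.of p - FreeAbelianGroup.of q : Z0 (surf F)) =
      (FreeAbelianGroup.of p - FreeAbelianGroup.of (⟨r, hr.1⟩ : surf F)) -
        (FreeAbelianGroup.of q - FreeAbelianGroup.of (⟨r, hr.1⟩ : surf F)) := by abel
  rw [e, map_sub, smul_sub]
  exact AddSubgroup.sub_mem _ h1 h2

open Classical in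
/-- the coefficients of the Chow form of a correspondence -/
noncomputable def cfs {Ω : Type} [Field Ω] [Algebra ℂ Ω] {F : MvPolynomial (Fin 4) ℂ}
    {ξ : Fin 4 → Ω} {w : ℕ} (Γ : EffCorr F ξ w) : Finset ℂ :=
  Γ.Φ.support.biUnion fun m => (coeff m Γ.Φ).support.image fun m' => coeff m' (coeff m Γ.Φ)

theorem coefE_of {Ω : Type} [Field Ω] [Algebra ℂ Ω] {F : MvPolynomial (Fin 4) ℂ}
    {ξ : Fin 4 → Ω} {w : ℕ} (Γ : EffCorr F ξ w) {L : Fl} (h : ∀ x ∈ cfs Γ, x ∈ L) :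
    CoefE L Γ := by
  classical
  intro m m'
  by_cases h1 : m ∈ Γ.Φ.support
  · by_cases h2 : m' ∈ (coeff m Γ.Φ).support
    · refine h _ ?_
      unfold cfs
      refine Finset.mem_biUnion.2 ⟨m, h1, ?_⟩
      exact Finset.mem_image_of_mem _ h2
    · rw [notMem_support_iff] at h2
      rw [h2]
      exact L.zero_mem
  · rw [notMem_support_iff] at h1
    rw [h1, coeff_zero]
    exact L.zero_mem

/-- The main theorem, with the ground field. -/
theorem main' (F : MvPolynomial (Fin 4) ℂ) (d : ℕ) (hd : 4 ≤ d) (hF : F.IsHomogeneous d)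
    (hind : AlgebraicIndependent ℚ
      (fun m : {m : Fin 4 →₀ ℕ // m.degree = d} => coeff m.1 F))
    (Ω : Type) [Field Ω] [Algebra ℂ Ω] [IsAlgClosed Ω] (ξ : Fin 4 → Ω)
    (hξ : IsGenericPoint F ξ) (n : ℕ) (w w' : Fin n → ℕ) (Γ : ∀ i, EffCorr F ξ (w i))
    (Γ' : ∀ i, EffCorr F ξ (w' i)) (m : Fin n → ℂ) (hΓ : ∀ i, Dominant (Γ i))
    (hΓ' : ∀ i, Dominant (Γ' i)) (hm : ∀ i, ActsByScalar F (d - 4) (Γ i) (Γ' i) (m i)) :
    ∃ k : Fl, Countable k ∧ clo k = k ∧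
      AlgebraicIndependent k (fun m : {m : Fin 4 →₀ ℕ // m.degree = d} => coeff m.1 F) ∧
      Countable (cof k F) ∧ Coef (cof k F) F ∧
    ∃ (a b : Fin n → ℤ) (N M : ℕ) (D : ℕ → MvPolynomial (Fin 4) ℂ),
      (∀ p : surf F, p ∈ veryGen F D ↔ p.1 ∈ Gen (clo (cof k F)) F) ∧
      (∀ i, 0 < b i ∧ b i * m i = a i) ∧ 0 < M ∧
      (∀ j, (∃ e, (D j).IsHomogeneous e) ∧ ¬ F ∣ D j) ∧
      (∀ i, ∀ p ∈ veryGen F D, ∃ s s' : Multiset (surf F),
        IsChowForm (surf F) ((Γ i).at p.1.rep) s ∧ IsChowForm (surf F) ((Γ' i).at p.1.rep) s' ∧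
        (∀ x ∈ s, x ∈ veryGen F D) ∧ ∀ x ∈ s', x ∈ veryGen F D) ∧
      ∀ φ : Fin n → AddMonoid.End (Z0 (surf F)),
        (∀ i, ActsOn (Γ i) (Γ' i) (veryGen F D) (a i) (b i) (φ i)) →
        ∀ word : Fin N → Fin n, ∀ p ∈ veryGen F D, ∀ q ∈ veryGen F D,
          M • (List.ofFn fun j => φ (word j)).prod
            (FreeAbelianGroup.of p - FreeAbelianGroup.of q) ∈ ratTriv (surf F) := by
  classical
  have hsm : IsSmoothForm F d := smooth_of_algInd (by omega) hF hind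
  -- the ground field
  set S : Finset ℂ := Finset.univ.biUnion fun i => cfs (Γ i) ∪ cfs (Γ' i) with hS
  obtain ⟨k, hk, hkc, hindk, hSk⟩ := exists_ground hind S
  have hKc : Countable (cof k F) := countable_cof_fin k F
  set K : Fl := cof k F with hK
  have hFK : Coef K F := coef_cof_fin k F
  have hFK' : Coef (clo K) F := hFK.mono (le_clo K)
  have hSK : ∀ x ∈ S, x ∈ clo K := hSk
  set K' : Fl := adj K S with hK'
  have hKK' : K ≤ K' := le_adj K _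
  have hK'c : K' ≤ clo K := adj_le (le_clo K) fun x hx => hSK x hx
  have hcf : ∀ i, ∀ x ∈ cfs (Γ i), x ∈ S := fun i x hx =>
    Finset.mem_biUnion.2 ⟨i, Finset.mem_univ i, Finset.mem_union_left _ hx⟩
  have hcf' : ∀ i, ∀ x ∈ cfs (Γ' i), x ∈ S := fun i x hx =>
    Finset.mem_biUnion.2 ⟨i, Finset.mem_univ i, Finset.mem_union_right _ hx⟩
  have hcK : ∀ i, CoefE K' (Γ i) := fun i => coefE_of _ fun x hx => subset_adj K _ (hcf i x hx)
  have hcK' : ∀ i, CoefE K' (Γ' i) := fun i => coefE_of _ fun x hx => subset_adj K _ (hcf' i x hx)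
  have hT : ∀ i, (∀ p ∈ Gen K F, ∃ s : Multiset (surf F),
      IsChowForm (surf F) ((Γ i).at p.rep) s) ∧ IsT K K' F (effT (Γ i)) := fun i =>
    effT_isT hd hsm hξ K K' hFK hKK' hK'c (Γ i) (hcK i) (hΓ i)
  have hT' : ∀ i, (∀ p ∈ Gen K F, ∃ s : Multiset (surf F),
      IsChowForm (surf F) ((Γ' i).at p.rep) s) ∧ IsT K K' F (effT (Γ' i)) := fun i =>
    effT_isT hd hsm hξ K K' hFK hKK' hK'c (Γ' i) (hcK' i) (hΓ' i)
  -- nilpotence with rational coefficients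
  obtain ⟨r, hr, N, hN⟩ := nil_main hd hsm k hkc hindk S hSK
    (fun i p => effT (Γ i) p - effT (Γ' i) p) (fun i => ⟨fun p hp q hq => by
      rcases Finset.mem_union.1 (Finsupp.support_sub hq) with h | h
      · exact (hT i).2.supp p hp q h
      · exact (hT' i).2.supp p hp q h, fun σ hσ p hp => by
      rw [map_sub, (hT i).2.equi σ hσ p hp, (hT' i).2.equi σ hσ p hp]⟩) m
    (fun i y hy D₁ D₂ h1 h2 f hf => effT_tau hd hsm hξ K hFK (Γ i) (Γ' i)
      (fun m' => (hcK i m').mono hK'c) (fun m' => (hcK' i m').mono hK'c) (hm i) y hy D₁ D₂ h1 h2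
      f hf)
  set a : Fin n → ℤ := fun i => (r i).num with ha
  set b : Fin n → ℤ := fun i => (r i).den with hb
  have hbpos : ∀ i, 0 < b i := fun i => by
    change (0 : ℤ) < ((r i).den : ℤ)
    exact_mod_cast (r i).pos
  have hbr : ∀ i, (b i : ℚ) * r i = a i := fun i => by
    rw [ha, hb]
    push_cast
    exact Rat.den_mul_eq_num (r i)
  set ψ : Fin n → AddMonoid.End (Z0 (surf F)) := fun i => ph (Γ i) (Γ' i) (a i) (b i) with hψd
  have hmem : ∀ i, ∀ p ∈ Gen K F, ∀ x ∈ chs (Γ i) p, x.1 ∈ Gen K F := fun i p hp x hx =>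
    (hT i).2.supp p hp x.1 (mem_support_effT (Γ i) p hx)
  have hmem' : ∀ i, ∀ p ∈ Gen K F, ∀ x ∈ chs (Γ' i) p, x.1 ∈ Gen K F := fun i p hp x hx =>
    (hT' i).2.supp p hp x.1 (mem_support_effT (Γ' i) p hx)
  have hψ : ∀ i, ∀ z ∈ ZV F (Gen K F), ψ i z ∈ ZV F (Gen K F) := by
    intro i z hz
    refine ZV_map (phH (Γ i) (Γ' i) (a i) (b i)) (fun p hp => ?_) hz
    rw [phH_of]
    refine AddSubgroup.sub_mem _ (AddSubgroup.zsmul_mem _ (AddSubgroup.sub_mem _ ?_ ?_) _)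
      (AddSubgroup.zsmul_mem _ (of_mem_ZV hp) _)
    · exact cyc_mem_ZV (hmem i p.1 hp)
    · exact cyc_mem_ZV (hmem' i p.1 hp)
  have hτ : ∀ (σ : ℂ ≃+* ℂ) (hσ : σ ∈ Fix (clo K)) (i : Fin n), ∀ z ∈ ZV F (Gen K F),
      ψ i (actZ hsm.hom hFK' hσ z) = actZ hsm.hom hFK' hσ (ψ i z) := by
    intro σ hσ i z hz
    refine ZV_induction ((phH (Γ i) (Γ' i) (a i) (b i)).comp (actZ hsm.hom hFK' hσ))
      ((actZ hsm.hom hFK' hσ).comp (phH (Γ i) (Γ' i) (a i) (b i))) (fun p hp => ?_) hz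
    have hσ' : σ ∈ Fix K' := Fix_mono hK'c hσ
    apply jz_injective
    rw [AddMonoidHom.comp_apply, AddMonoidHom.comp_apply, jz_actZ, actZ_of, jz_phH_of,
      jz_phH_of]
    change b i • (effT (Γ i) (act σ p.1) - effT (Γ' i) (act σ p.1)) -
      a i • (Finsupp.single (act σ p.1) (1 : ℚ) : Cy) = _
    rw [(hT i).2.equi σ hσ' p.1 hp, (hT' i).2.equi σ hσ' p.1 hp, map_sub, map_zsmul, map_zsmul,
      map_sub, actC_single]
  have hrat : ∀ l : List (Fin n), l.length = N → ∀ p q : surf F, p.1 ∈ Gen K F →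
      q.1 ∈ Gen K F →
      jz F ((l.map ψ).prod (FreeAbelianGroup.of p - FreeAbelianGroup.of q)) ∈ ratQ F := by
    intro l hl p q hp hq
    obtain ⟨c, hc⟩ := jz_prod ψ b
      (fun i => ext (fun p => effT (Γ i) p - effT (Γ' i) p) - r i • LinearMap.id)
      (fun i z => jz_ph (Γ i) (Γ' i) (a i) (b i) (r i) (hbr i) z) l
      (FreeAbelianGroup.of p - FreeAbelianGroup.of q)
    rw [hc, map_sub, jz_of, jz_of]
    subst hl
    have h1 := hN (fun j => l.get j) p.1 hp q.1 hq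
    have h2 : (List.ofFn fun j : Fin l.length =>
        ext (fun p => effT (Γ (l.get j)) p - effT (Γ' (l.get j)) p) - r (l.get j) •
          (LinearMap.id : Cy →ₗ[ℚ] Cy)) =
        l.map fun i => ext (fun p => effT (Γ i) p - effT (Γ' i) p) - r i • LinearMap.id := by
      conv_rhs => rw [← List.ofFn_get l, List.map_ofFn]
      rfl
    rw [h2] at h1
    exact zsmul_mem h1 c
  obtain ⟨D, hD, hDG⟩ := exists_enum hd hF K
  -- the multiple
  have hMw : ∀ word : Fin N → Fin n, ∃ M : ℕ, 0 < M ∧ ∀ p q : surf F, p.1 ∈ Gen K F →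
      q.1 ∈ Gen K F → M • ((List.ofFn word).map ψ).prod
        (FreeAbelianGroup.of p - FreeAbelianGroup.of q) ∈ ratTriv (surf F) := fun word =>
    exists_M hd hsm K hFK ψ hψ hFK' hτ (List.ofFn word) (hrat _ (List.length_ofFn))
  choose Mw hMw0 hMw1 using hMw
  refine ⟨k, hk, hkc, hindk, hKc, hFK, a, b, N, ∏ word, Mw word, D, fun p => ?_,
    fun i => ⟨hbpos i, ?_⟩, Finset.prod_pos fun word _ => hMw0 word, hD, ?_, ?_⟩
  · rw [gen_clo hd hsm K hFK]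
    exact hDG p
  · rw [hr i]
    have h1 := congrArg (fun x : ℚ => (x : ℂ)) (hbr i)
    push_cast at h1
    exact h1
  · intro i p hp
    have hp' := (hDG p).1 hp
    refine ⟨chs (Γ i) p.1, chs (Γ' i) p.1, chs_spec _ _ ((hT i).1 p.1 hp'),
      chs_spec _ _ ((hT' i).1 p.1 hp'), fun x hx => (hDG x).2 (hmem i p.1 hp' x hx),
      fun x hx => (hDG x).2 (hmem' i p.1 hp' x hx)⟩
  · intro φ hφ word p hp q hq
    have hp' := (hDG p).1 hp
    have hq' := (hDG q).1 hq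
    have hz : FreeAbelianGroup.of p - FreeAbelianGroup.of q ∈ ZV F (Gen K F) :=
      AddSubgroup.sub_mem _ (of_mem_ZV hp') (of_mem_ZV hq')
    have hφψ : ∀ i, ∀ z ∈ ZV F (Gen K F), φ i z = ψ i z := by
      intro i z hz
      refine ZV_induction (φ i : Z0 (surf F) →+ Z0 (surf F)) (phH (Γ i) (Γ' i) (a i) (b i))
        (fun x hx => ?_) hz
      rw [phH_of]
      exact hφ i x ((hDG x).2 hx) _ _ (chs_spec _ _ ((hT i).1 x.1 hx))
        (chs_spec _ _ ((hT' i).1 x.1 hx))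
    have e1 : (List.ofFn fun j => φ (word j)) = (List.ofFn word).map φ := by
      rw [List.map_ofFn]
      rfl
    rw [e1, (prod_congr φ ψ hφψ hψ (List.ofFn word) hz).1]
    obtain ⟨c, hc⟩ : Mw word ∣ ∏ word, Mw word := Finset.dvd_prod_of_mem _ (Finset.mem_univ word)
    rw [hc, mul_comm, mul_smul]
    exact AddSubgroup.nsmul_mem _ (hMw1 word p q hp' hq') c

/-- The main theorem. -/
theorem main (F : MvPolynomial (Fin 4) ℂ) (d : ℕ) (hd : 4 ≤ d) (hF : F.IsHomogeneous d)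
    (hind : AlgebraicIndependent ℚ
      (fun m : {m : Fin 4 →₀ ℕ // m.degree = d} => coeff m.1 F))
    (Ω : Type) [Field Ω] [Algebra ℂ Ω] [IsAlgClosed Ω] (ξ : Fin 4 → Ω)
    (hξ : IsGenericPoint F ξ) (n : ℕ) (w w' : Fin n → ℕ) (Γ : ∀ i, EffCorr F ξ (w i))
    (Γ' : ∀ i, EffCorr F ξ (w' i)) (m : Fin n → ℂ) (hΓ : ∀ i, Dominant (Γ i))
    (hΓ' : ∀ i, Dominant (Γ' i)) (hm : ∀ i, ActsByScalar F (d - 4) (Γ i) (Γ' i) (m i)) :
    ∃ (a b : Fin n → ℤ) (N M : ℕ) (D : ℕ → MvPolynomial (Fin 4) ℂ),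
      (∀ i, 0 < b i ∧ b i * m i = a i) ∧ 0 < M ∧
      (∀ j, (∃ e, (D j).IsHomogeneous e) ∧ ¬ F ∣ D j) ∧
      (∀ i, ∀ p ∈ veryGen F D, ∃ s s' : Multiset (surf F),
        IsChowForm (surf F) ((Γ i).at p.1.rep) s ∧ IsChowForm (surf F) ((Γ' i).at p.1.rep) s' ∧
        (∀ x ∈ s, x ∈ veryGen F D) ∧ ∀ x ∈ s', x ∈ veryGen F D) ∧
      ∀ φ : Fin n → AddMonoid.End (Z0 (surf F)),
        (∀ i, ActsOn (Γ i) (Γ' i) (veryGen F D) (a i) (b i) (φ i)) →
        ∀ word : Fin N → Fin n, ∀ p ∈ veryGen F D, ∀ q ∈ veryGen F D,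
          M • (List.ofFn fun j => φ (word j)).prod
            (FreeAbelianGroup.of p - FreeAbelianGroup.of q) ∈ ratTriv (surf F) := by
  obtain ⟨k, _, _, _, _, _, a, b, N, M, D, _, h⟩ := main' F d hd hF hind Ω ξ hξ n w w' Γ Γ' m hΓ hΓ' hm
  exact ⟨a, b, N, M, D, h⟩

end Pool.Agent.VGS
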