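import Pool.Agent.VGS.Move0
import Pool.Agent.VGS.CloM
import Pool.Agent.VGS.Tau
import Pool.Agent.Chow0.Pencil

/-! Module Move: every point is rationally equivalent to a combination of generic points. -/

set_option autoImplicit false

open scoped LinearAlgebra.Projectivization
open MvPolynomial

namespace Pool.Agent.VGS

open Pool.Agent.Chow0 (IsChowForm IsLink cyc Z0 ratTriv deg CH0 IsRep spec cl)
open Pool.Agent.LowDeg (surf IsSmoothForm)

variable {F : MvPolynomial (Fin 4) ℂ} {d : ℕ}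

/-! ### transcendence degrees -/

theorem mv_coef_X {L : Fl} {ι : Type} (i : ι) : Coef L (X i : MvPolynomial ι ℂ) := by
  classical
  intro m
  rw [coeff_X]
  split_ifs
  · exact L.one_mem
  · exact L.zero_mem

/-- four elements algebraic over three are not independent -/
theorem mv_trd {L : Fl} {v : Fin 4 → ℂ} (hv : AlgebraicIndependent L v) {w s r : ℂ}
    (h : ∀ i, v i ∈ clo (adj L {w, s, r})) : False := by
  have h1 : AlgebraicIndependent L ![w, s, r, 0] := by
    refine ai_card hv le_rfl fun i => ?_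
    refine clo_mono (adj_le (le_adj _ _) ?_) (h i)
    rintro y (rfl | rfl | rfl)
    · exact subset_adj _ _ ⟨0, rfl⟩
    · exact subset_adj _ _ ⟨1, rfl⟩
    · exact subset_adj _ _ ⟨2, rfl⟩
  have h2 := ai_iff.1 h1 (X 3) (mv_coef_X 3) (by rw [aeval_X]; rfl)
  exact X_ne_zero 3 h2

theorem mv_ne {L : Fl} {v c : Fin 4 → ℂ} (hv : AlgebraicIndependent L v) (hc : ∀ i, c i ∈ L)
    {α β : ℂ} (hβ : β ≠ 0) {p : Fin 4 → ℂ} (hp : ∀ i, p i = α * c i + β * v i) : p ≠ 0 := by
  intro h0
  refine mv_trd hv (w := α / β) (s := 0) (r := 0) fun i => ?_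
  have h1 : v i = -(α / β) * c i := by
    have h2 := hp i
    rw [h0, Pi.zero_apply] at h2
    field_simp
    linear_combination -h2
  rw [h1]
  refine le_clo _ (mul_mem (neg_mem (subset_adj _ _ ?_)) (le_adj _ _ (hc i)))
  exact Set.mem_insert _ _

/-- a point of the surface in the span of `c` (over `L`) and `v` (independent over `L`) -/
theorem mv_gen (hd : 4 ≤ d) (hF : IsSmoothForm F d) (K : Fl) {L : Fl} [Countable K]
    (hFK : Coef K F) (hKL : K ≤ L) {v c : Fin 4 → ℂ} (hv : AlgebraicIndependent L v)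
    (hc : ∀ i, c i ∈ L) {α β : ℂ} (hβ : β ≠ 0) {p : Fin 4 → ℂ}
    (hp : ∀ i, p i = α * c i + β * v i) (hp0 : p ≠ 0) (hpF : aeval p F = 0) :
    Projectivization.mk ℂ p hp0 ∈ Gen K F := by
  by_contra hn
  have hs : (Projectivization.mk ℂ p hp0 : PP) ∈ surf F := (mem_surf_mk hF.hom hp0).2 hpF
  obtain ⟨z, hz, i, hzi, he⟩ := exists_nrm (Projectivization.mk ℂ p hp0)
  obtain ⟨μ, hμ, hμz⟩ := (mk_eq_mk_iff_exists hp0 hz).1 he
  rw [he] at hn hs
  obtain ⟨w, hw⟩ : ∃ w, ∀ j, z j ∈ clo (adj K {w}) := by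
    by_cases h : ∃ w ∈ adjP K (Projectivization.mk ℂ z hz), w ∉ clo K
    · obtain ⟨w, hw, hw'⟩ := h
      exact ⟨w, (over_mk hz hzi).1 (not_gen hd hF K hFK hs hn hw hw')⟩
    · push Not at h
      refine ⟨0, fun j => clo_mono (le_adj K {0}) (h _ ?_)⟩
      rw [adjP_mk hz hzi]
      exact subset_adj _ _ ⟨j, rfl⟩
  refine mv_trd hv (w := w) (s := μ / β) (r := α / β) fun j => ?_
  have h1 : v j = μ / β * z j - α / β * c j := by
    have h2 := hp j
    rw [hμz j] at h2
    field_simp
    linear_combination -h2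
  rw [h1]
  have hin : ∀ y ∈ ({w, μ / β, α / β} : Set ℂ), y ∈ clo (adj L {w, μ / β, α / β}) := fun y hy =>
    le_clo _ (subset_adj _ _ hy)
  refine sub_mem (mul_mem (hin _ (by simp)) ?_) (mul_mem (hin _ (by simp))
    (le_clo _ (le_adj _ _ (hc j))))
  refine clo_mono (adj_le (hKL.trans (le_adj _ _)) ?_) (hw j)
  rintro y rfl
  exact subset_adj _ _ (by simp)

/-! ### the restriction of a form to a line -/

theorem mv_line {R : Type} [CommRing R] [Algebra ℂ R] (hF : F.IsHomogeneous d)
    (a b : Fin 4 → R) :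
    (aeval (fun i => Polynomial.C (a i) + Polynomial.X * Polynomial.C (b i)) F :
      Polynomial R).natDegree ≤ d ∧
    (aeval (fun i => Polynomial.C (a i) + Polynomial.X * Polynomial.C (b i)) F :
      Polynomial R).coeff d = aeval b F := by
  have h1 : ∀ i, (Polynomial.C (a i) + Polynomial.X * Polynomial.C (b i)).natDegree ≤ 1 := by
    intro i
    refine (Polynomial.natDegree_add_le _ _).trans (max_le ?_ ?_)
    · rw [Polynomial.natDegree_C]
      exact Nat.zero_le _
    · rw [mul_comm]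
      exact (Polynomial.natDegree_C_mul_le _ _).trans Polynomial.natDegree_X_le
  have h2 : ∀ i, (Polynomial.C (a i) + Polynomial.X * Polynomial.C (b i)).coeff 1 = b i := by
    intro i
    rw [Polynomial.coeff_add, Polynomial.coeff_C_of_ne_zero one_ne_zero, Polynomial.coeff_X_mul,
      Polynomial.coeff_C_zero, zero_add]
  have h3 : ∀ (i : Fin 4) (n : ℕ),
      ((Polynomial.C (a i) + Polynomial.X * Polynomial.C (b i)) ^ n).natDegree ≤ n := by
    intro i n
    have := Polynomial.natDegree_pow_le_of_le n (h1 i)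
    rwa [mul_one] at this
  have h4 : ∀ (i : Fin 4) (n : ℕ),
      ((Polynomial.C (a i) + Polynomial.X * Polynomial.C (b i)) ^ n).coeff n = b i ^ n := by
    intro i n
    have := Polynomial.coeff_pow_of_natDegree_le (m := n) (h1 i)
    rwa [mul_one, h2] at this
  have h5 : ∀ m : Fin 4 →₀ ℕ,
      (∏ i, (Polynomial.C (a i) + Polynomial.X * Polynomial.C (b i)) ^ m i).natDegree ≤
        m.degree ∧
      (∏ i, (Polynomial.C (a i) + Polynomial.X * Polynomial.C (b i)) ^ m i).coeff m.degree =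
        ∏ i, b i ^ m i := by
    intro m
    have hdeg : m.degree = m 0 + m 1 + m 2 + m 3 := by
      rw [Finsupp.degree_eq_sum, Fin.sum_univ_four]
    rw [hdeg, Fin.prod_univ_four, Fin.prod_univ_four]
    have e1 := Polynomial.natDegree_mul_le_of_le (h3 0 (m 0)) (h3 1 (m 1))
    have e2 := Polynomial.natDegree_mul_le_of_le e1 (h3 2 (m 2))
    have e3 := Polynomial.natDegree_mul_le_of_le e2 (h3 3 (m 3))
    refine ⟨e3, ?_⟩
    rw [Polynomial.coeff_mul_add_eq_of_natDegree_le e2 (h3 3 (m 3)),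
      Polynomial.coeff_mul_add_eq_of_natDegree_le e1 (h3 2 (m 2)),
      Polynomial.coeff_mul_add_eq_of_natDegree_le (h3 0 (m 0)) (h3 1 (m 1)), h4, h4, h4, h4]
  have h6 : ∀ m ∈ F.support, m.degree = d := by
    intro m hm
    by_contra hc
    exact (mem_support_iff.1 hm) (hF.coeff_eq_zero hc)
  rw [aeval_def, eval₂_eq']
  constructor
  · refine Polynomial.natDegree_sum_le_of_forall_le _ _ fun m hm => ?_
    rw [Polynomial.algebraMap_apply]
    refine (Polynomial.natDegree_C_mul_le _ _).trans ?_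
    rw [← h6 m hm]
    exact (h5 m).1
  · rw [Polynomial.finsetSum_coeff, aeval_def, eval₂_eq']
    refine Finset.sum_congr rfl fun m hm => ?_
    rw [Polynomial.algebraMap_apply, Polynomial.coeff_C_mul, ← h6 m hm, (h5 m).2]

theorem mv_eval (f : Fin 4 → Polynomial ℂ) (G : MvPolynomial (Fin 4) ℂ) (u : ℂ) :
    (aeval f G).eval u = aeval (fun i => (f i).eval u) G := by
  have h1 := MvPolynomial.map_aeval f (Polynomial.evalRingHom u) G
  have h2 : (Polynomial.evalRingHom u).comp (algebraMap ℂ (Polynomial ℂ)) = algebraMap ℂ ℂ := by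
    ext c
    simp
  rw [h2] at h1
  exact h1

theorem mv_eval2 (f : Fin 4 → Polynomial (Polynomial ℂ)) (G : MvPolynomial (Fin 4) ℂ) (t u : ℂ) :
    (spec t (aeval f G)).eval u = aeval (fun i => (spec t (f i)).eval u) G := by
  have h1 := MvPolynomial.map_aeval f ((Polynomial.evalRingHom u).comp
    (Polynomial.mapRingHom (Polynomial.evalRingHom t))) G
  have h2 : ((Polynomial.evalRingHom u).comp
      (Polynomial.mapRingHom (Polynomial.evalRingHom t))).comp
        (algebraMap ℂ (Polynomial (Polynomial ℂ))) = algebraMap ℂ ℂ := by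
    ext c
    simp [Polynomial.algebraMap_apply]
  rw [h2] at h1
  exact h1

theorem mv_chain (f : Fin 4 → Polynomial ℂ) (G : MvPolynomial (Fin 4) ℂ) :
    Polynomial.derivative (aeval f G) =
      ∑ i, aeval f (pderiv i G) * Polynomial.derivative (f i) := by
  classical
  induction G using MvPolynomial.induction_on with
  | C c =>
    rw [aeval_C, Polynomial.algebraMap_apply, Polynomial.derivative_C, Finset.sum_eq_zero]
    intro i _
    rw [pderiv_C, map_zero, zero_mul]
  | add p q hp hq =>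
    rw [map_add, Polynomial.derivative_add, hp, hq, ← Finset.sum_add_distrib]
    refine Finset.sum_congr rfl fun i _ => ?_
    rw [map_add, map_add, add_mul]
  | mul_X p n hp =>
    rw [map_mul, aeval_X, Polynomial.derivative_mul, hp, Finset.sum_mul]
    have h1 : ∀ i, aeval f (pderiv i (p * X n)) * Polynomial.derivative (f i) =
        aeval f (pderiv i p) * Polynomial.derivative (f i) * f n +
          (if i = n then aeval f p * Polynomial.derivative (f n) else 0) := by
      intro i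
      rw [pderiv_mul, pderiv_X, map_add, map_mul, map_mul, aeval_X]
      by_cases h : i = n
      · subst h
        rw [Pi.single_eq_same, if_pos rfl, map_one]
        ring
      · rw [Pi.single_eq_of_ne (Ne.symm h), if_neg h, map_zero]
        ring
    rw [Finset.sum_congr rfl fun i _ => h1 i, Finset.sum_add_distrib,
      Finset.sum_ite_eq' Finset.univ n, if_pos (Finset.mem_univ n)]

/-! ### multisets of points -/

theorem mv_rel {P : surf F → Prop} {g : ℂ → Fin 4 → ℂ} (r : Multiset ℂ)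
    (h : ∀ u ∈ r, ∃ p : surf F, IsRep (g u) p.1 ∧ P p) :
    ∃ s : Multiset (surf F), Multiset.Rel (fun u (p : surf F) => IsRep (g u) p.1) r s ∧
      ∀ p ∈ s, P p := by
  induction r using Multiset.induction_on with
  | empty => exact ⟨0, Multiset.Rel.zero, fun p hp => absurd hp (Multiset.notMem_zero p)⟩
  | cons u r ih =>
    obtain ⟨s, hs, hs'⟩ := ih fun v hv => h v (Multiset.mem_cons_of_mem hv)
    obtain ⟨p, hp, hp'⟩ := h u (Multiset.mem_cons_self u r)
    refine ⟨p ::ₘ s, Multiset.Rel.cons hp hs, fun q hq => ?_⟩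
    rcases Multiset.mem_cons.1 hq with rfl | hq
    · exact hp'
    · exact hs' q hq

/-- (Lines: `L₀` through `x` with a generic direction, `L₁` generic.) -/
theorem exists_move (hd : 4 ≤ d) (hF : IsSmoothForm F d) (K : Fl) [Countable K]
    (hFK : Coef K F) (x : surf F) :
    ∃ s t : Multiset (surf F), (∀ p ∈ s, p.1 ∈ Gen K F) ∧ (∀ p ∈ t, p.1 ∈ Gen K F) ∧
      FreeAbelianGroup.of x + cyc s - cyc t ∈ ratTriv (surf F) := by
  classical
  obtain ⟨a₀, ha₀⟩ : ∃ a₀ : Fin 4 → ℂ, a₀ = x.1.rep := ⟨_, rfl⟩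
  have ha₀0 : a₀ ≠ 0 := by rw [ha₀]; exact x.1.rep_nonzero
  have ha₀x : Projectivization.mk ℂ a₀ ha₀0 = x.1 := by
    subst ha₀
    exact Projectivization.mk_rep _
  have ha₀F : aeval a₀ F = 0 := by rw [ha₀]; exact x.2
  obtain ⟨K₁, hK₁⟩ : ∃ K₁ : Fl, K₁ = adj K (Set.range a₀) := ⟨_, rfl⟩
  have hK₁c : Countable K₁ := by
    rw [hK₁]
    infer_instance
  have hKK₁ : K ≤ K₁ := by rw [hK₁]; exact le_adj _ _
  have ha₀K : ∀ i, a₀ i ∈ K₁ := fun i => by rw [hK₁]; exact subset_adj _ _ ⟨i, rfl⟩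
  obtain ⟨b₀, hb₀⟩ := exists_algInd K₁ 4
  obtain ⟨b₁, hb₁⟩ := exists_algInd K₁ 4
  obtain ⟨K₂, hK₂⟩ : ∃ K₂ : Fl, K₂ = adj K₁ (Set.range b₁) := ⟨_, rfl⟩
  have hK₂c : Countable K₂ := by
    rw [hK₂]
    infer_instance
  have hK₁K₂ : K₁ ≤ K₂ := by rw [hK₂]; exact le_adj _ _
  have hb₁K : ∀ i, b₁ i ∈ K₂ := fun i => by rw [hK₂]; exact subset_adj _ _ ⟨i, rfl⟩
  obtain ⟨a₁, ha₁⟩ := exists_algInd K₂ 4
  -- the form is not zero
  obtain ⟨i₀, hi₀⟩ := hF.smooth a₀ ha₀0 ha₀F
  have hF0 : F ≠ 0 := by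
    rintro rfl
    rw [map_zero, map_zero] at hi₀
    exact hi₀ rfl
  have hFb₀ : aeval b₀ F ≠ 0 := fun h => hF0 (ai_iff.1 hb₀ F (hFK.mono hKK₁) h)
  have hFb₁ : aeval b₁ F ≠ 0 := fun h => hF0 (ai_iff.1 hb₁ F (hFK.mono hKK₁) h)
  -- the line through `x` is transversal at `x`
  have htr : ∑ i, aeval a₀ (pderiv i F) * b₀ i ≠ 0 := by
    intro h0
    have h1 : (∑ i, C (aeval a₀ (pderiv i F)) * X i : MvPolynomial (Fin 4) ℂ) = 0 := by
      refine ai_iff.1 hb₀ _ ?_ ?_
      · intro m
        rw [coeff_sum]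
        refine sum_mem fun i _ => ?_
        rw [coeff_C_mul]
        exact mul_mem (aeval_mem ((hFK.pderiv i).mono hKK₁) ha₀K) (mv_coef_X i m)
      · rw [map_sum, ← h0]
        refine Finset.sum_congr rfl fun i _ => ?_
        rw [map_mul, aeval_C, aeval_X]
        rfl
    have h2 := congrArg (coeff (Finsupp.single i₀ 1)) h1
    rw [coeff_sum, Finset.sum_eq_single i₀, coeff_C_mul, coeff_X, if_pos rfl, mul_one,
      coeff_zero] at h2
    · exact hi₀ h2
    · intro j _ hj
      rw [coeff_C_mul, coeff_X, if_neg, mul_zero]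
      intro h
      exact hj ((Finsupp.single_left_inj one_ne_zero).1 h)
    · intro h
      exact absurd (Finset.mem_univ i₀) h
  -- the pencil
  obtain ⟨A, hA⟩ : ∃ A : Fin 4 → Polynomial ℂ, ∀ i, A i =
      Polynomial.C (a₀ i) + Polynomial.X * Polynomial.C (a₁ i - a₀ i) := ⟨_, fun _ => rfl⟩
  obtain ⟨B, hB⟩ : ∃ B : Fin 4 → Polynomial ℂ, ∀ i, B i =
      Polynomial.C (b₀ i) + Polynomial.X * Polynomial.C (b₁ i - b₀ i) := ⟨_, fun _ => rfl⟩
  obtain ⟨H, hH⟩ : ∃ H : Fin 4 → Polynomial (Polynomial ℂ), H = fun i =>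
      Polynomial.C (A i) + Polynomial.X * Polynomial.C (B i) := ⟨_, rfl⟩
  have hspec : ∀ t u i, (spec t (H i)).eval u =
      (a₀ i + t * (a₁ i - a₀ i)) + u * (b₀ i + t * (b₁ i - b₀ i)) := by
    intro t u i
    rw [hH, spec]
    simp [hA, hB]
  obtain ⟨hQd, hQc⟩ := mv_line hF.hom A B
  rw [← hH] at hQd hQc
  have hHd : ∀ i, (H i).natDegree ≤ 1 := by
    intro i
    rw [hH]
    refine (Polynomial.natDegree_add_le _ _).trans (max_le ?_ ?_)
    · rw [Polynomial.natDegree_C]
      exact Nat.zero_le _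
    · rw [mul_comm]
      exact (Polynomial.natDegree_C_mul_le _ _).trans Polynomial.natDegree_X_le
  have hc0 : ((aeval H F : Polynomial (Polynomial ℂ)).coeff d).eval 0 ≠ 0 := by
    rw [hQc, mv_eval]
    have : (fun i => (B i).eval 0) = b₀ := by
      funext i
      rw [hB]
      simp
    rw [this]
    exact hFb₀
  have hc1 : ((aeval H F : Polynomial (Polynomial ℂ)).coeff d).eval 1 ≠ 0 := by
    rw [hQc, mv_eval]
    have : (fun i => (B i).eval 1) = b₁ := by
      funext i
      rw [hB]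
      simp
    rw [this]
    exact hFb₁
  have hS : ∀ t u : ℂ, (spec t (aeval H F)).eval u = 0 →
      ∀ hv : (fun i => (spec t (H i)).eval u) ≠ 0, Projectivization.mk ℂ _ hv ∈ surf F := by
    intro t u h hv
    rw [mv_eval2] at h
    exact (mem_surf_mk hF.hom hv).2 h
  -- the member at `0`
  have hq0 : spec 0 (aeval H F) = aeval
      (fun i => Polynomial.C (a₀ i) + Polynomial.X * Polynomial.C (b₀ i)) F := by
    refine Polynomial.funext fun u => ?_
    rw [mv_eval2, mv_eval]
    refine congrArg (fun z => aeval z F) (funext fun i => ?_)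
    rw [hspec, Polynomial.eval_add, Polynomial.eval_mul, Polynomial.eval_X, Polynomial.eval_C,
      Polynomial.eval_C]
    ring
  obtain ⟨q, hq⟩ : ∃ q : Polynomial ℂ, q = aeval
      (fun i => Polynomial.C (a₀ i) + Polynomial.X * Polynomial.C (b₀ i)) F := ⟨_, rfl⟩
  have hq0' : q ≠ 0 := by
    intro h0
    have h1 := (mv_line hF.hom a₀ b₀).2
    rw [← hq, h0, Polynomial.coeff_zero] at h1
    exact hFb₀ h1.symm
  have hqe : ∀ u, q.eval u = aeval (fun i => a₀ i + u * b₀ i) F := by
    intro u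
    rw [hq, mv_eval]
    refine congrArg (fun z => aeval z F) (funext fun i => ?_)
    rw [Polynomial.eval_add, Polynomial.eval_mul, Polynomial.eval_X, Polynomial.eval_C,
      Polynomial.eval_C]
  have hqr : (0 : ℂ) ∈ q.roots := by
    rw [Polynomial.mem_roots hq0', Polynomial.IsRoot.def, hqe]
    have : (fun i => a₀ i + 0 * b₀ i) = a₀ := by
      funext i
      ring
    rw [this]
    exact ha₀F
  have hqd : (Polynomial.derivative q).eval 0 ≠ 0 := by
    rw [hq, mv_chain, Polynomial.eval_finsetSum]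
    have : ∀ i, (aeval (fun i => Polynomial.C (a₀ i) + Polynomial.X * Polynomial.C (b₀ i))
        (pderiv i F) * Polynomial.derivative
          (Polynomial.C (a₀ i) + Polynomial.X * Polynomial.C (b₀ i)) : Polynomial ℂ).eval 0 =
        aeval a₀ (pderiv i F) * b₀ i := by
      intro i
      rw [Polynomial.eval_mul, mv_eval]
      congr 1
      · refine congrArg (fun z => aeval z (pderiv i F)) (funext fun j => ?_)
        simp
      · simp
    rw [Finset.sum_congr rfl fun i _ => this i]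
    exact htr
  obtain ⟨r, hr⟩ := Multiset.exists_cons_of_mem hqr
  have hr0 : (0 : ℂ) ∉ r := by
    intro h0
    have h1 : 2 ≤ q.rootMultiplicity 0 := by
      rw [← Polynomial.count_roots, hr, Multiset.count_cons_self]
      have := Multiset.one_le_count_iff_mem.2 h0
      omega
    have h2 := (Polynomial.one_lt_rootMultiplicity_iff_isRoot hq0').1 (by omega :
      1 < q.rootMultiplicity 0)
    exact hqd h2.2
  obtain ⟨s, hs, hs'⟩ := mv_rel (F := F) (P := fun p => p.1 ∈ Gen K F)
    (g := fun u i => (spec 0 (H i)).eval u) r (by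
      intro u hu
      have hu0 : u ≠ 0 := by
        rintro rfl
        exact hr0 hu
      have hroot : q.eval u = 0 := by
        have h1 : u ∈ q.roots := by
          rw [hr]
          exact Multiset.mem_cons_of_mem hu
        exact (Polynomial.mem_roots'.1 h1).2
      have hp : ∀ i, (fun i => (spec 0 (H i)).eval u) i = 1 * a₀ i + u * b₀ i := by
        intro i
        beta_reduce
        rw [hspec]
        ring
      have hp0 := mv_ne hb₀ ha₀K hu0 hp
      have hpF : aeval (fun i => (spec 0 (H i)).eval u) F = 0 := by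
        refine Eq.trans (congrArg (fun z => aeval z F) (funext fun i => ?_))
          ((hqe u).symm.trans hroot)
        rw [hspec]
        ring
      refine ⟨⟨Projectivization.mk ℂ _ hp0, (mem_surf_mk hF.hom hp0).2 hpF⟩, ⟨hp0, rfl⟩, ?_⟩
      exact mv_gen hd hF K hFK hKK₁ hb₀ ha₀K hu0 hp hp0 hpF)
  have hs0 : Multiset.Rel (fun u (p : surf F) => IsRep (fun i => (spec 0 (H i)).eval u) p.1)
      (spec 0 (aeval H F)).roots (x ::ₘ s) := by
    rw [hq0, ← hq, hr]
    refine Multiset.Rel.cons ?_ hs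
    have h1 : (fun i => (spec 0 (H i)).eval 0) = a₀ := by
      funext i
      rw [hspec]
      ring
    rw [h1]
    exact ⟨ha₀0, ha₀x⟩
  -- the member at `1`
  obtain ⟨t, ht, ht'⟩ := mv_rel (F := F) (P := fun p => p.1 ∈ Gen K F)
    (g := fun u i => (spec 1 (H i)).eval u) (spec 1 (aeval H F)).roots (by
      intro u hu
      have hroot := (Polynomial.mem_roots'.1 hu).2
      rw [Polynomial.IsRoot.def, mv_eval2] at hroot
      have hp : ∀ i, (fun i => (spec 1 (H i)).eval u) i = u * b₁ i + 1 * a₁ i := by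
        intro i
        beta_reduce
        rw [hspec]
        ring
      have hp0 := mv_ne ha₁ hb₁K one_ne_zero hp
      refine ⟨⟨Projectivization.mk ℂ _ hp0, (mem_surf_mk hF.hom hp0).2 hroot⟩, ⟨hp0, rfl⟩, ?_⟩
      exact mv_gen hd hF K hFK (hKK₁.trans hK₁K₂) ha₁ hb₁K one_ne_zero hp hp0 hroot)
  have key : cl (x ::ₘ s) = cl t := Chow0.cl_eq_of_pencil hQd hHd hS hc0 hc1 hs0 ht
  refine ⟨s, t, hs', ht', ?_⟩
  rw [← Chow0.mk_cyc, ← Chow0.mk_cyc, QuotientAddGroup.eq] at key
  have h1 := (ratTriv (surf F)).neg_mem key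
  have h2 : cyc (x ::ₘ s) = FreeAbelianGroup.of x + cyc s := by simp [cyc]
  rw [h2] at h1
  have h3 : FreeAbelianGroup.of x + cyc s - cyc t =
      -(-(FreeAbelianGroup.of x + cyc s) + cyc t) := by abel
  rw [h3]
  exact h1

end Pool.Agent.VGS
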