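import Pool.Agent.VGS.Fin
import Pool.Agent.VGS.Move

/-! Module Final: the main theorem for all classes of degree zero. -/

set_option autoImplicit false

open scoped LinearAlgebra.Projectivization
open MvPolynomial

namespace Pool.Agent.VGS

open Pool.Agent.Chow0 (IsChowForm cyc Z0 ratTriv)
open Pool.Agent.LowDeg (surf IsSmoothForm EffCorr IsGenericPoint ActsByScalar)

/-- The zero-cycles of degree zero supported on `V`. -/
def degZero {F : MvPolynomial (Fin 4) ℂ} (V : Set (surf F)) : AddSubgroup (Z0 (surf F)) :=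
  AddSubgroup.closure {y | ∃ p ∈ V, ∃ q ∈ V, y = FreeAbelianGroup.of p - FreeAbelianGroup.of q}

theorem main_final (F : MvPolynomial (Fin 4) ℂ) (d : ℕ) (hd : 4 ≤ d) (hF : F.IsHomogeneous d)
    (hind : AlgebraicIndependent ℚ
      (fun m : {m : Fin 4 →₀ ℕ // m.degree = d} => coeff m.1 F))
    (Ω : Type) [Field Ω] [Algebra ℂ Ω] [IsAlgClosed Ω] (ξ : Fin 4 → Ω)
    (hξ : IsGenericPoint F ξ) (n : ℕ) (w w' : Fin n → ℕ) (Γ : ∀ i, EffCorr F ξ (w i))
    (Γ' : ∀ i, EffCorr F ξ (w' i)) (m : Fin n → ℂ) (hΓ : ∀ i, Dominant (Γ i))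
    (hΓ' : ∀ i, Dominant (Γ' i)) (hm : ∀ i, ActsByScalar F (d - 4) (Γ i) (Γ' i) (m i)) :
    ∃ (a b : Fin n → ℤ) (N M : ℕ) (D : ℕ → MvPolynomial (Fin 4) ℂ),
      (∀ i, 0 < b i ∧ b i * m i = a i) ∧ 0 < M ∧
      (∀ j, (∃ e, (D j).IsHomogeneous e) ∧ ¬ F ∣ D j) ∧
      (∀ i, ∀ p ∈ veryGen F D, ∃ s s' : Multiset (surf F),
        IsChowForm (surf F) ((Γ i).at p.1.rep) s ∧ IsChowForm (surf F) ((Γ' i).at p.1.rep) s' ∧
        (∀ x ∈ s, x ∈ veryGen F D) ∧ ∀ x ∈ s', x ∈ veryGen F D) ∧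
      (∀ z : Z0 (surf F), Pool.Agent.Chow0.deg z = 0 → ∃ y ∈ degZero (veryGen F D), z - y ∈ ratTriv (surf F)) ∧
      ∀ φ : Fin n → AddMonoid.End (Z0 (surf F)),
        (∀ i, ActsOn (Γ i) (Γ' i) (veryGen F D) (a i) (b i) (φ i)) →
        ∀ word : Fin N → Fin n, ∀ y ∈ degZero (veryGen F D),
          M • (List.ofFn fun j => φ (word j)).prod y ∈ ratTriv (surf F) := by
  have hsm : IsSmoothForm F d := smooth_of_algInd (by omega) hF hind
  obtain ⟨k, hk, hkc, hindk, hKc, hFK, a, b, N, M, D, hD, hab, hM, hDj, hch, hφ⟩ :=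
    main' F d hd hF hind Ω ξ hξ n w w' Γ Γ' m hΓ hΓ' hm
  refine ⟨a, b, N, M, D, hab, hM, hDj, hch, ?_, ?_⟩
  · intro z hz
    refine move_deg (V := veryGen F D) ?_ hz
    intro x
    obtain ⟨s, t, hs, ht, h⟩ := exists_move hd hsm (clo (cof k F)) (hFK.mono (le_clo _)) x
    exact ⟨s, t, fun p hp => (hD p).2 (hs p hp), fun p hp => (hD p).2 (ht p hp), h⟩
  · intro φ hφ' word y hy
    refine AddSubgroup.closure_induction (p := fun y _ =>
      M • (List.ofFn fun j => φ (word j)).prod y ∈ ratTriv (surf F)) ?_ ?_ ?_ ?_ hy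
    · rintro y ⟨p, hp, q, hq, rfl⟩
      exact hφ φ hφ' word p hp q hq
    · rw [map_zero, smul_zero]; exact AddSubgroup.zero_mem _
    · intro x y _ _ hx hy
      rw [map_add, smul_add]; exact AddSubgroup.add_mem _ hx hy
    · intro x _ hx
      rw [map_neg, smul_neg]; exact AddSubgroup.neg_mem _ hx

end Pool.Agent.VGS
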