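import Pool.Agent.VGS.FrameDefs
import Pool.Agent.VGS.GenP

/-! Module FrameA: existence of frames (section 1.1, claims A - D). -/

set_option autoImplicit false

open scoped LinearAlgebra.Projectivization
open MvPolynomial

namespace Pool.Agent.VGS.FrA

open Pool.Agent.LowDeg (surf IsSmoothForm)

/-! ### algebraic independence -/

theorem adj_eq (L : Fl) (S : Set ℂ) :
    adj L S = (IntermediateField.adjoin L S).restrictScalars ℚ := by
  apply le_antisymm
  · refine adj_le (fun x hx => ?_) (IntermediateField.subset_adjoin L S)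
    exact (IntermediateField.adjoin L S).algebraMap_mem ⟨x, hx⟩
  · intro x hx
    have h1 : IntermediateField.adjoin L S ≤ IntermediateField.extendScalars (le_adj L S) := by
      rw [IntermediateField.adjoin_le_iff]
      exact subset_adj L S
    exact h1 hx

theorem mem_clo_adj {L : Fl} {S : Set ℂ} {x : ℂ} :
    x ∈ clo (adj L S) ↔ IsAlgebraic (Algebra.adjoin L S) x := by
  rw [mem_clo, adj_eq, ← IntermediateField.isAlgebraic_adjoin_iff]
  exact Iff.rfl

theorem algInd_adj {L : Fl} {S : Set ℂ} {ι : Type} {x : ι → ℂ} :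
    AlgebraicIndependent (adj L S) x ↔ AlgebraicIndependent (Algebra.adjoin L S) x := by
  rw [adj_eq, ← IntermediateField.algebraicIndependent_adjoin_iff]
  exact Iff.rfl

theorem algInd_sum {L : Fl} {ι κ : Type} {x : ι → ℂ} {y : κ → ℂ} :
    AlgebraicIndependent L (Sum.elim y x) ↔
      AlgebraicIndependent L x ∧ AlgebraicIndependent (adj L (Set.range x)) y := by
  rw [algInd_adj]
  exact AlgebraicIndependent.sumElim_iff

theorem coef_iff_range {L : Fl} {ι : Type} {P : MvPolynomial ι ℂ} :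
    Coef L P ↔ ∃ P₀ : MvPolynomial ι L, MvPolynomial.map (algebraMap L ℂ) P₀ = P := by
  constructor
  · intro h
    refine ⟨∑ m ∈ P.support, monomial m ⟨coeff m P, h m⟩, ?_⟩
    rw [map_sum]
    conv_rhs => rw [P.as_sum]
    refine Finset.sum_congr rfl fun m _ => ?_
    rw [map_monomial]
    rfl
  · rintro ⟨P₀, rfl⟩ m
    rw [coeff_map]
    exact (coeff m P₀).2

theorem algInd_iff_coef {L : Fl} {ι : Type} {x : ι → ℂ} : AlgebraicIndependent L x ↔
    ∀ P : MvPolynomial ι ℂ, Coef L P → aeval x P = 0 → P = 0 := by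
  rw [algebraicIndependent_iff]
  constructor
  · intro h P hP h0
    obtain ⟨P₀, rfl⟩ := coef_iff_range.mp hP
    rw [h P₀ (by rwa [aeval_map_algebraMap] at h0), map_zero]
  · intro h P h0
    have h1 := h (MvPolynomial.map (algebraMap L ℂ) P) (coef_iff_range.mpr ⟨P, rfl⟩)
      (by rwa [aeval_map_algebraMap])
    exact MvPolynomial.map_injective (algebraMap L ℂ) (algebraMap L ℂ).injective
      (by rw [h1, map_zero])

theorem algInd_mono {L L' : Fl} (h : L ≤ L') {ι : Type} {x : ι → ℂ}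
    (hx : AlgebraicIndependent L' x) : AlgebraicIndependent L x := by
  rw [algInd_iff_coef] at hx ⊢
  exact fun P hP => hx P (hP.mono h)

theorem algInd_clo {L : Fl} {ι : Type} {x : ι → ℂ} :
    AlgebraicIndependent (clo L) x ↔ AlgebraicIndependent L x := by
  refine ⟨algInd_mono (le_clo L), fun h => ?_⟩
  exact h.algebraicClosure

theorem algInd_unit {L : Fl} {w : ℂ} (hw : w ∉ clo L) :
    AlgebraicIndependent L (fun _ : Unit => w) := by
  rw [algebraicIndependent_unique_type_iff]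
  rw [mem_clo] at hw
  exact hw

/-- the transcendence count -/
theorem algInd_count {L : Fl} {α β : Type} [Finite α] [Finite β] {x : α → ℂ} {y : β → ℂ}
    (hx : AlgebraicIndependent L x) (hxy : ∀ i, x i ∈ clo (adj L (Set.range y)))
    (hc : Nat.card β ≤ Nat.card α) : AlgebraicIndependent L y := by
  classical
  have h1 : (AlgebraicIndependent.matroid L ℂ).Indep (Set.range x) :=
    AlgebraicIndependent.matroid_indep_iff.mpr hx.to_subtype_range
  have h2 : Set.range x ⊆ (AlgebraicIndependent.matroid L ℂ).closure (Set.range y) := by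
    rw [AlgebraicIndependent.matroid_closure_eq]
    rintro _ ⟨i, rfl⟩
    exact mem_clo_adj.mp (hxy i)
  have h3 : (AlgebraicIndependent.matroid L ℂ).eRk (Set.range x) ≤
      (AlgebraicIndependent.matroid L ℂ).eRk (Set.range y) := by
    rw [← Matroid.eRk_closure_eq _ (Set.range y)]
    exact Matroid.eRk_mono _ h2
  rw [h1.eRk_eq_encard] at h3
  have h4 : (Set.range x).encard = Nat.card α := by
    rw [← Set.image_univ, hx.injective.injOn.encard_image, Set.encard_univ]
    simp [ENat.card_eq_coe_natCard]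
  have h5 : (Set.range y).encard ≤ Nat.card β := by
    rw [← Set.image_univ]
    refine (Set.encard_image_le _ _).trans ?_
    rw [Set.encard_univ]
    simp [ENat.card_eq_coe_natCard]
  have h6 := Matroid.eRk_le_encard (AlgebraicIndependent.matroid L ℂ) (Set.range y)
  have h7 : ((Nat.card β : ℕ) : ℕ∞) ≤ Nat.card α := by exact_mod_cast hc
  have h8 : (Set.range y).encard = Nat.card β :=
    le_antisymm h5 (h7.trans (h4 ▸ h3.trans h6))
  have hinj : Function.Injective y := by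
    have h9 : Nat.card (Set.range y) = Nat.card β := by
      have : ((Nat.card (Set.range y) : ℕ) : ℕ∞) = Nat.card β := by
        rw [← h8, Set.encard, ENat.card_eq_coe_natCard]
      exact_mod_cast this
    have h10 := Set.rangeFactorization_surjective (f := y) |>.bijective_of_nat_card_le h9.ge
    exact fun a b hab => h10.1 (Subtype.ext hab)
  have h11 : (AlgebraicIndependent.matroid L ℂ).Indep (Set.range y) := by
    rw [Matroid.indep_iff_eRk_eq_encard_of_finite (Set.finite_range y)]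
    refine le_antisymm h6 ?_
    rw [h8]
    exact h7.trans (h4 ▸ h3)
  exact .of_subtype_range hinj (AlgebraicIndependent.matroid_indep_iff.mp h11)

/-! ### linear substitutions -/

theorem aeval_frG' (F : MvPolynomial (Fin 4) ℂ) (M : Matrix (Fin 4) (Fin 4) ℂ) (z : Fin 4 → ℂ) :
    aeval z (aeval (fun i => ∑ j, C (M i j) * X j : Fin 4 → MvPolynomial (Fin 4) ℂ) F) =
      aeval (M.mulVec z) F := by
  have h : (aeval z : MvPolynomial (Fin 4) ℂ →ₐ[ℂ] ℂ).comp
      (aeval (fun i => ∑ j, C (M i j) * X j : Fin 4 → MvPolynomial (Fin 4) ℂ)) =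
      aeval (M.mulVec z) := by
    apply MvPolynomial.algHom_ext
    intro i
    simp [Matrix.mulVec, dotProduct]
  exact DFunLike.congr_fun h F


/-! ### the substitution -/

theorem aeval_frG (F : MvPolynomial (Fin 4) ℂ) (M : Matrix (Fin 4) (Fin 4) ℂ) (z : Fin 4 → ℂ) :
    aeval z (frG F M) = aeval (M.mulVec z) F := aeval_frG' F M z

theorem frG_frG (F : MvPolynomial (Fin 4) ℂ) (M M' : Matrix (Fin 4) (Fin 4) ℂ) :
    frG (frG F M) M' = frG F (M * M') := by
  apply MvPolynomial.funext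
  intro z
  have h : ∀ P : MvPolynomial (Fin 4) ℂ, MvPolynomial.eval z P = aeval z P := fun P => rfl
  rw [h, h, aeval_frG, aeval_frG, aeval_frG, Matrix.mulVec_mulVec]

theorem frG_one (F : MvPolynomial (Fin 4) ℂ) : frG F 1 = F := by
  apply MvPolynomial.funext
  intro z
  have h : ∀ P : MvPolynomial (Fin 4) ℂ, MvPolynomial.eval z P = aeval z P := fun P => rfl
  rw [h, h, aeval_frG, Matrix.one_mulVec]

theorem coef_frG {L : Fl} {F : MvPolynomial (Fin 4) ℂ} (hF : Coef L F)
    {M : Matrix (Fin 4) (Fin 4) ℂ} (hM : ∀ i j, M i j ∈ L) : Coef L (frG F M) := by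
  obtain ⟨F₀, rfl⟩ := coef_iff_range.mp hF
  refine coef_iff_range.mpr
    ⟨aeval (fun i => ∑ j, C (⟨M i j, hM i j⟩ : L) * X j : Fin 4 → MvPolynomial (Fin 4) L) F₀, ?_⟩
  have h : ∀ P : MvPolynomial (Fin 4) L, MvPolynomial.map (algebraMap L ℂ)
      (aeval (fun i => ∑ j, C (⟨M i j, hM i j⟩ : L) * X j : Fin 4 → MvPolynomial (Fin 4) L) P) =
      frG (MvPolynomial.map (algebraMap L ℂ) P) M := by
    intro P
    induction P using MvPolynomial.induction_on with
    | C a => simp [frG]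
    | add p q hp hq => simp only [map_add, hp, hq, frG]
    | mul_X p i hp =>
      simp only [map_mul, hp, frG, aeval_X, map_X, map_sum, map_C]
      rfl
  exact h F₀

theorem mem_frk (k : Fl) (M : Matrix (Fin 4) (Fin 4) ℂ) (i j : Fin 4) : M i j ∈ frk k M :=
  subset_adj _ _ ⟨(i, j), rfl⟩

theorem frk_le_frE (k : Fl) (F : MvPolynomial (Fin 4) ℂ) (M : Matrix (Fin 4) (Fin 4) ℂ) :
    frk k M ≤ frE k F M := le_adj _ _

theorem coef_frE (k : Fl) (F : MvPolynomial (Fin 4) ℂ) (M : Matrix (Fin 4) (Fin 4) ℂ) :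
    Coef (frE k F M) (frG F M) := fun m => subset_adj _ _ ⟨m, rfl⟩

theorem coef_cof (k : Fl) (F : MvPolynomial (Fin 4) ℂ) : Coef (cof k F) F :=
  fun m => subset_adj _ _ ⟨m, rfl⟩

theorem det_mem {L : Fl} {n : ℕ} {M : Matrix (Fin n) (Fin n) ℂ} (hM : ∀ i j, M i j ∈ L) :
    M.det ∈ L := by
  rw [Matrix.det_apply]
  refine sum_mem fun σ _ => ?_
  rw [Units.smul_def]
  exact zsmul_mem (prod_mem fun i _ => hM _ _) _

theorem minv_mem {L : Fl} {M : Matrix (Fin 4) (Fin 4) ℂ} (hM : ∀ i j, M i j ∈ L)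
    (i j : Fin 4) : M⁻¹ i j ∈ L := by
  rw [Matrix.inv_def, Ring.inverse_eq_inv', Matrix.smul_apply, smul_eq_mul]
  refine mul_mem (inv_mem (det_mem hM)) ?_
  rw [Matrix.adjugate_apply]
  refine det_mem fun a b => ?_
  rw [Matrix.updateRow_apply]
  split_ifs
  · rw [Pi.single_apply]
    split_ifs
    · exact one_mem _
    · exact zero_mem _
  · exact hM _ _

theorem cof_le_frE (k : Fl) (F : MvPolynomial (Fin 4) ℂ) {M : Matrix (Fin 4) (Fin 4) ℂ}
    (hM : M.det ≠ 0) : cof k F ≤ frE k F M := by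
  refine adj_le ((le_adj _ _).trans (le_adj _ _)) ?_
  rintro _ ⟨m, rfl⟩
  have h1 : F = frG (frG F M) M⁻¹ := by
    rw [frG_frG, Matrix.mul_nonsing_inv _ (isUnit_iff_ne_zero.mpr hM), frG_one]
  have h2 : Coef (frE k F M) (frG (frG F M) M⁻¹) :=
    coef_frG (coef_frE k F M) (minv_mem fun i j => frk_le_frE k F M (mem_frk k M i j))
  rw [← h1] at h2
  exact h2 m

theorem aeval_single {G : MvPolynomial (Fin 4) ℂ} {d : ℕ} (hG : G.IsHomogeneous d) (i : Fin 4) :
    aeval (Pi.single i 1 : Fin 4 → ℂ) G = coeff (Finsupp.single i d) G := by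
  rw [MvPolynomial.aeval_def, MvPolynomial.eval₂_eq']
  simp only [Algebra.algebraMap_self, RingHom.id_apply]
  rw [Finset.sum_eq_single (Finsupp.single i d)]
  · rw [Finset.prod_eq_one, mul_one]
    intro j _
    by_cases h : j = i
    · subst h; simp
    · simp [h]
  · intro m hm hne
    have hdeg : m.degree = d := by
      by_contra hcon
      exact (mem_support_iff.mp hm) (hG.coeff_eq_zero hcon)
    obtain ⟨j, hj, hj'⟩ : ∃ j, j ≠ i ∧ m j ≠ 0 := by
      by_contra hcon
      push Not at hcon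
      apply hne
      have h1 : m = Finsupp.single i (m i) := by
        ext j
        by_cases h : j = i
        · subst h; simp
        · rw [hcon j h, Finsupp.single_apply, if_neg (Ne.symm h)]
      rw [h1] at hdeg ⊢
      rw [Finsupp.degree_single] at hdeg
      rw [hdeg]
    rw [Finset.prod_eq_zero (Finset.mem_univ j), mul_zero]
    simp [hj, hj']
  · intro h
    rw [notMem_support_iff.mp h, zero_mul]

theorem frG_hom {F : MvPolynomial (Fin 4) ℂ} {d : ℕ} (hF : F.IsHomogeneous d)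
    (M : Matrix (Fin 4) (Fin 4) ℂ) : (frG F M).IsHomogeneous d := by
  have h := hF.aeval (fun i => ∑ j, C (M i j) * X j : Fin 4 → MvPolynomial (Fin 4) ℂ)
    (n := 1) fun i => IsHomogeneous.sum _ _ _ fun j _ => by
      have := (isHomogeneous_C (Fin 4) (M i j)).mul (isHomogeneous_X ℂ j)
      simpa using this
  rw [one_mul] at h
  exact h

/-! ### the matrix -/

/-- The matrix of a frame. -/
def frM (z₀ : Fin 4 → ℂ) (μ : Fin 3 × Fin 3 → ℂ) : Matrix (Fin 4) (Fin 4) ℂ :=
  !![0, 0, 0, 1;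
     μ (0, 0), μ (0, 1), μ (0, 2), z₀ 1;
     μ (1, 0), μ (1, 1), μ (1, 2), z₀ 2;
     μ (2, 0), μ (2, 1), μ (2, 2), z₀ 3]

theorem frM_mulVec_zero (z₀ : Fin 4 → ℂ) (μ : Fin 3 × Fin 3 → ℂ) (z : Fin 4 → ℂ) :
    (frM z₀ μ).mulVec z 0 = z 3 := by
  simp [frM, Matrix.mulVec, dotProduct, Fin.sum_univ_four]

theorem frM_mulVec_succ (z₀ : Fin 4 → ℂ) (μ : Fin 3 × Fin 3 → ℂ) (z : Fin 4 → ℂ) (i : Fin 3) :
    (frM z₀ μ).mulVec z i.succ =
      μ (i, 0) * z 0 + μ (i, 1) * z 1 + μ (i, 2) * z 2 + z₀ i.succ * z 3 := by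
  fin_cases i <;> simp [frM, Matrix.mulVec, dotProduct, Fin.sum_univ_four]

theorem frM_single {z₀ : Fin 4 → ℂ} (h1 : z₀ 0 = 1) (μ : Fin 3 × Fin 3 → ℂ) :
    (frM z₀ μ).mulVec (Pi.single 3 1) = z₀ := by
  ext i
  refine Fin.cases ?_ (fun i => ?_) i
  · rw [frM_mulVec_zero]; simp [h1]
  · rw [frM_mulVec_succ]; simp

theorem det3_ne {L : Fl} {μ : Fin 3 × Fin 3 → ℂ} (hμ : AlgebraicIndependent L μ) :
    (Matrix.of fun i j => μ (i, j)).det ≠ 0 := by
  intro h
  rw [algebraicIndependent_iff] at hμ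
  have h1 := hμ (Matrix.of fun i j => (X (i, j) : MvPolynomial (Fin 3 × Fin 3) L)).det (by
    rw [Matrix.det_fin_three] at h ⊢
    simpa using h)
  have h2 := congrArg (MvPolynomial.eval fun ij : Fin 3 × Fin 3 => if ij.1 = ij.2 then (1 : L) else 0) h1
  rw [Matrix.det_fin_three] at h2
  simp at h2

theorem no_plane {L : Fl} {μ : Fin 3 × Fin 3 → ℂ} (hμ : AlgebraicIndependent L μ)
    {v : Fin 3 → ℂ} (hv : ∀ i, v i ∈ L) {s t : ℂ}
    (h : ∀ i, v i = μ (i, 1) * s + μ (i, 2) * t) : ∀ i, v i = 0 := by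
  rw [algebraicIndependent_iff] at hμ
  have h1 := hμ (C (⟨v 0, hv 0⟩ : L) * (X (1, 1) * X (2, 2) - X (1, 2) * X (2, 1))
    - C (⟨v 1, hv 1⟩ : L) * (X (0, 1) * X (2, 2) - X (0, 2) * X (2, 1))
    + C (⟨v 2, hv 2⟩ : L) * (X (0, 1) * X (1, 2) - X (0, 2) * X (1, 1))) (by
      simp only [map_add, map_sub, map_mul, aeval_X, aeval_C]
      change v 0 * _ - v 1 * _ + v 2 * _ = 0
      rw [h 0, h 1, h 2]
      ring)
  have e0 := congrArg (MvPolynomial.eval fun ij : Fin 3 × Fin 3 =>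
    if ij = (1, 1) ∨ ij = (2, 2) then (1 : L) else 0) h1
  have e1 := congrArg (MvPolynomial.eval fun ij : Fin 3 × Fin 3 =>
    if ij = (0, 1) ∨ ij = (2, 2) then (1 : L) else 0) h1
  have e2 := congrArg (MvPolynomial.eval fun ij : Fin 3 × Fin 3 =>
    if ij = (0, 1) ∨ ij = (1, 2) then (1 : L) else 0) h1
  simp at e0 e1 e2
  intro i
  fin_cases i
  · exact congrArg Subtype.val e0
  · exact congrArg Subtype.val e1
  · exact congrArg Subtype.val e2

theorem frM_det_ne {L : Fl} {z₀ : Fin 4 → ℂ} {μ : Fin 3 × Fin 3 → ℂ}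
    (hμ : AlgebraicIndependent L μ) : (frM z₀ μ).det ≠ 0 := by
  intro h
  obtain ⟨z, hz, hz'⟩ := Matrix.exists_mulVec_eq_zero_iff.mpr h
  apply hz
  have h3 : z 3 = 0 := by rw [← frM_mulVec_zero z₀ μ z, hz']; rfl
  have h4 := Matrix.eq_zero_of_mulVec_eq_zero (det3_ne hμ) (v := ![z 0, z 1, z 2]) (by
    ext i
    have h5 := congrFun hz' i.succ
    rw [frM_mulVec_succ, h3] at h5
    simp only [Matrix.mulVec, dotProduct, Fin.sum_univ_three, Matrix.of_apply]
    simpa using h5)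
  ext i
  have h0 := congrFun h4 0
  have h1 := congrFun h4 1
  have h2 := congrFun h4 2
  fin_cases i
  · simpa using h0
  · simpa using h1
  · simpa using h2
  · simpa using h3

/-- Claim B -/
theorem plane_point {L : Fl} {z₀ : Fin 4 → ℂ} {μ : Fin 3 × Fin 3 → ℂ}
    (hμ : AlgebraicIndependent L μ) (hz₀ : ∀ i, z₀ i ∈ L) (h1 : z₀ 0 = 1) {w z : Fin 4 → ℂ}
    (hw : ∀ i, w i ∈ L) (hM : (frM z₀ μ).mulVec z = w) (h0 : z 0 = 0) :
    ∀ i, w i = z₀ i * w 0 := by
  have h3 : z 3 = w 0 := by rw [← hM, frM_mulVec_zero]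
  have h := no_plane hμ (v := fun i => w i.succ - z₀ i.succ * w 0)
    (fun i => sub_mem (hw _) (mul_mem (hz₀ _) (hw _))) (s := z 1) (t := z 2) (fun i => by
      have h4 := congrFun hM i.succ
      rw [frM_mulVec_succ] at h4
      rw [← h4, h0, h3]
      ring)
  intro i
  refine Fin.cases ?_ (fun i => ?_) i
  · rw [h1, one_mul]
  · exact sub_eq_zero.mp (h i)

theorem finite_deg (d : ℕ) : Finite {m : Fin 4 →₀ ℕ // m.degree = d} := by
  have h := Finsupp.finite_of_degree_le (σ := Fin 4) d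
  exact (h.subset (fun m hm => le_of_eq hm : {m : Fin 4 →₀ ℕ | m.degree = d} ⊆ _)).to_subtype

theorem finite_mon (d : ℕ) : Finite (Mon d) :=
  have := finite_deg d
  Finite.of_injective (fun m : Mon d => (⟨m.1, m.2.1⟩ : {m : Fin 4 →₀ ℕ // m.degree = d}))
    fun _ _ h => Subtype.ext (congrArg (fun x => x.1) h)

theorem countable_cof (k : Fl) [Countable k] (F : MvPolynomial (Fin 4) ℂ) :
    Countable (cof k F) := by
  have : Countable (Set.range fun m => coeff m F) := (Set.countable_range _).to_subtype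
  exact countable_adj k _

theorem single_deg (i : Fin 4) (d : ℕ) : (Finsupp.single i d : Fin 4 →₀ ℕ).degree = d :=
  Finsupp.degree_single i d

/-- Claim A -/
theorem frame_ind {k : Fl} {F : MvPolynomial (Fin 4) ℂ} {d : ℕ} (hF : F.IsHomogeneous d)
    (hind : AlgebraicIndependent k
      (fun m : {m : Fin 4 →₀ ℕ // m.degree = d} => coeff m.1 F))
    {z₀ : Fin 4 → ℂ} (h1 : z₀ 0 = 1) (hz₀F : aeval z₀ F = 0) {j l : Fin 3}
    (hjl : AlgebraicIndependent (cof k F) ![z₀ j.succ, z₀ l.succ])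
    {μ : Fin 3 × Fin 3 → ℂ}
    (hμ : AlgebraicIndependent (adj (cof k F) (Set.range z₀)) μ) :
    AlgebraicIndependent (frk k (frM z₀ μ))
      (fun m : Mon d => coeff m.1 (frG F (frM z₀ μ))) := by
  have := finite_mon d
  have hdet := frM_det_ne (z₀ := z₀) hμ
  set M := frM z₀ μ with hMdef
  set S : Set ℂ := Set.range (Sum.elim μ fun i : Fin 3 => z₀ i.succ) with hS
  have hfrk : frk k M = adj k S := by
    apply le_antisymm
    · refine adj_le (le_adj _ _) ?_
      rintro _ ⟨⟨a, b⟩, rfl⟩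
      have hμS : ∀ x, μ x ∈ adj k S := fun x => subset_adj _ _ ⟨Sum.inl x, rfl⟩
      have hzS : ∀ i : Fin 3, z₀ i.succ ∈ adj k S := fun x => subset_adj _ _ ⟨Sum.inr x, rfl⟩
      have h0 : (0 : ℂ) ∈ adj k S := zero_mem _
      have h1' : (1 : ℂ) ∈ adj k S := one_mem _
      fin_cases a <;> fin_cases b <;>
        first
          | exact h0
          | exact h1'
          | exact hμS (0, 0)
          | exact hμS (0, 1)
          | exact hμS (0, 2)
          | exact hμS (1, 0)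
          | exact hμS (1, 1)
          | exact hμS (1, 2)
          | exact hμS (2, 0)
          | exact hμS (2, 1)
          | exact hμS (2, 2)
          | exact hzS 0
          | exact hzS 1
          | exact hzS 2
    · refine adj_le (le_adj _ _) ?_
      rintro _ ⟨x | i, rfl⟩
      · obtain ⟨a, b⟩ := x
        change μ (a, b) ∈ frk k M
        fin_cases a <;> fin_cases b
        · exact mem_frk k M 1 0
        · exact mem_frk k M 1 1
        · exact mem_frk k M 1 2
        · exact mem_frk k M 2 0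
        · exact mem_frk k M 2 1
        · exact mem_frk k M 2 2
        · exact mem_frk k M 3 0
        · exact mem_frk k M 3 1
        · exact mem_frk k M 3 2
      · change z₀ i.succ ∈ frk k M
        fin_cases i
        · exact mem_frk k M 1 3
        · exact mem_frk k M 2 3
        · exact mem_frk k M 3 3
  have hG := frG_hom hF M
  have htop : coeff (Finsupp.single 3 d) (frG F M) = 0 := by
    rw [← aeval_single hG, aeval_frG, hMdef, frM_single h1, hz₀F]
  -- the big family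
  have key : AlgebraicIndependent k (Sum.elim (fun m : Mon d => coeff m.1 (frG F M))
      (Sum.elim μ fun i : Fin 3 => z₀ i.succ)) := by
    let f : Option (Mon d) → {m : Fin 4 →₀ ℕ // m.degree = d} := fun o =>
      o.elim ⟨Finsupp.single 3 d, single_deg 3 d⟩ fun m => ⟨m.1, m.2.1⟩
    have hf : Function.Injective f := by
      rintro (_ | a) (_ | b) hab
      · rfl
      · exact absurd (congrArg Subtype.val hab).symm b.2.2
      · exact absurd (congrArg Subtype.val hab) a.2.2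
      · have hab' : (f (some a)).1 = (f (some b)).1 := congrArg Subtype.val hab
        exact congrArg some (Subtype.ext hab')
    have ha := hind.comp f hf
    have hle : adj k (Set.range ((fun m : {m : Fin 4 →₀ ℕ // m.degree = d} => coeff m.1 F) ∘ f)) ≤
        cof k F := by
      refine adj_le (le_adj _ _) ?_
      rintro _ ⟨m, rfl⟩
      exact subset_adj _ _ ⟨(f m).1, rfl⟩
    have h2 := algInd_sum.mpr ⟨ha, algInd_mono hle hjl⟩
    have hle' : adj k (Set.range (Sum.elim ![z₀ j.succ, z₀ l.succ]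
        ((fun m : {m : Fin 4 →₀ ℕ // m.degree = d} => coeff m.1 F) ∘ f))) ≤
        adj (cof k F) (Set.range z₀) := by
      refine adj_le ((le_adj _ _).trans (le_adj _ _)) ?_
      rintro _ ⟨x | x, rfl⟩
      · change ![z₀ j.succ, z₀ l.succ] x ∈ _
        fin_cases x
        · exact subset_adj _ _ ⟨j.succ, rfl⟩
        · exact subset_adj _ _ ⟨l.succ, rfl⟩
      · exact le_adj _ _ (subset_adj _ _ ⟨(f x).1, rfl⟩)
    have h3 := algInd_sum.mpr ⟨h2, algInd_mono hle' hμ⟩
    refine algInd_count h3 ?_ ?_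
    · have hSy : adj k S ≤ adj k (Set.range (Sum.elim (fun m : Mon d => coeff m.1 (frG F M))
          (Sum.elim μ fun i : Fin 3 => z₀ i.succ))) := by
        refine adj_le (le_adj _ _) ?_
        rintro _ ⟨x, rfl⟩
        exact subset_adj _ _ ⟨Sum.inr x, rfl⟩
      have hEy : frE k F M ≤ adj k (Set.range (Sum.elim (fun m : Mon d => coeff m.1 (frG F M))
          (Sum.elim μ fun i : Fin 3 => z₀ i.succ))) := by
        refine adj_le (hfrk ▸ hSy) ?_
        rintro _ ⟨m, rfl⟩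
        change coeff m (frG F M) ∈ _
        by_cases hm : m.degree = d
        · by_cases hm' : m = Finsupp.single 3 d
          · rw [hm', htop]; exact zero_mem _
          · exact subset_adj _ _ ⟨Sum.inl ⟨m, hm, hm'⟩, rfl⟩
        · rw [hG.coeff_eq_zero hm]; exact zero_mem _
      intro i
      apply le_clo
      rcases i with x | x | o
      · exact subset_adj _ _ ⟨Sum.inr (Sum.inl x), rfl⟩
      · change ![z₀ j.succ, z₀ l.succ] x ∈ _
        fin_cases x
        · exact subset_adj _ _ ⟨Sum.inr (Sum.inr j), rfl⟩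
        · exact subset_adj _ _ ⟨Sum.inr (Sum.inr l), rfl⟩
      · exact hEy (cof_le_frE k F hdet (subset_adj _ _ ⟨(f o).1, rfl⟩))
    · rw [Nat.card_sum, Nat.card_sum, Nat.card_sum, Nat.card_sum, Finite.card_option,
        Nat.card_prod]
      simp only [Nat.card_eq_fintype_card, Fintype.card_fin]
      omega
  have h4 := (algInd_sum.mp key).2
  rw [hfrk]
  exact h4


/-- Claims B, C: a point on the plane `z₀ = 0` with coordinates in `L` is the point `p`. -/
theorem plane_mk {L : Fl} {z₀ : Fin 4 → ℂ} (hz₀0 : z₀ ≠ 0) {μ : Fin 3 × Fin 3 → ℂ}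
    (hμ : AlgebraicIndependent L μ) (hz₀ : ∀ i, z₀ i ∈ L) (h1 : z₀ 0 = 1) {z : Fin 4 → ℂ}
    (hz : z ≠ 0) (h0 : z 0 = 0) (hov : Over L (mkP ((frM z₀ μ).mulVec z))) :
    mkP ((frM z₀ μ).mulVec z) = Projectivization.mk ℂ z₀ hz₀0 := by
  have hMz : (frM z₀ μ).mulVec z ≠ 0 := fun h =>
    hz (Matrix.eq_zero_of_mulVec_eq_zero (frM_det_ne hμ) h)
  rw [mkP_eq hMz] at hov ⊢
  obtain ⟨w, hw, hwL, he⟩ := hov
  rw [mk_eq_mk_iff_exists] at he
  obtain ⟨a, ha, he⟩ := he
  have h2 : (frM z₀ μ).mulVec (a⁻¹ • z) = w := by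
    rw [Matrix.mulVec_smul]
    ext i
    rw [Pi.smul_apply, smul_eq_mul, he i, inv_mul_cancel_left₀ ha]
  have h3 := plane_point hμ hz₀ h1 hwL h2 (by simp [h0])
  refine mk_eq_mk_of_mul _ _ (a := a * w 0) fun i => ?_
  rw [he i, h3 i]
  ring

variable {F : MvPolynomial (Fin 4) ℂ} {d : ℕ}

theorem frame_line (hd : 4 ≤ d) (hF : IsSmoothForm F d) {k : Fl} {L : Fl} [Countable L]
    (hFL : Coef L F) {z₀ : Fin 4 → ℂ} {μ : Fin 3 × Fin 3 → ℂ} (h1 : z₀ 0 = 1)
    (hz₀ : ∀ i, z₀ i ∈ L) (hμ : AlgebraicIndependent L μ)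
    (hind : AlgebraicIndependent (frk k (frM z₀ μ))
      (fun m : Mon d => coeff m.1 (frG F (frM z₀ μ))))
    {z : Fin 4 → ℂ} (hz0 : z 0 = 0) (hz1 : z 1 = 0) (hz2 : z 2 ≠ 0)
    (hq : mkP ((frM z₀ μ).mulVec z) ∈ surf F) : mkP ((frM z₀ μ).mulVec z) ∈ Gen L F := by
  have hd0 : d ≠ 0 := by omega
  have hz : z ≠ 0 := fun h => hz2 (by rw [h]; rfl)
  have hMz : (frM z₀ μ).mulVec z ≠ 0 := fun h =>
    hz (Matrix.eq_zero_of_mulVec_eq_zero (frM_det_ne hμ) h)
  rw [mkP_eq hMz] at hq ⊢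
  rw [mem_surf_mk hF.hom] at hq
  have hz3 : z 3 ≠ 0 := by
    intro hz3
    have h2 : ∀ i, z i = z 2 * (Pi.single 2 1 : Fin 4 → ℂ) i := by
      intro i
      fin_cases i <;> simp [hz0, hz1, hz3]
    have h3 := aeval_scale (frG_hom hF.hom (frM z₀ μ)) h2
    rw [aeval_frG, hq, aeval_single (frG_hom hF.hom (frM z₀ μ))] at h3
    have h4 := hind.ne_zero ⟨Finsupp.single 2 d, single_deg 2 d, fun h => by
      have := DFunLike.congr_fun h 2
      simp [hd0] at this⟩
    exact mul_ne_zero (pow_ne_zero _ hz2) h4 h3.symm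
  set x : Fin 4 → ℂ := (z 3)⁻¹ • (frM z₀ μ).mulVec z with hx
  have hx0 : x 0 = 1 := by
    rw [hx, Pi.smul_apply, frM_mulVec_zero, smul_eq_mul, inv_mul_cancel₀ hz3]
  have hxs : ∀ i : Fin 3, x i.succ = μ (i, 2) * (z 2 / z 3) + z₀ i.succ := by
    intro i
    rw [hx, Pi.smul_apply, frM_mulVec_succ, smul_eq_mul, hz0, hz1]
    field_simp
    ring
  have hxne : x ≠ 0 := fun h => by
    rw [h] at hx0
    exact zero_ne_one hx0
  have he : (Projectivization.mk ℂ _ hMz : PP) = Projectivization.mk ℂ x hxne :=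
    mk_eq_mk_of_mul _ _ (a := z 3) fun i => by
      rw [hx, Pi.smul_apply, smul_eq_mul, mul_inv_cancel_left₀ hz3]
  rw [he]
  have hxF : aeval x F = 0 := by
    have h12 := aeval_scale hF.hom (z := x) (a := (z 3)⁻¹) (w := (frM z₀ μ).mulVec z)
      (fun i => by rw [hx]; rfl)
    rw [h12, hq, mul_zero]
  have hm2 : μ (2, 2) ≠ 0 := hμ.ne_zero _
  have hs : z 2 / z 3 ≠ 0 := div_ne_zero hz2 hz3
  have hr : ∀ i : Fin 3, μ (i, 2) / μ (2, 2) ∈ adj L (Set.range x) := by
    intro i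
    have h5 : μ (i, 2) / μ (2, 2) =
        (x i.succ - z₀ i.succ) / (x (Fin.succ 2) - z₀ (Fin.succ 2)) := by
      rw [hxs, hxs]
      field_simp
      ring
    rw [h5]
    have hxm : ∀ j, x j ∈ adj L (Set.range x) := fun j => subset_adj _ _ ⟨j, rfl⟩
    exact div_mem (sub_mem (hxm _) (le_adj _ _ (hz₀ _))) (sub_mem (hxm _) (le_adj _ _ (hz₀ _)))
  have h6 : AlgebraicIndependent L ![μ (0, 2) / μ (2, 2), μ (1, 2) / μ (2, 2), μ (2, 2)] := by
    have h7 : AlgebraicIndependent L (fun i : Fin 3 => μ (i, 2)) :=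
      hμ.comp (fun i => (i, 2)) fun a b h => congrArg Prod.fst h
    refine algInd_count h7 ?_ le_rfl
    have hy : ∀ j : Fin 3, ![μ (0, 2) / μ (2, 2), μ (1, 2) / μ (2, 2), μ (2, 2)] j ∈
        adj L (Set.range ![μ (0, 2) / μ (2, 2), μ (1, 2) / μ (2, 2), μ (2, 2)]) :=
      fun j => subset_adj _ _ ⟨j, rfl⟩
    have hy0 := hy 0
    have hy1 := hy 1
    have hy2 := hy 2
    simp only [Matrix.cons_val_zero, Matrix.cons_val_one, Matrix.cons_val] at hy0 hy1 hy2
    intro i
    apply le_clo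
    fin_cases i
    · have := mul_mem hy0 hy2
      rwa [div_mul_cancel₀ _ hm2] at this
    · have := mul_mem hy1 hy2
      rwa [div_mul_cancel₀ _ hm2] at this
    · exact hy2
  have h8 : AlgebraicIndependent L ![μ (0, 2) / μ (2, 2), μ (1, 2) / μ (2, 2)] := by
    have h9 := h6.comp (Fin.castSucc : Fin 2 → Fin 3) (Fin.castSucc_injective 2)
    convert h9 using 1
    ext i
    fin_cases i <;> rfl
  exact gen_of_algInd hd hF L hFL hxne hxF hx0 (le_clo _ (hr 0)) (le_clo _ (hr 1)) h8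

/-- Claim C -/
theorem frame_gen (hd : 4 ≤ d) (hF : IsSmoothForm F d) {K L C : Fl} [Countable K]
    (hFK : Coef K F) (hKL : K ≤ L) (hLC : L ≤ C) (hC : clo C = C) {z₀ : Fin 4 → ℂ}
    (hz₀0 : z₀ ≠ 0) {μ : Fin 3 × Fin 3 → ℂ} (h1 : z₀ 0 = 1) (hz₀ne : ∀ i, z₀ i ≠ 0)
    (hz₀ : ∀ i, z₀ i ∈ L) (hμ : AlgebraicIndependent L μ) (hμC : ∀ i, μ i ∈ C)
    {z : Fin 4 → ℂ} (hz : z ≠ 0) (hz0 : z 0 = 0) (hq : mkP ((frM z₀ μ).mulVec z) ∈ surf F)
    (hqC : ¬ Over C (mkP ((frM z₀ μ).mulVec z))) : mkP ((frM z₀ μ).mulVec z) ∈ Gen K F := by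
  by_contra hg
  obtain ⟨x, hx, i, hxi, he⟩ := exists_nrm (mkP ((frM z₀ μ).mulVec z))
  rw [he, over_mk hx hxi] at hqC
  push Not at hqC
  obtain ⟨j, hj⟩ := hqC
  have hw : x j ∈ adjP K (mkP ((frM z₀ μ).mulVec z)) := by
    rw [he, adjP_mk hx hxi]
    exact subset_adj _ _ ⟨j, rfl⟩
  have hKC : clo K ≤ C := (clo_mono (hKL.trans hLC)).trans hC.le
  have hw' : x j ∉ clo K := fun h => hj (hKC h)
  have h2 := not_gen hd hF K hFK hq hg hw hw'
  -- `μ` is independent over `L(x j)`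
  have h3 : AlgebraicIndependent L (Sum.elim (fun _ : Unit => x j) μ) := by
    refine algInd_sum.mpr ⟨hμ, algInd_unit fun h => hj ?_⟩
    have h4 : clo (adj L (Set.range μ)) ≤ C := by
      refine (clo_mono (adj_le hLC ?_)).trans hC.le
      rintro _ ⟨a, rfl⟩
      exact hμC a
    exact h4 h
  have h5 : AlgebraicIndependent L (Sum.elim μ (fun _ : Unit => x j)) := by
    have h6 := h3.comp (Sum.swap) Sum.swap_leftInverse.injective
    convert h6 using 1
    ext a
    rcases a with a | a <;> rfl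
  have h7 := algInd_clo.mpr (algInd_sum.mp h5).2
  have h8 : Over (clo (adj L (Set.range fun _ : Unit => x j)))
      (mkP ((frM z₀ μ).mulVec z)) := by
    refine h2.mono (clo_mono (adj_le (hKL.trans (le_adj _ _)) ?_))
    rintro _ rfl
    exact subset_adj _ _ ⟨(), rfl⟩
  have h9 := plane_mk hz₀0 h7 (fun i => le_clo _ (le_adj _ _ (hz₀ i))) h1 hz hz0 h8
  rw [he, mk_eq_mk_iff_exists] at h9
  obtain ⟨a, ha, h9⟩ := h9
  have h10 : a * z₀ i = 1 := by rw [← h9 i, hxi]
  have h11 : x j = z₀ j / z₀ i := by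
    rw [h9 j, eq_div_iff (hz₀ne i)]
    linear_combination z₀ j * h10
  apply hj
  rw [h11]
  exact div_mem (hLC (hz₀ j)) (hLC (hz₀ i))

theorem exists_algInd33 (L : Fl) [Countable L] :
    ∃ μ : Fin 3 × Fin 3 → ℂ, AlgebraicIndependent L μ := by
  obtain ⟨m, hm⟩ := exists_algInd L (3 * 3)
  let e : Fin 3 × Fin 3 ≃ Fin (3 * 3) := finProdFinEquiv
  exact ⟨fun ij => m (e ij), hm.comp (fun ij => e ij) e.injective⟩

end Pool.Agent.VGS.FrA

namespace Pool.Agent.VGS

open FrA
open Pool.Agent.LowDeg (surf IsSmoothForm)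

variable {F : MvPolynomial (Fin 4) ℂ} {d : ℕ}

theorem exists_frame (hd : 4 ≤ d) (hF : IsSmoothForm F d) (k : Fl) [Countable k]
    (hind : AlgebraicIndependent k
      (fun m : {m : Fin 4 →₀ ℕ // m.degree = d} => coeff m.1 F))
    {p : PP} (hp : p ∈ Gen (cof k F) F) : ∃ M, IsFrame k F d p M := by
  have hcK : Countable (cof k F) := FrA.countable_cof k F
  have hFK : Coef (cof k F) F := FrA.coef_cof k F
  obtain ⟨z₀, hz₀, h1, hne, rfl⟩ := gen_nrm hd hF hp 0
  have hadj : adjP (cof k F) (Projectivization.mk ℂ z₀ hz₀) =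
      adj (cof k F) (Set.range z₀) := adjP_mk hz₀ h1
  have hz₀F : aeval z₀ F = 0 := (mem_surf_mk hF.hom hz₀).mp hp.1
  have hcr : Countable (Set.range z₀) := (Set.countable_range _).to_subtype
  have hcA : Countable (adj (cof k F) (Set.range z₀)) := countable_adj _ _
  have hcL : Countable (clo (adj (cof k F) (Set.range z₀))) := countable_clo _
  obtain ⟨μ, hμ⟩ := exists_algInd33 (clo (adj (cof k F) (Set.range z₀)))
  have hμ0 := FrA.algInd_clo.mp hμ
  obtain ⟨j, l, hj, hl, hjl, hi, -⟩ := gen_algInd hd hF (cof k F) hFK hz₀ h1 hp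
  obtain ⟨j, rfl⟩ := Fin.exists_succ_eq.mpr hj
  obtain ⟨l, rfl⟩ := Fin.exists_succ_eq.mpr hl
  have hdet := frM_det_ne (z₀ := z₀) hμ
  have hA := frame_ind hF.hom hind h1 hz₀F hi hμ0
  have hKL : cof k F ≤ clo (adj (cof k F) (Set.range z₀)) := (le_adj _ _).trans (le_clo _)
  have hzL : ∀ i, z₀ i ∈ clo (adj (cof k F) (Set.range z₀)) :=
    fun i => le_clo _ (subset_adj _ _ ⟨i, rfl⟩)
  have hle := FrA.cof_le_frE k F hdet
  have hzE : ∀ i, z₀ i ∈ frE k F (frM z₀ μ) := by
    intro i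
    refine FrA.frk_le_frE k F _ ?_
    have h2 : (frM z₀ μ).mulVec (Pi.single 3 1) i = frM z₀ μ i 3 := by simp
    rw [← congrFun (frM_single h1 μ) i, h2]
    exact FrA.mem_frk k _ i 3
  have hLC : clo (adj (cof k F) (Set.range z₀)) ≤ clo (frE k F (frM z₀ μ)) := by
    refine clo_mono (adj_le hle ?_)
    rintro _ ⟨i, rfl⟩
    exact hzE i
  have hμE : ∀ x, μ x ∈ frE k F (frM z₀ μ) := by
    rintro ⟨a, b⟩
    refine FrA.frk_le_frE k F _ ?_
    have h3 : μ (a, b) = frM z₀ μ a.succ b.castSucc := by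
      fin_cases a <;> fin_cases b <;> rfl
    rw [h3]
    exact FrA.mem_frk k _ _ _
  refine ⟨frM z₀ μ, hdet, ?_, hA, ?_, hle, ?_, ?_, ?_, ?_⟩
  · rw [frM_single h1, mkP_eq]
  · rw [← FrA.aeval_single (FrA.frG_hom hF.hom _), FrA.aeval_frG, frM_single h1, hz₀F]
  · rw [hadj]
    refine adj_le hle ?_
    rintro _ ⟨i, rfl⟩
    exact hzE i
  · intro z hz hov h0
    have h4 := plane_mk hz₀ hμ hzL h1 hz h0 (hov.mono (clo_mono (le_adj _ _)))
    rw [h4] at hov
    exact gen_not_over hd hF (cof k F) hFK hp hov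
  · intro z hz h0 hq hqC
    exact frame_gen hd hF hFK hKL hLC (clo_clo _) hz₀ h1 hne hzL hμ (fun x => le_clo _ (hμE x))
      hz h0 hq hqC
  · intro z h0 h1' h2 hq
    rw [hadj]
    exact frame_line (k := k) hd hF (hFK.mono hKL) h1 hzL hμ hA h0 h1' h2 hq

end Pool.Agent.VGS
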