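import Pool.Agent.VGS.Frame2
import Pool.Agent.VGS.FrameA

/-! Module Frame: existence of frames (sections 1.1, 1.8). The other statements are in `Frame2` and `FrameA`. -/

set_option autoImplicit false

open scoped LinearAlgebra.Projectivization
open MvPolynomial

namespace Pool.Agent.VGS

open Pool.Agent.LowDeg (surf IsSmoothForm)

variable {F : MvPolynomial (Fin 4) ℂ} {d : ℕ}

/-- a frame at `p` whose line goes through `r` -/
theorem exists_frame_line (hd : 4 ≤ d) (hF : IsSmoothForm F d) (k : Fl) [Countable k]
    (hind : AlgebraicIndependent k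
      (fun m : {m : Fin 4 →₀ ℕ // m.degree = d} => coeff m.1 F))
    {p r : PP} (hp : p ∈ Gen (cof k F) F) (hr : r ∈ Gen (clo (adjP (cof k F) p)) F) :
    ∃ M, IsFrame k F d p M ∧ r ∈ lineSet F M := by
  obtain ⟨M, hM⟩ := exists_frame hd hF k hind hp
  exact exists_frame_line_of hd hF k hM hr

end Pool.Agent.VGS
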