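import Pool.Agent.VGS.FrameDefs
import Pool.Agent.VGS.GenP
import Pool.Agent.VGS.Trd

/-! Module Frame, second part: the action of automorphisms on frames, lines (section 1.8). -/

set_option autoImplicit false

open scoped LinearAlgebra.Projectivization
open MvPolynomial

namespace Pool.Agent.VGS

open Pool.Agent.LowDeg (surf IsSmoothForm)

variable {F : MvPolynomial (Fin 4) ℂ} {d : ℕ}

/-! ### transport of fields and points -/

theorem adj_map {L L' : Fl} {S S' : Set ℂ} {σ : ℂ ≃+* ℂ} (hL : ∀ x ∈ L, σ x ∈ L')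
    (hS : ∀ x ∈ S, σ x ∈ adj L' S') : ∀ x ∈ adj L S, σ x ∈ adj L' S' := by
  let f : ℂ →ₐ[ℚ] ℂ := (σ : ℂ →+* ℂ).toRatAlgHom
  have h : adj L S ≤ (adj L' S').comap f := by
    apply adj_le
    · intro x hx
      exact le_adj L' S' (hL x hx)
    · intro x hx
      exact hS x hx
  exact fun x hx => h hx

theorem clo_map {L L' : Fl} {σ : ℂ ≃+* ℂ} (hL : ∀ x ∈ L, σ x ∈ L') :
    ∀ x ∈ clo L, σ x ∈ clo L' := by
  intro x hx
  rw [mem_clo_iff_exists] at hx ⊢
  obtain ⟨p, hp0, hp, h0⟩ := hx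
  refine ⟨p.map (σ : ℂ →+* ℂ), ?_, ?_, ?_⟩
  · exact (Polynomial.map_ne_zero_iff σ.injective).2 hp0
  · intro n
    rw [Polynomial.coeff_map]
    exact hL _ (hp n)
  · have h2 := Polynomial.eval_map_apply (p := p) (f := (σ : ℂ →+* ℂ)) x
    rw [h0, map_zero] at h2
    exact h2

theorem over_map {L L' : Fl} {σ : ℂ ≃+* ℂ} (hL : ∀ x ∈ L, σ x ∈ L') {p : PP} (hp : Over L p) :
    Over L' (act σ p) := by
  obtain ⟨z, hz, hzL, rfl⟩ := hp
  exact ⟨fun i => σ (z i), map_ne_zero' σ hz, fun i => hL _ (hzL i), act_mk σ z hz _⟩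

theorem adjP_le {L L' : Fl} {p : PP} (h : L ≤ L') (hp : Over L' p) : adjP L p ≤ L' := by
  refine le_trans ?_ (over_iff_adjP_le.1 hp)
  unfold adjP
  exact adj_le (h.trans (le_adj _ _)) (subset_adj _ _)

theorem adjP_map {L L' : Fl} {σ : ℂ ≃+* ℂ} (hL : ∀ x ∈ L, σ x ∈ L') {p : PP} :
    ∀ x ∈ adjP L p, σ x ∈ adjP L' (act σ p) := by
  obtain ⟨z, hz, i, hi, rfl⟩ := exists_nrm p
  rw [act_mk σ z hz (map_ne_zero' σ hz), adjP_mk hz hi,
    adjP_mk (i := i) (map_ne_zero' σ hz) (by rw [hi, map_one])]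
  apply adj_map hL
  rintro _ ⟨j, rfl⟩
  exact subset_adj _ _ ⟨j, rfl⟩

theorem coef_map {L L' : Fl} {σ : ℂ ≃+* ℂ} (hL : ∀ x ∈ L, σ x ∈ L') {ι : Type}
    {G : MvPolynomial ι ℂ} (hG : Coef L G) : Coef L' (MvPolynomial.map (σ : ℂ →+* ℂ) G) := by
  intro m
  rw [MvPolynomial.coeff_map]
  exact hL _ (hG m)

theorem map_fix {L : Fl} {σ : ℂ ≃+* ℂ} (hσ : σ ∈ Fix L) {ι : Type} {G : MvPolynomial ι ℂ}
    (hG : Coef L G) : MvPolynomial.map (σ : ℂ →+* ℂ) G = G := by
  ext m
  rw [MvPolynomial.coeff_map]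
  exact hσ _ (hG m)

theorem aeval_map_act (σ : ℂ ≃+* ℂ) {ι : Type} (G : MvPolynomial ι ℂ) (z : ι → ℂ) :
    aeval (fun i => σ (z i)) (MvPolynomial.map (σ : ℂ →+* ℂ) G) = σ (aeval z G) := by
  have h := MvPolynomial.map_aeval z (σ : ℂ →+* ℂ) G
  rw [MvPolynomial.aeval_def, MvPolynomial.eval₂_map]
  change _ = (σ : ℂ →+* ℂ) (aeval z G)
  rw [h]
  rfl

theorem coef_cof (k : Fl) (F : MvPolynomial (Fin 4) ℂ) : Coef (cof k F) F :=
  fun m => subset_adj _ _ ⟨m, rfl⟩

theorem act_eq_inv {σ : ℂ ≃+* ℂ} {p q : PP} (h : act σ p = q) : p = act σ⁻¹ q := by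
  rw [← h, act_inv_act]

/-- a generic point is mapped to a generic point -/
theorem gen_map {L L' K : Fl} {σ : ℂ ≃+* ℂ} (hL : ∀ x ∈ L', σ⁻¹ x ∈ L) (hF : F.IsHomogeneous d)
    (hFK : Coef K F) (hσ : σ ∈ Fix K) {q : PP} (hq : q ∈ Gen L F) : act σ q ∈ Gen L' F := by
  refine ⟨(act_mem_surf hF hFK hσ).2 hq.1, ?_⟩
  intro e G hG hGL h0
  have h1 := hq.2 e (MvPolynomial.map ((σ⁻¹ : ℂ ≃+* ℂ) : ℂ →+* ℂ) G) (hG.map _)
    (coef_map hL hGL) ?_
  · have h2 := map_dvd (MvPolynomial.map (σ : ℂ →+* ℂ)) h1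
    rw [map_fix hσ hFK, MvPolynomial.map_map] at h2
    have h3 : (σ : ℂ →+* ℂ).comp ((σ⁻¹ : ℂ ≃+* ℂ) : ℂ →+* ℂ) = RingHom.id ℂ := by
      ext x
      exact σ.apply_symm_apply x
    rwa [h3, MvPolynomial.map_id] at h2
  · obtain ⟨z, hz, i, hi, rfl⟩ := exists_nrm q
    rw [act_mk σ z hz (map_ne_zero' σ hz), mem_zero_mk hG] at h0
    rw [mem_zero_mk (hG.map _)]
    have h4 := aeval_map_act σ⁻¹ G (fun i => σ (z i))
    rw [h0, map_zero] at h4
    have h5 : (fun i => (σ⁻¹ : ℂ ≃+* ℂ) (σ (z i))) = z := by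
      funext i
      exact σ.symm_apply_apply (z i)
    rwa [h5] at h4

/-! ### frames -/

theorem act_mkP (σ : ℂ ≃+* ℂ) (z : Fin 4 → ℂ) : act σ (mkP z) = mkP (fun i => σ (z i)) := by
  by_cases hz : z = 0
  · subst hz
    have h1 : (fun i => σ ((0 : Fin 4 → ℂ) i)) = 0 := by
      funext i
      simp
    rw [h1]
    have h2 : mkP 0 = Projectivization.mk ℂ (fun _ => (1 : ℂ)) (by
        intro h
        have := congrFun h 0
        simp at this) := by
      unfold mkP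
      congr 1
      simp
    rw [h2, act_mk σ _ _ (by
        intro h
        have := congrFun h 0
        simp at this)]
    congr 1
    funext i
    simp
  · rw [mkP_eq hz, act_mk σ z hz (map_ne_zero' σ hz), mkP_eq (map_ne_zero' σ hz)]

theorem map_mulVec' (σ : ℂ ≃+* ℂ) (M : Matrix (Fin 4) (Fin 4) ℂ) (z : Fin 4 → ℂ) :
    (fun i => σ (M.mulVec z i)) = (M.map σ).mulVec (fun i => σ (z i)) := by
  funext i
  exact RingHom.map_mulVec (σ : ℂ →+* ℂ) M z i

theorem act_mkP_mulVec (σ : ℂ ≃+* ℂ) (M : Matrix (Fin 4) (Fin 4) ℂ) (z : Fin 4 → ℂ) :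
    act σ (mkP (M.mulVec z)) = mkP ((M.map σ).mulVec (fun i => σ (z i))) := by
  rw [act_mkP, map_mulVec']

theorem frG_map {k : Fl} {σ : ℂ ≃+* ℂ} (hσ : σ ∈ Fix (cof k F)) (M : Matrix (Fin 4) (Fin 4) ℂ) :
    frG F (M.map σ) = MvPolynomial.map (σ : ℂ →+* ℂ) (frG F M) := by
  have h1 : (MvPolynomial.map (σ : ℂ →+* ℂ)) F = F := map_fix hσ (coef_cof k F)
  conv_lhs => rw [← h1]
  unfold frG
  rw [MvPolynomial.aeval_def, MvPolynomial.eval₂_map, MvPolynomial.aeval_def]
  rw [← MvPolynomial.coe_eval₂Hom, ← MvPolynomial.coe_eval₂Hom, ← RingHom.comp_apply]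
  congr 1
  apply MvPolynomial.ringHom_ext
  · intro c
    simp
  · intro i
    simp

theorem frk_map {k : Fl} {σ : ℂ ≃+* ℂ} (hσ : σ ∈ Fix k) (M : Matrix (Fin 4) (Fin 4) ℂ) :
    ∀ x ∈ frk k M, σ x ∈ frk k (M.map σ) := by
  apply adj_map
  · intro x hx
    rwa [hσ x hx]
  · rintro _ ⟨ij, rfl⟩
    exact subset_adj _ _ ⟨ij, rfl⟩

theorem map_map_inv (σ : ℂ ≃+* ℂ) (M : Matrix (Fin 4) (Fin 4) ℂ) :
    (M.map σ).map (σ⁻¹ : ℂ ≃+* ℂ) = M := by
  ext i j
  exact σ.symm_apply_apply (M i j)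

theorem Fix_cof {k : Fl} {σ : ℂ ≃+* ℂ} (hσ : σ ∈ Fix (cof k F)) : σ ∈ Fix k :=
  Fix_mono (le_adj _ _) hσ

theorem frE_map {k : Fl} {σ : ℂ ≃+* ℂ} (hσ : σ ∈ Fix (cof k F)) (M : Matrix (Fin 4) (Fin 4) ℂ) :
    ∀ x ∈ frE k F M, σ x ∈ frE k F (M.map σ) := by
  apply adj_map (frk_map (Fix_cof hσ) M)
  rintro _ ⟨m, rfl⟩
  refine subset_adj _ _ ⟨m, ?_⟩
  change coeff m (frG F (M.map σ)) = _
  rw [frG_map hσ, MvPolynomial.coeff_map]
  rfl

/-- an automorphism over `K = k(F)` maps a frame at `p` to a frame at its image -/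
theorem IsFrame.act {k : Fl} {p : PP} {M : Matrix (Fin 4) (Fin 4) ℂ} (hF : IsSmoothForm F d)
    (hM : IsFrame k F d p M) {σ : ℂ ≃+* ℂ} (hσ : σ ∈ Fix (cof k F)) :
    IsFrame k F d (VGS.act σ p) (M.map σ) := by
  have hinv : σ⁻¹ ∈ Fix (cof k F) := (Fix _).inv_mem hσ
  have hz' : ∀ z : Fin 4 → ℂ, z ≠ 0 → (fun i => (σ⁻¹ : ℂ ≃+* ℂ) (z i)) ≠ 0 :=
    fun z hz => map_ne_zero' σ⁻¹ hz
  have hact : ∀ z : Fin 4 → ℂ, mkP (M.mulVec (fun i => (σ⁻¹ : ℂ ≃+* ℂ) (z i))) =
      VGS.act σ⁻¹ (mkP ((M.map σ).mulVec z)) := by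
    intro z
    rw [act_mkP_mulVec, map_map_inv]
  have hfE : ∀ x ∈ frE k F (M.map σ), (σ⁻¹ : ℂ ≃+* ℂ) x ∈ frE k F M := by
    have := frE_map hinv (M.map σ)
    rwa [map_map_inv] at this
  constructor
  · have h1 : (M.map σ).det = σ M.det := by
      exact (RingHom.map_det (σ : ℂ →+* ℂ) M).symm
    rw [h1]
    simpa using hM.det
  · rw [hM.pt, act_mkP_mulVec]
    congr 2
    funext i
    by_cases hi : i = 3
    · subst hi; simp
    · simp [Pi.single_eq_of_ne hi]
  · rw [ai_iff]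
    intro P hP h0
    have hfk : ∀ x ∈ frk k (M.map σ), (σ⁻¹ : ℂ ≃+* ℂ) x ∈ frk k M := by
      have := frk_map (Fix_cof hinv) (M.map σ)
      rwa [map_map_inv] at this
    have h1 := aeval_map_act σ⁻¹ P (fun m : Mon d => coeff m.1 (frG F (M.map σ)))
    rw [h0, map_zero] at h1
    have h2 : (fun m : Mon d => (σ⁻¹ : ℂ ≃+* ℂ) (coeff m.1 (frG F (M.map σ)))) =
        fun m : Mon d => coeff m.1 (frG F M) := by
      funext m
      rw [frG_map hσ, MvPolynomial.coeff_map]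
      exact σ.symm_apply_apply _
    rw [h2] at h1
    have h3 := ai_iff.1 hM.ind _ (coef_map hfk hP) h1
    exact (map_eq_zero_iff _ (MvPolynomial.map_injective _ (σ⁻¹ : ℂ ≃+* ℂ).injective)).1 h3
  · rw [frG_map hσ, MvPolynomial.coeff_map, hM.top]
    simp
  · intro x hx
    have h1 := frE_map hσ M x (hM.le hx)
    rwa [hσ x hx] at h1
  · apply adjP_le
    · intro x hx
      have h1 := frE_map hσ M x (hM.le hx)
      rwa [hσ x hx] at h1
    · exact over_map (frE_map hσ M) ((over_adjP _ p).mono hM.ptE)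
  · intro z hz hov h0
    refine hM.avoid _ (hz' z hz) ?_ ?_
    · rw [hact]
      exact (over_clo_act hinv).2 hov
    · rw [h0, map_zero]
  · intro z hz h0 hs hno
    have h1 := hM.gen (fun i => (σ⁻¹ : ℂ ≃+* ℂ) (z i)) (hz' z hz) (by rw [h0, map_zero]) (by
      rw [hact]
      exact (act_mem_surf hF.hom (coef_cof k F) hinv).2 hs) (by
      rw [hact]
      intro h
      apply hno
      have h2 := over_map (clo_map (frE_map hσ M)) h
      rwa [act_act_inv] at h2)
    rw [hact] at h1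
    exact (act_mem_Gen hF.hom (coef_cof k F) hinv).1 h1
  · intro z h0 h1 h2 hs
    have h3 := hM.line (fun i => (σ⁻¹ : ℂ ≃+* ℂ) (z i)) (by rw [h0, map_zero])
      (by rw [h1, map_zero]) (by simpa using h2) (by
      rw [hact]
      exact (act_mem_surf hF.hom (coef_cof k F) hinv).2 hs)
    rw [hact] at h3
    have h4 := gen_map (L' := clo (adjP (cof k F) (VGS.act σ p))) (K := cof k F) (σ := σ) ?_ hF.hom
      (coef_cof k F) hσ h3
    · rwa [act_act_inv] at h4
    · apply clo_map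
      have h5 := adjP_map (L := cof k F) (L' := cof k F) (σ := σ⁻¹) (p := VGS.act σ p)
        (fun x hx => by rw [hinv x hx]; exact hx)
      rwa [act_inv_act] at h5

theorem mulVec_ne {M : Matrix (Fin 4) (Fin 4) ℂ} (hM : M.det ≠ 0) {z : Fin 4 → ℂ} (hz : z ≠ 0) :
    M.mulVec z ≠ 0 := by
  intro h
  exact hz (Matrix.eq_zero_of_mulVec_eq_zero hM h)

theorem lineSet_act {k : Fl} {M : Matrix (Fin 4) (Fin 4) ℂ} (hF : IsSmoothForm F d)
    {σ : ℂ ≃+* ℂ} (hσ : σ ∈ Fix (cof k F)) : act σ '' lineSet F M = lineSet F (M.map σ) := by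
  have hinv : σ⁻¹ ∈ Fix (cof k F) := (Fix _).inv_mem hσ
  have key : ∀ {τ : ℂ ≃+* ℂ}, τ ∈ Fix (cof k F) → ∀ {N : Matrix (Fin 4) (Fin 4) ℂ} {q : PP},
      q ∈ lineSet F N → act τ q ∈ lineSet F (N.map τ) := by
    intro τ hτ N q hq
    obtain ⟨hq, z, hz, h0, h1, rfl⟩ := hq
    refine ⟨(act_mem_surf hF.hom (coef_cof k F) hτ).2 hq, fun i => τ (z i), map_ne_zero' τ hz, ?_,
      ?_, act_mkP_mulVec τ N z⟩
    · change τ (z 0) = 0
      rw [h0, map_zero]
    · change τ (z 1) = 0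
      rw [h1, map_zero]
  ext q
  constructor
  · rintro ⟨r, hr, rfl⟩
    exact key hσ hr
  · intro hq
    refine ⟨act σ⁻¹ q, ?_, act_act_inv σ q⟩
    have := key hinv hq
    rwa [map_map_inv] at this

theorem IsFrame.mem_lineSet {k : Fl} {p : PP} {M : Matrix (Fin 4) (Fin 4) ℂ}
    (hF : IsSmoothForm F d) (hp : p ∈ surf F) (hM : IsFrame k F d p M) : p ∈ lineSet F M :=
  ⟨hp, Pi.single 3 1, by
    intro h
    have := congrFun h 3
    simp at this, by simp, by simp, hM.pt⟩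

/-- the line through `p` and `r` is determined by them -/
theorem lineSet_eq {k : Fl} {p r : PP} (hpr : p ≠ r) {M M' : Matrix (Fin 4) (Fin 4) ℂ}
    (hM : M.det ≠ 0) (hM' : M'.det ≠ 0) (hp : p ∈ lineSet F M) (hr : r ∈ lineSet F M)
    (hp' : p ∈ lineSet F M') (hr' : r ∈ lineSet F M') : lineSet F M = lineSet F M' := by
  have key : ∀ {M M' : Matrix (Fin 4) (Fin 4) ℂ}, M.det ≠ 0 → M'.det ≠ 0 → p ∈ lineSet F M →
      r ∈ lineSet F M → p ∈ lineSet F M' → r ∈ lineSet F M' → lineSet F M ⊆ lineSet F M' := by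
    intro M M' hM hM' hp hr hp' hr' q hq
    obtain ⟨-, z, hz, hz0, hz1, hpz⟩ := hp
    obtain ⟨-, w, hw, hw0, hw1, hrw⟩ := hr
    obtain ⟨-, z', hz', hz0', hz1', hpz'⟩ := hp'
    obtain ⟨-, w', hw', hw0', hw1', hrw'⟩ := hr'
    obtain ⟨hqF, y, hy, hy0, hy1, hqy⟩ := hq
    have e1 : ∃ a : ℂ, M.mulVec z = a • M'.mulVec z' := by
      have := hpz.symm.trans hpz'
      rw [mkP_eq (mulVec_ne hM hz), mkP_eq (mulVec_ne hM' hz'), mk_eq_mk_iff_exists] at this
      obtain ⟨a, -, h⟩ := this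
      exact ⟨a, funext h⟩
    have e2 : ∃ a : ℂ, M.mulVec w = a • M'.mulVec w' := by
      have := hrw.symm.trans hrw'
      rw [mkP_eq (mulVec_ne hM hw), mkP_eq (mulVec_ne hM' hw'), mk_eq_mk_iff_exists] at this
      obtain ⟨a, -, h⟩ := this
      exact ⟨a, funext h⟩
    obtain ⟨a, hza⟩ := e1
    obtain ⟨b, hwb⟩ := e2
    have hD : z 2 * w 3 - z 3 * w 2 ≠ 0 := by
      intro hD
      apply hpr
      have h1 : ∃ c : ℂ, z = c • w := by
        by_cases h2 : w 2 = 0
        · have h3 : w 3 ≠ 0 := by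
            intro h3
            apply hw
            funext i
            fin_cases i <;> simp [hw0, hw1, h2, h3]
          refine ⟨z 3 / w 3, ?_⟩
          funext i
          fin_cases i
          · simp [hz0, hw0]
          · simp [hz1, hw1]
          · simp only [Fin.reduceFinMk, Pi.smul_apply, smul_eq_mul]
            rw [h2, mul_zero, sub_zero] at hD
            rw [h2, mul_zero]
            exact (mul_eq_zero.1 hD).resolve_right h3
          · simp only [Fin.reduceFinMk, Pi.smul_apply, smul_eq_mul]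
            field_simp
        · refine ⟨z 2 / w 2, ?_⟩
          funext i
          fin_cases i
          · simp [hz0, hw0]
          · simp [hz1, hw1]
          · simp only [Fin.reduceFinMk, Pi.smul_apply, smul_eq_mul]
            field_simp
          · simp only [Fin.reduceFinMk, Pi.smul_apply, smul_eq_mul]
            field_simp
            linear_combination -hD
      obtain ⟨c, hc⟩ := h1
      rw [hpz, hrw, mkP_eq (mulVec_ne hM hz), mkP_eq (mulVec_ne hM hw)]
      apply mk_eq_mk_of_mul (a := c)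
      intro i
      rw [hc, Matrix.mulVec_smul]
      rfl
    have hyzw : y = ((y 2 * w 3 - y 3 * w 2) / (z 2 * w 3 - z 3 * w 2)) • z +
        ((z 2 * y 3 - z 3 * y 2) / (z 2 * w 3 - z 3 * w 2)) • w := by
      funext i
      fin_cases i
      · simp [hz0, hw0, hy0]
      · simp [hz1, hw1, hy1]
      · simp only [Fin.reduceFinMk, Pi.add_apply, Pi.smul_apply, smul_eq_mul]
        rw [div_mul_eq_mul_div, div_mul_eq_mul_div, ← add_div, eq_div_iff hD]
        ring
      · simp only [Fin.reduceFinMk, Pi.add_apply, Pi.smul_apply, smul_eq_mul]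
        rw [div_mul_eq_mul_div, div_mul_eq_mul_div, ← add_div, eq_div_iff hD]
        ring
    set α := (y 2 * w 3 - y 3 * w 2) / (z 2 * w 3 - z 3 * w 2)
    set β := (z 2 * y 3 - z 3 * y 2) / (z 2 * w 3 - z 3 * w 2)
    have hMy : M.mulVec y = M'.mulVec ((α * a) • z' + (β * b) • w') := by
      rw [hyzw, Matrix.mulVec_add, Matrix.mulVec_smul, Matrix.mulVec_smul, hza, hwb,
        Matrix.mulVec_add, Matrix.mulVec_smul, Matrix.mulVec_smul, smul_smul, smul_smul]
    refine ⟨hqF, (α * a) • z' + (β * b) • w', ?_, ?_, ?_, ?_⟩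
    · intro h
      rw [h, Matrix.mulVec_zero] at hMy
      exact mulVec_ne hM hy hMy
    · simp [hz0', hw0']
    · simp [hz1', hw1']
    · rw [hqy, hMy]
  exact Set.Subset.antisymm (key hM hM' hp hr hp' hr') (key hM' hM hp' hr' hp hr)

instance countable_cof (k : Fl) [Countable k] (F : MvPolynomial (Fin 4) ℂ) :
    Countable (cof k F) := by
  have : Countable (Set.range fun m => coeff m F) := (Set.countable_range _).to_subtype
  unfold cof
  infer_instance

theorem aeval_frG (F : MvPolynomial (Fin 4) ℂ) (M : Matrix (Fin 4) (Fin 4) ℂ) (z : Fin 4 → ℂ) :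
    aeval z (frG F M) = aeval (M.mulVec z) F := by
  unfold frG
  rw [← AlgHom.comp_apply]
  congr 1
  apply MvPolynomial.algHom_ext
  intro i
  simp [Matrix.mulVec, dotProduct]

theorem frG_hom (hF : F.IsHomogeneous d) (M : Matrix (Fin 4) (Fin 4) ℂ) :
    (frG F M).IsHomogeneous d := by
  unfold frG
  have h0 : ∀ i, (∑ j, C (M i j) * X j : MvPolynomial (Fin 4) ℂ).IsHomogeneous 1 := by
    intro i
    apply MvPolynomial.IsHomogeneous.sum
    intro j _
    have := (isHomogeneous_C (Fin 4) (M i j)).mul (isHomogeneous_X ℂ j)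
    rwa [zero_add] at this
  have h := hF.aeval (fun i => ∑ j, C (M i j) * X j : Fin 4 → MvPolynomial (Fin 4) ℂ) h0
  rwa [one_mul] at h

/-- there is a point of the surface other than `p` on the line -/
theorem exists_line_pt (hd : 2 ≤ d) (hF : IsSmoothForm F d) {k : Fl} {p : PP}
    {M : Matrix (Fin 4) (Fin 4) ℂ} (hM : IsFrame k F d p M) :
    ∃ z : Fin 4 → ℂ, z 0 = 0 ∧ z 1 = 0 ∧ z 2 = 1 ∧ mkP (M.mulVec z) ∈ surf F := by
  classical
  set G := frG F M with hG
  have hGh : G.IsHomogeneous d := frG_hom hF.hom M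
  let m₀ : Fin 4 →₀ ℕ := Finsupp.single 2 1 + Finsupp.single 3 (d - 1)
  have hm0 : m₀.degree = d := by
    simp only [m₀, map_add, Finsupp.degree_single]
    omega
  have hm1 : m₀ ≠ Finsupp.single 3 d := by
    intro h
    have := DFunLike.congr_fun h 2
    simp [m₀] at this
  have hc : coeff m₀ G ≠ 0 := hM.ind.ne_zero (⟨m₀, hm0, hm1⟩ : Mon d)
  let P : Polynomial ℂ := aeval (![0, 0, 1, Polynomial.X] : Fin 4 → Polynomial ℂ) G
  have hP : P.coeff (d - 1) = coeff m₀ G := by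
    simp only [P, MvPolynomial.aeval_def, MvPolynomial.eval₂_eq', Polynomial.finsetSum_coeff]
    rw [Finset.sum_eq_single m₀]
    · simp [m₀, Fin.prod_univ_four, Polynomial.algebraMap_eq]
    · intro m hm hne
      rw [MvPolynomial.mem_support_iff] at hm
      have hdeg : m.degree = d := by
        have h := hGh hm
        rw [Finsupp.degree_eq_weight_one]
        exact h
      have hsum : m 0 + m 1 + m 2 + m 3 = d := by
        rw [← hdeg, Finsupp.degree_eq_sum, Fin.sum_univ_four]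
      rw [Fin.prod_univ_four]
      simp only [Matrix.cons_val_zero, Matrix.cons_val_one, Matrix.cons_val, one_pow, mul_one]
      by_cases h0 : m 0 = 0
      · by_cases h1 : m 1 = 0
        · have h3 : m 3 ≠ d - 1 := by
            intro h3
            apply hne
            ext i
            fin_cases i
            · simp [m₀, h0]
            · simp [m₀, h1]
            · simp [m₀]; omega
            · simp [m₀, h3]
          simp [h0, h1, Polynomial.algebraMap_eq, Polynomial.coeff_X_pow, Ne.symm h3]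
        · simp [h1]
      · simp [h0]
    · intro hm
      rw [MvPolynomial.notMem_support_iff] at hm
      rw [hm]
      simp
  obtain ⟨t, ht⟩ := IsAlgClosed.exists_root P (by
    intro h
    have h1 : P.natDegree = 0 := Polynomial.natDegree_eq_of_degree_eq_some h
    have h2 : d - 1 ≤ P.natDegree := Polynomial.le_natDegree_of_ne_zero (by rw [hP]; exact hc)
    omega)
  refine ⟨![0, 0, 1, t], rfl, rfl, rfl, ?_⟩
  have hz : (![0, 0, 1, t] : Fin 4 → ℂ) ≠ 0 := by
    intro h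
    have := congrFun h 2
    simp at this
  rw [mkP_eq (mulVec_ne hM.det hz), mem_surf_mk hF.hom, ← aeval_frG, ← hG]
  have h1 : Polynomial.eval t P = aeval (![0, 0, 1, t] : Fin 4 → ℂ) G := by
    have h2 : (Polynomial.aeval t : Polynomial ℂ →ₐ[ℂ] ℂ).comp
        (aeval (![0, 0, 1, Polynomial.X] : Fin 4 → Polynomial ℂ)) =
        (aeval (![0, 0, 1, t] : Fin 4 → ℂ) : MvPolynomial (Fin 4) ℂ →ₐ[ℂ] ℂ) := by
      apply MvPolynomial.algHom_ext
      intro i
      fin_cases i <;> simp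
    rw [← h2, AlgHom.comp_apply, Polynomial.coe_aeval_eq_eval]
  rw [← h1]
  exact ht

/-- a frame at `p` whose line goes through `r` -/
theorem exists_frame_line_of (hd : 4 ≤ d) (hF : IsSmoothForm F d) (k : Fl) [Countable k]
    {p r : PP} {M : Matrix (Fin 4) (Fin 4) ℂ} (hM : IsFrame k F d p M)
    (hr : r ∈ Gen (clo (adjP (cof k F) p)) F) :
    ∃ M, IsFrame k F d p M ∧ r ∈ lineSet F M := by
  obtain ⟨z, hz0, hz1, hz2, hzF⟩ := exists_line_pt (by omega) hF hM
  have hz : z ≠ 0 := by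
    intro h
    rw [h] at hz2
    simp at hz2
  have hcof : cof k F ≤ clo (adjP (cof k F) p) := (le_adjP _ p).trans (le_clo _)
  have h1 := hM.line z hz0 hz1 (by rw [hz2]; exact one_ne_zero) hzF
  obtain ⟨σ, hσ, hσr⟩ := gen_conj hd hF (clo (adjP (cof k F) p))
    ((coef_cof k F).mono hcof) h1 hr
  have hσK : σ ∈ Fix (cof k F) := Fix_mono hcof hσ
  have hσp : act σ p = p :=
    ((over_adjP (cof k F) p).mono (le_clo _)).act_eq hσ
  refine ⟨M.map σ, ?_, ?_⟩
  · have h2 := hM.act hF hσK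
    rwa [hσp] at h2
  · rw [← lineSet_act hF hσK]
    exact ⟨_, ⟨hzF, z, hz, hz0, hz1, rfl⟩, hσr⟩

end Pool.Agent.VGS
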