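import Pool.Agent.VGS.MumB

/-! Module MumC: values of two-forms at a place. -/

set_option autoImplicit false

open scoped LinearAlgebra.Projectivization
open MvPolynomial

namespace Pool.Agent.VGS

open Pool.Agent.LowDeg (surf IsSmoothForm Place det4)
open Pool.Agent.LowDeg.SmoothExtAux (det4_expand)
open Pool.Agent.LowDeg.LocalDerAux (Ge)
open Pool.Agent.LowDeg.Place (IsVal)

section abs

variable {K E : Type} [Field K] [Field E] [Algebra K E] {P : Place K E}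

theorem mumc_det_ge {ρ : ℤ} {v z x y : Fin 4 → E} (hv : ∀ j, P.Int (v j)) (hz : ∀ j, P.Int (z j))
    (hx : ∀ j, P.Int (x j)) (hy : ∀ j, Ge P ρ (y j)) : Ge P ρ (det4 v z x y) := by
  rw [det4_expand]
  have h0 : ∀ a b c e : Fin 4, Ge P ρ (z a * (x b * y c - x c * y e)) := fun a b c e =>
    Ge.int_mul (hz a) (Ge.sub (Ge.int_mul (hx b) (hy c)) (Ge.int_mul (hx c) (hy e)))
  have h1 : ∀ a b c : Fin 4, Ge P ρ (z a * (x b * y c - x c * y b)) := fun a b c =>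
    Ge.int_mul (hz a) (Ge.sub (Ge.int_mul (hx b) (hy c)) (Ge.int_mul (hx c) (hy b)))
  exact Ge.sub (Ge.add (Ge.sub (Ge.int_mul (hv _) (Ge.add (Ge.sub (h1 _ _ _) (h1 _ _ _)) (h1 _ _ _)))
    (Ge.int_mul (hv _) (Ge.add (Ge.sub (h1 _ _ _) (h1 _ _ _)) (h1 _ _ _))))
    (Ge.int_mul (hv _) (Ge.add (Ge.sub (h1 _ _ _) (h1 _ _ _)) (h1 _ _ _))))
    (Ge.int_mul (hv _) (Ge.add (Ge.sub (h1 _ _ _) (h1 _ _ _)) (h1 _ _ _)))

theorem mumc_det_val {v z x y : Fin 4 → E} {v₀ z₀ x₀ y₀ : Fin 4 → K}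
    (hv : ∀ j, P.IsVal (v j) (v₀ j)) (hz : ∀ j, P.IsVal (z j) (z₀ j))
    (hx : ∀ j, P.IsVal (x j) (x₀ j)) (hy : ∀ j, P.IsVal (y j) (y₀ j)) :
    P.IsVal (det4 v z x y) (det4 v₀ z₀ x₀ y₀) := by
  rw [det4_expand, det4_expand]
  have h1 : ∀ a b c : Fin 4, P.IsVal (z a * (x b * y c - x c * y b))
      (z₀ a * (x₀ b * y₀ c - x₀ c * y₀ b)) := fun a b c =>
    IsVal.mul (hz a) (IsVal.sub (IsVal.mul (hx b) (hy c)) (IsVal.mul (hx c) (hy b)))
  exact IsVal.sub (IsVal.add (IsVal.sub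
    (IsVal.mul (hv _) (IsVal.add (IsVal.sub (h1 _ _ _) (h1 _ _ _)) (h1 _ _ _)))
    (IsVal.mul (hv _) (IsVal.add (IsVal.sub (h1 _ _ _) (h1 _ _ _)) (h1 _ _ _))))
    (IsVal.mul (hv _) (IsVal.add (IsVal.sub (h1 _ _ _) (h1 _ _ _)) (h1 _ _ _))))
    (IsVal.mul (hv _) (IsVal.add (IsVal.sub (h1 _ _ _) (h1 _ _ _)) (h1 _ _ _)))

theorem mumc_single (i j : Fin 4) :
    P.IsVal ((Pi.single i 1 : Fin 4 → E) j) ((Pi.single i 1 : Fin 4 → K) j) := by
  by_cases h : j = i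
  · subst h
    rw [Pi.single_eq_same, Pi.single_eq_same]
    exact P.isVal_one
  · rw [Pi.single_eq_of_ne h, Pi.single_eq_of_ne h]
    have := P.isVal_const (0 : K)
    rwa [map_zero] at this

end abs

variable {F : MvPolynomial (Fin 4) ℂ} {d : ℕ}

/-- a formula for `tau` -/
theorem tau_formula (hd : 4 ≤ d) (hF : IsSmoothForm F d) {L : Fl} (hFL : Coef L F)
    {D₁ D₂ : Derivation ℤ ℂ ℂ} (h₁ : Kills L D₁) (h₂ : Kills L D₂) {z : Fin 4 → ℂ} (hz : z ≠ 0)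
    (hzF : aeval z F = 0) {f : MvPolynomial (Fin 4) ℂ} (hf : f.IsHomogeneous (d - 4)) {i : Fin 4}
    (hi : aeval z (pderiv i F) ≠ 0) :
    tau F D₁ D₂ f (Projectivization.mk ℂ z hz) = aeval z f *
      (det4 (Pi.single i 1) z (fun j => D₁ (z j)) (fun j => D₂ (z j)) / aeval z (pderiv i F)) := by
  obtain ⟨J, hJ⟩ := exists_isResC hd hF hFL h₁ h₂ hz hzF
  rw [tau_eq hd hF hFL h₁ h₂ hz hzF hf hJ, hJ]
  have h3 : dFc F z (Pi.single i 1) = aeval z (pderiv i F) := by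
    unfold dFc
    rw [Finset.sum_eq_single i]
    · rw [Pi.single_eq_same, one_mul]
    · intro j _ hj
      rw [Pi.single_eq_of_ne hj, zero_mul]
    · intro h
      exact absurd (Finset.mem_univ i) h
  rw [h3, mul_div_cancel_right₀ _ hi]

theorem mumc_coe_det {C₀ : Fl} {E : IntermediateField C₀ ℂ} (i : Fin 4) (z x y : Fin 4 → E) :
    ((det4 (Pi.single i 1) z x y : E) : ℂ) =
      det4 (Pi.single i 1) (fun j => (z j : ℂ)) (fun j => (x j : ℂ)) (fun j => (y j : ℂ)) := by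
  have h1 : ∀ j, (((Pi.single i 1 : Fin 4 → E) j : E) : ℂ) = (Pi.single i 1 : Fin 4 → ℂ) j := by
    intro j
    by_cases h : j = i
    · subst h
      rw [Pi.single_eq_same, Pi.single_eq_same]
      rfl
    · rw [Pi.single_eq_of_ne h, Pi.single_eq_of_ne h]
      rfl
  rw [det4_expand, det4_expand]
  simp only [← h1]
  push_cast
  ring

theorem mumc_coe_det' {C₀ : Fl} (i : Fin 4) (z x y : Fin 4 → C₀) :
    ((det4 (Pi.single i 1) z x y : C₀) : ℂ) =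
      det4 (Pi.single i 1) (fun j => (z j : ℂ)) (fun j => (x j : ℂ)) (fun j => (y j : ℂ)) := by
  have h1 : ∀ j, (((Pi.single i 1 : Fin 4 → C₀) j : C₀) : ℂ) = (Pi.single i 1 : Fin 4 → ℂ) j := by
    intro j
    by_cases h : j = i
    · subst h
      rw [Pi.single_eq_same, Pi.single_eq_same]
      rfl
    · rw [Pi.single_eq_of_ne h, Pi.single_eq_of_ne h]
      rfl
  rw [det4_expand, det4_expand]
  simp only [← h1]
  push_cast
  ring

theorem mumc_coe_aeval {C₀ : Fl} {E : IntermediateField C₀ ℂ} (z : Fin 4 → E)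
    (G : MvPolynomial (Fin 4) C₀) :
    ((aeval z G : E) : ℂ) = aeval (fun j => (z j : ℂ)) (map (algebraMap C₀ ℂ) G) := by
  rw [MvPolynomial.aeval_map_algebraMap]
  exact (MvPolynomial.aeval_algebraMap_apply (B := ℂ) z G).symm

theorem mumc_coe_aeval' {C₀ : Fl} (z : Fin 4 → C₀) (G : MvPolynomial (Fin 4) C₀) :
    ((aeval z G : C₀) : ℂ) = aeval (fun j => (z j : ℂ)) (map (algebraMap C₀ ℂ) G) := by
  rw [MvPolynomial.aeval_map_algebraMap]
  exact (MvPolynomial.aeval_algebraMap_apply (B := ℂ) z G).symm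

theorem mum_loc (hd : 4 ≤ d) (hF : IsSmoothForm F d) {L C₀ : Fl} (hL : L ≤ C₀) (hFL : Coef L F)
    {E : IntermediateField C₀ ℂ} (P : Place C₀ E) {D₁ D₂ : Derivation ℤ ℂ ℂ}
    (hD₁ : ∀ x ∈ E, D₁ x ∈ E) (hD₂ : ∀ x ∈ E, D₂ x ∈ E) (h₁ : Kills L D₁) (h₂ : Kills L D₂)
    {f : MvPolynomial (Fin 4) ℂ} (hf : f.IsHomogeneous (d - 4)) (hfC : Coef C₀ f) {p q : PP}
    (hp : p ∈ surf F) (h : SpE P p q) :
    ∃ x : E, (x : ℂ) = tau F D₁ D₂ f p ∧
      (∀ ρ : ℤ, (∀ y : E, P.Int y → P.Int (resD E D₁ hD₁ y)) →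
        (∀ y : E, P.Int y → Ge P ρ (resD E D₂ hD₂ y)) → Ge P ρ x) ∧
      (∀ δ₁ δ₂ : Derivation ℤ ℂ ℂ, Kills L δ₁ → Kills L δ₂ →
        (∀ (y : E) (c : C₀), P.IsVal y c → ∃ c' : C₀, (c' : ℂ) = δ₁ c ∧
          P.IsVal (resD E D₁ hD₁ y) c') →
        (∀ (y : E) (c : C₀), P.IsVal y c → ∃ c' : C₀, (c' : ℂ) = δ₂ c ∧
          P.IsVal (resD E D₂ hD₂ y) c') →
        ∃ c : C₀, (c : ℂ) = tau F δ₁ δ₂ f q ∧ P.IsVal x c) := by
  obtain ⟨z, w, hz, hw, rfl, rfl, hval⟩ := h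
  have hzF : aeval (fun i => (z i : ℂ)) F = 0 := (mem_surf_mk hF.hom hz).1 hp
  obtain ⟨F₀, hF₀⟩ := exists_map_eq (hFL.mono hL)
  obtain ⟨f₀, hf₀⟩ := exists_map_eq hfC
  have hzF₀ : aeval z F₀ = 0 := by
    apply Subtype.ext
    rw [mumc_coe_aeval, hF₀, hzF]
    rfl
  have hwF₀ : aeval w F₀ = 0 := by
    have h3 := IsVal.aeval hval F₀
    rw [hzF₀] at h3
    have h4 := P.isVal_const (0 : C₀)
    rw [map_zero] at h4
    exact h3.unique h4
  have hwF : aeval (fun i => (w i : ℂ)) F = 0 := by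
    rw [← hF₀, ← mumc_coe_aeval', hwF₀]
    rfl
  obtain ⟨i, hi⟩ := hF.smooth _ hw hwF
  have hpd : ∀ i, map (algebraMap C₀ ℂ) (pderiv i F₀) = pderiv i F := by
    intro i
    rw [← hF₀, pderiv_map]
  have hg₀ : aeval w (pderiv i F₀) ≠ 0 := by
    intro h0
    apply hi
    rw [← hpd, ← mumc_coe_aeval', h0]
    rfl
  have hg : P.IsVal (aeval z (pderiv i F₀)) (aeval w (pderiv i F₀)) := IsVal.aeval hval _
  have hg0 : aeval z (pderiv i F₀) ≠ 0 := hg.ne_zero hg₀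
  have hi' : aeval (fun i => (z i : ℂ)) (pderiv i F) ≠ 0 := by
    rw [← hpd, ← mumc_coe_aeval]
    intro h0
    apply hg0
    exact Subtype.ext h0
  have hzint : ∀ j, P.Int (z j) := fun j => (hval j).int
  refine ⟨aeval z f₀ * (det4 (Pi.single i 1) z (fun j => resD E D₁ hD₁ (z j))
    (fun j => resD E D₂ hD₂ (z j)) / aeval z (pderiv i F₀)), ?_, ?_, ?_⟩
  · rw [tau_formula hd hF hFL h₁ h₂ hz hzF hf hi', IntermediateField.coe_mul,
      IntermediateField.coe_div, mumc_coe_det, mumc_coe_aeval, mumc_coe_aeval, hf₀, hpd]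
    rfl
  · intro ρ k₁ k₂
    refine Ge.int_mul (IsVal.aeval hval f₀).int ?_
    rw [div_eq_mul_inv]
    refine Ge.mul_int (mumc_det_ge (fun j => (mumc_single i j).int) hzint
      (fun j => k₁ _ (hzint j)) (fun j => k₂ _ (hzint j))) ?_
    exact (hg.inv hg₀).int
  · intro δ₁ δ₂ e₁ e₂ k₁ k₂
    choose x₁ hx₁ hx₁' using fun j => k₁ (z j) (w j) (hval j)
    choose x₂ hx₂ hx₂' using fun j => k₂ (z j) (w j) (hval j)
    refine ⟨aeval w f₀ * (det4 (Pi.single i 1) w x₁ x₂ / aeval w (pderiv i F₀)), ?_, ?_⟩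
    · rw [tau_formula hd hF hFL e₁ e₂ hw hwF hf hi, IntermediateField.coe_mul,
        IntermediateField.coe_div, mumc_coe_det', mumc_coe_aeval', mumc_coe_aeval', hf₀, hpd]
      congr 3
      · funext j
        exact hx₁ j
      · funext j
        exact hx₂ j
    · exact (IsVal.aeval hval f₀).mul ((mumc_det_val (mumc_single i) hval hx₁' hx₂').div hg hg₀)

end Pool.Agent.VGS
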