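import Pool.Agent.VGS.MumF
import Pool.Agent.VGS.MumC
import Pool.Agent.VGS.MumG
import Pool.Agent.VGS.Stab

/-! Module Mum: Mumford's theorem (section 2). -/

set_option autoImplicit false

open scoped LinearAlgebra.Projectivization
open MvPolynomial

namespace Pool.Agent.VGS

open Pool.Agent.LowDeg (surf IsSmoothForm Place)
open Pool.Agent.LowDeg.LocalDerAux (Ge)
open Pool.Agent.Chow0 (IsLink IsChowForm chowForm)

variable {F : MvPolynomial (Fin 4) ℂ} {d : ℕ}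

/-- a countable algebraically closed field stable under two derivations -/
theorem exists_stable_field (L : Fl) [Countable L] (D₁ D₂ : Derivation ℤ ℂ ℂ) :
    ∃ C : Fl, Countable C ∧ L ≤ C ∧ clo C = C ∧ ∀ x ∈ C, D₁ x ∈ C ∧ D₂ x ∈ C :=
  exists_stable_field' L D₁ D₂

section local_

variable {C₀ : Fl} {E : IntermediateField C₀ ℂ}

/-- a derivation which kills a local parameter -/
theorem mum_good (P : Place C₀ E) {D : Derivation ℤ ℂ ℂ} (hD : ∀ x ∈ E, D x ∈ E)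
    (hc : ∀ c ∈ C₀, D c ∈ C₀) (a : E) (ha0 : a ≠ 0) (ha : P.Sm a) (hDa : D a = 0)
    (halg : ∀ x : E, Transcendental C₀ x → Algebra.IsAlgebraic (IntermediateField.adjoin C₀ {x}) E) :
    (∀ y : E, P.Int y → P.Int (resD E D hD y)) ∧
      ∀ (y : E) (c : C₀), P.IsVal y c → ∃ c' : C₀, (c' : ℂ) = D c ∧
        P.IsVal (resD E D hD y) c' := by
  have h1 : ∀ c : C₀, resD E D hD (algebraMap C₀ E c) = algebraMap C₀ E ⟨D c, hc c c.2⟩ :=
    fun c => Subtype.ext rfl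
  obtain ⟨-, -, h2⟩ := Pool.Agent.LowDeg.der_log_int P halg (resD E D hD)
    (fun c => ⟨_, h1 c⟩) a ha0 ha ⟨0, by
      rw [map_zero, zero_mul]
      exact Subtype.ext hDa⟩
  have h3 : ∀ (y : E) (c : C₀), P.IsVal y c → ∃ c' : C₀, (c' : ℂ) = D c ∧
      P.IsVal (resD E D hD y) c' := fun y c h => ⟨⟨D c, hc c c.2⟩, rfl, h2 y c _ h (h1 c)⟩
  refine ⟨fun y hy => ?_, h3⟩
  obtain ⟨c, hc'⟩ := hy.exists_isVal
  obtain ⟨c', -, h4⟩ := h3 y c hc'
  exact h4.int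

theorem mum_sum_ge (hd : 4 ≤ d) (hF : IsSmoothForm F d) {L : Fl} (hL : L ≤ C₀) (hFL : Coef L F)
    (P : Place C₀ E) {D₁ D₂ : Derivation ℤ ℂ ℂ}
    (hD₁ : ∀ x ∈ E, D₁ x ∈ E) (hD₂ : ∀ x ∈ E, D₂ x ∈ E) (h₁ : Kills L D₁) (h₂ : Kills L D₂)
    {f : MvPolynomial (Fin 4) ℂ} (hf : f.IsHomogeneous (d - 4)) (hfC : Coef C₀ f)
    {S : Multiset PP} (hS : ∀ p ∈ S, OvE E p) (hSF : ∀ p ∈ S, p ∈ surf F) {ρ : ℤ}
    (k₁ : ∀ y : E, P.Int y → P.Int (resD E D₁ hD₁ y))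
    (k₂ : ∀ y : E, P.Int y → Ge P ρ (resD E D₂ hD₂ y)) :
    ∃ x : E, (x : ℂ) = (S.map fun p => tau F D₁ D₂ f p).sum ∧ Ge P ρ x := by
  induction S using Multiset.induction_on with
  | empty => exact ⟨0, by simp, Or.inl rfl⟩
  | cons p S ih =>
    obtain ⟨x, hx, hx'⟩ := ih (fun q hq => hS q (Multiset.mem_cons_of_mem hq))
      (fun q hq => hSF q (Multiset.mem_cons_of_mem hq))
    obtain ⟨q, hq⟩ := exists_spE P (hS p (Multiset.mem_cons_self _ _))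
    obtain ⟨y, hy, hy', -⟩ := mum_loc hd hF hL hFL P hD₁ hD₂ h₁ h₂ hf hfC
      (hSF p (Multiset.mem_cons_self _ _)) hq
    refine ⟨y + x, ?_, (hy' ρ k₁ k₂).add hx'⟩
    rw [Multiset.map_cons, Multiset.sum_cons, ← hy, ← hx]
    rfl

theorem mum_sum_val (hd : 4 ≤ d) (hF : IsSmoothForm F d) {L : Fl} (hL : L ≤ C₀) (hFL : Coef L F)
    (P : Place C₀ E) {D₁ D₂ δ₁ δ₂ : Derivation ℤ ℂ ℂ}
    (hD₁ : ∀ x ∈ E, D₁ x ∈ E) (hD₂ : ∀ x ∈ E, D₂ x ∈ E) (h₁ : Kills L D₁) (h₂ : Kills L D₂)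
    (e₁ : Kills L δ₁) (e₂ : Kills L δ₂)
    {f : MvPolynomial (Fin 4) ℂ} (hf : f.IsHomogeneous (d - 4)) (hfC : Coef C₀ f)
    {S : Multiset PP} (hSF : ∀ p ∈ S, p ∈ surf F) {g : PP → PP}
    (hg : ∀ p ∈ S, SpE P p (g p))
    (k₁ : ∀ (y : E) (c : C₀), P.IsVal y c → ∃ c' : C₀, (c' : ℂ) = δ₁ c ∧
      P.IsVal (resD E D₁ hD₁ y) c')
    (k₂ : ∀ (y : E) (c : C₀), P.IsVal y c → ∃ c' : C₀, (c' : ℂ) = δ₂ c ∧
      P.IsVal (resD E D₂ hD₂ y) c') :
    ∃ (x : E) (c : C₀), (x : ℂ) = (S.map fun p => tau F D₁ D₂ f p).sum ∧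
      (c : ℂ) = ((S.map g).map fun p => tau F δ₁ δ₂ f p).sum ∧ P.IsVal x c := by
  induction S using Multiset.induction_on with
  | empty => exact ⟨0, 0, by simp, by simp, by
      have := P.isVal_const (0 : C₀)
      rwa [map_zero] at this⟩
  | cons p S ih =>
    obtain ⟨x, c, hx, hc, hx'⟩ := ih (fun q hq => hSF q (Multiset.mem_cons_of_mem hq))
      (fun q hq => hg q (Multiset.mem_cons_of_mem hq))
    obtain ⟨y, hy, -, hy'⟩ := mum_loc hd hF hL hFL P hD₁ hD₂ h₁ h₂ hf hfC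
      (hSF p (Multiset.mem_cons_self _ _)) (hg p (Multiset.mem_cons_self _ _))
    obtain ⟨b, hb, hb'⟩ := hy' δ₁ δ₂ e₁ e₂ k₁ k₂
    refine ⟨y + x, b + c, ?_, ?_, hb'.add hx'⟩
    · rw [Multiset.map_cons, Multiset.sum_cons, ← hy, ← hx]
      rfl
    · rw [Multiset.map_cons, Multiset.map_cons, Multiset.sum_cons, ← hb, ← hc]
      rfl

end local_

theorem mum_ms_sum_add {α : Type} (S : Multiset α) (a b c e : α → ℂ) (x y : ℂ)
    (h : ∀ p ∈ S, a p = b p + x * c p + y * e p) :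
    (S.map a).sum = (S.map b).sum + x * (S.map c).sum + y * (S.map e).sum := by
  induction S using Multiset.induction_on with
  | empty => simp
  | cons p S ih =>
    rw [Multiset.map_cons, Multiset.map_cons, Multiset.map_cons, Multiset.map_cons,
      Multiset.sum_cons, Multiset.sum_cons, Multiset.sum_cons, Multiset.sum_cons,
      ih (fun q hq => h q (Multiset.mem_cons_of_mem hq)), h p (Multiset.mem_cons_self _ _)]
    ring

/-- The sum of the values of the two-form over the points of a family is integral at all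
places. -/
theorem mum_int (hd : 4 ≤ d) (hF : IsSmoothForm F d) {L C₀ : Fl} [Countable C₀] (hC : clo C₀ = C₀)
    (hL : L ≤ C₀) (hFL : Coef L F) {t : ℂ} (ht : t ∉ C₀) {E : IntermediateField C₀ ℂ}
    (htE : t ∈ E) (hEc : ∀ x ∈ E, x ∈ clo (adj C₀ {t}))
    (htr : Transcendental C₀ (⟨t, htE⟩ : E))
    [FiniteDimensional (IntermediateField.adjoin C₀ {(⟨t, htE⟩ : E)}) E]
    (hmem : ∀ x : E, x ∈ IntermediateField.adjoin C₀ {(⟨t, htE⟩ : E)} ↔ (x : ℂ) ∈ adj C₀ {t})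
    {D₁ D₂ : Derivation ℤ ℂ ℂ} (h₁ : Kills L D₁) (h₂ : Kills L D₂)
    (c₁ : ∀ c ∈ C₀, D₁ c ∈ C₀) (c₂ : ∀ c ∈ C₀, D₂ c ∈ C₀) (t₁ : D₁ t = 0) (t₂ : D₂ t = 0)
    {f : MvPolynomial (Fin 4) ℂ} (hf : f.IsHomogeneous (d - 4)) (hfC : Coef C₀ f)
    {S : Multiset PP} (hS : ∀ p ∈ S, OvE E p) (hSc : ∀ p ∈ S, Over (clo (adj C₀ {t})) p)
    (hSF : ∀ p ∈ S, p ∈ surf F)
    (hSs : ∀ σ ∈ Fix (adj C₀ {t}), S.map (act σ) = S) (P : Place C₀ E) :
    ∃ x : E, (x : ℂ) = (S.map fun p => tau F D₁ D₂ f p).sum ∧ P.Int x := by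
  have hac : IsAlgClosed C₀ := by
    have h3 := isAlgClosed_clo C₀
    rw [hC] at h3
    exact h3
  have halg : ∀ x : E, Transcendental C₀ x →
      Algebra.IsAlgebraic (IntermediateField.adjoin C₀ {x}) E := fun x hx =>
    Pool.Agent.LowDeg.TraceValAux.alg_of_trans (⟨t, htE⟩ : E) x hx
  have hCE : ∀ c ∈ C₀, c ∈ E := fun c hc => E.algebraMap_mem ⟨c, hc⟩
  have hmemE : ∀ D : Derivation ℤ ℂ ℂ, (∀ c ∈ C₀, D c ∈ C₀) → D t ∈ C₀ → ∀ x ∈ E, D x ∈ E :=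
    fun D hD hDt => mum_der_mem htE hEc D (fun c hc => hCE _ (hD c hc)) (hCE _ hDt)
  have hD₁ := hmemE D₁ c₁ (by rw [t₁]; exact C₀.zero_mem)
  have hD₂ := hmemE D₂ c₂ (by rw [t₂]; exact C₀.zero_mem)
  by_cases hPt : P.Int (⟨t, htE⟩ : E)
  · -- a finite place
    obtain ⟨t₀, ht₀⟩ := hPt.exists_isVal
    obtain ⟨a, ha⟩ : ∃ a : E, a = (⟨t, htE⟩ : E) - algebraMap C₀ E t₀ := ⟨_, rfl⟩
    have haS : P.Sm a := by
      rw [ha]
      exact ht₀
    have haC : (a : ℂ) = t - t₀ := by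
      rw [ha]
      rfl
    have ha0 : a ≠ 0 := by
      intro h0
      apply ht
      have h3 : (a : ℂ) = 0 := by rw [h0]; rfl
      rw [haC, sub_eq_zero] at h3
      rw [h3]
      exact t₀.2
    obtain ⟨Dt, hdc, hdt⟩ := mum_exists_dt C₀ hC ht
    have hdL : Kills L Dt := fun x hx => hdc x (hL hx)
    have hdcC : ∀ c ∈ C₀, Dt c ∈ C₀ := fun c hc => by rw [hdc c hc]; exact C₀.zero_mem
    have hdtC : Dt t ∈ C₀ := by rw [hdt]; exact C₀.one_mem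
    have hdE := hmemE Dt hdcC hdtC
    have hmk : ∀ D : Derivation ℤ ℂ ℂ, Kills L D → (∀ c ∈ C₀, D c ∈ C₀) → D t = 0 →
        ∃ D' : Derivation ℤ ℂ ℂ, D = D' + (-D t₀) • Dt ∧ Kills L D' ∧ (∀ c ∈ C₀, D' c ∈ C₀) ∧
          D' t ∈ C₀ ∧ D' a = 0 := by
      intro D hDL hDc hDt
      refine ⟨D + (D t₀) • Dt, ?_, ?_, ?_, ?_, ?_⟩
      · ext x
        simp only [Derivation.add_apply, Derivation.smul_apply, smul_eq_mul]
        ring
      · intro x hx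
        rw [Derivation.add_apply, Derivation.smul_apply, hDL x hx, hdL x hx, smul_zero, add_zero]
      · intro c hc
        rw [Derivation.add_apply, Derivation.smul_apply, hdc c hc, smul_zero, add_zero]
        exact hDc c hc
      · rw [Derivation.add_apply, Derivation.smul_apply, hDt, hdt, smul_eq_mul, mul_one, zero_add]
        exact hDc _ t₀.2
      · rw [haC, map_sub, Derivation.add_apply, Derivation.smul_apply, Derivation.add_apply,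
          Derivation.smul_apply, hDt, hdt, hdc _ t₀.2]
        simp
    obtain ⟨D₁', g₁, l₁, m₁, n₁, o₁⟩ := hmk D₁ h₁ c₁ t₁
    obtain ⟨D₂', g₂, l₂, m₂, n₂, o₂⟩ := hmk D₂ h₂ c₂ t₂
    have hD₁' := hmemE D₁' m₁ n₁
    have hD₂' := hmemE D₂' m₂ n₂
    obtain ⟨G₁, -⟩ := mum_good P hD₁' m₁ a ha0 haS o₁ halg
    obtain ⟨G₂, -⟩ := mum_good P hD₂' m₂ a ha0 haS o₂ halg
    have G₃ : ∀ y : E, P.Int y → Ge P (1 - P.ord a) (resD E Dt hdE y) := by
      intro y hy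
      have h3 := mum_ge_der (⟨t, htE⟩ : E) htr P t₀ ht₀ (resD E Dt hdE)
        (fun c => ⟨0, by
          rw [map_zero]
          exact Subtype.ext (hdc c c.2)⟩)
        (by
          have h4 : resD E Dt hdE (⟨t, htE⟩ : E) = 1 := Subtype.ext hdt
          rw [h4]
          exact P.int_one) y hy
      rw [ha]
      exact h3
    obtain ⟨x₀, hx₀, hx₀'⟩ := mum_sum_ge (ρ := 0) hd hF hL hFL P hD₁' hD₂' l₁ l₂ hf hfC hS hSF G₁
      (fun y hy => G₂ y hy)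
    obtain ⟨x₁, hx₁, hx₁'⟩ := mum_sum_ge (ρ := 1 - P.ord a) hd hF hL hFL P hD₂' hdE l₂ hdL hf hfC
      hS hSF G₂ G₃
    obtain ⟨x₂, hx₂, hx₂'⟩ := mum_sum_ge (ρ := 1 - P.ord a) hd hF hL hFL P hD₁' hdE l₁ hdL hf hfC
      hS hSF G₁ G₃
    have i₁ : P.Int x₁ := by
      refine mum_int_of_ge (⟨t, htE⟩ : E) htr P t₀ ht₀ x₁ ?_ (by rw [← ha]; exact hx₁')
      rw [hmem, hx₁]
      exact mum_gal hd hF hL hFL l₂ hdL m₂ hdcC n₂ hdtC hf hfC hSc hSF hSs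
    have i₂ : P.Int x₂ := by
      refine mum_int_of_ge (⟨t, htE⟩ : E) htr P t₀ ht₀ x₂ ?_ (by rw [← ha]; exact hx₂')
      rw [hmem, hx₂]
      exact mum_gal hd hF hL hFL l₁ hdL m₁ hdcC n₁ hdtC hf hfC hSc hSF hSs
    obtain ⟨a₁, ha₁⟩ : ∃ a₁ : C₀, (a₁ : ℂ) = D₁ t₀ := ⟨⟨D₁ t₀, c₁ _ t₀.2⟩, rfl⟩
    obtain ⟨a₂, ha₂⟩ : ∃ a₂ : C₀, (a₂ : ℂ) = D₂ t₀ := ⟨⟨D₂ t₀, c₂ _ t₀.2⟩, rfl⟩
    refine ⟨x₀ + algebraMap C₀ E a₁ * x₁ + algebraMap C₀ E (-a₂) * x₂, ?_, ?_⟩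
    · have h3 := mum_ms_sum_add S (fun p => tau F D₁ D₂ f p) (fun p => tau F D₁' D₂' f p)
        (fun p => tau F D₂' Dt f p) (fun p => tau F D₁' Dt f p) (D₁ t₀) (-D₂ t₀) (by
          intro p hp
          have hp' := hSF p hp
          have q₁ : Kills L (D₁' + (-D₁ t₀) • Dt) := by rw [← g₁]; exact h₁
          have e1 : tau F D₁ D₂ f p = tau F (D₁' + (-D₁ t₀) • Dt) (D₂' + (-D₂ t₀) • Dt) f p := by
            rw [← g₁, ← g₂]
          change tau F D₁ D₂ f p = tau F D₁' D₂' f p + _ * tau F D₂' Dt f p + _ * tau F D₁' Dt f p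
          rw [e1, mumg_add hd hF hFL hf hp' q₁ l₂ hdL, mumg_add' hd hF hFL hf hp' l₂ l₁ hdL,
            mumg_add' hd hF hFL hf hp' hdL l₁ hdL, mumg_self hd hF hFL hf hp' hdL,
            mumg_swap hd hF hFL hf hp' l₂ hdL]
          ring)
      rw [h3, ← hx₀, ← hx₁, ← hx₂, ← ha₁, ← ha₂]
      rfl
    · exact ((show P.Int x₀ from hx₀').add ((P.int_const a₁).mul i₁)).add
        ((P.int_const (-a₂)).mul i₂)
  · -- an infinite place
    have hS' : P.Sm (⟨t, htE⟩ : E)⁻¹ := Place.sm_inv_of_not_int hPt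
    have ha0 : (⟨t, htE⟩ : E)⁻¹ ≠ 0 := by
      intro h0
      rw [inv_eq_zero] at h0
      apply ht
      have h3 : t = 0 := congrArg Subtype.val h0
      rw [h3]
      exact C₀.zero_mem
    have hz : ∀ D : Derivation ℤ ℂ ℂ, D t = 0 → D (((⟨t, htE⟩ : E)⁻¹ : E) : ℂ) = 0 := by
      intro D hD
      have h3 : (((⟨t, htE⟩ : E)⁻¹ : E) : ℂ) = t⁻¹ := rfl
      rw [h3, Derivation.leibniz_inv, hD, smul_zero]
    obtain ⟨G₁, -⟩ := mum_good P hD₁ c₁ _ ha0 hS' (hz _ t₁) halg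
    obtain ⟨G₂, -⟩ := mum_good P hD₂ c₂ _ ha0 hS' (hz _ t₂) halg
    exact mum_sum_ge (ρ := 0) hd hF hL hFL P hD₁ hD₂ h₁ h₂ hf hfC hS hSF G₁ (fun y hy => G₂ y hy)

theorem mum_chowForm_ne (s : Multiset PP) : chowForm s ≠ 0 := by
  unfold chowForm
  rw [Ne, Multiset.prod_eq_zero_iff, Multiset.mem_map]
  rintro ⟨p, -, hp⟩
  exact ch_linForm_ne_zero p.rep_nonzero hp

theorem mum_isCh_act {G : MvPolynomial (Fin 4) ℂ} {s : Multiset PP} (h : IsCh G s)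
    (σ : ℂ ≃+* ℂ) : IsCh (map (σ : ℂ →+* ℂ) G) (s.map (act σ)) := by
  obtain ⟨c, hc, hG⟩ := h
  obtain ⟨b, hb, h2⟩ := map_chowForm σ s
  refine ⟨σ c * b, mul_ne_zero (by simpa using hc) hb, ?_⟩
  rw [hG, map_mul, MvPolynomial.map_C, h2, ← mul_assoc, ← MvPolynomial.C_mul]
  rfl

theorem mum_coef_eval {L : Fl} {Φ : Polynomial (MvPolynomial (Fin 4) ℂ)}
    (hΦ : ∀ i, Coef L (Φ.coeff i)) {t : ℂ} (ht : t ∈ L) : Coef L (Φ.eval (C t)) := by
  intro m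
  rw [Polynomial.eval_eq_sum_range, coeff_sum]
  refine L.sum_mem fun i _ => ?_
  rw [← C_pow, mul_comm, coeff_C_mul]
  exact L.mul_mem (L.pow_mem ht i) (hΦ i m)

/-- invariance of the sum of the values of a two-form in a family -/
theorem mum_link (hd : 4 ≤ d) (hF : IsSmoothForm F d) (L : Fl) [Countable L] (hFL : Coef L F)
    {D₁ D₂ : Derivation ℤ ℂ ℂ} (h₁ : Kills L D₁) (h₂ : Kills L D₂)
    {f : MvPolynomial (Fin 4) ℂ} (hf : f.IsHomogeneous (d - 4)) {s₀ s₁ : Multiset (surf F)}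
    (hlink : IsLink (surf F) s₀ s₁) :
    ((s₀.map Subtype.val).map fun p => tau F D₁ D₂ f p).sum =
      ((s₁.map Subtype.val).map fun p => tau F D₁ D₂ f p).sum := by
  classical
  obtain ⟨Φ, hΦev, hΦ0, hΦ1⟩ := hlink
  -- the field `C₀`
  rw [Filter.eventually_cofinite] at hΦev
  obtain ⟨T, hT⟩ : ∃ T : Set ℂ, T = {t : ℂ | ¬ ∃ s : Multiset (surf F),
      IsChowForm (surf F) (Φ.eval (C t)) s} ∪ (Set.range fun m => coeff m f) ∪
      (Set.range fun im : ℕ × (Fin 4 →₀ ℕ) => coeff im.2 (Φ.coeff im.1)) := ⟨_, rfl⟩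
  have hTc : Countable T := by
    rw [hT]
    exact ((hΦev.countable.union (Set.countable_range _)).union (Set.countable_range _))
  obtain ⟨C₀, hC₀c, hLC', hC, hst⟩ := exists_stable_field (adj L T) D₁ D₂
  have hL : L ≤ C₀ := (le_adj _ _).trans hLC'
  have hTC : ∀ x ∈ T, x ∈ C₀ := fun x hx => hLC' (subset_adj _ _ hx)
  have hfC : Coef C₀ f := fun m => hTC _ (by rw [hT]; exact Or.inl (Or.inr ⟨m, rfl⟩))
  have hΦC : ∀ i, Coef C₀ (Φ.coeff i) := fun i m => hTC _ (by rw [hT]; exact Or.inr ⟨(i, m), rfl⟩)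
  have hac : IsAlgClosed C₀ := by
    have h3 := isAlgClosed_clo C₀
    rw [hC] at h3
    exact h3
  obtain ⟨t, ht⟩ := exists_notMem C₀
  obtain ⟨s, hs⟩ : ∃ s : Multiset (surf F), IsChowForm (surf F) (Φ.eval (C t)) s := by
    by_contra hcon
    exact ht (hTC t (by rw [hT]; exact Or.inl (Or.inl hcon)))
  obtain ⟨S, hSdef⟩ : ∃ S : Multiset PP, S = s.map Subtype.val := ⟨_, rfl⟩
  have hSch : IsCh (Φ.eval (C t)) S := by
    rw [hSdef]
    exact hs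
  have hSF : ∀ p ∈ S, p ∈ surf F := by
    intro p hp
    rw [hSdef, Multiset.mem_map] at hp
    obtain ⟨q, -, rfl⟩ := hp
    exact q.2
  -- stability
  have hSs : ∀ σ ∈ Fix (adj C₀ {t}), S.map (act σ) = S := by
    intro σ hσ
    have h3 := mum_isCh_act hSch σ
    have h4 : map (σ : ℂ →+* ℂ) (Φ.eval (C t)) = Φ.eval (C t) := by
      ext m
      rw [coeff_map]
      exact hσ _ (mum_coef_eval (L := adj C₀ {t}) (fun i => (hΦC i).mono (le_adj _ _))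
        (subset_adj _ _ rfl) m)
    rw [h4] at h3
    exact h3.unique hSch
  have hSc : ∀ p ∈ S, Over (clo (adj C₀ {t})) p := by
    intro p hp
    apply over_clo_of_finite
    refine Set.Finite.subset (S.toFinset.finite_toSet) ?_
    rintro q ⟨σ, hσ, rfl⟩
    rw [Finset.mem_coe, Multiset.mem_toFinset, ← hSs σ hσ]
    exact Multiset.mem_map_of_mem _ hp
  -- the field `E`
  have hcoord : ∀ p : PP, ∃ z : Fin 4 → ℂ, p ∈ S → (∀ i, z i ∈ clo (adj C₀ {t})) ∧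
      ∃ hz : z ≠ 0, p = Projectivization.mk ℂ z hz := by
    intro p
    by_cases hp : p ∈ S
    · obtain ⟨z, hz, h3, h4⟩ := hSc p hp
      exact ⟨z, fun _ => ⟨h3, hz, h4⟩⟩
    · exact ⟨0, fun h => absurd h hp⟩
  choose zc hzc using hcoord
  obtain ⟨E, htE, hTE, hEc, htr, hfin, hmem⟩ := mum_exists_E C₀ hC ht
    (S.toFinset.biUnion fun p => Finset.univ.image (zc p)) (by
      intro x hx
      rw [Finset.mem_biUnion] at hx
      obtain ⟨p, hp, hx⟩ := hx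
      rw [Multiset.mem_toFinset] at hp
      rw [Finset.mem_image] at hx
      obtain ⟨i, -, rfl⟩ := hx
      exact (hzc p hp).1 i)
  have hS : ∀ p ∈ S, OvE E p := by
    intro p hp
    obtain ⟨-, hz, h3⟩ := hzc p hp
    refine ⟨fun i => ⟨zc p i, hTE _ ?_⟩, hz, h3⟩
    rw [Finset.mem_biUnion]
    exact ⟨p, Multiset.mem_toFinset.2 hp, Finset.mem_image_of_mem _ (Finset.mem_univ i)⟩
  -- the derivations
  obtain ⟨Dt, hdc, hdt⟩ := mum_exists_dt C₀ hC ht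
  have hmk : ∀ D : Derivation ℤ ℂ ℂ, Kills L D → (∀ c ∈ C₀, D c ∈ C₀) →
      ∃ D' : Derivation ℤ ℂ ℂ, Kills L D' ∧ (∀ c ∈ C₀, D' c = D c) ∧ D' t = 0 := by
    intro D hDL hDc
    refine ⟨D + (-D t) • Dt, ?_, ?_, ?_⟩
    · intro x hx
      rw [Derivation.add_apply, Derivation.smul_apply, hDL x hx, hdc x (hL hx), smul_zero,
        add_zero]
    · intro c hc
      rw [Derivation.add_apply, Derivation.smul_apply, hdc c hc, smul_zero, add_zero]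
    · rw [Derivation.add_apply, Derivation.smul_apply, hdt]
      simp
  obtain ⟨D₁', l₁, m₁, n₁⟩ := hmk D₁ h₁ fun c hc => (hst c hc).1
  obtain ⟨D₂', l₂, m₂, n₂⟩ := hmk D₂ h₂ fun c hc => (hst c hc).2
  have q₁ : ∀ c ∈ C₀, D₁' c ∈ C₀ := fun c hc => by rw [m₁ c hc]; exact (hst c hc).1
  have q₂ : ∀ c ∈ C₀, D₂' c ∈ C₀ := fun c hc => by rw [m₂ c hc]; exact (hst c hc).2
  have hCE : ∀ c ∈ C₀, c ∈ E := fun c hc => E.algebraMap_mem ⟨c, hc⟩
  have hD₁ := mum_der_mem htE hEc D₁' (fun c hc => hCE _ (q₁ c hc))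
    (by rw [n₁]; exact E.zero_mem)
  have hD₂ := mum_der_mem htE hEc D₂' (fun c hc => hCE _ (q₂ c hc))
    (by rw [n₂]; exact E.zero_mem)
  have halg : ∀ x : E, Transcendental C₀ x →
      Algebra.IsAlgebraic (IntermediateField.adjoin C₀ {x}) E := fun x hx =>
    Pool.Agent.LowDeg.TraceValAux.alg_of_trans (⟨t, htE⟩ : E) x hx
  -- the sum is constant
  have hint : ∀ P : Place C₀ E, ∃ x : E, (x : ℂ) = (S.map fun p => tau F D₁' D₂' f p).sum ∧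
      P.Int x := fun P =>
    mum_int hd hF hC hL hFL ht htE hEc htr hmem l₁ l₂ q₁ q₂ n₁ n₂ hf hfC hS hSc hSF hSs P
  -- the value at a place over `t₀`
  have hval : ∀ (t₀ : C₀) (s' : Multiset (surf F)), D₁ t₀ = 0 → D₂ t₀ = 0 →
      IsChowForm (surf F) (Φ.eval (C (t₀ : ℂ))) s' → ∃ (P : Place C₀ E) (x : E) (c : C₀),
      (x : ℂ) = (S.map fun p => tau F D₁' D₂' f p).sum ∧
      (c : ℂ) = ((s'.map Subtype.val).map fun p => tau F D₁ D₂ f p).sum ∧ P.IsVal x c := by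
    intro t₀ s' z₁ z₂ hs'
    obtain ⟨a, ha⟩ : ∃ a : E, a = (⟨t, htE⟩ : E) - algebraMap C₀ E t₀ := ⟨_, rfl⟩
    have haC : (a : ℂ) = t - t₀ := by
      rw [ha]
      rfl
    have hatr : Transcendental C₀ a := by
      intro h3
      apply htr
      have h4 := h3.add (isAlgebraic_algebraMap (R := C₀) (A := E) t₀)
      rw [ha, sub_add_cancel] at h4
      exact h4
    have ha0 : a ≠ 0 := by
      rintro rfl
      exact hatr isAlgebraic_zero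
    have hfa : FiniteDimensional (IntermediateField.adjoin C₀ {a}) E :=
      Pool.Agent.LowDeg.TraceValAux.findim_of_trans (⟨t, htE⟩ : E) a hatr
    obtain ⟨P, hP⟩ := mum_exists_sm a hatr
    have hDa : ∀ D D' : Derivation ℤ ℂ ℂ, (∀ c ∈ C₀, D' c = D c) → D' t = 0 → D t₀ = 0 →
        D' a = 0 := by
      intro D D' e1 e2 e3
      rw [haC, map_sub, e2, e1 _ t₀.2, e3, sub_zero]
    obtain ⟨-, G₁⟩ := mum_good P hD₁ q₁ a ha0 hP (hDa _ _ m₁ n₁ z₁) halg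
    obtain ⟨-, G₂⟩ := mum_good P hD₂ q₂ a ha0 hP (hDa _ _ m₂ n₂ z₂) halg
    have hg : ∀ p : PP, ∃ q : PP, p ∈ S → SpE P p q := by
      intro p
      by_cases hp : p ∈ S
      · obtain ⟨q, hq⟩ := exists_spE P (hS p hp)
        exact ⟨q, fun _ => hq⟩
      · exact ⟨p, fun h => absurd h hp⟩
    choose g hg using hg
    obtain ⟨x, c, hx, hc, hxc⟩ := mum_sum_val hd hF hL hFL P hD₁ hD₂ l₁ l₂ h₁ h₂ hf hfC hSF hg
      (δ₁ := D₁) (δ₂ := D₂)
      (fun y c h => by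
        obtain ⟨c', h3, h4⟩ := G₁ y c h
        exact ⟨c', by rw [h3, m₁ _ c.2], h4⟩)
      (fun y c h => by
        obtain ⟨c', h3, h4⟩ := G₂ y c h
        exact ⟨c', by rw [h3, m₂ _ c.2], h4⟩)
    refine ⟨P, x, c, hx, ?_, hxc⟩
    have hne : Φ.eval (C (t₀ : ℂ)) ≠ 0 := by
      obtain ⟨b, hb, hb'⟩ := hs'
      rw [hb']
      exact mul_ne_zero (by simpa using hb) (mum_chowForm_ne _)
    have h3 := mum_limit P htE t₀.2 (by rw [ha] at hP; exact hP) Φ hΦC S hS hSch hne g hg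
    have h4 : IsCh (Φ.eval (C (t₀ : ℂ))) (s'.map Subtype.val) := hs'
    rw [hc, h3.unique h4]
  have hder0 : ∀ D : Derivation ℤ ℂ ℂ, D ((0 : C₀) : ℂ) = 0 := fun D => by
    change D 0 = 0
    rw [map_zero]
  have hder1 : ∀ D : Derivation ℤ ℂ ℂ, D ((1 : C₀) : ℂ) = 0 := fun D => by
    change D 1 = 0
    rw [Derivation.map_one_eq_zero]
  obtain ⟨P₀, x₀, c₀, hx₀, hc₀, v₀⟩ := hval 0 s₀ (hder0 _) (hder0 _) hΦ0
  obtain ⟨P₁, x₁, c₁, hx₁, hc₁, v₁⟩ := hval 1 s₁ (hder1 _) (hder1 _) hΦ1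
  have hxx : x₀ = x₁ := Subtype.ext (hx₀.trans hx₁.symm)
  obtain ⟨c, hc⟩ := mum_const (⟨t, htE⟩ : E) htr x₀ (fun P => by
    obtain ⟨x, hx, hx'⟩ := hint P
    have h3 : x = x₀ := Subtype.ext (hx.trans hx₀.symm)
    rwa [h3] at hx')
  have e₀ : c₀ = c := v₀.unique (by rw [hc]; exact P₀.isVal_const c)
  have e₁ : c₁ = c := v₁.unique (by rw [← hxx, hc]; exact P₁.isVal_const c)
  rw [← hc₀, ← hc₁, e₀, e₁]

theorem tauC_cycQ (D₁ D₂ : Derivation ℤ ℂ ℂ) (f : MvPolynomial (Fin 4) ℂ) (s : Multiset PP) :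
    tauC F D₁ D₂ f (cycQ s) = (s.map fun p => tau F D₁ D₂ f p).sum := by
  unfold cycQ
  rw [map_multiset_sum, Multiset.map_map]
  congr 1
  refine Multiset.map_congr rfl fun p _ => ?_
  change tauC F D₁ D₂ f (Finsupp.single p 1) = _
  unfold tauC
  rw [Finsupp.linearCombination_single, one_smul]

theorem mumford (hd : 4 ≤ d) (hF : IsSmoothForm F d) (L : Fl) [Countable L] (hFL : Coef L F)
    {D₁ D₂ : Derivation ℤ ℂ ℂ} (h₁ : Kills L D₁) (h₂ : Kills L D₂)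
    {f : MvPolynomial (Fin 4) ℂ} (hf : f.IsHomogeneous (d - 4)) {z : Cy} (hz : z ∈ ratQ F) :
    tauC F D₁ D₂ f z = 0 := by
  unfold ratQ at hz
  induction hz using Submodule.span_induction with
  | mem z hz =>
    obtain ⟨s₀, s₁, hlink, rfl⟩ := hz
    rw [map_sub, tauC_cycQ, tauC_cycQ, mum_link hd hF L hFL h₁ h₂ hf hlink, sub_self]
  | zero => rw [map_zero]
  | add x y _ _ hx hy => rw [map_add, hx, hy, add_zero]
  | smul c x _ hx => rw [map_smul, hx, smul_zero]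

end Pool.Agent.VGS
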