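import Pool.Agent.VGS.Tau

/-! Module RingA: the ring of correspondences (section 3), definitions and first properties. -/

set_option autoImplicit false

open scoped LinearAlgebra.Projectivization
open MvPolynomial

namespace Pool.Agent.VGS

open Pool.Agent.LowDeg (surf IsSmoothForm)

/-- Endomorphisms of the space of cycles. -/
abbrev En : Type := Module.End ℚ Cy

/-- the action of an automorphism on cycles, as a linear equivalence -/
noncomputable def actE (σ : ℂ ≃+* ℂ) : Cy ≃ₗ[ℚ] Cy :=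
  LinearEquiv.ofLinearMap (actC σ) (actC σ⁻¹)
    (by
      apply LinearMap.ext
      intro z
      change actC σ (actC σ⁻¹ z) = z
      rw [← actC_mul, mul_inv_cancel, actC_one])
    (by
      apply LinearMap.ext
      intro z
      change actC σ⁻¹ (actC σ z) = z
      rw [← actC_mul, inv_mul_cancel, actC_one])

/-- conjugation of endomorphisms -/
noncomputable def cj (σ : ℂ ≃+* ℂ) : En ≃ₐ[ℚ] En := (actE σ).conjAlgEquiv ℚ

theorem cj_apply (σ : ℂ ≃+* ℂ) (γ : En) (z : Cy) : cj σ γ z = actC σ (γ (actC σ⁻¹ z)) := rfl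

theorem cj_mul (σ τ : ℂ ≃+* ℂ) (γ : En) : cj (σ * τ) γ = cj σ (cj τ γ) := by
  apply LinearMap.ext
  intro z
  rw [cj_apply, cj_apply, cj_apply, actC_mul, mul_inv_rev, actC_mul]

/-- cycles of generic points -/
noncomputable def GenC (K : Fl) (F : MvPolynomial (Fin 4) ℂ) : Submodule ℚ Cy :=
  Finsupp.supported ℚ ℚ (Gen K F)

theorem mem_GenC {K : Fl} {F : MvPolynomial (Fin 4) ℂ} {z : Cy} :
    z ∈ GenC K F ↔ ∀ q ∈ z.support, q ∈ Gen K F := Iff.rfl

theorem single_mem_GenC {K : Fl} {F : MvPolynomial (Fin 4) ℂ} {p : PP} (hp : p ∈ Gen K F)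
    (c : ℚ) : Finsupp.single p c ∈ GenC K F := Finsupp.single_mem_supported ℚ c hp

theorem GenC_eq_span (K : Fl) (F : MvPolynomial (Fin 4) ℂ) :
    GenC K F = Submodule.span ℚ ((fun p => Finsupp.single p (1 : ℚ)) '' Gen K F) :=
  Finsupp.supported_eq_span_single ℚ (Gen K F)

/-- linear statements on cycles of generic points may be checked on points -/
theorem GenC_le {K : Fl} {F : MvPolynomial (Fin 4) ℂ} {N : Submodule ℚ Cy}
    (h : ∀ p ∈ Gen K F, Finsupp.single p (1 : ℚ) ∈ N) {z : Cy} (hz : z ∈ GenC K F) : z ∈ N := by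
  rw [GenC_eq_span] at hz
  refine (Submodule.span_le (p := N)).2 ?_ hz
  rintro _ ⟨p, hp, rfl⟩
  exact h p hp

theorem GenC_eqOn {K : Fl} {F : MvPolynomial (Fin 4) ℂ} {M : Type} [AddCommGroup M] [Module ℚ M]
    {φ ψ : Cy →ₗ[ℚ] M} (h : ∀ p ∈ Gen K F, φ (Finsupp.single p (1 : ℚ)) = ψ (Finsupp.single p 1))
    {z : Cy} (hz : z ∈ GenC K F) : φ z = ψ z := by
  have := GenC_le (K := K) (F := F) (N := LinearMap.eqLocus φ ψ) (fun p hp => h p hp) hz
  exact this

/-- the degree of a cycle -/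
noncomputable def deg : Cy →ₗ[ℚ] ℚ := Finsupp.linearCombination ℚ fun _ => (1 : ℚ)

@[simp] theorem deg_single (p : PP) (c : ℚ) : deg (Finsupp.single p c) = c := by
  unfold deg
  rw [Finsupp.linearCombination_single, smul_eq_mul, mul_one]

@[simp] theorem deg_actC (σ : ℂ ≃+* ℂ) (z : Cy) : deg (actC σ z) = deg z := by
  induction z using Finsupp.induction_linear with
  | zero => rw [map_zero]
  | add x y hx hy => rw [map_add, map_add, map_add, hx, hy]
  | single p c => rw [actC_single, deg_single, deg_single]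

/-- `γ` is a correspondence over `K'`. -/
structure InE (K K' : Fl) (F : MvPolynomial (Fin 4) ℂ) (γ : En) : Prop where
  gen : ∀ z ∈ GenC K F, γ z ∈ GenC K F
  equi : ∀ σ ∈ Fix K', ∀ z ∈ GenC K F, γ (actC σ z) = actC σ (γ z)

/-- `γ` acts on two-forms by the number `m`. -/
def Sc (K : Fl) (F : MvPolynomial (Fin 4) ℂ) (d : ℕ) (m : ℂ) (γ : En) : Prop :=
  ∀ z ∈ GenC K F, ∀ D₁ D₂ : Derivation ℤ ℂ ℂ, Kills K D₁ → Kills K D₂ →
    ∀ f : MvPolynomial (Fin 4) ℂ, f.IsHomogeneous (d - 4) →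
      tauC F D₁ D₂ f (γ z) = m * tauC F D₁ D₂ f z

@[simp] theorem tauC_single (F : MvPolynomial (Fin 4) ℂ) (D₁ D₂ : Derivation ℤ ℂ ℂ)
    (f : MvPolynomial (Fin 4) ℂ) (p : PP) (c : ℚ) :
    tauC F D₁ D₂ f (Finsupp.single p c) = c • tau F D₁ D₂ f p := by
  unfold tauC
  rw [Finsupp.linearCombination_single]

section

variable {F : MvPolynomial (Fin 4) ℂ} {d : ℕ}

theorem actC_mem_GenC {K : Fl} (hF : F.IsHomogeneous d) (hFK : Coef K F) {σ : ℂ ≃+* ℂ}
    (hσ : σ ∈ Fix K) {z : Cy} (hz : z ∈ GenC K F) : actC σ z ∈ GenC K F := by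
  refine GenC_le (N := (GenC K F).comap (actC σ)) (fun p hp => ?_) hz
  rw [Submodule.mem_comap, actC_single]
  exact single_mem_GenC ((act_mem_Gen hF hFK hσ).2 hp) 1

theorem inE_ext {K K' : Fl} {T : PP → Cy} (hT : IsT K K' F T) : InE K K' F (ext T) := by
  refine ⟨fun z hz => ?_, fun σ hσ z hz => ?_⟩
  · refine GenC_le (N := (GenC K F).comap (ext T)) (fun p hp => ?_) hz
    rw [Submodule.mem_comap, ext_single, one_smul]
    exact mem_GenC.2 (hT.supp p hp)
  · refine GenC_eqOn (φ := (ext T).comp (actC σ)) (ψ := (actC σ).comp (ext T))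
      (fun p hp => ?_) hz
    rw [LinearMap.comp_apply, LinearMap.comp_apply, actC_single, ext_single, ext_single, one_smul,
      one_smul]
    exact hT.equi σ hσ p hp

theorem isT_of_inE {K K' : Fl} {γ : En} (h : InE K K' F γ) :
    IsT K K' F (fun p => γ (Finsupp.single p 1)) := by
  refine ⟨fun p hp => mem_GenC.1 (h.gen _ (single_mem_GenC hp 1)), fun σ hσ p hp => ?_⟩
  have := h.equi σ hσ _ (single_mem_GenC hp 1)
  rwa [actC_single] at this

theorem ext_of_En (γ : En) : ext (fun p => γ (Finsupp.single p 1)) = γ := by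
  apply Finsupp.lhom_ext
  intro p c
  rw [ext_single]
  change c • γ (Finsupp.single p 1) = γ (Finsupp.single p c)
  rw [← map_smul, Finsupp.smul_single, smul_eq_mul, mul_one]

theorem InE.mul {K K' : Fl} {α β : En} (hα : InE K K' F α) (hβ : InE K K' F β) : InE K K' F (α * β) := by
  refine ⟨fun z hz => hα.gen _ (hβ.gen z hz), fun σ hσ z hz => ?_⟩
  change α (β (actC σ z)) = actC σ (α (β z))
  rw [hβ.equi σ hσ z hz, hα.equi σ hσ _ (hβ.gen z hz)]

theorem InE.add {K K' : Fl} {α β : En} (hα : InE K K' F α) (hβ : InE K K' F β) :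
    InE K K' F (α + β) := by
  refine ⟨fun z hz => Submodule.add_mem _ (hα.gen z hz) (hβ.gen z hz), fun σ hσ z hz => ?_⟩
  change α (actC σ z) + β (actC σ z) = actC σ (α z + β z)
  rw [hβ.equi σ hσ z hz, hα.equi σ hσ z hz, map_add]

theorem InE.smul {K K' : Fl} {α : En} (hα : InE K K' F α) (c : ℚ) : InE K K' F (c • α) := by
  refine ⟨fun z hz => Submodule.smul_mem _ _ (hα.gen z hz), fun σ hσ z hz => ?_⟩
  change c • α (actC σ z) = actC σ (c • α z)
  rw [hα.equi σ hσ z hz, map_smul]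

theorem inE_one (K K' : Fl) : InE K K' F (1 : En) := ⟨fun _ hz => hz, fun _ _ _ _ => rfl⟩

theorem InE.pow {K K' : Fl} {α : En} (hα : InE K K' F α) (n : ℕ) : InE K K' F (α ^ n) := by
  induction n with
  | zero => rw [pow_zero]; exact inE_one K K'
  | succ n ih => rw [pow_succ]; exact ih.mul hα

theorem InE.sum {K K' : Fl} {ι : Type} (s : Finset ι) {α : ι → En}
    (h : ∀ i ∈ s, InE K K' F (α i)) : InE K K' F (∑ i ∈ s, α i) := by
  classical
  induction s using Finset.induction_on with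
  | empty =>
    rw [Finset.sum_empty]
    exact ⟨fun _ _ => Submodule.zero_mem _, fun σ _ _ _ => by
      change (0 : Cy) = actC σ 0
      rw [map_zero]⟩
  | insert a s ha ih =>
    rw [Finset.sum_insert ha]
    exact (h a (Finset.mem_insert_self a s)).add (ih fun i hi => h i (Finset.mem_insert_of_mem hi))

theorem InE.mono {K K' K'' : Fl} (h : K' ≤ K'') {α : En} (hα : InE K K' F α) : InE K K'' F α :=
  ⟨hα.gen, fun σ hσ z hz => hα.equi σ (Fix_mono h hσ) z hz⟩

/-- conjugation by an automorphism over `K`, `K'` normal over `K` -/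
theorem InE.cj {K K' : Fl} (hF : F.IsHomogeneous d) (hFK : Coef K F)
    (hn : ∀ σ ∈ Fix K, ∀ x, σ x ∈ K' ↔ x ∈ K') {σ : ℂ ≃+* ℂ} (hσ : σ ∈ Fix K) {α : En}
    (hα : InE K K' F α) : InE K K' F (VGS.cj σ α) := by
  refine ⟨fun z hz => ?_, fun τ hτ z hz => ?_⟩
  · rw [cj_apply]
    exact actC_mem_GenC hF hFK hσ (hα.gen _ (actC_mem_GenC hF hFK (inv_mem hσ) hz))
  · rw [cj_apply, cj_apply]
    have hτ' : σ⁻¹ * τ * σ ∈ Fix K' := by
      intro x hx
      change σ⁻¹ (τ (σ x)) = x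
      rw [hτ _ ((hn σ hσ x).2 hx)]
      exact σ.symm_apply_apply x
    have h1 : actC σ⁻¹ (actC τ z) = actC (σ⁻¹ * τ * σ) (actC σ⁻¹ z) := by
      rw [← actC_mul, ← actC_mul]
      congr 1
      group
    rw [h1, hα.equi _ hτ' _ (actC_mem_GenC hF hFK (inv_mem hσ) hz), ← actC_mul, ← actC_mul]
    congr 2
    group

/-- The sum of the conjugates of a correspondence over `K'`. -/
noncomputable def trc {n : ℕ} (g : Fin (n + 1) → ℂ ≃+* ℂ) (α : En) : En := ∑ i, cj (g i) α

/-- the sum of the conjugates is a correspondence over `K` -/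
theorem inE_trc {K K' : Fl} (hF : F.IsHomogeneous d) (hFK : Coef K F)
    (hn : ∀ σ ∈ Fix K, ∀ x, σ x ∈ K' ↔ x ∈ K') {n : ℕ} (g : Fin (n + 1) → ℂ ≃+* ℂ)
    (hg : ∀ i, g i ∈ Fix K) (hg' : ∀ σ ∈ Fix K, ∃! i, (g i)⁻¹ * σ ∈ Fix K') {α : En}
    (hα : InE K K' F α) : InE K K F (trc g α) := by
  refine ⟨(InE.sum Finset.univ fun i _ => hα.cj hF hFK hn (hg i)).gen, fun σ hσ z hz => ?_⟩
  choose e he he' using fun i => hg' (σ⁻¹ * g i) (mul_mem (inv_mem hσ) (hg i))
  beta_reduce at he he'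
  -- `σ⁻¹ g_i = g_(e i) h_i`
  have hcj : ∀ i, ∀ w ∈ GenC K F, cj (g i) α (actC σ w) = actC σ (cj (g (e i)) α w) := by
    intro i w hw
    rw [cj_apply, cj_apply]
    have h1 : actC (g i)⁻¹ (actC σ w) = actC ((g (e i))⁻¹ * (σ⁻¹ * g i))⁻¹ (actC (g (e i))⁻¹ w) := by
      rw [← actC_mul, ← actC_mul]
      congr 1
      group
    rw [h1, hα.equi _ (inv_mem (he i)) _ (actC_mem_GenC hF hFK (inv_mem (hg _)) hw), ← actC_mul,
      ← actC_mul]
    congr 2
    group
  have hinj : Function.Injective e := by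
    intro i j hij
    have h1 := he i
    have h2 := he j
    rw [← hij] at h2
    have h3 : (g i)⁻¹ * g j ∈ Fix K' := by
      have := mul_mem (inv_mem h1) h2
      convert this using 1
      group
    obtain ⟨l, -, hl⟩ := hg' (g j) (hg j)
    have h4 := hl i h3
    have h5 := hl j (by beta_reduce; rw [inv_mul_cancel]; exact one_mem _)
    rw [h4, h5]
  have hbij : Function.Bijective e := Finite.injective_iff_bijective.1 hinj
  unfold trc
  rw [LinearMap.sum_apply, LinearMap.sum_apply, map_sum]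
  rw [← Equiv.sum_comp (Equiv.ofBijective e hbij) fun i => actC σ (cj (g i) α z)]
  exact Finset.sum_congr rfl fun i _ => hcj i z hz

end

end Pool.Agent.VGS
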