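import Pool.Agent.VGS.Twd
import Pool.Agent.VGS.Link
import Pool.Agent.VGS.GenP
import Pool.Agent.VGS.FrameDefs

/-! Module That: extension of correspondences to endpoints (section 1.6, end). -/

set_option autoImplicit false

open scoped LinearAlgebra.Projectivization
open MvPolynomial

namespace Pool.Agent.VGS

open Pool.Agent.LowDeg (surf IsSmoothForm)

variable {F : MvPolynomial (Fin 4) ℂ} {d : ℕ}

theorem that_countable {K K' : Fl} [Countable K] (hK' : K' ≤ clo K) : Countable K' := by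
  have h2 : ((clo K : Fl) : Set ℂ).Countable := countable_clo K
  exact h2.mono hK'

theorem that_adjP_mono {L L' : Fl} (h : L ≤ L') (p : PP) : adjP L p ≤ adjP L' p :=
  adj_le (h.trans (le_adj _ _)) (subset_adj _ _)

theorem that_adjP_le {L L' : Fl} (h : L ≤ L') {p : PP} (hp : Over L' p) : adjP L p ≤ L' :=
  (that_adjP_mono h p).trans (over_iff_adjP_le.1 hp)

/-- the cycle `T s` is fixed by the automorphisms over `K'(s)` -/
theorem that_fixed {K K' : Fl} {T : PP → Cy} (hT : IsT K K' F T) {s : PP} (hs : s ∈ Gen K F)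
    {σ : ℂ ≃+* ℂ} (hσ : σ ∈ Fix (adjP K' s)) : actC σ (T s) = T s := by
  obtain ⟨h1, h2⟩ := mem_Fix_adjP.1 hσ
  rw [← hT.equi σ h1 s hs, h2]

theorem act_mem_support {σ : ℂ ≃+* ℂ} {z : Cy} {x : PP} (hx : x ∈ z.support) :
    act σ x ∈ (actC σ z).support := by
  rw [Finsupp.mem_support_iff, actC_apply, act_inv_act]
  exact Finsupp.mem_support_iff.1 hx

theorem that_supp_over {K K' : Fl} [Countable K'] {T : PP → Cy} (hT : IsT K K' F T) {s : PP}
    (hs : s ∈ Gen K F) {x : PP} (hx : x ∈ (T s).support) : Over (clo (adjP K' s)) x := by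
  refine over_clo_of_finite _ (Set.Finite.subset (T s).support.finite_toSet ?_)
  rintro y ⟨σ, hσ, rfl⟩
  have h := act_mem_support (σ := σ) hx
  rw [that_fixed hT hs hσ] at h
  exact h

/-- `z` is a value of the extension at the point `q` -/
def Dat (F : MvPolynomial (Fin 4) ℂ) (K C : Fl) (T : PP → Cy) (q : PP) (z : Cy) : Prop :=
  ∃ (s : PP) (V : ValuationSubring ℂ) (f : PP → PP), s ∈ Gen K F ∧ IsPl V C ∧ SpP V C s q ∧
    (∀ x ∈ (T s).support, SpP V C x (f x)) ∧ z = (T s).mapDomain f

theorem Dat.unique (hd : 4 ≤ d) (hF : IsSmoothForm F d) (K K' C : Fl) [Countable K]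
    (hFK : Coef K F) (hK' : K' ≤ clo K) (hC : clo C = C)
    (hKC : clo K ≤ C) {T : PP → Cy} (hT : IsT K K' F T) {q : PP} (hq : ¬ Over (clo K) q)
    {z z' : Cy} (h : Dat F K C T q z) (h' : Dat F K C T q z') : z = z' := by
  have hcK' : Countable K' := that_countable hK'
  obtain ⟨s, V, f, hs, hV, hsq, hf, rfl⟩ := h
  obtain ⟨s', V', f', hs', hV', hsq', hf', rfl⟩ := h'
  have hgen : Gen (clo K) F = Gen K F := gen_clo hd hF K hFK
  have hFκ : Coef (clo K) F := Coef.mono (le_clo K) hFK
  have hsκ : s ∈ Gen (clo K) F := by rw [hgen]; exact hs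
  have hsκ' : s' ∈ Gen (clo K) F := by rw [hgen]; exact hs'
  obtain ⟨σ, hσ, hσs⟩ := gen_conj hd hF (clo K) hFκ hsκ hsκ'
  have hσ' : σ ∈ Fix K' := Fix_mono hK' hσ
  have hTs' : T s' = actC σ (T s) := by rw [← hσs]; exact hT.equi σ hσ' s hs
  have e1 : (T s').mapDomain f' = (T s).mapDomain (f' ∘ act σ) := by
    rw [hTs', Finsupp.mapDomain_comp]
    rfl
  have hfam : IsFamC (adjP (clo K) s) 0 (T s) :=
    ⟨fun x hx => Over.mono (that_supp_over hT hs hx)
      (clo_mono ((that_adjP_mono hK' s).trans (le_adj _ _))),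
      fun τ hτ => that_fixed hT hs (Fix_mono ((that_adjP_mono hK' s).trans (le_adj _ _)) hτ)⟩
  have h0 : adj (adjP (clo K) s) {0} = adjP (clo K) s := by
    refine le_antisymm (adj_le le_rfl ?_) (le_adj _ _)
    rintro x hx
    rw [Set.mem_singleton_iff.1 hx]
    exact (adjP (clo K) s).zero_mem
  obtain ⟨N, S, S', hN, hNz, hS, hS', hSs, hSs'⟩ := hfam.exists_ms
  have key : ∀ W : Multiset PP, IsFam (adjP (clo K) s) 0 W → (∀ p ∈ W, p ∈ (T s).support) →
      W.map f = W.map (f' ∘ act σ) := by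
    intro W hW hWs
    refine twd_unique hd hF (clo K) C (clo_clo K) hFκ hC hKC hsκ hsκ' hq hV hV' hsq hsq' hσ hσs
      (fun x hx => ?_) (fun τ hτ => ?_) (fun x hx => hf x (hWs x hx)) (fun x hx => ?_)
    · have h1 := hW.isOver x hx
      rwa [h0] at h1
    · exact hW.stable τ (by rwa [h0])
    · refine hf' (act σ x) ?_
      rw [hTs']
      exact act_mem_support (hWs x hx)
  have h1 := key S hS hSs
  have h2 := key S' hS' hSs'
  have h4 : ∀ k : PP → PP, (N : ℚ) • (T s).mapDomain k = cycQ (S.map k) - cycQ (S'.map k) := by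
    intro k
    rw [← Finsupp.mapDomain_smul, hNz, cycQ_map, cycQ_map]
    exact map_sub (Finsupp.mapDomain.addMonoidHom k) _ _
  have h5 : (N : ℚ) • (T s).mapDomain f = (N : ℚ) • (T s).mapDomain (f' ∘ act σ) := by
    rw [h4, h4, h1, h2]
  rw [e1]
  exact smul_right_injective _ (by exact_mod_cast hN.ne' : (N : ℚ) ≠ 0) h5

theorem ext_cycQ_map {T T' : PP → Cy} {f k : PP → PP} (S : Multiset PP)
    (h : ∀ p ∈ S, T' (f p) = (T p).mapDomain k) :
    ext T' (cycQ (S.map f)) = (ext T (cycQ S)).mapDomain k := by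
  induction S using Multiset.induction_on with
  | empty => rw [Multiset.map_zero, cycQ_zero, map_zero, map_zero, Finsupp.mapDomain_zero]
  | cons p S ih =>
    rw [Multiset.map_cons, cycQ_cons, cycQ_cons, map_add, map_add, ext_single, ext_single,
      one_smul, one_smul, Finsupp.mapDomain_add, h p (Multiset.mem_cons_self p S),
      ih fun q hq => h q (Multiset.mem_cons_of_mem hq)]

theorem ext_cycQ_act {K K' : Fl} {T : PP → Cy} (hT : IsT K K' F T) (S : Multiset PP)
    (hS : ∀ p ∈ S, p ∈ Gen K F) {σ : ℂ ≃+* ℂ} (hσ : σ ∈ Fix K') :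
    actC σ (ext T (cycQ S)) = ext T (cycQ (S.map (act σ))) := by
  induction S using Multiset.induction_on with
  | empty => rw [Multiset.map_zero, cycQ_zero, map_zero, map_zero]
  | cons p S ih =>
    rw [Multiset.map_cons, cycQ_cons, cycQ_cons, map_add, map_add, map_add, ext_single, ext_single,
      one_smul, one_smul, hT.equi σ hσ p (hS p (Multiset.mem_cons_self p S)),
      ih fun q hq => hS q (Multiset.mem_cons_of_mem hq)]

theorem ext_cycQ_support {T : PP → Cy} (S : Multiset PP) {x : PP}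
    (hx : x ∈ (ext T (cycQ S)).support) : ∃ p ∈ S, x ∈ (T p).support := by
  classical
  induction S using Multiset.induction_on with
  | empty =>
    rw [cycQ_zero, map_zero] at hx
    simp at hx
  | cons p S ih =>
    rw [cycQ_cons, map_add, ext_single, one_smul] at hx
    rcases Finset.mem_union.1 (Finsupp.support_add hx) with h | h
    · exact ⟨p, Multiset.mem_cons_self p S, h⟩
    · obtain ⟨q, hq, hq'⟩ := ih h
      exact ⟨q, Multiset.mem_cons_of_mem hq, hq'⟩

theorem exists_That (hd : 4 ≤ d) (hF : IsSmoothForm F d) (K K' C : Fl) [Countable K]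
    [Countable C] (hFK : Coef K F) (hKK' : K ≤ K') (hK' : K' ≤ clo K) (hC : clo C = C)
    (hKC : clo K ≤ C) {T : PP → Cy} (hT : IsT K K' F T) :
    ∃ T' : PP → Cy, (∀ q ∈ Gen K F, Over C q → T' q = T q) ∧
      ∀ z ∈ Nice K C F, ext T' z ∈ ratQ F := by
  classical
  have hcK' : Countable K' := that_countable hK'
  have hK'C : K' ≤ C := hK'.trans hKC
  have hFC : Coef C F := Coef.mono (((le_clo K).trans hKC)) hFK
  obtain ⟨T', hT'⟩ : ∃ T' : PP → Cy, ∀ q, (∃ z, Dat F K C T q z) → Dat F K C T q (T' q) := by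
    have h : ∀ q, ∃ w : Cy, (∃ z, Dat F K C T q z) → Dat F K C T q w := by
      intro q
      by_cases hq : ∃ z, Dat F K C T q z
      · obtain ⟨z, hz⟩ := hq
        exact ⟨z, fun _ => hz⟩
      · exact ⟨0, fun h => absurd h hq⟩
    choose T' hT' using h
    exact ⟨T', hT'⟩
  have hval : ∀ q z, ¬ Over (clo K) q → Dat F K C T q z → T' q = z := fun q z hq hz =>
    Dat.unique hd hF K K' C hFK hK' hC hKC hT hq (hT' q ⟨z, hz⟩) hz
  refine ⟨T', ?_, ?_⟩
  · intro q hq hqC
    refine hval q (T q) (gen_not_over hd hF K hFK hq) ?_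
    have hV : IsPl (⊤ : ValuationSubring ℂ) C := fun c _ => ValuationSubring.mem_top c
    refine ⟨q, ⊤, id, hq, hV, SpP.refl hV hqC, fun x hx => ?_, Finsupp.mapDomain_id.symm⟩
    refine SpP.refl hV (Over.mono (that_supp_over hT hq hx) ?_)
    rw [← hC]
    exact clo_mono (that_adjP_le hK'C hqC)
  · intro z hz
    unfold Nice at hz
    induction hz using Submodule.span_induction with
    | zero => rw [map_zero]; exact (ratQ F).zero_mem
    | add x y _ _ hx hy => rw [map_add]; exact (ratQ F).add_mem hx hy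
    | smul a x _ hx => rw [map_smul]; exact (ratQ F).smul_mem a hx
    | mem z hz =>
      obtain ⟨u, S, V₀, V₁, f, g, hu, hSo, hSst, hSg, hV₀, hV₁, h₀, h₁, hf, hg, rfl⟩ := hz
      have hov : ∀ p ∈ S, ∀ x ∈ (T p).support, Over (clo (adj C {u})) x := by
        intro p hp x hx
        refine Over.mono (that_supp_over hT (hSg p hp) hx) ?_
        rw [← clo_clo (adj C {u})]
        exact clo_mono (that_adjP_le (hK'C.trans ((le_adj _ _).trans (le_clo _))) (hSo p hp))
      have hf' : ∀ x, Over (clo (adj C {u})) x → ∃ q, SpP V₀ C x q := fun x hx =>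
        exists_spP hC hV₀ hu h₀ hx
      have hg' : ∀ x, Over (clo (adj C {u})) x → ∃ q, SpP V₁ C x q := fun x hx =>
        exists_spP hC hV₁ hu h₁ hx
      choose! k hk using hf'
      choose! l hl using hg'
      have e1 : ext T' (cycQ (S.map f)) = (ext T (cycQ S)).mapDomain k :=
        ext_cycQ_map S fun p hp => hval _ _ (hf p hp).2
          ⟨p, V₀, k, hSg p hp, hV₀, (hf p hp).1, fun x hx => hk x (hov p hp x hx), rfl⟩
      have e2 : ext T' (cycQ (S.map g)) = (ext T (cycQ S)).mapDomain l :=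
        ext_cycQ_map S fun p hp => hval _ _ (hg p hp).2
          ⟨p, V₁, l, hSg p hp, hV₁, (hg p hp).1, fun x hx => hl x (hov p hp x hx), rfl⟩
      rw [map_sub, e1, e2]
      have hov' : ∀ x ∈ (ext T (cycQ S)).support, Over (clo (adj C {u})) x := by
        intro x hx
        obtain ⟨p, hp, hx'⟩ := ext_cycQ_support S hx
        exact hov p hp x hx'
      have hfam : IsFamC C u (ext T (cycQ S)) := by
        refine ⟨hov', fun σ hσ => ?_⟩
        rw [ext_cycQ_act hT S hSg (Fix_mono (hK'C.trans (le_adj _ _)) hσ), hSst σ hσ]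
      refine link_cy (E := C) (u := u) (V₀ := V₀) (V₁ := V₁) (f := k) (g := l) (by rwa [hC]) hfam
        hF.hom hFC ?_ (by rwa [hC]) (by rwa [hC]) (by rwa [hC]) (by rwa [hC]) ?_ ?_
      · intro x hx
        obtain ⟨p, hp, hx'⟩ := ext_cycQ_support S hx
        exact (hT.supp p (hSg p hp) x hx').1
      · intro x hx
        rw [hC]
        exact hk x (hov' x hx)
      · intro x hx
        rw [hC]
        exact hl x (hov' x hx)

end Pool.Agent.VGS
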