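import Pool.Agent.VGS.Asm2
import Pool.Agent.VGS.That

/-! Module SProp: Theorem S (section 1.8). -/

set_option autoImplicit false

open scoped LinearAlgebra.Projectivization
open MvPolynomial

namespace Pool.Agent.VGS

open Pool.Agent.LowDeg (surf IsSmoothForm)

variable {F : MvPolynomial (Fin 4) ℂ} {d : ℕ}

private theorem sprop_countable (k : Fl) [Countable k] (F : MvPolynomial (Fin 4) ℂ)
    (M : Matrix (Fin 4) (Fin 4) ℂ) : Countable (frE k F M) := by
  have h1 : Countable (Set.range fun ij : Fin 4 × Fin 4 => M ij.1 ij.2) :=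
    (Set.countable_range _).to_subtype
  have h2 : Countable (Set.range fun m => coeff m (frG F M)) := (Set.countable_range _).to_subtype
  have h3 : Countable (frk k M) := countable_adj k _
  exact countable_adj _ _

private theorem sprop_ext_congr {T T' : PP → Cy} {y : Cy} (h : ∀ q ∈ y.support, T' q = T q) :
    ext T' y = ext T y := by
  unfold ext
  rw [Finsupp.linearCombination_apply, Finsupp.linearCombination_apply]
  exact Finsupp.sum_congr fun q hq => by rw [h q hq]

private theorem sprop_ext_actC {K K' : Fl} {T : PP → Cy} (hT : IsT K K' F T) {σ : ℂ ≃+* ℂ}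
    (hσ : σ ∈ Fix K') {y : Cy} (hy : ∀ q ∈ y.support, q ∈ Gen K F) :
    ext T (actC σ y) = actC σ (ext T y) := by
  have h1 : ext T (actC σ y) = ext (T ∘ act σ) y := by
    unfold ext actC
    rw [Finsupp.lmapDomain_apply, Finsupp.linearCombination_mapDomain]
  have h2 : actC σ (ext T y) = ext (fun q => actC σ (T q)) y := by
    unfold ext
    rw [Finsupp.linearCombination_apply, Finsupp.linearCombination_apply, Finsupp.sum, Finsupp.sum,
      map_sum]
    refine Finset.sum_congr rfl fun q _ => ?_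
    rw [map_smul]
  rw [h1, h2]
  exact sprop_ext_congr fun q hq => hT.equi σ hσ q (hy q hq)

private theorem sprop_actC_sumSet (σ : ℂ ≃+* ℂ) {s : Set PP} (hs : s.Finite) :
    actC σ (sumSet s) = sumSet (act σ '' s) := by
  unfold sumSet
  rw [finsum_mem_image (act_injective σ).injOn, finsum_mem_eq_finite_toFinset_sum _ hs,
    finsum_mem_eq_finite_toFinset_sum _ hs, map_sum]
  exact Finset.sum_congr rfl fun q _ => actC_single σ q 1

private theorem sprop_supp_sumSet {s : Set PP} (hs : s.Finite) {q : PP}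
    (hq : q ∈ (sumSet s).support) : q ∈ s := by
  classical
  unfold sumSet at hq
  rw [finsum_mem_eq_finite_toFinset_sum _ hs] at hq
  obtain ⟨q', hq', h⟩ := Finset.mem_biUnion.1 (Finsupp.support_finset_sum hq)
  have h1 := Finsupp.support_single_subset h
  rw [Finset.mem_singleton] at h1
  rw [h1]
  exact hs.mem_toFinset.1 hq'

/-- the points of the line are generic over `K` or equal to `p` -/
private theorem sprop_line_gen (hF : IsSmoothForm F d) {k : Fl} {p : PP}
    (hp : p ∈ Gen (cof k F) F) {M : Matrix (Fin 4) (Fin 4) ℂ} (hM : IsFrame k F d p M) {q : PP}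
    (hq : q ∈ lineSet F M) : q ∈ Gen (cof k F) F := by
  obtain ⟨hqF, z, hz, h0, h1, rfl⟩ := hq
  by_cases h2 : z 2 = 0
  · have hz3 : z = z 3 • (Pi.single 3 1 : Fin 4 → ℂ) := by
      funext i
      fin_cases i <;> simp [h0, h1, h2]
    have h3 : z 3 ≠ 0 := by
      intro h3
      rw [h3, zero_smul] at hz3
      exact hz hz3
    have he : (Pi.single 3 1 : Fin 4 → ℂ) ≠ 0 := by
      intro h
      have := congrFun h 3
      simp at this
    have hne1 := mulVec_ne hM.det hz
    have hne2 := mulVec_ne hM.det he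
    have h4 : mkP (M.mulVec z) = p := by
      rw [hM.pt, mkP_eq hne1, mkP_eq hne2]
      rw [Projectivization.mk_eq_mk_iff']
      refine ⟨z 3, ?_⟩
      rw [← Matrix.mulVec_smul, ← hz3]
    rw [h4]
    exact hp
  · exact Gen_anti ((le_adjP _ p).trans (le_clo _)) F (hM.line z h0 h1 h2 hqF)

private theorem sprop_line_fix (hF : IsSmoothForm F d) {k : Fl} {p : PP}
    {M : Matrix (Fin 4) (Fin 4) ℂ} (hM : IsFrame k F d p M) {σ : ℂ ≃+* ℂ}
    (hσ : σ ∈ Fix (frE k F M)) : act σ '' lineSet F M = lineSet F M := by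
  rw [lineSet_act hF (Fix_mono hM.le hσ)]
  congr 1
  ext i j
  rw [Matrix.map_apply]
  exact hσ _ (le_adj _ _ (subset_adj _ _ ⟨(i, j), rfl⟩))

theorem sprop (hd : 4 ≤ d) (hF : IsSmoothForm F d) (k : Fl) [Countable k]
    (hind : AlgebraicIndependent k
      (fun m : {m : Fin 4 →₀ ℕ // m.degree = d} => coeff m.1 F))
    {α : PP → Cy} (hα : IsT (cof k F) (cof k F) F α) {p r : PP} (hp : p ∈ Gen (cof k F) F)
    (hr : r ∈ Gen (clo (adjP (cof k F) p)) F) :
    ∃ m : ℚ, ∀ (K' : Fl) (T : PP → Cy), cof k F ≤ K' → K' ≤ clo (cof k F) →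
      IsT (cof k F) K' F T → ext T (α p) - ext T (α r) - m • (T p - T r) ∈ ratQ F := by
  classical
  obtain ⟨M, hM, hrM⟩ := exists_frame_line hd hF k hind hp hr
  have hKF : Coef (cof k F) F := coef_cof k F
  haveI : Countable (frE k F M) := sprop_countable k F M
  have hpM : p ∈ lineSet F M := hM.mem_lineSet hF hp.1
  obtain ⟨σ, hσ, hσp, hσr⟩ := gen_swap hd hF (cof k F) hKF hp hr
  have hσK : σ ∈ Fix (cof k F) := Fix_mono (le_clo _) hσ
  have hpr : p ≠ r := by
    intro h
    have h2 := gen_not_over hd hF (clo (adjP (cof k F) p))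
      (hKF.mono ((le_adjP _ p).trans (le_clo _))) hr
    rw [← h] at h2
    exact h2 ((over_adjP _ _).mono ((le_clo _).trans (le_clo _)))
  have hline : act σ '' lineSet F M = lineSet F M := by
    have hp' : p ∈ act σ '' lineSet F M := ⟨r, hrM, hσr⟩
    have hr' : r ∈ act σ '' lineSet F M := ⟨p, hpM, hσp⟩
    rw [lineSet_act hF hσK] at hp' hr' ⊢
    exact lineSet_eq (k := k) hpr (hM.act hF hσK).det hM.det hp' hr' hpM hrM
  have hfin := finite_lineSet hd hF k hM
  have hE : adjP (cof k F) p ≤ frE k F M := hM.ptE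
  have hαp : ∀ τ ∈ Fix (adjP (cof k F) p), actC τ (α p) = α p := by
    intro τ hτ
    rw [← hα.equi τ (mem_Fix_adjP.1 hτ).1 p hp, (mem_Fix_adjP.1 hτ).2]
  have hover : ∀ q ∈ (α p).support, Over (clo (frE k F M)) q := by
    intro q hq
    have h1 : Over (clo (adjP (cof k F) p)) q := by
      apply over_clo_of_finite
      refine ((α p).support.finite_toSet).subset ?_
      rintro q' ⟨τ, hτ, rfl⟩
      rw [Finset.mem_coe, Finsupp.mem_support_iff, ← hαp τ hτ, actC_apply, act_inv_act]
      exact Finsupp.mem_support_iff.1 hq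
    exact h1.mono (clo_mono hE)
  have hlover : ∀ q ∈ lineSet F M, Over (clo (frE k F M)) q := by
    intro q hq
    apply over_clo_of_finite
    refine hfin.subset ?_
    rintro q' ⟨τ, hτ, rfl⟩
    rw [← sprop_line_fix hF hM hτ]
    exact ⟨q, hq, rfl⟩
  have hlgen : ∀ q ∈ lineSet F M, q ∈ Gen (cof k F) F := fun q hq => sprop_line_gen hF hp hM hq
  obtain ⟨m, a, hma⟩ := asm hd hF k hp hM (y := α p)
    (fun q hq => ⟨hα.supp p hp q hq, hover q hq⟩) (fun τ hτ => hαp τ (Fix_mono hE hτ))
  refine ⟨m, fun K' T hKK' hK'K hT => ?_⟩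
  obtain ⟨T', hT'1, hT'2⟩ := exists_That hd hF (cof k F) K' (clo (frE k F M)) hKF hKK' hK'K
    (clo_clo _) (clo_mono hM.le) hT
  have h1 : ext T' (α p) = ext T (α p) :=
    sprop_ext_congr fun q hq => hT'1 q (hα.supp p hp q hq) (hover q hq)
  have h2 : ext T' (sumSet (lineSet F M)) = ext T (sumSet (lineSet F M)) :=
    sprop_ext_congr fun q hq => by
      have := sprop_supp_sumSet hfin hq
      exact hT'1 q (hlgen q this) (hlover q this)
  have h3 : T' p = T p := hT'1 p hp (hlover p hpM)
  have key : ext T (α p) - m • T p - a • ext T (sumSet (lineSet F M)) ∈ ratQ F := by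
    have := hT'2 _ hma
    rwa [map_sub, map_sub, map_smul, map_smul, ext_single, one_smul, h1, h2, h3] at this
  have hσK' : σ ∈ Fix K' := Fix_mono hK'K hσ
  have key2 : ext T (α r) - m • T r - a • ext T (sumSet (lineSet F M)) ∈ ratQ F := by
    have := actC_ratQ hF.hom hKF hσK key
    rwa [map_sub, map_sub, map_smul, map_smul, ← sprop_ext_actC hT hσK' (hα.supp p hp),
      ← hα.equi σ hσK p hp, hσp, ← hT.equi σ hσK' p hp, hσp,
      ← sprop_ext_actC hT hσK' (fun q hq => hlgen q (sprop_supp_sumSet hfin hq)),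
      sprop_actC_sumSet σ hfin, hline] at this
  have := (ratQ F).sub_mem key key2
  convert this using 1
  rw [smul_sub]
  abel

end Pool.Agent.VGS
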