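import Pool.Agent.VGS.RingA
import Pool.Agent.VGS.FrameDefs
import Pool.Agent.VGS.SProp
import Pool.Agent.VGS.Mum
import Pool.Agent.VGS.RingN

/-! Module RingB: the scalar of an invariant correspondence (section 3). -/

set_option autoImplicit false

open scoped LinearAlgebra.Projectivization
open MvPolynomial

namespace Pool.Agent.VGS

open Pool.Agent.LowDeg (surf IsSmoothForm)

variable {F : MvPolynomial (Fin 4) ℂ} {d : ℕ}

/-- the identity -/
noncomputable def idT (p : PP) : Cy := Finsupp.single p 1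

theorem ext_idT (z : Cy) : ext idT z = z := by
  induction z using Finsupp.induction_linear with
  | zero => exact map_zero _
  | add x y hx hy => rw [map_add, hx, hy]
  | single p c => rw [ext_single, idT, Finsupp.smul_single, smul_eq_mul, mul_one]

theorem isT_idT (K K' : Fl) (F : MvPolynomial (Fin 4) ℂ) : IsT K K' F idT := by
  refine ⟨fun p hp q hq => ?_, fun σ _ p _ => (actC_single σ p 1).symm⟩
  have h := Finsupp.support_single_subset hq
  rw [Finset.mem_singleton.1 h]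
  exact hp

theorem tauC_idT (D₁ D₂ : Derivation ℤ ℂ ℂ) (f : MvPolynomial (Fin 4) ℂ) (p : PP) :
    tauC F D₁ D₂ f (idT p) = tau F D₁ D₂ f p := by
  rw [idT, tauC, Finsupp.linearCombination_single, one_smul]

theorem scalar_aux (hd : 4 ≤ d) (hF : IsSmoothForm F d) (k : Fl) [Countable k]
    (hind : AlgebraicIndependent k
      (fun m : {m : Fin 4 →₀ ℕ // m.degree = d} => coeff m.1 F))
    {α : PP → Cy} (hα : IsT (cof k F) (cof k F) F α) {s : ℂ}
    (hs : ∀ y ∈ Gen (cof k F) F, ∀ D₁ D₂ : Derivation ℤ ℂ ℂ, Kills (cof k F) D₁ →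
      Kills (cof k F) D₂ → ∀ f : MvPolynomial (Fin 4) ℂ, f.IsHomogeneous (d - 4) →
        tauC F D₁ D₂ f (α y) = s * tau F D₁ D₂ f y)
    {p r : PP} (hp : p ∈ Gen (cof k F) F) (hr : r ∈ Gen (clo (adjP (cof k F) p)) F) :
    ∃ m : ℚ, s = m ∧ ∀ (K' : Fl) (T : PP → Cy), cof k F ≤ K' → K' ≤ clo (cof k F) →
      IsT (cof k F) K' F T → ext T (α p) - ext T (α r) - m • (T p - T r) ∈ ratQ F := by
  obtain ⟨m, hm⟩ := sprop hd hF k hind hα hp hr
  refine ⟨m, ?_, hm⟩
  have hFK := coef_cof k F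
  have hrK : r ∈ Gen (cof k F) F := Gen_anti ((le_adjP _ _).trans (le_clo _)) F hr
  have h1 := hm (cof k F) idT le_rfl (le_clo _) (isT_idT _ _ F)
  rw [ext_idT, ext_idT] at h1
  obtain ⟨L, hL⟩ : ∃ L : Fl, L = clo (adjP (cof k F) r) := ⟨_, rfl⟩
  have hLc : Countable L := by rw [hL]; infer_instance
  have hKL : cof k F ≤ L := by rw [hL]; exact (le_adjP _ _).trans (le_clo _)
  have hFL : Coef L F := hFK.mono hKL
  have hpL : p ∈ Gen L F := by rw [hL]; exact gen_symm hd hF _ hFK hp hr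
  have hrL : Over L r := by rw [hL]; exact (over_adjP _ _).mono (le_clo _)
  obtain ⟨D₁, D₂, h₁, h₂, -, -, hne⟩ := exists_tau_ne hd hF L hFL hpL
  have hf : (X 0 ^ (d - 4) : MvPolynomial (Fin 4) ℂ).IsHomogeneous (d - 4) := by
    have h := (isHomogeneous_X ℂ (0 : Fin 4)).pow (d - 4)
    rwa [one_mul] at h
  have h2 := mumford hd hF L hFL h₁ h₂ hf h1
  have hk₁ : Kills (cof k F) D₁ := fun x hx => h₁ x (hKL hx)
  have hk₂ : Kills (cof k F) D₂ := fun x hx => h₂ x (hKL hx)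
  rw [map_sub, map_sub, map_smul, map_sub, hs p hp D₁ D₂ hk₁ hk₂ _ hf,
    hs r hrK D₁ D₂ hk₁ hk₂ _ hf, tauC_idT, tauC_idT,
    tau_over hd hF hFL h₁ h₂ hr.1 hrL hf, mul_zero, sub_zero, sub_zero,
    Rat.smul_def, ← sub_mul] at h2
  rcases mul_eq_zero.1 h2 with h3 | h3
  · exact sub_eq_zero.1 h3
  · exact absurd h3 hne

/-- an invariant correspondence which acts on two-forms by a scalar -/
theorem scalar_step (hd : 4 ≤ d) (hF : IsSmoothForm F d) (k : Fl) [Countable k]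
    (hind : AlgebraicIndependent k
      (fun m : {m : Fin 4 →₀ ℕ // m.degree = d} => coeff m.1 F))
    {α : PP → Cy} (hα : IsT (cof k F) (cof k F) F α) {s : ℂ}
    (hs : ∀ y ∈ Gen (cof k F) F, ∀ D₁ D₂ : Derivation ℤ ℂ ℂ, Kills (cof k F) D₁ →
      Kills (cof k F) D₂ → ∀ f : MvPolynomial (Fin 4) ℂ, f.IsHomogeneous (d - 4) →
        tauC F D₁ D₂ f (α y) = s * tau F D₁ D₂ f y) :
    ∃ m : ℚ, s = m ∧ ∀ (K' : Fl) (T : PP → Cy), cof k F ≤ K' → K' ≤ clo (cof k F) →
      IsT (cof k F) K' F T → ∀ p ∈ Gen (cof k F) F, ∀ q ∈ Gen (cof k F) F,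
        ext T (α p) - ext T (α q) - m • (T p - T q) ∈ ratQ F := by
  have hFK := coef_cof k F
  have key : ∀ p ∈ Gen (cof k F) F, ∀ q ∈ Gen (cof k F) F, ∃ m : ℚ, s = m ∧
      ∀ (K' : Fl) (T : PP → Cy), cof k F ≤ K' → K' ≤ clo (cof k F) →
      IsT (cof k F) K' F T → ext T (α p) - ext T (α q) - m • (T p - T q) ∈ ratQ F := by
    intro p hp q hq
    obtain ⟨L, hL⟩ : ∃ L : Fl, L = clo (adjP (adjP (cof k F) p) q) := ⟨_, rfl⟩
    have hLc : Countable L := by rw [hL]; infer_instance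
    have hpL : clo (adjP (cof k F) p) ≤ L := by rw [hL]; exact clo_mono (le_adjP _ _)
    have hqL : clo (adjP (cof k F) q) ≤ L := by
      rw [hL]
      refine clo_mono (adj_le ?_ (subset_adj _ _))
      exact (le_adjP _ _).trans (le_adjP _ _)
    have hKL : cof k F ≤ L := (le_adjP _ _).trans ((le_clo _).trans hpL)
    obtain ⟨r, hr⟩ := exists_gen hd hF L (hFK.mono hKL)
    obtain ⟨m, hm, h1⟩ := scalar_aux hd hF k hind hα hs hp (Gen_anti hpL F hr)
    obtain ⟨m', hm', h2⟩ := scalar_aux hd hF k hind hα hs hq (Gen_anti hqL F hr)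
    have hmm : m' = m := by
      have : (m' : ℂ) = m := by rw [← hm, ← hm']
      exact_mod_cast this
    subst hmm
    refine ⟨m', hm', fun K' T h3 h4 hT => ?_⟩
    have h5 := (ratQ F).sub_mem (h1 K' T h3 h4 hT) (h2 K' T h3 h4 hT)
    have h6 : ext T (α p) - ext T (α q) - m' • (T p - T q) =
        ext T (α p) - ext T (α r) - m' • (T p - T r) -
          (ext T (α q) - ext T (α r) - m' • (T q - T r)) := by
      rw [smul_sub, smul_sub, smul_sub]
      abel
    rw [h6]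
    exact h5
  obtain ⟨p₀, hp₀⟩ := exists_gen hd hF (cof k F) hFK
  obtain ⟨m, hm, -⟩ := key p₀ hp₀ p₀ hp₀
  refine ⟨m, hm, fun K' T h3 h4 hT p hp q hq => ?_⟩
  obtain ⟨m', hm', h1⟩ := key p hp q hq
  have hmm : m' = m := by
    have : (m' : ℂ) = m := by rw [← hm, ← hm']
    exact_mod_cast this
  subst hmm
  exact h1 K' T h3 h4 hT

/-- numbers with rational power sums are algebraic -/
theorem alg_of_psum {n : ℕ} (x : Fin n → ℂ) (h : ∀ j : ℕ, ∃ q : ℚ, ∑ i, x i ^ (j + 1) = q)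
    (i : Fin n) : x i ∈ clo (⊥ : Fl) := by
  rw [mem_clo]
  refine (algebraic_of_psum x (fun j hj => ?_) i).tower_top (⊥ : Fl)
  obtain ⟨q, hq⟩ := h (j - 1)
  rw [Nat.sub_add_cancel hj] at hq
  exact ⟨q, hq⟩

end Pool.Agent.VGS
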