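import Pool.Agent.VGS.Twd1
import Pool.Agent.VGS.Chow

/-! Module Twd: correspondences at points of codimension one (section 1.6). -/

set_option autoImplicit false

open scoped LinearAlgebra.Projectivization
open MvPolynomial

namespace Pool.Agent.VGS

open Pool.Agent.Chow0 (chowForm linForm)
open Pool.Agent.LowDeg (surf IsSmoothForm)

variable {F : MvPolynomial (Fin 4) ℂ} {d : ℕ}

theorem twd_coef_C {L : Fl} {ι : Type} {c : ℂ} (hc : c ∈ L) :
    Coef L (C c : MvPolynomial ι ℂ) := by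
  classical
  intro m
  rw [coeff_C]
  split_ifs
  · exact hc
  · exact L.zero_mem

theorem twd_coef_X {L : Fl} {ι : Type} (i : ι) : Coef L (X i : MvPolynomial ι ℂ) := by
  classical
  intro m
  rw [coeff_X]
  split_ifs
  · exact L.one_mem
  · exact L.zero_mem

theorem twd_coef_add {L : Fl} {ι : Type} {f g : MvPolynomial ι ℂ} (hf : Coef L f)
    (hg : Coef L g) : Coef L (f + g) := fun m => by
  rw [coeff_add]
  exact L.add_mem (hf m) (hg m)

theorem twd_coef_mul {L : Fl} {ι : Type} {f g : MvPolynomial ι ℂ} (hf : Coef L f)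
    (hg : Coef L g) : Coef L (f * g) := fun m => by
  classical
  rw [coeff_mul]
  exact sum_mem fun x _ => L.mul_mem (hf _) (hg _)

/-- the fractions of forms over `L` at a point -/
def IsQuot (L : Fl) (p : PP) (x : ℂ) : Prop :=
  ∃ (e : ℕ) (f g : MvPolynomial (Fin 4) ℂ), f.IsHomogeneous e ∧ g.IsHomogeneous e ∧ Coef L f ∧
    Coef L g ∧ aeval p.rep g ≠ 0 ∧ x = aeval p.rep f / aeval p.rep g

theorem IsQuot.const {L : Fl} {p : PP} {x : ℂ} (hx : x ∈ L) : IsQuot L p x := by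
  refine ⟨0, C x, 1, isHomogeneous_C _ _, isHomogeneous_one _ _, twd_coef_C hx, ?_, ?_, ?_⟩
  · rw [← C_1]
    exact twd_coef_C L.one_mem
  · rw [map_one]
    exact one_ne_zero
  · rw [map_one, div_one, aeval_C]
    rfl

/-- the field of the fractions of forms over `L` at a point -/
noncomputable def quotField (L : Fl) (p : PP) : Fl where
  carrier := {x | IsQuot L p x}
  mul_mem' := by
    rintro a b ⟨e, f, g, hf, hg, hfL, hgL, h0, rfl⟩ ⟨e', f', g', hf', hg', hfL', hgL', h0', rfl⟩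
    refine ⟨e + e', f * f', g * g', hf.mul hf', hg.mul hg', twd_coef_mul hfL hfL',
      twd_coef_mul hgL hgL', ?_, ?_⟩
    · rw [map_mul]
      exact mul_ne_zero h0 h0'
    · rw [map_mul, map_mul, div_mul_div_comm]
  add_mem' := by
    rintro a b ⟨e, f, g, hf, hg, hfL, hgL, h0, rfl⟩ ⟨e', f', g', hf', hg', hfL', hgL', h0', rfl⟩
    refine ⟨e + e', f * g' + g * f', g * g', (hf.mul hg').add (hg.mul hf'), hg.mul hg',
      twd_coef_add (twd_coef_mul hfL hgL') (twd_coef_mul hgL hfL'), twd_coef_mul hgL hgL', ?_, ?_⟩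
    · rw [map_mul]
      exact mul_ne_zero h0 h0'
    · rw [map_add, map_mul, map_mul, map_mul, div_add_div _ _ h0 h0']
  algebraMap_mem' := fun r => IsQuot.const (L.algebraMap_mem r)
  inv_mem' := by
    rintro a ⟨e, f, g, hf, hg, hfL, hgL, h0, rfl⟩
    by_cases h1 : aeval p.rep f = 0
    · rw [h1, zero_div, inv_zero]
      exact IsQuot.const L.zero_mem
    · exact ⟨e, g, f, hg, hf, hgL, hfL, h1, by rw [inv_div]⟩

theorem exists_quot {L : Fl} {p : PP} {x : ℂ} (hx : x ∈ adjP L p) : IsQuot L p x := by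
  have h : adjP L p ≤ quotField L p := by
    refine adj_le (fun y hy => IsQuot.const hy) ?_
    rintro y ⟨i, j, hj, rfl⟩
    refine ⟨1, X i, X j, isHomogeneous_X _ _, isHomogeneous_X _ _, twd_coef_X i, twd_coef_X j,
      ?_, ?_⟩
    · rw [aeval_X]
      exact hj
    · rw [aeval_X, aeval_X]
  exact h hx

/-- the conjugate of a fraction -/
theorem quot_act {L : Fl} {σ : ℂ ≃+* ℂ} (hσ : σ ∈ Fix L) {p : PP} {e : ℕ}
    {f g : MvPolynomial (Fin 4) ℂ} (hf : f.IsHomogeneous e) (hg : g.IsHomogeneous e)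
    (hfL : Coef L f) (hgL : Coef L g) :
    aeval (act σ p).rep f / aeval (act σ p).rep g = σ (aeval p.rep f / aeval p.rep g) := by
  have h1 : act σ p = Projectivization.mk ℂ (fun i => σ (p.rep i)) (map_ne_zero' σ p.rep_nonzero) :=
    rfl
  obtain ⟨a, ha⟩ := Projectivization.exists_smul_eq_mk_rep ℂ (fun i => σ (p.rep i))
    (map_ne_zero' σ p.rep_nonzero)
  have h2 : ∀ i, (act σ p).rep i = (a : ℂ) * σ (p.rep i) := by
    intro i
    rw [h1, ← ha]
    rfl
  rw [aeval_scale hf h2, aeval_scale hg h2, aeval_fix hfL hσ, aeval_fix hgL hσ, map_div₀,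
    mul_div_mul_left _ _ (pow_ne_zero _ a.ne_zero)]

/-- A cycle over `κ(s)` and its conjugate over `κ(s')` specialise to the same cycle. -/
theorem twd_unique (hd : 4 ≤ d) (hF : IsSmoothForm F d) (κ C : Fl) [Countable κ]
    (hκ : clo κ = κ) (hFκ : Coef κ F) (hC : clo C = C) (hκC : κ ≤ C) {s s' q : PP}
    (hs : s ∈ Gen κ F) (hs' : s' ∈ Gen κ F) (hqκ : ¬ Over κ q)
    {V V' : ValuationSubring ℂ} (hV : IsPl V C) (hV' : IsPl V' C) (h : SpP V C s q)
    (h' : SpP V' C s' q) {σ : ℂ ≃+* ℂ} (hσ : σ ∈ Fix κ) (hσs : act σ s = s') {W : Multiset PP}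
    (hW : ∀ x ∈ W, Over (clo (adjP κ s)) x) (hWst : ∀ τ ∈ Fix (adjP κ s), W.map (act τ) = W)
    {f f' : PP → PP} (hf : ∀ x ∈ W, SpP V C x (f x)) (hf' : ∀ x ∈ W, SpP V' C (act σ x) (f' x)) :
    W.map f = W.map f' := by
  classical
  obtain ⟨P, hP⟩ : ∃ P, P = chowForm W := ⟨_, rfl⟩
  have hP0 : P ≠ 0 := by rw [hP]; exact chowForm_ne_zero' W
  have hne : P.support.Nonempty := by
    rw [Finset.nonempty_iff_ne_empty, Ne, MvPolynomial.support_eq_empty]
    exact hP0
  obtain ⟨m₀, hm₀s, hmax⟩ := P.support.exists_max_image (fun m => V.valuation (coeff m P)) hne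
  have hm₀ : coeff m₀ P ≠ 0 := mem_support_iff.1 hm₀s
  -- the coefficients of the normalised form are in `V`
  have hcV : ∀ m, coeff m P / coeff m₀ P ∈ V := by
    intro m
    rw [← V.valuation_le_one_iff, map_div₀]
    by_cases hm : m ∈ P.support
    · exact div_le_one_of_le₀ (hmax m hm) zero_le
    · rw [notMem_support_iff.1 hm, map_zero, zero_div]
      exact zero_le
  -- they are in `κ(s)`
  have hmem : ∀ m, coeff m P / coeff m₀ P ∈ adjP κ s := by
    intro m
    refine mem_of_fixed _ _ fun τ hτ => ?_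
    obtain ⟨k, hk, hk'⟩ : ∃ k : ℂ, k ≠ 0 ∧ map (τ : ℂ →+* ℂ) P = MvPolynomial.C k * P := by
      have h1 := isCh_map τ W
      rw [hWst τ hτ, ← hP] at h1
      obtain ⟨k, hk, hk'⟩ := h1
      exact ⟨k, hk, by rw [hk', hP]⟩
    have h2 : ∀ n, τ (coeff n P) = k * coeff n P := by
      intro n
      have h3 := congrArg (coeff n) hk'
      rw [coeff_map, coeff_C_mul] at h3
      exact h3
    rw [map_div₀, h2, h2, mul_div_mul_left _ _ hk]
  -- the reductions
  have hval : ∀ m, ∃ c, Sp V C (coeff m P / coeff m₀ P) c ∧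
      Sp V' C (σ (coeff m P / coeff m₀ P)) c := by
    intro m
    obtain ⟨e, f₁, g₁, hf₁, hg₁, hfκ, hgκ, h0, h1⟩ := exists_quot (hmem m)
    have hgF : ¬ F ∣ g₁ := by
      rintro ⟨r, hr⟩
      apply h0
      rw [hr, map_mul]
      have h2 : aeval s.rep F = 0 := hs.1
      rw [h2, zero_mul]
    have hint : aeval s.rep f₁ / aeval s.rep g₁ ∈ V := by
      rw [← h1]
      exact hcV m
    obtain ⟨c, hc, hc'⟩ := value_unique hd hF κ C hκ hFκ hC hκC hs hs' hqκ hV hV' h h' hf₁ hg₁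
      hfκ hgκ hgF hint
    refine ⟨c, ?_, ?_⟩
    · rw [h1]
      exact hc
    · rw [h1, ← quot_act hσ hf₁ hg₁ hfκ hgκ, hσs]
      exact hc'
  choose c hc hc' using hval
  -- the normalised Chow form and its reduction
  obtain ⟨N, hN⟩ : ∃ N, N = MvPolynomial.C (coeff m₀ P)⁻¹ * P := ⟨_, rfl⟩
  have hNc : ∀ m, coeff m N = coeff m P / coeff m₀ P := by
    intro m
    rw [hN, coeff_C_mul, div_eq_inv_mul]
  obtain ⟨H, hH⟩ : ∃ H : MvPolynomial (Fin 4) ℂ, H = ∑ m ∈ P.support, monomial m (c m) := ⟨_, rfl⟩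
  have hHc : ∀ m, coeff m H = c m := by
    intro m
    have h1 : coeff m H = if m ∈ P.support then c m else 0 := by
      rw [hH, coeff_sum]
      simp only [coeff_monomial]
      rw [Finset.sum_ite_eq' P.support m fun m => c m]
    rw [h1]
    split_ifs with hm
    · rfl
    · have h2 := hc m
      rw [notMem_support_iff.1 hm, zero_div] at h2
      exact Sp.unique hV (Sp.const hV C.zero_mem) h2
  have hH0 : H ≠ 0 := by
    intro h0
    have h1 := hHc m₀
    rw [h0, coeff_zero] at h1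
    have h2 := hc m₀
    rw [div_self hm₀, ← h1] at h2
    exact one_ne_zero (Sp.unique hV (Sp.const hV C.one_mem) h2)
  have hs1 : SpM V C N H := by
    intro m
    rw [hNc, hHc]
    exact hc m
  have hs2 : SpM V' C (map (σ : ℂ →+* ℂ) N) H := by
    intro m
    rw [coeff_map, hNc, hHc]
    exact hc' m
  have hNW : IsCh N W := by
    refine ⟨(coeff m₀ P)⁻¹, inv_ne_zero hm₀, ?_⟩
    rw [hN, ← hP]
  -- first side
  have key : ∀ (V₀ : ValuationSubring ℂ) (hV₀ : IsPl V₀ C) (N₀ : MvPolynomial (Fin 4) ℂ)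
      (W₀ : Multiset PP) (g : PP → PP), IsCh N₀ W₀ → SpM V₀ C N₀ H →
      (∀ x ∈ W₀, SpP V₀ C x (g x)) → IsCh H (W₀.map g) := by
    intro V₀ hV₀ N₀ W₀ g hCh hSp hg
    have h1 : ∀ p ∈ W₀, ∃ z w : Fin 4 → ℂ, (∃ hz : z ≠ 0, p = Projectivization.mk ℂ z hz) ∧
        (∃ hw : w ≠ 0, g p = Projectivization.mk ℂ w hw) ∧ ∀ i, Sp V₀ C (z i) (w i) := by
      intro p hp
      obtain ⟨z, w, hz, hw, h2, h3, h4⟩ := hg p hp
      exact ⟨z, w, ⟨hz, h2⟩, ⟨hw, h3⟩, h4⟩
    choose! z w hz hw hzw using h1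
    have hZ : IsCh (W₀.map fun p => linForm (z p)).prod W₀ := by
      have h2 := isCh_prod W₀ z id hz
      rwa [Multiset.map_id] at h2
    have hW' : IsCh (W₀.map fun p => linForm (w p)).prod (W₀.map g) := isCh_prod W₀ w g hw
    obtain ⟨k, -, hk⟩ := hCh.ratio hZ
    obtain ⟨a, ha, ha'⟩ := hSp.ratio hV₀ (SpM.prod hV₀ W₀ z w hzw) hk hH0 hW'.ne_zero
    rw [ha']
    exact hW'.C_mul ha
  have e1 : IsCh H (W.map f) := key V hV N W f hNW hs1 hf
  have e2 : IsCh H ((W.map (act σ)).map fun y => f' (act σ⁻¹ y)) := by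
    refine key V' hV' (map (σ : ℂ →+* ℂ) N) (W.map (act σ)) _ (hNW.map σ) hs2 ?_
    intro y hy
    obtain ⟨x, hx, rfl⟩ := Multiset.mem_map.1 hy
    rw [act_inv_act]
    exact hf' x hx
  have e3 : (W.map (act σ)).map (fun y => f' (act σ⁻¹ y)) = W.map f' := by
    rw [Multiset.map_map]
    refine Multiset.map_congr rfl fun x _ => ?_
    rw [Function.comp_apply, act_inv_act]
  rw [e3] at e2
  exact e1.unique e2

end Pool.Agent.VGS
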