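import Pool.Agent.VGS.GenP
import Pool.Agent.VGS.PlaceP
import Pool.Agent.VGS.Dvr

/-! Module Twd, first part: the value of a rational function at a point of codimension at most
one does not depend on the specialisation. -/

set_option autoImplicit false

open scoped LinearAlgebra.Projectivization
open MvPolynomial

namespace Pool.Agent.VGS

open Pool.Agent.LowDeg (surf IsSmoothForm)

variable {F : MvPolynomial (Fin 4) ℂ} {d : ℕ}

/-! ### lifting polynomials, dehomogenisation -/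

theorem vu_lift {L : Fl} {ι : Type} {G : MvPolynomial ι ℂ} (hG : Coef L G) :
    ∃ G' : MvPolynomial ι L, MvPolynomial.map (algebraMap L ℂ) G' = G := by
  refine ⟨∑ m ∈ G.support, monomial m ⟨coeff m G, hG m⟩, ?_⟩
  rw [map_sum]
  conv_rhs => rw [← support_sum_monomial_coeff G]
  refine Finset.sum_congr rfl fun m _ => ?_
  rw [map_monomial]
  rfl

/-- The substitution `X_i = 1`. -/
noncomputable def vu_deh (L : Fl) (i : Fin 4) :
    MvPolynomial (Fin 4) L →ₐ[L] MvPolynomial (Fin 3) L :=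
  aeval (i.insertNth (α := fun _ => MvPolynomial (Fin 3) L) 1 X)

theorem vu_deh_X_self (L : Fl) (i : Fin 4) : vu_deh L i (X i) = 1 := by
  rw [vu_deh, aeval_X, Fin.insertNth_apply_same]

theorem vu_deh_X (L : Fl) (i : Fin 4) (k : Fin 3) : vu_deh L i (X (i.succAbove k)) = X k := by
  rw [vu_deh, aeval_X, Fin.insertNth_apply_succAbove]

theorem vu_deh_aeval {L : Fl} {i : Fin 4} {y : Fin 4 → ℂ} (hy : y i = 1)
    (G : MvPolynomial (Fin 4) L) :
    aeval (fun k => y (i.succAbove k)) (vu_deh L i G) =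
      aeval y (MvPolynomial.map (algebraMap L ℂ) G) := by
  rw [aeval_map_algebraMap]
  have h : (aeval (fun k => y (i.succAbove k)) : MvPolynomial (Fin 3) L →ₐ[L] ℂ).comp (vu_deh L i) =
      (aeval y : MvPolynomial (Fin 4) L →ₐ[L] ℂ) := by
    apply MvPolynomial.algHom_ext
    intro j
    rw [AlgHom.comp_apply, aeval_X]
    rcases Fin.eq_self_or_eq_succAbove i j with rfl | ⟨k, rfl⟩
    · rw [vu_deh_X_self, map_one, hy]
    · rw [vu_deh_X, aeval_X]
  exact congrArg (fun φ : MvPolynomial (Fin 4) L →ₐ[L] ℂ => φ G) h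

theorem vu_deh_pderiv {L : Fl} (i : Fin 4) (k : Fin 3) (G : MvPolynomial (Fin 4) L) :
    pderiv k (vu_deh L i G) = vu_deh L i (pderiv (i.succAbove k) G) := by
  induction G using MvPolynomial.induction_on with
  | C a =>
    have h1 : vu_deh L i (C a) = C a := by
      rw [vu_deh, aeval_C]
      rfl
    rw [h1, pderiv_C, pderiv_C, map_zero]
  | add p q hp hq => rw [map_add, map_add, hp, hq, map_add, map_add]
  | mul_X p j hp =>
    rw [map_mul, Derivation.leibniz, Derivation.leibniz, map_add, hp, smul_eq_mul, smul_eq_mul,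
      smul_eq_mul, smul_eq_mul, map_mul, map_mul]
    congr 1
    · congr 1
      rcases Fin.eq_self_or_eq_succAbove i j with rfl | ⟨l, rfl⟩
      · rw [vu_deh_X_self, pderiv_X_of_ne (Fin.succAbove_ne _ k).symm, map_zero]
        exact (pderiv k).map_one_eq_zero
      · rw [vu_deh_X]
        by_cases h : l = k
        · subst h
          rw [pderiv_X_self, pderiv_X_self, map_one]
        · rw [pderiv_X_of_ne h, pderiv_X_of_ne (fun h' => h (Fin.succAbove_right_injective h')),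
            map_zero]

/-! ### the local computation -/

variable {V : ValuationSubring ℂ} {C κ : Fl}

theorem vu_sp (hV : IsPl V C) (hκC : κ ≤ C) {s q : Fin 3 → ℂ} (h : ∀ k, Sp V C (s k) (q k))
    (A : MvPolynomial (Fin 3) κ) : Sp V C (aeval s A) (aeval q A) := by
  have h1 : Coef C (MvPolynomial.map (algebraMap κ ℂ) A) := by
    intro m
    rw [coeff_map]
    exact hκC (coeff m A).2
  have h2 := Sp.aeval hV h1 h
  rwa [aeval_map_algebraMap, aeval_map_algebraMap] at h2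

/-- The ratio of two functions, in terms of a uniformiser. -/
theorem vu_ratio {s : Fin 3 → ℂ} {P f g g₀ A B A' B' : MvPolynomial (Fin 3) κ} {n m : ℕ}
    (hP : aeval s P = 0) (h1 : P ∣ B * f - A * g₀ ^ n) (h2 : P ∣ B' * g - A' * g₀ ^ m)
    (hB : aeval s B ≠ 0) (hA' : aeval s A' ≠ 0) (hg : aeval s g ≠ 0) :
    aeval s f / aeval s g * aeval s g₀ ^ m =
      aeval s A * aeval s B' / (aeval s B * aeval s A') * aeval s g₀ ^ n := by
  have e1 : aeval s B * aeval s f = aeval s A * aeval s g₀ ^ n := by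
    obtain ⟨Q, hQ⟩ := h1
    have := congrArg (aeval s) hQ
    rw [map_mul, hP, zero_mul, map_sub, map_mul, map_mul, map_pow] at this
    exact sub_eq_zero.1 this
  have e2 : aeval s B' * aeval s g = aeval s A' * aeval s g₀ ^ m := by
    obtain ⟨Q, hQ⟩ := h2
    have := congrArg (aeval s) hQ
    rw [map_mul, hP, zero_mul, map_sub, map_mul, map_mul, map_pow] at this
    exact sub_eq_zero.1 this
  rw [div_mul_eq_mul_div, div_mul_eq_mul_div, div_eq_div_iff hg (mul_ne_zero hB hA')]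
  linear_combination (aeval s g₀ ^ m * aeval s A') * e1 - (aeval s A * aeval s g₀ ^ n) * e2

theorem vu_le (hV : IsPl V C) (hκC : κ ≤ C) {s q : Fin 3 → ℂ} (h : ∀ k, Sp V C (s k) (q k))
    {P f g g₀ A B A' B' : MvPolynomial (Fin 3) κ} {n m : ℕ}
    (hP : aeval s P = 0) (h1 : P ∣ B * f - A * g₀ ^ n) (h2 : P ∣ B' * g - A' * g₀ ^ m)
    (hB : aeval q B ≠ 0) (hA' : aeval q A' ≠ 0) (hg : aeval s g ≠ 0)
    (hm : aeval s g₀ ^ m ≠ 0) (hn : 0 < n → aeval q g₀ = 0) (hmn : m ≤ n) :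
    Sp V C (aeval s f / aeval s g)
      (if n = m then aeval q A * aeval q B' / (aeval q B * aeval q A') else 0) := by
  have hBs : aeval s B ≠ 0 := (vu_sp hV hκC h B).ne_zero hV hB
  have hAs' : aeval s A' ≠ 0 := (vu_sp hV hκC h A').ne_zero hV hA'
  have e := vu_ratio hP h1 h2 hBs hAs' hg
  have e2 : aeval s f / aeval s g =
      aeval s A * aeval s B' / (aeval s B * aeval s A') * aeval s g₀ ^ (n - m) := by
    apply mul_right_cancel₀ hm
    rw [e, mul_assoc, ← pow_add, Nat.sub_add_cancel hmn]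
  rw [e2]
  have h3 : Sp V C (aeval s A * aeval s B' / (aeval s B * aeval s A'))
      (aeval q A * aeval q B' / (aeval q B * aeval q A')) :=
    Sp.div hV ((vu_sp hV hκC h A).mul hV (vu_sp hV hκC h B'))
      ((vu_sp hV hκC h B).mul hV (vu_sp hV hκC h A')) (mul_ne_zero hB hA')
  split_ifs with hnm
  · rw [hnm, Nat.sub_self, pow_zero, mul_one]
    exact h3
  · have h4 := h3.mul hV ((vu_sp hV hκC h g₀).pow hV (n - m))
    rw [hn (by omega), zero_pow (by omega), mul_zero] at h4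
    exact h4

theorem vu_lt (hV : IsPl V C) (hκC : κ ≤ C) {s q : Fin 3 → ℂ} (h : ∀ k, Sp V C (s k) (q k))
    {P f g g₀ A B A' B' : MvPolynomial (Fin 3) κ} {n m : ℕ}
    (hP : aeval s P = 0) (h1 : P ∣ B * f - A * g₀ ^ n) (h2 : P ∣ B' * g - A' * g₀ ^ m)
    (hA : aeval q A ≠ 0) (hB' : aeval q B' ≠ 0) (hf : aeval s f ≠ 0) (hg : aeval s g ≠ 0)
    (hn : aeval s g₀ ^ n ≠ 0) (hm : 0 < m → aeval q g₀ = 0) (hmn : n < m) :
    aeval s f / aeval s g ∉ V := by
  have h3 := vu_le hV hκC h hP h2 h1 hB' hA hf hn hm hmn.le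
  rw [if_neg (by omega)] at h3
  have h4 := h3.2
  rw [sub_zero, pp_lt_one_iff] at h4
  rcases h4 with h4 | h4
  · exact absurd h4 (div_ne_zero hg hf)
  · rwa [inv_div] at h4

/-! ### points -/

theorem vu_nrm (hV : IsPl V C) {s : PP} {w : Fin 4 → ℂ} (hw : w ≠ 0) {i : Fin 4} (hwi : w i = 1)
    (h : SpP V C s (Projectivization.mk ℂ w hw)) : ∃ (z : Fin 4 → ℂ) (hz : z ≠ 0), z i = 1 ∧
      s = Projectivization.mk ℂ z hz ∧ ∀ j, Sp V C (z j) (w j) := by
  have h' := h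
  obtain ⟨z', w', hz', hw', hp, hq, h1⟩ := h'
  obtain ⟨b, hb0, hb⟩ := pp_cross_of_eq hq.symm
  have hwi' : w' i ≠ 0 := by
    rw [hb i, hwi, mul_one]
    exact hb0
  have hzi : z' i ≠ 0 := (h1 i).ne_zero hV hwi'
  have h2 : (fun j => z' j / z' i) i = 1 := div_self hzi
  have hz : (fun j => z' j / z' i) ≠ 0 := by
    intro h0
    rw [h0] at h2
    exact zero_ne_one h2
  have hs : s = Projectivization.mk ℂ _ hz := by
    rw [hp]
    exact mk_eq_mk_of_mul hz' hz (a := z' i) fun j => (mul_div_cancel₀ _ hzi).symm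
  refine ⟨_, hz, h2, hs, ?_⟩
  rw [hs] at h
  exact (spP_mk hV hz hw h2 hwi).1 h

theorem vu_rep {s : PP} {z : Fin 4 → ℂ} (hz : z ≠ 0) (hs : s = Projectivization.mk ℂ z hz)
    {e : ℕ} {f g : MvPolynomial (Fin 4) ℂ} (hf : f.IsHomogeneous e) (hg : g.IsHomogeneous e) :
    aeval s.rep f / aeval s.rep g = aeval z f / aeval z g := by
  obtain ⟨a, ha⟩ := Projectivization.exists_smul_eq_mk_rep ℂ z hz
  have h1 : ∀ i, s.rep i = (a : ℂ) * z i := by
    intro i
    rw [hs, ← ha]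
    rfl
  rw [aeval_scale hf h1, aeval_scale hg h1, mul_div_mul_left _ _ (pow_ne_zero _ a.ne_zero)]

theorem vu_factor {G : MvPolynomial (Fin 3) κ} (hG : G ≠ 0) {s : Fin 3 → ℂ} (h : aeval s G = 0) :
    ∃ P Q : MvPolynomial (Fin 3) κ, Irreducible P ∧ G = P * Q ∧ aeval s P = 0 := by
  obtain ⟨f, hf, hf'⟩ := UniqueFactorizationMonoid.exists_prime_factors G hG
  obtain ⟨u, hu⟩ := hf'
  have h1 : aeval s f.prod = 0 := by
    rw [← hu, map_mul] at h
    rcases mul_eq_zero.1 h with h2 | h2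
    · exact h2
    · exact absurd h2 ((u.isUnit.map (aeval s : MvPolynomial (Fin 3) κ →ₐ[κ] ℂ)).ne_zero)
  rw [map_multiset_prod, Multiset.prod_eq_zero_iff] at h1
  obtain ⟨P, hP, hP0⟩ := Multiset.mem_map.1 h1
  obtain ⟨Q, hQ⟩ := (Multiset.dvd_prod hP).trans (Dvd.intro _ hu)
  exact ⟨P, Q, (hf P hP).irreducible, hQ, hP0⟩

/-- The value at `q` of a rational function over `κ` does not depend on the specialisation: if
`s → q` and `s' → q` and `f / h` is integral at `s`, it is integral at `s'`, with the same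
value. -/
theorem value_unique (hd : 4 ≤ d) (hF : IsSmoothForm F d) (κ C : Fl) [Countable κ]
    (hκ : clo κ = κ) (hFκ : Coef κ F) (hC : clo C = C) (hκC : κ ≤ C) {s s' q : PP}
    (hs : s ∈ Gen κ F) (hs' : s' ∈ Gen κ F) (hqκ : ¬ Over κ q)
    {V V' : ValuationSubring ℂ} (hV : IsPl V C) (hV' : IsPl V' C) (h : SpP V C s q)
    (h' : SpP V' C s' q) {e : ℕ} {f g : MvPolynomial (Fin 4) ℂ} (hf : f.IsHomogeneous e)
    (hg : g.IsHomogeneous e) (hfκ : Coef κ f) (hgκ : Coef κ g) (hgF : ¬ F ∣ g)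
    (hint : aeval s.rep f / aeval s.rep g ∈ V) :
    ∃ c, Sp V C (aeval s.rep f / aeval s.rep g) c ∧
      Sp V' C (aeval s'.rep f / aeval s'.rep g) c := by
  by_cases hfF : F ∣ f
  · obtain ⟨Q, rfl⟩ := hfF
    refine ⟨0, ?_, ?_⟩
    · have h1 : aeval s.rep F = 0 := hs.1
      rw [map_mul, h1, zero_mul, zero_div]
      exact Sp.const hV C.zero_mem
    · have h1 : aeval s'.rep F = 0 := hs'.1
      rw [map_mul, h1, zero_mul, zero_div]
      exact Sp.const hV' C.zero_mem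
  obtain ⟨w, hw, i, hwi, rfl⟩ := exists_nrm q
  have hqF : aeval w F = 0 := (mem_surf_mk hF.hom hw).1 (h.mem_surf hV hF.hom (hFκ.mono hκC) hs.1)
  obtain ⟨z, hz, hzi, hsz, hzw⟩ := vu_nrm hV hw hwi h
  obtain ⟨z', hz', hzi', hsz', hzw'⟩ := vu_nrm hV' hw hwi h'
  rw [vu_rep hz hsz hf hg] at hint
  rw [vu_rep hz hsz hf hg, vu_rep hz' hsz' hf hg]
  obtain ⟨F₁, hF₁⟩ := vu_lift hFκ
  obtain ⟨f₁, hf₁⟩ := vu_lift hfκ
  obtain ⟨g₁, hg₁⟩ := vu_lift hgκ
  set q₁ : Fin 3 → ℂ := fun k => w (i.succAbove k) with hq₁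
  set s₁ : Fin 3 → ℂ := fun k => z (i.succAbove k) with hs₁
  set s₁' : Fin 3 → ℂ := fun k => z' (i.succAbove k) with hs₁'
  have hsp : ∀ k, Sp V C (s₁ k) (q₁ k) := fun k => hzw _
  have hsp' : ∀ k, Sp V' C (s₁' k) (q₁ k) := fun k => hzw' _
  have evq : ∀ (G : MvPolynomial (Fin 4) κ), aeval q₁ (vu_deh κ i G) =
      aeval w (MvPolynomial.map (algebraMap κ ℂ) G) := fun G => vu_deh_aeval hwi G
  have evs : ∀ (G : MvPolynomial (Fin 4) κ), aeval s₁ (vu_deh κ i G) =
      aeval z (MvPolynomial.map (algebraMap κ ℂ) G) := fun G => vu_deh_aeval hzi G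
  have evs' : ∀ (G : MvPolynomial (Fin 4) κ), aeval s₁' (vu_deh κ i G) =
      aeval z' (MvPolynomial.map (algebraMap κ ℂ) G) := fun G => vu_deh_aeval hzi' G
  -- a partial derivative
  obtain ⟨j, hj⟩ : ∃ j, aeval q₁ (pderiv j (vu_deh κ i F₁)) ≠ 0 := by
    by_contra hno
    push Not at hno
    have h1 : ∀ j, aeval w (pderiv (i.succAbove j) F) = 0 := by
      intro j
      have h2 := hno j
      rw [vu_deh_pderiv, evq, ← pderiv_map, hF₁] at h2
      exact h2
    obtain ⟨l, hl⟩ := hF.smooth w hw hqF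
    have hE := hF.hom.sum_X_mul_pderiv
    have h3 := congrArg (aeval w) hE
    rw [map_sum, map_nsmul, hqF, smul_zero, Fin.sum_univ_succAbove _ i] at h3
    rcases Fin.eq_self_or_eq_succAbove i l with rfl | ⟨k, rfl⟩
    · apply hl
      rw [Finset.sum_eq_zero, add_zero, map_mul, aeval_X, hwi, one_mul] at h3
      · exact h3
      · intro k _
        rw [map_mul, h1, mul_zero]
    · exact hl (h1 k)
  have hF₁0 : vu_deh κ i F₁ ≠ 0 := by
    intro h0
    rw [h0, map_zero, map_zero] at hj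
    exact hj rfl
  have hzF : aeval z F = 0 := (mem_surf_mk hF.hom hz).1 (hsz ▸ hs.1)
  have hzF' : aeval z' F = 0 := (mem_surf_mk hF.hom hz').1 (hsz' ▸ hs'.1)
  obtain ⟨P, Q, hP, hPQ, hPs⟩ := vu_factor hF₁0 (s := s₁) (by rw [evs, hF₁, hzF])
  have hPq : aeval q₁ P = 0 := by
    have h1 := vu_sp hV hκC hsp P
    rw [hPs] at h1
    exact (Sp.unique hV h1 (Sp.const hV C.zero_mem))
  have hj2 : aeval q₁ (pderiv j P) ≠ 0 ∧ aeval q₁ Q ≠ 0 := by
    rw [hPQ, Derivation.leibniz, map_add, smul_eq_mul, smul_eq_mul, map_mul, map_mul, hPq,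
      zero_mul, zero_add] at hj
    exact ⟨right_ne_zero_of_mul hj, left_ne_zero_of_mul hj⟩
  have hPs' : aeval s₁' P = 0 := by
    have h1 : aeval s₁' (vu_deh κ i F₁) = 0 := by rw [evs', hF₁, hzF']
    rw [hPQ, map_mul] at h1
    rcases mul_eq_zero.1 h1 with h2 | h2
    · exact h2
    · exact absurd h2 ((vu_sp hV' hκC hsp' Q).ne_zero hV' hj2.2)
  have hclosed : IsAlgClosed κ := by
    rw [← hκ]
    exact isAlgClosed_clo κ
  obtain ⟨g₀, hg₀⟩ := dvr P hP q₁ hPq (by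
    by_contra hno
    push Not at hno
    apply hqκ
    refine (over_mk hw hwi).2 fun j => ?_
    rcases Fin.eq_self_or_eq_succAbove i j with rfl | ⟨k, rfl⟩
    · rw [hwi]
      exact κ.one_mem
    · obtain ⟨x, hx⟩ := hno k
      have hx' : (x : ℂ) = w (i.succAbove k) := hx
      rw [← hx']
      exact x.2) ⟨j, hj2.1⟩
  have fsz : aeval z f ≠ 0 := fun h0 =>
    hfF (hs.2 e f hf hfκ (by rw [hsz]; exact (mem_zero_mk hf hz).2 h0))
  have gsz : aeval z g ≠ 0 := fun h0 =>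
    hgF (hs.2 e g hg hgκ (by rw [hsz]; exact (mem_zero_mk hg hz).2 h0))
  have fsz' : aeval z' f ≠ 0 := fun h0 =>
    hfF (hs'.2 e f hf hfκ (by rw [hsz']; exact (mem_zero_mk hf hz').2 h0))
  have gsz' : aeval z' g ≠ 0 := fun h0 =>
    hgF (hs'.2 e g hg hgκ (by rw [hsz']; exact (mem_zero_mk hg hz').2 h0))
  have ef : aeval s₁ (vu_deh κ i f₁) = aeval z f := by rw [evs, hf₁]
  have eg : aeval s₁ (vu_deh κ i g₁) = aeval z g := by rw [evs, hg₁]
  have ef' : aeval s₁' (vu_deh κ i f₁) = aeval z' f := by rw [evs', hf₁]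
  have eg' : aeval s₁' (vu_deh κ i g₁) = aeval z' g := by rw [evs', hg₁]
  have hPf : ¬ P ∣ vu_deh κ i f₁ := by
    rintro ⟨R, hR⟩
    apply fsz
    rw [← ef, hR, map_mul, hPs, zero_mul]
  have hPg : ¬ P ∣ vu_deh κ i g₁ := by
    rintro ⟨R, hR⟩
    apply gsz
    rw [← eg, hR, map_mul, hPs, zero_mul]
  obtain ⟨n, A, B, hA, hB, hdvd, hn0, hn1⟩ := hg₀ _ hPf
  obtain ⟨m, A', B', hA', hB', hdvd', hm0, hm1⟩ := hg₀ _ hPg
  have hn : 0 < n → aeval q₁ g₀ = 0 := by
    intro h0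
    by_cases h1 : aeval q₁ (vu_deh κ i f₁) = 0
    · exact (hn1 h1).2
    · exact absurd (hn0 h1) (by omega)
  have hm : 0 < m → aeval q₁ g₀ = 0 := by
    intro h0
    by_cases h1 : aeval q₁ (vu_deh κ i g₁) = 0
    · exact (hm1 h1).2
    · exact absurd (hm0 h1) (by omega)
  -- powers of the uniformiser do not vanish
  have pw : ∀ {t : Fin 3 → ℂ} {a b : MvPolynomial (Fin 3) κ} {G : MvPolynomial (Fin 3) κ} {k : ℕ},
      aeval t P = 0 → P ∣ b * G - a * g₀ ^ k → aeval t b ≠ 0 → aeval t G ≠ 0 →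
      aeval t g₀ ^ k ≠ 0 := by
    intro t a b G k ht hd' hb hG h0
    obtain ⟨R, hR⟩ := hd'
    have h2 := congrArg (aeval t) hR
    rw [map_mul, ht, zero_mul, map_sub, map_mul, map_mul, map_pow, h0, mul_zero, sub_zero] at h2
    exact (mul_ne_zero hb hG) h2
  have sB := (vu_sp hV hκC hsp B).ne_zero hV hB
  have sB' := (vu_sp hV hκC hsp B').ne_zero hV hB'
  have sB1 := (vu_sp hV' hκC hsp' B).ne_zero hV' hB
  have sB1' := (vu_sp hV' hκC hsp' B').ne_zero hV' hB'
  have hmn : m ≤ n := by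
    by_contra hlt
    rw [not_le] at hlt
    refine vu_lt hV hκC hsp hPs hdvd hdvd' hA hB' (by rw [ef]; exact fsz) (by rw [eg]; exact gsz)
      (pw hPs hdvd sB (by rw [ef]; exact fsz)) hm hlt ?_
    rw [ef, eg]
    exact hint
  refine ⟨if n = m then aeval q₁ A * aeval q₁ B' / (aeval q₁ B * aeval q₁ A') else 0, ?_, ?_⟩
  · have h1 := vu_le hV hκC hsp hPs hdvd hdvd' hB hA' (by rw [eg]; exact gsz)
      (pw hPs hdvd' sB' (by rw [eg]; exact gsz)) hn hmn
    rw [ef, eg] at h1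
    exact h1
  · have h1 := vu_le hV' hκC hsp' hPs' hdvd hdvd' hB hA' (by rw [eg']; exact gsz')
      (pw hPs' hdvd' sB1' (by rw [eg']; exact gsz')) hn hmn
    rw [ef', eg'] at h1
    exact h1

end Pool.Agent.VGS
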